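import Pool.Agent.P.MP_b8021b_nt.BS.PoiN

/-!
Fourier transform of Gaussians on `J → ℂ` and Poisson summation on a lattice.
-/

namespace Pool.Agent.P.MP_b8021b_nt.PoiN

open MeasureTheory Set Filter Topology Complex
open scoped ComplexConjugate

noncomputable section

/-- one dimensional Gaussian with a character -/
def g1 (y p : ℝ) (u : ℝ) : ℂ := cexp (-(2 * Real.pi * y : ℂ) * u ^ 2 + (-(4 * Real.pi * I * p)) * u + 0)

lemma g1_int {y : ℝ} (hy : 0 < y) (p : ℝ) : Integrable (g1 y p) := by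
  refine integrable_cexp_quadratic ?_ _ _
  have : (2 * Real.pi * y : ℂ) = ((2 * Real.pi * y : ℝ) : ℂ) := by push_cast; ring
  rw [this, ofReal_re]; positivity

lemma norm_g1 (y p u : ℝ) : ‖g1 y p u‖ = Real.exp (-(2 * Real.pi * y) * u ^ 2) := by
  unfold g1
  rw [norm_exp]
  congr 1
  have : (-(2 * Real.pi * y : ℂ) * u ^ 2 + (-(4 * Real.pi * I * p)) * u + 0) =
    ((-(2 * Real.pi * y) * u ^ 2 : ℝ) : ℂ) + ((-(4 * Real.pi * p) * u : ℝ) : ℂ) * I := by
    push_cast; ring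
  rw [this]
  simp only [add_re, ofReal_re, mul_re, I_re, I_im, ofReal_im, mul_zero, zero_mul, sub_zero,
    add_zero]

lemma g1_int' {y : ℝ} (hy : 0 < y) (p : ℝ) : Integrable fun u : ℝ => (u : ℂ) * g1 y p u := by
  have h := (integrable_mul_exp_neg_mul_sq (b := 2 * Real.pi * y) (by positivity)).norm
  refine h.mono' (Continuous.aestronglyMeasurable (by unfold g1; fun_prop))
    (Eventually.of_forall fun u => ?_)
  rw [norm_mul, norm_mul, norm_g1, norm_real, Real.norm_of_nonneg (Real.exp_pos _).le]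

lemma integral_g1 {y : ℝ} (hy : 0 < y) (p : ℝ) :
    ∫ u, g1 y p u = (1 / (2 * y) : ℂ) ^ (1 / 2 : ℂ) * cexp (-(2 * Real.pi * p ^ 2 / y)) := by
  have hb : (-(2 * Real.pi * y : ℂ)).re < 0 := by
    have : (2 * Real.pi * y : ℂ) = ((2 * Real.pi * y : ℝ) : ℂ) := by push_cast; ring
    rw [this, neg_re, ofReal_re, neg_lt_zero]; positivity
  have hy' : (y : ℂ) ≠ 0 := by exact_mod_cast hy.ne'
  have hp : (Real.pi : ℂ) ≠ 0 := by exact_mod_cast Real.pi_ne_zero
  unfold g1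
  rw [integral_cexp_quadratic hb]
  congr 2
  · field_simp
  · field_simp
    linear_combination (4 * Real.pi * (p : ℂ) ^ 2) * I_sq

lemma integral_g1' {y : ℝ} (hy : 0 < y) (p : ℝ) :
    ∫ u : ℝ, (u : ℂ) * g1 y p u = (-I * p / y) * ∫ u, g1 y p u := by
  have hy' : (y : ℂ) ≠ 0 := by exact_mod_cast hy.ne'
  have hp : (Real.pi : ℂ) ≠ 0 := by exact_mod_cast Real.pi_ne_zero
  have hd : ∀ u : ℝ, HasDerivAt (g1 y p) (-(4 * Real.pi * y : ℂ) * (u * g1 y p u) +
      (-(4 * Real.pi * I * p)) * g1 y p u) u := by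
    intro u
    have h1 : HasDerivAt (fun z : ℂ => -(2 * Real.pi * y : ℂ) * z ^ 2 +
        (-(4 * Real.pi * I * p)) * z + 0) (-(2 * Real.pi * y : ℂ) * (2 * u) +
        (-(4 * Real.pi * I * p))) (u : ℂ) := by
      have := ((((hasDerivAt_pow 2 (u : ℂ)).const_mul (-(2 * Real.pi * y : ℂ))).add
        ((hasDerivAt_id (u : ℂ)).const_mul (-(4 * Real.pi * I * p)))).add_const 0)
      exact this.congr_deriv (by simp)
    have h2 := h1.cexp.comp_ofReal
    refine HasDerivAt.congr_deriv h2 ?_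
    unfold g1
    ring
  have h0 := integral_eq_zero_of_hasDerivAt_of_integrable hd
    (((g1_int' hy p).const_mul _).add ((g1_int hy p).const_mul _)) (g1_int hy p)
  rw [integral_add ((g1_int' hy p).const_mul _) ((g1_int hy p).const_mul _),
    integral_const_mul, integral_const_mul] at h0
  field_simp
  have h4 : (4 * Real.pi : ℂ) ≠ 0 := mul_ne_zero (by norm_num) hp
  apply mul_left_cancel₀ h4
  linear_combination (-1 : ℂ) * h0

/-- a Gaussian on `ℂ` times `z ^ a` -/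
def gau (a : ℕ) (y : ℝ) (z : ℂ) : ℂ := z ^ a * (Real.exp (-(2 * Real.pi * y * ‖z‖ ^ 2)) : ℝ)

/-- its Fourier transform -/
def gauh (a : ℕ) (y : ℝ) (κ : ℂ) : ℂ :=
  (-I * conj κ / y) ^ a * (1 / (2 * y)) * (Real.exp (-(2 * Real.pi * ‖κ‖ ^ 2 / y)) : ℝ)

lemma ft_gau {a : ℕ} (ha : a ≤ 1) {y : ℝ} (hy : 0 < y) (κ : ℂ) :
    ∫ z, gau a y z * ee (-(2 * (z * κ).re)) = gauh a y κ := by
  have hy' : (y : ℂ) ≠ 0 := by exact_mod_cast hy.ne'
  rw [← (Complex.volume_preserving_equiv_real_prod.symm).integral_comp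
    measurableEquivRealProd.symm.measurableEmbedding]
  have key : ∀ q : ℝ × ℝ, gau a y (measurableEquivRealProd.symm q) *
      ee (-(2 * (measurableEquivRealProd.symm q * κ).re)) =
      (q.1 + q.2 * I) ^ a * (g1 y κ.re q.1 * g1 y (-κ.im) q.2) := by
    intro q
    have hq : measurableEquivRealProd.symm q = q.1 + q.2 * I := by
      rw [measurableEquivRealProd_symm_apply]; apply Complex.ext <;> simp
    rw [hq, gau, mul_assoc, ee, g1, g1, ofReal_exp, ← exp_add, ← exp_add, Complex.sq_norm,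
      normSq_add_mul_I]
    congr 2
    simp only [mul_re, add_re, add_im, ofReal_re, ofReal_im, I_re, I_im, mul_im]
    push_cast
    ring
  simp only [key]
  have h0 : (∫ u, g1 y κ.re u) * ∫ u, g1 y (-κ.im) u =
      (1 / (2 * y)) * (Real.exp (-(2 * Real.pi * ‖κ‖ ^ 2 / y)) : ℝ) := by
    rw [integral_g1 hy, integral_g1 hy, mul_mul_mul_comm, ← cpow_add _ _ (by simpa using hy'),
      ← exp_add, ofReal_exp, Complex.sq_norm, normSq_apply]
    congr 1
    · norm_num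
    · congr 1
      push_cast
      ring
  rw [gauh, mul_assoc, ← h0]
  obtain rfl | rfl : a = 0 ∨ a = 1 := by omega
  · simp only [pow_zero, one_mul]
    exact integral_prod_mul _ _
  · simp only [pow_one]
    have h1 : ∀ q : ℝ × ℝ, (q.1 + q.2 * I) * (g1 y κ.re q.1 * g1 y (-κ.im) q.2) =
        (q.1 * g1 y κ.re q.1) * g1 y (-κ.im) q.2 +
          I * (g1 y κ.re q.1 * (q.2 * g1 y (-κ.im) q.2)) := fun q => by ring
    simp only [h1]
    rw [Measure.volume_eq_prod, integral_add ((g1_int' hy _).mul_prod (g1_int hy _))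
      (((g1_int hy _).mul_prod (g1_int' hy _)).const_mul _), integral_const_mul,
      integral_prod_mul (fun u : ℝ => (u : ℂ) * g1 y κ.re u),
      integral_prod_mul _ (fun u : ℝ => (u : ℂ) * g1 y (-κ.im) u), integral_g1' hy,
      integral_g1' hy]
    have h2 : conj κ = κ.re - κ.im * I := by apply Complex.ext <;> simp
    rw [h2]
    push_cast
    ring

variable {J : Type} [Fintype J]

/-- the product Gaussian -/
def Gau (a : ℕ) (y : J → ℝ) (z : J → ℂ) : ℂ := ∏ φ, gau a (y φ) (z φ)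

/-- its Fourier transform -/
def Gauh (a : ℕ) (y : J → ℝ) (κ : J → ℂ) : ℂ := ∏ φ, gauh a (y φ) (κ φ)

/-- the trace pairing -/
def BB (z w : J → ℂ) : ℝ := ∑ φ, 2 * (z φ * w φ).re

lemma BB_add (z z' w : J → ℂ) : BB (z + z') w = BB z w + BB z' w := by
  simp only [BB, Pi.add_apply, add_mul, add_re, mul_add, Finset.sum_add_distrib]

lemma ft_Gau {a : ℕ} (ha : a ≤ 1) {y : J → ℝ} (hy : ∀ φ, 0 < y φ) (κ : J → ℂ) :
    ∫ z, Gau a y z * ee (-BB z κ) = Gauh a y κ := by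
  have : ∀ z : J → ℂ, Gau a y z * ee (-BB z κ) =
      ∏ φ, gau a (y φ) (z φ) * ee (-(2 * (z φ * κ φ).re)) := by
    intro z
    rw [Gau, BB, ← Finset.sum_neg_distrib, ee_sum, ← Finset.prod_mul_distrib]
  simp only [this]
  rw [integral_fintype_prod_volume_eq_prod
    (fun φ (z : ℂ) => gau a (y φ) z * ee (-(2 * (z * κ φ).re)))]
  exact Finset.prod_congr rfl fun φ _ => ft_gau ha (hy φ) _

lemma continuous_Gau (a : ℕ) (y : J → ℝ) : Continuous (Gau a y) := by
  unfold Gau gau; fun_prop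

/-- exponential decay -/
def Dec {V : Type} [Norm V] (Φ : V → ℂ) : Prop := ∃ C : ℝ, ∀ z, ‖Φ z‖ ≤ C * Real.exp (-‖z‖)

lemma dec_gau (a : ℕ) {y : ℝ} (hy : 0 < y) : Dec (gau a y) := by
  refine ⟨Real.exp ((a + 1) ^ 2 / (4 * (2 * Real.pi * y))), fun z => ?_⟩
  have hb : 0 < 2 * Real.pi * y := by positivity
  rw [gau, norm_mul, norm_pow, norm_real, Real.norm_of_nonneg (Real.exp_pos _).le]
  generalize 2 * Real.pi * y = b at hb ⊢
  have h1 : ‖z‖ ^ a ≤ Real.exp (a * ‖z‖) := by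
    rw [Real.exp_nat_mul]
    exact pow_le_pow_left₀ (norm_nonneg _) (by linarith [Real.add_one_le_exp ‖z‖]) _
  refine (mul_le_mul_of_nonneg_right h1 (Real.exp_pos _).le).trans ?_
  rw [← Real.exp_add, ← Real.exp_add, Real.exp_le_exp]
  have h2 : ((a : ℝ) + 1) ^ 2 / (4 * b) - (a + 1) * ‖z‖ + b * ‖z‖ ^ 2 =
      (2 * b * ‖z‖ - (a + 1)) ^ 2 / (4 * b) := by field_simp; ring
  have h3 : 0 ≤ (2 * b * ‖z‖ - (a + 1)) ^ 2 / (4 * b) := by positivity
  linarith

lemma dec_gauh (a : ℕ) {y : ℝ} (hy : 0 < y) : Dec (gauh a y) := by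
  obtain ⟨C, hC⟩ := dec_gau a (inv_pos.2 hy)
  refine ⟨‖(-I / y) ^ a * (1 / (2 * y))‖ * C, fun κ => ?_⟩
  have : gauh a y κ = (-I / y) ^ a * (1 / (2 * y)) * gau a y⁻¹ (conj κ) := by
    rw [gauh, gau, norm_conj, show -I * conj κ / y = -I / y * conj κ by ring, mul_pow,
      show 2 * Real.pi * ‖κ‖ ^ 2 / y = 2 * Real.pi * y⁻¹ * ‖κ‖ ^ 2 by ring]
    ring
  rw [this, norm_mul _ (gau _ _ _), mul_assoc]
  exact mul_le_mul_of_nonneg_left (by simpa using hC (conj κ)) (norm_nonneg _)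

lemma dec_prod (g : J → ℂ → ℂ) (h : ∀ φ, Dec (g φ)) : Dec fun z : J → ℂ => ∏ φ, g φ (z φ) := by
  choose C hC using h
  have h0 : ∀ φ, 0 ≤ C φ := fun φ => by simpa using (norm_nonneg _).trans (hC φ 0)
  refine ⟨∏ φ, C φ, fun z => ?_⟩
  rw [norm_prod]
  refine (Finset.prod_le_prod (fun φ _ => norm_nonneg _) fun φ _ => hC φ (z φ)).trans ?_
  rw [Finset.prod_mul_distrib, ← Real.exp_sum]
  refine mul_le_mul_of_nonneg_left (Real.exp_le_exp.2 ?_) (Finset.prod_nonneg fun φ _ => h0 φ)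
  rw [Finset.sum_neg_distrib, neg_le_neg_iff]
  exact (pi_norm_le_iff_of_nonneg (Finset.sum_nonneg fun φ _ => norm_nonneg _)).2 fun φ =>
    Finset.single_le_sum (f := fun φ => ‖z φ‖) (fun φ _ => norm_nonneg _) (Finset.mem_univ φ)

lemma dec_Gau (a : ℕ) {y : J → ℝ} (hy : ∀ φ, 0 < y φ) : Dec (Gau a y) :=
  dec_prod _ fun φ => dec_gau a (hy φ)

lemma dec_Gauh (a : ℕ) {y : J → ℝ} (hy : ∀ φ, 0 < y φ) : Dec (Gauh a y) :=
  dec_prod _ fun φ => dec_gauh a (hy φ)

variable {ι : Type} [Fintype ι]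

lemma Dec.comp {V : Type} [NormedAddCommGroup V] [NormedSpace ℝ V] {Φ : V → ℂ} (h : Dec Φ)
    (L : (ι → ℝ) ≃L[ℝ] V) (ξ : V) :
    ∃ C c : ℝ, 0 < c ∧ ∀ x, ‖Φ (L x + ξ)‖ ≤ C * Real.exp (-c * ∑ i, |x i|) := by
  obtain ⟨C, hC⟩ := h
  have h0 : 0 ≤ C := by simpa using (norm_nonneg _).trans (hC 0)
  set K : ℝ := Fintype.card ι * ‖(L.symm : V →L[ℝ] (ι → ℝ))‖ + 1 with hK
  have hK0 : 0 < K := by positivity
  refine ⟨C * Real.exp ‖ξ‖, K⁻¹, inv_pos.2 hK0, fun x => (hC _).trans ?_⟩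
  rw [mul_assoc, ← Real.exp_add]
  refine mul_le_mul_of_nonneg_left (Real.exp_le_exp.2 ?_) h0
  have h1 : ‖x‖ ≤ ‖(L.symm : V →L[ℝ] (ι → ℝ))‖ * ‖L x‖ := by
    simpa using (L.symm : V →L[ℝ] (ι → ℝ)).le_opNorm (L x)
  have h2 : ∑ i, |x i| ≤ Fintype.card ι * ‖x‖ := by
    simpa using Finset.sum_le_card_nsmul Finset.univ (fun i => |x i|) ‖x‖
      fun i _ => norm_le_pi_norm x i
  have h3 : ∑ i, |x i| ≤ K * ‖L x‖ := by
    have := mul_le_mul_of_nonneg_left h1 (Nat.cast_nonneg (α := ℝ) (Fintype.card ι))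
    nlinarith [norm_nonneg (L x)]
  have h4 : K⁻¹ * ∑ i, |x i| ≤ ‖L x‖ := (inv_mul_le_iff₀ hK0).2 h3
  have h5 := norm_sub_le (L x + ξ) ξ
  rw [add_sub_cancel_right] at h5
  linarith

lemma Dec.summable {V : Type} [NormedAddCommGroup V] [NormedSpace ℝ V] {Φ : V → ℂ} (h : Dec Φ)
    (L : (ι → ℝ) ≃L[ℝ] V) (ξ : V) : Summable fun z : ι → ℤ => Φ (L (fun i => z i) + ξ) := by
  obtain ⟨C, c, hc, h⟩ := h.comp L ξ
  exact Summable.of_norm_bounded ((summable_exp_pi hc).mul_left C) fun z => h _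

/-- Poisson summation on a lattice of `J → ℂ` -/
theorem poissonL (L D : (ι → ℝ) ≃L[ℝ] (J → ℂ))
    (hB : ∀ x w, BB (L x) (D w) = ∑ i, w i * x i) :
    ∃ c : ℝ, (∀ s, volume.real (L ⁻¹' s) = c * volume.real s) ∧
      ∀ Φ Φh : (J → ℂ) → ℂ, Continuous Φ → Dec Φ → Dec Φh →
      (∀ κ, ∫ z, Φ z * ee (-BB z κ) = Φh κ) → ∀ ξ : J → ℂ,
      HasSum (fun k : ι → ℤ => c * (Φh (D fun i => k i) * ee (BB ξ (D fun i => k i))))
        (∑' z : ι → ℤ, Φ (L (fun i => z i) + ξ)) := by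
  have hH : ((volume : Measure (ι → ℝ)).map L).IsAddHaarMeasure := L.isAddHaarMeasure_map _
  set c := Measure.addHaarScalarFactor ((volume : Measure (ι → ℝ)).map L)
    (volume : Measure (J → ℂ)) with hc
  have hμ : (volume : Measure (ι → ℝ)).map L = c • (volume : Measure (J → ℂ)) :=
    Measure.isAddLeftInvariant_eq_smul _ _
  have hL : MeasurableEmbedding L := L.toHomeomorph.measurableEmbedding
  refine ⟨c, fun s => by
    rw [← measureReal_nnreal_smul_apply, ← hμ, Measure.real, Measure.real, hL.map_apply], ?_⟩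
  intro Φ Φh hΦ hd hdh hft ξ
  obtain ⟨C, c', hc', hb⟩ := hd.comp L ξ
  have key : ∀ k : ι → ℤ, ∫ x, Φ (L x + ξ) * ee (-∑ i, k i * x i) =
      c * (Φh (D fun i => k i) * ee (BB ξ (D fun i => k i))) := by
    intro k
    have h1 : ∀ x, Φ (L x + ξ) * ee (-∑ i, k i * x i) =
        (fun z => Φ (z + ξ) * ee (-BB (z + ξ) (D fun i => k i))) (L x) *
          ee (BB ξ (D fun i => k i)) := by
      intro x
      simp only
      rw [mul_assoc, ← ee_add, BB_add, hB]
      congr 2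
      ring
    simp only [h1]
    rw [integral_mul_const, ← hL.integral_map
      (fun z => Φ (z + ξ) * ee (-BB (z + ξ) (D fun i => k i))), hμ, integral_smul_nnreal_measure,
      integral_add_right_eq_self (fun z => Φ z * ee (-BB z (D fun i => k i))), hft,
      NNReal.smul_def, real_smul, mul_assoc]
  have hs : Summable fun k : ι → ℤ => ∫ x, Φ (L x + ξ) * ee (-∑ i, k i * x i) := by
    simp only [key]
    refine Summable.mul_left _ (Summable.of_norm ?_)
    simpa using (hdh.summable D 0).norm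
  have := poissonZ (fun x => Φ (L x + ξ)) (by fun_prop) hc' hb hs
  simpa only [key] using this

end

end Pool.Agent.P.MP_b8021b_nt.PoiN
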