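import Pool.Agent.P.MP_b8021b_nt.BS.BasicD

/-! The Hecke character of the curves `y ^ 2 = x ^ 3 - ζ T ^ 2 x`. -/

namespace Pool.Agent.P.MP_b8021b_nt.BS

open NumberField IsDedekindDomain Finset MeasureTheory
open Pool.Agent.P.MP_b8021b_nt.VE Pool.Agent.P.MP_b8021b_nt.VC Pool.Agent.P.MP_b8021b_nt.BS.CF
open scoped Classical ComplexConjugate Real

variable {k : Type} [Field k] [NumberField k] [Algebra k ℂ] {K : Type} [Field K] [NumberField K]
  [Algebra k K]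

namespace PPsi

theorem ex_mod {N q : ℕ} (hN : 2 ≤ N) (h : q ≡ 1 [MOD N]) : q = N * (q / N) + 1 := by
  have := Nat.div_add_mod q N
  rw [h, Nat.mod_eq_of_lt hN] at this
  exact this.symm

theorem div_eq {N j : ℕ} (hN : 2 ≤ N) : (N * j + 1) / N = j := by
  rw [Nat.mul_add_div (by omega), Nat.div_eq_of_lt hN, add_zero]

theorem pow_div {w : ℂ} (hw : w ^ 4 = 1) {N q r : ℕ} (h4 : 4 ∣ N) (hN : 2 ≤ N)
    (hq : q ≡ 1 [MOD N]) (hr : r ≡ 1 [MOD N]) : w ^ (q * r / N) = w ^ (q / N) * w ^ (r / N) := by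
  have e : q * r = N * (q / N + r / N + N * (q / N * (r / N))) + 1 := by
    conv_lhs => rw [ex_mod hN hq, ex_mod hN hr]
    ring
  rw [e, div_eq hN, pow_add, pow_add, pow_mul]
  obtain ⟨s, rfl⟩ := h4
  rw [pow_mul w 4, hw, one_pow, one_pow, mul_one]

theorem cc {B : BF k} (h : X_Prim B) (a : 𝓞 k) : B.c (B.c a) = a := by
  have : B.σ (B.c (B.c a)) = B.σ a := by rw [h.2.1, h.2.1, Complex.conj_conj]
  exact RingOfIntegers.ext (B.σ.injective this)

theorem NN_sp (c : Ctx k K) (B : BF k) (a : 𝓞 k) : NN (sp a) = ‖B.σ a‖ ^ 2 := by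
  obtain ⟨_, h⟩ := c.lib.emb k B 1
  obtain ⟨h1, -, -, h2, -⟩ := h k (Module.finrank_self k)
  have e : ∀ φ : Emb k k, emb k a φ = B.σ a := fun φ => by
    rw [B.hσ]; exact φ.commutes (a : k)
  rw [NN, sp, h2, nz]
  simp only [e, prod_const, card_univ, h1, pow_one]

omit [Algebra k ℂ] in
theorem pow_of_unique (𝔭 : Pl k) {I : Ideal (𝓞 k)} (hI : I ≠ ⊥)
    (h : ∀ w : Pl k, I ≤ w.asIdeal → w = 𝔭) : ∃ t, I = 𝔭.asIdeal ^ t := by
  refine ideal_induction
    (P := fun I => (∀ w : Pl k, I ≤ w.asIdeal → w = 𝔭) → ∃ t, I = 𝔭.asIdeal ^ t)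
    (fun _ => ⟨0, by simp⟩) (fun v I _ ih h => ?_) I hI h
  obtain ⟨t, rfl⟩ := ih fun w hw => h w (Ideal.mul_le_right.trans hw)
  exact ⟨t + 1, by rw [h v Ideal.mul_le_left, pow_succ']⟩

theorem om_sq {B : BF k} (hD : B.D = -1) : B.ω ^ 2 = -1 := by rw [B.sq, hD]; simp

/-- the Jacobi sum generates the relative norm of the place -/
theorem span_J (c : Ctx k K) {B : BF k} (hD : B.D = -1) (hP : X_Prim B) {F : Type} [Field F]
    [Fintype F] (ρ : 𝓞 K →+* F) (v : Pl K) (hk : ∀ a, ρ a = 0 ↔ a ∈ v.asIdeal)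
    (hc : Fintype.card F = Ideal.absNorm v.asIdeal) (h2 : ringChar F ≠ 2) {J : 𝓞 k}
    (hJ : J * B.c J = (Fintype.card F : 𝓞 k)) (h0 : ρ (algebraMap (𝓞 k) (𝓞 K) J) = 0)
    (h1 : ringChar F % 4 = 1 → ρ (algebraMap (𝓞 k) (𝓞 K) (B.c J)) ≠ 0) :
    sp J = Ideal.relNorm (𝓞 k) v.asIdeal := by
  obtain ⟨n, hp, hn⟩ := FiniteField.card F (ringChar F)
  generalize hpp : ringChar F = p at *
  have : Fact p.Prime := ⟨hp⟩
  have hch : CharP F p := hpp ▸ ringChar.charP F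
  have hJ0 : J ≠ 0 := fun e => by
    rw [e, zero_mul] at hJ
    exact Fintype.card_ne_zero (Nat.cast_eq_zero.1 hJ.symm)
  have := v.isPrime
  have hm : ∀ a, a ∈ v.asIdeal.under (𝓞 k) ↔ ρ (algebraMap (𝓞 k) (𝓞 K) a) = 0 := fun a => by
    rw [hk]; rfl
  let 𝔭 : Pl k := ⟨v.asIdeal.under (𝓞 k), inferInstance, fun e => hJ0 (by
    have := (hm J).2 h0
    rwa [e, Ideal.mem_bot] at this)⟩
  have hz : ∀ z : ℤ, (z : 𝓞 k) ∈ 𝔭.asIdeal → (p : ℤ) ∣ z := fun z e => by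
    have := (hm _).1 e
    rwa [map_intCast, map_intCast, CharP.intCast_eq_zero_iff F p] at this
  have hcop : Cop 2 𝔭.asIdeal := (cop_prime_iff _).2 fun e => by
    have := hz 2 (by exact_mod_cast e)
    exact h2 ((Nat.prime_dvd_prime_iff_eq hp Nat.prime_two).1 (by exact_mod_cast this))
  obtain ⟨P, hP1, -⟩ := (hP.2.2 _ hcop).exists
  obtain ⟨x, y, hxy⟩ := hP.1 P
  have hPm : P ∈ 𝔭.asIdeal := hP1 ▸ Ideal.mem_span_singleton_self P
  have hN : P * B.c P = ((x ^ 2 + y ^ 2 : ℤ) : 𝓞 k) := by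
    rw [hxy, map_add, map_mul, map_intCast, map_intCast, B.cω]
    push_cast
    linear_combination (-(y : 𝓞 k) ^ 2) * om_sq hD
  have hd := hz _ (hN ▸ 𝔭.asIdeal.mul_mem_right _ hPm)
  have hle : ∀ w : Ideal (𝓞 k), w ≠ ⊤ → P ∈ w → 𝔭.asIdeal = w := fun w hw e =>
    𝔭.isMaximal.eq_of_le hw (hP1 ▸ (Ideal.span_singleton_le_iff_mem _).2 e)
  obtain ⟨t, ht⟩ := pow_of_unique 𝔭 (I := sp J) (by simpa using hJ0) fun w hw => by
    have hJw : J ∈ w.asIdeal := (Ideal.span_singleton_le_iff_mem _).1 hw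
    have hpw : (p : 𝓞 k) ∈ w.asIdeal := by
      refine w.isPrime.mem_of_pow_mem n ?_
      rw [← Nat.cast_pow, ← hn, ← hJ]
      exact w.asIdeal.mul_mem_right _ hJw
    have hdw : ∀ z : ℤ, (p : ℤ) ∣ z → (z : 𝓞 k) ∈ w.asIdeal := fun z ⟨s, e⟩ => by
      rw [e]; push_cast; exact w.asIdeal.mul_mem_right _ hpw
    refine HeightOneSpectrum.ext (hle _ w.isPrime.ne_top ?_).symm
    by_cases h4 : p % 4 = 1
    · refine (w.isPrime.mem_or_mem (hN ▸ hdw _ hd)).resolve_right fun e => h1 h4 ((hm _).1 ?_)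
      have := w.isPrime
      have e' := hle (w.asIdeal.comap B.c) (Ideal.IsPrime.ne_top inferInstance) e
      change B.c J ∈ 𝔭.asIdeal
      rw [e', Ideal.mem_comap, cc hP]
      exact hJw
    · have h3 : p % 4 = 3 := by
        have := hp.eq_two_or_odd
        omega
      have e : (x : ZMod p) ^ 2 = -(y : ZMod p) ^ 2 := by
        have := (ZMod.intCast_zmod_eq_zero_iff_dvd _ _).2 hd
        push_cast at this
        linear_combination this
      have ex : (x : ZMod p) = 0 := by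
        by_contra e'
        exact ZMod.mod_four_ne_three_of_sq_eq_neg_sq e' e h3
      have ey : (y : ZMod p) = 0 := by
        by_contra e'
        exact ZMod.mod_four_ne_three_of_sq_eq_neg_sq' e' e h3
      rw [hxy]
      exact w.asIdeal.add_mem (hdw _ ((ZMod.intCast_zmod_eq_zero_iff_dvd _ _).1 ex))
        (w.asIdeal.mul_mem_right _ (hdw _ ((ZMod.intCast_zmod_eq_zero_iff_dvd _ _).1 ey)))
  obtain ⟨s, hs⟩ := Ideal.exists_relNorm_eq_pow_of_isPrime v.asIdeal (v.asIdeal.under (𝓞 k))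
  have e1 : Ideal.absNorm (sp J) = Ideal.absNorm v.asIdeal := by
    have h := NN_sp c B J
    have h' := congrArg (fun a : 𝓞 k => B.σ a) hJ
    simp only [map_mul, map_natCast] at h'
    rw [hP.2.1, Complex.mul_conj, Complex.normSq_eq_norm_sq] at h'
    rw [← hc]
    have : ‖B.σ J‖ ^ 2 = Fintype.card F := by exact_mod_cast h'
    exact_mod_cast h.trans this
  rw [← absNorm_rel (E := k) v.asIdeal, ht, hs, map_pow, map_pow] at e1
  have e2 : 2 ≤ Ideal.absNorm 𝔭.asIdeal := by exact_mod_cast two_le_NN 𝔭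
  rw [ht, hs, Nat.pow_right_injective e2 e1]

/-- the relative norm of an element -/
theorem sig_norm (c : Ctx k K) (B : BF k) (α : 𝓞 K) :
    B.σ (Algebra.intNorm (𝓞 k) (𝓞 K) α) = ∏ φ, emb k α φ := by
  obtain ⟨_, h⟩ := c.lib.emb k B _
  rw [B.hσ]
  have := Algebra.algebraMap_intNorm (A := 𝓞 k) (K := k) (L := K) (B := 𝓞 K) α
  exact (congrArg (algebraMap k ℂ) this).trans ((h K rfl).2.2.2.2.1 _).symm

theorem norm_cong (c : Ctx k K) (B : BF k) {α : 𝓞 K} (h : (4 : 𝓞 K) ∣ α - 1) :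
    (4 : 𝓞 k) ∣ Algebra.intNorm (𝓞 k) (𝓞 K) α - 1 := by
  obtain ⟨b, hb⟩ := h
  obtain ⟨z, hz, e⟩ : ∃ z : ℂ, IsIntegral ℤ z ∧ ∏ φ, emb k α φ = 1 + 4 * z := by
    refine prod_induction _ (fun x : ℂ => ∃ z : ℂ, IsIntegral ℤ z ∧ x = 1 + 4 * z) ?_
      ⟨0, isIntegral_zero, by simp⟩ fun φ _ => ⟨φ b, ?_, ?_⟩
    · rintro _ _ ⟨y, hy, rfl⟩ ⟨z, hz, rfl⟩
      refine ⟨y + z + (4 : ℕ) * (y * z), (hy.add hz).add ((isIntegral_natCast 4).mul (hy.mul hz)), ?_⟩
      push_cast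
      ring
    · exact b.isIntegral_coe.map (φ.toRingHom.toIntAlgHom)
    · rw [eq_add_of_sub_eq hb, emb_apply]
      simp [map_ofNat, add_comm]
  rw [← sig_norm c B] at e
  have hy : IsIntegral ℤ (((Algebra.intNorm (𝓞 k) (𝓞 K) α : 𝓞 k) - 1 : k) / 4) := by
    refine (isIntegral_algHom_iff B.σ.toIntAlgHom B.σ.injective).1 ?_
    convert hz
    simp only [RingHom.toIntAlgHom_apply, map_div₀, map_sub, map_one, map_ofNat]
    rw [e]
    ring
  refine ⟨⟨_, hy⟩, RingOfIntegers.ext ?_⟩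
  simp only [map_sub, map_one, map_mul, map_ofNat, RingOfIntegers.map_mk]
  ring

theorem prim_ex {B : BF k} (h : X_Prim B) : ∃ g : Ideal (𝓞 k) → 𝓞 k,
    (∀ I, Cop 2 I → sp (g I) = I ∧ 2 + 2 * B.ω ∣ g I - 1) ∧
      ∀ a, Cop 2 (sp a) → 2 + 2 * B.ω ∣ a - 1 → g (sp a) = a := by
  choose! g hg using fun I hI => (h.2.2 I hI).exists
  exact ⟨g, hg, fun a ha e => (h.2.2 _ ha).unique (hg _ ha) ⟨rfl, e⟩⟩

theorem fin (z J : ℂ) (j : ℕ) (e : ℤ) : conj z ^ j * e * J + z ^ j * e * conj J =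
    (-2 * ‖J‖ * (conj z ^ j * dir (-J) * e).re : ℝ) := by
  have hd := dir_mul_norm (-J)
  rw [norm_neg] at hd
  have : ‖J‖ * (conj z ^ j * dir (-J) * e) = -(conj z ^ j * e * J) := by
    linear_combination conj z ^ j * e * hd
  rw [mul_assoc (-2 : ℝ), ← Complex.re_ofReal_mul, Complex.ofReal_mul, this,
    Complex.re_eq_add_conj]
  simp only [map_neg, map_mul, map_pow, map_intCast, Complex.conj_conj]
  push_cast
  ring

end PPsi

open PPsi in
theorem x_psi (c : Ctx k K) (hPrim : ∀ B : BF k, B.D = -1 → X_Prim B)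
    (hJac4 : ∀ B : BF k, B.D = -1 → X_Jac4 B) : X_Psi k K := by
  intro ζ a ha hζ
  obtain ⟨B, hD⟩ := c.bf
  have hP := hPrim B hD
  obtain ⟨g, hg, hg'⟩ := prim_ex hP
  have hω := om_sq hD
  obtain ⟨w, hw2, hw⟩ :
      ∃ w : 𝓞 k, w ^ 2 = -1 ∧ algebraMap (𝓞 k) (𝓞 K) w = ζ ^ 2 ^ (a - 1) := by
    have e : (ζ ^ 2 ^ (a - 1)) ^ 2 = (algebraMap (𝓞 k) (𝓞 K) B.ω) ^ 2 := by
      rw [← map_pow, hω, ← pow_mul, ← pow_succ, Nat.sub_add_cancel ha, hζ, map_neg, map_one]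
    rcases sq_eq_sq_iff_eq_or_eq_neg.1 e with e | e
    · exact ⟨B.ω, hω, e.symm⟩
    · exact ⟨-B.ω, by rw [neg_sq, hω], by rw [map_neg, e]⟩
  have hw4 : w ^ 4 = 1 := by rw [show 4 = 2 * 2 from rfl, pow_mul, hw2]; simp
  have hs4 : conj (B.σ w) ^ 4 = 1 := by
    have := congrArg (fun a : 𝓞 k => conj (B.σ a)) hw4
    simpa using this
  have hN : 2 ≤ 2 ^ (a + 1) := by
    rw [pow_succ]; have := Nat.one_le_two_pow (n := a); omega
  have h4 : 4 ∣ 2 ^ (a + 1) := pow_dvd_pow 2 (show 2 ≤ a + 1 by omega)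
  have hprim : IsPrimitiveRoot (ζ : K) (2 ^ (a + 1)) := by
    have e : (ζ : K) ^ 2 ^ a = -1 := by exact_mod_cast congrArg (fun x : 𝓞 K => (x : K)) hζ
    have : orderOf (ζ : K) = 2 ^ (a + 1) := orderOf_eq_prime_pow (by rw [e]; norm_num)
      (by rw [pow_succ, pow_mul, e]; norm_num)
    exact this ▸ IsPrimitiveRoot.orderOf _
  have hmod : ∀ I : Ideal (𝓞 K), Cop 2 I → Ideal.absNorm I ≡ 1 [MOD 2 ^ (a + 1)] := fun I hI =>
    (c.lib.pos K c.om).2.2.2.2 _ _ I hN hprim ((cop_pow_nat a.succ_pos).2 hI)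
  have gmul : ∀ I J, Cop 2 I → Cop 2 J → g (I * J) = g I * g J := fun I J hI hJ => by
    have e : sp (g I * g J) = I * J := by rw [sp_mul, (hg I hI).1, (hg J hJ).1]
    rw [← e]
    refine hg' _ (e ▸ cop_mul.2 ⟨hI, hJ⟩) ?_
    rw [show g I * g J - 1 = (g I - 1) * g J + (g J - 1) by ring]
    exact ((hg I hI).2.mul_right _).add (hg J hJ).2
  let Ψ : Ideal (𝓞 K) →* ℂ :=
    { toFun := fun I => if Cop 2 I then conj (B.σ w) ^ (Ideal.absNorm I / 2 ^ (a + 1)) *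
        dir (B.σ (g (Ideal.relNorm (𝓞 k) I))) else 0
      map_one' := by
        have e := hg' 1 (by rw [sp, Ideal.span_singleton_one]; exact cop_top) (by simp)
        rw [sp, Ideal.span_singleton_one] at e
        rw [Ideal.one_eq_top, if_pos cop_top, Ideal.absNorm_top, Ideal.relNorm_top, e,
          Nat.div_eq_of_lt hN]
        simp [dir_one]
      map_mul' := fun I J => by
        by_cases hI : Cop 2 I
        · by_cases hJ : Cop 2 J
          · rw [if_pos hI, if_pos hJ, if_pos (cop_mul.2 ⟨hI, hJ⟩), map_mul, map_mul,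
              gmul _ _ (cop_rel.2 hI) (cop_rel.2 hJ), pow_div hs4 h4 hN (hmod I hI) (hmod J hJ)]
            simp only [map_mul, dir_mul]
            ring
          · rw [if_neg hJ, if_neg fun e => hJ (cop_mul.1 e).2, mul_zero]
        · rw [if_neg hI, if_neg fun e => hI (cop_mul.1 e).1, zero_mul] }
  have hΨ : ∀ I, Cop 2 I → Ψ I = conj (B.σ w) ^ (Ideal.absNorm I / 2 ^ (a + 1)) *
    dir (B.σ (g (Ideal.relNorm (𝓞 k) I))) := fun I hI => if_pos hI
  have hm : 0 < a + 3 := by omega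
  refine ⟨2 ^ (a + 3), Ψ, hN.trans (Nat.pow_le_pow_right two_pos (by omega)),
    dvd_pow_self 2 hm.ne', ⟨⟨fun I hI => ?_, fun I hI => if_neg fun e =>
      hI ((cop_pow_nat hm).2 e)⟩, by simp, fun α hα => ?_⟩, fun T v hv hT => ?_⟩
  · have hI := (cop_pow_nat hm).1 hI
    have h0 : g (Ideal.relNorm (𝓞 k) I) ≠ 0 := fun e => Cop_ne_bot le_rfl (cop_rel.2 hI) (by
      rw [← (hg _ (cop_rel.2 hI)).1, e, sp, Ideal.span_singleton_eq_bot])
    have h1 : ‖conj (B.σ w)‖ = 1 := (pow_eq_one_iff_of_nonneg (norm_nonneg _) four_ne_zero).1 (by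
      rw [← norm_pow, hs4, norm_one])
    rw [hΨ I hI, norm_mul, norm_pow, h1, one_pow, one_mul, norm_dir]
    rw [_root_.map_ne_zero]
    exact_mod_cast h0
  · have hI := (cop_pow_nat hm).1 (cop_span_of_dvd hα)
    have h1 := (c.lib.pos K c.om).2.2.2.1 _ α hα
    have h8 : 2 ≤ 2 ^ (a + 3) := hN.trans (Nat.pow_le_pow_right two_pos (by omega))
    have h2 : (4 : 𝓞 K) ∣ α - 1 := Dvd.dvd.trans (by
      exact_mod_cast Nat.cast_dvd_cast (α := 𝓞 K) (pow_dvd_pow 2 (show 2 ≤ a + 3 by omega))) hα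
    have h3 := cop_rel (E := k).2 hI
    rw [Ideal.relNorm_singleton] at h3
    rw [hΨ _ hI, Ideal.relNorm_singleton, hg' _ h3 (Dvd.dvd.trans ⟨1 - B.ω, by
      linear_combination 2 * hω⟩ (norm_cong c B h2)), sig_norm c B, ty_const, zpow_one,
      ex_mod h8 h1, show 2 ^ (a + 3) = 2 ^ (a + 1) * 4 by ring, mul_assoc, div_eq hN, pow_mul, hs4,
      one_pow, one_mul]
  · have hI : Cop 2 v.asIdeal := (cop_pow_nat hm).1 ((cop_prime_iff v).2 hv)
    obtain ⟨F, _, _, _, ρ, hs, hk, hc⟩ := exists_res v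
    have h2 : ringChar F ≠ 2 := fun e => (cop_prime_iff v).1 hI ((hk _).1 (by
      rw [map_natCast, ringChar.spec, e]))
    obtain ⟨J, hJ1, hJ2, hJ3, hJ4, hJ5⟩ := hJac4 B hD F (ρ.comp (algebraMap (𝓞 k) (𝓞 K))) h2
    have hJ := span_J c hD hP ρ v hk hc h2 hJ2 hJ3 hJ4
    have hgJ : g (Ideal.relNorm (𝓞 k) v.asIdeal) = -J := by
      have e : sp (-J) = Ideal.relNorm (𝓞 k) v.asIdeal := by rw [← hJ, sp, Ideal.span_singleton_neg]
      rw [← e]
      refine hg' _ (e ▸ cop_rel.2 hI) ?_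
      rw [show -J - 1 = -(J + 1) by ring, dvd_neg]
      exact hJ1
    have hq := ex_mod hN (hmod _ hI)
    rw [hΨ _ hI, hgJ]
    generalize Ideal.absNorm v.asIdeal / 2 ^ (a + 1) = j at hq ⊢
    have hT0 : ρ T ≠ 0 := fun e => hT ((hk T).1 e)
    have ha2 : 2 ^ (a + 1) = 4 * 2 ^ (a - 1) := by
      obtain ⟨b, rfl⟩ := Nat.exists_eq_add_of_le' ha
      rw [Nat.add_sub_cancel]; ring
    have hq4 : (Fintype.card F - 1) / 4 = 2 ^ (a - 1) * j := by
      rw [hc, hq, ha2, Nat.add_sub_cancel, mul_assoc, Nat.mul_div_cancel_left _ four_pos]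
    have hq2 : Fintype.card F / 2 = 2 * (2 ^ (a - 1) * j) := by
      rw [hc, hq, ha2, mul_assoc]; omega
    have he := quadraticChar_sq_one hT0
    have hsum := hJ5 (ρ (ζ * T ^ 2)) (w ^ j * (quadraticChar F (ρ T) : ℤ)) (by
      rw [mul_pow, ← pow_mul, mul_comm j, pow_mul, hw4, show 4 = 2 * 2 from rfl, pow_mul,
        ← Int.cast_pow, he]; simp) (by
      rw [map_mul, map_intCast, quadraticChar_eq_pow_of_char_ne_two' h2, hq4, hq2, map_pow,
        RingHom.comp_apply, hw, map_mul, mul_pow, map_pow, map_pow, ← pow_mul, ← pow_mul])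
    have hl : chs (-(ζ * T ^ 2)) v =
        ∑ x : F, ((quadraticChar F (x ^ 3 - ρ (ζ * T ^ 2) * x) : ℤ) : ℂ) := by
      obtain ⟨r, hr⟩ := hs.hasRightInverse
      have hp : Peri v.asIdeal fun x => leg (x ^ 3 + -(ζ * T ^ 2) * x) v := fun x y e =>
        leg_congr (by
          rw [show x ^ 3 + -(ζ * T ^ 2) * x - (y ^ 3 + -(ζ * T ^ 2) * y) =
            (x ^ 2 + x * y + y ^ 2 - ζ * T ^ 2) * (x - y) by ring]
          exact v.asIdeal.mul_mem_left _ e)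
      rw [chs, hp.finsum_eq r ⟨fun x y e => ?_, fun x => ?_⟩]
      · refine sum_congr rfl fun x _ => ?_
        rw [leg_eq_quad ρ hs hk, map_add, map_mul, map_neg, map_pow, hr x, neg_mul, sub_eq_add_neg]
      · have := (hk _).2 (Ideal.Quotient.eq.1 e)
        rwa [map_sub, hr x, hr y, sub_eq_zero] at this
      · obtain ⟨x, rfl⟩ := Ideal.Quotient.mk_surjective x
        exact ⟨ρ x, Ideal.Quotient.eq.2 ((hk _).1 (by rw [map_sub, hr, sub_self]))⟩
    have h := congrArg (fun a : 𝓞 k => B.σ a) hsum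
    simp only [map_sum, map_add, map_mul, map_intCast, map_pow, hP.2.1] at h
    have hn : √(NN v.asIdeal) = ‖B.σ J‖ := by
      rw [NN, ← absNorm_rel (E := k), ← hJ, ← NN, NN_sp c B, Real.sqrt_sq (norm_nonneg _)]
    have h' : B.σ (-J : 𝓞 k) = -B.σ J := by simp
    rw [hl, leg_eq_quad ρ hs hk, hn, h', map_mul, map_pow]
    exact h.trans (fin _ _ _ _)

end Pool.Agent.P.MP_b8021b_nt.BS
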