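import Mathlib

/-! Finiteness of the set of rational points from the descent. -/

namespace Pool.Agent.P.MP_b8021b_nt.BS

namespace FinP

open Height MvPolynomial

variable {K : Type} [Field K] [NumberField K]

theorem ht {i b : K} (hi : i ^ 2 + 1 = 0) (hb : b ≠ 0) : ∃ C : ℝ, ∀ x z : K, x ≠ 0 →
    x ^ 2 + b = 2 * i * z * x → C + 2 * logHeight₁ x ≤ logHeight₁ z := by
  have i0 : i ≠ 0 := by
    rintro rfl
    simp at hi
  let p : Fin 2 → MvPolynomial (Fin 2) K := ![X 0 ^ 2 + C b * X 1 ^ 2, C (2 * i) * X 0 * X 1]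
  let q : Fin 2 × Fin 2 → MvPolynomial (Fin 2) K :=
    ![![X 0, C (-b / (2 * i)) * X 1], ![C (1 / b) * X 1, C (-1 / (2 * i * b)) * X 0]].uncurry
  have hom : ∀ a, (q a).IsHomogeneous 1 := by
    rintro ⟨a, a'⟩
    fin_cases a <;> fin_cases a'
    · exact isHomogeneous_X _ _
    all_goals exact isHomogeneous_C_mul_X _ _
  obtain ⟨C, hC⟩ := logHeight_eval_ge' (M := 1) (N := 2) hom
  refine ⟨C, fun x z hx h => ?_⟩
  have h1 := hC p (x := ![x, 1]) fun k => by
    fin_cases k <;> simp [p, q] <;> field_simp <;> ring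
  have h2 : (fun j => (p j).eval ![x, 1]) = (2 * i * x) • ![z, 1] := by
    ext j
    fin_cases j
    · simp [p]
      linear_combination h
    · simp [p]
  rw [h2, logHeight_smul_eq_logHeight _ (by simp [i0, hx]), ← logHeight₁_eq_logHeight,
    ← logHeight₁_eq_logHeight] at h1
  exact_mod_cast h1

theorem fin_of {α : Type} (p : α → α) (hp : Function.Injective p) (h : α → ℝ) (C : ℝ)
    (h1 : ∀ z, C + 2 * h (p z) ≤ h z) (h2 : ∀ B, {z | h z ≤ B}.Finite) : Finite α := by
  have a1 := neg_abs_le C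
  have m : Set.MapsTo p {z | h z ≤ |C| + 1} {z | h z ≤ |C| + 1} := fun z hz => by
    have := h1 z
    simp only [Set.mem_ofPred_eq] at hz ⊢
    linarith
  have s := ((h2 _).injOn_iff_bijOn_of_mapsTo m).1 hp.injOn
  have key : ∀ (n : ℕ) (z : α), h z ≤ |C| + 1 + n → h z ≤ |C| + 1 := by
    intro n
    induction n with
    | zero => simp
    | succ n ih =>
      intro z hz
      obtain ⟨w, w1, w2⟩ := s.surjOn (ih (p z) (by
        have := h1 z
        have : (0 : ℝ) ≤ n := n.cast_nonneg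
        push_cast at hz
        linarith))
      exact hp w2 ▸ w1
  refine Set.finite_univ_iff.1 ((h2 (|C| + 1)).subset fun z _ => key ⌈h z⌉₊ z ?_)
  linarith [Nat.le_ceil (h z), abs_nonneg C]

end FinP

open FinP Height in
theorem fin_pts {K : Type} [Field K] [NumberField K] {i b : K} (hi : i ^ 2 + 1 = 0) (hb : b ≠ 0)
    (H : ∀ x y : K, x ≠ 0 → y ^ 2 = x ^ 3 + b * x → IsSquare x ∨ IsSquare (b * x)) :
    Finite (⟨0, 0, 0, b, 0⟩ : WeierstrassCurve K).toAffine.Point := by
  obtain ⟨C, hC⟩ := ht hi hb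
  have i0 : i ≠ 0 := by
    rintro rfl
    simp at hi
  let S : Set K := {x | x ≠ 0 ∧ IsSquare x ∧ ∃ y, y ^ 2 = x ^ 3 + b * x}
  have tr : ∀ x y : K, x ≠ 0 → y ^ 2 = x ^ 3 + b * x → x ∈ S ∨ b / x ∈ S := fun x y hx h =>
    (H x y hx h).imp (fun e => ⟨hx, e, y, h⟩) fun ⟨r, e⟩ =>
      ⟨div_ne_zero hb hx, ⟨r / x, by field_simp; linear_combination e⟩, b * y / x ^ 2, by
        field_simp; linear_combination h⟩
  have h1 : ∀ z : S, ∃ x : S, x.1 ^ 2 + b = 2 * i * z * x := by
    rintro ⟨z, z0, ⟨s, rfl⟩, y, h⟩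
    have s0 : s ≠ 0 := left_ne_zero_of_mul z0
    obtain ⟨w, rfl⟩ : ∃ w, y = s * w := ⟨y / s, by field_simp⟩
    have h3 : w ^ 2 = s ^ 4 + b := mul_left_cancel₀ z0 (by linear_combination h)
    have h4 : (i * (s * s + w)) ^ 2 + b = 2 * i * (s * s) * (i * (s * s + w)) := by
      linear_combination (w ^ 2 - s ^ 4) * hi - h3
    have h5 : i * (s * s + w) ≠ 0 := fun e => hb (by simpa [e] using h4)
    generalize i * (s * s + w) = x at h4 h5
    rcases tr x (x * (1 + i) * s) h5 (by
      linear_combination -x * h4 + x ^ 2 * s ^ 2 * hi) with e | e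
    · exact ⟨⟨x, e⟩, h4⟩
    · exact ⟨⟨b / x, e⟩, by simp only; field_simp; linear_combination h4⟩
  choose p hp using h1
  have hS : Finite S := fin_of p (fun z z' e => Subtype.ext (mul_left_cancel₀
      (mul_ne_zero (mul_ne_zero two_ne_zero i0) (p z).2.1) (by
        have a := hp z
        have a' := hp z'
        rw [← e] at a'
        linear_combination a' - a)))
    (fun z => logHeight₁ z.1) C (fun z => hC _ _ (p z).2.1 (hp z)) fun B =>
      (NumberField.finite_setOfPred_logHeight₁_le K B).preimage Subtype.val_injective.injOn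
  have hS' : S.Finite := Set.toFinite S
  have hT : {p : K × K | p.2 ^ 2 = p.1 ^ 3 + b * p.1}.Finite := by
    refine Set.Finite.of_finite_fibers Prod.fst
      (((hS'.union (hS'.image (b / ·))).insert 0).subset ?_) ?_
    · rintro _ ⟨⟨x, y⟩, h, rfl⟩
      by_cases hx : x = 0
      · exact Or.inl hx
      · exact Or.inr ((tr x y hx h).imp_right fun e => ⟨_, e, by simp only; field_simp⟩)
    · rintro _ ⟨⟨x, y⟩, h, rfl⟩
      refine (Set.toFinite {(x, y), (x, -y)}).subset ?_
      rintro ⟨x', y'⟩ ⟨h', rfl : x' = x⟩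
      simpa using sq_eq_sq_iff_eq_or_eq_neg.1 (h'.trans h.symm)
  let f : (⟨0, 0, 0, b, 0⟩ : WeierstrassCurve K).toAffine.Point → Option (K × K) := fun P =>
    match P with
    | .zero => none
    | .some x y _ => some (x, y)
  refine Set.finite_univ_iff.1 (Set.Finite.of_finite_image (f := f) ?_ (Function.Injective.injOn ?_))
  swap
  · rintro (_ | ⟨x, y, h⟩) (_ | ⟨x', y', h'⟩) e <;> simp [f] at e ⊢
    exact e
  · refine ((hT.image some).insert none).subset ?_
    rintro _ ⟨_ | ⟨x, y, h⟩, -, rfl⟩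
    · exact Or.inl rfl
    · refine Or.inr ⟨_, ?_, rfl⟩
      simpa [WeierstrassCurve.Affine.equation_iff] using h.1

end Pool.Agent.P.MP_b8021b_nt.BS
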