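import Pool.Agent.P.MP_b8021b_nt.BS.BasicD

set_option autoImplicit false

namespace Pool.Agent.P.MP_b8021b_nt.BS

open NumberField IsDedekindDomain Finset MeasureTheory
open Pool.Agent.P.MP_b8021b_nt.VE Pool.Agent.P.MP_b8021b_nt.VC Pool.Agent.P.MP_b8021b_nt.BS.CF
open scoped Classical ComplexConjugate Real

namespace PJac4

section Roots

variable {R : Type} [CommRing R] [IsDomain R] {w : R}

theorem four (hw : w ^ 2 = -1) {u : R} (hu : u ^ 4 = 1) :
    u = 1 ∨ u = -1 ∨ u = w ∨ u = -w := by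
  have h : (u - 1) * (u + 1) * (u - w) * (u + w) = 0 := by
    linear_combination hu - (u ^ 2 - 1) * hw
  rcases mul_eq_zero.1 h with h | h
  · rcases mul_eq_zero.1 h with h | h
    · rcases mul_eq_zero.1 h with h | h
      · exact Or.inl (by linear_combination h)
      · exact Or.inr (Or.inl (by linear_combination h))
    · exact Or.inr (Or.inr (Or.inl (by linear_combination h)))
  · exact Or.inr (Or.inr (Or.inr (by linear_combination h)))

theorem conj_eq (hw : w ^ 2 = -1) (c : R ≃+* R) (hc : c w = -w) {u : R} (hu : u ^ 4 = 1) :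
    c u = u ^ 3 := by
  rcases four hw hu with h | h | h | h <;> rw [h]
  · simp
  · rw [map_neg, map_one]; ring
  · rw [hc]; linear_combination (-w) * hw
  · rw [map_neg, hc]; linear_combination w * hw

theorem dvd_sub (hw : w ^ 2 = -1) {u : R} (hu : u ^ 4 = 1) : 1 + w ∣ u - 1 := by
  rcases four hw hu with h | h | h | h <;> rw [h]
  · simp
  · exact ⟨w - 1, by linear_combination -hw⟩
  · exact ⟨w, by linear_combination -hw⟩
  · exact ⟨-1, by ring⟩

variable {F : Type} [Field F]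

theorem inj (hw : w ^ 2 = -1) (ρ : R →+* F) (h2 : (2 : F) ≠ 0) {u v : R} (hu : u ^ 4 = 1)
    (hv : v ^ 4 = 1) (h : ρ u = ρ v) : u = v := by
  have hi : ρ w ^ 2 = -1 := by rw [← map_pow, hw, map_neg, map_one]
  have h4 : (u * v ^ 3) ^ 4 = 1 := by
    rw [mul_pow, hu, ← pow_mul, mul_comm 3 4, pow_mul, hv]; simp
  have h1 : ρ (u * v ^ 3) = 1 := by
    rw [map_mul, h, ← map_mul, ← pow_succ', hv, map_one]
  have h3 : u * v ^ 3 = 1 := by
    rcases four hw h4 with e | e | e | e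
    · exact e
    · rw [e, map_neg, map_one] at h1
      exact absurd (by linear_combination -h1) h2
    · rw [e] at h1
      rw [h1] at hi
      exact absurd (by linear_combination hi) h2
    · rw [e, map_neg] at h1
      exact absurd (by linear_combination hi - (1 - ρ w) * h1) h2
  linear_combination v * h3 - u * hv

omit [IsDomain R] in
theorem lift (hw : w ^ 2 = -1) (ρ : R →+* F) {y : F} (hy : y ^ 4 = 1) :
    ∃ u : R, u ^ 4 = 1 ∧ ρ u = y := by
  have hi : ρ w ^ 2 = -1 := by rw [← map_pow, hw, map_neg, map_one]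
  have h4 : w ^ 4 = 1 := by linear_combination (w ^ 2 - 1) * hw
  rcases four hi hy with h | h | h | h <;> rw [h]
  · exact ⟨1, by simp, by simp⟩
  · exact ⟨-1, by ring, by simp⟩
  · exact ⟨w, h4, rfl⟩
  · exact ⟨-w, by linear_combination h4, by simp⟩

variable [Fintype F] [DecidableEq F]

omit [IsDomain R] [DecidableEq F] in
theorem card_eq (hw : w ^ 2 = -1) (ρ : R →+* F) (hF : ringChar F ≠ 2) :
    ∃ m, 1 ≤ m ∧ Fintype.card F = 4 * m + 1 := by
  have hi : ρ w ^ 2 = -1 := by rw [← map_pow, hw, map_neg, map_one]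
  have h1 : Fintype.card F % 4 ≠ 3 :=
    FiniteField.isSquare_neg_one_iff.1 ⟨ρ w, by linear_combination -hi⟩
  have h2 := FiniteField.odd_card_of_char_ne_two hF
  have h3 : 1 < Fintype.card F := Fintype.one_lt_card
  exact ⟨Fintype.card F / 4, by omega, by omega⟩

theorem exists_chi (hw : w ^ 2 = -1) (ρ : R →+* F) (hF : ringChar F ≠ 2) {m : ℕ} (hm : 1 ≤ m)
    (hq : Fintype.card F = 4 * m + 1) :
    ∃ χ : MulChar F R, (∀ x, x ≠ 0 → χ x ^ 4 = 1) ∧ ∀ x, ρ (χ x) = x ^ m := by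
  have h2 : (2 : F) ≠ 0 := Ring.two_ne_zero hF
  have ex : ∀ x : F, ∃ u : R, (x = 0 → u = 0) ∧ (x ≠ 0 → u ^ 4 = 1) ∧ ρ u = x ^ m := by
    intro x
    by_cases hx : x = 0
    · exact ⟨0, fun _ => rfl, fun h => absurd hx h, by
        rw [hx, map_zero, zero_pow (by omega)]⟩
    · have h4 : (x ^ m) ^ 4 = 1 := by
        rw [← pow_mul, ← FiniteField.pow_card_sub_one_eq_one x hx, hq]
        congr 1
        omega
      obtain ⟨u, hu, e⟩ := lift hw ρ h4
      exact ⟨u, fun h => absurd h hx, fun _ => hu, e⟩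
  choose f f0 f4 fρ using ex
  refine ⟨⟨⟨⟨f, ?_⟩, ?_⟩, ?_⟩, f4, fρ⟩
  · exact inj hw ρ h2 (f4 1 one_ne_zero) (one_pow 4) (by rw [fρ]; simp)
  · intro x y
    show f (x * y) = f x * f y
    by_cases hx : x = 0
    · rw [f0 x hx, f0 _ (by rw [hx, zero_mul]), zero_mul]
    by_cases hy : y = 0
    · rw [f0 y hy, f0 _ (by rw [hy, mul_zero]), mul_zero]
    refine inj hw ρ h2 (f4 _ (mul_ne_zero hx hy)) ?_ ?_
    · rw [mul_pow, f4 x hx, f4 y hy, one_mul]
    · rw [map_mul, fρ, fρ, fρ, mul_pow]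
  · intro a ha
    exact f0 a (by simpa using ha)

end Roots

section Sums

variable {F : Type} [Field F] [Fintype F] [DecidableEq F]

theorem sum_pow (j : ℕ) (hj : j ≠ 0) :
    ∑ x : F, x ^ j = if Fintype.card F - 1 ∣ j then -1 else 0 := by
  rw [← FiniteField.sum_pow_units F j, ← Finset.sum_erase (f := fun x : F => x ^ j) (a := (0 : F)) univ (zero_pow hj)]
  refine (Finset.sum_bij (fun (x : Fˣ) _ => (x : F)) ?_ ?_ ?_ ?_).symm
  · intro x _
    simp
  · intro x _ y _ h
    exact Units.ext h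
  · intro y hy
    exact ⟨Units.mk0 y (Finset.ne_of_mem_erase hy), mem_univ _, rfl⟩
  · intro x _
    rfl

theorem sum_mix (a n : ℕ) (ha : a ≠ 0) : ∑ x : F, x ^ a * (1 - x) ^ n =
    ∑ j ∈ range (n + 1), (-1) ^ j * (n.choose j : F) *
      if Fintype.card F - 1 ∣ a + j then -1 else 0 := by
  have e : ∀ x : F, x ^ a * (1 - x) ^ n =
      ∑ j ∈ range (n + 1), (-1) ^ j * (n.choose j : F) * x ^ (a + j) := by
    intro x
    rw [sub_eq_neg_add, add_pow, mul_sum]
    refine sum_congr rfl fun j _ => ?_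
    rw [neg_pow x, pow_add]
    ring
  simp only [e]
  rw [sum_comm]
  refine sum_congr rfl fun j _ => ?_
  rw [← mul_sum, sum_pow _ (by omega)]

theorem sum_low {m : ℕ} (hm : 1 ≤ m) (hq : Fintype.card F = 4 * m + 1) :
    ∑ x : F, x ^ m * (1 - x) ^ (2 * m) = 0 := by
  rw [sum_mix _ _ (by omega)]
  refine sum_eq_zero fun j hj => ?_
  rw [if_neg, mul_zero]
  intro h
  have := Nat.le_of_dvd (by omega) h
  have := mem_range.1 hj
  omega

theorem sum_high {m : ℕ} (hm : 1 ≤ m) (hq : Fintype.card F = 4 * m + 1) :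
    ∑ x : F, x ^ (3 * m) * (1 - x) ^ (2 * m) = -((-1) ^ m * ((2 * m).choose m : F)) := by
  rw [sum_mix _ _ (by omega), sum_eq_single m]
  · rw [if_pos (Dvd.intro 1 (by omega))]
    ring
  · intro j hj hne
    rw [if_neg, mul_zero]
    rintro ⟨t, ht⟩
    have h1 := mem_range.1 hj
    rw [hq, Nat.add_sub_cancel] at ht
    rcases t with _ | _ | t
    · omega
    · omega
    · have : 4 * m * 2 ≤ 4 * m * (t + 1 + 1) := Nat.mul_le_mul_left _ (by omega)
      omega
  · intro h
    exact absurd (mem_range.2 (by omega)) h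

theorem lucas {p : ℕ} (hp : p.Prime) (h4 : p % 4 = 1) (f : ℕ) :
    ∀ m, p ^ f = 4 * m + 1 → ¬ p ∣ (2 * m).choose m := by
  have := Fact.mk hp
  obtain ⟨a, ha⟩ : ∃ a, p = 4 * a + 1 := ⟨p / 4, by omega⟩
  induction f with
  | zero =>
    intro m hm
    rw [pow_zero] at hm
    obtain rfl : m = 0 := by omega
    simpa using hp.one_lt.ne'
  | succ f ih =>
    intro m hm
    obtain ⟨n, hn⟩ : ∃ n, p ^ f = 4 * n + 1 := by
      have : p ^ f % 4 = 1 := by rw [Nat.pow_mod, h4]; simp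
      exact ⟨p ^ f / 4, by omega⟩
    have e : m = a + p * n := by
      have : 4 * m + 1 = 4 * (a + p * n) + 1 := by
        rw [← hm, pow_succ, hn]
        nlinarith
      omega
    have e2 : 2 * m = 2 * a + p * (2 * n) := by rw [e]; ring
    have p0 := hp.pos
    have h := Choose.choose_modEq_choose_mod_mul_choose_div_nat (n := 2 * m) (k := m) (p := p)
    have m1 : (2 * m) % p = 2 * a := by
      rw [e2, Nat.add_mul_mod_self_left, Nat.mod_eq_of_lt (by omega)]
    have m2 : m % p = a := by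
      rw [e, Nat.add_mul_mod_self_left, Nat.mod_eq_of_lt (by omega)]
    have d1 : (2 * m) / p = 2 * n := by
      rw [e2, Nat.add_mul_div_left _ _ p0, Nat.div_eq_of_lt (by omega), zero_add]
    have d2 : m / p = n := by
      rw [e, Nat.add_mul_div_left _ _ p0, Nat.div_eq_of_lt (by omega), zero_add]
    rw [m1, m2, d1, d2] at h
    intro hd
    rcases (Nat.Prime.dvd_mul hp).1 ((h.dvd_iff dvd_rfl).1 hd) with h1 | h1
    · have h2 : p ∣ (2 * a).factorial := by
        rw [← Nat.choose_mul_factorial_mul_factorial (by omega : a ≤ 2 * a)]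
        exact (h1.mul_right _).mul_right _
      have := (hp.dvd_factorial).1 h2
      omega
    · exact ih n hn h1

end Sums

section Main

variable {R : Type} [CommRing R] [IsDomain R] {w : R} {F : Type} [Field F] [Fintype F]
  [DecidableEq F]

/-- the quadratic character with values in `R` -/
noncomputable def q2 (F : Type) [Field F] [Fintype F] [DecidableEq F] (R : Type) [CommRing R] :
    MulChar F R := (quadraticChar F).ringHomComp (Int.castRingHom R)

omit [IsDomain R] in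
theorem q2_apply (x : F) : q2 F R x = ((quadraticChar F x : ℤ) : R) := rfl

omit [IsDomain R] in
theorem q2_cases {x : F} (hx : x ≠ 0) : q2 F R x = 1 ∨ q2 F R x = -1 := by
  rcases quadraticChar_dichotomy hx with h | h <;> simp [q2_apply, h]

omit [IsDomain R] in
theorem rho_q2 (ρ : R →+* F) (hF : ringChar F ≠ 2) {m : ℕ} (hq : Fintype.card F = 4 * m + 1)
    (x : F) : ρ (q2 F R x) = x ^ (2 * m) := by
  rw [q2_apply, map_intCast, quadraticChar_eq_pow_of_char_ne_two' hF, hq]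
  congr 1
  omega

theorem chi_sq (hw : w ^ 2 = -1) (ρ : R →+* F) (hF : ringChar F ≠ 2) {m : ℕ}
    (hq : Fintype.card F = 4 * m + 1) {χ : MulChar F R} (h4 : ∀ x, x ≠ 0 → χ x ^ 4 = 1)
    (hρ : ∀ x, ρ (χ x) = x ^ m) (x : F) : χ x ^ 2 = q2 F R x := by
  by_cases hx : x = 0
  · rw [hx, MulChar.map_zero, MulChar.map_zero, zero_pow two_ne_zero]
  refine inj hw ρ (Ring.two_ne_zero hF) ?_ ?_ ?_
  · rw [← pow_mul, mul_comm, pow_mul, h4 x hx, one_pow]
  · rcases q2_cases (R := R) hx with h | h <;> rw [h] <;> ring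
  · rw [map_pow, hρ, rho_q2 ρ hF hq, ← pow_mul, mul_comm]

omit [IsDomain R] in
theorem fibre (hF : ringChar F ≠ 2) {χ : MulChar F R} (hs : ∀ x, χ x ^ 2 = q2 F R x)
    (hn : q2 F R (-1) = 1) (t : F) :
    ∑ x ∈ univ.filter (fun x : F => x ^ 2 = t), q2 F R x = χ t + χ t ^ 3 := by
  by_cases ht : t = 0
  · rw [ht, MulChar.map_zero, sum_eq_zero]
    · simp
    · intro x hx
      rw [pow_eq_zero_iff two_ne_zero |>.1 (mem_filter.1 hx).2, MulChar.map_zero]
  by_cases hq : IsSquare t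
  · obtain ⟨y, rfl⟩ := hq
    have hy : y ≠ 0 := fun h => ht (by rw [h, mul_zero])
    have hne : y ≠ -y := fun h =>
      hy ((mul_eq_zero.1 (by linear_combination h : (2 : F) * y = 0)).resolve_left
        (Ring.two_ne_zero hF))
    have e : univ.filter (fun x : F => x ^ 2 = y * y) = {y, -y} := by
      ext x
      simp only [mem_filter, mem_univ, true_and, mem_insert, mem_singleton, ← sq]
      exact sq_eq_sq_iff_eq_or_eq_neg
    rw [e, sum_pair hne, map_mul, ← sq, hs, ← neg_one_mul y, map_mul, hn]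
    rcases q2_cases (R := R) hy with h | h <;> rw [h] <;> ring
  · have h1 : q2 F R t = -1 := by
      rw [q2_apply, quadraticChar_neg_one_iff_not_isSquare.2 hq]
      simp
    rw [sum_eq_zero]
    · linear_combination (-χ t) * (hs t) - χ t * h1
    · intro x hx
      exact absurd ⟨x, by rw [← (mem_filter.1 hx).2, sq]⟩ hq

omit [IsDomain R] in
theorem point (hF : ringChar F ≠ 2) {χ : MulChar F R} (hs : ∀ x, χ x ^ 2 = q2 F R x)
    (hn : q2 F R (-1) = 1) {β : F} (hβ : β ≠ 0) (h4 : χ β ^ 4 = 1) :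
    ∑ x : F, q2 F R (x ^ 3 - β * x) = χ β ^ 3 * ∑ x, χ x * q2 F R (1 - x) +
      χ β * ∑ x, χ x ^ 3 * q2 F R (1 - x) := by
  have e1 : ∑ x : F, q2 F R (x ^ 3 - β * x) = ∑ t : F, (χ t + χ t ^ 3) * q2 F R (t - β) := by
    rw [← sum_fiberwise univ (fun x : F => x ^ 2)]
    refine sum_congr rfl fun t _ => ?_
    rw [← fibre hF hs hn, sum_mul]
    refine sum_congr rfl fun x hx => ?_
    rw [← (mem_filter.1 hx).2, ← map_mul]
    congr 1
    ring
  rw [e1, ← Equiv.sum_comp (Equiv.mulLeft₀ β hβ), mul_sum, mul_sum, ← sum_add_distrib]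
  refine sum_congr rfl fun s _ => ?_
  have e2 : β * s - β = -1 * β * (1 - s) := by ring
  rw [Equiv.mulLeft₀_apply, e2, map_mul, map_mul, map_mul, hn, ← hs β]
  linear_combination χ β * χ s ^ 3 * q2 F R (1 - s) * h4

theorem congr_J [CharZero R] (hw : w ^ 2 = -1) (hF : ringChar F ≠ 2) {m : ℕ}
    (hq : Fintype.card F = 4 * m + 1) {χ : MulChar F R} (h4 : ∀ x, x ≠ 0 → χ x ^ 4 = 1)
    (h1 : χ ≠ 1) : 2 + 2 * w ∣ ∑ x, χ x * q2 F R (1 - x) + 1 := by
  have s1 : ∑ x, χ x = 0 := MulChar.sum_eq_zero_of_ne_one h1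
  have s2 : ∑ x : F, q2 F R (1 - x) = 0 := by
    rw [show ∑ x : F, q2 F R (1 - x) = ∑ x : F, q2 F R x from
      (Equiv.subLeft (1 : F)).sum_comp (fun x => q2 F R x)]
    simp only [q2_apply]
    rw [← Int.cast_sum, quadraticChar_sum_zero hF, Int.cast_zero]
  have d : 2 + 2 * w ∣ ∑ x, (χ x - 1) * (q2 F R (1 - x) - 1) := by
    refine dvd_sum fun x _ => ?_
    by_cases h0 : x = 0
    · simp [h0]
    by_cases h1 : 1 - x = 0
    · have : x = 1 := by linear_combination -h1
      simp [this]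
    rw [show 2 + 2 * w = (1 + w) * 2 by ring]
    refine mul_dvd_mul (dvd_sub hw (h4 x h0)) ?_
    rcases q2_cases (R := R) h1 with h | h <;> rw [h]
    · simp
    · exact ⟨-1, by ring⟩
  have e : ∑ x, (χ x - 1) * (q2 F R (1 - x) - 1) =
      ∑ x, χ x * q2 F R (1 - x) - ∑ x, χ x - ∑ x : F, q2 F R (1 - x) + ∑ _x : F, (1 : R) := by
    rw [← sum_sub_distrib, ← sum_sub_distrib, ← sum_add_distrib]
    exact sum_congr rfl fun x _ => by ring
  rw [e, s1, s2, sum_const, card_univ, hq, nsmul_eq_mul] at d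
  obtain ⟨z, hz⟩ := d
  push_cast at hz
  exact ⟨z - (1 - w) * m, by linear_combination hz - 2 * (m : R) * hw⟩

end Main

end PJac4

variable {k : Type} [Field k] [NumberField k] [Algebra k ℂ]

open PJac4 in
theorem x_jac4 (B : BF k) (hB : B.D = -1) (hPrim : X_Prim B) : X_Jac4 B := by
  intro F _ _ _ ρ hF
  have hw : B.ω ^ 2 = -1 := by rw [B.sq, hB]; simp
  have h2 : (2 : F) ≠ 0 := Ring.two_ne_zero hF
  obtain ⟨m, hm, hq⟩ := card_eq hw ρ hF
  obtain ⟨χ, h4, hρ⟩ := exists_chi hw ρ hF hm hq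
  have hs := chi_sq hw ρ hF hq h4 hρ
  have hc : ∀ x, B.c (χ x) = χ x ^ 3 := by
    intro x
    by_cases hx : x = 0
    · rw [hx, MulChar.map_zero, map_zero, zero_pow three_ne_zero]
    · exact conj_eq hw B.c B.cω (h4 x hx)
  have hc2 : ∀ x : F, B.c (q2 F (𝓞 k) x) = q2 F (𝓞 k) x := fun x => by
    rw [q2_apply, map_intCast]
  have hcJ : B.c (∑ x, χ x * q2 F (𝓞 k) (1 - x)) = ∑ x, χ x ^ 3 * q2 F (𝓞 k) (1 - x) := by
    rw [map_sum]
    exact sum_congr rfl fun x _ => by rw [map_mul, hc, hc2]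
  obtain ⟨a, ha⟩ := quadraticChar_exists_neg_one' hF
  have ha2 : q2 F (𝓞 k) a = -1 := by rw [q2_apply, ha]; simp
  have ha1 : χ a ^ 2 = -1 := by rw [hs, ha2]
  have n1 : (-1 : 𝓞 k) ≠ 1 := by
    intro h
    exact (two_ne_zero : (2 : 𝓞 k) ≠ 0) (by linear_combination -h)
  have h1 : χ ≠ 1 := MulChar.ne_one_iff.2 ⟨a, fun h => n1 (by rw [← ha1, h, one_pow])⟩
  have hn : q2 F (𝓞 k) (-1) = 1 := by
    have hi : ρ B.ω ^ 2 = -1 := by rw [← map_pow, hw, map_neg, map_one]
    have h0 : ρ B.ω ≠ 0 := fun h => by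
      rw [h] at hi
      simp at hi
    rw [q2_apply, ← hi, quadraticChar_sq_one' h0, Int.cast_one]
  refine ⟨∑ x, χ x * q2 F (𝓞 k) (1 - x), congr_J hw hF hq h4 h1, ?_, ?_, ?_, ?_⟩
  · have hj : Function.Injective (algebraMap (𝓞 k) k) := IsFractionRing.injective _ _
    have hch : ringChar k ≠ ringChar F := by
      rw [ringChar.eq_zero]
      exact (CharP.ringChar_ne_zero_of_finite F).symm
    have h3 : χ * q2 F (𝓞 k) ≠ 1 := MulChar.ne_one_iff.2 ⟨a, fun h => n1 (by
      rw [MulChar.mul_apply, ha2] at h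
      linear_combination (1 - χ a) * h - ha1)⟩
    have h5 : q2 F (𝓞 k) ≠ 1 := MulChar.ne_one_iff.2 ⟨a, by rw [ha2]; exact n1⟩
    have key := jacobiSum_mul_jacobiSum_inv hch ((MulChar.ringHomComp_ne_one_iff hj).2 h1)
      ((MulChar.ringHomComp_ne_one_iff hj).2 h5)
      (by rw [← MulChar.ringHomComp_mul]; exact (MulChar.ringHomComp_ne_one_iff hj).2 h3)
    rw [MulChar.ringHomComp_inv, MulChar.ringHomComp_inv, jacobiSum_ringHomComp,
      jacobiSum_ringHomComp, ← map_mul, ← map_natCast (algebraMap (𝓞 k) k)] at key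
    rw [hcJ, ← hj key]
    congr 1
    refine sum_congr rfl fun x _ => ?_
    have i1 : χ⁻¹ x = χ x ^ 3 := by
      by_cases hx : x = 0
      · rw [hx, MulChar.map_zero, MulChar.map_zero, zero_pow three_ne_zero]
      have := congrArg (fun ψ : MulChar F (𝓞 k) => ψ x) (MulChar.inv_mul χ)
      simp only [MulChar.mul_apply, MulChar.one_apply (isUnit_iff_ne_zero.2 hx)] at this
      linear_combination χ x ^ 3 * this - χ⁻¹ x * h4 x hx
    have i2 : (q2 F (𝓞 k))⁻¹ = q2 F (𝓞 k) :=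
      ((quadraticChar_isQuadratic F).comp (Int.castRingHom (𝓞 k))).inv
    rw [i1, i2]
  · rw [map_sum, ← sum_low hm hq]
    exact sum_congr rfl fun x _ => by rw [map_mul, hρ, rho_q2 ρ hF hq]
  · intro hp
    obtain ⟨f, hpr, hf⟩ := FiniteField.card F (ringChar F)
    have e : ρ (∑ x, χ x ^ 3 * q2 F (𝓞 k) (1 - x)) = -((-1) ^ m * ((2 * m).choose m : F)) := by
      rw [map_sum, ← sum_high hm hq]
      exact sum_congr rfl fun x _ => by
        rw [map_mul, map_pow, hρ, rho_q2 ρ hF hq, ← pow_mul, mul_comm m]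
    rw [hcJ, e]
    refine neg_ne_zero.2 (mul_ne_zero (pow_ne_zero _ (neg_ne_zero.2 one_ne_zero)) fun h => ?_)
    exact lucas hpr hp f m (hf.symm.trans hq) ((ringChar.spec F _).1 h)
  · intro β u hu hβ
    rw [hq, Nat.add_sub_cancel, Nat.mul_div_cancel_left _ (by norm_num)] at hβ
    have hβ0 : β ≠ 0 := by
      rintro rfl
      have := congrArg ρ hu
      rw [map_pow, hβ, zero_pow (by omega), map_one] at this
      simp at this
    obtain rfl : u = χ β := inj hw ρ h2 hu (h4 β hβ0) (by rw [hβ, hρ])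
    rw [hcJ, hc]
    exact point hF hs hn hβ0 hu

end Pool.Agent.P.MP_b8021b_nt.BS
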