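import Pool.Agent.P.MP_b8021b_nt.BS.BasicD

/-! Valuations of the abscissa at the odd places, and isotropy of the local images over two. -/

namespace Pool.Agent.P.MP_b8021b_nt.BS

open NumberField IsDedekindDomain Finset MeasureTheory
open Pool.Agent.P.MP_b8021b_nt.VE Pool.Agent.P.MP_b8021b_nt.VC Pool.Agent.P.MP_b8021b_nt.BS.CF
open scoped Classical ComplexConjugate Real

variable {k : Type} [Field k] [NumberField k] [Algebra k ℂ] {K : Type} [Field K] [NumberField K]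
  [Algebra k K]

namespace PVal

theorem even_of {v : Pl K} {x y z u : K} (hx : x ≠ 0) (hz : z ≠ 0) (hu : vl v u = 1)
    (h : y ^ 2 = x * z ^ 2 * u) : Even (od v x) := by
  have u0 : u ≠ 0 := by
    rintro rfl
    simp at hu
  have e := congrArg (od v) h
  rw [od_mul v (mul_ne_zero hx (pow_ne_zero 2 hz)) u0, od_mul v hx (pow_ne_zero 2 hz), od_pow,
    od_pow, od_eq_zero_of_vl v hu] at e
  exact ⟨od v y - od v z, by push_cast at e; omega⟩

theorem lp_of {v : Pl K} {x y u : K} (hx : x ≠ 0) (hu : LP 2 v u) (h : y ^ 2 = x * u) :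
    LP 2 v x := by
  have u0 := hu.ne_zero
  have y0 : y ≠ 0 := by
    rintro rfl
    exact mul_ne_zero hx u0 (by simpa using h.symm)
  have := (LP.pow_self v two_ne_zero y0).div hu
  rwa [h, mul_div_cancel_right₀ _ u0] at this

theorem lp_one_sub {v : Pl K} (hv : ¬ Dv 2 v) {e : K} (he : vl v e < 1) : LP 2 v (1 - e) :=
  LP.of_near_one hv (by simpa using he)

theorem lp_even {v : Pl K} {x : K} (h : LP 2 v x) : Even (od v x) := by
  have := h.dvd
  exact even_iff_two_dvd.2 (by exact_mod_cast this)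

theorem nv {F : Type} [Field F] [CharZero F] {i b x₁ y₁ x₂ y₂ : F} (hi : i ^ 2 = -1)
    (h₁ : y₁ ^ 2 = x₁ * (x₁ ^ 2 + b)) (h₂ : y₂ ^ 2 = x₂ * (x₂ ^ 2 + b)) (n₁ : x₁ ≠ 0)
    (n₂ : x₂ ≠ 0) : NV 2 x₁ x₂ := by
  have hl : El 2 := Or.inl rfl
  by_cases h : Nf 2 x₁ (y₂ / x₂) (1 + i) 0 = 0
  · have h1 : (1 + i : F) ≠ 0 := fun e => by
      have : (2 : F) = 0 := by linear_combination hi + (1 - i) * e
      exact two_ne_zero this
    obtain ⟨β, rfl⟩ := Nf_zero_two h h1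
    exact NV.split hl (by rintro rfl; simp at n₁) _
  · have e : x₂ = Nf 2 x₁ (x₂ - i * x₁) (i * y₁ / x₁) 0 / Nf 2 x₁ (y₂ / x₂) (1 + i) 0 := by
      rw [eq_div_iff h, Nf_two, Nf_two]
      field_simp
      linear_combination x₁ * h₂ - x₂ * h₁ +
        (x₂ * y₁ ^ 2 - x₁ ^ 2 * x₂ ^ 2 - x₁ ^ 3 * x₂) * hi
    rw [e]
    exact NV.div hl ⟨_, _, _, rfl⟩ ⟨_, _, _, rfl⟩

end PVal

open PVal

theorem x_val (c : Ctx k K) : X_Val K := by
  intro ζ t x y v hv hζ ht hx h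
  obtain ⟨i, hi⟩ := c.om
  have z0 : ζ ≠ 0 := by
    rintro rfl
    exact hζ.ns ⟨0, by simp⟩
  have i0 : i ≠ 0 := by
    rintro rfl
    simp at hi
  have e0 : ζ * t ^ 2 / x ^ 2 ≠ 0 := div_ne_zero (mul_ne_zero z0 (pow_ne_zero 2 ht)) (pow_ne_zero 2 hx)
  have eo : od v (ζ * t ^ 2 / x ^ 2) = 2 * (od v t - od v x) := by
    rw [od_div v (mul_ne_zero z0 (pow_ne_zero 2 ht)) (pow_ne_zero 2 hx),
      od_mul v z0 (pow_ne_zero 2 ht), od_pow, od_pow, hζ.od v]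
    push_cast
    ring
  have h1 : y ^ 2 = x * x ^ 2 * (1 - ζ * t ^ 2 / x ^ 2) := by
    rw [h]
    field_simp
  rcases lt_trichotomy (od v x) (od v t) with l | l | l
  · have : LP 2 v x := lp_of hx ((LP.pow_self v two_ne_zero hx).mul
      (lp_one_sub hv ((od_pos_iff v e0).1 (by rw [eo]; omega)))) (by rw [h1, mul_assoc])
    exact ⟨fun _ => lp_even this, fun _ => lp_even this, fun _ _ _ => this⟩
  · refine ⟨fun e => l ▸ e, fun n => ?_, fun o _ e => absurd (l ▸ e) (Int.not_even_iff_odd.2 o)⟩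
    have e1 : vl v (ζ * t ^ 2 / x ^ 2) = 1 := (od_eq_zero_iff v e0).1 (by rw [eo]; omega)
    refine even_of hx hx (le_antisymm ?_ (not_lt.1 fun l' => n ?_)) h1
    · exact Valuation.map_sub_le _ (by simp) e1.le
    · have h2 : LP 2 v (ζ * t ^ 2 / x ^ 2) := by simpa using lp_one_sub hv l'
      refine lp_of (y := ζ) z0 ((h2.mul (LP.pow_self v two_ne_zero hx)).div
        (LP.pow_self v two_ne_zero ht)) ?_
      field_simp
  · have l1 : vl v (ζ * t ^ 2 / x ^ 2)⁻¹ < 1 :=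
      (od_pos_iff v (inv_ne_zero e0)).1 (by rw [od_inv, eo]; omega)
    have h2 : y ^ 2 = x * (i * t) ^ 2 * (ζ * (1 - (ζ * t ^ 2 / x ^ 2)⁻¹)) := by
      rw [h, mul_pow, hi]
      field_simp
      ring
    have ev : Even (od v x) := even_of hx (mul_ne_zero i0 ht) (by
      rw [map_mul, (od_eq_zero_iff v z0).1 (hζ.od v), one_mul]
      exact vl_of_near v (by simpa using l1)) h2
    exact ⟨fun _ => ev, fun _ => ev, fun _ p _ => lp_of hx ((LP.pow_self v two_ne_zero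
      (mul_ne_zero i0 ht)).mul (p.mul (lp_one_sub hv l1))) (by rw [h2, mul_assoc])⟩

theorem x_iso (c : Ctx k K) : X_Iso K := by
  intro ζ a b ha hb v hv
  have hl : El 2 := Or.inl rfl
  obtain ⟨-, h2, h3⟩ := c.lib.hen K 2 v hl
  obtain ⟨x₁, p₁, q₁⟩ := ha v hv
  obtain ⟨x₂, p₂, q₂⟩ := hb v hv
  obtain ⟨-, y₁, e₁⟩ := (h2 _).1 p₁
  obtain ⟨-, y₂, e₂⟩ := (h2 _).1 p₂
  obtain ⟨n₁, r₁, f₁⟩ := (h2 _).1 q₁
  obtain ⟨n₂, r₂, f₂⟩ := (h2 _).1 q₂
  have : CharZero (v.adicCompletion K) := algebraRat.charZero _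
  obtain ⟨i, hi⟩ := c.om.map (algebraMap K (v.adicCompletion K))
  set f := algebraMap K (v.adicCompletion K)
  have m₁ : f x₁ ≠ 0 := (map_ne_zero f).2 (right_ne_zero_of_mul n₁)
  have m₂ : f x₂ ≠ 0 := (map_ne_zero f).2 (right_ne_zero_of_mul n₂)
  have s₁ : r₁ ≠ 0 := by
    rintro rfl
    exact (map_ne_zero f).2 n₁ (by simpa using f₁)
  rw [map_mul] at f₁ f₂
  have key : NV 2 (f x₁) (f x₂) := nv (b := -f ζ) (y₁ := y₁) (y₂ := y₂) hi
    (by rw [← e₁]; simp [sub_eq_add_neg]) (by rw [← e₂]; simp [sub_eq_add_neg]) m₁ m₂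
  refine h3 a b (left_ne_zero_of_mul n₂) ?_
  have g₁ : f a = f x₁ * (r₁ / f x₁) ^ 2 := by
    field_simp
    linear_combination f₁
  have g₂ : f b = f x₂ * (r₂ / f x₂) ^ 2 := by
    field_simp
    linear_combination f₂
  rw [g₁, g₂]
  exact (key.scale hl (div_ne_zero s₁ m₁)).mul hl (NV.pow hl _ _)

end Pool.Agent.P.MP_b8021b_nt.BS
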