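import Pool.Agent.P.MP_b8021b_nt.BS.BasicD

/-! The Selmer group of the good twists is minimal. -/

namespace Pool.Agent.P.MP_b8021b_nt.BS

open NumberField IsDedekindDomain Finset
open Pool.Agent.P.MP_b8021b_nt.VE Pool.Agent.P.MP_b8021b_nt.VC Pool.Agent.P.MP_b8021b_nt.BS.CF
open scoped Classical

variable {k : Type} [Field k] [NumberField k] [Algebra k ℂ] {K : Type} [Field K] [NumberField K]
  [Algebra k K]

namespace PSel

/-- independence modulo squares -/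
def Idp {m : ℕ} (w : Fin m → K) : Prop :=
  ∀ c : Fin m → ℕ, (∃ z : K, ∏ i, w i ^ c i = z ^ 2) → ∀ i, 2 ∣ c i

/-- the classes that satisfy the local conditions -/
def Sl (ζ x : K) : Prop := x ≠ 0 ∧ (∀ v : Pl K, ¬ Dv 2 v → Even (od v x)) ∧ Loc ζ x

/-- there are `m` independent classes -/
def Pm (ζ : K) (m : ℕ) : Prop :=
  ∃ y : Fin m → K, (∀ i, Sl ζ (y i)) ∧ Idp (Fin.cons ζ y : Fin (m + 1) → K)

omit [NumberField K] in
theorem red {ι : Type} [Fintype ι] {w : ι → K} (hw : ∀ i, w i ≠ 0) {c : ι → ℕ} {z : K}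
    (h : ∏ i, w i ^ c i = z ^ 2) : ∃ z' : K, ∏ i, w i ^ (c i % 2) = z' ^ 2 := by
  have h0 : ∏ i, w i ^ (c i / 2) ≠ 0 := prod_ne_zero_iff.2 fun i _ => pow_ne_zero _ (hw i)
  refine ⟨z / ∏ i, w i ^ (c i / 2), ?_⟩
  rw [div_pow, ← h, eq_div_iff (pow_ne_zero _ h0), ← prod_pow, ← prod_mul_distrib]
  refine prod_congr rfl fun i _ => ?_
  rw [← pow_mul, ← pow_add, Nat.mod_add_div']

theorem ne0 {ζ : K} (h : Un ζ) : ζ ≠ 0 := fun e => h.ns ⟨0, by simp [e]⟩

theorem pm_zero {ζ : K} (h : Un ζ) : Pm ζ 0 := by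
  refine ⟨Fin.elim0, fun i => i.elim0, fun c ⟨z, hz⟩ i => ?_⟩
  obtain ⟨z', hz'⟩ := red (fun i => by
    refine Fin.cases ?_ (fun j => j.elim0) i
    exact ne0 h) hz
  obtain rfl : i = 0 := Fin.fin_one_eq_zero i
  by_contra hn
  rw [Fin.prod_univ_succ, Fin.prod_univ_zero, mul_one, Nat.two_dvd_ne_zero.1 hn, pow_one] at hz'
  exact h.ns ⟨z', by rw [← sq]; exact hz'⟩

theorem pm_bdd (hes : Z_ES) (ζ : K) : ∃ M, ¬ Pm ζ M := by
  obtain ⟨Y, hY⟩ := (hes K).2 2 2 two_ne_zero two_ne_zero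
  refine ⟨Y.card + 1, fun ⟨y, hy, hI⟩ => ?_⟩
  choose f hf z hz using fun i => hY (y i) (hy i).1 fun v hv => ((hy i).2.1 v hv).two_dvd
  obtain ⟨i, -, j, -, hij, e⟩ := exists_ne_map_eq_of_card_lt_of_maps_to
    (s := (univ : Finset (Fin (Y.card + 1)))) (t := Y) (by simp) (f := f) fun i _ => hf i
  have := hI (Fin.cons 0 (Pi.single i 1 + Pi.single j 1)) ⟨f i * z i * z j, by
    rw [Fin.prod_univ_succ]
    simp only [Fin.cons_zero, Fin.cons_succ, pow_zero, one_mul, Pi.add_apply, pow_add,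
      prod_mul_distrib]
    rw [prod_eq_single i (fun b _ hb => by simp [hb]) (by simp),
      prod_eq_single j (fun b _ hb => by simp [hb]) (by simp)]
    simp only [Pi.single_eq_same, pow_one]
    rw [hz i, hz j, ← e]
    ring⟩ i.succ
  simp [hij] at this

theorem ex_max {P : ℕ → Prop} (h0 : P 0) : ∀ M, ¬ P M → ∃ m, P m ∧ ¬ P (m + 1) := by
  intro M
  induction M with
  | zero => exact fun h => absurd h0 h
  | succ M ih =>
    intro h
    by_cases hM : P M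
    · exact ⟨M, hM, h⟩
    · exact ih hM

/-- the abscissa of a point satisfies the conditions over two -/
theorem loc_pt {ζ t x y : K} (h : Un ζ) (ht : t ≠ 0) (hl : ∀ v : Pl K, Dv 2 v → LP 2 v t)
    (e : y ^ 2 = x ^ 3 - ζ * t ^ 2 * x) (hx : x ≠ 0) : Loc ζ x := by
  have hy : y ≠ 0 := by
    rintro rfl
    refine h.ns ⟨x / t, ?_⟩
    field_simp
    apply mul_left_cancel₀ hx
    linear_combination e
  intro v hv
  refine ⟨x / t, ?_, ?_⟩
  · rw [show x / t * ((x / t) ^ 2 - ζ) = y ^ 2 / t ^ 3 by rw [e]; field_simp]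
    exact (LP.pow_self v two_ne_zero hy).div ((hl v hv).pow two_ne_zero 3)
  · rw [show x * (x / t) = x ^ 2 / t by ring]
    exact (LP.pow_self v two_ne_zero hx).div (hl v hv)

end PSel

open PSel in
theorem x_sel (c : Ctx k K) (hVal : X_Val K) (hIso : X_Iso K) : X_Sel K := by
  intro ζ hζ
  obtain ⟨M, hM⟩ := pm_bdd c.lib.es ζ
  obtain ⟨m, ⟨y, hy, hI⟩, hmax⟩ := ex_max (pm_zero hζ) M hM
  have hw : ∀ i, (Fin.cons ζ y : Fin (m + 1) → K) i ≠ 0 :=
    Fin.cases (ne0 hζ) fun i => (hy i).1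
  obtain ⟨π, hπ⟩ := c.lib.c K 2 2 (m + 1) _ c.om (Or.inl rfl) two_ne_zero hw hI
  have pζ : ∀ j : Fin m, LP 2 (π j.succ) ζ := fun j => ((hπ _).2 0).2 (Fin.succ_ne_zero j).symm
  have py : ∀ i j : Fin m, LP 2 (π j.succ) (y i) ↔ i ≠ j := fun i j =>
    ((hπ _).2 i.succ).trans (by simp)
  refine ⟨univ.image fun j : Fin m => π j.succ, fun v hv => ?_, fun t ht hl hV x u e hx => ?_⟩
  · obtain ⟨j, -, rfl⟩ := mem_image.1 hv
    exact ⟨(hπ _).1, pζ j⟩
  have hL := loc_pt hζ ht hl e hx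
  have hout : ∀ v : Pl K, ¬ Dv 2 v → (∀ j : Fin m, π j.succ ≠ v) → Even (od v x) := by
    intro v hv hn
    obtain ⟨h1, h2, -⟩ := hVal ζ t x u v hv hζ ht hx e
    by_cases hp : LP 2 v ζ
    · refine h1 (Int.not_odd_iff_even.1 fun ho => ?_)
      obtain ⟨j, -, hj⟩ := mem_image.1 ((hV v hv).1 ⟨ho, hp⟩)
      exact hn j hj
    · exact h2 hp
  have hin : ∀ j : Fin m, Even (od (π j.succ) x) := fun j => by
    refine even_iff_two_dvd.2 (c.lib.wr K 2 2 (y j) x _ c.om (Or.inl rfl) le_rfl dvd_rfl (hy j).1 hx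
      (hπ _).1 (fun v hv => ((hy j).2.1 v hv).two_dvd) (fun h => (py j j).1 h rfl) fun v hv => ?_)
    by_cases h2 : Dv 2 v
    · exact Or.inl (hIso ζ _ _ (hy j).2.2 hL v h2)
    by_cases hn : ∀ i : Fin m, π i.succ ≠ v
    · exact Or.inr ⟨h2, ((hy j).2.1 v h2).two_dvd, (hout v h2 hn).two_dvd⟩
    · push Not at hn
      obtain ⟨i, rfl⟩ := hn
      exact Or.inl (LN.of_left c.lib.hen (Or.inl rfl) hx
        ((py j i).2 fun e => hv (by rw [e])))
  have hS : Sl ζ x := ⟨hx, fun v hv => by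
    by_cases hn : ∀ i : Fin m, π i.succ ≠ v
    · exact hout v hv hn
    · push Not at hn
      obtain ⟨i, rfl⟩ := hn
      exact hin i, hL⟩
  have px : ∀ j : Fin m, LP 2 (π j.succ) x := fun j =>
    (hVal ζ t x u _ (hπ _).1 hζ ht hx e).2.2
      ((hV _ (hπ _).1).2 (mem_image.2 ⟨j, mem_univ _, rfl⟩)).1 (pζ j) (hin j)
  have hn : ¬ Idp (Fin.cons ζ (Fin.cons x y : Fin (m + 1) → K) : Fin (m + 2) → K) := fun h =>
    hmax ⟨Fin.cons x y, Fin.cases hS hy, h⟩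
  simp only [Idp, not_forall] at hn
  obtain ⟨a, ⟨z, hz⟩, i₀, hi₀⟩ := hn
  have hw' : ∀ i, (Fin.cons ζ (Fin.cons x y : Fin (m + 1) → K) : Fin (m + 2) → K) i ≠ 0 :=
    Fin.cases (ne0 hζ) (Fin.cases hx fun i => (hy i).1)
  obtain ⟨z', hz'⟩ := red hw' hz
  have hz0 : z' ≠ 0 := fun e0 => by
    rw [e0, zero_pow two_ne_zero] at hz'
    exact prod_ne_zero_iff.2 (fun i _ => pow_ne_zero _ (hw' i)) hz'
  simp only [Fin.prod_univ_succ, Fin.cons_zero, Fin.cons_succ] at hz'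
  have hev : ∀ j : Fin m, a j.succ.succ % 2 = 0 := fun j => by
    by_contra ho
    have h1 := ((LP.pow_self (π j.succ) two_ne_zero hz0).div
      ((pζ j).pow two_ne_zero (a 0 % 2))).div ((px j).pow two_ne_zero (a (Fin.succ 0) % 2))
    have h2 : LP 2 (π j.succ) (∏ i ∈ univ.erase j, y i ^ (a i.succ.succ % 2)) :=
      LP.prod two_ne_zero _ fun i hi => ((py i j).2 (ne_of_mem_erase hi)).pow two_ne_zero _
    have h3 := h1.div h2
    rw [← hz', ← mul_prod_erase univ _ (mem_univ j), Nat.mod_two_ne_zero.1 ho, pow_one,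
      mul_div_cancel_left₀ _ (pow_ne_zero _ (ne0 hζ)), mul_div_cancel_left₀ _ (pow_ne_zero _ hx),
      mul_div_cancel_right₀ _ h2.ne_zero] at h3
    exact (py j j).1 h3 rfl
  simp only [hev, pow_zero, prod_const_one, mul_one] at hz'
  rcases Nat.mod_two_eq_zero_or_one (a 0) with h0 | h0 <;>
    rcases Nat.mod_two_eq_zero_or_one (a (Fin.succ 0)) with h1 | h1 <;>
    simp only [h0, h1, pow_zero, pow_one, one_mul, mul_one] at hz'
  · refine absurd (Nat.dvd_of_mod_eq_zero ?_) hi₀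
    exact Fin.cases h0 (Fin.cases h1 hev) i₀
  · exact Or.inl ⟨z', by rw [hz', sq]⟩
  · exact absurd ⟨z', by rw [hz', sq]⟩ hζ.ns
  · exact Or.inr ⟨z', by rw [hz', sq]⟩

end Pool.Agent.P.MP_b8021b_nt.BS
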