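import Pool.Agent.P.MP_b8021b_nt.BS.RecB

/-! The product formula for the tame symbol, second part. -/

namespace Pool.Agent.P.MP_b8021b_nt.BS.RecP

open Pool.Agent.P.MP_b8021b_nt.BS.CF
open NumberField IsDedekindDomain Finset WithZero
open Pool.Agent.P.MP_b8021b_nt Pool.Agent.P.MP_b8021b_nt.VE Pool.Agent.P.MP_b8021b_nt.VC
open scoped Classical

noncomputable section

variable {L : Type} [Field L] [NumberField L] {v q : Pl L} {a b c x y : L} {n : ℕ}

theorem ln_self (hH : Z_Hen) (hL : Om L) (hc : c ≠ 0) (h : LP 2 v (c / a)) : LN 2 v a c := by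
  obtain ⟨-, h2, h3⟩ := hH L 2 v el2
  obtain ⟨h0, r, hr⟩ := (h2 _).1 h
  obtain ⟨i, hi⟩ := hL
  have ha : a ≠ 0 := (div_ne_zero_iff.1 h0).2
  refine h3 a c hc ⟨0, algebraMap L _ i * r, 0, ?_⟩
  have e := congrArg (algebraMap L (v.adicCompletion L)) hi
  rw [map_pow, map_neg, map_one] at e
  rw [Nf_two, ← div_mul_cancel₀ c ha, map_mul, hr]
  linear_combination (algebraMap L (v.adicCompletion L) a * r ^ 2) * e

/-- the data of the reciprocity law -/
structure Dat (n : ℕ) (a : L) : Prop where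
  t : T1
  wr : Z_WR
  chi : Z_Chi
  pc : Z_PC
  om : Om L
  le : 2 ≤ n
  dvd : 2 ∣ n
  ne : a ≠ 0
  lp : ∀ v, Dv 2 v → LP 2 v a
  ev : ∀ v, ¬ Dv n v → 2 ∣ od v a

theorem Dat.zero (D : Dat n a) (hb : b ≠ 0) (hp : ∀ v, Dv n v → LP 2 v b) : TT a b = 0 :=
  RecP.zero D.t D.chi D.om D.le D.dvd D.ne D.ev hb hp

/-- reduction to a class with one odd place outside `n` -/
theorem Dat.red (D : Dat n a) (hc : c ≠ 0) (hp : ∀ w, w ≠ v → Dv n w → LP 2 w c) (hv : Dv n v) :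
    ∃ (c' : L) (q : Pl L), c' ≠ 0 ∧ TT a c = TT a c' ∧ LP 2 v (c' / c) ∧
      (∀ w, w ≠ v → Dv n w → LP 2 w c') ∧ ¬ Dv n q ∧ (Ideal.absNorm q.asIdeal).Prime ∧
      ¬ 2 ∣ od q c' ∧ ∀ w, w ≠ q → ¬ Dv n w → 2 ∣ od w c' := by
  obtain ⟨c', q, h0, h1, -, h2, h3, h4, h5⟩ := pc2 D.pc D.om D.le D.dvd hc ∅
  refine ⟨c', q, h0, ?_, h1 v hv, fun w a1 a2 => ?_, h2, h3, h4, h5⟩
  · have := TT_mul D.t.res a (div_ne_zero h0 hc) hc
    rw [div_mul_cancel₀ _ hc, D.zero (div_ne_zero h0 hc) h1, zero_add] at this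
    exact this.symm
  · simpa [hc] using (h1 w a2).mul (hp w a1 a2)

theorem od_lp (hc : c ≠ 0) (h : LP 2 v (x / c)) : 2 ∣ od v x ↔ 2 ∣ od v c := by
  have := h.dvd
  rw [od_div v (div_ne_zero_iff.1 h.ne_zero).1 hc] at this
  omega

theorem Dat.one0 (D : Dat n a) (hc : c ≠ 0) (hp : ∀ w, w ≠ v → Dv n w → LP 2 w c) (hv : Dv n v)
    (h : LP 2 v a ∨ 2 ∣ od v c ∨ LP 2 v (c / a)) : TT a c = 0 := by
  obtain ⟨c', q, h0, e, h1, h2, h3, h4, h5, h6⟩ := D.red hc hp hv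
  have q2 : ¬ Dv 2 q := fun e => h3 (e.of_dvd D.dvd)
  have vq : v ≠ q := fun e => h3 (e ▸ hv)
  have e2 : TT a c' = sy v a c' + if LP 2 q a then 0 else 1 := by
    rw [← sy_eo q2 (D.ev q h3) h5, TT, finsum_eq_sum_of_support_subset (s := {v, q}),
      sum_pair vq]
    intro w hw
    by_contra hn
    simp only [coe_insert, coe_singleton, Set.mem_insert_iff, Set.mem_singleton_iff, not_or] at hn
    by_cases hd : Dv n w
    · exact hw (sy_lp a (h2 w hn.1 hd))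
    · exact hw (sy_even (D.ev w hd) (h6 w hn.2 hd))
  have w1 : LN 2 v a c' ∨ (¬ Dv 2 v ∧ 2 ∣ od v a ∧ 2 ∣ od v c') → LP 2 q a := fun hl => by
    by_contra hq
    refine h5 (D.wr L 2 n a c' q D.om el2 D.le D.dvd D.ne h0 h3 D.ev hq fun w hw => ?_)
    by_cases hwv : w = v
    · exact hwv ▸ hl
    by_cases hd : Dv n w
    · exact Or.inl (LN.of_right D.t.hen el2 a (h2 w hwv hd))
    · exact Or.inr ⟨fun e => hd (e.of_dvd D.dvd), D.ev w hd, h6 w hw hd⟩
  rw [e, e2]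
  by_cases a1 : LP 2 v a
  · rw [sy_comm, sy_lp c' a1, if_pos (w1 (Or.inl (LN.of_left D.t.hen el2 h0 a1))), add_zero]
  have v2 : ¬ Dv 2 v := fun e => a1 (D.lp v e)
  by_cases a2 : LP 2 v c'
  · rw [sy_lp a a2, if_pos (w1 (Or.inl (LN.of_right D.t.hen el2 a a2))), add_zero]
  rcases h with h | h | h
  · exact absurd h a1
  · have a3 := (od_lp hc h1).2 h
    by_cases a4 : 2 ∣ od v a
    · rw [sy_even a4 a3, if_pos (w1 (Or.inr ⟨v2, a4, a3⟩)), add_zero]
    rw [sy_comm, sy_eo v2 a3 a4, if_neg a2, if_neg]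
    · rfl
    intro hq
    have cp : (Ideal.absNorm q.asIdeal).Coprime n :=
      (Nat.Prime.coprime_iff_not_dvd h4).2 fun e => h3 ((dv_absNorm q).of_dvd e)
    refine a4 (D.wr L 2 (2 * Ideal.absNorm q.asIdeal) c' a v D.om el2
      (by have := h4.pos; omega) (dvd_mul_right _ _) h0 D.ne
      (fun e => ((dv_mul v).1 e).elim v2 fun e => not_dv_of_coprime v cp e hv)
      (fun w hw => ?_) a2 fun w hw => ?_)
    · by_cases hwv : w = v
      · exact hwv ▸ a3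
      by_cases hd : Dv n w
      · exact (h2 w hwv hd).dvd
      · exact h6 w (fun e => hw ((dv_mul w).2 (Or.inr (e ▸ dv_absNorm q)))) hd
    · by_cases hwq : w = q
      · exact Or.inl (LN.of_right D.t.hen el2 c' (hwq ▸ hq))
      by_cases hd : Dv n w
      · exact Or.inl (LN.of_left D.t.hen el2 D.ne (h2 w hw hd))
      · exact Or.inr ⟨fun e => hd (e.of_dvd D.dvd), h6 w hwq hd, D.ev w hd⟩
  · have a3 : LP 2 v (c' / a) := by simpa [div_mul_div_cancel₀ hc] using h1.mul h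
    have a4 := sy_mul D.t.res v a a3.ne_zero D.ne
    rw [div_mul_cancel₀ _ D.ne, sy_lp a a3, sy_self, add_zero] at a4
    rw [a4, if_pos (w1 (Or.inl (ln_self D.t.hen D.om h0 a3))), add_zero]

theorem Dat.one1 (D : Dat n a) (hc : c ≠ 0) (hp : ∀ w, w ≠ v → Dv n w → LP 2 w c) (hv : Dv n v)
    (h : LP 2 v a ∨ 2 ∣ od v c ∨ ¬ 2 ∣ od v a) : TT a c = 0 := by
  by_cases h1 : 2 ∣ od v c
  · exact D.one0 hc hp hv (Or.inr (Or.inl h1))
  rcases h with h | h | h
  · exact D.one0 hc hp hv (Or.inl h)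
  · exact absurd h h1
  obtain ⟨u, u1, u2⟩ := ex_class D.t.wa (by have := D.le; omega) v hv D.ne
  have u0 := (div_ne_zero_iff.1 u1.ne_zero).1
  have := TT_mul D.t.res a (div_ne_zero hc u0) u0
  rw [div_mul_cancel₀ _ u0, D.one0 u0 u2 hv (Or.inr (Or.inr u1)),
    D.one0 (div_ne_zero hc u0) (fun w a1 a2 => (hp w a1 a2).div (u2 w a1 a2)) hv
      (Or.inr (Or.inl ?_)), add_zero] at this
  · exact this
  · have := mt (od_lp D.ne u1).1 h
    rw [od_div v hc u0]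
    omega

/-- from the local classes to the element -/
theorem Dat.glob (D : Dat n a) (hb : b ≠ 0) (h : ∀ v c, Dv n v → LP 2 v (c / b) →
    (∀ w, w ≠ v → Dv n w → LP 2 w c) → TT a c = 0) : TT a b = 0 := by
  have n0 : n ≠ 0 := by have := D.le; omega
  have h1 : ∀ v : Pl L, ∃ c : L, Dv n v → LP 2 v (c / b) ∧ ∀ w, w ≠ v → Dv n w → LP 2 w c :=
    fun v => by
      by_cases hv : Dv n v
      · exact (ex_class D.t.wa n0 v hv hb).imp fun _ h _ => h
      · exact ⟨0, fun e => absurd e hv⟩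
  choose c hc using h1
  have h2 : ∀ s : Finset (Pl L), (∀ v ∈ s, Dv n v) →
      ∏ v ∈ s, c v ≠ 0 ∧ TT a (∏ v ∈ s, c v) = 0 := by
    intro s
    induction s using Finset.induction_on with
    | empty => exact fun _ => ⟨by simp, D.zero (by simp) fun v _ => by simpa using LP.one v two_ne_zero⟩
    | insert v s hv ih =>
      intro hs
      obtain ⟨i1, i2⟩ := ih fun w hw => hs w (mem_insert_of_mem hw)
      have a1 := hc v (hs v (mem_insert_self v s))
      have a2 := (div_ne_zero_iff.1 a1.1.ne_zero).1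
      rw [prod_insert hv, TT_mul D.t.res a a2 i1, i2,
        h v _ (hs v (mem_insert_self v s)) a1.1 a1.2, add_zero]
      exact ⟨mul_ne_zero a2 i1, rfl⟩
  obtain ⟨p0, p1⟩ := h2 (finite_dv L n0).toFinset fun v hv => by simpa using hv
  have := TT_mul D.t.res a (div_ne_zero p0 hb) hb
  rw [div_mul_cancel₀ _ hb, p1, D.zero (div_ne_zero p0 hb) fun v hv => ?_, zero_add] at this
  · exact this.symm
  · rw [← mul_prod_erase _ c (show v ∈ (finite_dv L n0).toFinset by simpa using hv),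
      mul_div_right_comm]
    exact (hc v hv).1.mul (LP.prod two_ne_zero _ fun w hw =>
      (hc w (by simpa using (mem_erase.1 hw).2)).2 v (mem_erase.1 hw).1.symm hv)

theorem Dat.g1 (D : Dat n a) (hb : b ≠ 0)
    (h : ∀ v, Dv n v → LP 2 v a ∨ 2 ∣ od v b ∨ ¬ 2 ∣ od v a) : TT a b = 0 :=
  D.glob hb fun v _ hv h1 h2 => D.one1 (div_ne_zero_iff.1 h1.ne_zero).1 h2 hv
    ((h v hv).imp_right fun h => h.imp_left (od_lp hb h1).2)

theorem Dat.g2 (D : Dat n a) (hb : b ≠ 0) : TT a b = 0 := by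
  refine D.glob hb fun v c hv h1 h2 => ?_
  have hc := (div_ne_zero_iff.1 h1.ne_zero).1
  by_cases a1 : LP 2 v a
  · exact D.one1 hc h2 hv (Or.inl a1)
  by_cases a2 : 2 ∣ od v c
  · exact D.one1 hc h2 hv (Or.inr (Or.inl a2))
  obtain ⟨c', q, h0, e, h3, h4, h5, h6, -, h7⟩ := D.red hc h2 hv
  have D' : Dat (n * Ideal.absNorm q.asIdeal) c' :=
    ⟨D.t, D.wr, D.chi, D.pc, D.om, D.le.trans (Nat.le_mul_of_pos_right _ h6.pos),
      D.dvd.mul_right _, h0,
      fun w hw => h4 w (fun e => a1 (D.lp v (e ▸ hw))) (hw.of_dvd D.dvd),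
      fun w hw => h7 w (fun e => hw ((dv_mul w).2 (Or.inr (e ▸ dv_absNorm q))))
        fun e => hw ((dv_mul w).2 (Or.inl e))⟩
  rw [e, TT_comm]
  refine D'.g1 D.ne fun w _ => ?_
  by_cases hwv : w = v
  · exact Or.inr (Or.inr (hwv ▸ mt (od_lp hc h3).1 a2))
  by_cases hd : Dv n w
  · exact Or.inl (h4 w hwv hd)
  · exact Or.inr (Or.inl (D.ev w hd))

/-- the product formula -/
theorem prod (h : T1) (hW : Z_WR) (hC : Z_Chi) (hP : Z_PC) (hL : Om L) (ha : a ≠ 0) (hb : b ≠ 0)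
    (hl : ∀ v, Dv 2 v → LP 2 v a) : TT a b = 0 := by
  obtain ⟨m, m0, -, hm⟩ := (h.wa L).2.2.2.2.2.2.1 1 a one_ne_zero fun v hv =>
    absurd ((Ideal.eq_top_iff_one _).2 (by simpa [Dv] using hv)) v.isPrime.ne_top
  refine Dat.g2 (n := 2 * m) ⟨h, hW, hC, hP, hL, by omega, dvd_mul_right _ _, ha, hl,
    fun v hv => ?_⟩ hb
  rw [hm v fun e => hv ((dv_mul v).2 (Or.inr e))]
  exact dvd_zero _

end

end Pool.Agent.P.MP_b8021b_nt.BS.RecP
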