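import Pool.Agent.P.MP_b8021b_nt.BS.BasicD

/-! The Gaussian integers and primary generators of odd ideals. -/

namespace Pool.Agent.P.MP_b8021b_nt.BS

open NumberField IsDedekindDomain Finset MeasureTheory
open Pool.Agent.P.MP_b8021b_nt.VE Pool.Agent.P.MP_b8021b_nt.VC Pool.Agent.P.MP_b8021b_nt.BS.CF
open scoped Classical ComplexConjugate Real
variable {k : Type} [Field k] [NumberField k] [Algebra k ℂ] {K : Type} [Field K] [NumberField K]
  [Algebra k K]

namespace PPrim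

omit [Algebra k ℂ] in
/-- an integer of the field that is a rational number is a rational integer -/
theorem dvd_of {t : 𝓞 k} {d m : ℤ} (hd : d ≠ 0) (h : (d : 𝓞 k) * t = m) : d ∣ m := by
  have h1 : (d : k) * (t : k) = m := by simpa using congrArg (algebraMap (𝓞 k) k) h
  have d0 : (d : k) ≠ 0 := Int.cast_ne_zero.2 hd
  have h2 : algebraMap ℚ k ((m : ℚ) / d) = (t : k) := by
    rw [map_div₀, map_intCast, map_intCast, ← h1]; field_simp
  have h3 : IsIntegral ℤ ((m : ℚ) / d) :=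
    (isIntegral_algebraMap_iff (algebraMap ℚ k).injective).1 (h2 ▸ t.isIntegral_coe)
  obtain ⟨z, hz⟩ := IsIntegrallyClosed.algebraMap_eq_of_integral h3
  have d1 : (d : ℚ) ≠ 0 := Int.cast_ne_zero.2 hd
  refine ⟨z, ?_⟩
  rw [eq_intCast, eq_div_iff d1] at hz
  exact_mod_cast hz.symm.trans (mul_comm _ _)

variable (B : BF k) (hB : B.D = -1)
include hB

theorem sq : B.ω * B.ω = -1 := by
  have := B.sq
  rw [hB] at this
  simpa [pow_two] using this

/-- the coordinates are unique -/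
theorem coord {x y x' y' : ℤ} (h : (x : 𝓞 k) + y * B.ω = x' + y' * B.ω) : x = x' ∧ y = y' := by
  have h1 := congrArg B.c h
  simp only [map_add, map_mul, map_intCast, B.cω] at h1
  have h2 : ((2 * x : ℤ) : 𝓞 k) = ((2 * x' : ℤ) : 𝓞 k) := by
    push_cast; linear_combination h + h1
  have h3 : ((2 * y : ℤ) : 𝓞 k) = ((2 * y' : ℤ) : 𝓞 k) := by
    push_cast; linear_combination B.ω * h1 - B.ω * h + (2 * y - 2 * y' : 𝓞 k) * sq B hB
  have h4 := Int.cast_injective h2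
  have h5 := Int.cast_injective h3
  omega

theorem rat (a : k) : ∃ x y : ℚ, a = x + y * (B.ω : k) := by
  have hs : (B.ω : k) * B.ω = -1 := by exact_mod_cast congrArg (algebraMap (𝓞 k) k) (sq B hB)
  have li : LinearIndependent ℚ ![(1 : k), (B.ω : k)] := by
    refine LinearIndependent.pair_iff.2 fun s t h => ?_
    rw [Rat.smul_def, Rat.smul_def] at h
    have h1 : ((s ^ 2 + t ^ 2 : ℚ) : k) = 0 := by
      push_cast; linear_combination (s - t * (B.ω : k)) * h + (t : k) ^ 2 * hs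
    have h2 : s ^ 2 + t ^ 2 = 0 := by exact_mod_cast h1
    constructor <;> nlinarith [sq_nonneg s, sq_nonneg t]
  have h := li.span_eq_top_of_card_eq_finrank' (by simp [B.deg])
  obtain ⟨c, hc⟩ := (Submodule.mem_span_range_iff_exists_fun ℚ).1 (h ▸ Submodule.mem_top (x := a))
  exact ⟨c 0, c 1, by simpa [Fin.sum_univ_two, Rat.smul_def] using hc.symm⟩

theorem den (a : 𝓞 k) : ∃ d X Y : ℤ, d ≠ 0 ∧ (d : 𝓞 k) * a = X + Y * B.ω := by
  obtain ⟨x, y, h⟩ := rat B hB (a : k)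
  refine ⟨x.den * y.den, x.num * y.den, y.num * x.den, by positivity, ?_⟩
  apply RingOfIntegers.coe_injective
  have e1 : (x.den : k) * x = x.num := by exact_mod_cast congrArg (Rat.cast : ℚ → k) x.den_mul_eq_num
  have e2 : (y.den : k) * y = y.num := by exact_mod_cast congrArg (Rat.cast : ℚ → k) y.den_mul_eq_num
  simp only [map_mul, map_add, map_intCast, Int.cast_mul, Int.cast_natCast, map_natCast]
  change (x.den : k) * y.den * (a : k) = x.num * y.den + y.num * x.den * (B.ω : k)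
  rw [h, ← e1, ← e2]; ring

theorem int (a : 𝓞 k) : ∃ x y : ℤ, a = x + y * B.ω := by
  obtain ⟨d, X, Y, hd, h⟩ := den B hB a
  have h1 := congrArg B.c h
  simp only [map_add, map_mul, map_intCast, B.cω] at h1
  have hs := sq B hB
  obtain ⟨u, hu⟩ : d ∣ 2 * X :=
    dvd_of (t := a + B.c a) hd (by push_cast; linear_combination h + h1)
  obtain ⟨v, hv⟩ : d ∣ 2 * Y := dvd_of (t := B.ω * (B.c a - a)) hd (by
    push_cast; linear_combination B.ω * h1 - B.ω * h - 2 * (Y : 𝓞 k) * hs)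
  obtain ⟨n, hn⟩ : d ^ 2 ∣ X ^ 2 + Y ^ 2 := dvd_of (t := a * B.c a) (pow_ne_zero 2 hd) (by
    push_cast
    linear_combination (d * B.c a : 𝓞 k) * h + (X + Y * B.ω : 𝓞 k) * h1 - (Y : 𝓞 k) ^ 2 * hs)
  have h4 : u ^ 2 + v ^ 2 = 4 * n := mul_left_cancel₀ (pow_ne_zero 2 hd) (by
    linear_combination 4 * hn - (2 * X + d * u) * hu - (2 * Y + d * v) * hv)
  obtain ⟨p, hp | hp⟩ := Int.even_or_odd' u <;> obtain ⟨q, hq | hq⟩ := Int.even_or_odd' v <;>
    subst hp hq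
  · refine ⟨p, q, mul_left_cancel₀ (Int.cast_ne_zero.2 hd : (d : 𝓞 k) ≠ 0) ?_⟩
    have e1 : X = d * p := by linarith
    have e2 : Y = d * q := by linarith
    rw [h, e1, e2]; push_cast; ring
  · have : 4 * (n - p ^ 2 - q ^ 2 - q) = 1 := by linarith
    omega
  · have : 4 * (n - p ^ 2 - q ^ 2 - p) = 1 := by linarith
    omega
  · have : 4 * (n - p ^ 2 - q ^ 2 - p - q) = 2 := by linarith
    omega

theorem cj (a : 𝓞 k) : B.σ (B.c a) = conj (B.σ a) := by
  obtain ⟨x, y, rfl⟩ := int B hB a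
  have hs : B.σ B.ω * B.σ B.ω = -1 := by
    have := congrArg (fun t : 𝓞 k => B.σ t) (sq B hB)
    simpa using this
  have h : conj (B.σ B.ω) = -B.σ B.ω := by
    have e : (B.σ B.ω - Complex.I) * (B.σ B.ω + Complex.I) = 0 := by
      linear_combination hs - Complex.I_mul_I
    rcases mul_eq_zero.1 e with e | e
    · rw [sub_eq_zero.1 e, Complex.conj_I]
    · rw [eq_neg_of_add_eq_zero_left e, map_neg, Complex.conj_I]
  simp [B.cω, h]

theorem pid : IsPrincipalIdealRing (𝓞 k) := by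
  refine IsPrincipalIdealRing.of_surjective
    (Zsqrtd.lift (d := -1) ⟨B.ω, by simpa using sq B hB⟩ : GaussianInt →+* 𝓞 k) fun a => ?_
  obtain ⟨x, y, rfl⟩ := int B hB a
  exact ⟨⟨x, y⟩, rfl⟩

/-- the congruence in coordinates -/
theorem dvd_iff (x y : ℤ) :
    2 + 2 * B.ω ∣ (x : 𝓞 k) + y * B.ω - 1 ↔ 4 ∣ x - 1 + y ∧ 4 ∣ y - x + 1 := by
  have hs := sq B hB
  constructor
  · rintro ⟨t, ht⟩
    obtain ⟨p, q, rfl⟩ := int B hB t
    have := coord B hB (x := x) (y := y) (x' := 2 * p - 2 * q + 1) (y' := 2 * p + 2 * q)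
      (by push_cast; linear_combination ht + 2 * (q : 𝓞 k) * hs)
    omega
  · rintro ⟨⟨p, hp⟩, q, hq⟩
    have e1 : x = 2 * p - 2 * q + 1 := by omega
    have e2 : y = 2 * p + 2 * q := by omega
    exact ⟨p + q * B.ω, by rw [e1, e2]; push_cast; linear_combination -2 * (q : 𝓞 k) * hs⟩

theorem unit_eq {u w : 𝓞 k} (h : u * w = 1) (hu : 2 + 2 * B.ω ∣ u - 1) : u = 1 := by
  obtain ⟨p, q, rfl⟩ := int B hB u
  obtain ⟨r, s, rfl⟩ := int B hB w
  rw [dvd_iff B hB] at hu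
  obtain ⟨e1, e2⟩ := coord B hB (x := p * r - q * s) (y := p * s + q * r) (x' := 1) (y' := 0)
    (by push_cast; linear_combination h - (q * s : 𝓞 k) * sq B hB)
  have e3 : p ^ 2 + q ^ 2 = 1 := Int.eq_one_of_mul_eq_one_right (b := r ^ 2 + s ^ 2) (by positivity)
    (by linear_combination (p * r - q * s + 1) * e1 + (p * s + q * r) * e2)
  have : p ≤ 1 ∧ -1 ≤ p ∧ q ≤ 1 ∧ -1 ≤ q := by refine ⟨?_, ?_, ?_, ?_⟩ <;> nlinarith
  have : p = 1 ∧ q = 0 ∨ p = -1 ∧ q ^ 2 = 4 := by omega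
  rcases this with ⟨rfl, rfl⟩ | ⟨rfl, e⟩
  · simp
  · omega

theorem ex {g : 𝓞 k} (h : IsCoprime g 2) : ∃ a, sp a = sp g ∧ 2 + 2 * B.ω ∣ a - 1 := by
  obtain ⟨x, y, rfl⟩ := int B hB g
  obtain ⟨r, s, h⟩ := h
  obtain ⟨p, q, rfl⟩ := int B hB r
  obtain ⟨u, v, rfl⟩ := int B hB s
  have hs := sq B hB
  obtain ⟨e1, e2⟩ := coord B hB (x := p * x - q * y + 2 * u) (y := p * y + q * x + 2 * v) (x' := 1)
    (y' := 0) (by push_cast; linear_combination h - (q * y : 𝓞 k) * hs)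
  have ho : (x + y) % 2 = 1 := by
    have : (x + y) * (p + q) = 2 * (q * y - u - v) + 1 := by linear_combination e1 + e2
    exact Int.odd_iff.1 (Int.Odd.of_mul_left ⟨_, this⟩)
  have key : ∀ (x' y' : ℤ) (e f : 𝓞 k), e * f = 1 → (x' : 𝓞 k) + y' * B.ω = (x + y * B.ω) * e →
      4 ∣ x' - 1 + y' ∧ 4 ∣ y' - x' + 1 →
      ∃ a, sp a = sp ((x : 𝓞 k) + (y : 𝓞 k) * B.ω) ∧ 2 + 2 * B.ω ∣ a - 1 := fun x' y' e f h1 h2 h3 =>
    ⟨_, by rw [h2, sp, Ideal.span_singleton_mul_right_unit (IsUnit.of_mul_eq_one f h1)],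
      (dvd_iff B hB x' y').2 h3⟩
  have : (4 ∣ x - 1 + y ∧ 4 ∣ y - x + 1) ∨ (4 ∣ -x - 1 + -y ∧ 4 ∣ -y - -x + 1) ∨
      (4 ∣ -y - 1 + x ∧ 4 ∣ x - -y + 1) ∨ (4 ∣ y - 1 + -x ∧ 4 ∣ -x - y + 1) := by omega
  rcases this with e | e | e | e
  · exact key x y 1 1 (by ring) (by ring) e
  · exact key _ _ (-1) (-1) (by ring) (by push_cast; ring) e
  · exact key _ _ B.ω (-B.ω) (by linear_combination -hs)
      (by push_cast; linear_combination -(y : 𝓞 k) * hs) e
  · exact key _ _ (-B.ω) B.ω (by linear_combination -hs)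
      (by push_cast; linear_combination (y : 𝓞 k) * hs) e

end PPrim

open PPrim in
theorem x_prim (B : BF k) (hB : B.D = -1) : X_Prim B := by
  refine ⟨int B hB, cj B hB, fun I hI => ?_⟩
  have := pid B hB
  obtain ⟨g, rfl⟩ : ∃ g, I = sp g := (IsPrincipalIdealRing.principal I).principal
  obtain ⟨a, ha, h1⟩ := ex B hB (g := g)
    (by simpa using (Ideal.isCoprime_span_singleton_iff _ _).1 hI)
  refine ⟨a, ⟨ha, h1⟩, fun b ⟨hb, h2⟩ => ?_⟩
  obtain ⟨u, rfl⟩ := Ideal.span_singleton_eq_span_singleton.1 (ha.trans hb.symm)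
  have h3 : 2 + 2 * B.ω ∣ (u : 𝓞 k) - 1 := by
    have := dvd_sub h2 (h1.mul_right (u : 𝓞 k))
    rwa [show a * u - 1 - (a - 1) * u = (u : 𝓞 k) - 1 by ring] at this
  rw [unit_eq B hB u.mul_inv h3, mul_one]

end Pool.Agent.P.MP_b8021b_nt.BS
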