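import Pool.Agent.P.MP_b8021b_nt.BS.BasicJ

/-! Interface statements: reciprocity, descent, arithmetic preparations, local factors. -/

namespace Pool.Agent.P.MP_b8021b_nt.BS

open NumberField IsDedekindDomain Finset Polynomial
open Pool.Agent.P.MP_b8021b_nt.VE Pool.Agent.P.MP_b8021b_nt.VC Pool.Agent.P.MP_b8021b_nt.BS.CF
open scoped Classical ComplexConjugate Real

section Field

variable (K : Type) [Field K] [NumberField K]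

/-! ### reciprocity -/

/-- prescribed local classes, one auxiliary prime -/
def X_PC2 : Prop :=
  ∀ (n : ℕ) (x : Pl K → K) (W : ℝ), 2 ≤ n → 2 ∣ n → (∀ v, x v ≠ 0) → ∃ (x' : K) (q : Pl K),
    x' ≠ 0 ∧ (∀ v, Dv n v → LP 2 v (x' / x v)) ∧ ¬ Dv n q ∧ (Ideal.absNorm q.asIdeal).Prime ∧
    W ≤ NN q.asIdeal ∧ Odd (od q x') ∧ ∀ v, ¬ Dv n v → v ≠ q → Even (od v x')

/-- reciprocity with two places -/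
def X_WR2 : Prop :=
  ∀ (n : ℕ) (a c : K) (v₁ q : Pl K), 2 ≤ n → 2 ∣ n → a ≠ 0 → c ≠ 0 →
    (∀ v, Dv 2 v → LP 2 v a) → (∀ v, ¬ Dv n v → Even (od v a)) → Dv n v₁ → ¬ Dv n q →
    (Ideal.absNorm q.asIdeal).Prime → Odd (od q c) → (∀ v, ¬ Dv n v → v ≠ q → Even (od v c)) →
    (∀ v, Dv n v → v ≠ v₁ → LP 2 v c) → (Ns a c v₁ ↔ ¬ LP 2 q a)

/-- the product formula for the tame symbols -/
def X_Rec0 : Prop :=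
  ∀ a b : K, a ≠ 0 → b ≠ 0 → (∀ v, Dv 2 v → LP 2 v a) →
    {v | Ns a b v}.Finite ∧ Even {v | Ns a b v}.ncard

/-- quadratic reciprocity -/
def X_Rec : Prop :=
  ∀ t β : 𝓞 K, (8 : 𝓞 K) ∣ t - 1 → β ≠ 0 → jac t (sp β) = jac β (sp t)

/-! ### descent -/

/-- valuations of the abscissa at the odd places -/
def X_Val : Prop :=
  ∀ (ζ t x y : K) (v : Pl K), ¬ Dv 2 v → Un ζ → t ≠ 0 → x ≠ 0 → y ^ 2 = x ^ 3 - ζ * t ^ 2 * x →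
    (Even (od v t) → Even (od v x)) ∧ (¬ LP 2 v ζ → Even (od v x)) ∧
      (Odd (od v t) → LP 2 v ζ → Even (od v x) → LP 2 v x)

/-- the local images over two are isotropic -/
def X_Iso : Prop := ∀ ζ a c : K, Loc ζ a → Loc ζ c → ∀ v : Pl K, Dv 2 v → LN 2 v a c

/-- the Selmer group of the good twists is minimal -/
def X_Sel : Prop :=
  ∀ ζ : K, Un ζ → ∃ V : Finset (Pl K), (∀ v ∈ V, ¬ Dv 2 v ∧ LP 2 v ζ) ∧ ∀ t : K, t ≠ 0 →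
    (∀ v, Dv 2 v → LP 2 v t) → (∀ v, ¬ Dv 2 v → (Odd (od v t) ∧ LP 2 v ζ ↔ v ∈ V)) →
    ∀ x y : K, y ^ 2 = x ^ 3 - ζ * t ^ 2 * x → x ≠ 0 → IsSquare x ∨ IsSquare (ζ * x)

/-- finiteness of the group of points -/
def X_Fin : Prop :=
  ∀ b : K, b ≠ 0 → (∀ x y : K, y ^ 2 = x ^ 3 + b * x → x ≠ 0 → IsSquare x ∨ IsSquare (b * x)) →
    Finite (Wb b).toAffine.Point

/-- infinitely many isomorphism classes -/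
def X_Inf : Prop :=
  ∀ P : K → Prop, (∀ W : ℝ, ∃ b, b ≠ 0 ∧ P b ∧ ∃ v : Pl K, W ≤ NN v.asIdeal ∧ ¬ 4 ∣ od v b) →
    ∃ B : Set K, B.Infinite ∧ (∀ b ∈ B, ∀ b' ∈ B, b ≠ b' →
      ∀ C : WeierstrassCurve.VariableChange K, C • Wb b ≠ Wb b') ∧ ∀ b ∈ B, b ≠ 0 ∧ P b

/-- a root of unity that is not a square -/
def X_Zeta : Prop := ∃ (ζ : 𝓞 K) (a : ℕ), 1 ≤ a ∧ ζ ^ 2 ^ a = -1 ∧ Un (ζ : K)

/-- the first good twist -/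
def X_Ts : Prop :=
  ∀ (ζ : K) (V : Finset (Pl K)), Un ζ → (∀ v ∈ V, ¬ Dv 2 v ∧ LP 2 v ζ) → ∃ t : 𝓞 K,
    (8 : 𝓞 K) ∣ t - 1 ∧ ∀ v, ¬ Dv 2 v → (Odd (od v (t : K)) ∧ LP 2 v ζ ↔ v ∈ V)

/-! ### moduli, classes, counting -/

/-- good moduli and representatives of the ideal classes -/
def X_Good : Prop :=
  (∀ m : ℕ, m ≠ 0 → ∃ n, m ∣ n ∧ Good K n) ∧ ∀ n, Good K n → ∃ ℛ : Finset (Ideal (𝓞 K)),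
    (∀ 𝔠 ∈ ℛ, (n : 𝓞 K) ∈ 𝔠) ∧ ∀ I : Ideal (𝓞 K), I ≠ ⊥ → ∃! 𝔠, 𝔠 ∈ ℛ ∧ ∃ γ, I * 𝔠 = sp γ

/-- ray classes: `h` ideals of one class have a product in the trivial class -/
def X_Cls : Prop :=
  ∀ n : ℕ, 2 ≤ n → ∃ (h g : ℕ) (cl : Ideal (𝓞 K) → Fin g), 1 ≤ h ∧
    (∀ I J, Cop n I → Cop n J → (cl I = cl J ↔ Ray n I J)) ∧
    (∀ I, Cop n I → ∃ t : 𝓞 K, (n : 𝓞 K) ∣ t - 1 ∧ sp t = I ^ h) ∧
    ∀ S : Finset (Pl K), S.card = h → (∀ v ∈ S, ¬ Dv n v) →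
      (∀ v ∈ S, ∀ w ∈ S, cl v.asIdeal = cl w.asIdeal) →
      ∃ t : 𝓞 K, (n : 𝓞 K) ∣ t - 1 ∧ sp t = eI S

/-- counting ideals -/
def X_Cnt : Prop :=
  (∃ C : ℝ, 1 ≤ C ∧ ∀ (X : ℝ) (𝒩 : Finset (Ideal (𝓞 K))), 0 ≤ X →
    (∀ I ∈ 𝒩, I ≠ ⊥ ∧ NN I ≤ X) → (𝒩.card : ℝ) ≤ C * X) ∧
  ∀ σ : ℝ, 1 < σ → (Summable fun I : Ideal (𝓞 K) => NN I ^ (-σ)) ∧ ∃ C : ℝ, 1 ≤ C ∧
    ∀ (M : ℝ) (𝒩 : Finset (Ideal (𝓞 K))), 1 ≤ M → (∀ I ∈ 𝒩, M ≤ NN I) →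
      ∑ I ∈ 𝒩, NN I ^ (-σ) ≤ C * M ^ (1 - σ)

/-- many primes at which `ζ` is not a square -/
def X_Den2 : Prop :=
  ∀ (n : ℕ) (ζ : K), n ≠ 0 → Un ζ → ∃ B X₀ : ℝ, 1 ≤ B ∧ ∀ X, X₀ ≤ X → ∃ S : Finset (Pl K),
    (∀ v ∈ S, ¬ Dv n v ∧ ¬ LP 2 v ζ ∧ X < NN v.asIdeal ∧ NN v.asIdeal ≤ X ^ B) ∧
      1 ≤ ∑ v ∈ S, (NN v.asIdeal)⁻¹

/-- a twist that is a non-residue for a given squarefree ideal -/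
def X_FV : Prop :=
  ∀ (n : ℕ) (ζ : K) (𝔫 : Ideal (𝓞 K)), n ≠ 0 → 8 ∣ n → Un ζ → Squarefree 𝔫 → 𝔫 ≠ ⊤ → Cop n 𝔫 →
    ∃ x : ℕ, ∀ W : ℝ, ∃ t, Adm n ζ t ∧ jac t 𝔫 = -1 ∧ (pr t).card ≤ x ∧
      ∀ v ∈ pr t, W ≤ NN v.asIdeal

/-- pairwise coprime choices -/
def X_Ext : Prop :=
  ∀ (J : Type) [Fintype J] (P : J → 𝓞 K → Prop),
    (∀ j, ∃ x : ℕ, ∀ W : ℝ, ∃ t, t ≠ 0 ∧ P j t ∧ (pr t).card ≤ x ∧ ∀ v ∈ pr t, W ≤ NN v.asIdeal) →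
    ∃ x : ℕ, ∀ ε W : ℝ, 0 < ε → ∃ (t : J → 𝓞 K) (𝒵 : Finset (Pl K)), 𝒵.card ≤ x ∧
      (∀ v ∈ 𝒵, W ≤ NN v.asIdeal) ∧ (∀ j, t j ≠ 0 ∧ P j (t j) ∧ pr (t j) ⊆ 𝒵 ∧ dv (t j) ≤ 1 + ε) ∧
      (∀ i j, i ≠ j → IsCoprime (t i) (t j)) ∧ ∏ j, dv (t j) ≤ 1 + ε

/-! ### local factors -/

/-- the residue field of the completion -/
def X_LocR : Prop :=
  ∀ v : Pl K, Nat.card (IsLocalRing.ResidueField (v.adicCompletionIntegers K)) =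
      Ideal.absNorm v.asIdeal ∧
    (Function.Surjective fun a : 𝓞 K => IsLocalRing.residue (v.adicCompletionIntegers K)
      (algebraMap (𝓞 K) (v.adicCompletionIntegers K) a)) ∧
    ∀ a : 𝓞 K, IsLocalRing.residue (v.adicCompletionIntegers K)
      (algebraMap (𝓞 K) (v.adicCompletionIntegers K) a) = 0 ↔ a ∈ v.asIdeal

/-- the local polynomial at a good odd place -/
def X_LocG : Prop :=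
  ∀ (b : 𝓞 K) (v : Pl K), ¬ Dv 2 v → b ∉ v.asIdeal →
    (locP (Wb (b : K)) v).map (Int.castRingHom ℂ) =
      1 + C (chs b v) * X + C (Ideal.absNorm v.asIdeal : ℂ) * X ^ 2

/-- the local polynomial at any place -/
def X_LocB : Prop :=
  ∀ (W : WeierstrassCurve K) (v : Pl K), ∃ α β : ℂ,
    (locP W v).map (Int.castRingHom ℂ) = (1 - C α * X) * (1 - C β * X) ∧ ‖α‖ ≤ NN v.asIdeal ∧
      ‖β‖ ≤ NN v.asIdeal ∧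
      (1 - α / (Ideal.absNorm v.asIdeal : ℂ)) * (1 - β / (Ideal.absNorm v.asIdeal : ℂ)) ≠ 0

/-- from the Hecke series to the series of the curve -/
def X_LF : Prop :=
  ∀ (b : 𝓞 K) (Θ : Ideal (𝓞 K) →* ℂ) (G : ℂ → ℂ) (S : Finset (Pl K)), (∀ I, ‖Θ I‖ ≤ 1) →
    (∀ v ∈ S, Θ v.asIdeal = 0) → (∀ v ∉ S, ¬ Dv 2 v ∧ b ∉ v.asIdeal ∧ ‖Θ v.asIdeal‖ = 1 ∧
      chs b v = (-2 * √(NN v.asIdeal) * (Θ v.asIdeal).re : ℝ)) → Differentiable ℂ G →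
    (∀ s : ℂ, 3 / 2 < s.re → G s = LSeries (lam Θ) (s - 1 / 2)) → G 1 ≠ 0 → AnZero (Wb (b : K))

end Field

/-- Euler products with quadratic factors -/
def X_EP2 : Prop :=
  ∀ (ι : Type) (q : ι → ℕ) (P : ι → ℤ[X]) (α β : ι → ℂ) (s : ℂ), (∀ i, 2 ≤ q i) →
    (∀ m, {i | q i ≤ m}.Finite) →
    (∀ i, (P i).map (Int.castRingHom ℂ) = (1 - C (α i) * X) * (1 - C (β i) * X)) →
    (∀ i, ‖α i‖ < (q i : ℝ) ^ s.re ∧ ‖β i‖ < (q i : ℝ) ^ s.re) →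
    (Summable fun i => (‖α i‖ + ‖β i‖) * (q i : ℝ) ^ (-s.re)) →
    LSeriesSummable (fun n => ((ArithmeticFunction.eulerProduct fun i =>
      ArithmeticFunction.ofPowerSeries (q i) (PowerSeries.invOfUnit (P i : PowerSeries ℤ) 1)) n : ℂ))
      s ∧ HasProd (fun i => ((1 - α i * (q i : ℂ) ^ (-s)) * (1 - β i * (q i : ℂ) ^ (-s)))⁻¹)
      (LSeries (fun n => ((ArithmeticFunction.eulerProduct fun i =>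
      ArithmeticFunction.ofPowerSeries (q i) (PowerSeries.invOfUnit (P i : PowerSeries ℤ) 1)) n : ℂ))
      s)

section Gauss

variable {k : Type} [Field k] [NumberField k] [Algebra k ℂ] (B : BF k)

/-- the Gaussian integers and primary generators -/
def X_Prim : Prop :=
  (∀ a : 𝓞 k, ∃ x y : ℤ, a = x + y * B.ω) ∧ (∀ a : 𝓞 k, B.σ (B.c a) = conj (B.σ a)) ∧
    ∀ I : Ideal (𝓞 k), Cop 2 I → ∃! a : 𝓞 k, sp a = I ∧ 2 + 2 * B.ω ∣ a - 1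

/-- the quartic Jacobi sum -/
def X_Jac4 : Prop :=
  ∀ (F : Type) [Field F] [Fintype F] [DecidableEq F] (ρ : 𝓞 k →+* F), ringChar F ≠ 2 →
    ∃ J : 𝓞 k, 2 + 2 * B.ω ∣ J + 1 ∧ J * B.c J = (Fintype.card F : 𝓞 k) ∧ ρ J = 0 ∧
      (ringChar F % 4 = 1 → ρ (B.c J) ≠ 0) ∧ ∀ (β : F) (u : 𝓞 k), u ^ 4 = 1 →
        ρ u = β ^ ((Fintype.card F - 1) / 4) →
        ∑ x : F, ((quadraticChar F (x ^ 3 - β * x) : ℤ) : 𝓞 k) = B.c u * J + u * B.c J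

end Gauss

section Rel

variable (k : Type) [Field k] [NumberField k] [Algebra k ℂ] (K : Type) [Field K] [NumberField K]
  [Algebra k K]

/-- the Hecke character of the curves -/
def X_Psi : Prop :=
  ∀ (ζ : 𝓞 K) (a : ℕ), 1 ≤ a → ζ ^ 2 ^ a = -1 → ∃ (m : ℕ) (Ψ : Ideal (𝓞 K) →* ℂ), 2 ≤ m ∧ 2 ∣ m ∧
    IsP k m Ψ ∧ ∀ (T : 𝓞 K) (v : Pl K), ¬ Dv m v → T ∉ v.asIdeal →
      chs (-(ζ * T ^ 2)) v = (-2 * √(NN v.asIdeal) * (Ψ v.asIdeal * leg T v).re : ℝ)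

/-- balanced generators -/
def X_Bal2 : Prop :=
  ∀ n : ℕ, 1 ≤ n → ∃ C : ℝ, 1 ≤ C ∧ ∀ γ : 𝓞 K, γ ≠ 0 → ∃ u : (𝓞 K)ˣ,
    (n : 𝓞 K) ∣ (u : 𝓞 K) - 1 ∧ ∀ φ, ‖emb k ((u : 𝓞 K) * γ) φ‖ ^ 2 ≤ C * NN (sp γ) ^ (1 / rk k K) ∧
      NN (sp γ) ^ (1 / rk k K) ≤ C * ‖emb k ((u : 𝓞 K) * γ) φ‖ ^ 2

/-- nonvanishing at one -/
def X_NVH : Prop :=
  ∀ (n : ℕ) (κ : Emb k K → ℤ) (χ : Ideal (𝓞 K) →* ℂ), 2 ≤ n → IsH k n κ 0 χ → κ ≠ 0 →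
    ∃ c : ℝ, 0 < c ∧ ∀ s : ℝ, 1 < s → s ≤ 2 → c ≤ ‖LSeries (lam χ) s‖

/-- twists whose root number is far from real -/
def X_EV : Prop :=
  ∀ (n : ℕ) (ζ : K) (Ψ : Ideal (𝓞 K) →* ℂ), 2 ≤ n → 2 ∣ n → Un ζ → IsP k n Ψ → ∀ m : ℕ, m ≠ 0 →
    n ∣ m → ∃ x : ℕ, ∀ W : ℝ, ∃ t, Adm m ζ t ∧ 1 / 2 ≤ ‖Ψ (sp t) ^ 2 - 1‖ ∧ (pr t).card ≤ x ∧
      ∀ v ∈ pr t, W ≤ NN v.asIdeal

/-- a set of twists at every scale -/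
def X_Fam : Prop :=
  ∀ (n : ℕ) (ζ : K), 2 ≤ n → Un ζ → ∃ (B C : ℝ) (h : ℕ), 1 ≤ B ∧ 1 ≤ C ∧ 1 ≤ h ∧ ∀ η, 0 < η →
    ∃ Y₀ : ℝ, ∀ Y, Y₀ ≤ Y → ∀ 𝒵 : Finset (Pl K),
      ((𝒵.filter fun v => NN v.asIdeal ≤ Y ^ B).card : ℝ) ≤ Y ^ (1 / (4 * h : ℝ)) →
      ∃ (Y' : ℝ) (T : Finset (𝓞 K)), Y ≤ Y' ∧ Y' ≤ Y ^ B ∧ Scale k n ζ h C η 𝒵 T Y'

end Rel

end Pool.Agent.P.MP_b8021b_nt.BS
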