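import Pool.Agent.P.MP_b8021b_nt.BS.RecC
import Pool.Agent.P.MP_b8021b_nt.BS.StR

/-! Quadratic reciprocity. -/

namespace Pool.Agent.P.MP_b8021b_nt.BS

open NumberField IsDedekindDomain Finset WithZero
open Pool.Agent.P.MP_b8021b_nt.VE Pool.Agent.P.MP_b8021b_nt.VC Pool.Agent.P.MP_b8021b_nt.BS.CF
open scoped Classical

variable {K : Type} [Field K] [NumberField K]

namespace RecP

/-- the sign -/
noncomputable def sg (z : ZMod 2) : ℂ := if z = 0 then 1 else -1

theorem sg_add (s t : ZMod 2) : sg (s + t) = sg s * sg t := by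
  have : (1 : ZMod 2) + 1 = 0 := rfl
  rcases (by decide +revert : s = 0 ∨ s = 1) with rfl | rfl <;>
    rcases (by decide +revert : t = 0 ∨ t = 1) with rfl | rfl <;> simp [sg, this]

theorem sg_nat (c : ℕ) : sg c = (-1) ^ c := by
  induction c with
  | zero => simp [sg]
  | succ c ih => rw [Nat.cast_succ, sg_add, ih, pow_succ]; simp [sg]

theorem sg_sum {ι : Type*} (s : Finset ι) (f : ι → ZMod 2) :
    sg (∑ i ∈ s, f i) = ∏ i ∈ s, sg (f i) := by
  induction s using Finset.induction_on with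
  | empty => simp [sg]
  | insert i s h ih => rw [sum_insert h, prod_insert h, sg_add, ih]

theorem leg_sy {v : Pl K} {x y : 𝓞 K} (hx : x ∉ v.asIdeal) (hy : y ≠ 0) :
    leg x v ^ cnt v (sp y) = sg (sy v x y) := by
  by_cases hv : Dv 2 v
  · simp [leg_of_two hv hx, sy, hv, sg]
  have h0 : od v (x : K) = 0 := od_eq_zero_of_vl v ((vl_coe_eq v x).2 hx)
  rw [sy, if_neg hv, h0, od_coe v hy, ee_even (by rw [h0]; simp)]
  by_cases hl : LP 2 v (x : K)
  · simp [(leg_eq_one_iff_LP hv hx).2 hl, hl, sg]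
  · simp [(leg_eq_neg_iff hv hx).2 hl, hl, sg_nat]

theorem lp_eight {t : 𝓞 K} (ht : (8 : 𝓞 K) ∣ t - 1) {v : Pl K} (hv : Dv 2 v) : LP 2 v (t : K) :=
  lp_dvd (n := 2) dvd_rfl (by simpa using ht) hv

theorem ne_eight {t : 𝓞 K} (ht : (8 : 𝓞 K) ∣ t - 1) : t ≠ 0 := by
  obtain ⟨v, hv⟩ := exists_dv K (le_refl 2)
  simpa using (lp_eight ht hv).ne_zero

theorem ns_iff (hR : Z_Res) {a b : K} (ha : a ≠ 0) (hb : b ≠ 0) (v : Pl K) :
    Ns a b v ↔ sy v a b ≠ 0 := by
  by_cases hv : Dv 2 v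
  · simp [Ns, sy, hv]
  simp only [Ns, hv, not_false_eq_true, true_and, even_iff_two_dvd, ← Int.not_even_iff_odd]
  by_cases h1 : 2 ∣ od v a <;> by_cases h2 : 2 ∣ od v b
  · simp [h1, h2, sy_even h1 h2]
  · simp [h1, h2, sy_eo hv h1 h2]
  · simp [h1, h2, sy_comm v a, sy_eo hv h2 h1]
  · have e := sy_mul hR v a ha hb
    rw [sy_self, zero_add, sy_comm, sy_eo hv (by rw [od_mul v ha hb]; omega) h1] at e
    simp [h1, h2, ← e]

end RecP

open RecP

theorem p_pc2 (h : T3) (hK : Om K) : X_PC2 K := by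
  intro n x W hn h2 hx
  have n0 : n ≠ 0 := by omega
  obtain ⟨k, hk⟩ := ex_k (n := 4) (by norm_num) (finite_dv K n0).toFinset
  obtain ⟨z, hz⟩ := approx h.wa (finite_dv K n0).toFinset x hx k
  have h4 : ∀ w : Pl K, vl w ((4 : ℕ) : K) = vl w ((2 : ℕ) : K) ^ 2 := fun w => by
    rw [← map_pow]; norm_num
  have h1 : ∀ w, Dv n w → LP 2 w (z / x w) := fun w hw =>
    LP.of_near ((hz w (by simpa using hw)).trans_lt (h4 w ▸ hk w (by simpa using hw)))
  obtain ⟨v, hv⟩ := exists_dv K hn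
  have z0 := (div_ne_zero_iff.1 (h1 v hv).ne_zero).1
  have hF : {v : Pl K | Ideal.absNorm v.asIdeal ≤ ⌈W⌉₊}.Finite :=
    (Ideal.finite_setOfPred_absNorm_le (S := 𝓞 K) ⌈W⌉₊).preimage
      (f := fun v : Pl K => v.asIdeal) fun _ _ _ _ e => HeightOneSpectrum.ext e
  obtain ⟨x', q, a0, a1, a2, a3, a4, a5, a6⟩ := pc2 h.pc hK hn h2 z0 hF.toFinset
  refine ⟨x', q, a0, fun w hw => by simpa [div_mul_div_cancel₀ z0] using (a1 w hw).mul (h1 w hw),
    a3, a4, (Nat.le_ceil W).trans (Nat.cast_le.2 ?_),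
    Int.not_even_iff_odd.1 (mt even_iff_two_dvd.1 a5),
    fun w b1 b2 => even_iff_two_dvd.2 (a6 w b2 b1)⟩
  exact (not_le.1 (by simpa using a2)).le

theorem p_rec0 (h : T3) (hK : Om K) : X_Rec0 K := by
  intro a b ha hb hl
  have e : {v | Ns a b v} = Function.support fun v : Pl K => sy v a b :=
    Set.ext fun v => ns_iff h.res ha hb v
  have p := RecP.prod h.toT1 h.wr h.chi h.pc hK ha hb hl
  rw [TT, finsum_eq_sum _ (sy_fin a b), sum_congr rfl (g := fun _ => 1) fun v hv => ?_] at p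
  · rw [e, Set.ncard_eq_toFinset_card _ (sy_fin a b)]
    exact ⟨sy_fin a b, by simpa [ZMod.natCast_eq_zero_iff_even] using p⟩
  · have : sy v a b ≠ 0 := by simpa using hv
    revert this
    generalize sy v a b = z
    decide +revert

theorem p_rec (h : T3) (hK : Om K) : X_Rec K := by
  intro t β ht hβ
  have t0 := ne_eight ht
  have s1 : sp β ≠ ⊥ := by simpa using hβ
  have s2 : sp t ≠ ⊥ := by simpa using t0
  by_cases hc : IsCoprime (sp t) (sp β)
  swap
  · rw [not_not.1 (mt (jac_ne_zero_iff s1).1 hc), not_not.1 (mt (jac_ne_zero_iff s2).1 fun e => hc e.symm)]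
  have p := RecP.prod h.toT1 h.wr h.chi h.pc hK (a := (t : K)) (b := (β : K)) (by simpa using t0)
    (by simpa using hβ) fun v hv => lp_eight ht hv
  let S := (finite_mem (mul_ne_zero t0 hβ)).toFinset
  have m : ∀ v : Pl K, v ∈ S ↔ t ∈ v.asIdeal ∨ β ∈ v.asIdeal := fun v => by
    simpa [S] using v.isPrime.mul_mem_iff_mem_or_mem
  have c0 : ∀ {x : 𝓞 K} {v : Pl K}, x ∉ v.asIdeal → cnt v (sp x) = 0 := fun {x v} e =>
    (cnt_eq_zero v).2 (mt (Ideal.span_singleton_le_iff_mem _).1 e)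
  have e : jac t (sp β) * jac β (sp t) = 1 := by
    rw [jac_eq_prod s1 S fun v e => (m v).2 (Or.inr ((Ideal.span_singleton_le_iff_mem _).1 e)),
      jac_eq_prod s2 S fun v e => (m v).2 (Or.inl ((Ideal.span_singleton_le_iff_mem _).1 e)),
      ← prod_mul_distrib, prod_congr rfl (g := fun v => sg (sy v (t : K) β)) fun v _ => ?_, ← sg_sum,
      ← finsum_eq_sum_of_support_subset, show ∑ᶠ v : Pl K, sy v (t : K) β = 0 from p, sg,
      if_pos rfl]
    · intro v hv
      by_contra hn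
      rw [mem_coe, m, not_or] at hn
      refine hv (sy_even ?_ ?_)
      · rw [od_coe v t0, c0 hn.1]; simp
      · rw [od_coe v hβ, c0 hn.2]; simp
    · by_cases h1 : t ∈ v.asIdeal
      · have h2 : β ∉ v.asIdeal := cop_prime_iff'.1 (hc.symm.of_isCoprime_of_dvd_right
          (Ideal.dvd_span_singleton.2 h1))
        rw [c0 h2, pow_zero, one_mul, leg_sy h2 t0, sy_comm]
      · rw [c0 h1, pow_zero, mul_one, leg_sy h1 hβ]
  rcases jac_cases β (sp t) with e1 | e1 | e1 <;> rw [e1] at e ⊢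
  · simp at e
  · simpa using e
  · linear_combination -e

end Pool.Agent.P.MP_b8021b_nt.BS
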