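import Pool.Agent.P.MP_b8021b_nt.BS.BasicD

/-!
Summability, measurability and decay of the theta series.
-/

namespace Pool.Agent.P.MP_b8021b_nt.BS

open NumberField IsDedekindDomain Finset MeasureTheory
open Pool.Agent.P.MP_b8021b_nt.VE Pool.Agent.P.MP_b8021b_nt.VC Pool.Agent.P.MP_b8021b_nt.BS.CF
open scoped Classical ComplexConjugate Real
variable {k : Type} [Field k] [NumberField k] [Algebra k ℂ] {K : Type} [Field K] [NumberField K] [Algebra k K]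

namespace PThB

theorem cnt_ideal : Countable (Ideal (𝓞 K)) := by
  have h : (Set.univ : Set (Ideal (𝓞 K))) = ⋃ n : ℕ, {I | Ideal.absNorm I = n} := by
    ext I; simp
  have h2 : (Set.univ : Set (Ideal (𝓞 K))).Countable := by
    rw [h]
    exact Set.countable_iUnion fun n => (Ideal.finite_setOfPred_absNorm_eq n).countable
  exact Set.countable_univ_iff.1 h2

theorem dec' {f : ℝ → ℝ} (hf : Ker f) {B : ℝ} (hB : 0 < B) :
    ∃ C : ℝ, 0 ≤ C ∧ ∀ x, 0 < x → f x ≤ C * x ^ (-B) := by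
  obtain ⟨C, hC⟩ := hf.dec B hB
  refine ⟨C, ?_, hC⟩
  have h := hC 1 one_pos
  have h' := hf.pos 1 one_pos
  rw [Real.one_rpow, mul_one] at h
  linarith

theorem t1 {f : ℝ → ℝ} (hf : Ker f) {B C τ N : ℝ} (hC0 : 0 ≤ C)
    (hC : ∀ x, 0 < x → f x ≤ C * x ^ (-B)) (hτ : 0 < τ) (hN : 0 ≤ N) :
    0 ≤ √N * f (τ * N) ∧ √N * f (τ * N) ≤ C * τ ^ (-B) * N ^ (-(B - 1 / 2)) := by
  rcases hN.eq_or_lt with h | h
  · subst h
    simp only [Real.sqrt_zero, zero_mul, le_refl, true_and]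
    positivity
  · have hp := mul_pos hτ h
    refine ⟨mul_nonneg (Real.sqrt_nonneg _) (hf.pos _ hp).le, ?_⟩
    have e : C * τ ^ (-B) * N ^ (-(B - 1 / 2)) = √N * (C * (τ * N) ^ (-B)) := by
      rw [Real.mul_rpow hτ.le h.le, Real.sqrt_eq_rpow, show -(B - 1 / 2) = 1 / 2 + -B by ring,
        Real.rpow_add h]
      ring
    rw [e]
    exact mul_le_mul_of_nonneg_left (hC _ hp) (Real.sqrt_nonneg _)

theorem t2 {f : ℝ → ℝ} (hf : Ker f) {C z N : ℝ} (hC0 : 0 ≤ C)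
    (hC : ∀ x, 0 < x → f x ≤ C * x ^ (-(2 : ℝ))) (hz : 0 < z) (hN : 0 ≤ N) :
    0 ≤ N * f (z * N ^ 2) ∧ N * f (z * N ^ 2) ≤ C * z ^ (-(2 : ℝ)) * N ^ (-(3 : ℝ)) := by
  rcases hN.eq_or_lt with h | h
  · subst h
    simp only [zero_mul, le_refl, true_and]
    positivity
  · have hp : 0 < z * N ^ 2 := by positivity
    refine ⟨mul_nonneg h.le (hf.pos _ hp).le, ?_⟩
    have e : C * z ^ (-(2 : ℝ)) * N ^ (-(3 : ℝ)) = N * (C * (z * N ^ 2) ^ (-(2 : ℝ))) := by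
      rw [Real.rpow_neg hz.le, Real.rpow_neg h.le, Real.rpow_neg hp.le, Real.rpow_two,
        Real.rpow_two, show (3 : ℝ) = (3 : ℕ) by norm_num, Real.rpow_natCast]
      field_simp
    rw [e]
    exact mul_le_mul_of_nonneg_left (hC _ hp) h.le

theorem bound (hCnt : X_Cnt K) {f : ℝ → ℝ} (hf : Ker f) {C : Ideal (𝓞 K) → ℂ} {A₀ : ℝ}
    (hA : ∀ I, ‖C I‖ ≤ A₀) {A : ℝ} (h1 : 1 ≤ A) :
    ∃ C' : ℝ, ∀ τ, 0 < τ → ‖Th f C τ‖ ≤ C' * τ ^ (-A) := by
  obtain ⟨D, hD0, hD⟩ := dec' hf (B := A + 1) (by linarith)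
  have hs := (hCnt.2 (A + 1 - 1 / 2) (by linarith)).1
  refine ⟨A₀ * D * ∑' I : Ideal (𝓞 K), NN I ^ (-(A + 1 - 1 / 2)), fun τ hτ => ?_⟩
  have hA0 : 0 ≤ A₀ := (norm_nonneg _).trans (hA ⊥)
  have h := (hs.mul_left (A₀ * D * τ ^ (-A))).hasSum
  have hb := tsum_of_norm_bounded (f := fun I : Ideal (𝓞 K) =>
    C I * (√(NN I) * τ * f (τ * NN I) : ℝ)) h fun I => by
      obtain ⟨a, b⟩ := t1 hf hD0 hD hτ (N := NN I) (Nat.cast_nonneg _)
      have e : τ ^ (-A) = τ * τ ^ (-(A + 1)) := by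
        rw [show -A = 1 + -(A + 1) by ring, Real.rpow_add hτ, Real.rpow_one]
      have e2 : √(NN I) * τ * f (τ * NN I) = τ * (√(NN I) * f (τ * NN I)) := by ring
      rw [norm_mul, Complex.norm_real, e2, Real.norm_of_nonneg (mul_nonneg hτ.le a), e]
      calc ‖C I‖ * (τ * (√(NN I) * f (τ * NN I)))
          ≤ A₀ * (τ * (D * τ ^ (-(A + 1)) * NN I ^ (-(A + 1 - 1 / 2)))) :=
            mul_le_mul (hA I) (mul_le_mul_of_nonneg_left b hτ.le) (mul_nonneg hτ.le a) hA0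
        _ = _ := by ring
  rw [tsum_mul_left] at hb
  calc ‖Th f C τ‖ ≤ _ := hb
    _ = _ := by ring

theorem meas_th {f : ℝ → ℝ} (hf : Ker f) (C : Ideal (𝓞 K) → ℂ) : Measurable (Th f C) := by
  have := cnt_ideal (K := K)
  have hm := hf.meas
  exact Measurable.tsum fun I => measurable_const.mul (Complex.measurable_ofReal.comp (by fun_prop))

theorem meas_bb {f : ℝ → ℝ} (hf : Ker f) (C : Ideal (𝓞 K) → ℂ) (𝔫 : Ideal (𝓞 K)) :
    Measurable (bb f C 𝔫) := by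
  have := cnt_ideal (K := K)
  have hm := hf.meas
  exact Measurable.tsum fun I => measurable_const.mul (Complex.measurable_ofReal.comp (by fun_prop))

end PThB

open PThB in
theorem x_thB (c : Ctx k K) (hCnt : X_Cnt K) : X_ThB K := by
  intro f hf
  obtain ⟨D, hD0, hD⟩ := dec' hf (B := 2) two_pos
  refine ⟨fun τ hτ => ?_, fun z hz => ?_, fun C A₀ hA => ⟨(meas_th hf C).aestronglyMeasurable,
    fun 𝔫 => (meas_bb hf C 𝔫).aestronglyMeasurable, fun A h1 => bound hCnt hf hA h1,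
    fun x hx => ?_⟩⟩
  · exact Summable.of_nonneg_of_le (fun I => (t1 hf hD0 hD hτ (Nat.cast_nonneg _)).1)
      (fun I => (t1 hf hD0 hD hτ (Nat.cast_nonneg _)).2)
      ((hCnt.2 (2 - 1 / 2) (by norm_num)).1.mul_left _)
  · exact Summable.of_nonneg_of_le (fun I => (t2 hf hD0 hD hz (Nat.cast_nonneg _)).1)
      (fun I => (t2 hf hD0 hD hz (Nat.cast_nonneg _)).2)
      ((hCnt.2 3 (by norm_num)).1.mul_left _)
  · obtain ⟨C', hC'⟩ := bound hCnt hf hA (A := 1) le_rfl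
    have hi : IntegrableOn (fun τ : ℝ => C' * τ ^ (-2 : ℝ)) (Set.Ioi x) :=
      (integrableOn_Ioi_rpow_of_lt (by norm_num) hx).const_mul C'
    refine hi.mono' (((meas_th hf C).div Complex.measurable_ofReal).aestronglyMeasurable) ?_
    refine (ae_restrict_iff' measurableSet_Ioi).2 (Filter.Eventually.of_forall fun τ hτ => ?_)
    have h0 : 0 < τ := hx.trans hτ
    rw [norm_div, Complex.norm_real, Real.norm_of_nonneg h0.le, div_le_iff₀ h0]
    calc ‖Th f C τ‖ ≤ C' * τ ^ (-1 : ℝ) := hC' τ h0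
      _ = C' * τ ^ (-2 : ℝ) * τ := by
        rw [show (-1 : ℝ) = -2 + 1 by norm_num, Real.rpow_add h0, Real.rpow_one]
        ring

end Pool.Agent.P.MP_b8021b_nt.BS
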