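import Pool.Agent.P.MP_b8021b_nt.BS.PoiO

/-!
Gauss sums of real primitive characters of the ring of integers.
-/

namespace Pool.Agent.P.MP_b8021b_nt.PoiN

open NumberField Complex
open scoped Classical ComplexConjugate

noncomputable section

variable {E : Type} [Field E] [NumberField E]

lemma av_mul_const (I : Ideal (𝓞 E)) (c : ℂ) (g : 𝓞 E → ℂ) :
    av I (fun x => g x * c) = av I g * c := by
  rw [mul_comm, ← av_const_mul]
  exact av_congr fun x => mul_comm _ _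

lemma av_comm {I I' : Ideal (𝓞 E)} (hI : I ≠ ⊥) (hI' : I' ≠ ⊥) (g : 𝓞 E → 𝓞 E → ℂ) :
    av I (fun x => av I' (g x)) = av I' fun y => av I fun x => g x y := by
  have := finq hI
  have := finq hI'
  have := Fintype.ofFinite (𝓞 E ⧸ I)
  have := Fintype.ofFinite (𝓞 E ⧸ I')
  unfold av
  simp only [finsum_eq_sum_of_fintype, ← Finset.sum_div]
  rw [Finset.sum_comm, div_right_comm]

lemma conj_av {I : Ideal (𝓞 E)} (hI : I ≠ ⊥) (g : 𝓞 E → ℂ) :
    conj (av I g) = av I fun x => conj (g x) := by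
  have := finq hI
  have := Fintype.ofFinite (𝓞 E ⧸ I)
  unfold av
  simp only [finsum_eq_sum_of_fintype, map_div₀, map_sum, conj_natCast]

lemma conj_ee (t : ℝ) : conj (ee t) = ee (-t) := by
  unfold ee
  rw [← exp_conj]
  simp [conj_ofNat]

lemma tr_neg (x : E) : tr (-x) = -tr x := by simp [tr]

/-- the mean of a function supported on one residue class -/
lemma av_ind (I : Ideal (𝓞 E)) (t : 𝓞 E) (c : ℂ) :
    av I (fun x => if x - t ∈ I then c else 0) = c / Ideal.absNorm I := by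
  unfold av
  rw [finsum_eq_single _ (Ideal.Quotient.mk I t)]
  · simp only [if_pos (out_mk I t)]
  intro q hq
  refine if_neg fun h => hq ?_
  rw [← Ideal.Quotient.mk_out q]
  exact Ideal.Quotient.eq.2 h

omit [NumberField E] in
lemma per_ind (I : Ideal (𝓞 E)) (t : 𝓞 E) (c : ℂ) : Per I fun x => if x - t ∈ I then c else 0 := by
  intro x y h
  refine if_congr ⟨fun h1 => ?_, fun h1 => ?_⟩ rfl rfl
  · simpa using I.sub_mem h1 h
  · simpa using I.add_mem h h1

lemma dualI_top {κ : E} : DualI ⊤ κ ↔ Dual κ := by simp [DualI, Dual]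

lemma DualI.mono {I I' : Ideal (𝓞 E)} {κ : E} (h : DualI I κ) (hI : I' ≤ I) : DualI I' κ :=
  fun w hw => h w (hI hw)

lemma DualI.mul_int {I : Ideal (𝓞 E)} {κ : E} (h : DualI I κ) (ν : 𝓞 E) : DualI I (κ * ν) :=
  fun w hw => by simpa only [map_mul, mul_assoc] using h (ν * w) (I.mul_mem_left _ hw)

lemma DualI.mul_mem {I I' : Ideal (𝓞 E)} {κ : E} (h : DualI (I * I') κ) {ν : 𝓞 E} (hν : ν ∈ I) :
    DualI I' (κ * ν) :=
  fun w hw => by simpa only [map_mul, mul_assoc] using h (ν * w) (Ideal.mul_mem_mul hν hw)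

/-- orthogonality for additive characters -/
lemma av_ee {I : Ideal (𝓞 E)} (hI : I ≠ ⊥) {κ : E} (h : DualI I κ) :
    av I (fun x => ee (tr (κ * x))) = if Dual κ then 1 else 0 := by
  split_ifs with h1
  · rw [av_congr h1.ee_eq, av_const hI]
  · simpa using av_eq_zero_of_not_dual (I := ⊤) (h := fun _ => 1) (fun _ _ _ => rfl) le_top h
      (mt dualI_top.1 h1)

/-- the Fourier coefficient of the indicator function of a residue class -/
lemma av_ind_ee {I : Ideal (𝓞 E)} (hI : I ≠ ⊥) {κ : E} (h : DualI I κ) (t : 𝓞 E) :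
    av I (fun x => (if x - t ∈ I then 1 else 0) * ee (tr (κ * x))) =
      ee (tr (κ * t)) / Ideal.absNorm I := by
  rw [← av_ind I t]
  refine av_congr fun x => ?_
  split_ifs with h1
  · rw [one_mul]; exact h.per x t h1
  · rw [zero_mul]

/-- Fourier coefficients factor along coprime moduli -/
lemma av_crt_ee {I I' : Ideal (𝓞 E)} (hI : I ≠ ⊥) (hI' : I' ≠ ⊥) {a a' : 𝓞 E} (ha : a ∈ I)
    (ha' : a' ∈ I') (h1 : a + a' = 1) {g g' : 𝓞 E → ℂ} (h : Per I g) (h' : Per I' g') {κ : E}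
    (hκ : DualI (I * I') κ) : av (I * I') (fun x => g x * g' x * ee (tr (κ * x))) =
      av I (fun x => g x * ee (tr (κ * a' * x))) * av I' fun x => g' x * ee (tr (κ * a * x)) := by
  have hc : IsCoprime I I' := Ideal.isCoprime_iff_exists.2 ⟨a, ha, a', ha', h1⟩
  rw [← av_crt hI hI' hc (h.mul (DualI.mul_mem (mul_comm I I' ▸ hκ) ha').per)
    (h'.mul (hκ.mul_mem ha).per)]
  refine av_congr fun x => ?_
  have h2 : (a : E) + a' = 1 := by exact_mod_cast h1
  rw [mul_mul_mul_comm, ← ee_add, ← tr_add]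
  congr 3
  linear_combination (-κ * x) * h2

/-- a real primitive character modulo `I` -/
structure RP (I : Ideal (𝓞 E)) (χ : 𝓞 E → ℂ) : Prop where
  per : Per I χ
  one : χ 1 = 1
  mul : ∀ x y, χ (x * y) = χ x * χ y
  val : ∀ x, χ x = 0 ∨ χ x = 1 ∨ χ x = -1
  zero : ∀ x, χ x ≠ 0 → ∃ x', x * x' - 1 ∈ I
  prim : ∀ J, I < J → ∃ u, u - 1 ∈ J ∧ χ u = -1

/-- the normalised Gauss sum -/
def gs (I : Ideal (𝓞 E)) (χ : 𝓞 E → ℂ) (κ : E) : ℂ := av I fun x => χ x * ee (tr (κ * x))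

namespace RP

variable {I : Ideal (𝓞 E)} {χ : 𝓞 E → ℂ} (h : RP I χ)
include h

omit [NumberField E] in
lemma conj_eq (x : 𝓞 E) : conj (χ x) = χ x := by
  rcases h.val x with h | h | h <;> simp [h]

omit [NumberField E] in
lemma norm_le (x : 𝓞 E) : ‖χ x‖ ≤ 1 := by
  rcases h.val x with h | h | h <;> simp [h]

omit [NumberField E] in
lemma unit {x x' : 𝓞 E} (hx : x * x' - 1 ∈ I) : χ x * χ x = 1 ∧ χ x' = χ x := by
  have h1 : χ x * χ x' = 1 := by rw [← h.mul, h.per _ _ hx, h.one]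
  have h2 : χ x * χ x = 1 := by
    rcases h.val x with h | h | h <;> simp [h] at h1 ⊢
  exact ⟨h2, by linear_combination χ x * h1 - χ x' * h2⟩

lemma gs_eq_zero {κ : E} (hκ : DualI I κ) {x : 𝓞 E} (hx : x ∉ I) (hd : Dual (κ * x)) :
    gs I χ κ = 0 := by
  obtain ⟨u, hu, h1⟩ := h.prim (I ⊔ Ideal.span {x}) (left_lt_sup.2 fun h1 =>
    hx (h1 (Ideal.mem_span_singleton_self x)))
  obtain ⟨u', hu'⟩ := h.zero u (by simp [h1])
  obtain ⟨i, hi, j, hj, hij⟩ := Submodule.mem_sup.1 hu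
  obtain ⟨w, rfl⟩ := Ideal.mem_span_singleton.1 hj
  refine av_eq_zero (h.per.mul hκ.per) hu' 0 (c := -1) (by norm_num) fun y => ?_
  have h3 : κ * (u * y : 𝓞 E) = κ * y + κ * i * y + κ * x * (w * y : 𝓞 E) := by
    rw [← eq_sub_iff_add_eq.1 hij]
    push_cast
    ring
  rw [add_zero, h.mul, h1, h3, tr_add, tr_add, ee_add, ee_add, hd.ee_eq, (hκ.mul hi).ee_eq]
  ring

lemma gs_mul (hI : I ≠ ⊥) {κ : E} (hκ : DualI I κ) (ν : 𝓞 E) :
    gs I χ (κ * ν) = χ ν * gs I χ κ := by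
  by_cases hu : ∃ ν', ν * ν' - 1 ∈ I
  · obtain ⟨ν', hν⟩ := hu
    rw [gs, gs, ← av_affine (h.per.mul hκ.per) hν 0, ← av_const_mul]
    refine av_congr fun x => ?_
    rw [add_zero, h.mul, ← mul_assoc, ← mul_assoc, (h.unit hν).1, one_mul]
    simp only [map_mul, mul_assoc]
  · have h0 : χ ν = 0 := by_contra fun h0 => hu (h.zero ν h0)
    have := finq hI
    have hn : ¬ Function.Injective fun q : 𝓞 E ⧸ I => Ideal.Quotient.mk I ν * q := fun hn => by
      obtain ⟨q, hq⟩ := Finite.surjective_of_injective hn 1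
      obtain ⟨ν', rfl⟩ := Ideal.Quotient.mk_surjective q
      exact hu ⟨ν', Ideal.Quotient.eq.1 hq⟩
    obtain ⟨q, q', h1, h2⟩ := Function.not_injective_iff.1 hn
    obtain ⟨x, rfl⟩ := Ideal.Quotient.mk_surjective q
    obtain ⟨y, rfl⟩ := Ideal.Quotient.mk_surjective q'
    have h3 : ν * (x - y) ∈ I := mul_sub ν x y ▸ Ideal.Quotient.eq.1 h1
    rw [h0, zero_mul]
    refine h.gs_eq_zero (hκ.mul_int ν) (mt Ideal.Quotient.eq.2 h2) ?_
    simpa only [map_mul, mul_assoc] using hκ.mul h3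

lemma conj_gs (hI : I ≠ ⊥) {κ : E} (hκ : DualI I κ) : conj (gs I χ κ) = χ (-1) * gs I χ κ := by
  rw [← h.gs_mul hI hκ, gs, conj_av hI]
  refine av_congr fun x => ?_
  rw [map_mul, h.conj_eq, conj_ee, ← tr_neg]
  simp

lemma gs_mul_conj (hI : I ≠ ⊥) {κ : E} (hκ : DualI I κ) (hg : ∀ x : 𝓞 E, Dual (κ * x) → x ∈ I) :
    gs I χ κ * conj (gs I χ κ) = 1 / Ideal.absNorm I := by
  rw [h.conj_gs hI hκ, ← av_ind I 1 1, ← h.gs_mul hI hκ, gs, ← av_mul_const]
  have h1 : ∀ x : 𝓞 E, χ x * ee (tr (κ * x)) * gs I χ (κ * (-1 : 𝓞 E)) =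
      av I fun y => χ y * ee (tr (κ * (1 - y : 𝓞 E) * x)) := by
    intro x
    rw [mul_right_comm, ← h.gs_mul hI (hκ.mul_int _), gs, ← av_mul_const]
    refine av_congr fun y => ?_
    rw [mul_assoc, ← ee_add, ← tr_add]
    congr 3
    push_cast
    ring
  rw [av_congr h1, av_comm hI hI]
  refine av_congr fun y => ?_
  rw [av_const_mul, av_ee hI (hκ.mul_int _)]
  by_cases hy : y - 1 ∈ I
  · rw [if_pos hy, if_pos (hκ.mul (by simpa using I.neg_mem hy)), h.per _ _ hy, h.one, one_mul]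
  · rw [if_neg hy, if_neg fun hd => hy (by simpa using I.neg_mem (hg _ hd)), mul_zero]

lemma gs_sq (hI : I ≠ ⊥) {κ : E} (hκ : DualI I κ) (hg : ∀ x : 𝓞 E, Dual (κ * x) → x ∈ I) :
    gs I χ κ ^ 2 = χ (-1) / Ideal.absNorm I := by
  have h1 := h.gs_mul_conj hI hκ hg
  have h2 := (h.unit (x := -1) (x' := -1) (by simp)).1
  rw [h.conj_gs hI hκ] at h1
  linear_combination χ (-1) * h1 - gs I χ κ ^ 2 * h2

lemma norm_gs_le (hI : I ≠ ⊥) {κ : E} (hκ : DualI I κ) :
    ‖gs I χ κ‖ ^ 2 ≤ 1 / Ideal.absNorm I := by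
  by_cases hg : ∀ x : 𝓞 E, Dual (κ * x) → x ∈ I
  · have h1 := h.gs_mul_conj hI hκ hg
    rw [mul_conj, normSq_eq_norm_sq] at h1
    refine le_of_eq (ofReal_injective ?_)
    rw [h1]
    simp
  · push Not at hg
    obtain ⟨x, h1, h2⟩ := hg
    rw [h.gs_eq_zero hκ h2 h1, norm_zero, zero_pow two_ne_zero]
    positivity

omit [NumberField E] in
/-- the product of primitive characters to coprime moduli is primitive -/
lemma prod {I' : Ideal (𝓞 E)} {χ' : 𝓞 E → ℂ} (h' : RP I' χ') (hc : IsCoprime I I') :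
    RP (I * I') fun x => χ x * χ' x := by
  obtain ⟨a, ha, a', ha', h1⟩ := Ideal.isCoprime_iff_exists.1 hc
  refine ⟨(h.per.mono Ideal.mul_le_left).mul (h'.per.mono Ideal.mul_le_right),
    by simp [h.one, h'.one], fun x y => by rw [h.mul, h'.mul]; ring, fun x => ?_, fun x hx => ?_,
    fun J hJ => ?_⟩
  · rcases h.val x with h | h | h <;> rcases h'.val x with h' | h' | h' <;> simp [h, h']
  · obtain ⟨y, hy⟩ := h.zero x (left_ne_zero_of_mul hx)
    obtain ⟨y', hy'⟩ := h'.zero x (right_ne_zero_of_mul hx)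
    exact ⟨y + y' - x * y * y', by
      rw [show x * (y + y' - x * y * y') - 1 = -((x * y - 1) * (x * y' - 1)) by ring]
      exact neg_mem (Ideal.mul_mem_mul hy hy')⟩
  · by_cases hle : J ≤ I
    · have hle' : ¬ J ≤ I' := fun hle' => hJ.not_ge (by
        rw [Ideal.mul_eq_inf_of_isCoprime hc]; exact le_inf hle hle')
      obtain ⟨u, hu, h2⟩ := h'.prim (I' ⊔ J) (left_lt_sup.2 hle')
      obtain ⟨i, hi, j, hj, hij⟩ := Submodule.mem_sup.1 hu
      refine ⟨1 + j * a, by simpa using J.mul_mem_right a hj, ?_⟩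
      rw [h.per (1 + j * a) 1 (by simpa using I.mul_mem_left j ha), h.one, one_mul, ← h2]
      refine h'.per _ _ ?_
      rw [show 1 + j * a - u = -i - j * a' by linear_combination hij + j * h1]
      exact I'.sub_mem (neg_mem hi) (I'.mul_mem_left j ha')
    · obtain ⟨u, hu, h2⟩ := h.prim (I ⊔ J) (left_lt_sup.2 hle)
      obtain ⟨i, hi, j, hj, hij⟩ := Submodule.mem_sup.1 hu
      refine ⟨1 + j * a', by simpa using J.mul_mem_right a' hj, ?_⟩
      rw [h'.per (1 + j * a') 1 (by simpa using I'.mul_mem_left j ha'), h'.one, mul_one, ← h2]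
      refine h.per _ _ ?_
      rw [show 1 + j * a' - u = -i - j * a by linear_combination hij + j * h1]
      exact I.sub_mem (neg_mem hi) (I.mul_mem_left j ha)

omit h in
/-- twisted multiplicativity of Gauss sums to principal moduli -/
lemma gs_prod {t t' : 𝓞 E} {χ χ' : 𝓞 E → ℂ} (h : RP (Ideal.span {t}) χ)
    (h' : RP (Ideal.span {t'}) χ') (ht : t ≠ 0) (ht' : t' ≠ 0) (hc : IsCoprime t t') :
    gs (Ideal.span {t * t'}) (fun x => χ x * χ' x) (1 / (t * t' : 𝓞 E)) =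
      χ t' * χ' t * (gs (Ideal.span {t}) χ (1 / t) * gs (Ideal.span {t'}) χ' (1 / t')) := by
  obtain ⟨a, a', h1⟩ := hc
  have h0 : (t : E) ≠ 0 := by exact_mod_cast ht
  have h0' : (t' : E) ≠ 0 := by exact_mod_cast ht'
  have hd : ∀ {s : 𝓞 E}, s ≠ 0 → DualI (Ideal.span {s}) (1 / (s : E)) := fun hs => by
    simpa using (dual_int (1 : 𝓞 E)).div hs
  have hI : Ideal.span {t} ≠ ⊥ := by simpa using ht
  have hI' : Ideal.span {t'} ≠ ⊥ := by simpa using ht'
  have h2 := hd (mul_ne_zero ht ht')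
  rw [← Ideal.span_singleton_mul_span_singleton] at h2 ⊢
  rw [gs, av_crt_ee hI hI' (Ideal.mem_span_singleton'.2 ⟨a, rfl⟩)
    (Ideal.mem_span_singleton'.2 ⟨a', rfl⟩) h1 h.per h'.per h2,
    show 1 / ((t * t' : 𝓞 E) : E) * (a' * t' : 𝓞 E) = 1 / t * a' by push_cast; field_simp,
    show 1 / ((t * t' : 𝓞 E) : E) * (a * t : 𝓞 E) = 1 / t' * a by push_cast; field_simp,
    ← gs, ← gs, h.gs_mul hI (hd ht), h'.gs_mul hI' (hd ht'),
    (h.unit (x := t') (x' := a') (Ideal.mem_span_singleton'.2 ⟨-a, by linear_combination -h1⟩)).2,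
    (h'.unit (x := t) (x' := a) (Ideal.mem_span_singleton'.2 ⟨-a', by linear_combination -h1⟩)).2]
  ring

end RP

omit [NumberField E] in
lemma rp_top : RP (⊤ : Ideal (𝓞 E)) fun _ => 1 :=
  ⟨fun _ _ _ => rfl, rfl, by simp, by simp, by simp, by simp⟩

omit [NumberField E] in
/-- the quadratic character of an odd residue field -/
lemma rp_prime (P : Ideal (𝓞 E)) [P.IsMaximal] [Fintype (𝓞 E ⧸ P)] (h2 : (2 : 𝓞 E) ∉ P) :
    letI := Ideal.Quotient.field P
    RP P fun x => (quadraticChar (𝓞 E ⧸ P) (Ideal.Quotient.mk P x) : ℤ) := by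
  let _ := Ideal.Quotient.field P
  refine ⟨fun x y h => by simp only [Ideal.Quotient.eq.2 h], by simp,
    fun x y => by simp only [map_mul, Int.cast_mul], fun x => ?_,
    fun x hx => ?_, fun J hJ => ?_⟩
  · rcases quadraticChar_isQuadratic (𝓞 E ⧸ P) (Ideal.Quotient.mk P x) with h | h | h <;> simp [h]
  · have h0 : Ideal.Quotient.mk P x ≠ 0 := fun h0 => hx (by simp [h0])
    obtain ⟨y, hy⟩ := Ideal.Quotient.mk_surjective (Ideal.Quotient.mk P x)⁻¹
    exact ⟨y, Ideal.Quotient.eq.1 (by rw [map_mul, hy, mul_inv_cancel₀ h0, map_one])⟩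
  · have hc : ringChar (𝓞 E ⧸ P) ≠ 2 := fun hc => h2 (Ideal.Quotient.eq_zero_iff_mem.1 (by
      have := ringChar.Nat.cast_ringChar (R := 𝓞 E ⧸ P)
      rw [hc] at this
      exact this))
    obtain ⟨q, hq⟩ := quadraticChar_exists_neg_one hc
    obtain ⟨u, rfl⟩ := Ideal.Quotient.mk_surjective q
    refine ⟨u, ?_, by simp only [hq, Int.cast_neg, Int.cast_one]⟩
    rw [‹P.IsMaximal›.1.2 J hJ]
    trivial

end

end Pool.Agent.P.MP_b8021b_nt.PoiN
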