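import Pool.Agent.P.MP_b8021b_nt.BS.PoiO
import Pool.Agent.P.MP_b8021b_nt.VC.PPart
import Pool.Agent.P.MP_b8021b_nt.VC.BasicN

/-!
Unfolding over the units.
-/

namespace Pool.Agent.P.MP_b8021b_nt.PoiN

open MeasureTheory Filter NumberField Pool.Agent.P.MP_b8021b_nt.VC Pool.Agent.P.MP_b8021b_nt.VE
open scoped Classical ComplexConjugate

noncomputable section

section Abs

variable {ι : Type} [Fintype ι]

lemma hasSum_fold {ρ : (ι → ℝ) → ℝ} (h0 : ∀ u, 0 ≤ ρ u) (hc : Continuous ρ)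
    (h1 : ∀ u, HasSum (fun μ : ι → ℤ => ρ (u + fun i => (μ i : ℝ))) 1) {f : (ι → ℝ) → ℂ}
    (hf : Integrable f) :
    HasSum (fun μ : ι → ℤ => ∫ u, ρ u * f (u + fun i => (μ i : ℝ))) (∫ u, f u) := by
  have hle : ∀ u, ρ u ≤ 1 := fun u => by
    have := le_hasSum (h1 u) 0 fun _ _ => h0 _
    rwa [show (u + fun i => (((0 : ι → ℤ) i : ℤ) : ℝ)) = u from funext fun i => by simp] at this
  have hi : ∀ μ : ι → ℤ, Integrable fun u => (ρ (u + fun i => (μ i : ℝ)) : ℂ) * f u := fun μ =>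
    hf.bdd_mul (c := 1) (Continuous.aestronglyMeasurable (by fun_prop))
      (Eventually.of_forall fun u => by
        rw [Complex.norm_real, Real.norm_of_nonneg (h0 _)]; exact hle _)
  have hn : ∀ (μ : ι → ℤ) u, ‖(ρ (u + fun i => (μ i : ℝ)) : ℂ) * f u‖ =
      ρ (u + fun i => (μ i : ℝ)) * ‖f u‖ := fun μ u => by
    rw [norm_mul, Complex.norm_real, Real.norm_of_nonneg (h0 _)]
  have h2 := hasSum_integral_of_summable_integral_norm hi (summable_of_sum_le
    (c := ∫ u, ‖f u‖) (fun μ => integral_nonneg fun u => norm_nonneg _) fun s => by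
      rw [← integral_finsetSum _ fun μ _ => (hi μ).norm]
      refine integral_mono (integrable_finsetSum _ fun μ _ => (hi μ).norm) hf.norm fun u => ?_
      simp only [hn, ← Finset.sum_mul]
      exact mul_le_of_le_one_left (norm_nonneg _) (sum_le_hasSum s (fun _ _ => h0 _) (h1 u)))
  have h3 : ∀ u, ∑' μ : ι → ℤ, (ρ (u + fun i => (μ i : ℝ)) : ℂ) * f u = f u := fun u => by
    rw [tsum_mul_right, ← Complex.ofReal_tsum, (h1 u).tsum_eq, Complex.ofReal_one, one_mul]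
  simp only [h3] at h2
  rw [← (Equiv.neg (ι → ℤ)).hasSum_iff]
  have h4 : ∀ μ : ι → ℤ, ∫ u, (ρ (u + fun i => (μ i : ℝ)) : ℂ) * f u =
      ∫ u, ρ u * f (u + fun i => ((-μ) i : ℝ)) := fun μ => by
    rw [← integral_add_right_eq_self (fun u => (ρ u : ℂ) * f (u + fun i => ((-μ) i : ℝ)))
      fun i => (μ i : ℝ)]
    congr 1
    funext u
    congr 2
    funext i
    simp
  simpa only [h4, Function.comp_def, Equiv.neg_apply] using h2

/-- abstract unfolding -/
lemma unfold_abs {X : Type} [Countable X] (act : (ι → ℤ) → X → X)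
    (hact : ∀ μ x, act (-μ) (act μ x) = x) {b : X → ℝ} (hb0 : ∀ x, 0 ≤ b x)
    {ρ : (ι → ℝ) → ℝ} (h0 : ∀ u, 0 ≤ ρ u) (hc : Continuous ρ)
    (h1 : ∀ u, HasSum (fun μ : ι → ℤ => ρ (u + fun i => (μ i : ℝ))) 1)
    {Φ : X → (ι → ℝ) → ℂ} (hb : ∀ x, Φ x ≠ 0 → HasSum (fun μ => b (act μ x)) 1)
    (hΦ : ∀ μ x u, Φ (act μ x) u = Φ x (u + fun i => (μ i : ℝ))) (hi : ∀ x, Integrable (Φ x))
    (hs : Summable fun x => ∫ u, ‖(ρ u : ℂ) * Φ x u‖) :
    HasSum (fun x => b x * ∫ u, Φ x u) (∫ u, ρ u * ∑' x, Φ x u) := by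
  have hle : ∀ u, ρ u ≤ 1 := fun u => by
    have := le_hasSum (h1 u) 0 fun _ _ => h0 _
    rwa [show (u + fun i => (((0 : ι → ℤ) i : ℤ) : ℝ)) = u from funext fun i => by simp] at this
  have hi' : ∀ x, Integrable fun u => (ρ u : ℂ) * Φ x u := fun x =>
    (hi x).bdd_mul (c := 1) (Continuous.aestronglyMeasurable (by fun_prop))
      (Eventually.of_forall fun u => by
        rw [Complex.norm_real, Real.norm_of_nonneg (h0 _)]; exact hle _)
  have h2 := hasSum_integral_of_summable_integral_norm hi' hs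
  simp only [tsum_mul_left] at h2
  set A : X → ℂ := fun x => ∫ u, (ρ u : ℂ) * Φ x u with hA
  have hA0 : ∀ x, Φ x = 0 → A x = 0 := fun x hx => by simp [hA, hx]
  have h3 : ∀ x, HasSum (fun μ => b (act μ x) * ‖A x‖) ‖A x‖ := fun x => by
    by_cases hx : Φ x = 0
    · simp [hA0 x hx]
    · simpa using (hb x hx).mul_right ‖A x‖
  have h4 : ∀ x, HasSum (fun μ => b (act μ x) * A x) (A x) := fun x => by
    by_cases hx : Φ x = 0
    · simp [hA0 x hx]
    · simpa using (Complex.hasSum_ofReal.2 (hb x hx)).mul_right (A x)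
  have h5 : Summable fun p : X × (ι → ℤ) => b (act p.2 p.1) * A p.1 := by
    refine Summable.of_norm ?_
    simp only [norm_mul, Complex.norm_real, Real.norm_of_nonneg (hb0 _)]
    refine (summable_prod_of_nonneg fun p => mul_nonneg (hb0 _) (norm_nonneg _)).2
      ⟨fun x => (h3 x).summable, ?_⟩
    simpa only [fun x => (h3 x).tsum_eq] using h2.summable.norm
  have h6 : HasSum (fun p : X × (ι → ℤ) => b (act p.2 p.1) * A p.1) (∫ u, ρ u * ∑' x, Φ x u) :=
    (h5.hasSum.prod_fiberwise h4).unique h2 ▸ h5.hasSum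
  have inv : Function.Involutive fun p : X × (ι → ℤ) => (act p.2 p.1, -p.2) := fun p => by
    simp only [hact, neg_neg]
  have h7 := (inv.toPerm _).hasSum_iff.2 h6
  refine h7.prod_fiberwise fun x => ?_
  simpa only [Function.comp_def, Function.Involutive.coe_toPerm, hact, hA, hΦ] using
    (hasSum_fold h0 hc h1 (hi x)).mul_left (b x : ℂ)

lemma Gau_eq (a : ℕ) (y : ι → ℝ) (z : ι → ℂ) : Gau a y z = (∏ φ, z φ) ^ a * Gau 0 y z := by
  simp only [Gau, gau, pow_zero, one_mul, Finset.prod_mul_distrib, Finset.prod_pow]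

lemma Gau_zero (y : ι → ℝ) (z : ι → ℂ) :
    Gau 0 y z = (Real.exp (-(2 * Real.pi * ∑ φ, y φ * ‖z φ‖ ^ 2)) : ℝ) := by
  simp only [Gau, gau, pow_zero, one_mul, ← Complex.ofReal_prod, ← Real.exp_sum, Finset.mul_sum,
    Finset.sum_neg_distrib, mul_assoc]

lemma Gauh_eq (a : ℕ) (y : ι → ℝ) (κ : ι → ℂ) : Gauh a y κ =
    (∏ φ, (-Complex.I / y φ) ^ a * (1 / (2 * y φ))) * (conj (∏ φ, κ φ) ^ a *
      Gau 0 (fun φ => (y φ)⁻¹) κ) := by
  rw [Gauh, Gau, map_prod, ← Finset.prod_pow, ← Finset.prod_mul_distrib, ← Finset.prod_mul_distrib]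
  refine Finset.prod_congr rfl fun φ _ => ?_
  rw [gauh, gau, show -Complex.I * conj (κ φ) / y φ = -Complex.I / y φ * conj (κ φ) by ring,
    mul_pow, show 2 * Real.pi * ‖κ φ‖ ^ 2 / y φ = 2 * Real.pi * (y φ)⁻¹ * ‖κ φ‖ ^ 2 by ring]
  ring

lemma norm_Gau_le {y y' : ι → ℝ} (h : ∀ φ, y φ ≤ y' φ) (z : ι → ℂ) :
    ‖Gau 0 y' z‖ ≤ ‖Gau 0 y z‖ := by
  rw [Gau_zero, Gau_zero, Complex.norm_real, Complex.norm_real,
    Real.norm_of_nonneg (Real.exp_pos _).le, Real.norm_of_nonneg (Real.exp_pos _).le,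
    Real.exp_le_exp, neg_le_neg_iff]
  exact mul_le_mul_of_nonneg_left (Finset.sum_le_sum fun φ _ =>
    mul_le_mul_of_nonneg_right (h φ) (sq_nonneg _)) (by positivity)

end Abs

/-- the tent function in several variables -/
def ww {m : ℕ} (u : Fin m → ℝ) : ℝ := ∏ j, tent (u j)

lemma ww_nonneg {m : ℕ} (u : Fin m → ℝ) : 0 ≤ ww u :=
  Finset.prod_nonneg fun _ _ => PartU.tent_nonneg _

lemma continuous_ww {m : ℕ} : Continuous (ww : (Fin m → ℝ) → ℝ) := by
  unfold ww tent; fun_prop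

lemma ww_neg {m : ℕ} (u : Fin m → ℝ) : ww (-u) = ww u := by simp [ww, tent]

lemma hasSum_ww {m : ℕ} (u : Fin m → ℝ) :
    HasSum (fun μ : Fin m → ℤ => ww (u + fun i => (μ i : ℝ))) 1 := by
  obtain ⟨h1, h2⟩ := PartU.tent_pi u
  rw [← h2, ← tsum_eq_finsum (L := .unconditional _) h1]
  exact (summable_of_hasFiniteSupport h1).hasSum

lemma norm_le_of_ww {m : ℕ} {u : Fin m → ℝ} (h : ww u ≠ 0) : ‖u‖ ≤ 1 :=
  (pi_norm_le_iff_of_nonneg zero_le_one).2 fun j =>
    (PartU.tent_ne (Finset.prod_ne_zero_iff.1 h j (Finset.mem_univ j))).le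

lemma integrable_ww {m : ℕ} : Integrable (ww : (Fin m → ℝ) → ℝ) :=
  continuous_ww.integrable_of_hasCompactSupport (HasCompactSupport.intro
    (isCompact_closedBall 0 1) fun u hu => by_contra fun h => hu (by simpa using norm_le_of_ww h))

variable {k : Type} [Field k] [NumberField k] [Algebra k ℂ] {E : Type} [Field E] [NumberField E]
  [Algebra k E] {n : ℕ} {ℓ : ℝ} (U : UB k E n ℓ)

/-- the weights of the Gaussian -/
def yy (τ : ℝ) (u : Fin U.m → ℝ) : Emb k E → ℝ :=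
  fun φ => τ ^ (1 / (U.m + 1) : ℝ) * Real.exp (2 * U.lv u φ)

/-- the integrand of the kernel -/
def GG (x : ℝ) (u : Fin U.m → ℝ) : ℝ := Real.exp (-(2 * Real.pi * ∑ φ, yy U x u φ))

/-- the kernel -/
def kk (x : ℝ) : ℝ := ∫ u, GG U x u

lemma card_eq : Fintype.card (Emb k E) = U.m + 1 := Geo.card_emb.trans U.hm.symm

lemma yy_pos {τ : ℝ} (hτ : 0 < τ) (u : Fin U.m → ℝ) (φ : Emb k E) : 0 < yy U τ u φ := by
  unfold yy; positivity

lemma yy_mul {s t : ℝ} (hs : 0 ≤ s) (ht : 0 ≤ t) (u v : Fin U.m → ℝ) (φ : Emb k E) :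
    yy U (s * t) (u + v) φ = yy U s u φ * yy U t v φ := by
  rw [yy, yy, yy, Real.mul_rpow hs ht, U.lv_add, Pi.add_apply, mul_add, Real.exp_add]
  ring

lemma yy_inv {s : ℝ} (hs : 0 < s) (u : Fin U.m → ℝ) (φ : Emb k E) :
    yy U s⁻¹ (-u) φ = (yy U s u φ)⁻¹ := by
  refine eq_inv_of_mul_eq_one_left ?_
  rw [← yy_mul U (inv_pos.2 hs).le hs.le, inv_mul_cancel₀ hs.ne', neg_add_cancel]
  simp [yy, UB.lv]

lemma continuous_yy (τ : ℝ) (φ : Emb k E) : Continuous fun u => yy U τ u φ := by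
  simp only [yy, UB.lv, Finset.sum_apply, Pi.smul_apply]
  fun_prop

lemma norm_sq_eq {z : Emb k E → ℂ} (hz : ∀ φ, z φ ≠ 0) (φ : Emb k E) :
    ‖z φ‖ ^ 2 = yy U (nz z) (U.co (lg z)) φ := by
  have hm : (0 : ℝ) < U.m + 1 := by positivity
  set c : ℝ := (∑ ψ, lg z ψ) / (U.m + 1) with hc
  have h0 : ∑ ψ, (lg z - fun _ => c : Emb k E → ℝ) ψ = 0 := by
    simp only [Pi.sub_apply, Finset.sum_sub_distrib, Finset.sum_const, Finset.card_univ,
      card_eq U, nsmul_eq_mul, hc]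
    push_cast
    field_simp
    ring
  have h1 := congrFun (U.lv_co h0) φ
  rw [map_sub, U.co_const, sub_zero] at h1
  rw [yy, h1, Real.rpow_def_of_pos (nz_pos hz), log_nz hz, ← Real.exp_add,
    ← Real.exp_log (pow_pos (norm_pos_iff.2 (hz φ)) 2), Real.log_pow]
  congr 1
  simp only [Pi.sub_apply, hc, lg]
  push_cast
  field_simp
  ring

lemma sum_lv (K : BF k) (u : Fin U.m → ℝ) : ∑ φ, U.lv u φ = 0 := by
  simp only [UB.lv, Finset.sum_apply, Pi.smul_apply, smul_eq_mul]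
  rw [Finset.sum_comm]
  refine Finset.sum_eq_zero fun j _ => ?_
  have h := log_nz (PartU.emb_ne (k := k) (U.ε j).ne_zero)
  rw [Geo.nz_emb K, Ideal.span_singleton_eq_top.2 (U.ε j).isUnit, Ideal.absNorm_top, Nat.cast_one,
    Real.log_one] at h
  rw [← Finset.mul_sum, show ∑ φ, lg (emb k (U.ε j : 𝓞 E)) φ = 0 by linarith, mul_zero]

lemma prod_yy (K : BF k) {τ : ℝ} (hτ : 0 < τ) (u : Fin U.m → ℝ) : ∏ φ, yy U τ u φ = τ := by
  simp only [yy, Finset.prod_mul_distrib, Finset.prod_const, Finset.card_univ, card_eq U,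
    ← Real.exp_sum, ← Finset.mul_sum, sum_lv U K]
  rw [← Real.rpow_natCast, ← Real.rpow_mul hτ.le]
  push_cast
  rw [one_div_mul_cancel (by positivity)]
  simp

lemma norm_le_sum (K : BF k) (u : Fin U.m → ℝ) : ‖u‖ ≤ ∑ φ, Real.exp (2 * U.lv u φ) := by
  have h0 : ∀ φ, 0 ≤ Real.exp (2 * U.lv u φ) := fun φ => (Real.exp_pos _).le
  have h1 : ∀ φ, U.lv u φ ≤ Real.exp (2 * U.lv u φ) := fun φ => by
    nlinarith [Real.add_one_le_exp (2 * U.lv u φ), h0 φ]
  have h2 : ‖U.lv u‖ ≤ ∑ φ, Real.exp (2 * U.lv u φ) := by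
    refine (pi_norm_le_iff_of_nonneg (Finset.sum_nonneg fun φ _ => h0 φ)).2 fun φ => abs_le.2
      ⟨?_, (h1 φ).trans (Finset.single_le_sum (fun φ _ => h0 φ) (Finset.mem_univ φ))⟩
    have h3 := Finset.single_le_sum (f := fun φ => Real.exp (2 * U.lv u φ) - U.lv u φ)
      (fun φ _ => sub_nonneg.2 (h1 φ)) (Finset.mem_univ φ)
    rw [Finset.sum_sub_distrib, sum_lv U K] at h3
    linarith [h0 φ]
  linarith [U.norm_le_lv u, norm_nonneg (U.lv u)]

lemma GG_le (K : BF k) {x : ℝ} (hx : 0 ≤ x) (u : Fin U.m → ℝ) : GG U x u ≤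
    Real.exp (-(2 * Real.pi * x ^ (1 / (U.m + 1) : ℝ) / (U.m + 1)) * ∑ j, |u j|) := by
  have h2 : ∑ j, |u j| ≤ (U.m + 1) * ‖u‖ := by
    have := Finset.sum_le_card_nsmul Finset.univ (fun j => |u j|) ‖u‖
      fun j _ => norm_le_pi_norm u j
    simp only [Finset.card_univ, Fintype.card_fin, nsmul_eq_mul] at this
    nlinarith [norm_nonneg u]
  have hm : (0 : ℝ) < U.m + 1 := by positivity
  simp only [GG, yy, ← Finset.mul_sum]
  rw [Real.exp_le_exp, neg_mul, neg_le_neg_iff, div_mul_eq_mul_div, mul_div_assoc, ← mul_assoc]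
  exact mul_le_mul_of_nonneg_left (((div_le_iff₀' hm).2 h2).trans (norm_le_sum U K u))
    (by positivity)

lemma continuous_GG (x : ℝ) : Continuous (GG U x) := by
  have := continuous_yy U x
  unfold GG
  fun_prop

lemma integrable_GG (K : BF k) {x : ℝ} (hx : 0 < x) : Integrable (GG U x) :=
  (integrable_exp_pi (c := 2 * Real.pi * x ^ (1 / (U.m + 1) : ℝ) / (U.m + 1))
    (by positivity)).mono' (continuous_GG U x).aestronglyMeasurable
    (Eventually.of_forall fun u =>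
      (Real.norm_of_nonneg (Real.exp_pos _).le).trans_le (GG_le U K hx.le u))

lemma Gau_yy {τ : ℝ} (hτ : 0 ≤ τ) {z : Emb k E → ℂ} (hz : ∀ φ, z φ ≠ 0) (u : Fin U.m → ℝ) :
    Gau 0 (yy U τ u) z = GG U (τ * nz z) (u + U.co (lg z)) := by
  simp only [Gau_zero, GG, norm_sq_eq U hz, yy_mul U hτ (nz_nonneg z)]

omit [NumberField k] [NumberField E] in
lemma inv_units {H : 𝓞 E → ℂ} {m : ℕ} {ε : Fin m → (𝓞 E)ˣ} (hH : ∀ j x, H (ε j * x) = H x)
    (μ : Fin m → ℤ) (x : 𝓞 E) : H ((∏ j, ε j ^ μ j : (𝓞 E)ˣ) * x) = H x := by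
  let S : Subgroup (𝓞 E)ˣ :=
    { carrier := {η | ∀ x, H (η * x) = H x}
      one_mem' := fun x => by simp
      mul_mem' := fun {a b} ha hb x => by rw [Units.val_mul, mul_assoc, ha, hb]
      inv_mem' := fun {a} ha x => by rw [← ha, Units.mul_inv_cancel_left] }
  exact (S.prod_mem fun j _ => S.zpow_mem (hH j) _ : (∏ j, ε j ^ μ j) ∈ S) x

/-- unfolding over the units -/
theorem unfold (K : BF k) {H : 𝓞 E → ℂ} (hH0 : H 0 = 0) (hH : ∀ j x, H (U.ε j * x) = H x)
    (hs : ∀ δ : ℝ, 0 < δ → Summable fun x => H x * Gau 0 (fun _ => δ) (emb k x)) {τ : ℝ}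
    (hτ : 0 < τ) (c : Fin U.m → ℝ) :
    HasSum (fun x => U.β (emb k x) * (H x * kk U (τ * nz (emb k x))))
      (∫ u, ww (u + c) * ∑' x, H x * Gau 0 (yy U τ u) (emb k x)) := by
  have := Countable.of_equiv _ (RingOfIntegers.basis E).equivFun.symm.toEquiv
  have hne : ∀ (μ : Fin U.m → ℤ) {x : 𝓞 E}, x ≠ 0 →
      ((∏ j, U.ε j ^ μ j : (𝓞 E)ˣ) : 𝓞 E) * x ≠ 0 := fun μ x hx => mul_ne_zero (Units.ne_zero _) hx
  have hco : ∀ (μ : Fin U.m → ℤ) {x : 𝓞 E}, x ≠ 0 →
      U.co (lg (emb k (((∏ j, U.ε j ^ μ j : (𝓞 E)ˣ) : 𝓞 E) * x))) =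
      U.co (lg (emb k x)) + fun j => (μ j : ℝ) := fun μ x hx => by
    rw [Geo.emb_mul, PartU.co_eq U _ _ (PartU.emb_ne hx)]
  have key := unfold_abs (fun (μ : Fin U.m → ℤ) (x : 𝓞 E) => (∏ j, U.ε j ^ μ j : (𝓞 E)ˣ) * x)
    (fun μ x => by
      simp only [Pi.neg_apply, zpow_neg, Finset.prod_inv_distrib, Units.inv_mul_cancel_left])
    (b := fun x => U.β (emb k x)) (fun x => U.β_nonneg _) (ρ := fun u => ww (u + c))
    (fun u => ww_nonneg _) (continuous_ww.comp (by fun_prop))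
    (fun u => by simpa only [add_right_comm u _ c] using hasSum_ww (u + c))
    (Φ := fun x u => H x * Gau 0 (yy U τ u) (emb k x))
    (fun x hx => by
      have h0 : x ≠ 0 := fun h0 => hx (funext fun u => by simp [h0, hH0])
      simpa only [UB.β, ww, hco _ h0] using hasSum_ww (U.co (lg (emb k x))))
    (fun μ x u => by
      by_cases h0 : x = 0
      · simp [h0, hH0]
      · rw [inv_units hH, Gau_yy U hτ.le (PartU.emb_ne (hne μ h0)),
          Gau_yy U hτ.le (PartU.emb_ne h0), hco μ h0, Geo.nz_emb K, Geo.nz_emb K,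
          Ideal.span_singleton_mul_left_unit (Units.isUnit _), add_assoc, add_comm (U.co _)])
    (fun x => by
      by_cases h0 : x = 0
      · simp [h0, hH0]
      · simp only [Gau_yy U hτ.le (PartU.emb_ne h0)]
        exact ((integrable_GG U K (mul_pos hτ (nz_pos (PartU.emb_ne h0)))).comp_add_right
          _).ofReal.const_mul _)
    (by
      set δ : ℝ := τ ^ (1 / (U.m + 1) : ℝ) * Real.exp (2 * -(U.m * ℓ * (1 + ‖c‖))) with hδ
      refine Summable.of_nonneg_of_le (fun x => integral_nonneg fun u => norm_nonneg _)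
        (fun x => ?_) ((hs δ (by positivity)).norm.mul_left (∫ u, ww (u + c)))
      rw [← integral_mul_const]
      refine integral_mono_of_nonneg (Eventually.of_forall fun u => norm_nonneg _)
        ((integrable_ww.comp_add_right c).mul_const _) (Eventually.of_forall fun u => ?_)
      simp only [norm_mul, Complex.norm_real, Real.norm_of_nonneg (ww_nonneg _)]
      by_cases hu : ww (u + c) = 0
      · simp [hu]
      refine mul_le_mul_of_nonneg_left (mul_le_mul_of_nonneg_left (norm_Gau_le (fun φ => ?_) _)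
        (norm_nonneg _)) (ww_nonneg _)
      have h1 : ‖u‖ ≤ 1 + ‖c‖ := by
        have := norm_sub_le (u + c) c
        rw [add_sub_cancel_right] at this
        linarith [norm_le_of_ww hu]
      have h2 := (abs_le.1 ((norm_le_pi_norm (U.lv u) φ).trans ((U.norm_lv_le u).trans
        (mul_le_mul_of_nonneg_left h1 (mul_nonneg (Nat.cast_nonneg _)
          (zero_le_one.trans U.one_le)))))).1
      exact mul_le_mul_of_nonneg_left (Real.exp_le_exp.2 (by linarith)) (by positivity))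
  have h1 : ∀ x, ∫ u, H x * Gau 0 (yy U τ u) (emb k x) = H x * kk U (τ * nz (emb k x)) := by
    intro x
    by_cases h0 : x = 0
    · simp [h0, hH0]
    · simp only [Gau_yy U hτ.le (PartU.emb_ne h0)]
      rw [integral_const_mul, integral_complex_ofReal, integral_add_right_eq_self (GG U _), kk]
  simpa only [h1] using key

/-- the theta series over the integers modulo units -/
def thE (H : 𝓞 E → ℂ) (τ : ℝ) : ℂ :=
  ∑' x : 𝓞 E, U.β (emb k x) * (H x * (τ * kk U (τ * nz (emb k x)) : ℝ))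

variable (k) in
/-- the relative norm as a complex number -/
def PP (x : 𝓞 E) : ℂ := ∏ φ, emb k x φ

/-- the finite Fourier transform -/
def hat (N : 𝓞 E) (h : 𝓞 E → ℂ) (ν : 𝓞 E) : ℂ :=
  av (Ideal.span {N}) fun x => h x * ee (tr ((ν : E) / N * x))

lemma PP_mul (x y : 𝓞 E) : PP k (x * y) = PP k x * PP k y := by
  simp only [PP, Geo.emb_mul, Pi.mul_apply, Finset.prod_mul_distrib]

lemma PP_zero : PP k (0 : 𝓞 E) = 0 := by
  have : Nonempty (Emb k E) := Fintype.card_pos_iff.1 (Geo.card_emb (k := k) (E := E) ▸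
    Module.finrank_pos)
  exact Finset.prod_eq_zero (Finset.mem_univ this.some) (by simp [emb])

lemma PP_mul_conj (x : 𝓞 E) : PP k x * conj (PP k x) = nz (emb k x) := by
  rw [Complex.mul_conj, Complex.normSq_eq_norm_sq, PP, norm_prod, nz, Finset.prod_pow]

lemma summable_Gau (K : BF k) (a : ℕ) {y : Emb k E → ℝ} (hy : ∀ φ, 0 < y φ) {h : 𝓞 E → ℂ} {B : ℝ}
    (hB : ∀ x, ‖h x‖ ≤ B) : Summable fun x => h x * Gau a y (emb k x) := by
  obtain ⟨L, D, hL, -, -⟩ := poissonV (fun i => embE k (integralBasis E i))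
    (fun i => embE k ((integralBasis E).traceDual i)) (by
      rw [← Module.finrank_eq_card_basis (integralBasis E), Geo.card_emb, ← K.deg,
        Module.finrank_mul_finrank]) (fun i j => by
      rw [BB_embE K, tr, Module.Basis.trace_mul_traceDual]
      split_ifs <;> simp)
  let e := (RingOfIntegers.basis E).equivFun.symm.toEquiv
  have he : ∀ z, emb k (e z : 𝓞 E) = L (fun i => z i) + 0 := by
    intro z
    funext φ
    simp [e, hL, embE, emb, integralBasis_apply]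
  have h1 : Summable fun x : 𝓞 E => Gau a y (emb k x) := e.summable_iff.1 (by
    simpa only [Function.comp_def, he] using (dec_Gau a hy).summable L 0)
  refine Summable.of_norm_bounded (h1.norm.mul_left B) fun x => ?_
  rw [norm_mul]
  exact mul_le_mul_of_nonneg_right (hB x) (norm_nonneg _)

lemma Per.bdd {I : Ideal (𝓞 E)} (hI : I ≠ ⊥) {h : 𝓞 E → ℂ} (hh : Per I h) :
    ∃ B, ∀ x, ‖h x‖ ≤ B := by
  have := finq hI
  have := Fintype.ofFinite (𝓞 E ⧸ I)
  refine ⟨∑ q : 𝓞 E ⧸ I, ‖h q.out‖, fun x => ?_⟩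
  rw [← hh _ _ (out_mk _ x)]
  exact Finset.single_le_sum (f := fun q : 𝓞 E ⧸ I => ‖h q.out‖) (fun _ _ => norm_nonneg _)
    (Finset.mem_univ _)

lemma per_hat {N : 𝓞 E} (hN : N ≠ 0) (h : 𝓞 E → ℂ) : Per (Ideal.span {N}) (hat N h) := by
  intro x y hxy
  refine av_congr fun w => ?_
  have := (dual_int w).per hN x y hxy
  simp only at this
  rw [show (x : E) / N * w = w * x / N by ring, show (y : E) / N * w = w * y / N by ring, this]

lemma hat_unit {N : 𝓞 E} (hN : N ≠ 0) {h : 𝓞 E → ℂ} (hh : Per (Ideal.span {N}) h) (ε : (𝓞 E)ˣ)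
    {p : ℂ} (hp : ∀ x, h (ε * x) * p = h x) (ν : 𝓞 E) : hat N h (ε * ν) = p * hat N h ν := by
  rw [hat, hat, ← av_affine (hh.mul ((dual_int ν).div hN).per) (u := ε) (u' := (ε⁻¹ : (𝓞 E)ˣ))
    (by simp) 0, ← av_const_mul]
  refine av_congr fun x => ?_
  rw [add_zero, ← mul_assoc p, mul_comm p, hp]
  congr 3
  push_cast
  ring

lemma hasSum_thE (K : BF k) {H : 𝓞 E → ℂ} (hH0 : H 0 = 0) (hH : ∀ j x, H (U.ε j * x) = H x)
    (hs : ∀ δ : ℝ, 0 < δ → Summable fun x => H x * Gau 0 (fun _ => δ) (emb k x)) {τ : ℝ}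
    (hτ : 0 < τ) (c : Fin U.m → ℝ) :
    HasSum (fun x => U.β (emb k x) * (H x * (τ * kk U (τ * nz (emb k x)) : ℝ)))
      (τ * ∫ u, ww (u + c) * ∑' x, H x * Gau 0 (yy U τ u) (emb k x)) := by
  simpa only [Complex.ofReal_mul, mul_left_comm (τ : ℂ)] using
    (unfold U K hH0 hH hs hτ c).mul_left (τ : ℂ)

/-- the functional equation of the theta series -/
theorem thE_fe (K : BF k) (E : Type) [Field E] [NumberField E] [Algebra k E] :
    ∃ c : ℂ, c ≠ 0 ∧ ∀ (n : ℕ) (ℓ : ℝ) (U : UB k E n ℓ) (I : Ideal (𝓞 E)) (N : 𝓞 E)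
      (h : 𝓞 E → ℂ), N ≠ 0 → N ∈ I → (∀ κ : E, DualI I κ → ∃ ν : 𝓞 E, (ν : E) = κ * N) →
      Per I h → (∀ j x, h (U.ε j * x) * PP k (U.ε j : 𝓞 E) = h x) → ∀ τ : ℝ, 0 < τ →
      thE U (fun x => h x * PP k x) τ = c * PP k N *
        thE U (fun ν => hat N h ν * conj (PP k ν)) (τ * nz (emb k N))⁻¹ := by
  obtain ⟨c, hc, hP⟩ := poisson_per K E
  refine ⟨c * (-Complex.I / 2) ^ Module.finrank k E, mul_ne_zero
    (Complex.ofReal_ne_zero.2 (left_ne_zero_of_mul_eq_one hc))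
    (pow_ne_zero _ (by simp)), fun n ℓ U I N h hN hNI hd hh hε τ hτ => ?_⟩
  have hI : I ≠ ⊥ := fun h0 => hN (by simpa [h0] using hNI)
  have hm := PartU.emb_ne (k := k) hN
  have hτ' : 0 < τ * nz (emb k N) := mul_pos hτ (nz_pos hm)
  have hh' := hh.mono ((Ideal.span_singleton_le_iff_mem _).2 hNI)
  obtain ⟨B, hB⟩ := hh.bdd hI
  obtain ⟨B', hB'⟩ := (per_hat hN h).bdd (by simpa using hN)
  have h1 := hasSum_thE U K (H := fun x => h x * PP k x) (by simp [PP_zero])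
    (fun j x => by rw [PP_mul, ← mul_assoc, hε]) (fun δ hδ => by
      simpa only [Gau_eq 1, pow_one, mul_assoc, PP] using
        summable_Gau K 1 (y := fun _ => δ) (fun _ => hδ) hB) hτ 0
  have h2 := hasSum_thE U K (H := fun x => hat N h x * conj (PP k x)) (by simp [PP_zero])
    (fun j x => by
      have := PP_mul_conj (k := k) (U.ε j : 𝓞 E)
      rw [Geo.nz_emb K, Ideal.span_singleton_eq_top.2 (U.ε j).isUnit, Ideal.absNorm_top] at this
      rw [PP_mul, hat_unit hN hh' _ (hε j), map_mul, mul_mul_mul_comm, this]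
      simp)
    (fun δ hδ => by
      refine Summable.of_norm ?_
      simpa only [Gau_eq 1, pow_one, norm_mul, Complex.norm_conj, mul_assoc, PP] using
        (summable_Gau K 1 (y := fun _ => δ) (fun _ => hδ) hB').norm)
    (inv_pos.2 hτ') (U.co (lg (emb k N)))
  rw [thE, thE, h1.tsum_eq, h2.tsum_eq]
  set S : (Fin U.m → ℝ) → ℂ := fun u => ∑' x, hat N h x * conj (PP k x) *
    Gau 0 (yy U (τ * nz (emb k N))⁻¹ u) (emb k x) with hS
  have hP0 : conj (PP k N) ≠ 0 := (map_ne_zero _).2 (Finset.prod_ne_zero_iff.2 fun φ _ => hm φ)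
  have hτ0 : (τ : ℂ) ≠ 0 := by exact_mod_cast hτ.ne'
  have h3 : ∀ u, ∑' x, h x * PP k x * Gau 0 (yy U τ u) (emb k x) =
      c * (-Complex.I / 2) ^ Module.finrank k E / (τ ^ 2 * conj (PP k N)) *
        S (-(u + U.co (lg (emb k N)))) := by
    intro u
    have h4 := ((hP 1 (yy U τ u) I h le_rfl (yy_pos U hτ u) hI hh).2.2 N hN hNI hd).tsum_eq
    simp only [Gau_eq 1, pow_one, ← mul_assoc] at h4
    rw [hS, ← tsum_mul_left]
    refine h4.symm.trans (tsum_congr fun ν => ?_)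
    have e1 : ∏ φ, (-Complex.I / yy U τ u φ) ^ 1 * (1 / (2 * yy U τ u φ)) =
        (-Complex.I / 2) ^ Module.finrank k E / τ ^ 2 := by
      have e0 : (τ : ℂ) = ∏ φ, (yy U τ u φ : ℂ) := by
        rw [← Complex.ofReal_prod, prod_yy U K hτ]
      rw [e0, ← Geo.card_emb, ← Finset.card_univ, ← Finset.prod_const, ← Finset.prod_pow,
        ← Finset.prod_div_distrib]
      exact Finset.prod_congr rfl fun φ _ => by ring
    have e2 : ∏ φ, embE k ((ν : E) / N) φ = PP k ν / PP k N := by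
      rw [PP, PP, ← Finset.prod_div_distrib]
      exact Finset.prod_congr rfl fun φ _ => map_div₀ φ _ _
    have e3 : Gau 0 (fun φ => (yy U τ u φ)⁻¹) (embE k ((ν : E) / N)) =
        Gau 0 (yy U (τ * nz (emb k N))⁻¹ (-(u + U.co (lg (emb k N))))) (emb k ν) := by
      rw [Gau_zero, Gau_zero]
      congr 5
      funext φ
      rw [yy_inv U hτ', yy_mul U hτ.le (nz_nonneg _), ← norm_sq_eq U hm,
        show embE k ((ν : E) / N) φ = emb k ν φ / emb k N φ from map_div₀ φ _ _, norm_div]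
      ring
    rw [Gauh_eq, e1, e2, e3, map_div₀, hat]
    ring
  simp only [add_zero, h3]
  have h5 : ∫ u, (ww u : ℂ) * S (-(u + U.co (lg (emb k N)))) =
      ∫ u, ww (u + U.co (lg (emb k N))) * S u := by
    rw [← integral_neg_eq_self, ← integral_add_right_eq_self _ (U.co (lg (emb k N)))]
    congr 1
    funext u
    rw [ww_neg]
    congr 2
    abel
  simp only [mul_left_comm (ww _ : ℂ)]
  rw [integral_const_mul, h5]
  show _ = _ * (_ * ∫ u, ww (u + U.co (lg (emb k N))) * S u)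
  generalize ∫ u, (ww (u + U.co (lg (emb k N))) : ℂ) * S u = J
  push_cast
  rw [← PP_mul_conj]
  have hP1 : PP k N ≠ 0 := Finset.prod_ne_zero_iff.2 fun φ _ => hm φ
  field_simp

end

end Pool.Agent.P.MP_b8021b_nt.PoiN
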