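import Pool.Agent.P.MP_b8021b_nt.BS.BasicD
import Pool.Agent.P.MP_b8021b_nt.BS.PoiU

/-! The transformation of the theta series over elements. -/

namespace Pool.Agent.P.MP_b8021b_nt.BS

open NumberField IsDedekindDomain Finset MeasureTheory
open Pool.Agent.P.MP_b8021b_nt.VE Pool.Agent.P.MP_b8021b_nt.VC Pool.Agent.P.MP_b8021b_nt.BS.CF
open scoped Classical ComplexConjugate Real

variable {k : Type} [Field k] [NumberField k] [Algebra k ℂ] {K : Type} [Field K] [NumberField K]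
  [Algebra k K]

namespace PFE2

theorem kk_eq {n : ℕ} {ℓ : ℝ} (U : UB k K n ℓ) (x : ℝ) : kk U x = PoiN.kk U x := by
  have h : rk k K = U.m + 1 := by rw [rk, ← U.hm]; push_cast; rfl
  unfold kk PoiN.kk PoiN.GG PoiN.yy
  rw [h]
  refine congrArg _ (funext fun u => ?_)
  rw [← mul_sum]
  congr 1
  ring

theorem LT_eq {n : ℕ} {ℓ : ℝ} (U : UB k K n ℓ) (G H : 𝓞 K → ℂ)
    (h : ∀ x, H x = G x * (√(nz (emb k x)) : ℝ)) (τ : ℝ) : LT U G τ = PoiN.thE U H τ := by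
  unfold LT PoiN.thE
  refine tsum_congr fun x => ?_
  rw [h, kk_eq]
  push_cast
  ring

theorem ee_tr (ξ : K) : PoiN.ee (PoiN.tr ξ) = etr ξ := by
  simp [PoiN.ee, PoiN.tr, etr]

theorem hat_eq (N : 𝓞 K) (h : 𝓞 K → ℂ) (ν : 𝓞 K) :
    PoiN.hat N h ν = ft (sp N) h ((ν : K) / N) / (Ideal.absNorm (sp N) : ℂ) := by
  simp only [PoiN.hat, PoiN.av, ft, ee_tr]

theorem div_mem_dual {N : 𝓞 K} (hN : N ≠ 0) (ν : 𝓞 K) : (ν : K) / N ∈ Dual (sp N) := by
  intro a ha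
  obtain ⟨b, rfl⟩ := Ideal.mem_span_singleton.1 ha
  have h0 : (N : K) ≠ 0 := by exact_mod_cast hN
  have := coe_mem_dual (⊤ : Ideal (𝓞 K)) ν b trivial
  rwa [show (ν : K) / N * ((N * b : 𝓞 K) : K) = ν * (b : 𝓞 K) by push_cast; field_simp]

theorem PP_eq (x : 𝓞 K) : PoiN.PP k x = dP (emb k x) * (√(nz (emb k x)) : ℝ) :=
  (dP_mul_sqrt _).symm

end PFE2

open PFE2 in
theorem x_fE2 (c : Ctx k K) (hRec : X_Rec K) (hG1 : X_G1 K) (hG2 : X_G2 K) :
    X_FE2 k K := by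
  intro n ℓ U φ hn hU hφ
  obtain ⟨B, -⟩ := c.bf
  obtain ⟨c₀, -, hfe⟩ := PoiN.thE_fe B K
  have hn0 : (n : 𝓞 K) ≠ 0 := by exact_mod_cast hn.pos
  set M : 𝓞 K := ((n ^ 3 : ℕ) : 𝓞 K) with hM
  have hM' : M = (n : 𝓞 K) ^ 3 := by rw [hM]; push_cast; rfl
  have hM0 : M ≠ 0 := by rw [hM']; exact pow_ne_zero _ hn0
  have hMb : sp M ≠ ⊥ := by simpa [sp] using hM0
  have hN2 : (((n ^ 2 : ℕ) : 𝓞 K)) = (n : 𝓞 K) ^ 2 := by push_cast; rfl
  have hφM : Peri (sp M) φ := fun x y h => hφ x y (Ideal.mem_span_singleton.2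
    (Dvd.dvd.trans ⟨n, by rw [hM', hN2]; ring⟩ (Ideal.mem_span_singleton.1 h)))
  refine ⟨PoiN.hat M φ, c₀ * PoiN.PP k M, (NN (sp M))⁻¹, inv_pos.2 (NN_pos hMb),
    PoiN.per_hat hM0 φ, fun t ht τ hτ => ?_⟩
  have ht0 := ht.ne_zero
  have htb : sp t ≠ ⊥ := ht.2.ne_zero
  have ht1 : (n : 𝓞 K) ∣ t - 1 := Dvd.dvd.trans ⟨n, by rw [hN2]; ring⟩ ht.1
  have ht8 := hn.dvd8 ht1
  have htK : (t : K) ≠ 0 := by exact_mod_cast ht0
  have hMK : (M : K) ≠ 0 := by exact_mod_cast hM0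
  have hjn : jac (n : 𝓞 K) (sp t) = 1 := by
    rw [← hRec t n ht8 hn0]
    exact jac_eq_one_of_mem (by simpa [sp] using hn0) (Ideal.mem_span_singleton_self _) ht1
  have hjM : jac M (sp t) = 1 := by rw [hM', jac_pow_left _ htb, hjn, one_pow]
  have hcop : IsCoprime M t := by
    rw [hM']
    obtain ⟨s, hs⟩ := ht1
    exact IsCoprime.pow_left ⟨-s, 1, by linear_combination hs⟩
  have hφt : ∀ x, φ (t * x) = φ x := fun x => hφ _ _ (Ideal.mem_span_singleton.2 (by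
    rw [show t * x - x = (t - 1) * x by ring]; exact ht.1.mul_right x))
  have hc2 : Cop 2 (sp t) := cop_span_of_dvd (Dvd.dvd.trans ⟨4, by norm_num⟩ ht8)
  have hti : (t : K)⁻¹ ∈ Dual (sp t) := by simpa using div_mem_dual ht0 1
  have hhat : ∀ ν : 𝓞 K, PoiN.hat (M * t) (fun x => φ x * jac x (sp t)) ν =
      PoiN.hat M φ ν * jac ν (sp t) * (gsI (sp t) (t : K)⁻¹ / (NN (sp t) : ℝ)) := by
    intro ν
    rw [hat_eq, hat_eq, hG1.1 M t φ _ _ hM0 ht0 hcop hφM (peri_jac _)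
      (div_mem_dual (mul_ne_zero hM0 ht0) ν)]
    have e1 : (ν : K) / ((M * t : 𝓞 K) : K) * (t : 𝓞 K) = (ν : K) / M := by
      push_cast; field_simp
    have e2 : (ν : K) / ((M * t : 𝓞 K) : K) * (M : 𝓞 K) = (t : K)⁻¹ * (ν : 𝓞 K) := by
      push_cast; field_simp
    have e3 : (fun x => jac (M * x) (sp t)) = fun x => jac x (sp t) := funext fun x => by
      rw [jac_mul_left, hjM, one_mul]
    rw [e1, e2, e3, funext hφt, ← gsI, (hG2 _ _ ht.2 hc2 hti).1 ν, sp_mul, map_mul]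
    push_cast
    ring
  have key := hfe _ ℓ U (sp (((n ^ 2 : ℕ) : 𝓞 K) * t)) (M * t) (fun x => φ x * jac x (sp t))
    (mul_ne_zero hM0 ht0) (Ideal.mem_span_singleton.2 ⟨n, by rw [hM', hN2]; ring⟩)
    (fun κ hκ => by
      obtain ⟨a, ha⟩ := hn.dual (κ * ((((n ^ 2 : ℕ) : 𝓞 K) * t : 𝓞 K) : K)) fun b _ => by
        obtain ⟨m, hm⟩ := hκ ((((n ^ 2 : ℕ) : 𝓞 K) * t) * b)
          (Ideal.mul_mem_right _ _ (Ideal.mem_span_singleton_self _))
        refine ⟨m, ?_⟩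
        rw [PoiN.tr] at hm
        have : Algebra.trace ℚ K (κ * (((((n ^ 2 : ℕ) : 𝓞 K) * t) * b : 𝓞 K) : K)) = m := by
          exact_mod_cast hm
        rw [← this]
        congr 1
        push_cast
        ring
      refine ⟨a, ?_⟩
      rw [← ha, hM']
      push_cast
      ring)
    (fun x y h => by
      have h1 := Ideal.mem_span_singleton.1 h
      beta_reduce
      rw [hφ x y (Ideal.mem_span_singleton.2 ((dvd_mul_right _ _).trans h1)),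
        jac_congr (Ideal.mem_span_singleton.2 ((dvd_mul_left _ _).trans h1))])
    (fun j x => by
      have e0 : sp (U.ε j : 𝓞 K) = ⊤ := Ideal.span_singleton_eq_top.2 (U.ε j).isUnit
      have e1 : φ (U.ε j * x) = φ x := hφM _ _ (Ideal.mem_span_singleton.2 (by
        rw [show (U.ε j : 𝓞 K) * x - x = (U.ε j - 1) * x by ring]; exact (U.cong j).mul_right x))
      have e2 : jac (U.ε j : 𝓞 K) (sp t) = 1 := by
        rw [← hRec t _ ht8 (Units.ne_zero _), e0, jac_top]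
      have e3 : PoiN.PP k (U.ε j : 𝓞 K) = 1 := by
        rw [PP_eq, dP_eq_ty, hU j, ← c.NN_eq, e0]
        simp [NN]
      rw [e1, jac_mul_left, e2, e3, one_mul, mul_one]) τ hτ
  rw [LT_eq U _ (fun x => φ x * jac x (sp t) * PoiN.PP k x) (fun x => by rw [PP_eq]; ring), key,
    LT_eq U _ (fun ν => PoiN.hat M φ ν * jac ν (sp t) * conj (PoiN.PP k ν))
      (fun x => by rw [PP_eq, map_mul, Complex.conj_ofReal]; ring)]
  have e4 : (τ * nz (emb k (M * t)))⁻¹ = (NN (sp M))⁻¹ / (τ * NN (sp t)) := by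
    rw [← c.NN_eq, sp_mul, NN_mul]
    have := NN_pos hMb
    have := NN_pos htb
    field_simp
  have e5 : PoiN.thE U (fun ν => PoiN.hat (M * t) (fun x => φ x * jac x (sp t)) ν *
      conj (PoiN.PP k ν)) ((NN (sp M))⁻¹ / (τ * NN (sp t))) =
      gsI (sp t) (t : K)⁻¹ / (NN (sp t) : ℝ) * PoiN.thE U (fun ν => PoiN.hat M φ ν *
        jac ν (sp t) * conj (PoiN.PP k ν)) ((NN (sp M))⁻¹ / (τ * NN (sp t))) := by
    unfold PoiN.thE
    rw [← tsum_mul_left]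
    refine tsum_congr fun ν => ?_
    beta_reduce
    rw [hhat]
    ring
  rw [e4, e5, PoiN.PP_mul, PP_eq t, ← c.NN_eq, eps]
  have e6 : ((NN (sp t) : ℝ) : ℂ) = (√(NN (sp t)) : ℝ) * (√(NN (sp t)) : ℝ) := by
    rw [← Complex.ofReal_mul, Real.mul_self_sqrt (NN_pos htb).le]
  have e7 : ((√(NN (sp t)) : ℝ) : ℂ) ≠ 0 := by
    exact_mod_cast (Real.sqrt_pos.2 (NN_pos htb)).ne'
  generalize PoiN.thE U _ _ = J
  rw [e6]
  field_simp

end Pool.Agent.P.MP_b8021b_nt.BS
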