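import Pool.Agent.P.MP_b8021b_nt.BS.BasicD

/-! The functional equation of the twisted theta series. -/

namespace Pool.Agent.P.MP_b8021b_nt.BS

open NumberField IsDedekindDomain Finset MeasureTheory
open Pool.Agent.P.MP_b8021b_nt.VE Pool.Agent.P.MP_b8021b_nt.VC Pool.Agent.P.MP_b8021b_nt.BS.CF
open scoped Classical ComplexConjugate Real
variable {k : Type} [Field k] [NumberField k] [Algebra k ℂ] {K : Type} [Field K] [NumberField K] [Algebra k K]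

namespace PFE

/-- a character of modulus `n` is a character of modulus `n ^ 3` -/
theorem isP_pow {n : ℕ} {Ψ : Ideal (𝓞 K) →* ℂ} (h : IsP k n Ψ) : IsP k (n ^ 3) Ψ where
  norm_cop I e := h.norm_cop I ((cop_pow_nat (by norm_num)).1 e)
  zero I e := h.zero I fun e' => e ((cop_pow_nat (by norm_num)).2 e')
  sum := h.sum
  prin α e := h.prin α ((Nat.cast_dvd_cast (dvd_pow_self n (by norm_num))).trans e)

/-- the symbol leaves the sum over the generators -/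
theorem cc_jac (hRec : X_Rec K) {n : ℕ} {ℓ : ℝ} (U : UB k K n ℓ) (G : 𝓞 K → ℂ) {t : 𝓞 K}
    (ht : (8 : 𝓞 K) ∣ t - 1) {I : Ideal (𝓞 K)} (hI : I ≠ ⊥) :
    CC U (fun κ => G κ * jac κ (sp t)) I = CC U G I * jac t I := by
  unfold CC
  rw [finsum_mem_mul]
  refine finsum_mem_congr rfl fun κ hκ => ?_
  have e : sp κ = I := hκ
  have h0 : κ ≠ 0 := fun z => hI (by rw [← e, z]; exact Ideal.span_singleton_eq_bot.2 rfl)
  beta_reduce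
  rw [← hRec t κ ht h0, e]
  ring

/-- the twisted series over elements is a twisted series over ideals -/
theorem lt_eq (hRec : X_Rec K) (hGn : X_Gn k K) {n : ℕ} {ℓ : ℝ} (U : UB k K n ℓ) (G : 𝓞 K → ℂ)
    {A : ℝ} (hA : ∀ κ, ‖G κ‖ ≤ A) {t : 𝓞 K} (ht : (8 : 𝓞 K) ∣ t - 1) {τ : ℝ} (hτ : 0 < τ) :
    LT U (fun κ => G κ * jac κ (sp t)) τ = Tw (kk U) (CC U G) t τ := by
  obtain ⟨J, -, -, -, -, h⟩ := hGn n ℓ U
  rw [h _ A τ (fun κ => ?_) hτ]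
  · unfold Tw Th
    refine tsum_congr fun I => ?_
    by_cases hI : I = ⊥
    · simp [hI, NN]
    · rw [cc_jac hRec U G ht hI]
  · rw [norm_mul]
    exact (mul_le_of_le_one_right (norm_nonneg _) (norm_jac_le _ _)).trans (hA κ)

end PFE

open PFE in
theorem x_fE (c : Ctx k K) (hRec : X_Rec K) (hKM : X_KM k K) (hGn : X_Gn k K) (hFE1 : X_FE1 k K)
    (hFE2 : X_FE2 k K) (hSq0 : X_Sq0 k K) (hSq1 : X_Sq1 k K) : X_FE k K := by
  intro n Ψ hn hΨ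
  have h2 : 2 ≤ n := hn.two_le
  have h3 : 2 ≤ n ^ 3 := h2.trans (Nat.le_self_pow (by norm_num) n)
  obtain ⟨ℓ, ⟨U⟩⟩ := c.ub (n := n ^ 3) (by omega)
  have hΨ3 := isP_pow hΨ
  obtain ⟨hK, hM, -⟩ := hKM _ ℓ U
  refine ⟨kk U, hK, hM, ?_⟩
  obtain ⟨ℛ, φ, γ, hφ, h1⟩ := hFE1 n _ ℓ U Ψ hn hΨ
  choose! a γ' d hd hP hF using fun 𝔠 (h : 𝔠 ∈ ℛ) =>
    hFE2 n ℓ U (φ 𝔠) hn (hΨ3.tr U) (hφ 𝔠 h).2
  obtain ⟨η, η0, η1, hS⟩ := hSq0
  obtain ⟨B, -⟩ := c.bf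
  have hne : Nonempty (Emb k K) := by
    rw [← Fintype.card_pos_iff, c.card_emb]
    exact_mod_cast (one_pos.trans_le c.one_le_rk : (0 : ℝ) < _)
  obtain ⟨φ₀⟩ := hne
  have hsq := ((c.lib.bcn.2 k B K _ _ _ Ψ h3 hΨ3).2.2.2.1 _ _ _ Ψ (by omega) hΨ3).2 rfl
  have hcj := (c.lib.bcn.2 k B K _ _ _ _ h3 hsq).2.1
  rw [add_zero] at hsq
  rw [add_zero, neg_zero] at hcj
  obtain ⟨A₀, hA₀⟩ := hS _ _ _ Ψ 1 h3 hsq (fun e => by simpa using congrFun e φ₀) hΨ.norm_le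
    fun 𝔫 I J _ _ _ _ => by simp only [map_mul, map_pow, MonoidHom.mul_apply]; ring
  have hb : sp ((n ^ 3 : ℕ) : 𝓞 K) ≠ ⊥ := by
    rw [Ne, Ideal.span_singleton_eq_bot]
    exact_mod_cast (by omega : n ^ 3 ≠ 0)
  have hG : ∀ 𝔠 ∈ ℛ, ∃ A : ℝ, ∀ κ, ‖a 𝔠 κ * conj (dP (emb k κ))‖ ≤ A := fun 𝔠 h => by
    obtain ⟨A, -, hA⟩ := (hP 𝔠 h).bdd hb
    refine ⟨A, fun κ => ?_⟩
    rw [norm_mul, RCLike.norm_conj]
    exact (mul_le_of_le_one_right (norm_nonneg _) (norm_dP_le _)).trans (hA κ)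
  have hC : ∀ 𝔠 ∈ ℛ, ∃ A, Co (CC U fun κ => a 𝔠 κ * conj (dP (emb k κ))) A η := fun 𝔠 h => by
    obtain ⟨A, hA⟩ := hG 𝔠 h
    obtain ⟨J, -, -, hJ, -⟩ := hGn _ ℓ U
    exact hS _ _ _ _ _ h3 hcj (fun e => by simpa using congrFun e φ₀) (hJ _ A hA)
      (hSq1 _ ℓ U Ψ (a 𝔠) h3 hΨ3 (hP 𝔠 h))
  choose! A hA using hC
  let e := ℛ.equivFin.symm
  refine ⟨ℛ.card, fun i => CC U fun κ => a (e i) κ * conj (dP (emb k κ)),
    fun i => γ (e i) * γ' (e i), fun i => d (e i) * NN (e i : Ideal (𝓞 K)),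
    |A₀| + ∑ 𝔠 ∈ ℛ, |A 𝔠|, η, η0, η1, hA₀.mono ?_, fun i => ⟨?_, (hA _ (e i).2).mono ?_⟩,
    fun t ht τ hτ => ?_⟩
  · exact (le_abs_self _).trans (le_add_of_nonneg_right (sum_nonneg fun _ _ => abs_nonneg _))
  · exact mul_pos (hd _ (e i).2) (NN_pos (hφ _ (e i).2).1)
  · exact (le_abs_self _).trans ((single_le_sum (f := fun 𝔠 => |A 𝔠|) (fun _ _ => abs_nonneg _)
      (e i).2).trans (le_add_of_nonneg_left (abs_nonneg _)))
  · have hd1 : (n : 𝓞 K) ∣ t - 1 := (ht.mono (dvd_pow_self n (by norm_num))).1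
    have hT : 0 < NN (sp t) := NN_pos (by
      rw [Ne, Ideal.span_singleton_eq_bot]; exact ht.ne_zero)
    rw [h1 t hd1 τ hτ, ← sum_coe_sort, ← e.sum_comp, mul_sum]
    refine sum_congr rfl fun i _ => ?_
    have hN : 0 < NN (e i : Ideal (𝓞 K)) := NN_pos (hφ _ (e i).2).1
    obtain ⟨A', hA'⟩ := hG _ (e i).2
    have hx : d (e i) / (τ / NN (e i : Ideal (𝓞 K)) * NN (sp t)) =
        d (e i) * NN (e i : Ideal (𝓞 K)) / (τ * NN (sp t)) := by field_simp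
    rw [hF _ (e i).2 t ht _ (div_pos hτ hN), hx, lt_eq hRec hGn U _ hA' (hn.dvd8 hd1)
      (div_pos (mul_pos (hd _ (e i).2) hN) (mul_pos hτ hT))]
    ring

end Pool.Agent.P.MP_b8021b_nt.BS
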