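import Pool.Agent.P.MP_b8021b_nt.BS.BasicD

/-! Sums over the generators of an ideal. -/

namespace Pool.Agent.P.MP_b8021b_nt.BS

open NumberField IsDedekindDomain Finset MeasureTheory
open Pool.Agent.P.MP_b8021b_nt.VE Pool.Agent.P.MP_b8021b_nt.VC Pool.Agent.P.MP_b8021b_nt.BS.CF
open scoped Classical ComplexConjugate Real
variable {k : Type} [Field k] [NumberField k] [Algebra k ℂ] {K : Type} [Field K] [NumberField K]
  [Algebra k K]

namespace PGn

variable {n : ℕ} {ℓ : ℝ}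

theorem fin (c : Ctx k K) (U : UB k K n ℓ) (I : Ideal (𝓞 K)) :
    {κ : 𝓞 K | sp κ = I ∧ U.β (emb k κ) ≠ 0}.Finite := by
  obtain ⟨B, -⟩ := c.bf
  refine ((c.lib.part k B K n ℓ U).2.2.1 (NN I)).subset fun κ h => ⟨h.2, ?_⟩
  rw [← c.NN_eq, h.1]

theorem gens (c : Ctx k K) (U : UB k K n ℓ) : ∃ J : ℝ, 0 < J ∧
    ∀ α : 𝓞 K, α ≠ 0 → ∑ᶠ κ ∈ {κ : 𝓞 K | sp κ = sp α}, U.β (emb k κ) = J := by
  obtain ⟨B, -⟩ := c.bf
  let V : UB k K 1 ℓ := { U with cong := fun j => by simp }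
  obtain ⟨-, -, -, h1, h2⟩ := c.lib.part k B K 1 ℓ V
  refine ⟨V.j0, by linarith, fun α hα => ?_⟩
  have h := h2 0 0 α hα fun j => ty_zero _
  rw [if_pos fun η _ => ty_zero _] at h
  simp only [ty_zero, mul_one] at h
  have e : ∑ᶠ η ∈ {η : (𝓞 K)ˣ | ((1 : ℕ) : 𝓞 K) ∣ (η : 𝓞 K) - 1}, (V.β (emb k (η * α)) : ℂ) =
      ∑ᶠ κ ∈ {κ : 𝓞 K | sp κ = sp α}, (U.β (emb k κ) : ℂ) := by
    refine finsum_mem_eq_of_bijOn (fun η : (𝓞 K)ˣ => (η : 𝓞 K) * α) ⟨fun η _ => ?_,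
      fun η _ η' _ e => Units.ext (mul_right_cancel₀ hα e), fun κ hκ => ?_⟩ fun _ _ => rfl
    · exact Ideal.span_singleton_mul_left_unit η.isUnit α
    · obtain ⟨u, hu⟩ := Ideal.span_singleton_eq_span_singleton.1 (Eq.symm hκ)
      exact ⟨u, by simp, by rw [← hu, mul_comm]⟩
  rw [e] at h
  apply Complex.ofReal_injective
  rw [← h]
  have m := fun {X : Type} (g : X → ℝ) =>
    AddMonoidHom.map_finsum_of_injective (Complex.ofRealHom : ℝ →+ ℂ) Complex.ofReal_injective g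
  refine (m _).trans (finsum_congr fun κ => ?_)
  exact AddMonoidHom.map_finsum_of_injective (Complex.ofRealHom : ℝ →+ ℂ)
    Complex.ofReal_injective _

/-- a sum over the generators is a finite sum -/
theorem fs (c : Ctx k K) (U : UB k K n ℓ) (I : Ideal (𝓞 K)) {M : Type} [AddCommMonoid M]
    (g : 𝓞 K → M) (hg : ∀ κ, U.β (emb k κ) = 0 → g κ = 0) :
    ∑ᶠ κ ∈ {κ : 𝓞 K | sp κ = I}, g κ = ∑ κ ∈ (fin c U I).toFinset, g κ := by
  refine finsum_mem_eq_sum_of_inter_support_eq _ (Set.ext fun κ => ?_)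
  simp only [Set.mem_inter_iff, Set.Finite.coe_toFinset, Set.mem_ofPred_eq, Function.mem_support]
  exact ⟨fun h => ⟨⟨h.1, fun e => h.2 (hg κ e)⟩, h.2⟩, fun h => ⟨h.1.1, h.2⟩⟩

theorem mass (c : Ctx k K) (U : UB k K n ℓ) {J : ℝ} (hJ : 0 < J)
    (h : ∀ α : 𝓞 K, α ≠ 0 → ∑ᶠ κ ∈ {κ : 𝓞 K | sp κ = sp α}, U.β (emb k κ) = J)
    (I : Ideal (𝓞 K)) : ∑ κ ∈ (fin c U I).toFinset, U.β (emb k κ) ≤ 1 + J := by
  by_cases e : ∃ α, α ≠ 0 ∧ sp α = I
  · obtain ⟨α, hα, rfl⟩ := e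
    rw [← fs c U _ _ fun _ e => e, h α hα]
    linarith
  · refine (sum_le_sum_of_subset_of_nonneg (t := {0}) (fun κ hκ => ?_)
      fun _ _ _ => U.β_nonneg _).trans ?_
    · by_contra h0
      exact e ⟨κ, by simpa using h0, ((Set.Finite.mem_toFinset _).1 hκ).1⟩
    · rw [sum_singleton]
      linarith [U.β_le_one (emb k (0 : 𝓞 K))]

theorem kk_nonneg (U : UB k K n ℓ) (x : ℝ) : 0 ≤ kk U x :=
  integral_nonneg fun _ => (Real.exp_pos _).le

end PGn

open PGn in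
theorem x_gn (c : Ctx k K) (hKM : X_KM k K) (hThB : X_ThB K) : X_Gn k K := by
  intro n ℓ U
  obtain ⟨J, hJ, h⟩ := gens c U
  have hm := mass c U hJ h
  have hC : ∀ (G : 𝓞 K → ℂ) I, CC U G I =
      ∑ κ ∈ (fin c U I).toFinset, G κ * (U.β (emb k κ) : ℝ) := fun G I =>
    fs c U I _ fun κ e => by simp [e]
  have hS : ∀ τ, 0 < τ → Summable fun κ : 𝓞 K =>
      U.β (emb k κ) * (√(nz (emb k κ)) * kk U (τ * nz (emb k κ))) := fun τ hτ => by
    have hg := (hThB _ (hKM n ℓ U).1).1 τ hτ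
    have g0 : ∀ x : ℝ, 0 ≤ √x * kk U (τ * x) := fun x =>
      mul_nonneg (Real.sqrt_nonneg _) (kk_nonneg U _)
    refine summable_of_sum_le (c := (1 + J) * ∑' I : Ideal (𝓞 K), √(NN I) * kk U (τ * NN I))
      (fun κ => mul_nonneg (U.β_nonneg _) (g0 _)) fun s => ?_
    rw [← sum_fiberwise_of_maps_to (g := sp) (t := s.image sp) fun x hx => mem_image_of_mem _ hx]
    refine le_trans (sum_le_sum fun I _ => ?_) ((mul_sum _ _ _).ge.trans
      (mul_le_mul_of_nonneg_left (hg.sum_le_tsum _ fun _ _ => g0 _) (by linarith)))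
    refine le_trans ?_ (mul_le_mul_of_nonneg_right (hm I) (g0 _))
    rw [sum_congr rfl fun κ hκ => by rw [← c.NN_eq, (mem_filter.1 hκ).2], ← sum_mul]
    refine mul_le_mul_of_nonneg_right ?_ (g0 _)
    rw [← sum_filter_ne_zero]
    refine sum_le_sum_of_subset_of_nonneg (fun κ hκ => ?_) fun _ _ _ => U.β_nonneg _
    exact (Set.Finite.mem_toFinset _).2 ⟨(mem_filter.1 (mem_filter.1 hκ).1).2, (mem_filter.1 hκ).2⟩
  refine ⟨J, hJ, fun α hα => ⟨fin c U _, h α hα⟩, fun G A hG I => ?_, hS, fun G A τ hG hτ => ?_⟩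
  · rw [hC]
    refine (norm_sum_le _ _).trans (le_trans (sum_le_sum fun κ _ => ?_) ((sum_mul _ _ _).ge.trans
      (mul_le_mul_of_nonneg_right (hm I) ((norm_nonneg _).trans (hG 0)))))
    rw [norm_mul, Complex.norm_real, Real.norm_of_nonneg (U.β_nonneg _), mul_comm]
    exact mul_le_mul_of_nonneg_left (hG κ) (U.β_nonneg _)
  · have hs : Summable fun κ : 𝓞 K => G κ *
        (U.β (emb k κ) * (√(nz (emb k κ)) * τ * kk U (τ * nz (emb k κ))) : ℝ) := by
      refine .of_norm_bounded ((hS τ hτ).mul_left (A * τ)) fun κ => ?_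
      have := U.β_nonneg (emb k κ)
      have := kk_nonneg U (τ * nz (emb k κ))
      rw [norm_mul, Complex.norm_real, Real.norm_of_nonneg (by positivity)]
      exact (mul_le_mul_of_nonneg_right (hG κ) (by positivity)).trans (le_of_eq (by ring))
    rw [LT, Th, ← (hs.hasSum.tsum_fiberwise sp).tsum_eq]
    refine tsum_congr fun I => ?_
    rw [tsum_subtype (sp ⁻¹' {I}) fun κ : 𝓞 K => G κ *
        (U.β (emb k κ) * (√(nz (emb k κ)) * τ * kk U (τ * nz (emb k κ))) : ℝ), hC, sum_mul,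
      tsum_eq_sum (s := (fin c U I).toFinset) fun κ hκ => ?_]
    · refine sum_congr rfl fun κ hκ => ?_
      have e := ((Set.Finite.mem_toFinset _).1 hκ).1
      rw [Set.indicator_of_mem (by exact e), ← c.NN_eq, e]
      push_cast
      ring
    · by_cases e : sp κ = I
      · have : U.β (emb k κ) = 0 := by
          by_contra h0
          exact hκ ((Set.Finite.mem_toFinset _).2 ⟨e, h0⟩)
        simp [Set.indicator, this]
      · exact Set.indicator_of_notMem (by exact e) _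

end Pool.Agent.P.MP_b8021b_nt.BS
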