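import Pool.Agent.P.MP_b8021b_nt.BS.BasicD

/-! Poisson summation for a quadratic symbol. -/

namespace Pool.Agent.P.MP_b8021b_nt.BS

open NumberField IsDedekindDomain Finset MeasureTheory
open Pool.Agent.P.MP_b8021b_nt.VE Pool.Agent.P.MP_b8021b_nt.VC Pool.Agent.P.MP_b8021b_nt.BS.CF
open scoped Classical ComplexConjugate Real
variable {k : Type} [Field k] [NumberField k] [Algebra k ℂ] {K : Type} [Field K] [NumberField K]
  [Algebra k K]

namespace PPCh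

/-- the integers `a` with `a / n` in the inverse different -/
def dd (K : Type) [Field K] [NumberField K] (n : ℕ) : Ideal (𝓞 K) where
  carrier := {a | (a : K) / n ∈ Dual (⊤ : Ideal (𝓞 K))}
  add_mem' := fun {a b} ha hb => by
    have := Dual.add ha hb
    simpa [add_div] using this
  zero_mem' := by simpa using coe_mem_dual (⊤ : Ideal (𝓞 K)) 0
  smul_mem' := fun u a ha => by
    have := Dual.mul ha u
    have e : ((u • a : 𝓞 K) : K) / n = (a : K) / n * (u : 𝓞 K) := by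
      rw [smul_eq_mul]; push_cast; ring
    show ((u • a : 𝓞 K) : K) / n ∈ Dual ⊤
    rwa [e]

theorem mem_dd {n : ℕ} {a : 𝓞 K} : a ∈ dd K n ↔ (a : K) / n ∈ Dual (⊤ : Ideal (𝓞 K)) := Iff.rfl

theorem dual_mul {I J : Ideal (𝓞 K)} {ξ : K} (h : ξ ∈ Dual (I * J)) {a : 𝓞 K} (ha : a ∈ I) :
    ξ * (a : 𝓞 K) ∈ Dual J := fun b hb => by
  simpa [mul_assoc] using h (a * b) (Ideal.mul_mem_mul ha hb)

theorem mk_dual {n : ℕ} {I 𝔠 : Ideal (𝓞 K)} {γ κ : 𝓞 K} (hγ : I * 𝔠 = sp γ) (h0 : γ ≠ 0)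
    (hκ : κ ∈ 𝔠 * dd K n) : (κ : K) / (n * γ) ∈ Dual I := by
  refine Submodule.mul_induction_on hκ (fun x hx d hd b hb => ?_) fun x y hx hy => ?_
  · have h1 : b * x ∈ sp γ := hγ ▸ Ideal.mul_mem_mul hb hx
    obtain ⟨z, hz⟩ := Ideal.mem_span_singleton.1 h1
    have h2 : (γ : K) ≠ 0 := by exact_mod_cast h0
    have h3 : (b : K) * x = γ * z := by exact_mod_cast hz
    have e : ((x * d : 𝓞 K) : K) / (n * γ) * b = (d : K) / n * z := by
      push_cast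
      rw [← div_div, div_mul_eq_mul_div, div_eq_iff h2]
      linear_combination (d : K) / n * h3
    rw [e]
    exact mem_dd.1 hd z trivial
  · simpa [add_div] using Dual.add hx hy

theorem of_dual {n : ℕ} (hn : Good K n) {I 𝔠 : Ideal (𝓞 K)} {ξ : K} (hξ : ξ ∈ Dual I) {g : 𝓞 K}
    (hg : g ∈ I * 𝔠) : ∃ κ ∈ 𝔠 * dd K n, (κ : K) = n * g * ξ := by
  have h0 : (n : K) ≠ 0 := Nat.cast_ne_zero.2 hn.pos
  refine Submodule.mul_induction_on hg (fun b hb x hx => ?_) ?_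
  · have h1 : ξ * (b : 𝓞 K) ∈ Dual (⊤ : Ideal (𝓞 K)) := dual_mul (by simpa using hξ) hb
    obtain ⟨a, ha⟩ := hn.dual _ h1
    refine ⟨x * a, Ideal.mul_mem_mul hx (mem_dd.2 ?_), ?_⟩
    · rwa [← ha, mul_div_cancel_left₀ _ h0]
    · push_cast; linear_combination -(x : K) * ha
  · rintro x y ⟨a, ha, e⟩ ⟨b, hb, e'⟩
    exact ⟨a + b, add_mem ha hb, by push_cast; linear_combination e + e'⟩

theorem gau_eq {n : ℕ} (hn : n ≠ 0) {γ κ : 𝓞 K} (h0 : γ ≠ 0) {ξ : K} (h : (κ : K) = n * γ * ξ)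
    (x : ℝ) : gau (fun φ => x / (n ^ 2 * ‖emb k γ φ‖ ^ 2)) (emb k κ) =
      gau (fun _ => x) (emK k ξ) := by
  unfold gau
  congr 2
  refine sum_congr rfl fun φ _ => ?_
  have h2 : (γ : K) ≠ 0 := by exact_mod_cast h0
  have h3 : ‖φ (γ : K)‖ ≠ 0 := norm_ne_zero_iff.2 ((map_ne_zero φ).2 h2)
  have h4 : (n : ℝ) ≠ 0 := Nat.cast_ne_zero.2 hn
  simp only [emb, emK, h, map_mul, map_natCast, norm_mul, Complex.norm_natCast]
  field_simp

end PPCh

open PPCh in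
theorem x_pCh (c : Ctx k K) (hG1 : X_G1 K) (hG2 : X_G2 K) (hT1 : X_T1 k K) : X_PCh k K := by
  intro n hn
  have hc := c.cov_pos
  refine ⟨1 + (cov2 k K)⁻¹, dd K n, le_add_of_nonneg_right (by positivity), ?_⟩
  intro e q 𝔠 γ Y hq hnq heq h𝔠 hγ h0 hY
  have hq0 : q ≠ ⊥ := hq.ne_zero
  have he0 : e ≠ ⊥ := fun h => h0 (by
    rw [h, Ideal.bot_mul, Ideal.bot_mul] at hγ
    exact Ideal.span_singleton_eq_bot.1 hγ.symm)
  have hn0 : (n : K) ≠ 0 := Nat.cast_ne_zero.2 hn.pos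
  have hγ0 : (γ : K) ≠ 0 := by exact_mod_cast h0
  have h2 : Cop 2 q := by
    obtain ⟨m, rfl⟩ : 2 ∣ n := Dvd.dvd.trans (by norm_num) hn.eight
    exact (cop_mul_nat.1 hnq).1
  obtain ⟨a, ha, b, hb, hab⟩ := Submodule.mem_sup.1
    ((Ideal.eq_top_iff_one _).1 (Ideal.isCoprime_iff_sup_eq.1 heq))
  have ha1 : a - 1 ∈ q := by rw [← hab]; simpa using hb
  have hF : Peri (e * q) fun x => if x ∈ e then jac x q else 0 := fun x y hxy => by
    have h1 : x ∈ e ↔ y ∈ e :=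
      ⟨fun h => by simpa using e.sub_mem h (Ideal.mul_le_left hxy),
        fun h => by simpa using e.add_mem (Ideal.mul_le_left hxy) h⟩
    simp only [h1, jac_congr (Ideal.mul_le_right hxy)]
  have hr : rk k K ≠ 0 := (one_pos.trans_le c.one_le_rk).ne'
  have hT := hT1 (e * q) _ (fun _ => Y ^ (-(1 / rk k K))) 0 (mul_ne_zero he0 hq0) hF zero_le_one
    fun _ => by positivity
  simp only [pow_zero, one_mul] at hT
  choose g hg hg' using fun ξ : Dual (e * q) =>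
    of_dual hn ξ.2 (g := γ) (𝔠 := 𝔠) (hγ ▸ Ideal.mem_span_singleton_self γ)
  have hi : Function.Injective g := fun ξ ξ' h => Subtype.ext (by
    have := hg' ξ
    rw [h, hg' ξ'] at this
    exact (mul_left_cancel₀ (mul_ne_zero hn0 hγ0) this).symm)
  have h3 : ((n : 𝓞 K) ^ 3) ∈ 𝔠 * dd K n := by
    rw [pow_succ]
    refine Ideal.mul_mem_mul (by exact_mod_cast h𝔠) (mem_dd.2 ?_)
    simpa [hn0] using coe_mem_dual (⊤ : Ideal (𝓞 K)) 1
  have h4 := hG2 q _ hq h2 (dual_mul (mk_dual hγ h0 h3) ha)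
  have h5 : jac ((n : 𝓞 K) ^ 3) q ^ 2 = 1 := by
    rw [jac_sq hq0, if_pos]
    rw [sp, ← Ideal.span_singleton_pow]
    exact IsCoprime.pow_left (IsCoprime.symm hnq)
  set W := jac ((n : 𝓞 K) ^ 3) q * gsI q ((((n : 𝓞 K) ^ 3 : 𝓞 K) : K) / (n * γ) * a) with hW
  have hWn : ‖W‖ ≤ √(NN q) := by
    rw [hW, norm_mul]
    exact (mul_le_of_le_one_left (norm_nonneg _) (norm_jac_le _ _)).trans h4.2.1
  have h6 : ∀ ξ : Dual (e * q),
      ft (e * q) (fun x => if x ∈ e then jac x q else 0) ξ.1 = W * jac (g ξ) q := fun ξ => by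
    rw [hG1.2 e q a _ _ he0 hq0 ha ha1 (peri_jac q) ξ.2]
    have h7 := (hG2 q _ hq h2 (dual_mul ξ.2 ha)).1 ((n : 𝓞 K) ^ 3)
    have h8 := h4.1 (g ξ)
    have h9 : ξ.1 * (a : 𝓞 K) * (((n : 𝓞 K) ^ 3 : 𝓞 K) : K) =
        (((n : 𝓞 K) ^ 3 : 𝓞 K) : K) / (n * γ) * a * (g ξ : 𝓞 K) := by
      rw [hg' ξ]; field_simp
    rw [h9, h8] at h7
    show gsI q _ = _
    rw [hW]
    linear_combination (-jac ((n : 𝓞 K) ^ 3) q) * h7 - gsI q (ξ.1 * (a : 𝓞 K)) * h5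
  have h7 : ∑' κ : 𝓞 K, (if κ ∈ 𝔠 * dd K n then jac κ q else 0) *
      (gau (fun φ => Y ^ (1 / rk k K) / (n ^ 2 * ‖emb k γ φ‖ ^ 2)) (emb k κ) : ℝ) =
      ∑' ξ : Dual (e * q), jac (g ξ) q *
        (gau (fun _ => (Y ^ (-(1 / rk k K)))⁻¹) (emK k ξ.1) : ℝ) := by
    rw [← hi.tsum_eq]
    · refine tsum_congr fun ξ => ?_
      rw [if_pos (hg ξ), gau_eq hn.pos h0 (hg' ξ), Real.rpow_neg hY.le, _root_.inv_inv]
    · intro κ hκ
      have h8 : κ ∈ 𝔠 * dd K n := not_not.1 fun h => hκ (by simp [h])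
      refine ⟨⟨_, mk_dual hγ h0 h8⟩, ?_⟩
      apply RingOfIntegers.coe_injective
      show ((g _ : 𝓞 K) : K) = κ
      rw [hg']
      field_simp
  have h8 : ∏ _φ : Emb k K, (2 * Y ^ (-(1 / rk k K)))⁻¹ ≤ Y := by
    rw [prod_const, card_univ, c.card_emb, mul_inv, mul_pow, ← Real.rpow_neg hY.le, neg_neg,
      ← Real.rpow_mul_natCast hY.le, one_div_mul_cancel hr, Real.rpow_one]
    exact mul_le_of_le_one_left hY.le (pow_le_one₀ (by norm_num) (by norm_num))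
  rw [SS, hT, h7]
  simp only [h6, mul_assoc, tsum_mul_left]
  rw [norm_mul, norm_mul, ← mul_assoc, Complex.norm_real, Real.norm_of_nonneg (by positivity)]
  refine mul_le_mul_of_nonneg_right ?_ (norm_nonneg _)
  have h9 := NN_pos he0
  have h10 := NN_pos hq0
  have h11 : 0 < √(NN q) := Real.sqrt_pos.2 h10
  calc _ ≤ (NN (e * q) * cov2 k K)⁻¹ * Y * √(NN q) := by gcongr
    _ = (cov2 k K)⁻¹ * Y / (NN e * √(NN q)) := by
      rw [NN_mul, eq_div_iff (by positivity)]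
      have := Real.mul_self_sqrt h10.le
      field_simp
      rw [Real.sq_sqrt h10.le]
    _ ≤ _ := by gcongr; linarith

end Pool.Agent.P.MP_b8021b_nt.BS
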