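import Pool.Agent.P.MP_b8021b_nt.BS.PoiU

/-!
The kernel: monotonicity, decay, continuity and Mellin transform.
-/

namespace Pool.Agent.P.MP_b8021b_nt.PoiN

open MeasureTheory Filter Topology Set NumberField Pool.Agent.P.MP_b8021b_nt.VC
  Pool.Agent.P.MP_b8021b_nt.VE
open scoped Classical ComplexConjugate

noncomputable section

lemma mellin_eq_exp (f : ℝ → ℂ) (s : ℂ) :
    mellin f s = ∫ t : ℝ, Complex.exp (s * t) * f (Real.exp t) := by
  rw [mellin, ← Real.range_exp, ← image_univ, integral_image_eq_integral_abs_deriv_smul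
    MeasurableSet.univ (fun x _ => (Real.hasDerivAt_exp x).hasDerivWithinAt)
    Real.exp_injective.injOn, setIntegral_univ]
  congr 1
  funext t
  rw [abs_of_pos (Real.exp_pos t), smul_eq_mul, Complex.real_smul, ← mul_assoc,
    Complex.ofReal_exp, Complex.cpow_def_of_ne_zero (Complex.exp_ne_zero _), ← Complex.exp_add,
    Complex.log_exp (by simp [Real.pi_pos]) (by simp [Real.pi_pos.le])]
  congr 2
  ring

lemma integral_gam {s : ℂ} (hs : 0 < s.re) :
    ∫ w : ℝ, Complex.exp (s * w) * (Real.exp (-(2 * Real.pi * Real.exp w)) : ℝ) =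
      (1 / (2 * Real.pi : ℝ)) ^ s * Complex.Gamma s := by
  rw [← mellin_eq_exp (fun x => (Real.exp (-(2 * Real.pi * x)) : ℝ)), mellin,
    ← Complex.integral_cpow_mul_exp_neg_mul_Ioi hs (by positivity)]
  simp

lemma gam_ne {s : ℂ} (hs : 0 < s.re) : (1 / (2 * Real.pi : ℝ) : ℂ) ^ s * Complex.Gamma s ≠ 0 :=
  mul_ne_zero (by simp) (Complex.Gamma_ne_zero_of_re_pos hs)

lemma exp_neg_le {t B : ℝ} (ht : 0 < t) (hB : 0 < B) : Real.exp (-t) ≤ B ^ B * t ^ (-B) := by
  have h1 : (t / B) ^ B ≤ Real.exp t := by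
    refine (Real.rpow_le_rpow (by positivity) ((le_add_of_nonneg_right zero_le_one).trans
      (Real.add_one_le_exp (t / B))) hB.le).trans_eq ?_
    rw [← Real.exp_mul, div_mul_cancel₀ _ hB.ne']
  rw [Real.div_rpow ht.le hB.le, div_le_iff₀ (by positivity)] at h1
  rw [Real.rpow_neg ht.le, Real.exp_neg, ← div_eq_mul_inv, le_div_iff₀ (by positivity),
    inv_mul_le_iff₀ (Real.exp_pos _)]
  exact h1

variable {k : Type} [Field k] [NumberField k] [Algebra k ℂ] {E : Type} [Field E] [NumberField E]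
  [Algebra k E] {n : ℕ} {ℓ : ℝ} (U : UB k E n ℓ)

lemma kk_nonneg (x : ℝ) : 0 ≤ kk U x := integral_nonneg fun _ => (Real.exp_pos _).le

lemma GG_anti {x y : ℝ} (hx : 0 ≤ x) (h : x ≤ y) (u : Fin U.m → ℝ) : GG U y u ≤ GG U x u := by
  rw [GG, GG, Real.exp_le_exp, neg_le_neg_iff]
  exact mul_le_mul_of_nonneg_left (Finset.sum_le_sum fun φ _ => mul_le_mul_of_nonneg_right
    (Real.rpow_le_rpow hx h (by positivity)) (Real.exp_pos _).le) (by positivity)

lemma kk_anti (K : BF k) : AntitoneOn (kk U) (Ioi 0) := fun _ hx _ hy h =>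
  integral_mono (integrable_GG U K hy) (integrable_GG U K hx) (GG_anti U (le_of_lt hx) h)

lemma exp_le_sum (K : BF k) (u : Fin U.m → ℝ) :
    Real.exp (‖u‖ / (U.m + 1)) ≤ ∑ φ, Real.exp (2 * U.lv u φ) := by
  have hne : Nonempty (Emb k E) := Fintype.card_pos_iff.1 (by rw [card_eq U]; omega)
  have hS : 0 < ∑ φ, Real.exp (2 * U.lv u φ) :=
    Finset.sum_pos (fun _ _ => Real.exp_pos _) Finset.univ_nonempty
  rw [← Real.le_log_iff_exp_le hS]
  have h1 : ∀ φ, 0 ≤ Real.log (∑ φ, Real.exp (2 * U.lv u φ)) - 2 * U.lv u φ := fun φ =>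
    sub_nonneg.2 ((Real.le_log_iff_exp_le hS).2 (Finset.single_le_sum
      (f := fun φ => Real.exp (2 * U.lv u φ)) (fun _ _ => (Real.exp_pos _).le) (Finset.mem_univ φ)))
  generalize Real.log (∑ φ, Real.exp (2 * U.lv u φ)) = L at h1 ⊢
  have h2 : ∑ φ, (L - 2 * U.lv u φ) = (U.m + 1) * L := by
    rw [Finset.sum_sub_distrib, ← Finset.mul_sum, sum_lv U K, Finset.sum_const, Finset.card_univ,
      card_eq U]
    simp
  have h3 : 0 ≤ (U.m + 1 : ℝ) * L := h2 ▸ Finset.sum_nonneg fun φ _ => h1 φ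
  have hm : (0 : ℝ) < U.m + 1 := by positivity
  have h4 : 0 ≤ L := nonneg_of_mul_nonneg_right h3 hm |> fun h => by nlinarith
  have h5 : ‖U.lv u‖ ≤ (U.m + 1) * L := by
    refine (pi_norm_le_iff_of_nonneg h3).2 fun φ => abs_le.2 ⟨?_, ?_⟩
    · have := Finset.single_le_sum (fun φ _ => h1 φ) (Finset.mem_univ φ)
      rw [h2] at this
      linarith
    · nlinarith [h1 φ, Nat.cast_nonneg (α := ℝ) U.m]
  rw [div_le_iff₀' hm]
  linarith [U.norm_le_lv u, norm_nonneg (U.lv u)]

/-- the kernel is bounded by every negative power -/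
lemma kk_le (K : BF k) {A : ℝ} (hA : 0 < A) :
    ∃ C : ℝ, 0 ≤ C ∧ ∀ x : ℝ, 0 < x → kk U x ≤ C * x ^ (-A) := by
  have hm : (0 : ℝ) < U.m + 1 := by positivity
  set B : ℝ := (U.m + 1) * A with hB
  have hB0 : 0 < B := by positivity
  refine ⟨B ^ B * ∫ u : Fin U.m → ℝ, Real.exp (-(A / (U.m + 1)) * ∑ j, |u j|),
    mul_nonneg (by positivity) (integral_nonneg fun _ => (Real.exp_pos _).le), fun x hx => ?_⟩
  rw [mul_right_comm, ← integral_const_mul]
  refine integral_mono (integrable_GG U K hx)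
    ((integrable_exp_pi (by positivity)).const_mul _) fun u => ?_
  have h2 : ∑ j, |u j| ≤ (U.m + 1) * ‖u‖ := by
    have := Finset.sum_le_card_nsmul Finset.univ (fun j => |u j|) ‖u‖
      fun j _ => norm_le_pi_norm u j
    simp only [Finset.card_univ, Fintype.card_fin, nsmul_eq_mul] at this
    nlinarith [norm_nonneg u]
  have h3 : 0 < x ^ (1 / (U.m + 1) : ℝ) * Real.exp (‖u‖ / (U.m + 1)) := by positivity
  have h4 : GG U x u ≤ Real.exp (-(x ^ (1 / (U.m + 1) : ℝ) * Real.exp (‖u‖ / (U.m + 1)))) := by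
    simp only [GG, yy, ← Finset.mul_sum]
    rw [Real.exp_le_exp, neg_le_neg_iff]
    have := mul_le_mul_of_nonneg_left (exp_le_sum U K u)
      (Real.rpow_nonneg hx.le (1 / (U.m + 1) : ℝ))
    nlinarith [Real.pi_gt_three]
  refine h4.trans ((exp_neg_le h3 hB0).trans ?_)
  rw [Real.mul_rpow (Real.rpow_nonneg hx.le _) (Real.exp_pos _).le, ← Real.rpow_mul hx.le, ← Real.exp_mul,
    ← mul_assoc, show 1 / (U.m + 1 : ℝ) * -B = -A by rw [hB]; field_simp]
  refine mul_le_mul_of_nonneg_left (Real.exp_le_exp.2 ?_) (by positivity)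
  rw [show ‖u‖ / (U.m + 1 : ℝ) * -B = -(A / (U.m + 1)) * ((U.m + 1) * ‖u‖) by rw [hB]; field_simp]
  exact mul_le_mul_of_nonpos_left h2 (neg_nonpos.2 (by positivity))

lemma continuousOn_kk (K : BF k) : ContinuousOn (kk U) (Ioi 0) := by
  intro x hx
  have hx' : 0 < x / 2 := half_pos hx
  refine (continuousAt_of_dominated (bound := GG U (x / 2))
    (Eventually.of_forall fun y => (continuous_GG U y).aestronglyMeasurable) ?_
    (integrable_GG U K hx') (Eventually.of_forall fun u => ?_)).continuousWithinAt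
  · filter_upwards [lt_mem_nhds (half_lt_self hx)] with y hy
    exact Eventually.of_forall fun u =>
      (Real.norm_of_nonneg (Real.exp_pos _).le).trans_le (GG_anti U hx'.le hy.le u)
  · have : ContinuousAt (fun y : ℝ => y ^ (1 / (U.m + 1) : ℝ)) x :=
      Real.continuousAt_rpow_const _ _ (Or.inl (ne_of_gt hx))
    unfold GG yy
    fun_prop

/-- the Mellin transform of the kernel -/
theorem mellin_kk (K : BF k) : ∃ c : ℝ, 0 < c ∧ ∀ s : ℂ, 0 < s.re →
    mellin (fun x => (kk U x : ℂ)) s =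
      c * ((1 / (2 * Real.pi : ℝ)) ^ s * Complex.Gamma s) ^ (U.m + 1) := by
  have hm : (0 : ℝ) < U.m + 1 := by positivity
  let A : (ℝ × (Fin U.m → ℝ)) →ₗ[ℝ] (Emb k E → ℝ) :=
    { toFun := fun p φ => p.1 / (U.m + 1) + 2 * U.lv p.2 φ
      map_add' := fun p q => by
        funext φ
        simp only [Prod.fst_add, Prod.snd_add, U.lv_add, Pi.add_apply]
        ring
      map_smul' := fun a p => by
        funext φ
        simp only [Prod.smul_fst, Prod.smul_snd, UB.lv, Finset.sum_apply, Pi.smul_apply,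
          smul_eq_mul, RingHom.id_apply, mul_assoc, ← Finset.mul_sum]
        ring }
  have hsum : ∀ p, ∑ φ, A p φ = p.1 := fun p => by
    show ∑ φ, (p.1 / (U.m + 1) + 2 * U.lv p.2 φ) = _
    rw [Finset.sum_add_distrib, ← Finset.mul_sum, sum_lv U K, Finset.sum_const, Finset.card_univ,
      card_eq U, nsmul_eq_mul]
    push_cast
    field_simp
    ring
  have hinj : Function.Injective A := by
    refine (injective_iff_map_eq_zero _).2 fun p hp => ?_
    have h1 : p.1 = 0 := by rw [← hsum, hp]; simp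
    have h2 : U.lv p.2 = 0 := funext fun φ => by
      have : p.1 / (U.m + 1) + 2 * U.lv p.2 φ = 0 := congrFun hp φ
      simpa [h1] using this
    exact Prod.ext h1 (by rw [← U.co_lv p.2, h2, map_zero]; rfl)
  let L := (LinearMap.linearEquivOfInjective A hinj (by
    simp [card_eq U, add_comm])).toContinuousLinearEquiv
  have : (volume : Measure (ℝ × (Fin U.m → ℝ))).IsAddHaarMeasure :=
    Measure.prod.instIsAddHaarMeasure _ _
  have hH : ((volume : Measure (ℝ × (Fin U.m → ℝ))).map L).IsAddHaarMeasure :=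
    L.isAddHaarMeasure_map _
  set c := Measure.addHaarScalarFactor ((volume : Measure (ℝ × (Fin U.m → ℝ))).map L)
    (volume : Measure (Emb k E → ℝ)) with hc
  have hμ : (volume : Measure (ℝ × (Fin U.m → ℝ))).map L = c • (volume : Measure (Emb k E → ℝ)) :=
    Measure.isAddLeftInvariant_eq_smul _ _
  have hL : MeasurableEmbedding L := L.toHomeomorph.measurableEmbedding
  refine ⟨c, Measure.addHaarScalarFactor_pos_of_isAddHaarMeasure _ _, fun s hs => ?_⟩
  let g : ℝ → ℂ := fun w => Complex.exp (s * w) * (Real.exp (-(2 * Real.pi * Real.exp w)) : ℝ)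
  have hg : Integrable g := Integrable.of_integral_ne_zero (integral_gam hs ▸ gam_ne hs)
  have hF : ∀ p : ℝ × (Fin U.m → ℝ), ∏ φ, g (L p φ) =
      Complex.exp (s * p.1) * GG U (Real.exp p.1) p.2 := by
    intro p
    show ∏ φ, g (A p φ) = _
    simp only [g, Finset.prod_mul_distrib, ← Complex.exp_sum, ← Finset.mul_sum,
      ← Complex.ofReal_sum, hsum, ← Complex.ofReal_prod, ← Real.exp_sum, Finset.sum_neg_distrib, GG]
    congr 6
    funext φ
    show Real.exp (p.1 / (U.m + 1) + 2 * U.lv p.2 φ) = _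
    rw [yy, ← Real.exp_mul, Real.exp_add, mul_one_div]
  have h1 : Integrable (fun w : Emb k E → ℝ => ∏ φ, g (w φ)) (volume.map L) := by
    rw [hμ]
    exact (Integrable.fintype_prod (f := fun _ => g) fun _ => hg).smul_measure_nnreal
  have h2 := hL.integral_map (μ := volume) fun w : Emb k E → ℝ => ∏ φ, g (w φ)
  rw [hL.integrable_map_iff] at h1
  rw [hμ, integral_smul_nnreal_measure, integral_fintype_prod_volume_eq_pow, card_eq U,
    Measure.volume_eq_prod, integral_prod (fun p => ∏ φ, g (L p φ)) h1] at h2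
  simp only [hF, integral_const_mul, integral_complex_ofReal] at h2
  rw [mellin_eq_exp, ← integral_gam hs]
  exact h2.symm

end

end Pool.Agent.P.MP_b8021b_nt.PoiN
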