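import Mathlib

/-!
Mean values of periodic functions on the ring of integers.
-/

namespace Pool.Agent.P.MP_b8021b_nt.PoiN

open NumberField

noncomputable section

variable {E : Type} [Field E] [NumberField E]

/-- `g` is periodic modulo the ideal `I` -/
def Per (I : Ideal (𝓞 E)) (g : 𝓞 E → ℂ) : Prop := ∀ x y, x - y ∈ I → g x = g y

/-- the mean value over the residue classes modulo `I` -/
def av (I : Ideal (𝓞 E)) (g : 𝓞 E → ℂ) : ℂ :=
  (∑ᶠ q : 𝓞 E ⧸ I, g q.out) / (Ideal.absNorm I : ℂ)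

omit [NumberField E] in
lemma Per.mono {I I' : Ideal (𝓞 E)} {g : 𝓞 E → ℂ} (h : Per I g) (hI : I' ≤ I) : Per I' g :=
  fun x y hxy => h x y (hI hxy)

omit [NumberField E] in
lemma Per.mul {I : Ideal (𝓞 E)} {g g' : 𝓞 E → ℂ} (h : Per I g) (h' : Per I g') :
    Per I fun x => g x * g' x := fun x y hxy => by simp only [h x y hxy, h' x y hxy]

omit [NumberField E] in
lemma Per.affine {I : Ideal (𝓞 E)} {g : 𝓞 E → ℂ} (h : Per I g) (u t : 𝓞 E) :
    Per I fun x => g (u * x + t) := fun x y hxy =>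
  h _ _ (by rw [add_sub_add_right_eq_sub, ← mul_sub]; exact I.mul_mem_left _ hxy)

omit [NumberField E] in
lemma out_mk (I : Ideal (𝓞 E)) (x : 𝓞 E) : (Ideal.Quotient.mk I x).out - x ∈ I :=
  Ideal.Quotient.eq.1 (Ideal.Quotient.mk_out _)

lemma finq {I : Ideal (𝓞 E)} (hI : I ≠ ⊥) : Finite (𝓞 E ⧸ I) :=
  Ideal.finiteQuotientOfFreeOfNeBot I hI

lemma nm_ne {I : Ideal (𝓞 E)} (hI : I ≠ ⊥) : (Ideal.absNorm I : ℂ) ≠ 0 := by
  exact_mod_cast Ideal.absNorm_eq_zero_iff.not.2 hI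

lemma card_quot (I : Ideal (𝓞 E)) [Fintype (𝓞 E ⧸ I)] :
    Fintype.card (𝓞 E ⧸ I) = Ideal.absNorm I := by
  rw [Ideal.absNorm_apply, Submodule.cardQuot_apply, Nat.card_eq_fintype_card]

lemma av_congr {I : Ideal (𝓞 E)} {g g' : 𝓞 E → ℂ} (h : ∀ x, g x = g' x) : av I g = av I g' := by
  rw [funext h]

lemma av_const_mul (I : Ideal (𝓞 E)) (c : ℂ) (g : 𝓞 E → ℂ) :
    av I (fun x => c * g x) = c * av I g := by
  unfold av
  rw [← mul_finsum, mul_div_assoc]

lemma av_const {I : Ideal (𝓞 E)} (hI : I ≠ ⊥) (c : ℂ) : av I (fun _ => c) = c := by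
  have := finq hI
  have := Fintype.ofFinite (𝓞 E ⧸ I)
  unfold av
  rw [finsum_eq_sum_of_fintype, Finset.sum_const, Finset.card_univ, card_quot, nsmul_eq_mul,
    mul_div_cancel_left₀ _ (nm_ne hI)]

lemma av_sum {I : Ideal (𝓞 E)} (hI : I ≠ ⊥) {α : Type} (s : Finset α) (g : α → 𝓞 E → ℂ) :
    av I (fun x => ∑ i ∈ s, g i x) = ∑ i ∈ s, av I (g i) := by
  have := finq hI
  have := Fintype.ofFinite (𝓞 E ⧸ I)
  unfold av
  simp only [finsum_eq_sum_of_fintype]
  rw [Finset.sum_comm, Finset.sum_div]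

lemma norm_av_le {I : Ideal (𝓞 E)} (hI : I ≠ ⊥) {g : 𝓞 E → ℂ} {B : ℝ} (h : ∀ x, ‖g x‖ ≤ B) :
    ‖av I g‖ ≤ B := by
  have := finq hI
  have := Fintype.ofFinite (𝓞 E ⧸ I)
  have h0 : (0 : ℝ) < Ideal.absNorm I := by
    exact_mod_cast Nat.pos_of_ne_zero (Ideal.absNorm_eq_zero_iff.not.2 hI)
  unfold av
  rw [finsum_eq_sum_of_fintype, norm_div, Complex.norm_natCast, div_le_iff₀ h0]
  refine (norm_sum_le _ _).trans ((Finset.sum_le_card_nsmul _ _ B fun q _ => h _).trans ?_)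
  rw [Finset.card_univ, card_quot, nsmul_eq_mul, mul_comm]

/-- invariance under `x ↦ u * x + t` for `u` invertible modulo `I` -/
lemma av_affine {I : Ideal (𝓞 E)} {g : 𝓞 E → ℂ} (h : Per I g) {u u' : 𝓞 E}
    (hu : u * u' - 1 ∈ I) (t : 𝓞 E) : av I (fun x => g (u * x + t)) = av I g := by
  have h1 : Ideal.Quotient.mk I u * Ideal.Quotient.mk I u' = 1 := by
    rw [← map_mul, ← map_one (Ideal.Quotient.mk I)]; exact Ideal.Quotient.eq.2 hu
  let e : (𝓞 E ⧸ I) ≃ (𝓞 E ⧸ I) :=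
    { toFun := fun q => Ideal.Quotient.mk I u * q + Ideal.Quotient.mk I t
      invFun := fun q => Ideal.Quotient.mk I u' * (q - Ideal.Quotient.mk I t)
      left_inv := fun q => by linear_combination q * h1
      right_inv := fun q => by linear_combination (q - Ideal.Quotient.mk I t) * h1 }
  unfold av
  rw [← finsum_comp_equiv e (f := fun q => g q.out)]
  congr 1
  refine finsum_congr fun q => h _ _ (Ideal.Quotient.eq.1 ?_)
  rw [map_add, map_mul, Ideal.Quotient.mk_out, Ideal.Quotient.mk_out]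
  rfl

lemma av_add_right {I : Ideal (𝓞 E)} {g : 𝓞 E → ℂ} (h : Per I g) (t : 𝓞 E) :
    av I (fun x => g (x + t)) = av I g := by
  simpa using av_affine h (u := 1) (u' := 1) (by simp) t

/-- the mean vanishes if an affine substitution multiplies the function by a scalar `≠ 1` -/
lemma av_eq_zero {I : Ideal (𝓞 E)} {g : 𝓞 E → ℂ} (h : Per I g) {u u' : 𝓞 E}
    (hu : u * u' - 1 ∈ I) (t : 𝓞 E) {c : ℂ} (hc : c ≠ 1) (hg : ∀ x, g (u * x + t) = c * g x) :
    av I g = 0 := by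
  have h1 := av_affine h hu t
  rw [av_congr hg, av_const_mul] at h1
  have h2 : (c - 1) * av I g = 0 := by linear_combination h1
  exact (mul_eq_zero.1 h2).resolve_left (sub_ne_zero.2 hc)

/-- the mean does not depend on the period -/
lemma av_le {I I' : Ideal (𝓞 E)} (hI' : I' ≠ ⊥) (hI : I' ≤ I) {g : 𝓞 E → ℂ} (h : Per I g) :
    av I' g = av I g := by
  classical
  have hI0 : I ≠ ⊥ := fun h0 => hI' (le_bot_iff.1 (h0 ▸ hI))
  have := finq hI'
  have := finq hI0
  have := Fintype.ofFinite (𝓞 E ⧸ I)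
  have := Fintype.ofFinite (𝓞 E ⧸ I')
  let π : (𝓞 E ⧸ I') →+ (𝓞 E ⧸ I) := (Ideal.Quotient.factor hI).toAddMonoidHom
  have hπ : Function.Surjective π := Ideal.Quotient.factor_surjective hI
  have hfib : ∀ q : 𝓞 E ⧸ I, (Finset.univ.filter fun q' => π q' = q).card =
      (Finset.univ.filter fun q' => π q' = 0).card := fun q =>
    AddMonoidHom.card_fiber_eq_of_mem_range π (hπ q) (hπ 0)
  have key : ∀ G : 𝓞 E ⧸ I → ℂ, ∑ q' : 𝓞 E ⧸ I', G (π q') =
      (Finset.univ.filter fun q' => π q' = 0).card * ∑ q, G q := by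
    intro G
    rw [← Finset.sum_fiberwise_of_maps_to (s := Finset.univ) (t := Finset.univ) (g := π)
      (fun _ _ => Finset.mem_univ _), Finset.mul_sum]
    refine Finset.sum_congr rfl fun q _ => ?_
    rw [Finset.sum_congr rfl fun q' hq' => congrArg G (Finset.mem_filter.1 hq').2,
      Finset.sum_const, hfib, nsmul_eq_mul]
  have h1 := key fun _ => 1
  simp only [Finset.sum_const, Finset.card_univ, card_quot, nsmul_eq_mul, mul_one] at h1
  have h2 : ∀ q' : 𝓞 E ⧸ I', g q'.out = g (π q').out := fun q' => h _ _ (Ideal.Quotient.eq.1 (by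
    rw [Ideal.Quotient.mk_out]
    conv_rhs => rw [← Ideal.Quotient.mk_out q']
    rfl))
  unfold av
  rw [finsum_eq_sum_of_fintype, finsum_eq_sum_of_fintype, Finset.sum_congr rfl fun q' _ => h2 q',
    key fun q => g q.out, div_eq_div_iff (nm_ne hI') (nm_ne hI0), h1]
  ring

/-- Chinese remainder theorem for means -/
lemma av_crt {I I' : Ideal (𝓞 E)} (hI : I ≠ ⊥) (hI' : I' ≠ ⊥) (hc : IsCoprime I I')
    {g g' : 𝓞 E → ℂ} (h : Per I g) (h' : Per I' g') :
    av (I * I') (fun x => g x * g' x) = av I g * av I' g' := by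
  have := finq hI
  have := finq hI'
  have := finq (mul_ne_zero hI hI')
  have := Fintype.ofFinite (𝓞 E ⧸ I)
  have := Fintype.ofFinite (𝓞 E ⧸ I')
  have := Fintype.ofFinite (𝓞 E ⧸ I * I')
  unfold av
  simp only [finsum_eq_sum_of_fintype]
  rw [div_mul_div_comm, map_mul, Nat.cast_mul, Finset.sum_mul_sum, ← Fintype.sum_prod_type']
  congr 1
  refine Fintype.sum_equiv (Ideal.quotientMulEquivQuotientProd I I' hc).toEquiv _ _ fun q => ?_
  obtain ⟨x, rfl⟩ := Ideal.Quotient.mk_surjective q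
  have h1 := out_mk (I * I') x
  rw [h _ _ (Ideal.mul_le_left h1), h' _ _ (Ideal.mul_le_right h1)]
  simp only [RingEquiv.toEquiv_eq_coe, EquivLike.coe_coe, Ideal.quotientMulEquivQuotientProd_fst,
    Ideal.quotientMulEquivQuotientProd_snd, Ideal.Quotient.factor_mk]
  rw [h _ _ (out_mk I x), h' _ _ (out_mk I' x)]

end

end Pool.Agent.P.MP_b8021b_nt.PoiN
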