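import Pool.Agent.P.MP_b8021b_nt.BS.PoiG
import Pool.Agent.P.MP_b8021b_nt.BS.PoiAv
import Pool.Agent.P.MP_b8021b_nt.VC.GD

/-!
Poisson summation on the ring of integers of a field over an imaginary quadratic field.
-/

namespace Pool.Agent.P.MP_b8021b_nt.PoiN

open MeasureTheory NumberField Complex Pool.Agent.P.MP_b8021b_nt.VC
open scoped Classical ComplexConjugate

noncomputable section

lemma ee_eq_one {t : ℝ} (h : ee t = 1) : ∃ m : ℤ, t = m := by
  obtain ⟨m, hm⟩ := Complex.exp_eq_one_iff.1 h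
  refine ⟨m, ?_⟩
  have h0 : (2 * Real.pi * I : ℂ) ≠ 0 := two_pi_I_ne_zero
  have : (t : ℂ) = m := mul_left_cancel₀ h0 (by rw [hm]; ring)
  exact_mod_cast this

section Scale

variable {J : Type} [Fintype J]

lemma Gau_mul (a : ℕ) (y : J → ℝ) (m z : J → ℂ) :
    Gau a y (m * z) = (∏ φ, m φ ^ a) * Gau a (fun φ => y φ * ‖m φ‖ ^ 2) z := by
  rw [Gau, Gau, ← Finset.prod_mul_distrib]
  refine Finset.prod_congr rfl fun φ _ => ?_
  rw [gau, gau, Pi.mul_apply, norm_mul, mul_pow, mul_pow, mul_assoc]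
  congr 4
  ring

lemma Gauh_mul (a : ℕ) {y : J → ℝ} (hy : ∀ φ, 0 < y φ) {m : J → ℂ} (hm : ∀ φ, m φ ≠ 0)
    (κ : J → ℂ) : (∏ φ, m φ ^ a) * Gauh a (fun φ => y φ * ‖m φ‖ ^ 2) κ =
      Gauh a y (κ / m) / (nz m : ℝ) := by
  rw [Gauh, Gauh, nz, ← Finset.prod_mul_distrib, ofReal_prod, ← Finset.prod_div_distrib]
  refine Finset.prod_congr rfl fun φ _ => ?_
  have h1 : (y φ : ℂ) ≠ 0 := by exact_mod_cast (hy φ).ne'
  have h2 := hm φ
  have h3 : conj (m φ) ≠ 0 := by simpa using h2
  have h4 : ((‖m φ‖ ^ 2 : ℝ) : ℂ) = m φ * conj (m φ) := by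
    rw [mul_conj, normSq_eq_norm_sq]
  rw [gauh, gauh, Pi.div_apply, norm_div, div_pow ‖κ φ‖, ofReal_mul, h4, map_div₀,
    show 2 * Real.pi * (‖κ φ‖ ^ 2 / ‖m φ‖ ^ 2) / y φ = 2 * Real.pi * ‖κ φ‖ ^ 2 /
      (y φ * ‖m φ‖ ^ 2) by ring, ← mul_assoc, ← mul_assoc, ← mul_pow,
    show m φ * (-I * conj (κ φ) / (y φ * (m φ * conj (m φ)))) =
      -I * (conj (κ φ) / conj (m φ)) / y φ by field_simp]
  field_simp

/-- Poisson summation for a pair of dual bases -/
theorem poissonV {ι : Type} [Fintype ι] (v w : ι → J → ℂ)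
    (hc : Fintype.card ι = 2 * Fintype.card J)
    (hB : ∀ i j, BB (v i) (w j) = if i = j then 1 else 0) :
    ∃ L D : (ι → ℝ) ≃L[ℝ] (J → ℂ), (∀ x, L x = ∑ i, x i • v i) ∧ (∀ x, D x = ∑ i, x i • w i) ∧
      ∀ x u, BB (L x) (D u) = ∑ i, u i * x i := by
  have key : ∀ x u : ι → ℝ, BB (Fintype.linearCombination ℝ v x)
      (Fintype.linearCombination ℝ w u) = ∑ i, u i * x i := by
    intro x u
    have : ∑ i, u i * x i = ∑ i, ∑ j, x i * u j * BB (v i) (w j) := by
      simp [hB, mul_comm]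
    rw [this]
    simp only [BB, Fintype.linearCombination_apply, Finset.sum_apply, Pi.smul_apply,
      Finset.sum_mul_sum, re_sum, smul_mul_smul_comm, smul_re, smul_eq_mul]
    simp only [Finset.mul_sum]
    rw [Finset.sum_comm]
    refine Finset.sum_congr rfl fun i _ => ?_
    rw [Finset.sum_comm]
    exact Finset.sum_congr rfl fun j _ => Finset.sum_congr rfl fun φ _ => by ring
  have hd : Module.finrank ℝ (ι → ℝ) = Module.finrank ℝ (J → ℂ) := by
    rw [Module.finrank_pi, Module.finrank_pi_fintype, finrank_real_complex, hc]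
    simp [mul_comm]
  have h1 : Function.Injective (Fintype.linearCombination ℝ v) := by
    refine (injective_iff_map_eq_zero _).2 fun x hx => funext fun i => ?_
    have := key x (Pi.single i 1)
    rw [hx] at this
    simpa [BB, Pi.single_apply] using this.symm
  have h2 : Function.Injective (Fintype.linearCombination ℝ w) := by
    refine (injective_iff_map_eq_zero _).2 fun x hx => funext fun i => ?_
    have := key (Pi.single i 1) x
    rw [hx] at this
    simpa [BB, Pi.single_apply] using this.symm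
  exact ⟨(LinearMap.linearEquivOfInjective _ h1 hd).toContinuousLinearEquiv,
    (LinearMap.linearEquivOfInjective _ h2 hd).toContinuousLinearEquiv,
    fun x => Fintype.linearCombination_apply _ _ _, fun x => Fintype.linearCombination_apply _ _ _,
    key⟩

end Scale

variable {E : Type} [Field E] [NumberField E]

/-- the absolute trace as a real number -/
def tr (x : E) : ℝ := ((Algebra.trace ℚ E x : ℚ) : ℝ)

/-- `κ` lies in the inverse different -/
def Dual (κ : E) : Prop := ∀ w : 𝓞 E, ∃ m : ℤ, tr (κ * w) = m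

lemma tr_add (x y : E) : tr (x + y) = tr x + tr y := by simp [tr]

lemma dual_int (ν : 𝓞 E) : Dual (ν : E) := fun w =>
  ⟨Algebra.intTrace ℤ (𝓞 E) (ν * w), by
    have := Algebra.algebraMap_intTrace (A := ℤ) (K := ℚ) (L := E) (B := 𝓞 E) (ν * w)
    rw [map_mul (algebraMap (𝓞 E) E)] at this
    rw [tr, ← this]
    simp⟩

lemma Dual.ee_eq {κ : E} (h : Dual κ) (w : 𝓞 E) : ee (tr (κ * w)) = 1 := by
  obtain ⟨m, hm⟩ := h w
  rw [hm, ee_int]

/-- the additive character `x ↦ e(tr (κ x / M))` is periodic modulo `M` -/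
lemma Dual.per {κ : E} (h : Dual κ) {M : 𝓞 E} (hM : M ≠ 0) :
    Per (Ideal.span {M}) fun x => ee (tr (κ * x / M)) := by
  intro x y hxy
  obtain ⟨w, hw⟩ := Ideal.mem_span_singleton.1 hxy
  have h0 : (M : E) ≠ 0 := by exact_mod_cast hM
  have h1 : (x : E) = y + M * w := by
    rw [← sub_eq_iff_eq_add']
    exact_mod_cast hw
  simp only
  rw [h1, show κ * (y + M * w) / M = κ * y / M + κ * w by field_simp, tr_add, ee_add, h.ee_eq,
    mul_one]

/-- the coordinates of the inverse different -/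
def dualEquiv : (Module.Free.ChooseBasisIndex ℤ (𝓞 E) → ℤ) ≃ {κ : E // Dual κ} :=
  Equiv.ofBijective (fun z => ⟨∑ i, (z i : ℚ) • (integralBasis E).traceDual i, fun w => by
    refine ⟨∑ i, z i * (RingOfIntegers.basis E).repr w i, ?_⟩
    simp only [tr, Finset.sum_mul, map_sum, smul_mul_assoc, map_smul, smul_eq_mul]
    push_cast
    refine Finset.sum_congr rfl fun i _ => ?_
    congr 1
    have h1 := (integralBasis E).traceDual.traceDual_repr_apply (w : E) i
    rw [Module.Basis.traceDual_traceDual, Algebra.traceForm_apply, integralBasis_repr_apply] at h1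
    rw [mul_comm, ← h1]
    simp⟩) ⟨fun z z' h => by
      have h1 := (integralBasis E).traceDual.equivFun.symm.injective (a₁ := fun i => (z i : ℚ))
        (a₂ := fun i => (z' i : ℚ)) (by
          simpa only [Module.Basis.equivFun_symm_apply] using congrArg Subtype.val h)
      exact funext fun i => by exact_mod_cast congrFun h1 i,
    fun κ => by
      choose m hm using κ.2
      refine ⟨fun i => m (RingOfIntegers.basis E i), Subtype.ext ?_⟩
      conv_rhs => rw [← (integralBasis E).traceDual.sum_repr κ.1]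
      refine Finset.sum_congr rfl fun i _ => ?_
      congr 1
      rw [Module.Basis.traceDual_repr_apply, Algebra.traceForm_apply, integralBasis_apply]
      have := hm (RingOfIntegers.basis E i)
      rw [tr] at this
      exact_mod_cast this.symm⟩

/-- some positive integer carries the inverse different into the ring of integers -/
lemma exists_dual (E : Type) [Field E] [NumberField E] :
    ∃ n : ℕ, 0 < n ∧ ∀ κ : E, Dual κ → ∃ ν : 𝓞 E, (ν : E) = n * κ := by
  have h : ∀ i, ∃ (c : ℕ) (a : 𝓞 E), 0 < c ∧ (a : E) = c * (integralBasis E).traceDual i := by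
    intro i
    have h1 : IsAlgebraic ℤ ((integralBasis E).traceDual i) :=
      (IsFractionRing.isAlgebraic_iff ℤ ℚ E).2 (Algebra.IsAlgebraic.isAlgebraic _)
    obtain ⟨c, hc, h2⟩ := h1.exists_integral_multiple
    refine ⟨c.natAbs ^ 2, ⟨_, h2.zsmul c⟩, by positivity, ?_⟩
    show c • c • (integralBasis E).traceDual i = _
    rw [← Int.cast_natCast, Nat.cast_pow, Int.natAbs_sq, smul_smul, zsmul_eq_mul, sq]
  choose c a hc ha using h
  refine ⟨∏ i, c i, Finset.prod_pos fun i _ => hc i, fun κ hκ => ?_⟩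
  obtain ⟨z, hz⟩ := dualEquiv.surjective ⟨κ, hκ⟩
  have h1 : ∑ i, (z i : ℚ) • (integralBasis E).traceDual i = κ := congrArg Subtype.val hz
  refine ⟨∑ i, z i * (∏ j ∈ Finset.univ.erase i, c j : ℕ) * a i, ?_⟩
  rw [← h1, Finset.mul_sum]
  simp only [map_sum, map_mul, map_intCast, map_natCast]
  refine Finset.sum_congr rfl fun i _ => ?_
  rw [← Finset.mul_prod_erase _ _ (Finset.mem_univ i), Rat.smul_def]
  have := ha i
  push_cast
  linear_combination ((z i : E) * ∏ j ∈ Finset.univ.erase i, (c j : E)) * this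

variable (k : Type) [Field k] [NumberField k] [Algebra k ℂ] [Algebra k E]

/-- the embedding of the field -/
def embE (a : E) : Emb k E → ℂ := fun φ => φ a

variable {k}

lemma tr_k (K : BF k) (x : k) : tr x = 2 * (algebraMap k ℂ x).re := by
  let a : k →ₐ[ℚ] ℂ := (algebraMap k ℂ).toRatAlgHom
  let b : k →ₐ[ℚ] ℂ := ((starRingEnd ℂ).comp (algebraMap k ℂ)).toRatAlgHom
  have hab : a ≠ b := fun h => by
    have h1 : algebraMap k ℂ K.ω = conj (algebraMap k ℂ K.ω) := DFunLike.congr_fun h (K.ω : k)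
    exact Geo.om_im K (Complex.conj_eq_iff_im.1 h1.symm)
  have hu : (Finset.univ : Finset (k →ₐ[ℚ] ℂ)) = {a, b} := by
    symm
    apply Finset.eq_univ_of_card
    rw [Finset.card_pair hab, AlgHom.card, K.deg]
  have h := trace_eq_sum_embeddings ℂ (K := ℚ) (x := x)
  rw [hu, Finset.sum_pair hab] at h
  have h2 := congrArg re h
  have h3 : (b x).re = (algebraMap k ℂ x).re := conj_re _
  rw [add_re, h3, eq_ratCast, ratCast_re] at h2
  rw [tr, h2, two_mul]
  rfl

lemma BB_embE (K : BF k) (a b : E) : BB (embE k a) (embE k b) = tr (a * b) := by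
  have h := tr_k K (Algebra.trace k E (a * b))
  rw [trace_eq_sum_embeddings ℂ, re_sum, Finset.mul_sum, tr, Algebra.trace_trace] at h
  rw [tr, h]
  simp only [BB, embE, map_mul]

/-- Poisson summation on the ring of integers -/
theorem poissonO (K : BF k) (E : Type) [Field E] [NumberField E] [Algebra k E] :
    ∃ c : ℝ, c * cov2 k E = 1 ∧ ∀ Φ Φh : (Emb k E → ℂ) → ℂ, Continuous Φ → Dec Φ → Dec Φh →
      (∀ κ, ∫ z, Φ z * ee (-BB z κ) = Φh κ) → ∀ ξ : E,
      (Summable fun w : 𝓞 E => Φ (embE k (w + ξ))) ∧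
      HasSum (fun κ : {κ : E // Dual κ} => c * (Φh (embE k κ.1) * ee (tr (ξ * κ.1))))
        (∑' w : 𝓞 E, Φ (embE k (w + ξ))) := by
  obtain ⟨L, D, hL, hD, hB⟩ := poissonV (fun i => embE k (integralBasis E i))
    (fun i => embE k ((integralBasis E).traceDual i)) (by
      rw [← Module.finrank_eq_card_basis (integralBasis E), Geo.card_emb, ← K.deg,
        Module.finrank_mul_finrank]) (fun i j => by
      rw [BB_embE K, tr, Module.Basis.trace_mul_traceDual]
      split_ifs <;> simp)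
  obtain ⟨c, hc, h⟩ := poissonL L D hB
  refine ⟨c, ?_, fun Φ Φh h1 h2 h3 h4 ξ => ?_⟩
  · let b := (Pi.basisFun ℝ _).map L.toLinearEquiv
    have hb : ∀ i, b i = emb k (RingOfIntegers.basis E i) := fun i => by
      simp [b, hL, integralBasis_apply, Pi.single_apply]
      rfl
    have hl : lat k (⊤ : Ideal (𝓞 E)) = Submodule.span ℤ (Set.range b) := by
      refine le_antisymm (Submodule.span_le.2 ?_) (Submodule.span_mono ?_)
      · rintro _ ⟨a, -, rfl⟩
        have : emb k a = ∑ i, (RingOfIntegers.basis E).repr a i • b i := by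
          conv_lhs => rw [← (RingOfIntegers.basis E).sum_repr a]
          funext φ
          simp [hb, emb]
        rw [this]
        exact Submodule.sum_mem _ fun i _ =>
          Submodule.smul_mem _ _ (Submodule.subset_span ⟨i, rfl⟩)
      · rintro _ ⟨i, rfl⟩
        exact ⟨_, trivial, (hb i).symm⟩
    rw [cov2, hl, ZLattice.covolume_eq_measure_fundamentalDomain _ _
      (ZSpan.isAddFundamentalDomain b volume), ← hc, ← ZSpan.map_fundamentalDomain]
    erw [Set.preimage_image_eq _ L.injective]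
    rw [ZSpan.fundamentalDomain_pi_basisFun, Measure.real, Real.volume_pi_Ico]
    simp
  let e := (RingOfIntegers.basis E).equivFun.symm.toEquiv
  have he : ∀ z, embE k ((e z : 𝓞 E) + ξ) = L (fun i => z i) + embE k ξ := by
    intro z
    funext φ
    simp [e, hL, embE, integralBasis_apply]
  have hd : ∀ z, embE k (dualEquiv z : {κ : E // Dual κ}).1 = D fun i => z i := by
    intro z
    funext φ
    simp [dualEquiv, hD, embE, Rat.smul_def]
  refine ⟨e.summable_iff.1 ?_, dualEquiv.hasSum_iff.1 ?_⟩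
  · simpa only [Function.comp_def, he] using h2.summable L (embE k ξ)
  · rw [← e.tsum_eq]
    simpa only [Function.comp_def, he, hd, ← BB_embE K] using h Φ Φh h1 h2 h3 h4 (embE k ξ)

omit [NumberField E] in
/-- residue classes and quotients -/
def resEquiv {M : 𝓞 E} (hM : M ≠ 0) : (𝓞 E ⧸ Ideal.span {M}) × 𝓞 E ≃ 𝓞 E :=
  Equiv.ofBijective (fun p => p.1.out + M * p.2) ⟨fun p p' h => by
    have h : p.1.out + M * p.2 = p'.1.out + M * p'.2 := h
    have h1 : p.1 = p'.1 := by
      rw [← Ideal.Quotient.mk_out p.1, ← Ideal.Quotient.mk_out p'.1, Ideal.Quotient.eq]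
      exact Ideal.mem_span_singleton.2 ⟨p'.2 - p.2, by linear_combination h⟩
    rw [h1] at h
    exact Prod.ext h1 (mul_left_cancel₀ hM (add_left_cancel h)), fun x => by
    obtain ⟨w, hw⟩ := Ideal.mem_span_singleton.1 (out_mk (Ideal.span {M}) x)
    exact ⟨(Ideal.Quotient.mk _ x, -w), by linear_combination hw⟩⟩

omit [NumberField E] in
lemma tsum_res {M : 𝓞 E} (hM : M ≠ 0) [Fintype (𝓞 E ⧸ Ideal.span {M})] {G : 𝓞 E → ℂ}
    (hs : Summable G) :
    ∑' x, G x = ∑ q : 𝓞 E ⧸ Ideal.span {M}, ∑' w : 𝓞 E, G (q.out + M * w) := by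
  have hs' : Summable (G ∘ resEquiv hM) := (resEquiv hM).summable_iff.2 hs
  rw [← (resEquiv hM).tsum_eq, ← tsum_fintype (L := .unconditional _)]
  exact hs'.tsum_prod

/-- Poisson summation for a function periodic modulo `N` times a Gaussian -/
theorem poisson_prin (K : BF k) (E : Type) [Field E] [NumberField E] [Algebra k E] :
    ∃ c : ℝ, c * cov2 k E = 1 ∧ ∀ (a : ℕ) (y : Emb k E → ℝ) (N : 𝓞 E) (h : 𝓞 E → ℂ), a ≤ 1 →
      (∀ φ, 0 < y φ) → N ≠ 0 → Per (Ideal.span {N}) h →
      (Summable fun x : 𝓞 E => h x * Gau a y (emb k x)) ∧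
      HasSum (fun κ : {κ : E // Dual κ} => c * (av (Ideal.span {N})
          (fun x => h x * ee (tr (κ.1 * x / N))) * Gauh a y (embE k (κ.1 / N))))
        (∑' x : 𝓞 E, h x * Gau a y (emb k x)) := by
  obtain ⟨c, hc, hP⟩ := poissonO K E
  refine ⟨c, hc, fun a y N h ha hy hM' hh' => ?_⟩
  have hI : Ideal.span {N} ≠ ⊥ := by simpa using hM'
  have := finq hI
  have := Fintype.ofFinite (𝓞 E ⧸ Ideal.span {N})
  have hN0 : (N : E) ≠ 0 := by exact_mod_cast hM'
  have hm : ∀ φ, emb k N φ ≠ 0 := fun φ => (map_ne_zero φ).2 hN0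
  have hy' : ∀ φ, 0 < y φ * ‖emb k N φ‖ ^ 2 := fun φ =>
    mul_pos (hy φ) (pow_pos (norm_pos_iff.2 (hm φ)) 2)
  have h0 := (hP _ _ (continuous_Gau a y) (dec_Gau a hy) (dec_Gauh a hy) (ft_Gau ha hy) 0).1
  have hs : Summable fun x : 𝓞 E => h x * Gau a y (emb k x) := by
    refine Summable.of_norm_bounded (h0.norm.mul_left (∑ q : 𝓞 E ⧸ Ideal.span {N}, ‖h q.out‖))
      fun x => ?_
    rw [norm_mul, add_zero, ← hh' _ _ (out_mk _ x)]
    exact mul_le_mul_of_nonneg_right (Finset.single_le_sum (f := fun q : 𝓞 E ⧸ Ideal.span {N} =>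
      ‖h q.out‖) (fun _ _ => norm_nonneg _) (Finset.mem_univ _)) (norm_nonneg _)
  refine ⟨hs, ?_⟩
  have h1 : ∀ (q : 𝓞 E ⧸ Ideal.span {N}) (w : 𝓞 E), h (q.out + N * w) *
      Gau a y (emb k (q.out + N * w)) = (h q.out * ∏ φ, emb k N φ ^ a) *
      Gau a (fun φ => y φ * ‖emb k N φ‖ ^ 2) (embE k (w + (q.out : 𝓞 E) / N)) := by
    intro q w
    rw [hh' (q.out + N * w) q.out (Ideal.mem_span_singleton.2 ⟨w, by ring⟩), mul_assoc,
      ← Gau_mul]
    congr 2
    funext φ
    simp only [emb, embE, Pi.mul_apply, ← map_mul]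
    congr 1
    push_cast
    field_simp
    ring
  rw [tsum_res hM' hs]
  simp only [h1, tsum_mul_left]
  have h2 := hasSum_sum (s := Finset.univ) fun (q : 𝓞 E ⧸ Ideal.span {N}) _ =>
    (hP _ _ (continuous_Gau a _) (dec_Gau a hy') (dec_Gauh a hy') (ft_Gau ha hy')
      ((q.out : 𝓞 E) / N)).2.mul_left (h q.out * ∏ φ, emb k N φ ^ a)
  have h3 : ∀ κ : {κ : E // Dual κ}, ∑ q : 𝓞 E ⧸ Ideal.span {N},
      (h q.out * ∏ φ, emb k N φ ^ a) * (c * (Gauh a (fun φ => y φ * ‖emb k N φ‖ ^ 2)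
        (embE k κ.1) * ee (tr ((q.out : 𝓞 E) / N * κ.1)))) =
      c * (av (Ideal.span {N}) (fun x => h x * ee (tr (κ.1 * x / N))) *
        Gauh a y (embE k (κ.1 / N))) := by
    intro κ
    have e1 : embE k (κ.1 / N) = embE k κ.1 / emb k N := funext fun φ => map_div₀ φ _ _
    have e2 := Gauh_mul a hy hm (embE k κ.1)
    rw [Geo.nz_emb K, ofReal_natCast] at e2
    rw [av, finsum_eq_sum_of_fintype, e1, div_mul_eq_mul_div, mul_div_assoc, ← e2, Finset.sum_mul,
      Finset.mul_sum]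
    refine Finset.sum_congr rfl fun q _ => ?_
    rw [show ((q.out : 𝓞 E) : E) / N * κ.1 = κ.1 * (q.out : 𝓞 E) / N by ring]
    ring
  simpa only [h3] using h2

/-- `κ` lies in the dual of the ideal `I` -/
def DualI (I : Ideal (𝓞 E)) (κ : E) : Prop := ∀ w ∈ I, ∃ m : ℤ, tr (κ * w) = m

lemma DualI.per {I : Ideal (𝓞 E)} {κ : E} (h : DualI I κ) : Per I fun x => ee (tr (κ * x)) := by
  intro x y hxy
  obtain ⟨m, hm⟩ := h _ hxy
  simp only
  rw [show κ * x = κ * y + κ * (x - y : 𝓞 E) by push_cast; ring, tr_add, ee_add, hm, ee_int,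
    mul_one]

/-- the Fourier coefficient of a function periodic modulo `I` vanishes off the dual of `I` -/
lemma av_eq_zero_of_not_dual {I I' : Ideal (𝓞 E)} {h : 𝓞 E → ℂ} (hh : Per I h) (hI : I' ≤ I)
    {κ : E} (h1 : DualI I' κ) (h2 : ¬ DualI I κ) : av I' (fun x => h x * ee (tr (κ * x))) = 0 := by
  obtain ⟨w, hw⟩ := not_forall.1 h2
  obtain ⟨hw, hw'⟩ := Classical.not_imp.1 hw
  refine av_eq_zero ((hh.mono hI).mul h1.per) (u := 1) (u' := 1) (by simp) w
    (c := ee (tr (κ * w))) (fun h2 => hw' (ee_eq_one h2)) fun x => ?_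
  rw [hh (1 * x + w) x (by simpa using hw), mul_left_comm, ← ee_add, ← tr_add]
  congr 3
  push_cast
  ring

lemma Dual.div {κ : E} (h : Dual κ) {N : 𝓞 E} (hN : N ≠ 0) : DualI (Ideal.span {N}) (κ / N) := by
  intro w hw
  obtain ⟨w, rfl⟩ := Ideal.mem_span_singleton.1 hw
  have h0 : (N : E) ≠ 0 := by exact_mod_cast hN
  rw [show κ / N * (N * w : 𝓞 E) = κ * w by push_cast; field_simp]
  exact h w

lemma DualI.mul {I : Ideal (𝓞 E)} {κ : E} (h : DualI I κ) {N : 𝓞 E} (hN : N ∈ I) :
    Dual (κ * N) := fun w => by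
  simpa only [map_mul, mul_assoc] using h (N * w) (I.mul_mem_right _ hN)

/-- Poisson summation for a function periodic modulo an ideal times a Gaussian, in two forms with
the same constant: dual sum over the dual of the ideal, and dual sum over the ring of integers -/
theorem poisson_per (K : BF k) (E : Type) [Field E] [NumberField E] [Algebra k E] :
    ∃ c : ℝ, c * cov2 k E = 1 ∧ ∀ (a : ℕ) (y : Emb k E → ℝ) (I : Ideal (𝓞 E)) (h : 𝓞 E → ℂ),
      a ≤ 1 →
      (∀ φ, 0 < y φ) → I ≠ ⊥ → Per I h → (Summable fun x : 𝓞 E => h x * Gau a y (emb k x)) ∧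
      HasSum (fun κ : {κ : E // DualI I κ} => c * (av I (fun x => h x * ee (tr (κ.1 * x))) *
          Gauh a y (embE k κ.1))) (∑' x : 𝓞 E, h x * Gau a y (emb k x)) ∧
      ∀ N : 𝓞 E, N ≠ 0 → N ∈ I → (∀ κ : E, DualI I κ → ∃ ν : 𝓞 E, (ν : E) = κ * N) →
        HasSum (fun ν : 𝓞 E => c * (av (Ideal.span {N})
          (fun x => h x * ee (tr ((ν : E) / N * x))) * Gauh a y (embE k ((ν : E) / N))))
          (∑' x : 𝓞 E, h x * Gau a y (emb k x)) := by
  obtain ⟨c, hc, hP⟩ := poisson_prin K E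
  refine ⟨c, hc, fun a y I h ha hy hI hh => ?_⟩
  have key : ∀ N : 𝓞 E, N ≠ 0 → N ∈ I → (Summable fun x : 𝓞 E => h x * Gau a y (emb k x)) ∧
      HasSum (fun κ : {κ : E // Dual κ} => c * (av (Ideal.span {N})
        (fun x => h x * ee (tr (κ.1 / N * x))) * Gauh a y (embE k (κ.1 / N))))
        (∑' x : 𝓞 E, h x * Gau a y (emb k x)) := fun N hN hNI => by
    simpa only [div_mul_eq_mul_div] using
      hP a y N h ha hy hN (hh.mono ((Ideal.span_singleton_le_iff_mem _).2 hNI))
  refine ⟨?_, ?_, fun N hN hNI hd => ?_⟩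
  · obtain ⟨N, hNI, hN⟩ := (Submodule.ne_bot_iff I).1 hI
    exact (key N hN hNI).1
  · obtain ⟨N, hNI, hN⟩ := (Submodule.ne_bot_iff I).1 hI
    have hle := (Ideal.span_singleton_le_iff_mem _).2 hNI
    have h0 : (N : E) ≠ 0 := by exact_mod_cast hN
    have hi : Function.Injective fun κ : {κ : E // DualI I κ} =>
        (⟨κ.1 * N, κ.2.mul hNI⟩ : {κ : E // Dual κ}) := fun κ κ' h =>
      Subtype.ext (mul_right_cancel₀ h0 (congrArg (fun κ : {κ : E // Dual κ} => κ.1) h))
    have h4 := (hi.hasSum_iff fun κ hκ => by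
      rw [av_eq_zero_of_not_dual hh hle (κ.2.div hN) fun h1 =>
        hκ ⟨⟨_, h1⟩, Subtype.ext (div_mul_cancel₀ _ h0)⟩, zero_mul, mul_zero]).2 (key N hN hNI).2
    have h5 : ∀ κ : {κ : E // DualI I κ}, av (Ideal.span {N}) (fun x => h x * ee (tr (κ.1 * x))) =
        av I fun x => h x * ee (tr (κ.1 * x)) := fun κ =>
      av_le (by simpa using hN) hle (hh.mul κ.2.per)
    simpa only [Function.comp_def, mul_div_cancel_right₀ _ h0, h5] using h4
  · have hle := (Ideal.span_singleton_le_iff_mem _).2 hNI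
    have h0 : (N : E) ≠ 0 := by exact_mod_cast hN
    have hi : Function.Injective fun ν : 𝓞 E => (⟨ν, dual_int ν⟩ : {κ : E // Dual κ}) :=
      fun ν ν' h =>
        RingOfIntegers.coe_injective (congrArg (fun κ : {κ : E // Dual κ} => κ.1) h)
    have h4 := (hi.hasSum_iff fun κ hκ => by
      rw [av_eq_zero_of_not_dual hh hle (κ.2.div hN) fun h1 => (hd _ h1).elim fun ν hν =>
        hκ ⟨ν, Subtype.ext (hν.trans (div_mul_cancel₀ _ h0))⟩, zero_mul, mul_zero]).2
      (key N hN hNI).2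
    simpa only [Function.comp_def] using h4

end

end Pool.Agent.P.MP_b8021b_nt.PoiN
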