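import Pool.Agent.P.MP_b8021b_nt.BS.BasicD

/-! Cubes in the ring of integers and cancellation for odd periodic functions. -/

namespace Pool.Agent.P.MP_b8021b_nt.BS

open NumberField IsDedekindDomain Finset MeasureTheory
open Pool.Agent.P.MP_b8021b_nt.VE Pool.Agent.P.MP_b8021b_nt.VC Pool.Agent.P.MP_b8021b_nt.BS.CF
open scoped Classical ComplexConjugate Real

variable {k : Type} [Field k] [NumberField k] [Algebra k ℂ] {K : Type} [Field K] [NumberField K]
  [Algebra k K]

namespace PCube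

section Box

variable {R : Type} [CommRing R] {ι : Type} [Fintype ι] (b : Module.Basis ι ℤ R)

/-- the elements with coordinates in prescribed finite sets -/
noncomputable def box (s : ι → Finset ℤ) : Finset R :=
  (Fintype.piFinset s).map b.equivFun.symm.toEquiv.toEmbedding

theorem mem_box {s : ι → Finset ℤ} {x : R} : x ∈ box b s ↔ ∀ i, b.repr x i ∈ s i := by
  rw [box, mem_map_equiv, Fintype.mem_piFinset]
  rfl

theorem card_box (s : ι → Finset ℤ) : (box b s).card = ∏ i, (s i).card := by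
  rw [box, card_map, Fintype.card_piFinset]

theorem mem_span_iff (m : ℕ) (x : R) :
    x ∈ Ideal.span {(m : R)} ↔ ∀ i, (m : ℤ) ∣ b.repr x i := by
  rw [Ideal.mem_span_singleton]
  constructor
  · rintro ⟨y, rfl⟩ i
    rw [← nsmul_eq_mul, map_nsmul]
    exact ⟨b.repr y i, by simp⟩
  · intro h
    choose e he using h
    refine ⟨b.equivFun.symm e, b.ext_elem fun i => ?_⟩
    rw [← nsmul_eq_mul, map_nsmul, he i, Finsupp.smul_apply, nsmul_eq_mul]
    exact congrArg _ (congrFun (b.equivFun.apply_symm_apply e) i).symm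

theorem card_cls (a v : ℤ) (q : ℕ) {m : ℕ} (hm : 1 ≤ m) :
    ((Ico a (a + q * m)).filter fun x => x ≡ v [ZMOD m]).card = q := by
  have h0 : (0 : ℤ) < m := by exact_mod_cast hm
  have h1 : (m : ℚ) ≠ 0 := by positivity
  have := Int.Ico_filter_modEq_card a (a + q * m) h0 v
  have e : (((a + q * m : ℤ) : ℚ) - v) / ((m : ℤ) : ℚ) = ((a : ℚ) - v) / ((m : ℤ) : ℚ) + (q : ℤ) := by
    push_cast
    field_simp
    ring
  rw [e, Int.ceil_add_intCast, add_sub_cancel_left, max_eq_left (by positivity)] at this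
  exact_mod_cast this

theorem card_fibre (a : ℤ) (q : ℕ) {m : ℕ} (hm : 1 ≤ m) (y : R) :
    ((box b fun _ => Ico a (a + q * m)).filter fun x => x - y ∈ Ideal.span {(m : R)}).card =
      q ^ Fintype.card ι := by
  have : ((box b fun _ => Ico a (a + q * m)).filter fun x => x - y ∈ Ideal.span {(m : R)}) =
      box b fun i => (Ico a (a + q * m)).filter fun x => x ≡ b.repr y i [ZMOD m] := by
    ext x
    simp only [mem_filter, mem_box, mem_span_iff b, map_sub, Finsupp.sub_apply, forall_and,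
      Int.modEq_iff_dvd, dvd_sub_comm]
  rw [this, card_box, prod_congr rfl fun i _ => card_cls a _ q hm, prod_const, card_univ]

end Box

variable {ι : Type} [Fintype ι] (b : Module.Basis ι ℤ (𝓞 K))

/-- an odd periodic function has sum zero over a box whose side is a multiple of the period -/
theorem sum_zero (a : ℤ) (q : ℕ) {m : ℕ} (hm : 1 ≤ m) {F : 𝓞 K → ℂ} {u : 𝓞 K}
    (hF : Peri (sp (m : 𝓞 K)) F) (hu : IsCoprime u (m : 𝓞 K)) (ho : ∀ x, F (u * x) = -F x) :
    ∑ x ∈ box b fun _ => Ico a (a + q * m), F x = 0 := by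
  have h0 : sp (m : 𝓞 K) ≠ ⊥ := by
    rw [Ne, Ideal.span_singleton_eq_bot]
    exact Nat.cast_ne_zero.2 (by omega)
  have : Finite (𝓞 K ⧸ sp (m : 𝓞 K)) := Ideal.finiteQuotientOfFreeOfNeBot _ h0
  have := Fintype.ofFinite (𝓞 K ⧸ sp (m : 𝓞 K))
  have hz : ∑ r : 𝓞 K ⧸ sp (m : 𝓞 K), F (Quotient.out r) = 0 := by
    have hU : IsUnit (Ideal.Quotient.mk (sp (m : 𝓞 K)) u) := by
      obtain ⟨s, t, h⟩ := hu
      refine IsUnit.of_mul_eq_one (Ideal.Quotient.mk _ s) ?_
      rw [← map_mul, ← map_one (Ideal.Quotient.mk _), Ideal.Quotient.eq]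
      exact Ideal.mem_span_singleton.2 ⟨-t, by rw [← h]; ring⟩
    obtain ⟨U, hU⟩ := hU
    have e := Equiv.sum_comp (Units.mulLeft U) fun r => F (Quotient.out r)
    have e' : ∀ r : 𝓞 K ⧸ sp (m : 𝓞 K),
        F (Quotient.out (Units.mulLeft U r)) = -F (Quotient.out r) := fun r => by
      rw [← ho, ← hF.out (u * Quotient.out r), map_mul, Ideal.Quotient.mk_out, ← hU]
      rfl
    rw [sum_congr rfl fun r _ => e' r, sum_neg_distrib] at e
    linear_combination (-1 / 2 : ℂ) * e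
  rw [← sum_fiberwise _ (Ideal.Quotient.mk (sp (m : 𝓞 K))), ← mul_zero ((q : ℂ) ^ Fintype.card ι),
    ← hz, mul_sum]
  refine sum_congr rfl fun r _ => ?_
  have e : ∀ x : 𝓞 K, Ideal.Quotient.mk (sp (m : 𝓞 K)) x = r ↔
      x - Quotient.out r ∈ Ideal.span {(m : 𝓞 K)} := fun x => by
    rw [← Ideal.Quotient.eq, Ideal.Quotient.mk_out]
  rw [sum_congr rfl fun x hx => hF x _ ((e x).1 (mem_filter.1 hx).2), sum_const, nsmul_eq_mul,
    filter_congr fun x _ => e x, card_fibre b a q hm, Nat.cast_pow]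

/-- cancellation over a cube -/
theorem sum_le (a : ℤ) (n : ℕ) {m : ℕ} (hm : 1 ≤ m) {F : 𝓞 K → ℂ} {u : 𝓞 K}
    (hF : Peri (sp (m : 𝓞 K)) F) (h1 : ∀ x, ‖F x‖ ≤ 1) (hu : IsCoprime u (m : 𝓞 K))
    (ho : ∀ x, F (u * x) = -F x) :
    ‖∑ x ∈ box b fun _ => Ico a (a + n), F x‖ ≤
      m * Fintype.card ι * (n : ℝ) ^ (Fintype.card ι - 1) := by
  have hq : n / m * m ≤ n := Nat.div_mul_le_self n m
  have hq' : n < n / m * m + m := Nat.lt_div_mul_add hm
  have hs : (box b fun _ => Ico a (a + (n / m : ℕ) * m)) ⊆ box b fun _ => Ico a (a + n) :=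
    fun x hx => (mem_box b).2 fun i => Ico_subset_Ico_right (by exact_mod_cast by omega)
      ((mem_box b).1 hx i)
  rw [← sum_sdiff hs, sum_zero b a _ hm hF hu ho, add_zero]
  refine (norm_sum_le _ _).trans ((sum_le_card_nsmul _ _ 1 fun x _ => h1 x).trans ?_)
  have c1 : (Ico a (a + n)).card = n := by simp
  have c2 : (Ico a (a + (n / m : ℕ) * m)).card = n / m * m := by
    rw [← Nat.cast_mul]; simp only [Int.card_Ico, add_sub_cancel_left, Int.toNat_natCast]
  rw [nsmul_eq_mul, mul_one, cast_card_sdiff hs, card_box, card_box, prod_const, prod_const, c1, c2,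
    card_univ, Nat.cast_pow, Nat.cast_pow]
  refine (le_abs_self _).trans ((abs_pow_sub_pow_le _ _ _).trans ?_)
  have r1 : ((n / m * m : ℕ) : ℝ) ≤ n := by exact_mod_cast hq
  have r2 : (n : ℝ) ≤ (n / m * m : ℕ) + m := by exact_mod_cast hq'.le
  rw [abs_of_nonneg (by linarith), Nat.abs_cast, Nat.abs_cast, max_eq_left r1]
  gcongr
  linarith

/-- the coordinates are bounded by the size of the embedding -/
theorem coord (c : Ctx k K) (hι : Fintype.card ι = 2 * Module.finrank k K) :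
    ∃ C : ℝ, 0 ≤ C ∧ ∀ x i, |(b.repr x i : ℝ)| ≤ C * ‖emb k x‖ := by
  obtain ⟨B, -⟩ := c.bf
  obtain ⟨_, h⟩ := c.lib.emb k B _
  obtain ⟨Q, h2, hQ⟩ := c.small
  obtain ⟨v, hv⟩ := ((h K rfl).2.2.2.2.2.2.2.2.2 Q h2 hQ).2
  let T : (ι → ℝ) →ₗ[ℝ] (Emb k K → ℂ) := Fintype.linearCombination ℝ fun i => emb k (b i)
  have hT : ∀ x, T (fun i => b.repr x i) = emb k x := fun x => by
    ext φ
    conv_rhs => rw [← b.sum_repr x]
    simp [T, Fintype.linearCombination_apply, emb]
  have hs : Function.Surjective T := by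
    rw [← LinearMap.range_eq_top, eq_top_iff, ← v.span_eq, Submodule.span_le]
    rintro _ ⟨j, rfl⟩
    obtain ⟨a, ha⟩ := (hv j).2
    exact ⟨_, (hT a).trans ha⟩
  have hi : Function.Injective T :=
    (LinearMap.injective_iff_surjective_of_finrank_eq_finrank (by
      rw [Module.finrank_fintype_fun_eq_card, Module.finrank_eq_card_basis v, hι]
      simp [mul_comm])).2 hs
  obtain ⟨C, -, hC⟩ := T.exists_antilipschitzWith (LinearMap.ker_eq_bot.2 hi)
  refine ⟨C, C.2, fun x i => ?_⟩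
  have := hC.le_mul_norm T.map_zero fun i => (b.repr x i : ℝ)
  rw [hT] at this
  exact (norm_le_pi_norm (fun i => (b.repr x i : ℝ)) i).trans this

end PCube

open PCube in
theorem x_cube (c : Ctx k K) : X_Cube k K := by
  have hι : Fintype.card (Module.Free.ChooseBasisIndex ℤ (𝓞 K)) = 2 * Module.finrank k K := by
    obtain ⟨B, -⟩ := c.bf
    obtain ⟨_, h⟩ := c.lib.emb k B _
    rw [← Module.finrank_eq_card_chooseBasisIndex, RingOfIntegers.rank, (h K rfl).2.1]
  have hr : 1 ≤ Module.finrank k K := by exact_mod_cast c.one_le_rk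
  obtain ⟨C, hC, h⟩ := coord (RingOfIntegers.basis K) c hι
  obtain ⟨d, hd⟩ : ∃ d, 2 * Module.finrank k K = d + 1 := ⟨2 * Module.finrank k K - 1, by omega⟩
  have hd' : 2 * rk k K = (d + 1 : ℕ) := by exact_mod_cast hd
  have h1 : 1 ≤ 2 * C + 1 := by linarith
  have h2 : (1 : ℝ) ≤ (d + 1 : ℕ) := by exact_mod_cast by omega
  refine ⟨(d + 1 : ℕ) * (2 * C + 1) ^ (d + 1), one_le_mul_of_one_le_of_one_le h2 (one_le_pow₀ h1),
    fun L hL => ⟨box (RingOfIntegers.basis K) fun _ =>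
      Ico (-⌊C * L⌋₊) (-⌊C * L⌋₊ + (2 * ⌊C * L⌋₊ + 1 : ℕ)), fun x hx => ?_, ?_, ?_⟩⟩
  · refine (mem_box _).2 fun i => ?_
    have := (h x i).trans (mul_le_mul_of_nonneg_left hx hC)
    rw [← Int.cast_abs, ← Int.natCast_natAbs, Int.cast_natCast] at this
    have := Nat.le_floor this
    rw [mem_Ico]
    omega
  all_goals
    have hn : ((2 * ⌊C * L⌋₊ + 1 : ℕ) : ℝ) ≤ (2 * C + 1) * L := by
      have := Nat.floor_le (a := C * L) (by positivity)
      push_cast
      linarith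
  · have c1 : (Ico (-⌊C * L⌋₊ : ℤ) (-⌊C * L⌋₊ + (2 * ⌊C * L⌋₊ + 1 : ℕ))).card =
        2 * ⌊C * L⌋₊ + 1 := by simp only [Int.card_Ico, add_sub_cancel_left, Int.toNat_natCast]
    rw [card_box, prod_const, c1, card_univ, hι, hd, hd', Real.rpow_natCast, Nat.cast_pow, mul_assoc,
      ← mul_pow]
    exact (pow_le_pow_left₀ (by positivity) hn _).trans (le_mul_of_one_le_left (by positivity) h2)
  · intro m F u hm hF hb hu ho
    refine (sum_le _ _ _ hm hF hb hu ho).trans ?_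
    rw [hι, hd, hd', Nat.add_sub_cancel, Nat.cast_succ d, add_sub_cancel_right, Real.rpow_natCast]
    calc (m : ℝ) * (d + 1) * ((2 * ⌊C * L⌋₊ + 1 : ℕ) : ℝ) ^ d
        ≤ m * (d + 1) * ((2 * C + 1) * L) ^ d := by gcongr
      _ = (d + 1) * (2 * C + 1) ^ d * m * L ^ d := by rw [mul_pow]; ring
      _ ≤ (d + 1) * (2 * C + 1) ^ (d + 1) * m * L ^ d := by gcongr; omega

end Pool.Agent.P.MP_b8021b_nt.BS
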