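import Pool.Agent.P.MP_b8021b_nt.BS.BasicD

/-! Periodicity of the symbol `jq` and its sign change under a non-residue. -/

namespace Pool.Agent.P.MP_b8021b_nt.BS

open NumberField IsDedekindDomain Finset MeasureTheory
open Pool.Agent.P.MP_b8021b_nt.VE Pool.Agent.P.MP_b8021b_nt.VC Pool.Agent.P.MP_b8021b_nt.BS.CF
open scoped Classical ComplexConjugate Real

variable {k : Type} [Field k] [NumberField k] [Algebra k ℂ] {K : Type} [Field K] [NumberField K] [Algebra k K]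

namespace PPer

theorem jac_sp_one (hRec : X_Rec K) {κ a : 𝓞 K} (hκ : κ ≠ 0) (h : 8 * κ ∣ a - 1) :
    jac κ (sp a) = 1 := by
  rw [← hRec a κ ((dvd_mul_right _ _).trans h) hκ]
  refine jac_eq_one (by simpa using hκ) fun v e => e ?_
  exact Ideal.mem_span_singleton.2 ((dvd_mul_left _ _).trans h)

theorem key (hRec : X_Rec K) {𝔠 : Ideal (𝓞 K)} {κ γ γ' : 𝓞 K} (hc : 𝔠 ≠ ⊥) (hκ : κ ≠ 0)
    (h1 : γ ∈ 𝔠) (h1' : γ' ∈ 𝔠) (h8 : (8 : 𝓞 K) ∣ γ - 1)
    (hm : ((8 * Ideal.absNorm 𝔠 * Ideal.absNorm (sp κ) : ℕ) : 𝓞 K) ∣ γ' - γ)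
    (hcop : IsCoprime (sp κ) (quo γ 𝔠)) : jac κ (quo γ 𝔠) = jac κ (quo γ' 𝔠) := by
  have hI := quo_mul (exists_quo h1)
  have hI' := quo_mul (exists_quo h1')
  set I := quo γ 𝔠
  set I' := quo γ' 𝔠
  have hγI : γ ∈ I := Ideal.mul_le_left (hI ▸ Ideal.mem_span_singleton_self γ : γ ∈ I * 𝔠)
  have h8I : IsCoprime (sp (8 : 𝓞 K)) I := by
    rw [Ideal.isCoprime_iff_exists]
    refine ⟨1 - γ, Ideal.mem_span_singleton.2 ?_, γ, hγI, by ring⟩
    rw [← neg_sub]; exact h8.neg_right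
  have h2 : IsCoprime (sp (8 * κ)) I := by rw [sp_mul]; exact h8I.mul_left hcop
  obtain ⟨b, hb, D, hD, hbD⟩ := Ideal.isCoprime_iff_exists.1 h2
  have hD1 : 8 * κ ∣ D - 1 := by
    rw [show D - 1 = -b by linear_combination hbD]
    exact (Ideal.mem_span_singleton.1 hb).neg_right
  obtain ⟨e, he⟩ : γ ∣ D * (Ideal.absNorm 𝔠 : 𝓞 K) := by
    rw [← Ideal.mem_span_singleton, ← sp, ← hI]
    exact Ideal.mul_mem_mul hD (Ideal.absNorm_mem 𝔠)
  obtain ⟨s, hs⟩ := hm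
  obtain ⟨n, hn⟩ : κ ∣ (Ideal.absNorm (sp κ) : 𝓞 K) :=
    Ideal.mem_span_singleton.1 (Ideal.absNorm_mem _)
  push_cast at hs
  have ha : (D + 8 * κ * (n * s * e)) * γ = D * γ' := by
    rw [hn] at hs
    linear_combination -D * hs - 8 * κ * n * s * he
  have ha1 : 8 * κ ∣ D + 8 * κ * (n * s * e) - 1 := by
    rw [add_sub_right_comm]; exact hD1.add (dvd_mul_right _ _)
  have e1 : sp (D + 8 * κ * (n * s * e)) * I = sp D * I' := by
    apply mul_right_cancel₀ hc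
    rw [mul_assoc _ I, mul_assoc _ I', hI, hI', ← sp_mul, ← sp_mul, ha]
  have e2 := congrArg (jac κ) e1
  rwa [jac_mul_right, jac_mul_right, jac_sp_one hRec hκ ha1, jac_sp_one hRec hκ hD1, one_mul,
    one_mul] at e2

theorem exists_neg {v : Pl K} (h2 : ¬ Dv 2 v) : ∃ x : 𝓞 K, leg x v = -1 := by
  obtain ⟨F, _, _, _, ρ, hs, hk, -⟩ := exists_res v
  have hc : ringChar F ≠ 2 := fun e => h2 (by
    have : ((2 : ℕ) : F) = 0 := (ringChar.spec F 2).2 (by rw [e])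
    exact (hk _).1 (by rw [map_natCast]; exact this))
  obtain ⟨a, ha⟩ := quadraticChar_exists_neg_one hc
  obtain ⟨x, rfl⟩ := hs a
  exact ⟨x, by rw [leg_eq_quad ρ hs hk, ha]; simp⟩

theorem exists_u {v : Pl K} (h2 : ¬ Dv 2 v) {m : 𝓞 K} (hm : m ≠ 0) :
    ∃ u : 𝓞 K, leg u v = -1 ∧ (8 : 𝓞 K) ∣ u - 1 ∧
      ∀ w : Pl K, w ≠ v → m ∈ w.asIdeal → u - 1 ∈ w.asIdeal := by
  obtain ⟨x, hx⟩ := exists_neg h2
  have c1 : IsCoprime (sp (8 : 𝓞 K)) v.asIdeal := by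
    rw [cop_prime_iff']
    intro h
    refine h2 (v.isPrime.mem_of_pow_mem 3 ?_)
    rw [show ((2 : ℕ) : 𝓞 K) ^ 3 = 8 by norm_num]
    exact h
  have c2 : IsCoprime (eI ((pr m).erase v)) v.asIdeal := by
    rw [Ideal.isCoprime_iff_sup_eq]
    by_contra e
    have := (v.isMaximal.eq_of_le e le_sup_right).ge
    exact Finset.notMem_erase v _ (eI_le_iff.1 (le_sup_left.trans this))
  obtain ⟨b, hb, a, ha, hab⟩ := Ideal.isCoprime_iff_exists.1 (c1.mul_left c2)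
  have e : x * b + a - 1 = (x - 1) * b := by linear_combination hab
  refine ⟨x * b + a, ?_, ?_, fun w hw hmw => ?_⟩
  · rw [← hx]
    refine leg_congr ?_
    rw [show x * b + a - x = (1 - x) * a by linear_combination x * hab]
    exact v.asIdeal.mul_mem_left _ ha
  · rw [e]
    exact (Ideal.mem_span_singleton.1 (Ideal.mul_le_left hb)).mul_left _
  · rw [e]
    refine w.asIdeal.mul_mem_left _ (eI_le_iff.2 ?_ (Ideal.mul_le_right hb))
    exact Finset.mem_erase.2 ⟨hw, (mem_pr hm).2 hmw⟩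

end PPer

open PPer in
theorem x_per (c : Ctx k K) (hRec : X_Rec K) : X_Per K := by
  intro 𝔠 κ v hc hκ h2 hodd
  have hκ' : sp κ ≠ ⊥ := by simpa using hκ
  set m : 𝓞 K := ((8 * Ideal.absNorm 𝔠 * Ideal.absNorm (sp κ) : ℕ) : 𝓞 K) with hm
  have hm0 : m ≠ 0 := by
    rw [hm, Nat.cast_ne_zero]
    exact mul_ne_zero (mul_ne_zero (by norm_num) fun e => hc (Ideal.absNorm_eq_zero_iff.1 e))
      fun e => hκ' (Ideal.absNorm_eq_zero_iff.1 e)
  have hm8 : (8 : 𝓞 K) ∣ m := by rw [hm]; push_cast; rw [mul_assoc]; exact dvd_mul_right _ _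
  have hmc : m ∈ 𝔠 := by
    rw [hm]; push_cast
    exact 𝔠.mul_mem_right _ (𝔠.mul_mem_left _ (Ideal.absNorm_mem 𝔠))
  have hmκ : m ∈ sp κ := by
    rw [hm]; push_cast
    exact (sp κ).mul_mem_left _ (Ideal.absNorm_mem _)
  refine ⟨?_, ?_⟩
  · have tr : ∀ x y : 𝓞 K, m ∣ y - x → x ∈ 𝔠 ∧ (8 : 𝓞 K) ∣ x - 1 → y ∈ 𝔠 ∧ (8 : 𝓞 K) ∣ y - 1 := by
      intro x y h hx
      refine ⟨by simpa using 𝔠.add_mem (𝔠.mem_of_dvd h hmc) hx.1, ?_⟩
      rw [show y - 1 = (y - x) + (x - 1) by ring]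
      exact (hm8.trans h).add hx.2
    intro x y hxy
    have h1 : m ∣ x - y := Ideal.mem_span_singleton.1 hxy
    have h1' : m ∣ y - x := by rw [← neg_sub]; exact h1.neg_right
    unfold jq
    by_cases hx : x ∈ 𝔠 ∧ (8 : 𝓞 K) ∣ x - 1
    · have hy := tr x y h1' hx
      rw [if_pos hx, if_pos hy]
      by_cases e : IsCoprime (sp κ) (quo x 𝔠)
      · exact key hRec hc hκ hx.1 hy.1 hx.2 h1' e
      by_cases e' : IsCoprime (sp κ) (quo y 𝔠)
      · exact (key hRec hc hκ hy.1 hx.1 hy.2 h1 e').symm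
      have z : ∀ I : Ideal (𝓞 K), ¬ IsCoprime (sp κ) I → jac κ I = 0 := fun I hI => by
        by_cases h0 : I = ⊥
        · rw [h0, jac_bot]
        · exact not_not.1 fun e => hI ((jac_ne_zero_iff h0).1 e)
      rw [z _ e, z _ e']
    · rw [if_neg hx, if_neg fun hy => hx (tr y x h1 hy)]
  · obtain ⟨u, hu, hu8, huw⟩ := exists_u h2 hm0
    have hcop : IsCoprime u m := by
      rw [← Ideal.isCoprime_span_singleton_iff, Ideal.isCoprime_iff_sup_eq]
      by_contra e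
      obtain ⟨M, hM, hle⟩ := Ideal.exists_le_maximal _ e
      have h1 : u ∈ M := hle (Ideal.mem_sup_left (Ideal.mem_span_singleton_self u))
      have h3 : m ∈ M := hle (Ideal.mem_sup_right (Ideal.mem_span_singleton_self m))
      let w : Pl K := ⟨M, hM.isPrime, fun e => hm0 (by simpa [e] using h3)⟩
      by_cases hw : w = v
      · have : leg u v = 0 := leg_eq_zero.2 (hw ▸ h1)
        rw [this] at hu
        norm_num at hu
      · have := M.sub_mem h1 (huw w hw h3)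
        exact hM.ne_top ((Ideal.eq_top_iff_one _).2 (by simpa using this))
    have hj : jac κ (sp u) = -1 := by
      rw [← hRec u κ hu8 hκ, jac, if_neg hκ', finprod_eq_single _ v, hu]
      · rw [od_coe v hκ] at hodd
        exact Odd.neg_one_pow (by exact_mod_cast hodd)
      · intro w hw
        by_cases e : sp κ ≤ w.asIdeal
        · rw [leg_congr (huw w hw (e hmκ)), leg_one, one_pow]
        · simp [(cnt_eq_zero w).2 e]
    refine ⟨u, hcop, fun γ => ?_⟩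
    unfold jq
    by_cases hγ : γ ∈ 𝔠 ∧ (8 : 𝓞 K) ∣ γ - 1
    · have h8 : (8 : 𝓞 K) ∣ u * γ - 1 := by
        rw [show u * γ - 1 = (u - 1) * γ + (γ - 1) by ring]
        exact (hu8.mul_right _).add hγ.2
      rw [if_pos hγ, if_pos ⟨𝔠.mul_mem_left _ hγ.1, h8⟩,
        quo_eq hc (q := sp u * quo γ 𝔠) (by rw [mul_assoc, quo_mul (exists_quo hγ.1), sp_mul]),
        jac_mul_right, hj, neg_one_mul]
    · rw [if_neg hγ, if_neg, neg_zero]
      rintro ⟨h1, h8⟩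
      obtain ⟨a, b, hab⟩ := hcop
      refine hγ ⟨?_, ?_⟩
      · rw [show γ = a * (u * γ) + (b * γ) * m by linear_combination -γ * hab]
        exact 𝔠.add_mem (𝔠.mul_mem_left _ h1) (𝔠.mul_mem_left _ hmc)
      · rw [show γ - 1 = (u * γ - 1) - (u - 1) * γ by ring]
        exact h8.sub (hu8.mul_right _)

end Pool.Agent.P.MP_b8021b_nt.BS
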