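import Pool.Agent.P.MP_b8021b_nt.BS.BasicD

/-! Balanced generators: a unit multiple whose conjugates all have comparable size. -/

namespace Pool.Agent.P.MP_b8021b_nt.BS

open NumberField IsDedekindDomain Finset MeasureTheory
open Pool.Agent.P.MP_b8021b_nt.VE Pool.Agent.P.MP_b8021b_nt.VC Pool.Agent.P.MP_b8021b_nt.BS.CF
open scoped Classical ComplexConjugate Real
variable {k : Type} [Field k] [NumberField k] [Algebra k ℂ] {K : Type} [Field K] [NumberField K] [Algebra k K]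

namespace PBal2

theorem cong_prod {R : Type} [CommRing R] (a : R) {m : ℕ} (ε : Fin m → Rˣ)
    (h : ∀ j, a ∣ (ε j : R) - 1) (μ : Fin m → ℤ) : a ∣ ((∏ j, ε j ^ μ j : Rˣ) : R) - 1 := by
  have e : ∀ u : Rˣ, a ∣ (u : R) - 1 ↔
      Units.map (Ideal.Quotient.mk (Ideal.span {a})).toMonoidHom u = 1 := fun u => by
    rw [← Ideal.mem_span_singleton, ← Ideal.Quotient.eq, Units.ext_iff]
    simp
  rw [e, map_prod]
  exact prod_eq_one fun j _ => by rw [map_zpow, (e _).1 (h j), one_zpow]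

end PBal2

theorem x_bal2 (c : Ctx k K) : X_Bal2 k K := by
  intro n hn
  obtain ⟨ℓ, ⟨U⟩⟩ := c.ub hn
  obtain ⟨B, -⟩ := c.bf
  have hℓ : 0 ≤ U.m * ℓ := mul_nonneg (Nat.cast_nonneg _) (zero_le_one.trans U.one_le)
  refine ⟨Real.exp (2 * (U.m * ℓ)), Real.one_le_exp (by positivity), fun γ hγ => ?_⟩
  obtain ⟨μ, hμ⟩ : ∃ μ : Fin U.m → ℤ,
      U.β (emb k ((∏ j, U.ε j ^ μ j : (𝓞 K)ˣ) : 𝓞 K) * emb k γ) ≠ 0 := by
    by_contra h
    push Not at h
    have := ((c.lib.part k B K n ℓ U).1 (emb k γ) (emb_ne_zero hγ)).2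
    simp only [h, finsum_zero] at this
    exact zero_ne_one this
  refine ⟨∏ j, U.ε j ^ μ j, PBal2.cong_prod _ _ U.cong μ, fun φ => ?_⟩
  rw [← emb_mul] at hμ
  have hs : sp (((∏ j, U.ε j ^ μ j : (𝓞 K)ˣ) : 𝓞 K) * γ) = sp γ :=
    Ideal.span_singleton_mul_left_unit (Units.isUnit _) γ
  have h0 := emb_ne_zero (k := k) (mul_ne_zero (Units.ne_zero (∏ j, U.ε j ^ μ j)) hγ)
  rw [← hs, c.NN_eq]
  generalize emb k (((∏ j, U.ε j ^ μ j : (𝓞 K)ˣ) : 𝓞 K) * γ) = w at hμ h0 ⊢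
  have hr : 0 < rk k K := one_pos.trans_le c.one_le_rk
  set M : ℝ := (∑ ψ, lg w ψ) / rk k K with hM
  have hx : ∑ ψ, (lg w - fun _ => M : Emb k K → ℝ) ψ = 0 := by
    simp only [Pi.sub_apply, sum_sub_distrib, sum_const, card_univ, c.card_emb, nsmul_eq_mul, hM]
    rw [mul_div_cancel₀ _ hr.ne', sub_self]
  have h1 : ‖U.co (lg w - fun _ => M)‖ ≤ 1 := by
    rw [map_sub, U.co_const, sub_zero]
    exact (pi_norm_le_iff_of_nonneg zero_le_one).2 fun j => (U.abs_co_lt hμ j).le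
  have h2 : |lg w φ - M| ≤ U.m * ℓ := by
    have := U.norm_lv_le (U.co (lg w - fun _ => M))
    rw [U.lv_co hx] at this
    exact (norm_le_pi_norm (lg w - fun _ => M : Emb k K → ℝ) φ).trans
      (this.trans (mul_le_of_le_one_right hℓ h1))
  have h3 : nz w ^ (1 / rk k K) = Real.exp (2 * M) := by
    rw [Real.rpow_def_of_pos (nz_pos h0), log_nz h0, hM]
    congr 1
    ring
  have h4 : ‖w φ‖ ^ 2 = Real.exp (2 * lg w φ) := by
    rw [show (2 : ℝ) = (2 : ℕ) by norm_num, Real.exp_nat_mul, lg,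
      Real.exp_log (norm_pos_iff.2 (h0 φ))]
  rw [h3, h4, ← Real.exp_add, ← Real.exp_add, Real.exp_le_exp, Real.exp_le_exp]
  constructor <;> linarith [(abs_le.1 h2).1, (abs_le.1 h2).2]

end Pool.Agent.P.MP_b8021b_nt.BS
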