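import Pool.Agent.P.MP_b8021b_nt.BS.BasicD

/-! The bilinear bound from the mean square over dyadic blocks. -/

namespace Pool.Agent.P.MP_b8021b_nt.BS

open NumberField IsDedekindDomain Finset MeasureTheory
open Pool.Agent.P.MP_b8021b_nt.VE Pool.Agent.P.MP_b8021b_nt.VC Pool.Agent.P.MP_b8021b_nt.BS.CF
open scoped Classical ComplexConjugate Real
variable {k : Type} [Field k] [NumberField k] [Algebra k ℂ] {K : Type} [Field K] [NumberField K]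
  [Algebra k K]

namespace PBil

/-- summation over dyadic blocks -/
theorem dyad {ι : Type} (s : Finset ι) (f ν : ι → ℝ) {A G : ℝ} (hA : 0 ≤ A) (hG : 1 ≤ G)
    (hν : ∀ i ∈ s, 1 ≤ ν i ∧ ν i ≤ G)
    (h : ∀ t ⊆ s, ∀ M : ℝ, 1 ≤ M → M ≤ G → (∀ i ∈ t, M ≤ ν i ∧ ν i ≤ 2 * M) →
      ∑ i ∈ t, f i ≤ A * M) : ∑ i ∈ s, f i ≤ 2 * A * G := by
  have key : ∀ J : ℕ, (2 : ℝ) ^ J ≤ G → ∀ t ⊆ s, (∀ i ∈ t, ν i ≤ 2 ^ (J + 1)) →
      ∑ i ∈ t, f i ≤ 2 * A * 2 ^ J := by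
    intro J
    induction J with
    | zero =>
      intro _ t ht h1
      have h2 := h t ht 1 le_rfl hG fun i hi => ⟨(hν i (ht hi)).1, by simpa using h1 i hi⟩
      simp only [pow_zero]
      linarith
    | succ J ih =>
      intro hJ t ht h1
      have h0 : (1 : ℝ) ≤ 2 ^ J := one_le_pow₀ one_le_two
      have e : (2 : ℝ) ^ (J + 1) = 2 * 2 ^ J := by ring
      rw [← sum_filter_add_sum_filter_not t fun i => ν i ≤ 2 ^ (J + 1)]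
      have h2 := ih (by linarith) (t.filter fun i => ν i ≤ 2 ^ (J + 1))
        ((filter_subset _ _).trans ht) fun i hi => (mem_filter.1 hi).2
      have h3 := h (t.filter fun i => ¬ ν i ≤ 2 ^ (J + 1)) ((filter_subset _ _).trans ht)
        (2 ^ (J + 1)) (by linarith) hJ fun i hi =>
          ⟨(not_le.1 (mem_filter.1 hi).2).le, (h1 i (mem_filter.1 hi).1).trans_eq (by ring)⟩
      rw [e] at h2 h3 ⊢
      linarith
  obtain ⟨J, h1, h2⟩ := exists_nat_pow_near hG one_lt_two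
  refine (key J h1 s Subset.rfl fun i hi => (hν i hi).2.trans h2.le).trans ?_
  gcongr

theorem rp {z : ℝ} (hz : 0 ≤ z) (m j : ℕ) {r : ℝ} (h : m * r = j) : (z ^ m) ^ r = z ^ j := by
  rw [← Real.rpow_natCast z m, ← Real.rpow_mul hz, h, Real.rpow_natCast]

theorem root2 {x : ℝ} (hx : 1 ≤ x) : ∃ a : ℝ, 1 ≤ a ∧ x = a ^ 2 :=
  ⟨√x, Real.one_le_sqrt.2 hx, (Real.sq_sqrt (zero_le_one.trans hx)).symm⟩

theorem root4 {x : ℝ} (hx : 1 ≤ x) : ∃ a : ℝ, 1 ≤ a ∧ x = a ^ 4 := by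
  obtain ⟨b, hb, rfl⟩ := root2 hx
  obtain ⟨a, ha, rfl⟩ := root2 hb
  exact ⟨a, ha, by ring⟩

/-- the bound for one block -/
theorem block {C a y g Q M : ℝ} (hC : 0 ≤ C) (ha : 1 ≤ a) (hy : 1 ≤ y) (hg : 1 ≤ g) (hQ : 1 ≤ Q)
    (hM : 1 ≤ M) (hQg : Q ≤ g ^ 2) (hMg : M ≤ g ^ 2) :
    C * (y ^ 4) ^ 2 / ((a ^ 4) ^ 2 * Q) * (a ^ 4 * M * Q / y ^ 4) ^ (3 / 2 : ℝ) ≤
      C * y ^ 2 * g ^ 2 / a ^ 2 * M := by
  obtain ⟨s, hs, rfl⟩ := root2 hQ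
  obtain ⟨m, hm, rfl⟩ := root2 hM
  have h1 : s ≤ g := (pow_le_pow_iff_left₀ (by linarith) (by linarith) two_ne_zero).1 hQg
  have h2 : m ≤ g := (pow_le_pow_iff_left₀ (by linarith) (by linarith) two_ne_zero).1 hMg
  have e : a ^ 4 * m ^ 2 * s ^ 2 / y ^ 4 = (a ^ 2 * m * s / y ^ 2) ^ 2 := by ring
  rw [e, rp (by positivity) 2 3 (by norm_num)]
  calc _ = C * y ^ 2 * (s * m) / a ^ 2 * m ^ 2 := by field_simp
    _ ≤ C * y ^ 2 * (g * g) / a ^ 2 * m ^ 2 := by gcongr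
    _ = _ := by ring

/-- Cauchy's inequality over pairs -/
theorem cauchy {ι : Type} (s : Finset ι) (b b' : ι → ℂ) (S : ι → ι → ℂ) :
    ‖∑ q ∈ s, ∑ q' ∈ s, b q * b' q' * S q q'‖ ≤ √(∑ q' ∈ s, ∑ q ∈ s, ‖S q q'‖ ^ 2) *
      (√(∑ q ∈ s, ‖b q‖ ^ 2) * √(∑ q ∈ s, ‖b' q‖ ^ 2)) := by
  rw [sum_comm (s := s) (t := s) (f := fun q' q => ‖S q q'‖ ^ 2), ← sum_product', ← sum_product',
    ← Real.sqrt_mul (by positivity), sum_mul_sum, ← sum_product', mul_comm]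
  refine (norm_sum_le _ _).trans ?_
  simp only [norm_mul, ← mul_pow]
  exact Real.sum_mul_le_sqrt_mul_sqrt _ _ _

end PBil

open PBil in
theorem x_bil (c : Ctx k K) (hCnt : X_Cnt K) (hMQ : X_MQ k K) : X_Bil k K := by
  intro n hn
  obtain ⟨C₁, hC₁, H⟩ := hMQ n hn
  obtain ⟨C₂, hC₂, H₂⟩ := hCnt.1
  have hC : 1 ≤ 2 * C₁ * C₂ := by nlinarith
  refine ⟨2 * C₁ * C₂, hC, fun e 𝒬 b b' Y N G hY hN he hG h𝒬 => ?_⟩
  rcases 𝒬.eq_empty_or_nonempty with rfl | ⟨q₀, hq₀⟩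
  · simp
  have h1 : ∀ q ∈ 𝒬, 1 ≤ NN q := fun q hq => one_le_NN (h𝒬 q hq).1.ne_zero
  have hG1 : 1 ≤ G := (h1 q₀ hq₀).trans (h𝒬 q₀ hq₀).2.2.2
  have he1 := one_le_NN he
  have hGN : G ≤ N := le_trans (by nlinarith) hG
  obtain ⟨a, ha, ea⟩ := root4 he1
  obtain ⟨y, hy, ey⟩ := root4 hY
  obtain ⟨g, hg, eg⟩ := root2 hG1
  set S : Ideal (𝓞 K) → Ideal (𝓞 K) → ℂ := fun q q' =>
    if IsCoprime q q' ∧ q * q' ≠ ⊤ then SS k e (q * q') Y else 0 with hS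
  have h2 : ∀ q' ∈ 𝒬, ∑ q ∈ 𝒬, ‖S q q'‖ ^ 2 ≤ 2 * (C₁ * y ^ 2 * g ^ 2 / a ^ 2) * G := by
    intro q' hq'
    obtain ⟨s', c', p', n'⟩ := h𝒬 q' hq'
    refine dyad 𝒬 _ NN (by positivity) hG1 (fun q hq => ⟨h1 q hq, (h𝒬 q hq).2.2.2⟩)
      fun t ht M hM hMG hb => ?_
    have h3 := H e q' (t.filter fun q => IsCoprime q q' ∧ q * q' ≠ ⊤) Y N M hY hN he
      (le_trans (by gcongr) hG) hM (hMG.trans hGN) fun q hq => by
        obtain ⟨hq, h4, h5⟩ := mem_filter.1 hq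
        obtain ⟨s, c, p, -⟩ := h𝒬 q (ht hq)
        exact ⟨squarefree_mul_iff.2 ⟨h4.isRelPrime, s, s'⟩, IsCoprime.mul_left c c',
          p.mul_right p', h5, hb q hq⟩
    rw [sum_filter] at h3
    refine le_trans (le_of_eq (sum_congr rfl fun q _ => ?_)) (h3.trans ?_)
    · simp only [hS]
      split_ifs <;> simp
    · rw [ea]
      conv_lhs => rw [ey]
      exact block (by linarith) ha hy hg (h1 q' hq') hM (n'.trans_eq eg) (hMG.trans_eq eg)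
  have h3 : ∑ q' ∈ 𝒬, ∑ q ∈ 𝒬, ‖S q q'‖ ^ 2 ≤ (2 * C₁ * C₂ * y * g ^ 3 / a) ^ 2 := by
    refine (sum_le_card_nsmul _ _ _ h2).trans ?_
    have h4 := H₂ G 𝒬 (by linarith) fun q hq => ⟨(h𝒬 q hq).1.ne_zero, (h𝒬 q hq).2.2.2⟩
    rw [nsmul_eq_mul]
    calc _ ≤ C₂ * G * (2 * (C₁ * y ^ 2 * g ^ 2 / a ^ 2) * G) := by gcongr
      _ = 1 * (2 * C₁ * C₂ * (y * g ^ 3 / a) ^ 2) := by rw [eg]; ring
      _ ≤ 2 * C₁ * C₂ * (2 * C₁ * C₂ * (y * g ^ 3 / a) ^ 2) := by gcongr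
      _ = _ := by ring
  have h4 := cauchy 𝒬 b b' S
  have e1 : NN e ^ (-(1 / 4 : ℝ)) = a⁻¹ := by
    rw [ea, Real.rpow_neg (by positivity), rp (by linarith) 4 1 (by norm_num), pow_one]
  have e2 : (G ^ 2 / Y) ^ (3 / 4 : ℝ) = (g / y) ^ 3 := by
    rw [← rp (z := g / y) (by positivity) 4 3 (r := 3 / 4) (by norm_num), eg, ey]
    congr 1
    ring
  rw [e1, e2]
  refine le_trans (le_of_eq ?_) (h4.trans (mul_le_mul_of_nonneg_right ?_ (by positivity)))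
  · simp only [hS, mul_ite, mul_zero]
  · refine (Real.sqrt_le_sqrt h3).trans (le_of_eq ?_)
    rw [Real.sqrt_sq (by positivity), ey]
    field_simp

end Pool.Agent.P.MP_b8021b_nt.BS
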