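import Pool.Agent.P.MP_b8021b_nt.BS.BasicD

/-! Counting ideals by norm, and pairwise coprime choices. -/

namespace Pool.Agent.P.MP_b8021b_nt.BS

open NumberField IsDedekindDomain Finset MeasureTheory
open Pool.Agent.P.MP_b8021b_nt.VE Pool.Agent.P.MP_b8021b_nt.VC Pool.Agent.P.MP_b8021b_nt.BS.CF
open scoped Classical ComplexConjugate Real
variable {k : Type} [Field k] [NumberField k] [Algebra k ℂ] {K : Type} [Field K] [NumberField K] [Algebra k K]

namespace PCnt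

theorem one_le {I : Ideal (𝓞 K)} (h : I ≠ ⊥) : 1 ≤ NN I :=
  Nat.one_le_cast.2 (Nat.pos_of_ne_zero fun e => h (Ideal.absNorm_eq_zero_iff.1 e))

variable (K) in
theorem count : ∃ C : ℝ, 1 ≤ C ∧ ∀ (X : ℝ) (𝒩 : Finset (Ideal (𝓞 K))), 0 ≤ X →
    (∀ I ∈ 𝒩, I ≠ ⊥ ∧ NN I ≤ X) → (𝒩.card : ℝ) ≤ C * X := by
  obtain ⟨A, hA⟩ := ((Ideal.tendsto_norm_le_div_atTop K).comp
    tendsto_natCast_atTop_atTop).bddAbove_range
  refine ⟨max 1 A, le_max_left _ _, fun X 𝒩 hX h => ?_⟩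
  rcases 𝒩.eq_empty_or_nonempty with rfl | ⟨I, hI⟩
  · simpa using mul_nonneg (zero_le_one.trans (le_max_left 1 A)) hX
  have hY : 0 < ⌊X⌋₊ := Nat.floor_pos.2 ((one_le (h I hI).1).trans (h I hI).2)
  have h1 := hA ⟨⌊X⌋₊, rfl⟩
  simp only [Function.comp_apply, Nat.cast_le] at h1
  rw [div_le_iff₀ (by exact_mod_cast hY)] at h1
  refine le_trans ?_ (h1.trans (mul_le_mul (le_max_right _ _) (Nat.floor_le hX) (Nat.cast_nonneg _)
    (zero_le_one.trans (le_max_left 1 A))))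
  have : Finite {I : Ideal (𝓞 K) // Ideal.absNorm I ≤ ⌊X⌋₊} :=
    (Ideal.finite_setOfPred_absNorm_le (S := 𝓞 K) ⌊X⌋₊).to_subtype
  rw [Nat.cast_le, ← Nat.card_eq_finsetCard]
  exact Nat.card_le_card_of_injective
    (fun J : 𝒩 => (⟨J.1, Nat.le_floor (h J.1 J.2).2⟩ : {I : Ideal (𝓞 K) // Ideal.absNorm I ≤ ⌊X⌋₊}))
    fun a b e => Subtype.ext (Subtype.mk.inj e)

variable (K) in
theorem tail {σ : ℝ} (hσ : 1 < σ) : ∃ C : ℝ, 1 ≤ C ∧
    ∀ (M : ℝ) (𝒩 : Finset (Ideal (𝓞 K))), 1 ≤ M → (∀ I ∈ 𝒩, M ≤ NN I) →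
      ∑ I ∈ 𝒩, NN I ^ (-σ) ≤ C * M ^ (1 - σ) := by
  obtain ⟨C, hC, h⟩ := count K
  have r0 : (0 : ℝ) ≤ 2 ^ (1 - σ) := by positivity
  have r1 : (2 : ℝ) ^ (1 - σ) < 1 := Real.rpow_lt_one_of_one_lt_of_neg one_lt_two (by linarith)
  refine ⟨max 1 (2 * C * (1 - 2 ^ (1 - σ))⁻¹), le_max_left _ _, fun M 𝒩 hM hN => ?_⟩
  have M0 : 0 < M := by linarith
  set g : Ideal (𝓞 K) → ℕ := fun I => Nat.log 2 ⌊NN I / M⌋₊ with hg
  have key : ∀ I ∈ 𝒩, 2 ^ g I * M ≤ NN I ∧ NN I ≤ 2 ^ (g I + 1) * M := fun I hI => by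
    have h1 : 1 ≤ NN I / M := (one_le_div M0).2 (hN I hI)
    have h2 : ⌊NN I / M⌋₊ ≠ 0 := (Nat.floor_pos.2 h1).ne'
    constructor
    · rw [← le_div_iff₀ M0]
      refine le_trans ?_ (Nat.floor_le (zero_le_one.trans h1))
      exact_mod_cast Nat.pow_log_le_self 2 h2
    · rw [← div_le_iff₀ M0]
      refine (Nat.lt_floor_add_one _).le.trans ?_
      exact_mod_cast Nat.lt_pow_succ_log_self one_lt_two ⌊NN I / M⌋₊
  rw [← sum_fiberwise_of_maps_to (t := 𝒩.image g) (g := g) fun I hI => mem_image_of_mem g hI]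
  have blk : ∀ j ∈ 𝒩.image g, ∑ I ∈ 𝒩 with g I = j, NN I ^ (-σ) ≤
      2 * C * M ^ (1 - σ) * (2 ^ (1 - σ)) ^ j := fun j _ => by
    have h1 : ((𝒩.filter fun I => g I = j).card : ℝ) ≤ C * (2 ^ (j + 1) * M) :=
      h _ _ (by positivity) fun I hI => by
        obtain ⟨h2, h3⟩ := mem_filter.1 hI
        refine ⟨fun e => ?_, h3 ▸ (key I h2).2⟩
        have := hN I h2
        rw [e] at this
        simp only [NN, Ideal.absNorm_bot, Nat.cast_zero] at this
        linarith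
    have h2 : ∑ I ∈ 𝒩 with g I = j, NN I ^ (-σ) ≤
        (𝒩.filter fun I => g I = j).card • ((2 : ℝ) ^ j * M) ^ (-σ) :=
      sum_le_card_nsmul _ _ _ fun I hI => by
        obtain ⟨h2, h3⟩ := mem_filter.1 hI
        exact Real.rpow_le_rpow_of_nonpos (by positivity) (h3 ▸ (key I h2).1) (by linarith)
    rw [nsmul_eq_mul] at h2
    refine h2.trans ((mul_le_mul_of_nonneg_right h1 (by positivity)).trans_eq ?_)
    rw [← Real.rpow_mul_natCast zero_le_two, mul_comm (1 - σ), Real.rpow_natCast_mul zero_le_two,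
      Real.mul_rpow (by positivity) M0.le, sub_eq_add_neg, Real.rpow_add M0,
      Real.rpow_add (by positivity), Real.rpow_one, Real.rpow_one]
    ring
  refine (sum_le_sum blk).trans ?_
  rw [← mul_sum]
  have h3 := (summable_geometric_of_lt_one r0 r1).sum_le_tsum (𝒩.image g) fun j _ => pow_nonneg r0 j
  rw [tsum_geometric_of_lt_one r0 r1] at h3
  refine (mul_le_mul_of_nonneg_left h3 (by positivity)).trans ?_
  rw [mul_right_comm]
  exact mul_le_mul_of_nonneg_right (le_max_right _ _) (by positivity)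

theorem cop {a b : 𝓞 K} (ha : a ≠ 0) (hb : b ≠ 0) (h : Disjoint (pr a) (pr b)) : IsCoprime a b := by
  rw [← Ideal.isCoprime_span_singleton_iff, Ideal.isCoprime_iff_sup_eq]
  by_contra e
  obtain ⟨m, hm, hle⟩ := Ideal.exists_le_maximal _ e
  have h1 : a ∈ m := hle (Ideal.mem_sup_left (Ideal.mem_span_singleton_self a))
  have h2 : b ∈ m := hle (Ideal.mem_sup_right (Ideal.mem_span_singleton_self b))
  let v : Pl K := ⟨m, hm.isPrime, fun e => ha (by simpa [e] using h1)⟩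
  exact disjoint_left.1 h ((mem_pr (v := v) ha).2 h1) ((mem_pr (v := v) hb).2 h2)

theorem pick {J : Type} (P : J → 𝓞 K → Prop) (x : J → ℕ)
    (h : ∀ j (W : ℝ), ∃ t, t ≠ 0 ∧ P j t ∧ (pr t).card ≤ x j ∧ ∀ v ∈ pr t, W ≤ NN v.asIdeal)
    (W : ℝ) (s : Finset J) : ∃ t : J → 𝓞 K,
      (∀ j, t j ≠ 0 ∧ P j (t j) ∧ (pr (t j)).card ≤ x j ∧ ∀ v ∈ pr (t j), W ≤ NN v.asIdeal) ∧
      ∀ i ∈ s, ∀ j ∈ s, i ≠ j → Disjoint (pr (t i)) (pr (t j)) := by
  induction s using Finset.induction_on with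
  | empty =>
    choose t ht using fun j => h j W
    exact ⟨t, ht, by simp⟩
  | insert a s ha ih =>
    obtain ⟨t, h1, h2⟩ := ih
    obtain ⟨u, u0, uP, uc, uW⟩ := h a (max W (1 + ∑ v ∈ s.biUnion fun j => pr (t j), NN v.asIdeal))
    have hd : ∀ j ∈ s, Disjoint (pr u) (pr (t j)) := fun j hj => disjoint_left.2 fun v hv hv' => by
      have h3 := (le_max_right _ _).trans (uW v hv)
      have h4 := single_le_sum (f := fun v : Pl K => NN v.asIdeal) (fun _ _ => Nat.cast_nonneg _)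
        (mem_biUnion.2 ⟨j, hj, hv'⟩ : v ∈ s.biUnion fun j => pr (t j))
      linarith
    have hne : ∀ j ∈ s, j ≠ a := fun j hj e => ha (e ▸ hj)
    refine ⟨Function.update t a u, fun j => ?_, fun i hi j hj hij => ?_⟩
    · rcases eq_or_ne j a with rfl | e
      · rw [Function.update_self]
        exact ⟨u0, uP, uc, fun v hv => (le_max_left _ _).trans (uW v hv)⟩
      · rw [Function.update_of_ne e]
        exact h1 j
    · rcases mem_insert.1 hi with rfl | hi' <;> rcases mem_insert.1 hj with rfl | hj'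
      · exact absurd rfl hij
      · rw [Function.update_self, Function.update_of_ne (hne j hj')]
        exact hd j hj'
      · rw [Function.update_self, Function.update_of_ne (hne i hi')]
        exact (hd i hi').symm
      · rw [Function.update_of_ne (hne i hi'), Function.update_of_ne (hne j hj')]
        exact h2 i hi' j hj' hij

end PCnt

theorem x_cnt (c : Ctx k K) : X_Cnt K := by
  refine ⟨PCnt.count K, fun σ hσ => ⟨?_, PCnt.tail K hσ⟩⟩
  obtain ⟨C, -, h⟩ := PCnt.tail K hσ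
  refine summable_of_sum_le (c := C * 1 ^ (1 - σ)) (fun I => by positivity) fun s => ?_
  rw [← sum_filter_of_ne (p := fun I => I ≠ ⊥) fun I _ hI e => hI (by
    simp [e, NN, Real.zero_rpow (by linarith : -σ ≠ 0)])]
  exact h 1 _ le_rfl fun I hI => PCnt.one_le (mem_filter.1 hI).2

theorem x_ext (c : Ctx k K) : X_Ext K := by
  intro J _ P h
  choose x hx using h
  refine ⟨∑ j, x j, fun ε W hε => ?_⟩
  have h1 : Filter.Tendsto (fun W : ℝ => (1 + W⁻¹) ^ ∑ j, x j) Filter.atTop (nhds 1) := by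
    simpa using (tendsto_inv_atTop_zero.const_add (1 : ℝ)).pow (∑ j, x j)
  obtain ⟨W', ⟨h2, h3⟩, h4⟩ := (((h1.eventually_le_const (by linarith : (1 : ℝ) < 1 + ε)).and
    (Filter.eventually_ge_atTop W)).and (Filter.eventually_gt_atTop 0)).exists
  obtain ⟨t, ht, hd⟩ := PCnt.pick P x hx W' univ
  have h5 : (1 : ℝ) ≤ 1 + W'⁻¹ := le_add_of_nonneg_right (by positivity)
  have h6 : ∏ j, dv (t j) ≤ 1 + ε := by
    refine le_trans ?_ h2
    rw [← prod_pow_eq_pow_sum]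
    refine prod_le_prod (fun j _ => zero_le_one.trans (one_le_dv _)) fun j _ => ?_
    refine le_trans ?_ (pow_le_pow_right₀ h5 (ht j).2.2.1)
    rw [dv, ← prod_const]
    exact prod_le_prod (fun v _ => by positivity) fun v hv =>
      add_le_add_right (inv_anti₀ h4 ((ht j).2.2.2 v hv)) _
  refine ⟨t, univ.biUnion fun j => pr (t j), card_biUnion_le.trans (sum_le_sum fun j _ => (ht j).2.2.1),
    fun v hv => ?_, fun j => ⟨(ht j).1, (ht j).2.1, subset_biUnion_of_mem (fun j => pr (t j)) (mem_univ j), ?_⟩,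
    fun i j hij => PCnt.cop (ht i).1 (ht j).1 (hd i (mem_univ _) j (mem_univ _) hij), h6⟩
  · obtain ⟨j, -, hj⟩ := mem_biUnion.1 hv
    exact h3.trans ((ht j).2.2.2 v hj)
  · refine le_trans ?_ h6
    rw [← mul_prod_erase _ _ (mem_univ j)]
    exact le_mul_of_one_le_right (zero_le_one.trans (one_le_dv _))
      (one_le_prod fun i _ => one_le_dv _)

end Pool.Agent.P.MP_b8021b_nt.BS
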