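import Pool.Agent.P.MP_b8021b_nt.BS.PDec

/-! The number of integers of bounded size in finitely many square classes. -/

namespace Pool.Agent.P.MP_b8021b_nt.BS

open NumberField IsDedekindDomain Finset MeasureTheory
open Pool.Agent.P.MP_b8021b_nt.VE Pool.Agent.P.MP_b8021b_nt.VC Pool.Agent.P.MP_b8021b_nt.BS.CF
open scoped Classical ComplexConjugate Real
variable {k : Type} [Field k] [NumberField k] [Algebra k ℂ] {K : Type} [Field K] [NumberField K] [Algebra k K]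

namespace PDG

/-- a small common denominator for the square class of `x₀` -/
theorem denom (c : Ctx k K) : ∃ A : ℝ, 1 ≤ A ∧ ∀ x₀ : 𝓞 K, x₀ ≠ 0 → ∃ δ : 𝓞 K, δ ≠ 0 ∧
    (∀ φ, ‖emb k δ φ‖ ^ 2 ≤ A ^ 2 * ‖emb k x₀ φ‖) ∧
    ∀ (x : 𝓞 K) (z : K), x ≠ 0 → (x : K) = x₀ * z ^ 2 → ∃ w : 𝓞 K, (w : K) = z * δ := by
  obtain ⟨B, -⟩ := c.bf
  obtain ⟨Q, h2, hQ⟩ := c.small
  obtain ⟨C, hC⟩ := c.lib.bal k B (Module.finrank k K)
  refine ⟨Q ^ C, one_le_pow₀ (by linarith), fun x₀ h0 => ?_⟩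
  have hs : sp x₀ ≠ ⊥ := by simpa [sp] using h0
  obtain ⟨n, m, hn, hm, e⟩ := PDec.ex_dec (sp x₀) hs
  have hr : 0 < rk k K := one_pos.trans_le c.one_le_rk
  have hz := emb_ne_zero (k := k) h0
  obtain ⟨δ, hδ, hδ0, hb⟩ := hC K rfl Q m
    (fun φ => lg (emb k x₀) φ / 2 - Real.log (nz (emb k x₀)) / (4 * rk k K)) h2 hQ hm (by
      rw [sum_sub_distrib, sum_const, card_univ, c.card_emb, nsmul_eq_mul, log_nz hz, ← sum_div]
      field_simp
      ring)
  refine ⟨δ, hδ0, fun φ => ?_, fun x z hx hxz => ?_⟩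
  · have h1 : NN m ^ 2 ≤ nz (emb k x₀) := by
      rw [← c.NN_eq, ← e, NN_mul, sq m, NN_mul, ← sq]
      exact le_mul_of_one_le_left (by positivity) (one_le_NN hn.ne_zero)
    have h3 : 2 * Real.log (NN m) ≤ Real.log (nz (emb k x₀)) := by
      have := Real.log_le_log (pow_pos (NN_pos hm) 2) h1
      rwa [Real.log_pow, Nat.cast_ofNat] at this
    have h4 : NN m ^ (1 / (2 * rk k K)) * Real.exp (lg (emb k x₀) φ / 2 -
        Real.log (nz (emb k x₀)) / (4 * rk k K)) ≤ Real.exp (lg (emb k x₀) φ / 2) := by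
      rw [Real.rpow_def_of_pos (NN_pos hm), ← Real.exp_add, Real.exp_le_exp]
      have : Real.log (NN m) * (1 / (2 * rk k K)) ≤ Real.log (nz (emb k x₀)) / (4 * rk k K) := by
        rw [le_div_iff₀ (by positivity)]
        refine le_of_eq_of_le ?_ h3
        field_simp
        ring
      linarith
    have h5 : ‖emb k δ φ‖ ≤ Q ^ C * Real.exp (lg (emb k x₀) φ / 2) :=
      (hb φ).trans (by rw [mul_assoc]; exact mul_le_mul_of_nonneg_left h4 (by positivity))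
    refine (pow_le_pow_left₀ (norm_nonneg _) h5 2).trans (le_of_eq ?_)
    rw [mul_pow, ← Real.exp_nat_mul, Nat.cast_ofNat, mul_div_cancel₀ _ two_ne_zero, lg,
      Real.exp_log (norm_pos_iff.2 (hz φ))]
  · have z0 : z ≠ 0 := by
      rintro rfl
      exact hx (by simpa using hxz)
    have x0 : (x₀ : K) ≠ 0 := by simpa using h0
    have d0 : (δ : K) ≠ 0 := by simpa using hδ0
    refine ⟨⟨z * δ, isIntegral_iff.2 fun v => (od_nonneg_iff v (mul_ne_zero z0 d0)).1 ?_⟩, rfl⟩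
    have a1 := congrArg (od v) hxz
    rw [od_mul v x0 (pow_ne_zero 2 z0), od_pow, od_coe v hx, od_coe v h0] at a1
    have a2 := congrArg (cnt v) e
    rw [cnt_mul v hn.ne_zero (pow_ne_zero 2 hm), cnt_pow v hm] at a2
    have a3 := (squarefree_iff_cnt hn.ne_zero).1 hn v
    have a4 := (dvd_iff_cnt hm (by simpa using hδ0)).1 (Ideal.dvd_span_singleton.2 hδ) v
    rw [od_mul v z0 d0, od_coe v hδ0]
    simp only [sp] at a2
    push_cast at a1
    omega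

/-- the count in one square class -/
theorem one_class (c : Ctx k K) (hGS : X_GS k K) : ∃ C : ℝ, 1 ≤ C ∧ ∀ (ρ : ℝ) (S : Finset (𝓞 K)),
    1 ≤ ρ → (∀ x ∈ S, x ≠ 0 ∧ ‖emb k x‖ ≤ ρ) →
    (∀ x ∈ S, ∀ y ∈ S, ∃ z : K, (x : K) = y * z ^ 2) → (S.card : ℝ) ≤ C * ρ ^ rk k K := by
  obtain ⟨-, C, hC, hG, -⟩ := hGS
  obtain ⟨A, hA, hD⟩ := denom c
  have hr : 0 < rk k K := one_pos.trans_le c.one_le_rk
  have hA' : 1 ≤ A ^ (2 * rk k K) := Real.one_le_rpow hA (by positivity)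
  refine ⟨C * A ^ (2 * rk k K), one_le_mul_of_one_le_of_one_le hC hA', fun ρ S hρ hS hz => ?_⟩
  rcases S.eq_empty_or_nonempty with rfl | ⟨x₀, hx₀⟩
  · simp only [card_empty, Nat.cast_zero]
    positivity
  obtain ⟨δ, hδ, hb, hw⟩ := hD x₀ (hS _ hx₀).1
  have d0 : (δ : K) ≠ 0 := by simpa using hδ
  have key : ∀ x ∈ S, ∃ w : 𝓞 K, x * δ ^ 2 = x₀ * w ^ 2 := fun x hx => by
    obtain ⟨z, e⟩ := hz x hx x₀ hx₀
    obtain ⟨w, ew⟩ := hw x z (hS x hx).1 e
    refine ⟨w, RingOfIntegers.ext ?_⟩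
    have : (x : K) * δ ^ 2 = x₀ * w ^ 2 := by rw [e, ew]; ring
    exact_mod_cast this
  choose! w hw' using key
  have hi : Set.InjOn w S := fun x hx y hy e =>
    mul_right_cancel₀ (pow_ne_zero 2 hδ) (by rw [hw' x hx, hw' y hy, e])
  have s1 : 1 ≤ √ρ := Real.one_le_sqrt.2 hρ
  have := hG (A * √ρ) (S.image w) (one_le_mul_of_one_le_of_one_le hA s1) fun y hy => ?_
  · rw [card_image_of_injOn hi, Real.mul_rpow (by linarith) (by linarith), Real.sqrt_eq_rpow,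
      ← Real.rpow_mul (by linarith), ← mul_assoc] at this
    rwa [show 1 / 2 * (2 * rk k K) = rk k K by ring] at this
  obtain ⟨x, hx, rfl⟩ := mem_image.1 hy
  refine (pi_norm_le_iff_of_nonneg (by positivity)).2 fun φ => ?_
  have e := congrArg (fun a => ‖emb k a φ‖) (hw' x hx)
  simp only [sq, emb_mul, Pi.mul_apply, norm_mul] at e
  have p0 := norm_pos_iff.2 (emb_ne_zero (k := k) (hS _ hx₀).1 φ)
  have p1 : ‖emb k x φ‖ ≤ ρ := (norm_le_pi_norm _ φ).trans (hS x hx).2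
  refine (pow_le_pow_iff_left₀ (norm_nonneg _) (by positivity) two_ne_zero).1 ?_
  rw [mul_pow, Real.sq_sqrt (by linarith)]
  refine le_of_mul_le_mul_left ?_ p0
  rw [sq, ← e, ← sq]
  calc _ ≤ ρ * (A ^ 2 * ‖emb k x₀ φ‖) := mul_le_mul p1 (hb φ) (by positivity) (by linarith)
    _ = _ := by ring

end PDG

theorem x_dG (c : Ctx k K) (hGS : X_GS k K) : X_DG k K := by
  obtain ⟨C, hC, h⟩ := PDG.one_class c hGS
  obtain ⟨Y, hY⟩ := (c.lib.es K).2 2 2 two_ne_zero two_ne_zero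
  have hY0 : (0 : ℝ) ≤ Y.card := Nat.cast_nonneg _
  refine ⟨(Y.card + 1) * C, one_le_mul_of_one_le_of_one_le (by linarith) hC,
    fun κ ρ S hκ hρ hS => ?_⟩
  have key : ∀ x ∈ S, ∃ y ∈ Y, ∃ z : K, ((κ * x : 𝓞 K) : K) = y * z ^ 2 := fun x hx =>
    hY _ (by simpa using ⟨hκ, (hS x hx).1⟩) fun v hv => by
      exact_mod_cast even_iff_two_dvd.1 ((hS x hx).2.2 v hv)
  choose! y hy using key
  have k0 : (κ : K) ≠ 0 := by simpa using hκ
  have hp : 0 ≤ C * ρ ^ rk k K := by positivity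
  rw [card_eq_sum_card_fiberwise (f := y) (t := Y) fun x hx => (hy x hx).1, Nat.cast_sum]
  refine (sum_le_card_nsmul _ _ (C * ρ ^ rk k K) fun y₀ _ => h ρ _ hρ
    (fun x hx => ⟨(hS x (mem_filter.1 hx).1).1, (hS x (mem_filter.1 hx).1).2.1⟩)
    fun x hx x' hx' => ?_).trans ?_
  · obtain ⟨hx, e⟩ := mem_filter.1 hx
    obtain ⟨hx', e'⟩ := mem_filter.1 hx'
    obtain ⟨-, z, a⟩ := hy x hx
    obtain ⟨-, z', a'⟩ := hy x' hx'
    rw [e] at a
    rw [e'] at a'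
    push_cast at a a'
    have z0 : z' ≠ 0 := by
      rintro rfl
      exact (hS x' hx').1 (by simpa [k0] using a')
    refine ⟨z / z', mul_left_cancel₀ k0 ?_⟩
    rw [← mul_assoc, a, a']
    field_simp
  · rw [nsmul_eq_mul, mul_assoc]
    exact mul_le_mul_of_nonneg_right (by linarith) hp

end Pool.Agent.P.MP_b8021b_nt.BS
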