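import Pool.Agent.P.MP_b8021b_nt.BS.BasicD

/-! Euler products with quadratic factors. -/

namespace Pool.Agent.P.MP_b8021b_nt.BS

open Finset Filter Topology ArithmeticFunction

namespace PEP2

/-- all partial sums of the norms of the terms are bounded by B -/
def Bd (s : ℂ) (f : ArithmeticFunction ℂ) (B : ℝ) : Prop :=
  ∀ T : Finset ℕ, ∑ n ∈ T, ‖LSeries.term f s n‖ ≤ B

variable {s : ℂ} {f g : ArithmeticFunction ℂ} {A B : ℝ}

theorem Bd.nonneg (h : Bd s f A) : 0 ≤ A := by simpa using h ∅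

theorem Bd.mono (h : Bd s f A) (hA : A ≤ B) : Bd s f B := fun T => (h T).trans hA

theorem Bd.sumN (h : Bd s f A) : Summable fun n => ‖LSeries.term f s n‖ :=
  summable_of_sum_le (fun _ => norm_nonneg _) h

theorem Bd.summable (h : Bd s f A) : LSeriesSummable f s := h.sumN.of_norm

theorem Bd.norm_le (h : Bd s f A) : ‖LSeries f s‖ ≤ A :=
  (norm_tsum_le_tsum_norm h.sumN).trans (h.sumN.tsum_le_of_sum_le h)

theorem coe_add' (f g : ArithmeticFunction ℂ) : (⇑(f + g) : ℕ → ℂ) = ⇑f + ⇑g := rfl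

theorem coe_sub' (f g : ArithmeticFunction ℂ) : (⇑(f - g) : ℕ → ℂ) = ⇑f - ⇑g := by
  ext n
  simp [sub_eq_add_neg, ArithmeticFunction.neg_apply]

theorem Bd.add (hf : Bd s f A) (hg : Bd s g B) : Bd s (f + g) (A + B) := fun T => by
  refine le_trans (sum_le_sum fun n _ => ?_) (sum_add_distrib.trans_le (add_le_add (hf T) (hg T)))
  rw [coe_add', LSeries.term_add_apply]
  exact norm_add_le _ _

theorem Bd.mul (hf : Bd s f A) (hg : Bd s g B) : Bd s (f * g) (A * B) := fun T => by
  set R := range (T.sup id + 1)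
  set F : ℕ × ℕ → ℝ := fun p => ‖LSeries.term f s p.1‖ * ‖LSeries.term g s p.2‖ with hF
  have h0 : ∀ p, 0 ≤ F p := fun p => mul_nonneg (norm_nonneg _) (norm_nonneg _)
  calc ∑ n ∈ T, ‖LSeries.term (f * g : ArithmeticFunction ℂ) s n‖
      ≤ ∑ n ∈ T, ∑ p ∈ R ×ˢ R with p.1 * p.2 = n, F p := by
        refine sum_le_sum fun n hn => ?_
        rw [← ArithmeticFunction.coe_mul, LSeries.term_convolution]
        refine (norm_sum_le _ _).trans ?_
        simp only [norm_mul]
        refine sum_le_sum_of_subset_of_nonneg (fun p hp => ?_) fun p _ _ => h0 p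
        have hn' : n ≤ T.sup id := le_sup (f := id) hn
        have h1 := Nat.divisor_le (Nat.fst_mem_divisors_of_mem_antidiagonal hp)
        have h2 := Nat.divisor_le (Nat.snd_mem_divisors_of_mem_antidiagonal hp)
        simp only [R, mem_filter, mem_product, mem_range]
        exact ⟨⟨by omega, by omega⟩, (Nat.mem_divisorsAntidiagonal.1 hp).1⟩
    _ ≤ ∑ p ∈ R ×ˢ R, F p :=
        sum_fiberwise_le_sum_of_sum_fiber_nonneg fun _ _ => sum_nonneg fun p _ => h0 p
    _ = (∑ n ∈ R, ‖LSeries.term f s n‖) * ∑ n ∈ R, ‖LSeries.term g s n‖ := by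
        rw [sum_mul_sum, sum_product]
    _ ≤ A * B := mul_le_mul (hf R) (hg R) (sum_nonneg fun _ _ => norm_nonneg _) hf.nonneg

theorem bd_zero : Bd s 0 0 := fun T => by
  refine (sum_eq_zero fun n _ => ?_).le
  simp [LSeries.norm_term_eq]

theorem coe_one' : (⇑(1 : ArithmeticFunction ℂ) : ℕ → ℂ) = LSeries.delta := by
  ext n
  simp [one_apply, LSeries.delta]

theorem bd_one : Bd s 1 1 := fun T => by
  have : ∀ n, ‖LSeries.term (1 : ArithmeticFunction ℂ) s n‖ = if n = 1 then 1 else 0 := by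
    intro n
    rw [coe_one', LSeries.term_delta]
    split_ifs <;> simp
  simp only [this, sum_ite_eq']
  split_ifs <;> simp

theorem Bd.of_sub (h : Bd s (f - 1) (A - 1)) : Bd s f A := by
  simpa using h.add bd_one

theorem Bd.mul_sub (hf : Bd s (f - 1) (Real.exp A - 1)) (hg : Bd s (g - 1) (Real.exp B - 1)) :
    Bd s (f * g - 1) (Real.exp (A + B) - 1) := by
  have h := (hf.of_sub.mul hg).add hf
  rw [show f * (g - 1) + (f - 1) = f * g - 1 by ring] at h
  exact h.mono (le_of_eq (by rw [Real.exp_add]; ring))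

theorem bd_prod {ι : Type} (F : ι → ArithmeticFunction ℂ) (e : ι → ℝ)
    (h : ∀ i, Bd s (F i - 1) (Real.exp (e i) - 1)) (S : Finset ι) :
    Bd s (∏ i ∈ S, F i - 1) (Real.exp (∑ i ∈ S, e i) - 1) := by
  classical
  induction S using Finset.induction_on with
  | empty => simpa using bd_zero
  | insert i S hi ih =>
    rw [prod_insert hi, sum_insert hi]
    exact (h i).mul_sub ih

theorem hasSum_prod {ι : Type} (F : ι → ArithmeticFunction ℂ) (a : ι → ℂ)
    (h : ∀ i, LSeriesHasSum (F i) s (a i)) (S : Finset ι) :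
    LSeriesHasSum (∏ i ∈ S, F i : ArithmeticFunction ℂ) s (∏ i ∈ S, a i) := by
  classical
  induction S using Finset.induction_on with
  | empty =>
    have h1 := (bd_one (s := s)).summable.LSeriesHasSum
    rw [coe_one', LSeries_delta] at h1
    rw [prod_empty, prod_empty, coe_one']
    exact h1
  | insert i S hi ih =>
    rw [prod_insert hi, prod_insert hi]
    exact LSeriesHasSum_mul (h i) ih

/-- the abstract Euler product -/
theorem euler {ι : Type} (F : ι → ArithmeticFunction ℂ) (E : ArithmeticFunction ℂ) (a : ι → ℂ)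
    (e : ι → ℝ) (he : Summable e) (h : ∀ i, Bd s (F i - 1) (Real.exp (e i) - 1))
    (ha : ∀ i, LSeriesHasSum (F i) s (a i))
    (hE : ∀ n, ∀ᶠ S : Finset ι in atTop, (∏ i ∈ S, F i) n = E n) :
    LSeriesSummable E s ∧ HasProd a (LSeries E s) := by
  classical
  have e0 : ∀ i, 0 ≤ e i := fun i => by
    have := (h i).nonneg
    exact Real.one_le_exp_iff.1 (by linarith)
  have key : ∀ S : Finset ι, Bd s (E - ∏ i ∈ S, F i)
      (Real.exp (∑' i, e i) - Real.exp (∑ i ∈ S, e i)) := by
    intro S T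
    obtain ⟨S', h1, h2⟩ := (((eventually_all_finset T).2 fun n _ => hE n).and
      (eventually_ge_atTop S)).exists
    have h3 := (bd_prod F e h S).of_sub.mul (bd_prod F e h (S' \ S))
    rw [mul_sub, mul_one, mul_comm, prod_sdiff h2, mul_sub, mul_one, ← Real.exp_add, add_comm,
      sum_sdiff h2] at h3
    have h4 : Real.exp (∑ i ∈ S', e i) ≤ Real.exp (∑' i, e i) :=
      Real.exp_le_exp.2 (he.sum_le_tsum S' fun i _ => e0 i)
    refine le_trans (le_of_eq (sum_congr rfl fun n hn => ?_)) ((h3 T).trans (by linarith))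
    simp only [LSeries.norm_term_eq, coe_sub', Pi.sub_apply, h1 n hn]
  have hs : LSeriesSummable E s := by
    have := ((key ∅).add (bd_one (s := s))).summable
    simpa using this
  refine ⟨hs, ?_⟩
  have lim : Tendsto (fun S : Finset ι => Real.exp (∑' i, e i) - Real.exp (∑ i ∈ S, e i)) atTop
      (𝓝 0) := by
    have h1 : Tendsto (fun S : Finset ι => ∑ i ∈ S, e i) atTop (𝓝 (∑' i, e i)) := he.hasSum
    have h2 := ((Real.continuous_exp.tendsto _).comp h1).const_sub (Real.exp (∑' i, e i))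
    simpa using h2
  change Tendsto (fun S : Finset ι => ∏ i ∈ S, a i) atTop (𝓝 _)
  refine tendsto_iff_norm_sub_tendsto_zero.2 (squeeze_zero (fun _ => norm_nonneg _)
    (fun S => ?_) lim)
  have h1 := hasSum_prod F a ha S
  have h2 := (key S).norm_le
  rwa [coe_sub', LSeries_sub hs h1.LSeriesSummable, h1.LSeries_eq, norm_sub_rev] at h2

theorem term_pow {q : ℕ} (hq : 1 < q) (G : PowerSeries ℂ) (k : ℕ) :
    LSeries.term (ofPowerSeries q G) s (q ^ k) = G.coeff k * ((q : ℂ) ^ (-s)) ^ k := by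
  rw [LSeries.term_of_ne_zero (pow_ne_zero _ (by omega)), ofPowerSeries_apply_pow hq,
    Nat.cast_pow, ← Complex.natCast_cpow_natCast_mul, Complex.cpow_nat_mul, Complex.cpow_neg,
    inv_pow, div_eq_mul_inv]

theorem term_not {q : ℕ} (hq : 1 < q) (G : PowerSeries ℂ) (n : ℕ)
    (hn : n ∉ Set.range (q ^ ·)) : LSeries.term (ofPowerSeries q G) s n = 0 := by
  rw [LSeries.term_def, ofPowerSeries_apply hq, Function.extend_apply' _ _ _ hn]
  simp

/-- the geometric series -/
noncomputable def geo (a : ℂ) : PowerSeries ℂ := PowerSeries.mk fun k => a ^ k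

theorem geo_mul (a : ℂ) : (1 - PowerSeries.C a * PowerSeries.X) * geo a = 1 := by
  ext n
  cases n with
  | zero => simp [geo, sub_mul, mul_assoc]
  | succ n => simp [geo, sub_mul, mul_assoc, PowerSeries.coeff_succ_X_mul, pow_succ']

theorem hasSum_geo {q : ℕ} (hq : 1 < q) {a : ℂ} (ha : ‖a * (q : ℂ) ^ (-s)‖ < 1) :
    LSeriesHasSum (ofPowerSeries q (geo a)) s (1 - a * (q : ℂ) ^ (-s))⁻¹ := by
  refine ((Nat.pow_right_injective hq).hasSum_iff (term_not hq _)).1 ?_
  simpa only [Function.comp_def, term_pow hq, geo, PowerSeries.coeff_mk, mul_pow] using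
    hasSum_geometric_of_norm_lt_one ha

theorem bd_geo {q : ℕ} (hq : 1 < q) {a : ℂ} {r : ℝ} (hr : ‖a * (q : ℂ) ^ (-s)‖ = r) (h1 : r < 1) :
    Bd s (ofPowerSeries q (geo a) - 1) (Real.exp (r / (1 - r)) - 1) := by
  have h0 : 0 ≤ r := hr ▸ norm_nonneg _
  have h2 : HasSum (fun n => ‖LSeries.term (ofPowerSeries q (geo a - 1)) s n‖) (r / (1 - r)) := by
    refine ((Nat.pow_right_injective hq).hasSum_iff fun n hn => by
      rw [term_not hq _ n hn, norm_zero]).1 ?_
    rw [← hasSum_nat_add_iff' 1]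
    have h3 : ∀ k, ‖LSeries.term (ofPowerSeries q (geo a - 1)) s (q ^ (k + 1))‖ = r * r ^ k := by
      intro k
      rw [term_pow hq, map_sub, geo, PowerSeries.coeff_mk, PowerSeries.coeff_one,
        if_neg k.succ_ne_zero, sub_zero, ← mul_pow, norm_pow, hr, pow_succ']
    have h4 : ‖LSeries.term (ofPowerSeries q (geo a - 1)) s (q ^ 0)‖ = 0 := by
      rw [term_pow hq]
      simp [geo]
    simp only [Function.comp_apply, h3, sum_range_one, h4, sub_zero, div_eq_mul_inv]
    exact (hasSum_geometric_of_lt_one h0 h1).mul_left r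
  rw [map_sub, map_one] at h2
  intro T
  have h3 := sum_le_hasSum T (fun _ _ => norm_nonneg _) h2
  linarith [Real.add_one_le_exp (r / (1 - r))]

theorem summable_div {ι : Type} {r : ι → ℝ} (h0 : ∀ i, 0 ≤ r i) (h : Summable r) :
    Summable fun i => r i / (1 - r i) := by
  refine (h.mul_left 2).of_norm_bounded_eventually ?_
  filter_upwards [h.tendsto_cofinite_zero.eventually_lt_const (show (0 : ℝ) < 1 / 2 by norm_num)]
    with i hi
  have h1 : 0 < 1 - r i := by linarith
  rw [Real.norm_of_nonneg (div_nonneg (h0 i) h1.le), div_le_iff₀ h1]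
  nlinarith [h0 i]

theorem cast_factor {q : ℕ} (hq : 1 < q) {P : Polynomial ℤ} {α β : ℂ}
    (h : P.map (Int.castRingHom ℂ) =
      (1 - Polynomial.C α * Polynomial.X) * (1 - Polynomial.C β * Polynomial.X)) :
    ((ofPowerSeries q (PowerSeries.invOfUnit (P : PowerSeries ℤ) 1) : ArithmeticFunction ℤ) :
      ArithmeticFunction ℂ) = ofPowerSeries q (geo α) * ofPowerSeries q (geo β) := by
  have h0 : P.coeff 0 = 1 := by
    have := congrArg (fun Q => Polynomial.coeff Q 0) h
    simpa using this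
  have h1 := congrArg (PowerSeries.map (Int.castRingHom ℂ))
    (PowerSeries.mul_invOfUnit (P : PowerSeries ℤ) 1 (by simpa using h0))
  have h2 : PowerSeries.map (Int.castRingHom ℂ) (P : PowerSeries ℤ) =
      (1 - PowerSeries.C α * PowerSeries.X) * (1 - PowerSeries.C β * PowerSeries.X) := by
    rw [← Polynomial.polynomial_map_coe, h]
    simp
  rw [map_mul, map_one, h2] at h1
  have h3 : PowerSeries.map (Int.castRingHom ℂ) (PowerSeries.invOfUnit (P : PowerSeries ℤ) 1) =
      geo α * geo β := by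
    refine left_inv_eq_right_inv ((mul_comm _ _).trans h1) ?_
    rw [mul_mul_mul_comm, geo_mul, geo_mul, one_mul]
  rw [← map_mul, ← h3]
  ext n
  rw [intCoe_apply, ofPowerSeries_apply hq, ofPowerSeries_apply hq]
  by_cases hn : ∃ k, q ^ k = n
  · obtain ⟨k, rfl⟩ := hn
    simp [(Nat.pow_right_injective hq).extend_apply]
  · simp [Function.extend_apply' _ _ _ hn]

theorem cast_prod {ι : Type} (F : ι → ArithmeticFunction ℤ) (S : Finset ι) :
    ((∏ i ∈ S, F i : ArithmeticFunction ℤ) : ArithmeticFunction ℂ) =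
      ∏ i ∈ S, (F i : ArithmeticFunction ℂ) := by
  classical
  induction S using Finset.induction_on with
  | empty => simp
  | insert i S hi ih => rw [prod_insert hi, prod_insert hi, intCoe_mul, ih]

end PEP2

open PEP2 in
theorem x_eP2 : X_EP2 := by
  intro ι q P α β s hq hfin hP hlt hsum
  have hN : Northcott q := ⟨hfin⟩
  have hx : ∀ i, 0 < (q i : ℝ) := fun i => by exact_mod_cast lt_of_lt_of_le two_pos (hq i)
  have hn : ∀ (i) (a : ℂ), ‖a * (q i : ℂ) ^ (-s)‖ = ‖a‖ * (q i : ℝ) ^ (-s.re) := fun i a => by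
    rw [norm_mul, Complex.norm_natCast_cpow_of_pos (lt_of_lt_of_le two_pos (hq i)),
      Complex.neg_re]
  have hl : ∀ (i) (a : ℂ), ‖a‖ < (q i : ℝ) ^ s.re → ‖a‖ * (q i : ℝ) ^ (-s.re) < 1 :=
    fun i a h => by
      rwa [Real.rpow_neg (hx i).le, ← div_eq_mul_inv, div_lt_one (Real.rpow_pos_of_pos (hx i) _)]
  have h0 : ∀ (i) (a : ℂ), 0 ≤ ‖a‖ * (q i : ℝ) ^ (-s.re) := fun i a => hn i a ▸ norm_nonneg _
  have sa : Summable fun i => ‖α i‖ * (q i : ℝ) ^ (-s.re) :=
    hsum.of_nonneg_of_le (fun i => h0 i _) fun i => by linarith [h0 i (β i)]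
  have sb : Summable fun i => ‖β i‖ * (q i : ℝ) ^ (-s.re) :=
    hsum.of_nonneg_of_le (fun i => h0 i _) fun i => by linarith [h0 i (α i)]
  refine euler (fun i => ofPowerSeries (q i) (geo (α i)) * ofPowerSeries (q i) (geo (β i)))
    ((eulerProduct fun i => ofPowerSeries (q i)
      (PowerSeries.invOfUnit (P i : PowerSeries ℤ) 1) : ArithmeticFunction ℤ) :
        ArithmeticFunction ℂ) _ _
    ((summable_div (fun i => h0 i _) sa).add (summable_div (fun i => h0 i _) sb))
    (fun i => (bd_geo (hq i) (hn i _) (hl i _ (hlt i).1)).mul_sub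
      (bd_geo (hq i) (hn i _) (hl i _ (hlt i).2))) (fun i => ?_) fun n => ?_
  · rw [mul_inv]
    exact LSeriesHasSum_mul (hasSum_geo (hq i) (hn i _ ▸ hl i _ (hlt i).1))
      (hasSum_geo (hq i) (hn i _ ▸ hl i _ (hlt i).2))
  · filter_upwards [tendsTo_eulerProduct_ofPowerSeries q
      (fun i => PowerSeries.invOfUnit (P i : PowerSeries ℤ) 1) (fun i => by simp) n] with S hS
    rw [intCoe_apply, ← hS, ← intCoe_apply, cast_prod]
    congr 2
    ext i : 1
    exact (cast_factor (hq i) (hP i)).symm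

end Pool.Agent.P.MP_b8021b_nt.BS
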