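import Pool.Agent.P.MP_b8021b_nt.BS.BasicD
import Pool.Agent.P.MP_b8021b_nt.BS.Fin

namespace Pool.Agent.P.MP_b8021b_nt.BS

open NumberField IsDedekindDomain Finset
open Pool.Agent.P.MP_b8021b_nt.VE Pool.Agent.P.MP_b8021b_nt.VC Pool.Agent.P.MP_b8021b_nt.BS.CF
open scoped Classical

variable {k : Type} [Field k] [NumberField k] [Algebra k ℂ] {K : Type} [Field K] [NumberField K]
  [Algebra k K]

theorem x_fin (c : Ctx k K) : X_Fin K := fun _ hb H =>
  let ⟨i, hi⟩ := c.om
  fin_pts (i := i) (by rw [hi]; ring) hb fun x y hx h => H x y h hx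

end Pool.Agent.P.MP_b8021b_nt.BS
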