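import Pool.Agent.P.MP_b8021b_nt.BS.BasicD

/-! The finite Fourier transform of a product over coprime moduli. -/

namespace Pool.Agent.P.MP_b8021b_nt.BS

open NumberField IsDedekindDomain Finset MeasureTheory
open Pool.Agent.P.MP_b8021b_nt.VE Pool.Agent.P.MP_b8021b_nt.VC Pool.Agent.P.MP_b8021b_nt.BS.CF
open scoped Classical ComplexConjugate Real

variable {k : Type} [Field k] [NumberField k] [Algebra k ℂ] {K : Type} [Field K] [NumberField K]
  [Algebra k K]

namespace PG1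

omit [NumberField K] in
theorem out_sub (q : Ideal (𝓞 K)) (x : 𝓞 K) : Quotient.out (Ideal.Quotient.mk q x) - x ∈ q :=
  Ideal.Quotient.eq.1 (Ideal.Quotient.mk_out _)

omit [NumberField K] in
theorem eq_of_out {q : Ideal (𝓞 K)} {x y : 𝓞 K ⧸ q} (h : Quotient.out x - Quotient.out y ∈ q) :
    x = y := by
  rw [← Ideal.Quotient.mk_out x, ← Ideal.Quotient.mk_out y]
  exact Ideal.Quotient.eq.2 h

omit [NumberField K] in
theorem bij {a b : 𝓞 K} (h : IsCoprime a b) :
    Function.Bijective fun j : (𝓞 K ⧸ sp a) × (𝓞 K ⧸ sp b) =>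
      Ideal.Quotient.mk (sp (a * b)) (b * Quotient.out j.1 + a * Quotient.out j.2) := by
  constructor
  · rintro ⟨x, y⟩ ⟨x', y'⟩ e
    obtain ⟨s, hs⟩ := Ideal.mem_span_singleton.1 (Ideal.Quotient.eq.1 e)
    refine Prod.ext (eq_of_out (Ideal.mem_span_singleton.2 ?_))
      (eq_of_out (Ideal.mem_span_singleton.2 ?_))
    · exact h.dvd_of_dvd_mul_left
        ⟨b * s - (Quotient.out y - Quotient.out y'), by linear_combination hs⟩
    · exact h.symm.dvd_of_dvd_mul_left
        ⟨a * s - (Quotient.out x - Quotient.out x'), by linear_combination hs⟩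
  · intro z
    obtain ⟨z, rfl⟩ := Ideal.Quotient.mk_surjective z
    obtain ⟨u, v, e⟩ := h
    obtain ⟨s, hs⟩ := Ideal.mem_span_singleton.1 (out_sub (sp a) (z * v))
    obtain ⟨t, ht⟩ := Ideal.mem_span_singleton.1 (out_sub (sp b) (z * u))
    exact ⟨(Ideal.Quotient.mk _ (z * v), Ideal.Quotient.mk _ (z * u)), Ideal.Quotient.eq.2
      (Ideal.mem_span_singleton.2 ⟨s + t, by linear_combination b * hs + a * ht + z * e⟩)⟩

theorem one (a b : 𝓞 K) (F G : 𝓞 K → ℂ) (ξ : K) (ha : a ≠ 0) (hb : b ≠ 0) (h : IsCoprime a b)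
    (hF : Peri (sp a) F) (hG : Peri (sp b) G) (hξ : ξ ∈ Dual (sp (a * b))) :
    ft (sp (a * b)) (fun x => F x * G x) ξ = ft (sp a) (fun x => F (b * x)) (ξ * (b : 𝓞 K)) *
      ft (sp b) (fun x => G (a * x)) (ξ * (a : 𝓞 K)) := by
  have : Finite (𝓞 K ⧸ sp a) := Ideal.finiteQuotientOfFreeOfNeBot _ (by simpa using ha)
  have : Finite (𝓞 K ⧸ sp b) := Ideal.finiteQuotientOfFreeOfNeBot _ (by simpa using hb)
  let _ := Fintype.ofFinite (𝓞 K ⧸ sp a)
  let _ := Fintype.ofFinite (𝓞 K ⧸ sp b)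
  have hP : Peri (sp (a * b)) fun x => F x * G x := fun x y e => by
    have e := Ideal.mem_span_singleton.1 e
    beta_reduce
    rw [hF x y (Ideal.mem_span_singleton.2 ((dvd_mul_right a b).trans e)),
      hG x y (Ideal.mem_span_singleton.2 ((dvd_mul_left b a).trans e))]
  rw [ft, (hP.etr hξ).finsum_eq _ (bij h), ft, ft, finsum_eq_sum_of_fintype,
    finsum_eq_sum_of_fintype, Fintype.sum_mul_sum, Fintype.sum_prod_type]
  refine sum_congr rfl fun x _ => sum_congr rfl fun y _ => ?_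
  have e : ξ * ((b * Quotient.out x + a * Quotient.out y : 𝓞 K) : K) =
      ξ * (b : 𝓞 K) * (Quotient.out x : 𝓞 K) + ξ * (a : 𝓞 K) * (Quotient.out y : 𝓞 K) := by
    push_cast
    ring
  rw [e, etr_add, hF _ (b * Quotient.out x) (Ideal.mem_span_singleton.2 ⟨Quotient.out y, by ring⟩),
    hG _ (a * Quotient.out y) (Ideal.mem_span_singleton.2 ⟨Quotient.out x, by ring⟩)]
  ring

theorem two (e q : Ideal (𝓞 K)) (a : 𝓞 K) (F : 𝓞 K → ℂ) (ξ : K) (he : e ≠ ⊥) (hq : q ≠ ⊥)
    (ha : a ∈ e) (h1 : a - 1 ∈ q) (hF : Peri q F) (hξ : ξ ∈ Dual (e * q)) :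
    ft (e * q) (fun x => if x ∈ e then F x else 0) ξ = ft q F (ξ * (a : 𝓞 K)) := by
  have : Finite (𝓞 K ⧸ q) := Ideal.finiteQuotientOfFreeOfNeBot _ hq
  have : Finite (𝓞 K ⧸ e * q) := Ideal.finiteQuotientOfFreeOfNeBot _ (mul_ne_zero he hq)
  let _ := Fintype.ofFinite (𝓞 K ⧸ q)
  let _ := Fintype.ofFinite (𝓞 K ⧸ e * q)
  have hP : Peri (e * q) fun x => if x ∈ e then F x else 0 := fun x y h => by
    have h' : x ∈ e ↔ y ∈ e := by
      have := Ideal.mul_le_left h
      exact ⟨fun hx => by simpa using e.sub_mem hx this, fun hy => by simpa using e.add_mem this hy⟩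
    beta_reduce
    rw [hF x y (Ideal.mul_le_right h), if_congr h' rfl rfl]
  rw [ft, ft, finsum_eq_sum_of_fintype, finsum_eq_sum_of_fintype]
  refine (Fintype.sum_of_injective
    (fun y : 𝓞 K ⧸ q => Ideal.Quotient.mk (e * q) (a * Quotient.out y)) ?_ _ _ ?_ ?_).symm
  · intro x y h
    have h3 : a * Quotient.out x - a * Quotient.out y ∈ e * q := Ideal.Quotient.eq.1 h
    have h2 := q.sub_mem (Ideal.mul_le_right h3)
      (q.mul_mem_right (Quotient.out x - Quotient.out y) h1)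
    exact eq_of_out (by convert h2 using 1; ring)
  · intro x hx
    rw [if_neg, zero_mul]
    refine fun h => hx ⟨Ideal.Quotient.mk q (Quotient.out x), ?_⟩
    beta_reduce
    conv_rhs => rw [← Ideal.Quotient.mk_out x]
    have h2 := (e * q).add_mem (Ideal.mul_mem_mul ha (out_sub q (Quotient.out x)))
      (Ideal.mul_mem_mul h h1)
    exact Ideal.Quotient.eq.2 (by convert h2 using 1; ring)
  · intro y
    have h2 := (hP.etr hξ).out (a * Quotient.out y)
    beta_reduce at h2 ⊢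
    rw [h2, if_pos (e.mul_mem_right _ ha), hF (a * Quotient.out y) (Quotient.out y)
      (by convert q.mul_mem_right (Quotient.out y) h1 using 1; ring)]
    push_cast
    rw [mul_assoc]

end PG1

theorem x_g1 (c : Ctx k K) : X_G1 K := ⟨PG1.one, PG1.two⟩

end Pool.Agent.P.MP_b8021b_nt.BS
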