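import Pool.Agent.P.MP_b8021b_nt.BS.BasicD
import Pool.Agent.P.MP_b8021b_nt.BS.PoiGs

/-! Quadratic Gauss sums of odd squarefree ideals. -/

namespace Pool.Agent.P.MP_b8021b_nt.BS

open NumberField IsDedekindDomain Finset MeasureTheory
open Pool.Agent.P.MP_b8021b_nt.VE Pool.Agent.P.MP_b8021b_nt.VC Pool.Agent.P.MP_b8021b_nt.BS.CF
open scoped Classical ComplexConjugate Real

variable {k : Type} [Field k] [NumberField k] [Algebra k ℂ] {K : Type} [Field K] [NumberField K]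
  [Algebra k K]

namespace PG2

theorem rp_leg (v : Pl K) (h2 : ¬ Dv 2 v) : PoiN.RP v.asIdeal fun x => leg x v := by
  have := v.isMaximal
  have : Finite (𝓞 K ⧸ v.asIdeal) := Ideal.finiteQuotientOfFreeOfNeBot _ v.ne_bot
  let _ := Fintype.ofFinite (𝓞 K ⧸ v.asIdeal)
  let _ := Ideal.Quotient.field v.asIdeal
  convert PoiN.rp_prime v.asIdeal h2 using 2 with x
  convert leg_eq_quad (v := v) (Ideal.Quotient.mk v.asIdeal) Ideal.Quotient.mk_surjective
    (fun _ => Ideal.Quotient.eq_zero_iff_mem) x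

theorem rp_eI (S : Finset (Pl K)) (h : ∀ v ∈ S, ¬ Dv 2 v) :
    PoiN.RP (eI S) fun x => jac x (eI S) := by
  induction S using Finset.induction_on with
  | empty => simpa [eI, jac_top] using PoiN.rp_top
  | insert v S hv ih =>
    rw [eI, prod_insert hv, ← eI]
    simp only [jac_mul_right, jac_prime]
    exact (rp_leg v (h v (mem_insert_self _ _))).prod (ih fun w hw => h w (mem_insert_of_mem hw))
      (IsCoprime.prod_right fun w hw => v.isCoprime_of_ne w fun e => hv (e ▸ hw))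

theorem dualI_iff {q : Ideal (𝓞 K)} {ξ : K} : PoiN.DualI q ξ ↔ ξ ∈ Dual q := by
  refine forall₂_congr fun a _ => exists_congr fun m => ?_
  rw [PoiN.tr]
  exact_mod_cast Iff.rfl

theorem gsI_eq {q : Ideal (𝓞 K)} (h : q ≠ ⊥) (ξ : K) :
    gsI q ξ = Ideal.absNorm q * PoiN.gs q (fun x => jac x q) ξ := by
  rw [PoiN.gs, PoiN.av, mul_div_cancel₀ _ (PoiN.nm_ne h), gsI, ft]
  simp only [etr, PoiN.ee, PoiN.tr, Complex.ofReal_ratCast]

end PG2

open PG2 in
theorem x_g2 (c : Ctx k K) : X_G2 K := by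
  intro q ξ hq h2 hξ
  have h0 : q ≠ ⊥ := hq.ne_zero
  have hr : PoiN.RP q fun x => jac x q := by
    obtain ⟨S, rfl⟩ := exists_eI hq
    refine rp_eI S fun v hv e => v.isPrime.ne_top (top_le_iff.1 ?_)
    rw [← Ideal.isCoprime_iff_sup_eq.1 h2]
    exact sup_le (eI_le_iff.2 hv) ((Ideal.span_singleton_le_iff_mem _).2 e)
  have hd := dualI_iff.2 hξ
  have hn := PoiN.nm_ne h0
  refine ⟨fun u => ?_, Real.le_sqrt_of_sq_le ?_, fun hp => ?_⟩
  · rw [gsI_eq h0, gsI_eq h0, hr.gs_mul h0 hd, mul_left_comm]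
  · have := NN_pos h0
    rw [gsI_eq h0, norm_mul, mul_pow, Complex.norm_natCast]
    refine (mul_le_mul_of_nonneg_left (hr.norm_gs_le h0 hd) (by positivity)).trans_eq ?_
    field_simp
  · obtain ⟨i, hi⟩ := c.om
    have hI : IsIntegral ℤ i := IsIntegral.of_pow two_pos (by rw [hi]; exact isIntegral_one.neg)
    obtain ⟨j, e⟩ : ∃ j : 𝓞 K, -1 = j * j :=
      ⟨⟨i, hI⟩, RingOfIntegers.ext (by simpa [sq] using hi.symm)⟩
    have e1 : jac (-1) q = 1 := by
      rw [e, jac_mul_left]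
      exact (hr.unit (x' := -j) (by simp [← e])).1
    rw [gsI_eq h0, mul_pow, hr.gs_sq h0 hd fun x hx => hp x (dualI_iff.1 (PoiN.dualI_top.2 hx)), e1]
    field_simp

end Pool.Agent.P.MP_b8021b_nt.BS
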