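import Pool.Agent.P.MP_b8021b_nt.BS.BasicD

/-! Root numbers. -/

namespace Pool.Agent.P.MP_b8021b_nt.BS

open NumberField IsDedekindDomain Finset MeasureTheory
open Pool.Agent.P.MP_b8021b_nt.VE Pool.Agent.P.MP_b8021b_nt.VC Pool.Agent.P.MP_b8021b_nt.BS.CF
open scoped Classical ComplexConjugate Real

variable {k : Type} [Field k] [NumberField k] [Algebra k ℂ] {K : Type} [Field K] [NumberField K]
  [Algebra k K]

namespace PG3

theorem inv_dual {t : 𝓞 K} (ht : t ≠ 0) : (t : K)⁻¹ ∈ Dual (sp t) := fun a ha => by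
  obtain ⟨r, rfl⟩ := Ideal.mem_span_singleton'.1 ha
  have h : (t : K) ≠ 0 := RingOfIntegers.coe_ne_zero_iff.2 ht
  have e : (t : K)⁻¹ * ((r * t : 𝓞 K) : K) = (r : K) * ((1 : 𝓞 K) : K) := by
    push_cast
    field_simp
  rw [e]
  exact coe_mem_dual ⊤ r 1 trivial

theorem prim {n : ℕ} (hn : Good K n) {t : 𝓞 K} (ht : Pri n t) (a : 𝓞 K)
    (h : (t : K)⁻¹ * (a : 𝓞 K) ∈ Dual (⊤ : Ideal (𝓞 K))) : a ∈ sp t := by
  obtain ⟨b, hb⟩ := hn.dual _ h
  obtain ⟨s, hs⟩ := ht.1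
  have h0 : (t : K) ≠ 0 := RingOfIntegers.coe_ne_zero_iff.2 ht.ne_zero
  have e : (n : 𝓞 K) * a = b * t := by
    refine RingOfIntegers.ext ?_
    have hb' : (n : K) * (a : K) = (b : K) * (t : K) := by rw [← hb]; field_simp
    simpa using hb'
  exact Ideal.mem_span_singleton'.2 ⟨a - s * b, by linear_combination a * hs + s * e⟩

theorem ft_mul (q : Ideal (𝓞 K)) (u : 𝓞 K) (ξ : K) :
    ft q (fun x => jac (u * x) q) ξ = jac u q * gsI q ξ := by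
  simp only [gsI, ft, jac_mul_left, mul_assoc, mul_finsum]

theorem eps_one : eps k (1 : 𝓞 K) = 1 := by
  have e : sp (1 : 𝓞 K) = ⊤ := Ideal.span_singleton_one
  have h : gsI (⊤ : Ideal (𝓞 K)) (((1 : 𝓞 K) : K))⁻¹ = 1 := by
    have hd : (((1 : 𝓞 K) : K))⁻¹ ∈ Dual (⊤ : Ideal (𝓞 K)) := e ▸ inv_dual one_ne_zero
    rw [gsI, ft, ((peri_jac ⊤).etr hd).finsum_eq (fun _ : Unit => 0)
      ⟨fun _ _ _ => rfl, fun _ => ⟨(), Subsingleton.elim _ _⟩⟩]
    simp [jac_top, etr_zero]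
  rw [eps, e, h, emb_one]
  simp [NN, dP, dir]

theorem eps_mul (hRec : X_Rec K) (hG1 : X_G1 K) {t t' : 𝓞 K} (h8 : (8 : 𝓞 K) ∣ t - 1) (ht : t ≠ 0)
    (ht' : t' ≠ 0) (h : IsCoprime t t') : eps k (t * t') = eps k t * eps k t' := by
  have h0 : (t : K) ≠ 0 := RingOfIntegers.coe_ne_zero_iff.2 ht
  have h0' : (t' : K) ≠ 0 := RingOfIntegers.coe_ne_zero_iff.2 ht'
  have e := hG1.1 t t' _ _ _ ht ht' h (peri_jac (sp t)) (peri_jac (sp t'))
    (inv_dual (mul_ne_zero ht ht'))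
  have e1 : ((t * t' : 𝓞 K) : K)⁻¹ * t' = (t : K)⁻¹ := by push_cast; field_simp
  have e2 : ((t * t' : 𝓞 K) : K)⁻¹ * t = (t' : K)⁻¹ := by push_cast; field_simp
  have e3 : jac t (sp t') ^ 2 = 1 := by
    rw [jac_sq (by simpa using ht'), if_pos ((Ideal.isCoprime_span_singleton_iff _ _).2 h)]
  rw [e1, e2, ft_mul, ft_mul, ← hRec t t' h8 ht'] at e
  simp only [← jac_mul_right, ← sp_mul] at e
  rw [eps, eps, eps, gsI, e, emb_mul, dP_mul, sp_mul, NN_mul, Real.sqrt_mul (Nat.cast_nonneg _)]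
  push_cast
  linear_combination (gsI (sp t) (t : K)⁻¹ / (√(NN (sp t)) : ℝ) * dP (emb k t) *
    (gsI (sp t') (t' : K)⁻¹ / (√(NN (sp t')) : ℝ) * dP (emb k t'))) * e3

theorem pri_mul {n : ℕ} {t t' : 𝓞 K} (ht : Pri n t) (ht' : Pri n t') (h : IsCoprime t t') :
    Pri n (t * t') := by
  refine ⟨?_, ?_⟩
  · rw [show t * t' - 1 = (t - 1) * t' + (t' - 1) by ring]
    exact dvd_add (ht.1.mul_right _) ht'.1
  · rw [sp_mul, squarefree_mul_iff]
    exact ⟨((Ideal.isCoprime_span_singleton_iff _ _).2 h).isRelPrime, ht.2, ht'.2⟩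

end PG3

open PG3 in
theorem x_g3 (c : Ctx k K) (hRec : X_Rec K) (hG1 : X_G1 K) (hG2 : X_G2 K) : X_G3 k K := by
  have _ := c
  intro n hn
  refine ⟨fun t ht => ?_, eps_one, fun ι _ ω h1 h2 => ?_⟩
  · have h2 : ((2 : ℕ) : 𝓞 K) ∣ t - 1 :=
      (show ((2 : ℕ) : 𝓞 K) ∣ 8 from ⟨4, by norm_num⟩).trans (hn.dvd8 ht.1)
    have e := (hG2 _ _ ht.2 (cop_span_of_dvd h2) (inv_dual ht.ne_zero)).2.2 (prim hn ht)
    have hN := NN_pos ht.2.ne_zero
    have e2 : eps k t ^ 2 = dP (emb k t) ^ 2 := by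
      rw [eps, mul_pow, div_pow, e, ← Complex.ofReal_pow, Real.sq_sqrt hN.le,
        Complex.ofReal_natCast, div_self (by exact_mod_cast hN.ne'), one_mul]
    refine ⟨?_, e2⟩
    have e3 := congrArg norm e2
    have e4 : ‖dP (emb k t)‖ = 1 := norm_dP fun φ =>
      (map_ne_zero φ).2 (RingOfIntegers.coe_ne_zero_iff.2 ht.ne_zero)
    rw [norm_pow, norm_pow, e4] at e3
    exact (pow_left_inj₀ (norm_nonneg _) zero_le_one two_ne_zero).1 e3
  · refine Finset.induction_on (motive := fun s => Pri n (∏ i ∈ s, ω i) ∧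
      eps k (∏ i ∈ s, ω i) = ∏ i ∈ s, eps k (ω i)) univ ?_ fun a s ha ih => ?_
    · refine ⟨⟨by simp, ?_⟩, by simp [eps_one]⟩
      rw [prod_empty, sp, Ideal.span_singleton_one, ← Ideal.one_eq_top]
      exact squarefree_one
    · have hc : IsCoprime (ω a) (∏ i ∈ s, ω i) :=
        IsCoprime.prod_right fun i hi => h2 a i fun e => ha (e ▸ hi)
      rw [prod_insert ha, prod_insert ha, ← ih.2]
      exact ⟨pri_mul (h1 a) ih.1 hc,
        eps_mul hRec hG1 (hn.dvd8 (h1 a).1) (h1 a).ne_zero ih.1.ne_zero hc⟩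

end Pool.Agent.P.MP_b8021b_nt.BS
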