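import Pool.Agent.P.MP_b8021b_nt.BS.BasicD

/-! Gaussian sums over the ring of integers. -/

namespace Pool.Agent.P.MP_b8021b_nt.BS

open NumberField IsDedekindDomain Finset MeasureTheory
open Pool.Agent.P.MP_b8021b_nt.VE Pool.Agent.P.MP_b8021b_nt.VC Pool.Agent.P.MP_b8021b_nt.BS.CF
open scoped Classical ComplexConjugate Real

variable {k : Type} [Field k] [NumberField k] [Algebra k ℂ] {K : Type} [Field K] [NumberField K]
  [Algebra k K]

namespace PGS

theorem summ (m : ℕ) : Summable fun j : ℕ => ((j : ℝ) + 1) ^ m * Real.exp (-(j : ℝ)) := by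
  have h := (summable_nat_add_iff 1).2 (Real.summable_pow_mul_exp_neg_nat_mul m one_pos)
  refine (h.mul_left (Real.exp 1)).congr fun j => ?_
  push_cast
  rw [mul_left_comm, ← Real.exp_add]
  congr 2
  ring

theorem fin_sum {p : ℝ} (hp : 0 ≤ p) {X : Type} {ν w : X → ℝ} {A : ℝ} (hν : ∀ x, 0 ≤ ν x)
    (hw : ∀ x, 0 ≤ w x) (h : ∀ (ρ : ℝ) (S : Finset X), 1 ≤ ρ → (∀ x ∈ S, ν x ≤ ρ) →
      ∑ x ∈ S, w x ≤ A * ρ ^ p) {μ : ℝ} (h0 : 0 < μ) (h1 : μ ≤ 1) (S : Finset X) :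
    ∑ x ∈ S, w x * Real.exp (-(2 * π) * μ * ν x ^ 2) ≤
      (∑' j : ℕ, ((j : ℝ) + 1) ^ ⌈p⌉₊ * Real.exp (-(j : ℝ))) * A * μ ^ (-p / 2) := by
  have hA : 0 ≤ A := by simpa using h 1 ∅ le_rfl (by simp)
  have hs : 0 < √μ := Real.sqrt_pos.2 h0
  have hs1 : √μ ≤ 1 := Real.sqrt_le_one.2 h1
  have hμ : (√μ)⁻¹ ^ p = μ ^ (-p / 2) := by
    rw [Real.sqrt_eq_rpow, ← Real.rpow_neg h0.le, ← Real.rpow_mul h0.le]
    congr 1
    ring
  rw [← sum_fiberwise_of_maps_to (t := S.image fun x => ⌊√μ * ν x⌋₊)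
    (g := fun x => ⌊√μ * ν x⌋₊) fun x hx => mem_image_of_mem _ hx, mul_assoc]
  refine le_trans ?_ (mul_le_mul_of_nonneg_right
    ((summ ⌈p⌉₊).sum_le_tsum (S.image fun x => ⌊√μ * ν x⌋₊) fun j _ => by positivity)
    (by positivity))
  rw [sum_mul]
  refine sum_le_sum fun j _ => ?_
  have hj : (1 : ℝ) ≤ (j : ℝ) + 1 := by linarith [Nat.cast_nonneg (α := ℝ) j]
  have e1 : ∑ x ∈ S with ⌊√μ * ν x⌋₊ = j, w x ≤ A * (((j : ℝ) + 1) * (√μ)⁻¹) ^ p := by
    refine h _ _ (one_le_mul_of_one_le_of_one_le hj (one_le_inv₀ hs |>.2 hs1)) fun x hx => ?_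
    rw [← (mem_filter.1 hx).2, ← div_eq_mul_inv, le_div_iff₀' hs]
    exact (Nat.lt_floor_add_one _).le
  have e2 : (((j : ℝ) + 1) * (√μ)⁻¹) ^ p ≤ ((j : ℝ) + 1) ^ ⌈p⌉₊ * μ ^ (-p / 2) := by
    rw [Real.mul_rpow (by positivity) (by positivity), hμ, ← Real.rpow_natCast]
    exact mul_le_mul_of_nonneg_right (Real.rpow_le_rpow_of_exponent_le hj (Nat.le_ceil p))
      (by positivity)
  calc _ ≤ ∑ x ∈ S with ⌊√μ * ν x⌋₊ = j, w x * Real.exp (-(j : ℝ)) := by
        refine sum_le_sum fun x hx => mul_le_mul_of_nonneg_left (Real.exp_le_exp.2 ?_) (hw x)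
        have a1 : (j : ℝ) ≤ √μ * ν x := by
          rw [← (mem_filter.1 hx).2]
          exact Nat.floor_le (mul_nonneg hs.le (hν x))
        have a2 : (j : ℝ) ≤ (j : ℝ) ^ 2 := by exact_mod_cast Nat.le_self_pow two_ne_zero j
        have a3 : (j : ℝ) ^ 2 ≤ μ * ν x ^ 2 := by
          have := pow_le_pow_left₀ (Nat.cast_nonneg j) a1 2
          rwa [mul_pow, Real.sq_sqrt h0.le] at this
        have a4 : 0 ≤ μ * ν x ^ 2 := by positivity
        nlinarith [Real.pi_gt_three]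
    _ ≤ A * (((j : ℝ) + 1) ^ ⌈p⌉₊ * μ ^ (-p / 2)) * Real.exp (-(j : ℝ)) := by
        rw [← sum_mul]
        exact mul_le_mul_of_nonneg_right (e1.trans (mul_le_mul_of_nonneg_left e2 hA))
          (Real.exp_pos _).le
    _ = _ := by ring

theorem count (c : Ctx k K) : ∃ C : ℝ, 1 ≤ C ∧ ∀ (ρ : ℝ) (S : Finset (𝓞 K)), 1 ≤ ρ →
    (∀ x ∈ S, ‖emb k x‖ ≤ ρ) → (S.card : ℝ) ≤ C * ρ ^ (2 * Module.finrank k K) := by
  obtain ⟨B, -⟩ := c.bf
  obtain ⟨Q, h2, hQ⟩ := c.small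
  obtain ⟨m, h⟩ := c.lib.ball k B (Module.finrank k K)
  obtain ⟨hf, h⟩ := h K rfl
  have hc := c.cov_pos
  have hQ1 : 1 ≤ Q ^ m := one_le_pow₀ (by linarith)
  refine ⟨max 1 (2 ^ m * (Q ^ m) ^ (2 * Module.finrank k K) / cov2 k K), le_max_left _ _,
    fun ρ S hρ hS => ?_⟩
  have h1 := (h Q (Q ^ m * ρ) ⊤ 1 0 0 h2 hQ le_rfl Submodule.mem_top (by
    push_cast
    nlinarith)).2
  have h3 : S.card ≤ Set.ncard {α : 𝓞 K | α - 0 ∈ (⊤ : Ideal (𝓞 K)) ∧
      ‖emb k α - 0‖ ≤ Q ^ m * ρ} := by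
    rw [← Set.ncard_coe_finset]
    refine Set.ncard_le_ncard (fun x hx => ⟨Submodule.mem_top, ?_⟩)
      ((hf 0 (Q ^ m * ρ)).subset fun x hx => hx.2)
    rw [sub_zero]
    exact (hS x hx).trans (by nlinarith)
  refine (Nat.cast_le.2 h3).trans (h1.trans ?_)
  refine le_trans (le_of_eq ?_) (mul_le_mul_of_nonneg_right (le_max_right _ _) (by positivity))
  rw [Ideal.absNorm_top, mul_pow]
  push_cast
  ring

theorem NN_le (c : Ctx k K) (x : 𝓞 K) : NN (sp x) ≤ ‖emb k x‖ ^ (2 * Module.finrank k K) := by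
  rw [c.NN_eq, nz, pow_mul, ← c.card_emb, ← card_univ, ← prod_const]
  exact prod_le_prod (fun _ _ => by positivity) fun φ _ =>
    pow_le_pow_left₀ (norm_nonneg _) (norm_le_pi_norm _ φ) 2

theorem one_le (c : Ctx k K) {x : 𝓞 K} (hx : x ≠ 0) : 1 ≤ ‖emb k x‖ := by
  have h1 : (1 : ℝ) ≤ NN (sp x) := by
    have : Ideal.absNorm (sp x) ≠ 0 := by
      rw [Ne, Ideal.absNorm_eq_zero_iff, Ideal.span_singleton_eq_bot]
      exact hx
    exact_mod_cast Nat.one_le_iff_ne_zero.2 this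
  have h2 : 1 ≤ Module.finrank k K := by exact_mod_cast c.one_le_rk
  exact (one_le_pow_iff_of_nonneg (norm_nonneg _) (by omega)).1 (h1.trans (NN_le c x))

theorem exp_le (D : ℕ) {μ : ℝ} (h : 1 ≤ μ) :
    Real.exp (-(2 * π) * (μ - 1)) ≤ Real.exp 1 * D.factorial * μ ^ (-(D : ℝ)) := by
  have h0 : 0 < μ := by linarith
  have h1 := Real.pow_div_factorial_le_exp μ h0.le D
  have h2 : (0 : ℝ) < D.factorial := by exact_mod_cast D.factorial_pos
  rw [div_le_iff₀ h2] at h1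
  rw [Real.rpow_neg h0.le, Real.rpow_natCast, ← div_eq_mul_inv, le_div_iff₀ (by positivity)]
  calc _ ≤ Real.exp (-(2 * π) * (μ - 1)) * (Real.exp μ * D.factorial) :=
        mul_le_mul_of_nonneg_left h1 (Real.exp_pos _).le
    _ ≤ _ := by
        rw [← mul_assoc, ← Real.exp_add]
        refine mul_le_mul_of_nonneg_right (Real.exp_le_exp.2 ?_) h2.le
        nlinarith [Real.pi_gt_three]

end PGS

open PGS

theorem x_cG : X_CG := by
  intro p hp
  refine ⟨max 1 (∑' j : ℕ, ((j : ℝ) + 1) ^ ⌈p⌉₊ * Real.exp (-(j : ℝ))), le_max_left _ _,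
    fun X ν w A hν hw h μ h0 => ⟨?_, fun h1 => ?_⟩⟩
  · have hm : 0 < min μ 1 := lt_min h0 one_pos
    refine (summable_of_sum_le (fun x => mul_nonneg (hw x) (Real.exp_pos _).le)
      (fin_sum hp hν hw h hm (min_le_right _ _))).of_nonneg_of_le
      (fun x => mul_nonneg (hw x) (Real.exp_pos _).le) fun x => ?_
    refine mul_le_mul_of_nonneg_left (Real.exp_le_exp.2 ?_) (hw x)
    exact mul_le_mul_of_nonneg_right (mul_le_mul_of_nonpos_left (min_le_left _ _)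
      (neg_nonpos.2 (by positivity))) (by positivity)
  · have hA : 0 ≤ A := by simpa using h 1 ∅ le_rfl (by simp)
    refine (Real.tsum_le_of_sum_le (fun x => mul_nonneg (hw x) (Real.exp_pos _).le)
      (fin_sum hp hν hw h h0 h1)).trans ?_
    exact mul_le_mul_of_nonneg_right (mul_le_mul_of_nonneg_right (le_max_right _ _) hA)
      (by positivity)

theorem x_gS (c : Ctx k K) (hCG : X_CG) : X_GS k K := by
  obtain ⟨C0, hC0, h0⟩ := count c
  have hw : ∀ (w : 𝓞 K → ℝ) (a : ℝ) (j : ℕ), 0 ≤ a →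
      (∀ x ρ, 1 ≤ ρ → ‖emb k x‖ ≤ ρ → w x ≤ a * ρ ^ j) → ∀ (ρ : ℝ) (S : Finset (𝓞 K)), 1 ≤ ρ →
      (∀ x ∈ S, ‖emb k x‖ ≤ ρ) → ∑ x ∈ S, w x ≤ a * C0 * ρ ^ ((j : ℝ) + 2 * rk k K) := by
    intro w a j ha h ρ S hρ hS
    refine (sum_le_card_nsmul S w _ fun x hx => h x ρ hρ (hS x hx)).trans ?_
    rw [nsmul_eq_mul]
    refine (mul_le_mul_of_nonneg_right (h0 ρ S hρ hS) (by positivity)).trans (le_of_eq ?_)
    rw [show (j : ℝ) + 2 * rk k K = ((j + 2 * Module.finrank k K : ℕ) : ℝ) by push_cast; rfl,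
      Real.rpow_natCast]
    ring
  refine ⟨fun y j hy => ?_, ?_⟩
  · obtain ⟨μ, hμ, hle⟩ : ∃ μ : ℝ, 0 < μ ∧ ∀ φ, μ ≤ y φ := by
      obtain ⟨μ, hμ, h⟩ := Pi.exists_forall_pos_add_lt (x := fun _ : Emb k K => (0 : ℝ)) hy
      exact ⟨μ, hμ, fun φ => by simpa using (h φ).le⟩
    obtain ⟨C, -, h⟩ := hCG ((j : ℝ) + 2 * rk k K) (by positivity)
    refine (h _ (fun x => ‖emb k x‖) (fun x => (1 + ‖emb k x‖) ^ j) _ (fun _ => norm_nonneg _)
      (fun _ => by positivity) (hw _ (2 ^ j) j (by positivity) fun x ρ h1 h2 => ?_) μ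
      hμ).1.of_nonneg_of_le (fun x => mul_nonneg (by positivity) (gau_pos _ _).le) fun x =>
      mul_le_mul_of_nonneg_left ((gau_anti hle _).trans (gau_le_norm hμ.le _)) (by positivity)
    rw [← mul_pow]
    exact pow_le_pow_left₀ (by positivity) (by linarith) j
  obtain ⟨C1, hC1, h1⟩ := hCG (((0 : ℕ) : ℝ) + 2 * rk k K) (by positivity)
  obtain ⟨C2, hC2, h2⟩ := hCG (((2 * Module.finrank k K : ℕ) : ℝ) + 2 * rk k K) (by positivity)
  replace h1 := h1 _ (fun x => ‖emb k x‖) (fun _ => 1) _ (fun _ => norm_nonneg _)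
    (fun _ => zero_le_one) (hw _ 1 0 zero_le_one fun x ρ _ _ => by simp)
  replace h2 := h2 _ (fun x => ‖emb k x‖) (fun x => NN (sp x)) _ (fun _ => norm_nonneg _)
    (fun _ => by positivity) (hw _ 1 (2 * Module.finrank k K) zero_le_one fun x ρ _ h =>
      (NN_le c x).trans (by rw [one_mul]; exact pow_le_pow_left₀ (norm_nonneg _) h _))
  simp only [one_mul] at h1 h2
  set E : ℝ := Real.exp 1 * (Module.finrank k K).factorial with hE
  have hE1 : 1 ≤ E := one_le_mul_of_one_le_of_one_le (Real.one_le_exp zero_le_one)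
    (by exact_mod_cast (Module.finrank k K).factorial_pos)
  have b1 : C1 * C0 ≤ C1 * C0 * E := le_mul_of_one_le_right (by positivity) hE1
  have b2 : C1 * C0 * E ≤ C1 * C0 * E * C2 := le_mul_of_one_le_right (by positivity) hC2
  have b3 : C0 ≤ C1 * C0 := le_mul_of_one_le_left (by positivity) hC1
  have b4 : C2 * C0 ≤ C1 * C0 * E * C2 := by
    rw [mul_comm]
    exact mul_le_mul_of_nonneg_right (b3.trans b1) (by positivity)
  have hg : ∀ (μ : ℝ) (x : 𝓞 K), 0 ≤ (if x = 0 then 0 else gau (fun _ => μ) (emb k x)) :=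
    fun μ x => by
      split_ifs
      · exact le_rfl
      · exact (gau_pos _ _).le
  refine ⟨C1 * C0 * E * C2, by linarith, fun ρ S hρ hS => ?_, fun μ hμ => ?_, fun μ hμ hμ1 => ?_⟩
  · rw [show 2 * rk k K = ((2 * Module.finrank k K : ℕ) : ℝ) by push_cast; rfl, Real.rpow_natCast]
    exact (h0 ρ S hρ hS).trans (mul_le_mul_of_nonneg_right (by linarith) (by positivity))
  · rcases le_total μ 1 with hμ1 | hμ1
    · have hle : ∀ x : 𝓞 K, (if x = 0 then 0 else gau (fun _ => μ) (emb k x)) ≤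
          Real.exp (-(2 * π) * μ * ‖emb k x‖ ^ 2) := fun x => by
        split_ifs
        · exact (Real.exp_pos _).le
        · exact gau_le_norm hμ.le _
      refine (((h1 μ hμ).1.of_nonneg_of_le (hg μ) hle).tsum_le_tsum hle (h1 μ hμ).1).trans
        (((h1 μ hμ).2 hμ1).trans ?_)
      rw [show -(((0 : ℕ) : ℝ) + 2 * rk k K) / 2 = -rk k K by push_cast; ring]
      exact mul_le_mul_of_nonneg_right (by linarith) (by positivity)
    · have hle : ∀ x : 𝓞 K, (if x = 0 then 0 else gau (fun _ => μ) (emb k x)) ≤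
          Real.exp (-(2 * π) * (μ - 1)) * Real.exp (-(2 * π) * 1 * ‖emb k x‖ ^ 2) := fun x => by
        split_ifs with hx
        · positivity
        · refine (gau_le_norm hμ.le _).trans ?_
          rw [← Real.exp_add, Real.exp_le_exp]
          have a1 : 1 ≤ ‖emb k x‖ ^ 2 := one_le_pow₀ (one_le c hx)
          nlinarith [mul_nonneg (mul_nonneg Real.pi_pos.le (sub_nonneg.2 hμ1)) (sub_nonneg.2 a1)]
      have hs := (h1 1 one_pos).1.mul_left (Real.exp (-(2 * π) * (μ - 1)))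
      refine ((hs.of_nonneg_of_le (hg μ) hle).tsum_le_tsum hle hs).trans ?_
      rw [tsum_mul_left]
      have a2 := (h1 1 one_pos).2 le_rfl
      rw [Real.one_rpow, mul_one (C1 * C0)] at a2
      calc _ ≤ E * μ ^ (-rk k K) * (C1 * C0) :=
            mul_le_mul (exp_le _ hμ1) a2 (tsum_nonneg fun _ => (Real.exp_pos _).le)
              (by positivity)
        _ = C1 * C0 * E * μ ^ (-rk k K) := by ring
        _ ≤ _ := mul_le_mul_of_nonneg_right b2 (by positivity)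
  · have hle : ∀ x : 𝓞 K, NN (sp x) * gau (fun _ => μ) (emb k x) ≤
        NN (sp x) * Real.exp (-(2 * π) * μ * ‖emb k x‖ ^ 2) := fun x =>
      mul_le_mul_of_nonneg_left (gau_le_norm hμ.le _) (by positivity)
    refine (((h2 μ hμ).1.of_nonneg_of_le (fun x => mul_nonneg (by positivity) (gau_pos _ _).le)
      hle).tsum_le_tsum hle (h2 μ hμ).1).trans (((h2 μ hμ).2 hμ1).trans ?_)
    rw [show -(((2 * Module.finrank k K : ℕ) : ℝ) + 2 * rk k K) / 2 = -(2 * rk k K) by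
      push_cast; ring]
    exact mul_le_mul_of_nonneg_right b4 (by positivity)

end Pool.Agent.P.MP_b8021b_nt.BS
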