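import Pool.Agent.P.MP_b8021b_nt.BS.BasicD

/-! Infinitely many isomorphism classes of curves, and a root of unity that is not a square. -/

namespace Pool.Agent.P.MP_b8021b_nt.BS

open NumberField IsDedekindDomain Finset MeasureTheory
open Pool.Agent.P.MP_b8021b_nt.VE Pool.Agent.P.MP_b8021b_nt.VC Pool.Agent.P.MP_b8021b_nt.BS.CF
open scoped Classical ComplexConjugate Real
variable {k : Type} [Field k] [NumberField k] [Algebra k ℂ] {K : Type} [Field K] [NumberField K] [Algebra k K]

namespace PInf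

/-- isomorphic curves have the same valuations modulo four -/
theorem od_congr {b b' : K} (hb : b ≠ 0) (C : WeierstrassCurve.VariableChange K)
    (h : C • Wb b = Wb b') (v : Pl K) : (od v b : ZMod 4) = od v b' := by
  have h4 := WeierstrassCurve.variableChange_c₄ (Wb b) C
  rw [h] at h4
  have e : b' = ((C.u⁻¹ : Kˣ) : K) ^ 4 * b := by
    simp only [WeierstrassCurve.c₄, WeierstrassCurve.b₂, WeierstrassCurve.b₄] at h4
    linear_combination (-1 / 48 : K) * h4
  rw [e, od_mul v (pow_ne_zero _ (Units.ne_zero _)) hb, od_pow]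
  push_cast
  rw [show (4 : ZMod 4) = 0 from rfl, zero_mul, zero_add]

/-- the order of a root of unity of two power order is bounded -/
theorem bound {z : K} {a : ℕ} (h : z ^ 2 ^ a = -1) : a < Module.finrank ℚ K := by
  have h1 : orderOf z = 2 ^ (a + 1) :=
    orderOf_eq_prime_pow (by rw [h]; norm_num) (by rw [pow_succ, pow_mul, h]; norm_num)
  have h2 : IsPrimitiveRoot z (2 ^ (a + 1)) := h1 ▸ IsPrimitiveRoot.orderOf z
  have h3 : (minpoly ℚ z).natDegree ≤ Module.finrank ℚ K := minpoly.natDegree_le z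
  rw [← Polynomial.cyclotomic_eq_minpoly_rat h2 (by positivity), Polynomial.natDegree_cyclotomic,
    Nat.totient_prime_pow_succ Nat.prime_two] at h3
  have := Nat.lt_two_pow_self (n := a)
  omega

end PInf

theorem x_inf (c : Ctx k K) : X_Inf K := by
  intro P hP
  obtain ⟨B, hB, hf⟩ := Set.exists_subset_bijOn {b : K | b ≠ 0 ∧ P b}
    (fun b (v : Pl K) => (od v b : ZMod 4))
  refine ⟨B, fun hfin => ?_, fun b hb b' hb' hne C hC => hne ?_, fun b hb => hB hb⟩
  · obtain ⟨W, hW⟩ := ((hfin.biUnion fun b _ => finite_od b).image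
      fun v : Pl K => NN v.asIdeal).bddAbove
    obtain ⟨b, hb, hPb, v, hv, h4⟩ := hP (W + 1)
    obtain ⟨b₀, hb₀, e⟩ := hf.surjOn ⟨b, ⟨hb, hPb⟩, rfl⟩
    have e' : (od v b₀ : ZMod 4) = od v b := congrFun e v
    have h0 : od v b₀ ≠ 0 := fun h0 => h4 (by
      rw [h0, Int.cast_zero] at e'
      exact_mod_cast (ZMod.intCast_zmod_eq_zero_iff_dvd _ 4).1 e'.symm)
    have := hW ⟨v, Set.mem_biUnion hb₀ h0, rfl⟩
    linarith
  · exact hf.injOn hb hb' (funext fun v => PInf.od_congr (hB hb).1 C hC v)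

theorem x_zeta (c : Ctx k K) : X_Zeta K := by
  by_contra hn
  have key : ∀ a : ℕ, ∃ z : K, z ^ 2 ^ (a + 1) = -1 := by
    intro a
    induction a with
    | zero =>
      obtain ⟨i, hi⟩ := c.om
      exact ⟨i, by simpa using hi⟩
    | succ a ih =>
      obtain ⟨z, hz⟩ := ih
      have hi : IsIntegral ℤ z :=
        IsIntegral.of_pow (n := 2 ^ (a + 1)) (by positivity) (hz ▸ isIntegral_one.neg)
      by_cases hs : IsSquare z
      · obtain ⟨w, rfl⟩ := hs
        exact ⟨w, by rw [pow_succ', pow_mul, sq, hz]⟩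
      · refine (hn ⟨⟨z, hi⟩, a + 1, by omega, ?_, fun v => ?_, hs⟩).elim
        · exact RingOfIntegers.ext (by simpa using hz)
        · have := od_pow v z (2 ^ (a + 1))
          rw [hz, od_neg, od_one] at this
          exact (mul_eq_zero.1 this.symm).resolve_left (by positivity)
  obtain ⟨z, hz⟩ := key (Module.finrank ℚ K)
  have := PInf.bound hz
  omega

end Pool.Agent.P.MP_b8021b_nt.BS
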