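import Pool.Agent.P.MP_b8021b_nt.BS.BasicD
import Pool.Agent.P.MP_b8021b_nt.BS.PoiK

/-! The kernel attached to a system of units. -/

namespace Pool.Agent.P.MP_b8021b_nt.BS

open NumberField IsDedekindDomain Finset MeasureTheory
open Pool.Agent.P.MP_b8021b_nt.VE Pool.Agent.P.MP_b8021b_nt.VC Pool.Agent.P.MP_b8021b_nt.BS.CF
open scoped Classical ComplexConjugate Real
variable {k : Type} [Field k] [NumberField k] [Algebra k ℂ] {K : Type} [Field K] [NumberField K] [Algebra k K]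

namespace PKM

variable {n : ℕ} {ℓ : ℝ} (U : UB k K n ℓ)

lemma gg_eq (x : ℝ) (u : Fin U.m → ℝ) :
    Real.exp (-(2 * π) * x ^ (1 / rk k K) * ∑ φ, Real.exp (2 * U.lv u φ)) = PoiN.GG U x u := by
  have : rk k K = U.m + 1 := by rw [rk, ← U.hm]; push_cast; rfl
  simp only [PoiN.GG, PoiN.yy, ← Finset.mul_sum, this]
  congr 1
  ring

lemma kk_eq : kk U = PoiN.kk U := funext fun x => by
  simp only [kk, PoiN.kk, gg_eq]

lemma meas : Measurable (kk U) := by
  have h : Continuous fun u : Fin U.m → ℝ => ∑ φ, Real.exp (2 * U.lv u φ) := by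
    simp only [UB.lv, Finset.sum_apply, Pi.smul_apply]
    fun_prop
  refine (StronglyMeasurable.integral_prod_right (f := fun (x : ℝ) (u : Fin U.m → ℝ) =>
    Real.exp (-(2 * π) * x ^ (1 / rk k K) * ∑ φ, Real.exp (2 * U.lv u φ)))
    (Measurable.stronglyMeasurable ?_)).measurable
  exact Real.measurable_exp.comp (((measurable_fst.pow_const _).const_mul _).mul
    (h.measurable.comp measurable_snd))

lemma shift {y : Emb k K → ℝ} (hy : ∀ φ, 0 < y φ) : ∃ v : Fin U.m → ℝ, ∀ u,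
    Real.exp (-(2 * π) * ∑ φ, y φ * Real.exp (2 * U.lv u φ)) = PoiN.GG U (∏ φ, y φ) (u + v) := by
  have h1 : ∀ φ, ‖(√(y φ) : ℂ)‖ ^ 2 = y φ := fun φ => by
    rw [Complex.norm_real, Real.norm_of_nonneg (Real.sqrt_nonneg _), Real.sq_sqrt (hy φ).le]
  have h2 := PoiN.norm_sq_eq U (z := fun φ => (√(y φ) : ℂ))
    fun φ => Complex.ofReal_ne_zero.2 (Real.sqrt_pos.2 (hy φ)).ne'
  simp only [nz, h1] at h2
  refine ⟨U.co (lg fun φ => (√(y φ) : ℂ)), fun u => ?_⟩
  rw [PoiN.GG, neg_mul]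
  congr 3
  refine sum_congr rfl fun φ _ => ?_
  conv_lhs => rw [h2 φ]
  simp only [PoiN.yy, U.lv_add, Pi.add_apply, mul_add, Real.exp_add]
  ring

end PKM

theorem x_kM (c : Ctx k K) : X_KM k K := fun n ℓ U => by
  obtain ⟨B, -⟩ := c.bf
  refine ⟨⟨fun x hx => ?_, ?_, PKM.meas U, fun A hA => ?_⟩, ?_, fun y hy => ?_⟩
  · rw [PKM.kk_eq]
    exact integral_exp_pos (PoiN.integrable_GG U B hx)
  · rw [PKM.kk_eq]
    exact PoiN.kk_anti U B
  · rw [PKM.kk_eq]
    obtain ⟨C, -, h⟩ := PoiN.kk_le U B hA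
    exact ⟨C, h⟩
  · obtain ⟨a, ha, h⟩ := PoiN.mellin_kk U B
    refine ⟨a, ha, fun s hs => ?_⟩
    have e : (2 * π : ℂ) ^ (-s) = (1 / (2 * π : ℝ) : ℂ) ^ s := by
      rw [one_div, Complex.inv_cpow _ _ (by
        rw [Complex.arg_ofReal_of_nonneg (by positivity)]; exact Real.pi_pos.ne), Complex.cpow_neg]
      push_cast
      rfl
    rw [PKM.kk_eq, e, ← U.hm]
    exact ⟨Integrable.of_integral_ne_zero ((h s hs).trans_ne (mul_ne_zero
      (Complex.ofReal_ne_zero.2 ha.ne') (pow_ne_zero _ (PoiN.gam_ne hs)))), h s hs⟩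
  · obtain ⟨v, hv⟩ := PKM.shift U hy
    simp only [hv]
    refine ⟨(PoiN.integrable_GG U B (prod_pos fun φ _ => hy φ)).comp_add_right v, ?_⟩
    rw [PKM.kk_eq, integral_add_right_eq_self]
    rfl

end Pool.Agent.P.MP_b8021b_nt.BS
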