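import Pool.Agent.P.MP_b8021b_nt.BS.BasicD

/-! From the Hecke series to the series of the curve. -/

namespace Pool.Agent.P.MP_b8021b_nt.BS

open NumberField IsDedekindDomain Finset MeasureTheory
open Pool.Agent.P.MP_b8021b_nt.VE Pool.Agent.P.MP_b8021b_nt.VC Pool.Agent.P.MP_b8021b_nt.BS.CF
open scoped Classical ComplexConjugate Real

variable {k : Type} [Field k] [NumberField k] [Algebra k ℂ] {K : Type} [Field K] [NumberField K]
  [Algebra k K]

namespace PLF

theorem two_le (v : Pl K) : 2 ≤ Ideal.absNorm v.asIdeal := by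
  exact_mod_cast two_le_NN v

theorem norm_cpow (v : Pl K) (w : ℂ) :
    ‖(Ideal.absNorm v.asIdeal : ℂ) ^ (-w)‖ = NN v.asIdeal ^ (-w.re) := by
  rw [Complex.norm_natCast_cpow_of_pos (by have := two_le v; omega), Complex.neg_re]

theorem hasProd_ep (hep : S_EP) (Θ : Ideal (𝓞 K) →* ℂ) (hΘ : ∀ I, ‖Θ I‖ ≤ 1) (w : ℂ)
    (hw : 1 < w.re) :
    HasProd (fun v : Pl K => (1 - Θ v.asIdeal * (Ideal.absNorm v.asIdeal : ℂ) ^ (-w))⁻¹)
      (LSeries (lam Θ) w) := by
  obtain ⟨-, hs, he⟩ := hep K Θ w hΘ hw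
  have hb : ∀ v : Pl K, ‖-(Θ v.asIdeal * (Ideal.absNorm v.asIdeal : ℂ) ^ (-w))‖ ≤
      NN v.asIdeal ^ (-w.re) := fun v => by
    rw [norm_neg, norm_mul, norm_cpow]
    exact mul_le_of_le_one_left (by positivity) (hΘ _)
  have h1 := (Complex.summable_log_one_add_of_summable (hs.of_norm_bounded hb)).neg
  simp only [← sub_eq_add_neg] at h1
  rw [he]
  convert h1.hasSum.cexp using 2 with v
  have hlt : NN v.asIdeal ^ (-w.re) < 1 :=
    Real.rpow_lt_one_of_one_lt_of_neg (by linarith [two_le_NN v]) (by linarith)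
  have hne : 1 - Θ v.asIdeal * (Ideal.absNorm v.asIdeal : ℂ) ^ (-w) ≠ 0 := fun h => by
    have := hb v
    rw [norm_neg, ← sub_eq_zero.1 h, norm_one] at this
    linarith
  rw [Function.comp_apply, Complex.exp_neg, Complex.exp_log hne]

theorem hasProd_cj (hep : S_EP) (Θ : Ideal (𝓞 K) →* ℂ) (hΘ : ∀ I, ‖Θ I‖ ≤ 1) (w : ℂ)
    (hw : 1 < w.re) :
    HasProd (fun v : Pl K => (1 - conj (Θ v.asIdeal) * (Ideal.absNorm v.asIdeal : ℂ) ^ (-w))⁻¹)
      (conj (LSeries (lam Θ) (conj w))) := by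
  have h := (hasProd_ep hep Θ hΘ (conj w) (by simpa using hw)).map (starRingEnd ℂ)
    Complex.continuous_conj
  convert h using 2 with v
  rw [Function.comp_apply, map_inv₀, map_sub, map_one, map_mul, ← map_neg,
    ← Complex.conj_cpow _ _ (by rw [Complex.natCast_arg]; positivity), Complex.conj_natCast]

theorem sqrt_mul (v : Pl K) (s : ℂ) :
    ((√(NN v.asIdeal) : ℝ) : ℂ) * (Ideal.absNorm v.asIdeal : ℂ) ^ (-s) =
      (Ideal.absNorm v.asIdeal : ℂ) ^ (-(s - 1 / 2)) := by
  have h0 : (Ideal.absNorm v.asIdeal : ℂ) ≠ 0 := by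
    have := two_le v
    exact_mod_cast (by omega : Ideal.absNorm v.asIdeal ≠ 0)
  rw [Real.sqrt_eq_rpow, Complex.ofReal_cpow (by positivity), show -(s - 1 / 2) = 1 / 2 + -s by ring,
    Complex.cpow_add _ _ h0]
  simp

theorem anal (G D : ℂ → ℂ) (hG : Differentiable ℂ G) (hD : Differentiable ℂ D) (h1 : G 1 ≠ 0)
    (h2 : D 1 ≠ 0) : MeromorphicOn (fun s => G s * conj (G (conj s)) * (D s)⁻¹) Set.univ ∧
      meromorphicOrderAt (fun s => G s * conj (G (conj s)) * (D s)⁻¹) 1 = 0 := by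
  have hc : Differentiable ℂ fun s => conj (G (conj s)) := fun s =>
    differentiableAt_conj_conj_iff.2 (hG (conj s))
  refine ⟨fun s _ => ((hG.analyticAt s).mul (hc.analyticAt s)).meromorphicAt.mul
    (hD.analyticAt s).meromorphicAt.inv, ?_⟩
  have ha : AnalyticAt ℂ (fun s => G s * conj (G (conj s)) * (D s)⁻¹) 1 :=
    ((hG.analyticAt 1).mul (hc.analyticAt 1)).mul ((hD.analyticAt 1).inv h2)
  rw [ha.meromorphicOrderAt_eq, ha.analyticOrderAt_eq_zero.2 (by simp [h1, h2])]
  simp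

end PLF

open PLF Polynomial in
theorem x_lF (c : Ctx k K) (hLocR : X_LocR K) (hLocG : X_LocG K) (hLocB : X_LocB K)
    (hEP2 : X_EP2) : X_LF K := by
  intro b Θ G S hΘ hS hT hG hGL hG1
  choose α₀ β₀ hP hα hβ hne using hLocB (Wb (b : K))
  set q : Pl K → ℕ := fun v => Ideal.absNorm v.asIdeal with hq
  set α : Pl K → ℂ := fun v =>
    if v ∈ S then α₀ v else ((√(NN v.asIdeal) : ℝ) : ℂ) * Θ v.asIdeal with hα'
  set β : Pl K → ℂ := fun v =>
    if v ∈ S then β₀ v else ((√(NN v.asIdeal) : ℝ) : ℂ) * conj (Θ v.asIdeal) with hβ'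
  have hq0 : ∀ v, (q v : ℂ) ≠ 0 := fun v => by
    have := two_le v
    exact_mod_cast (by omega : Ideal.absNorm v.asIdeal ≠ 0)
  have hD : Differentiable ℂ fun s : ℂ =>
      ∏ v ∈ S, (1 - α₀ v * (q v : ℂ) ^ (-s)) * (1 - β₀ v * (q v : ℂ) ^ (-s)) := by
    refine Differentiable.fun_finset_prod fun v _ => ?_
    have : Differentiable ℂ fun s : ℂ => (q v : ℂ) ^ (-s) :=
      differentiable_neg.const_cpow (Or.inl (hq0 v))
    fun_prop
  obtain ⟨h1, h2⟩ := anal G _ hG hD hG1 (prod_ne_zero_iff.2 fun v _ => by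
    simpa only [Complex.cpow_neg_one, ← div_eq_mul_inv] using hne v)
  refine ⟨_, h1, fun s hs => ?_, h2⟩
  have hn : ∀ v ∉ S, ‖α v‖ = √(NN v.asIdeal) ∧ ‖β v‖ = √(NN v.asIdeal) := fun v hv => by
    simp [hα', hβ', hv, (hT v hv).2.2.1]
  have hw : 1 < (s - 1 / 2).re := by simp; linarith
  have hE := hEP2 (Pl K) q (locP (Wb (b : K))) α β s two_le
    (fun m => (Ideal.finite_setOf_absNorm_le (S := 𝓞 K) m).preimage
      (f := fun v : Pl K => v.asIdeal) (fun _ _ _ _ h => HeightOneSpectrum.ext h))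
    (fun v => by
      by_cases hv : v ∈ S
      · simpa [hα', hβ', hv] using hP v
      · obtain ⟨a1, a2, a3, a4⟩ := hT v hv
        have e1 : chs b v = -(α v + β v) := by
          simp only [a4, hα', hβ', hv, if_false, ← mul_add, Complex.add_conj]
          push_cast; ring
        have e2 : (Ideal.absNorm v.asIdeal : ℂ) = α v * β v := by
          simp only [hα', hβ', hv, if_false]
          rw [mul_mul_mul_comm, Complex.mul_conj', a3, ← Complex.ofReal_mul,
            Real.mul_self_sqrt (by positivity)]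
          simp
        rw [hLocG b v a1 a2, e1, e2, map_neg, map_add, map_mul]
        ring)
    (fun v => by
      have h2 := two_le_NN v
      have hlt : NN v.asIdeal < (q v : ℝ) ^ s.re :=
        Real.self_lt_rpow_of_one_lt (by linarith) (by linarith)
      by_cases hv : v ∈ S
      · simp only [hα', hβ', hv, if_true]
        exact ⟨(hα v).trans_lt hlt, (hβ v).trans_lt hlt⟩
      · have : √(NN v.asIdeal) ≤ NN v.asIdeal := Real.sqrt_le_self_iff.2 (Or.inr (by linarith))
        rw [(hn v hv).1, (hn v hv).2]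
        exact ⟨this.trans_lt hlt, this.trans_lt hlt⟩)
    (by
      refine ((c.lib.i.ep K Θ _ hΘ hw).2.1.mul_left 2).congr_cofinite
        (Filter.eventually_cofinite.2 (S.finite_toSet.subset fun v hv => ?_))
      by_contra hvS
      refine hv ?_
      have := congrArg norm (sqrt_mul v s)
      rw [norm_mul, norm_cpow, norm_cpow, Complex.norm_real, Real.norm_of_nonneg (by positivity)]
        at this
      change 2 * NN v.asIdeal ^ _ = (‖α v‖ + ‖β v‖) * NN v.asIdeal ^ _
      rw [(hn v hvS).1, (hn v hvS).2, ← this]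
      ring)
  have hL : (Wb (b : K)).LFunction = ArithmeticFunction.eulerProduct fun v : Pl K =>
      ArithmeticFunction.ofPowerSeries (q v)
        (PowerSeries.invOfUnit (locP (Wb (b : K)) v : PowerSeries ℤ) 1) := by
    simp only [WeierstrassCurve.LFunction, WeierstrassCurve.localEulerFactor,
      WeierstrassCurve.localPowerSeries, (hLocR _).1, locP, hq]
  rw [← hL] at hE
  refine ⟨hE.1, HasProd.unique ?_ hE.2⟩
  have e1 := hasProd_ep c.lib.i.ep Θ hΘ _ hw
  have e2 := hasProd_cj c.lib.i.ep Θ hΘ _ hw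
  have e3 := hasProd_prod_of_ne_finset_one (L := .unconditional _) (s := S) (f := fun v =>
    if v ∈ S then ((1 - α₀ v * (q v : ℂ) ^ (-s)) * (1 - β₀ v * (q v : ℂ) ^ (-s)))⁻¹ else 1)
    fun v hv => if_neg hv
  rw [prod_congr rfl fun v hv => if_pos hv, prod_inv_distrib] at e3
  rw [hGL s hs, hGL (conj s) (by simpa using hs),
    show conj s - 1 / 2 = conj (s - 1 / 2) by simp [map_ofNat]]
  convert (e1.mul e2).mul e3 using 2 with v
  by_cases hv : v ∈ S
  · simp [hα', hβ', hv, hS v hv]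
  · simp only [hα', hβ', hv, if_false, mul_one, ← sqrt_mul, mul_inv, hq]
    ring

end Pool.Agent.P.MP_b8021b_nt.BS
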