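import Pool.Agent.P.MP_b8021b_nt.BS.BasicD

/-! The large sieve inequality for short families. -/

namespace Pool.Agent.P.MP_b8021b_nt.BS

open NumberField IsDedekindDomain Finset MeasureTheory
open Pool.Agent.P.MP_b8021b_nt.VE Pool.Agent.P.MP_b8021b_nt.VC Pool.Agent.P.MP_b8021b_nt.BS.CF
open scoped Classical ComplexConjugate Real
variable {k : Type} [Field k] [NumberField k] [Algebra k ℂ] {K : Type} [Field K] [NumberField K]
  [Algebra k K]

namespace PLS0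

/-- a non-residue at an odd place -/
theorem ex_neg (v : Pl K) (h : (2 : 𝓞 K) ∉ v.asIdeal) : ∃ x : 𝓞 K, leg x v = -1 := by
  obtain ⟨F, _, _, _, ρ, hs, hk, -⟩ := exists_res v
  have hc : ringChar F ≠ 2 := fun e => h ((hk _).1 (by
    have := ringChar.Nat.cast_ringChar (R := F)
    rw [e] at this
    rw [map_ofNat]; exact_mod_cast this))
  obtain ⟨a, ha⟩ := quadraticChar_exists_neg_one hc
  obtain ⟨x, rfl⟩ := hs a
  exact ⟨x, by rw [leg_eq_quad ρ hs hk, ha]; simp⟩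

/-- a multiplier that changes the sign of the symbol -/
theorem ex_odd {q : Ideal (𝓞 K)} (hq : q ≠ ⊥) (v : Pl K) (h2 : (2 : 𝓞 K) ∉ v.asIdeal)
    (h1 : cnt v q = 1) :
    ∃ u : 𝓞 K, IsCoprime u ((Ideal.absNorm q : ℕ) : 𝓞 K) ∧ jac u q = -1 := by
  obtain ⟨x, hx⟩ := ex_neg v h2
  set m : 𝓞 K := ((Ideal.absNorm q : ℕ) : 𝓞 K) with hm
  have m0 : m ≠ 0 := Nat.cast_ne_zero.2 fun e => hq (Ideal.absNorm_eq_zero_iff.1 e)
  have mq : m ∈ q := Ideal.absNorm_mem q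
  obtain ⟨u, hu⟩ := IsDedekindDomain.exists_forall_sub_mem_ideal (s := pr m)
    (fun w : Pl K => w.asIdeal) (fun _ => 1) (fun w _ => w.prime)
    (fun i _ j _ e e' => e (HeightOneSpectrum.ext e')) fun w => if w.1 = v then x else 1
  have hl : ∀ w ∈ pr m, leg u w = if w = v then -1 else 1 := fun w hw => by
    have := hu w hw
    rw [pow_one] at this
    rw [leg_congr this]
    split_ifs with e
    · rw [show w = v from e, hx]
    · exact leg_one w
  have hv : v ∈ pr m := (mem_pr m0).2 (not_not.1 (fun e => by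
    rw [(cnt_eq_zero v).2 e] at h1; omega : ¬ ¬ q ≤ v.asIdeal) mq)
  have s0 : sp m ≠ ⊥ := by simpa using m0
  refine ⟨u, (Ideal.isCoprime_span_singleton_iff _ _).1 ((jac_ne_zero_iff s0).1 ?_), ?_⟩
  · rw [jac_eq_prod s0 (pr m) fun w e =>
      (mem_pr m0).2 ((Ideal.span_singleton_le_iff_mem _).1 e)]
    refine prod_ne_zero_iff.2 fun w hw => pow_ne_zero _ ?_
    rw [hl w hw]; split_ifs <;> norm_num
  · rw [jac_eq_prod hq (pr m) fun w e => (mem_pr m0).2 (e mq), prod_eq_single v]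
    · rw [hl v hv, if_pos rfl, h1, pow_one]
    · intro w hw e; rw [hl w hw, if_neg e, one_pow]
    · exact fun e => absurd hv e

/-- two different twists differ at an odd place -/
theorem ex_place {t t' : 𝓞 K} (h8 : (8 : 𝓞 K) ∣ t - 1) (h8' : (8 : 𝓞 K) ∣ t' - 1)
    (hs : Squarefree (sp t)) (hs' : Squarefree (sp t')) (hne : sp t ≠ sp t') :
    ∃ v : Pl K, (2 : 𝓞 K) ∉ v.asIdeal ∧ cnt v (sp t * sp t') = 1 := by
  obtain ⟨v, hv⟩ := not_forall.1 fun e => hne (ext_cnt hs.ne_zero hs'.ne_zero e)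
  have a := (squarefree_iff_cnt hs.ne_zero).1 hs v
  have a' := (squarefree_iff_cnt hs'.ne_zero).1 hs' v
  refine ⟨v, fun h2 => ?_, by rw [cnt_mul v hs.ne_zero hs'.ne_zero]; omega⟩
  have key : ∀ s : 𝓞 K, (8 : 𝓞 K) ∣ s - 1 → cnt v (sp s) = 0 := fun s h =>
    (cnt_eq_zero v).2 fun e => v.isPrime.ne_top ((Ideal.eq_top_iff_one _).2 (by
      have h1 := (Ideal.span_singleton_le_iff_mem _).1 e
      have h3 : s - 1 ∈ v.asIdeal :=
        v.asIdeal.mem_of_dvd ((show (2 : 𝓞 K) ∣ 8 from ⟨4, by norm_num⟩).trans h) h2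
      simpa using v.asIdeal.sub_mem h1 h3))
  exact hv ((key t h8).trans (key t' h8').symm)

/-- the mean square over a set with small correlations -/
theorem msq {X J : Type*} (𝒞 : Finset X) (T : Finset J) (f : J → X → ℂ) (a : J → ℂ) {A B : ℝ}
    (hB : 0 ≤ B) (hc : ∀ t x, conj (f t x) = f t x) (h1 : ∀ t x, ‖f t x‖ ≤ 1)
    (hA : (𝒞.card : ℝ) ≤ A)
    (h : ∀ t ∈ T, ∀ t' ∈ T, t ≠ t' → ‖∑ x ∈ 𝒞, f t x * f t' x‖ ≤ B) :
    ∑ x ∈ 𝒞, ‖∑ t ∈ T, a t * f t x‖ ^ 2 ≤ (A + B * T.card) * ∑ t ∈ T, ‖a t‖ ^ 2 := by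
  have e : ((∑ x ∈ 𝒞, ‖∑ t ∈ T, a t * f t x‖ ^ 2 : ℝ) : ℂ) =
      ∑ t ∈ T, ∑ t' ∈ T, a t * conj (a t') * ∑ x ∈ 𝒞, f t x * f t' x := by
    push_cast
    simp only [← Complex.mul_conj', map_sum, map_mul, hc, sum_mul_sum]
    simp only [mul_sum]
    rw [sum_comm]
    refine sum_congr rfl fun t _ => ?_
    rw [sum_comm]
    exact sum_congr rfl fun t' _ => sum_congr rfl fun x _ => by ring
  have b : ∀ t ∈ T, ∀ t' ∈ T, ‖a t * conj (a t') * ∑ x ∈ 𝒞, f t x * f t' x‖ ≤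
      (if t = t' then A * ‖a t‖ ^ 2 else 0) + B * (‖a t‖ * ‖a t'‖) := fun t ht t' ht' => by
    rw [norm_mul, norm_mul, Complex.norm_conj]
    have p : 0 ≤ ‖a t‖ * ‖a t'‖ := by positivity
    split_ifs with e
    · subst e
      have : ‖∑ x ∈ 𝒞, f t x * f t x‖ ≤ A := by
        refine (norm_sum_le _ _).trans ((sum_le_card_nsmul _ _ 1 fun x _ => ?_).trans (by simpa))
        rw [norm_mul]; exact mul_le_one₀ (h1 t x) (norm_nonneg _) (h1 t x)
      nlinarith [mul_le_mul_of_nonneg_left this p, mul_nonneg hB p]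
    · nlinarith [mul_le_mul_of_nonneg_left (h t ht t' ht' e) p]
  refine (le_abs_self _).trans ?_
  rw [← Real.norm_eq_abs, ← Complex.norm_real, e]
  refine (norm_sum_le _ _).trans ((sum_le_sum fun t ht => (norm_sum_le _ _).trans
    (sum_le_sum (b t ht))).trans ?_)
  simp only [sum_add_distrib, sum_ite_eq, ← mul_sum]
  rw [← sum_mul, ← sq, add_mul, mul_assoc, sum_congr rfl fun t ht => if_pos ht, ← mul_sum]
  exact add_le_add le_rfl (mul_le_mul_of_nonneg_left sq_sum_le_card_mul_sum_sq hB)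

end PLS0

open PLS0 in
theorem x_lS0 (c : Ctx k K) (hRec : X_Rec K) (hCnt : X_Cnt K) (hBal2 : X_Bal2 k K)
    (hCube : X_Cube k K) : X_LS0 k K := by
  intro n hn
  obtain ⟨C1, g1, hB⟩ := hBal2 1 le_rfl
  obtain ⟨C2, g2, hC⟩ := hCube
  obtain ⟨⟨C3, g3, hN⟩, -⟩ := hCnt
  have n0 : (n : 𝓞 K) ≠ 0 := Nat.cast_ne_zero.2 hn.pos
  have hr := c.one_le_rk
  set r := rk k K with hrr
  set D := NN (sp (n : 𝓞 K)) with hD
  have gD : 1 ≤ D := one_le_NN (by simpa using n0)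
  set ℛ := (finite_mem_ideal n0).toFinset with hR
  have gC : 1 ≤ C1 ^ r := Real.one_le_rpow g1 (by linarith)
  refine ⟨(1 + ℛ.card) * (C2 * (1 + C3) * (C1 ^ r * D)), ?_, fun T 𝒩 Y N hY hYN hT hi hI a => ?_⟩
  · exact one_le_mul_of_one_le_of_one_le (le_add_of_nonneg_right (by positivity))
      (one_le_mul_of_one_le_of_one_le (one_le_mul_of_one_le_of_one_le g2 (by linarith))
        (one_le_mul_of_one_le_of_one_le gC gD))
  have N1 : 1 ≤ N := (Real.one_le_rpow hY (by linarith)).trans hYN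
  have r0 : r ≠ 0 := by linarith
  set L := √(C1 * (D * N) ^ (1 / r)) with hL
  have L2 : L ^ 2 = C1 * (D * N) ^ (1 / r) := Real.sq_sqrt (by positivity)
  have Y3 : Y ^ 3 ≤ L := by
    refine Real.le_sqrt_of_sq_le ?_
    have h1 : (Y ^ (6 * r)) ^ (1 / r) ≤ (D * N) ^ (1 / r) :=
      Real.rpow_le_rpow (by positivity) (hYN.trans (le_mul_of_one_le_left (by linarith) gD))
        (by positivity)
    rw [← Real.rpow_mul (by linarith), show 6 * r * (1 / r) = ((6 : ℕ) : ℝ) by field_simp; norm_num,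
      Real.rpow_natCast] at h1
    rw [← pow_mul]
    exact h1.trans (le_mul_of_one_le_left (by positivity) g1)
  have L1 : 1 ≤ L := (one_le_pow₀ hY).trans Y3
  have Lr : L ^ (2 * r) = C1 ^ r * D * N := by
    rw [Real.rpow_mul (by linarith), Real.rpow_two, L2, Real.mul_rpow (by linarith) (by positivity),
      ← Real.rpow_mul (by positivity), one_div_mul_cancel r0, Real.rpow_one, mul_assoc]
  obtain ⟨𝒞, m𝒞, c𝒞, s𝒞⟩ := hC L L1
  have ch : ∀ I ∈ 𝒩, ∃ p : Ideal (𝓞 K) × 𝓞 K, p ∈ ℛ ×ˢ 𝒞 ∧ p.1 ≠ ⊥ ∧ I * p.1 = sp p.2 ∧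
      ∀ t ∈ T, jac t I = jac p.2 (sp t) := fun I h => by
    obtain ⟨𝔠, γ, h1, h2⟩ := hn.cr I (hI I h).1
    have c0 : 𝔠 ≠ ⊥ := fun e => n0 (by simpa [e] using h1)
    have γ0 : γ ≠ 0 := fun e => mul_ne_zero (hI I h).1 c0 (by simpa [e] using h2)
    obtain ⟨u, -, hu⟩ := hB γ γ0
    have su : sp ((u : 𝓞 K) * γ) = sp γ := Ideal.span_singleton_mul_left_unit u.isUnit γ
    refine ⟨(𝔠, u * γ), mem_product.2 ⟨(Set.Finite.mem_toFinset _).2 h1, m𝒞 _ ?_⟩, c0,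
      h2.trans su.symm, fun t ht => ?_⟩
    · refine (pi_norm_le_iff_of_nonneg (by linarith)).2 fun φ => Real.le_sqrt_of_sq_le
        ((hu φ).1.trans (mul_le_mul_of_nonneg_left (Real.rpow_le_rpow (by positivity) ?_
          (by positivity)) (by linarith)))
      rw [← h2, NN_mul, mul_comm]
      refine mul_le_mul ?_ (hI I h).2 (by positivity) (by linarith)
      exact Nat.cast_le.2 (Nat.le_of_dvd (Nat.pos_of_ne_zero fun e => n0 (by simpa using e))
        (Ideal.absNorm_dvd_absNorm_of_le ((Ideal.span_singleton_le_iff_mem _).2 h1)))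
    · rw [← hRec t _ (hn.dvd8 (hT t ht).1.1) (mul_ne_zero u.ne_zero γ0), su, ← h2, jac_mul_right,
        jac_eq_one_of_mem c0 h1 (hT t ht).1.1, mul_one]
  choose! p p1 p2 p3 p4 using ch
  have inj : Set.InjOn p (𝒩 : Set (Ideal (𝓞 K))) := fun I h J h' e =>
    mul_right_cancel₀ (p2 I h) (by rw [p3 I h, e, p3 J h'])
  have Tc : (T.card : ℝ) ≤ C3 * Y := by
    rw [← card_image_of_injOn hi]
    refine hN Y _ (by linarith) fun I h => ?_
    obtain ⟨t, ht, rfl⟩ := mem_image.1 h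
    exact ⟨(hT t ht).1.2.ne_zero, (hT t ht).2⟩
  have main := msq 𝒞 T (fun t x => jac x (sp t)) a (B := C2 * Y ^ 2 * L ^ (2 * r - 1))
    (by positivity) (fun _ _ => conj_jac _ _) (fun _ _ => norm_jac_le _ _) c𝒞
    fun t ht t' ht' e => by
      have q0 : sp t * sp t' ≠ ⊥ := mul_ne_zero (hT t ht).1.2.ne_zero (hT t' ht').1.2.ne_zero
      obtain ⟨v, h2, h1⟩ := ex_place (hn.dvd8 (hT t ht).1.1) (hn.dvd8 (hT t' ht').1.1)
        (hT t ht).1.2 (hT t' ht').1.2 fun e' => e (hi ht ht' e')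
      obtain ⟨u, u1, u2⟩ := ex_odd q0 v h2 h1
      simp only [← jac_mul_right]
      refine (s𝒞 _ (fun x => jac x (sp t * sp t')) u
        (Nat.one_le_iff_ne_zero.2 fun e => q0 (Ideal.absNorm_eq_zero_iff.1 e))
        (fun x y h => jac_congr ((Ideal.span_singleton_le_iff_mem _).2 (Ideal.absNorm_mem _) h))
        (fun _ => norm_jac_le _ _) u1 fun x => by rw [jac_mul_left, u2, neg_one_mul]).trans ?_
      refine mul_le_mul_of_nonneg_right (mul_le_mul_of_nonneg_left ?_ (by linarith))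
        (by positivity)
      rw [← NN, NN_mul, sq]
      exact mul_le_mul (hT t ht).2 (hT t' ht').2 (by positivity) (by linarith)
  have off : C2 * Y ^ 2 * L ^ (2 * r - 1) * T.card ≤ C2 * C3 * L ^ (2 * r) := by
    rw [Real.rpow_sub_one (by linarith)]
    calc _ ≤ C2 * Y ^ 2 * (L ^ (2 * r) / L) * (C3 * Y) := by gcongr
      _ = C2 * C3 * L ^ (2 * r) * (Y ^ 3 / L) := by ring
      _ ≤ _ := mul_le_of_le_one_right (by positivity) ((div_le_one (by linarith)).2 Y3)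
  have S0 : 0 ≤ ∑ t ∈ T, ‖a t‖ ^ 2 := by positivity
  calc _ = ∑ I ∈ 𝒩, (fun q : Ideal (𝓞 K) × 𝓞 K => ‖∑ t ∈ T, a t * jac q.2 (sp t)‖ ^ 2) (p I) :=
        sum_congr rfl fun I h => by rw [sum_congr rfl fun t ht => by rw [p4 I h t ht]]
    _ ≤ ∑ q ∈ ℛ ×ˢ 𝒞, ‖∑ t ∈ T, a t * jac q.2 (sp t)‖ ^ 2 := by
        refine (sum_image (f := fun q : Ideal (𝓞 K) × 𝓞 K =>
          ‖∑ t ∈ T, a t * jac q.2 (sp t)‖ ^ 2) inj).ge.trans ?_
        exact sum_le_sum_of_subset_of_nonneg (image_subset_iff.2 p1) fun _ _ _ => by positivity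
    _ = ℛ.card * ∑ x ∈ 𝒞, ‖∑ t ∈ T, a t * jac x (sp t)‖ ^ 2 := by
        simp only [sum_product, sum_const, nsmul_eq_mul]
    _ ≤ (1 + ℛ.card) * ((C2 * L ^ (2 * r) + C2 * C3 * L ^ (2 * r)) * ∑ t ∈ T, ‖a t‖ ^ 2) :=
        mul_le_mul (by linarith) (main.trans (by gcongr)) (by positivity) (by positivity)
    _ = _ := by rw [Lr]; ring

end Pool.Agent.P.MP_b8021b_nt.BS
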