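import Pool.Agent.P.MP_b8021b_nt.BS.BasicD

/-! The large sieve inequality beyond the square root, from its smooth form. -/

namespace Pool.Agent.P.MP_b8021b_nt.BS

open NumberField IsDedekindDomain Finset MeasureTheory
open Pool.Agent.P.MP_b8021b_nt.VE Pool.Agent.P.MP_b8021b_nt.VC Pool.Agent.P.MP_b8021b_nt.BS.CF
open scoped Classical ComplexConjugate Real
variable {k : Type} [Field k] [NumberField k] [Algebra k ℂ] {K : Type} [Field K] [NumberField K]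
  [Algebra k K]

namespace PLS1

/-- a squarefree ideal is the product of an ideal that contains `n` and an ideal prime to `n` -/
theorem split (n : ℕ) (I : Ideal (𝓞 K)) : ∃ J : Ideal (𝓞 K),
    (I ⊔ sp (n : 𝓞 K)) * J = I ∧ (Squarefree I → Cop n J) := by
  obtain ⟨J, hJ⟩ : (I ⊔ sp (n : 𝓞 K)) ∣ I := Ideal.dvd_iff_le.2 le_sup_left
  refine ⟨J, hJ.symm, fun h => ?_⟩
  rw [Cop, Ideal.isCoprime_iff_sup_eq, ← Ideal.isUnit_iff]
  refine h _ ?_
  have h1 : I ≤ J := Ideal.dvd_iff_le.1 ⟨_, hJ.trans (mul_comm _ _)⟩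
  rw [hJ]
  exact mul_dvd_mul (Ideal.dvd_iff_le.2 (sup_le_sup_right h1 _)) (Ideal.dvd_iff_le.2 le_sup_left)

/-- the Gaussian is bounded below on a balanced element -/
theorem gau_ge {C₀ Y : ℝ} (hY : 1 ≤ Y) {t : 𝓞 K}
    (ht : ∀ φ, ‖emb k t φ‖ ^ 2 ≤ C₀ * Y ^ (1 / rk k K)) :
    1 ≤ Real.exp (2 * π * (Fintype.card (Emb k K) * max C₀ 0)) *
      gau (fun _ => Y ^ (-(1 / rk k K))) (emb k t) := by
  have h0 : 0 < Y := one_pos.trans_le hY
  have h1 : ∑ φ, Y ^ (-(1 / rk k K)) * ‖emb k t φ‖ ^ 2 ≤ Fintype.card (Emb k K) * max C₀ 0 := by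
    rw [← card_univ, ← nsmul_eq_mul]
    refine sum_le_card_nsmul _ _ _ fun φ _ => ?_
    rw [Real.rpow_neg h0.le, inv_mul_le_iff₀ (by positivity), mul_comm]
    exact (ht φ).trans (mul_le_mul_of_nonneg_right (le_max_left _ _) (by positivity))
  rw [gau, ← Real.exp_add]
  refine Real.one_le_exp ?_
  have := mul_le_mul_of_nonneg_left h1 (by positivity : (0 : ℝ) ≤ 2 * π)
  linarith

end PLS1

open PLS1 in
theorem x_lS1 (c : Ctx k K) (hLS1o : X_LS1o k K) : X_LS1 k K := by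
  intro n hn C₀
  obtain ⟨C, hC, H⟩ := hLS1o n hn
  have hn0 : (n : 𝓞 K) ≠ 0 := Nat.cast_ne_zero.2 hn.pos
  choose q hq hcop using split (K := K) n
  set D := (finite_mem_ideal hn0).toFinset with hD
  set E := Real.exp (2 * π * (Fintype.card (Emb k K) * max C₀ 0)) with hE
  have hE1 : 1 ≤ E := Real.one_le_exp (by positivity)
  have hD1 : (1 : ℝ) ≤ D.card := Nat.one_le_cast.2 (card_pos.2 ⟨⊤, by simp [hD]⟩)
  refine ⟨D.card * E * C, one_le_mul_of_one_le_of_one_le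
    (one_le_mul_of_one_le_of_one_le hD1 hE1) hC, fun T 𝒩 Y N hY hN hNY hT h𝒩 a => ?_⟩
  set Δ := C * Y * (1 + (N ^ 2 / Y) ^ (3 / 4 : ℝ)) with hΔ
  let g : Ideal (𝓞 K) → Ideal (𝓞 K) := fun I => I ⊔ sp (n : 𝓞 K)
  have hg : ∀ I, (n : 𝓞 K) ∈ g I := fun I =>
    (le_sup_right : sp (n : 𝓞 K) ≤ g I) (Ideal.mem_span_singleton_self _)
  have hgD : ∀ I ∈ 𝒩, g I ∈ D := fun I _ => by simpa [hD] using hg I
  have hg0 : ∀ I, g I ≠ ⊥ := fun I e => hn0 (by simpa [e] using hg I)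
  have key : ∀ 𝔠, ∑ t ∈ T, ‖∑ I ∈ 𝒩 with g I = 𝔠, a I * jac t I‖ ^ 2 ≤
      E * (Δ * ∑ I ∈ 𝒩 with g I = 𝔠, ‖a I‖ ^ 2) := fun 𝔠 => by
    have hm : ∀ I ∈ 𝒩.filter fun I => g I = 𝔠, 𝔠 * q I = I := fun I hI => by
      rw [← (mem_filter.1 hI).2]; exact hq I
    have inj : Set.InjOn q (𝒩.filter fun I => g I = 𝔠 : Finset _) := fun I hI J hJ e => by
      rw [← hm I hI, ← hm J hJ, e]
    have h := H T ((𝒩.filter fun I => g I = 𝔠).image q) (fun J => a (𝔠 * J)) Y N hY hN hNY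
      fun J hJ => by
        obtain ⟨I, hI, rfl⟩ := mem_image.1 hJ
        obtain ⟨h1, h2⟩ := h𝒩 I (mem_filter.1 hI).1
        refine ⟨h1.squarefree_of_dvd ⟨g I, by rw [mul_comm]; exact (hq I).symm⟩, hcop I h1, ?_⟩
        refine le_trans ?_ h2
        conv_rhs => rw [← hq I, NN_mul]
        exact le_mul_of_one_le_left (by positivity) (one_le_NN (hg0 I))
    rw [sum_image inj, sum_congr (s₁ := 𝒩.filter fun I => g I = 𝔠) (g := fun I => ‖a I‖ ^ 2) rfl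
      fun I hI => by rw [hm I hI]] at h
    refine le_trans ?_ (mul_le_mul_of_nonneg_left h (by positivity))
    rw [mul_sum]
    refine sum_le_sum fun t ht => ?_
    have e : ∑ I ∈ 𝒩 with g I = 𝔠, a I * jac t I =
        ∑ J ∈ (𝒩.filter fun I => g I = 𝔠).image q, a (𝔠 * J) * jac t J := by
      rw [sum_image inj]
      refine sum_congr rfl fun I hI => ?_
      rw [hm I hI]
      congr 1
      conv_lhs => rw [← hq I, jac_mul_right, jac_eq_one_of_mem (hg0 I) (hg I) (hT t ht).1, one_mul]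
    rw [e, ← mul_assoc]
    exact le_mul_of_one_le_left (by positivity) (gau_ge hY (hT t ht).2)
  calc ∑ t ∈ T, ‖∑ I ∈ 𝒩, a I * jac t I‖ ^ 2
      ≤ ∑ t ∈ T, D.card * ∑ 𝔠 ∈ D, ‖∑ I ∈ 𝒩 with g I = 𝔠, a I * jac t I‖ ^ 2 := by
        refine sum_le_sum fun t _ => ?_
        rw [← sum_fiberwise_of_maps_to hgD]
        exact (pow_le_pow_left₀ (norm_nonneg _) (norm_sum_le _ _) 2).trans
          sq_sum_le_card_mul_sum_sq
    _ ≤ D.card * ∑ 𝔠 ∈ D, E * (Δ * ∑ I ∈ 𝒩 with g I = 𝔠, ‖a I‖ ^ 2) := by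
        rw [← mul_sum, sum_comm]
        exact mul_le_mul_of_nonneg_left (sum_le_sum fun 𝔠 _ => key 𝔠) (by positivity)
    _ = _ := by
        rw [← mul_sum, ← mul_sum, sum_fiberwise_of_maps_to hgD, hΔ]; ring

end Pool.Agent.P.MP_b8021b_nt.BS
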