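import Pool.Agent.P.MP_b8021b_nt.BS.BasicD

/-! The smooth large sieve inequality from the bilinear bound. -/

namespace Pool.Agent.P.MP_b8021b_nt.BS

open NumberField IsDedekindDomain Finset MeasureTheory
open Pool.Agent.P.MP_b8021b_nt.VE Pool.Agent.P.MP_b8021b_nt.VC Pool.Agent.P.MP_b8021b_nt.BS.CF
open scoped Classical ComplexConjugate Real

variable {k : Type} [Field k] [NumberField k] [Algebra k ℂ] {K : Type} [Field K] [NumberField K]
  [Algebra k K]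

namespace PLS1o

theorem mem_eI {S : Finset (Pl K)} {x : 𝓞 K} : x ∈ eI S ↔ ∀ v ∈ S, x ∈ v.asIdeal := by
  simp only [← Ideal.dvd_span_singleton]
  exact ⟨fun h v hv => (dvd_prod_of_mem _ hv).trans h, fun h =>
    prod_dvd_of_coprime (fun v _ w _ e => v.isCoprime_of_ne w e) h⟩

theorem eI_inj {S S' : Finset (Pl K)} (h : eI S = eI S') : S = S' :=
  Finset.ext fun v => by rw [← eI_le_iff, h, eI_le_iff]

/-- the square of the symbol by inclusion and exclusion -/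
theorem jac_eI_sq (x : 𝓞 K) (S : Finset (Pl K)) :
    jac x (eI S) ^ 2 = ∑ S' ∈ S.powerset, (-1) ^ S'.card * if x ∈ eI S' then (1 : ℂ) else 0 := by
  have h : ∀ v : Pl K, leg x v ^ 2 = 1 + -(if x ∈ v.asIdeal then (1 : ℂ) else 0) := fun v => by
    split_ifs with e
    · simp [leg_eq_zero.2 e]
    · simp [leg_sq e]
  rw [jac_eI, ← prod_pow, prod_congr rfl fun v _ => h v, prod_one_add]
  refine sum_congr rfl fun S' _ => ?_
  rw [prod_neg, prod_boole]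
  simp only [mem_eI]

theorem cop_of_sqf {I J : Ideal (𝓞 K)} (h : Squarefree (I * J)) : IsCoprime I J :=
  Ideal.isCoprime_iff_sup_eq.2 (Ideal.isUnit_iff.1 (IsRelPrime.of_squarefree_mul h
    (Ideal.dvd_iff_le.2 le_sup_left) (Ideal.dvd_iff_le.2 le_sup_right)))

/-- the cofactors -/
noncomputable def Q (𝒩 : Finset (Ideal (𝓞 K))) (S : Finset (Pl K)) : Finset (Ideal (𝓞 K)) :=
  𝒩.preimage (fun q => eI S * q) (mul_right_injective₀ (eI_ne_bot S)).injOn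

theorem mem_Q {𝒩 : Finset (Ideal (𝓞 K))} {S : Finset (Pl K)} {q : Ideal (𝓞 K)} :
    q ∈ Q 𝒩 S ↔ eI S * q ∈ 𝒩 := mem_preimage

theorem sum_Q_le (𝒩 : Finset (Ideal (𝓞 K))) (S : Finset (Pl K)) (f : Ideal (𝓞 K) → ℝ)
    (hf : ∀ I, 0 ≤ f I) : ∑ q ∈ Q 𝒩 S, f (eI S * q) ≤ ∑ I ∈ 𝒩, f I := by
  rw [Q, sum_preimage' (fun q => eI S * q) 𝒩 _ f]
  exact sum_le_sum_of_subset_of_nonneg (filter_subset _ _) fun _ _ _ => hf _

omit [NumberField K] in
theorem sup_mul {g q q' : Ideal (𝓞 K)} (h : IsCoprime q q') : g * q ⊔ g * q' = g := by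
  rw [← Ideal.mul_sup, Ideal.isCoprime_iff_sup_eq.1 h, Ideal.mul_top]

/-- the terms off the diagonal, sorted by the greatest common divisor -/
theorem off (𝒩 : Finset (Ideal (𝓞 K))) (P : Finset (Pl K)) (h : ∀ I ∈ 𝒩, Squarefree I)
    (hP : ∀ I ∈ 𝒩, ∀ v : Pl K, I ≤ v.asIdeal → v ∈ P) (Φ : Ideal (𝓞 K) → Ideal (𝓞 K) → ℂ) :
    ∑ I ∈ 𝒩, ∑ J ∈ 𝒩, (if I = J then 0 else Φ I J) = ∑ S ∈ P.powerset, ∑ q ∈ Q 𝒩 S,
      ∑ q' ∈ Q 𝒩 S, if IsCoprime q q' ∧ q * q' ≠ ⊤ then Φ (eI S * q) (eI S * q') else 0 := by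
  have e1 : ∑ I ∈ 𝒩, ∑ J ∈ 𝒩, (if I = J then 0 else Φ I J) =
      ∑ p ∈ (𝒩 ×ˢ 𝒩).filter fun p => p.1 ≠ p.2, Φ p.1 p.2 := by
    rw [sum_filter, sum_product]
    simp only [ne_eq, ite_not]
  have e2 : (∑ S ∈ P.powerset, ∑ q ∈ Q 𝒩 S, ∑ q' ∈ Q 𝒩 S,
      if IsCoprime q q' ∧ q * q' ≠ ⊤ then Φ (eI S * q) (eI S * q') else 0) =
      ∑ z ∈ (P.powerset.sigma fun S => Q 𝒩 S ×ˢ Q 𝒩 S).filter
        fun z => IsCoprime z.2.1 z.2.2 ∧ z.2.1 * z.2.2 ≠ ⊤, Φ (eI z.1 * z.2.1) (eI z.1 * z.2.2) := by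
    rw [sum_filter, sum_sigma]
    simp only [sum_product]
  rw [e1, e2]
  symm
  refine sum_bij (fun z _ => (eI z.1 * z.2.1, eI z.1 * z.2.2)) ?_ ?_ ?_ fun _ _ => rfl
  · rintro ⟨S, q, q'⟩ hz
    simp only [mem_filter, mem_sigma, mem_product, mem_Q] at hz ⊢
    refine ⟨hz.1.2, fun e => hz.2.2 ?_⟩
    obtain rfl := mul_left_cancel₀ (eI_ne_bot S) e
    rw [Ideal.isUnit_iff.1 (isCoprime_self.1 hz.2.1), Ideal.mul_top]
  · rintro ⟨S, q, q'⟩ hz ⟨S', p, p'⟩ hw e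
    simp only [mem_filter, Prod.mk.injEq] at hz hw e
    obtain rfl : S = S' := eI_inj
      (by rw [← sup_mul (g := eI S) hz.2.1, e.1, e.2, sup_mul hw.2.1])
    rw [mul_left_cancel₀ (eI_ne_bot S) e.1, mul_left_cancel₀ (eI_ne_bot S) e.2]
  · rintro ⟨I, J⟩ hz
    simp only [mem_filter, mem_product] at hz
    have d1 : I ⊔ J ∣ I := Ideal.dvd_iff_le.2 le_sup_left
    have d2 : I ⊔ J ∣ J := Ideal.dvd_iff_le.2 le_sup_right
    obtain ⟨S, hS⟩ := exists_eI ((h I hz.1.1).squarefree_of_dvd d1)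
    rw [← hS] at d1 d2
    obtain ⟨q, rfl⟩ := d1
    obtain ⟨q', rfl⟩ := d2
    refine ⟨⟨S, q, q'⟩, ?_, rfl⟩
    simp only [mem_filter, mem_sigma, mem_product, mem_Q, mem_powerset]
    refine ⟨⟨fun v hv => hP _ hz.1.1 v (Ideal.mul_le_left.trans (eI_le_iff.2 hv)), hz.1⟩,
      Ideal.isCoprime_iff_sup_eq.2 (mul_left_cancel₀ (eI_ne_bot S) ?_), fun e => hz.2 ?_⟩
    · rw [Ideal.mul_sup, ← hS, Ideal.mul_top]
    · rw [top_le_iff.1 (e.ge.trans Ideal.mul_le_right), top_le_iff.1 (e.ge.trans Ideal.mul_le_left)]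

theorem exists_P (𝒩 : Finset (Ideal (𝓞 K))) (h : ∀ I ∈ 𝒩, I ≠ ⊥) :
    ∃ P : Finset (Pl K), ∀ I ∈ 𝒩, ∀ v : Pl K, I ≤ v.asIdeal → v ∈ P := by
  have := 𝒩.finite_toSet.biUnion (t := fun I => {v : Pl K | v.asIdeal ∣ I})
    fun I hI => Ideal.finite_factors (h I hI)
  exact ⟨this.toFinset, fun I hI v hv => this.mem_toFinset.2
    (Set.mem_biUnion hI (Ideal.dvd_iff_le.2 hv))⟩

/-- the sum over the greatest common divisors -/
theorem sum_pow (hCnt : X_Cnt K) : ∃ E : ℝ, 0 ≤ E ∧ ∀ P : Finset (Pl K),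
    ∑ S ∈ P.powerset, 2 ^ S.card * NN (eI S) ^ (-(3 / 2 : ℝ)) ≤ E := by
  obtain ⟨-, C, -, hC⟩ := hCnt.2 (3 / 2) (by norm_num)
  refine ⟨Real.exp (2 * C), by positivity, fun P => ?_⟩
  have e : ∀ S : Finset (Pl K), 2 ^ S.card * NN (eI S) ^ (-(3 / 2 : ℝ)) =
      ∏ v ∈ S, 2 * NN v.asIdeal ^ (-(3 / 2 : ℝ)) := fun S => by
    rw [prod_mul_distrib, prod_const, Real.finsetProd_rpow _ _ fun _ _ => by positivity]
    simp [eI, NN, map_prod]
  rw [sum_congr rfl fun S _ => e S, ← prod_one_add]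
  refine (Real.prod_one_add_le_exp_sum _ fun v => by positivity).trans (Real.exp_le_exp.2 ?_)
  have := hC 1 (P.image fun v => v.asIdeal) le_rfl fun I hI => by
    obtain ⟨v, -, rfl⟩ := mem_image.1 hI
    exact one_le_NN v.ne_bot
  rw [sum_image fun v _ w _ e => HeightOneSpectrum.ext e, Real.one_rpow, mul_one] at this
  rw [← mul_sum]
  linarith

/-- the weight -/
noncomputable abbrev W (k : Type) [Field k] [NumberField k] [Algebra k ℂ] [Algebra k K] (Y : ℝ)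
    (x : 𝓞 K) : ℝ := gau (fun _ => Y ^ (-(1 / rk k K))) (emb k x)

theorem summable_W (hGS : X_GS k K) {Y : ℝ} (hY : 1 ≤ Y) : Summable (W (K := K) k Y) := by
  simpa only [pow_zero, one_mul] using
    hGS.1 (fun _ => Y ^ (-(1 / rk k K))) 0 fun _ => by positivity

theorem summable_mul (hGS : X_GS k K) {Y : ℝ} (hY : 1 ≤ Y) {F : 𝓞 K → ℂ} (hF : ∀ x, ‖F x‖ ≤ 1) :
    Summable fun x => F x * (W k Y x : ℝ) :=
  (summable_W hGS hY).of_norm_bounded fun x => by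
    rw [norm_mul, Complex.norm_real, Real.norm_of_nonneg (gau_pos _ _).le]
    exact mul_le_of_le_one_left (gau_pos _ _).le (hF x)

theorem tsum_W (c : Ctx k K) (hGS : X_GS k K) : ∃ C : ℝ, 1 ≤ C ∧ ∀ Y : ℝ, 1 ≤ Y →
    ∑' x : 𝓞 K, W k Y x ≤ C * Y := by
  obtain ⟨C, h1, -, h2, -⟩ := hGS.2
  refine ⟨2 * C, by linarith, fun Y hY => ?_⟩
  have h3 := h2 (Y ^ (-(1 / rk k K))) (by positivity)
  have hr := c.one_le_rk
  rw [← Real.rpow_mul (by positivity), show -(1 / rk k K) * -rk k K = 1 by field_simp,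
    Real.rpow_one] at h3
  rw [(summable_W hGS hY).tsum_eq_add_tsum_ite 0]
  have h4 : W k Y (0 : 𝓞 K) ≤ 1 := gau_le_one (fun _ => by positivity) _
  have h5 : 1 ≤ C * Y := one_le_mul_of_one_le_of_one_le h1 hY
  have h6 : ∑' x : 𝓞 K, (if x = 0 then 0 else W k Y x) ≤ C * Y := by convert h3
  linarith

/-- the correlation of two symbols -/
noncomputable def M (k : Type) [Field k] [NumberField k] [Algebra k ℂ] [Algebra k K] (Y : ℝ)
    (I J : Ideal (𝓞 K)) : ℂ := ∑' x : 𝓞 K, jac x I * jac x J * (W k Y x : ℝ)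

theorem norm_jj (x : 𝓞 K) (I J : Ideal (𝓞 K)) : ‖jac x I * jac x J‖ ≤ 1 := by
  rw [norm_mul]
  exact mul_le_one₀ (norm_jac_le _ _) (norm_nonneg _) (norm_jac_le _ _)

theorem norm_M (hGS : X_GS k K) {Y : ℝ} (hY : 1 ≤ Y) (I J : Ideal (𝓞 K)) :
    ‖M k Y I J‖ ≤ ∑' x : 𝓞 K, W k Y x :=
  tsum_of_norm_bounded (summable_W hGS hY).hasSum fun x => by
    rw [norm_mul, Complex.norm_real, Real.norm_of_nonneg (gau_pos _ _).le]
    exact mul_le_of_le_one_left (gau_pos _ _).le (norm_jj x I J)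

theorem M_eq (hGS : X_GS k K) {Y : ℝ} (hY : 1 ≤ Y) (S : Finset (Pl K)) (q q' : Ideal (𝓞 K)) :
    M k Y (eI S * q) (eI S * q') =
      ∑ S' ∈ S.powerset, (-1) ^ S'.card * SS k (eI S') (q * q') Y := by
  have h : ∀ S' ∈ S.powerset, HasSum (fun x : 𝓞 K => (-1) ^ S'.card *
      ((if x ∈ eI S' then jac x (q * q') else 0) * (W k Y x : ℝ)))
      ((-1) ^ S'.card * SS k (eI S') (q * q') Y) := fun S' _ =>
    (summable_mul hGS hY fun x => by
      split_ifs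
      · exact norm_jac_le _ _
      · simp).hasSum.mul_left _
  rw [← (hasSum_sum h).tsum_eq, M]
  refine tsum_congr fun x => ?_
  have e : jac x (eI S * q) * jac x (eI S * q') = jac x (eI S) ^ 2 * jac x (q * q') := by
    simp only [jac_mul_right]; ring
  rw [e, jac_eI_sq, sum_mul, sum_mul]
  refine sum_congr rfl fun S' _ => ?_
  split_ifs <;> ring

/-- opening the square -/
theorem expand (hGS : X_GS k K) {Y : ℝ} (hY : 1 ≤ Y) (T : Finset (𝓞 K))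
    (𝒩 : Finset (Ideal (𝓞 K))) (c : Ideal (𝓞 K) → ℂ) :
    ∑ x ∈ T, W k Y x * ‖∑ I ∈ 𝒩, c I * jac x I‖ ^ 2 ≤
      ‖∑ I ∈ 𝒩, ∑ J ∈ 𝒩, c I * conj (c J) * M k Y I J‖ := by
  have h := hasSum_sum fun I (_ : I ∈ 𝒩) => hasSum_sum fun J (_ : J ∈ 𝒩) =>
    (summable_mul hGS hY fun x => norm_jj x I J).hasSum.mul_left (c I * conj (c J))
  have e : ∀ x : 𝓞 K, (∑ I ∈ 𝒩, ∑ J ∈ 𝒩, c I * conj (c J) * (jac x I * jac x J * (W k Y x : ℝ))) =
      ((W k Y x * ‖∑ I ∈ 𝒩, c I * jac x I‖ ^ 2 : ℝ) : ℂ) := fun x => by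
    rw [Complex.ofReal_mul, Complex.ofReal_pow, ← Complex.mul_conj', map_sum, sum_mul_sum, mul_sum]
    refine sum_congr rfl fun I _ => ?_
    rw [mul_sum]
    refine sum_congr rfl fun J _ => ?_
    rw [map_mul, conj_jac]
    ring
  simp only [e] at h
  have h2 := Complex.hasSum_re h
  simp only [Complex.ofReal_re] at h2
  exact (sum_le_hasSum T (fun x _ => mul_nonneg (gau_pos _ _).le (sq_nonneg _)) h2).trans
    (Complex.re_le_norm _)

end PLS1o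

open PLS1o in
theorem x_lS1o (c : Ctx k K) (hCnt : X_Cnt K) (hGS : X_GS k K) (hBil : X_Bil k K) :
    X_LS1o k K := by
  intro n hn
  obtain ⟨C₁, h1, hW⟩ := tsum_W c hGS
  obtain ⟨C₂, h2, hB⟩ := hBil n hn
  obtain ⟨E, hE, hS⟩ := sum_pow hCnt
  refine ⟨C₁ + C₂ * E, le_add_of_le_of_nonneg h1 (by positivity), fun T 𝒩 a Y N hY hN hNY h => ?_⟩
  obtain ⟨P, hP⟩ := exists_P 𝒩 fun I hI => (h I hI).1.ne_zero
  set A := ∑ I ∈ 𝒩, ‖a I‖ ^ 2
  set R := (N ^ 2 / Y) ^ (3 / 4 : ℝ)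
  have hA : 0 ≤ A := by positivity
  have hR : 0 ≤ R := by positivity
  refine (expand hGS hY T 𝒩 a).trans ?_
  have e : ∑ I ∈ 𝒩, ∑ J ∈ 𝒩, a I * conj (a J) * M k Y I J = ∑ I ∈ 𝒩, a I * conj (a I) * M k Y I I +
      ∑ I ∈ 𝒩, ∑ J ∈ 𝒩, if I = J then 0 else a I * conj (a J) * M k Y I J := by
    rw [← sum_add_distrib]
    refine sum_congr rfl fun I hI => ?_
    rw [← sum_ite_eq_of_mem 𝒩 I (fun J => a I * conj (a J) * M k Y I J) hI, ← sum_add_distrib]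
    refine sum_congr rfl fun J _ => ?_
    split_ifs <;> simp
  have d1 : ‖∑ I ∈ 𝒩, a I * conj (a I) * M k Y I I‖ ≤ C₁ * Y * A := by
    rw [mul_sum]
    refine norm_sum_le_of_le _ fun I _ => ?_
    rw [norm_mul, norm_mul, Complex.norm_conj, ← sq, mul_comm]
    exact mul_le_mul_of_nonneg_right ((norm_M hGS hY I I).trans (hW Y hY)) (sq_nonneg _)
  have d2 : ∀ S : Finset (Pl K), ‖∑ q ∈ Q 𝒩 S, ∑ q' ∈ Q 𝒩 S, if IsCoprime q q' ∧ q * q' ≠ ⊤ then
      a (eI S * q) * conj (a (eI S * q')) * M k Y (eI S * q) (eI S * q') else 0‖ ≤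
      C₂ * Y * R * A * (2 ^ S.card * NN (eI S) ^ (-(3 / 2 : ℝ))) := fun S => by
    have g0 := NN_pos (eI_ne_bot S)
    have e1 : (∑ q ∈ Q 𝒩 S, ∑ q' ∈ Q 𝒩 S, if IsCoprime q q' ∧ q * q' ≠ ⊤ then
        a (eI S * q) * conj (a (eI S * q')) * M k Y (eI S * q) (eI S * q') else 0) =
        ∑ S' ∈ S.powerset, (-1) ^ S'.card * ∑ q ∈ Q 𝒩 S, ∑ q' ∈ Q 𝒩 S,
          if IsCoprime q q' ∧ q * q' ≠ ⊤ then
            a (eI S * q) * conj (a (eI S * q')) * SS k (eI S') (q * q') Y else 0 := by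
      simp only [mul_sum]
      rw [sum_comm (s := S.powerset)]
      refine sum_congr rfl fun q _ => ?_
      rw [sum_comm (s := S.powerset)]
      refine sum_congr rfl fun q' _ => ?_
      split_ifs
      · rw [M_eq hGS hY, mul_sum]
        exact sum_congr rfl fun _ _ => by ring
      · simp
    have e2 : ((N / NN (eI S)) ^ 2 / Y) ^ (3 / 4 : ℝ) = R * NN (eI S) ^ (-(3 / 2 : ℝ)) := by
      rw [show (N / NN (eI S)) ^ 2 / Y = N ^ 2 / Y * NN (eI S) ^ (-2 : ℝ) by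
          rw [Real.rpow_neg g0.le, Real.rpow_two]; field_simp,
        Real.mul_rpow (by positivity) (by positivity), ← Real.rpow_mul g0.le]
      norm_num [R]
    rw [e1]
    refine (norm_sum_le_of_le _ (n := fun _ => C₂ * Y * R * A * NN (eI S) ^ (-(3 / 2 : ℝ)))
      fun S' hS' => ?_).trans_eq (by rw [sum_const, card_powerset, nsmul_eq_mul]; push_cast; ring)
    have dv : eI S' ∣ eI S := prod_dvd_prod_of_subset _ _ _ (mem_powerset.1 hS')
    have le : NN (eI S') ≤ NN (eI S) := Nat.cast_le.2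
      (Nat.le_of_dvd (Nat.cast_pos.1 g0) (map_dvd Ideal.absNorm dv))
    have := hB (eI S') (Q 𝒩 S) (fun q => a (eI S * q)) (fun q => conj (a (eI S * q))) Y N
      (N / NN (eI S)) hY hNY (eI_ne_bot S')
      ((mul_le_mul_of_nonneg_right le (by positivity)).trans_eq (by field_simp)) fun q hq => by
        obtain ⟨p1, p2, p3⟩ := h _ (mem_Q.1 hq)
        refine ⟨p1.of_mul_right, IsCoprime.of_mul_left_right p2,
          (cop_of_sqf p1).of_isCoprime_of_dvd_left dv, ?_⟩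
        rwa [le_div_iff₀' g0, ← NN_mul]
    rw [norm_mul, norm_pow, norm_neg, norm_one, one_pow, one_mul]
    refine this.trans ?_
    simp only [Complex.norm_conj]
    rw [Real.mul_self_sqrt (by positivity), e2]
    have p1 : NN (eI S') ^ (-(1 / 4 : ℝ)) ≤ 1 :=
      Real.rpow_le_one_of_one_le_of_nonpos (one_le_NN (eI_ne_bot S')) (by norm_num)
    have p2 := sum_Q_le 𝒩 S (fun I => ‖a I‖ ^ 2) fun _ => sq_nonneg _
    calc _ ≤ C₂ * Y * 1 * (R * NN (eI S) ^ (-(3 / 2 : ℝ))) * A := by gcongr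
      _ = _ := by ring
  rw [e, off 𝒩 P (fun I hI => (h I hI).1) hP fun I J => a I * conj (a J) * M k Y I J]
  have d3 := (norm_sum_le_of_le P.powerset fun S _ => d2 S).trans ((mul_sum _ _ _).ge.trans
    (mul_le_mul_of_nonneg_left (hS P) (by positivity)))
  refine (norm_add_le_of_le d1 d3).trans ?_
  have p1 : 0 ≤ C₁ * Y * R * A := by positivity
  have p2 : 0 ≤ C₂ * E * Y * A := by positivity
  nlinarith

end Pool.Agent.P.MP_b8021b_nt.BS
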