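import Pool.Agent.P.MP_b8021b_nt.BS.BasicD

/-! The residue field of a completion and the shape of the local polynomial. -/

namespace Pool.Agent.P.MP_b8021b_nt.BS

open NumberField IsDedekindDomain Finset MeasureTheory
open Pool.Agent.P.MP_b8021b_nt.VE Pool.Agent.P.MP_b8021b_nt.VC Pool.Agent.P.MP_b8021b_nt.BS.CF
open scoped Classical ComplexConjugate Real
variable {k : Type} [Field k] [NumberField k] [Algebra k ℂ] {K : Type} [Field K] [NumberField K] [Algebra k K]

namespace PLocB

lemma res_zero (v : Pl K) (x : v.adicCompletionIntegers K) :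
    IsLocalRing.residue (v.adicCompletionIntegers K) x = 0 ↔ Valued.v x.1 < 1 := by
  rw [IsLocalRing.residue_eq_zero_iff, IsLocalRing.mem_maximalIdeal, mem_nonunits_iff,
    HeightOneSpectrum.adicCompletionIntegers.isUnit_iff_valued_eq_one]
  have h : Valued.v x.1 ≤ 1 := x.2
  exact ⟨fun h' => lt_of_le_of_ne h h', fun h' => h'.ne⟩

lemma approx (v : Pl K) (x : v.adicCompletionIntegers K) :
    ∃ a : 𝓞 K, Valued.v ((algebraMap (𝓞 K) (v.adicCompletionIntegers K) a - x).1) < 1 := by
  have hn : {y : v.adicCompletion K | Valued.v (y - x.1) < 1} ∈ nhds x.1 := by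
    rw [Valued.mem_nhds]
    refine ⟨1, fun y hy => ?_⟩
    simpa [Valuation.restrict_lt_one_iff] using hy
  obtain ⟨y, hy⟩ := (HeightOneSpectrum.denseRange_algebraMap K v).mem_nhds hn
  have hy' : Valued.v ((y : v.adicCompletion K) - x.1) < 1 := hy
  have hx : Valued.v x.1 ≤ 1 := x.2
  have hy1 : v.valuation K y ≤ 1 := by
    rw [← HeightOneSpectrum.valuedAdicCompletion_eq_valuation']
    have : (y : v.adicCompletion K) = ((y : v.adicCompletion K) - x.1) + x.1 := by ring
    rw [this]
    exact Valuation.map_add_le _ hy'.le hx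
  obtain ⟨a, ha⟩ := HeightOneSpectrum.exists_valuation_sub_lt_of_integer v hy1 1
  refine ⟨a, ?_⟩
  rw [← HeightOneSpectrum.valuedAdicCompletion_eq_valuation'] at ha
  have e : (algebraMap (𝓞 K) (v.adicCompletionIntegers K) a - x).1 =
      ((algebraMap (𝓞 K) K a - y : K) : v.adicCompletion K) +
        ((y : v.adicCompletion K) - x.1) := by
    have h1 : ((algebraMap (𝓞 K) K a - y : K) : v.adicCompletion K) =
        ((algebraMap (𝓞 K) K a : K) : v.adicCompletion K) - (y : v.adicCompletion K) :=
      map_sub (algebraMap K (v.adicCompletion K)) _ _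
    rw [h1]
    change ((algebraMap (𝓞 K) K a : K) : v.adicCompletion K) - x.1 = _
    ring
  rw [e]
  exact Valuation.map_add_lt _ ha hy'

lemma card_le {F : Type} [Field F] [Finite F] (W : WeierstrassCurve F) :
    1 ≤ Nat.card W.toAffine.Point ∧ Nat.card W.toAffine.Point ≤ 2 * Nat.card F + 1 := by
  obtain ⟨e, he⟩ := exists_injective_nat F
  let f : W.toAffine.Point → Option (F × Bool) := fun P => match P with
    | .zero => none
    | .some x y _ => some (x, decide (e y ≤ e (W.toAffine.negY x y)))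
  have hf : Function.Injective f := by
    rintro (_ | ⟨x, y, h⟩) (_ | ⟨x', y', h'⟩) hh
    · rfl
    · simp [f] at hh
    · simp [f] at hh
    · simp only [f, Option.some.injEq, Prod.mk.injEq, decide_eq_decide] at hh
      obtain ⟨rfl, h2⟩ := hh
      have : y = y' := by
        rcases WeierstrassCurve.Affine.Y_eq_of_X_eq h.1 h'.1 rfl with h3 | h3
        · exact h3
        · have h4 : W.toAffine.negY x y = y' := by
            rw [h3, WeierstrassCurve.Affine.negY_negY]
          rw [h4, ← h3] at h2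
          exact he (by omega)
      subst this; rfl
  have : Finite W.toAffine.Point := Finite.of_injective f hf
  refine ⟨Nat.card_pos, (Nat.card_le_card_of_injective f hf).trans ?_⟩
  rw [Finite.card_option, Nat.card_prod]
  simp [mul_comm]

lemma roots (a q : ℝ) (hq : 1 ≤ q) (ha : |a| ≤ q) :
    ∃ α β : ℂ, α + β = a ∧ α * β = q ∧ ‖α‖ ≤ q ∧ ‖β‖ ≤ q := by
  rcases le_total 0 (a ^ 2 - 4 * q) with h | h
  · have hs := Real.sq_sqrt h
    have h0 := Real.sqrt_nonneg (a ^ 2 - 4 * q)
    set s := √(a ^ 2 - 4 * q)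
    have h1 : s ≤ |a| := by
      refine abs_le_of_sq_le_sq' (by rw [sq_abs]; linarith) (abs_nonneg a) |>.2
    have h2 := le_abs_self a
    have h3 := neg_abs_le a
    refine ⟨((a + s) / 2 : ℝ), ((a - s) / 2 : ℝ), ?_, ?_, ?_, ?_⟩
    · push_cast; ring
    · rw [← Complex.ofReal_mul]; congr 1; linarith
    · rw [Complex.norm_real, Real.norm_eq_abs, abs_le]; constructor <;> linarith
    · rw [Complex.norm_real, Real.norm_eq_abs, abs_le]; constructor <;> linarith
  · have hs := Real.sq_sqrt (show 0 ≤ 4 * q - a ^ 2 by linarith)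
    set s := √(4 * q - a ^ 2)
    have hn : ∀ t : ℝ, t ^ 2 = s ^ 2 → ‖(⟨a / 2, t / 2⟩ : ℂ)‖ ≤ q := fun t ht => by
      refine abs_le_of_sq_le_sq' ?_ (by linarith) |>.2
      rw [Complex.sq_norm, Complex.normSq_mk]
      nlinarith
    refine ⟨⟨a / 2, s / 2⟩, ⟨a / 2, -s / 2⟩, ?_, ?_, hn s rfl, hn (-s) (by ring)⟩
    · apply Complex.ext
      · simp
      · simp; ring
    · apply Complex.ext
      · simp; linarith
      · simp; ring

end PLocB

open PLocB

theorem x_locR (c : Ctx k K) : X_LocR K := by
  intro v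
  have h3 : ∀ a : 𝓞 K, IsLocalRing.residue (v.adicCompletionIntegers K)
      (algebraMap (𝓞 K) (v.adicCompletionIntegers K) a) = 0 ↔ a ∈ v.asIdeal := fun a => by
    rw [res_zero, HeightOneSpectrum.algebraMap_adicCompletionIntegers_apply,
      HeightOneSpectrum.valuedAdicCompletion_eq_valuation',
      HeightOneSpectrum.valuation_lt_one_iff_mem]
  have h2 : Function.Surjective fun a : 𝓞 K => IsLocalRing.residue (v.adicCompletionIntegers K)
      (algebraMap (𝓞 K) (v.adicCompletionIntegers K) a) := fun z => by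
    obtain ⟨x, rfl⟩ := IsLocalRing.residue_surjective z
    obtain ⟨a, ha⟩ := approx v x
    refine ⟨a, ?_⟩
    rw [← res_zero, map_sub, sub_eq_zero] at ha
    exact ha
  refine ⟨?_, h2, h3⟩
  let φ : 𝓞 K →+* IsLocalRing.ResidueField (v.adicCompletionIntegers K) :=
    (IsLocalRing.residue _).comp (algebraMap _ _)
  have hk : RingHom.ker φ = v.asIdeal := Ideal.ext fun a => h3 a
  rw [Ideal.absNorm_apply, Submodule.cardQuot_apply, ← hk]
  exact (Nat.card_congr (RingHom.quotientKerEquivOfSurjective (f := φ) h2).toEquiv).symm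

open Polynomial in
theorem x_locB (c : Ctx k K) : X_LocB K := by
  intro W v
  have hq := (x_locR c v).1
  have h2 : 2 ≤ Ideal.absNorm v.asIdeal := by
    have h0 : Ideal.absNorm v.asIdeal ≠ 0 := fun h => v.ne_bot (Ideal.absNorm_eq_zero_iff.1 h)
    have h1 : Ideal.absNorm v.asIdeal ≠ 1 := fun h =>
      v.isPrime.ne_top (Ideal.absNorm_eq_one_iff.1 h)
    omega
  have h2r : (2 : ℝ) ≤ NN v.asIdeal := by exact_mod_cast h2
  have hq0 : (Ideal.absNorm v.asIdeal : ℂ) ≠ 0 := by exact_mod_cast (by omega)
  unfold locP WeierstrassCurve.localPolynomial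
  split_ifs
  · have : Finite (IsLocalRing.ResidueField (v.adicCompletionIntegers K)) :=
      Nat.finite_of_card_ne_zero (by omega)
    obtain ⟨hN1, hN2⟩ := card_le ((((W.baseChange (v.adicCompletion K)).minimal
      (v.adicCompletionIntegers K)).reduction (v.adicCompletionIntegers K)))
    rw [hq] at hN2 ⊢
    generalize Nat.card (((W.baseChange (v.adicCompletion K)).minimal
      (v.adicCompletionIntegers K)).reduction (v.adicCompletionIntegers K)).toAffine.Point = N
      at hN1 hN2 ⊢
    have hN1' : (1 : ℝ) ≤ N := by exact_mod_cast hN1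
    have hN2' : (N : ℝ) ≤ 2 * NN v.asIdeal + 1 := by exact_mod_cast hN2
    obtain ⟨α, β, e1, e2, b1, b2⟩ := roots (NN v.asIdeal + 1 - N) (NN v.asIdeal) (by linarith)
      (by rw [abs_le]; constructor <;> linarith)
    push_cast at e1 e2
    refine ⟨α, β, ?_, b1, b2, ?_⟩
    · have : (1 - C α * X) * (1 - C β * X) = 1 - C (α + β) * X + C (α * β) * X ^ 2 := by
        rw [C_add, C_mul]; ring
      rw [this, e1, e2]
      simp
    · have : (1 - α / (Ideal.absNorm v.asIdeal : ℂ)) * (1 - β / (Ideal.absNorm v.asIdeal : ℂ)) =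
          N / (Ideal.absNorm v.asIdeal : ℂ) := by
        field_simp
        linear_combination e2 - (Ideal.absNorm v.asIdeal : ℂ) * e1
      rw [this]
      exact div_ne_zero (by exact_mod_cast (by omega)) hq0
  · refine ⟨1, 0, by simp, by simpa using by omega, by simp, ?_⟩
    rw [zero_div, sub_zero, mul_one, sub_ne_zero, Ne, eq_div_iff hq0, one_mul]
    exact_mod_cast (by omega)
  · refine ⟨-1, 0, by simp, by simpa using by omega, by simp, ?_⟩
    rw [zero_div, sub_zero, mul_one, sub_ne_zero, Ne, eq_div_iff hq0, one_mul]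
    intro h
    have : (Ideal.absNorm v.asIdeal : ℤ) = -1 := by exact_mod_cast h
    omega
  · exact ⟨0, 0, by simp, by simp, by simp, by simp⟩

end Pool.Agent.P.MP_b8021b_nt.BS
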