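import Pool.Agent.P.MP_b8021b_nt.BS.BasicD

/-! The local polynomial of `y ^ 2 = x ^ 3 + b x` at an odd place that does not divide `b`. -/

namespace Pool.Agent.P.MP_b8021b_nt.BS

open NumberField IsDedekindDomain Finset MeasureTheory
open Pool.Agent.P.MP_b8021b_nt.VE Pool.Agent.P.MP_b8021b_nt.VC Pool.Agent.P.MP_b8021b_nt.BS.CF
open scoped Classical ComplexConjugate Real
variable {k : Type} [Field k] [NumberField k] [Algebra k ℂ] {K : Type} [Field K] [NumberField K] [Algebra k K]

namespace PLocG

open Polynomial WeierstrassCurve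

section Fld

variable {F : Type} [Field F]

theorem eqn_vc (C : VariableChange F) (W : WeierstrassCurve F) (x y : F) :
    (C • W).toAffine.Equation x y ↔
      W.toAffine.Equation (C.u ^ 2 * x + C.r) (C.u ^ 3 * y + C.u ^ 2 * C.s * x + C.t) := by
  have hu : (C.u : F) ≠ 0 := C.u.ne_zero
  rw [Affine.equation_iff', Affine.equation_iff', ← mul_eq_zero_iff_left (pow_ne_zero 6 hu)]
  simp only [variableChange_def, Units.val_inv_eq_inv_val]
  congr! 1
  field_simp
  ring

theorem card_vc [Finite F] (C : VariableChange F) (W : WeierstrassCurve F) :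
    Nat.card {p : F × F // (C • W).toAffine.Equation p.1 p.2} =
      Nat.card {p : F × F // W.toAffine.Equation p.1 p.2} := by
  have hu : (C.u : F) ≠ 0 := C.u.ne_zero
  have hi : Function.Injective fun p : F × F =>
      ((C.u : F) ^ 2 * p.1 + C.r, (C.u : F) ^ 3 * p.2 + C.u ^ 2 * C.s * p.1 + C.t) := by
    rintro ⟨x, y⟩ ⟨x', y'⟩ h
    simp only [Prod.mk.injEq, add_left_inj] at h
    obtain rfl := mul_left_cancel₀ (pow_ne_zero 2 hu) h.1
    rw [mul_left_cancel₀ (pow_ne_zero 3 hu) (add_right_cancel h.2)]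
  exact Nat.card_congr ((Equiv.ofBijective _ (Finite.injective_iff_bijective.1 hi)).subtypeEquiv
    fun p => eqn_vc C W p.1 p.2)

theorem card_pt [Finite F] {W : WeierstrassCurve F} (h : W.Δ ≠ 0) :
    Nat.card W.toAffine.Point = Nat.card {p : F × F // W.toAffine.Equation p.1 p.2} + 1 := by
  rw [Nat.card_congr W.toAffine.nonsingularPointEquiv, ← Finite.card_option]
  exact Nat.card_congr (Equiv.optionCongr (Equiv.subtypeEquivRight fun p =>
    (Affine.equation_iff_nonsingular_of_Δ_ne_zero h).symm))

theorem card_Wb [Fintype F] (h2 : ringChar F ≠ 2) (β : F) :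
    (Nat.card {p : F × F // (Wb β).toAffine.Equation p.1 p.2} : ℤ) =
      Fintype.card F + ∑ x : F, quadraticChar F (x ^ 3 + β * x) := by
  have e : ∀ p : F × F, (Wb β).toAffine.Equation p.1 p.2 ↔ p.2 ^ 2 = p.1 ^ 3 + β * p.1 := by
    intro p; rw [Affine.equation_iff]; simp
  rw [Nat.card_congr ((Equiv.subtypeEquivRight e).trans (Equiv.subtypeProdEquivSigmaSubtype
    fun x y : F => y ^ 2 = x ^ 3 + β * x)), Nat.card_eq_fintype_card, Fintype.card_sigma,
    Nat.cast_sum, add_comm, ← card_univ, card_eq_sum_ones, Nat.cast_sum, ← sum_add_distrib]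
  refine sum_congr rfl fun x _ => ?_
  rw [Nat.cast_one, ← quadraticChar_card_sqrts h2, Set.toFinset_card]
  exact congrArg _ (Fintype.card_congr (Equiv.refl _))

end Fld

section Dvr

variable {R : Type} [CommRing R] [IsDomain R] [IsDiscreteValuationRing R] {L : Type} [Field L]
  [Algebra R L] [IsFractionRing R L]

open IsDiscreteValuationRing IsDedekindDomain.HeightOneSpectrum

theorem val_one {a : R} : valuation L (maximalIdeal R) (algebraMap R L a) = 1 ↔ IsUnit a :=
  (valuation_eq_one_iff_notMem _).trans IsLocalRing.notMem_maximalIdeal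

theorem good {W₀ : WeierstrassCurve R} (h : IsUnit W₀.Δ) :
    ((W₀.baseChange L).minimal R).HasGoodReduction R := by
  set W := W₀.baseChange L with hW
  have hm : IsMinimal R (W.minimal R) := inferInstance
  have hi : WeierstrassCurve.IsIntegral R W := ⟨W₀, hW⟩
  have e : (W.exists_isMinimal R).choose⁻¹ • W.minimal R = W := inv_smul_smul _ _
  have h1 : valuation L (maximalIdeal R) W.Δ = 1 := by
    rw [hW, baseChange, map_Δ]; exact val_one.2 h
  have h2 : valuation_Δ_aux R (W.minimal R) ≤ valuation_Δ_aux R W := by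
    rw [← Subtype.coe_le_coe, valuation_Δ_aux_eq_of_isIntegral R W, h1]
    exact (valuation_Δ_aux R _).2
  have h3 := hm.val_Δ_maximal.2 (j := (W.exists_isMinimal R).choose⁻¹) (by simpa only [e] using hi)
  simp only [e, one_smul] at h3
  have h4 := h3 h2
  rw [← Subtype.coe_le_coe, valuation_Δ_aux_eq_of_isIntegral R W, h1] at h4
  exact ⟨(valuation_Δ_aux_eq_of_isIntegral R _).symm.trans
    (le_antisymm (valuation_Δ_aux R _).2 h4)⟩

/-- a change of variables between integral models with unit discriminants is integral -/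
theorem lift_vc {b : R} (h2 : IsUnit (2 : R)) (hb : IsUnit (Wb b).Δ) {I : WeierstrassCurve R}
    (hI : IsUnit I.Δ) (C : VariableChange L) (h : I.baseChange L = C • (Wb b).baseChange L) :
    ∃ C₀ : VariableChange R, I = C₀ • Wb b := by
  have inj := IsFractionRing.injective R L
  have hu : (C.u : L) ≠ 0 := C.u.ne_zero
  obtain ⟨d, hd⟩ := hI.exists_right_inv
  obtain ⟨w, hw⟩ := h2.exists_right_inv
  have hw' : 2 * algebraMap R L w = 1 := by
    simpa only [map_mul, map_one, map_ofNat] using congrArg (algebraMap R L) hw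
  have hD : (C.u : L) ^ 12 = algebraMap R L ((Wb b).Δ * d) := by
    have e := congrArg WeierstrassCurve.Δ h
    rw [variableChange_Δ, baseChange, baseChange, map_Δ, map_Δ, Units.val_inv_eq_inv_val] at e
    have e' := congrArg (algebraMap R L) hd
    rw [map_mul, map_one, e] at e'
    rw [map_mul]; field_simp at e'; rw [← e']
  obtain ⟨u, hu'⟩ := IsIntegrallyClosed.exists_algebraMap_eq_of_isIntegral_pow (R := R)
    (by norm_num : 0 < 12) (hD ▸ isIntegral_algebraMap)
  have uu : IsUnit u := by
    rw [← isUnit_pow_iff (by norm_num : 12 ≠ 0),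
      show u ^ 12 = (Wb b).Δ * d from inj (by rw [map_pow, hu', hD])]
    exact hb.mul (IsUnit.of_mul_eq_one_right _ hd)
  have e1 := congrArg WeierstrassCurve.a₁ h
  have e3 := congrArg WeierstrassCurve.a₃ h
  have e6 := congrArg WeierstrassCurve.a₆ h
  simp only [variableChange_def, baseChange, WeierstrassCurve.map, map_zero,
    Units.val_inv_eq_inv_val] at e1 e3 e6
  field_simp at e1 e3 e6
  have hs : algebraMap R L (w * u * I.a₁) = C.s := by
    rw [map_mul, map_mul, hu']; linear_combination algebraMap R L w * e1 + C.s * hw'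
  have ht : algebraMap R L (w * u ^ 3 * I.a₃) = C.t := by
    rw [map_mul, map_mul, map_pow, hu']; linear_combination algebraMap R L w * e3 + C.t * hw'
  obtain ⟨r, hr⟩ := IsIntegrallyClosed.algebraMap_eq_of_integral (R := R) (x := C.r)
    ⟨X ^ 3 + Polynomial.C b * X - Polynomial.C ((w * u ^ 3 * I.a₃) ^ 2 + u ^ 6 * I.a₆),
      by monicity!, by
        simp only [eval₂_sub, eval₂_add, eval₂_mul, eval₂_pow, eval₂_X, eval₂_C]
        rw [map_add, map_pow, ht, map_mul, map_pow, hu']
        linear_combination -e6⟩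
  refine ⟨⟨uu.unit, r, w * u * I.a₁, w * u ^ 3 * I.a₃⟩, WeierstrassCurve.map_injective inj ?_⟩
  beta_reduce
  rw [← map_variableChange, ← baseChange, ← baseChange, h]
  congr 1
  ext
  exacts [hu'.symm, hr.symm, hs.symm, ht.symm]

theorem locPoly [Fintype (IsLocalRing.ResidueField R)] {b : R} (h2 : IsUnit (2 : R))
    (hb : IsUnit b) : ((Wb b).baseChange L).localPolynomial R =
      1 + Polynomial.C (∑ x, quadraticChar _ (x ^ 3 + IsLocalRing.residue R b * x)) * X +
        Polynomial.C (Nat.card (IsLocalRing.ResidueField R) : ℤ) * X ^ 2 := by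
  have hD : IsUnit (Wb b).Δ := by
    have : (Wb b).Δ = -(2 ^ 6 * b ^ 3) := by simp only [Δ, b₂, b₄, b₆, b₈]; ring
    exact this ▸ ((h2.pow 6).mul (hb.pow 3)).neg
  have hg := good (L := L) hD
  have hI : IsUnit (integralModel R (((Wb b).baseChange L).minimal R)).Δ :=
    (val_one (L := L)).1 (integralModel_Δ_eq R (((Wb b).baseChange L).minimal R) ▸ hg.goodReduction)
  obtain ⟨C₀, hC⟩ := lift_vc h2 hD hI _ (baseChange_integralModel_eq R _)
  have hc : ringChar (IsLocalRing.ResidueField R) ≠ 2 := fun e =>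
    (h2.map (IsLocalRing.residue R)).ne_zero (by
      simpa only [map_ofNat, e, Nat.cast_ofNat] using
        ringChar.Nat.cast_ringChar (R := IsLocalRing.ResidueField R))
  have hn : (Nat.card ((((Wb b).baseChange L).minimal R).reduction R).toAffine.Point : ℤ) =
      Nat.card (IsLocalRing.ResidueField R) +
        ∑ x, quadraticChar _ (x ^ 3 + IsLocalRing.residue R b * x) + 1 := by
    rw [reduction, card_pt (by rw [map_Δ]; exact (hI.map _).ne_zero), hC, ← map_variableChange,
      card_vc, Nat.cast_add, Nat.cast_one, Nat.card_eq_fintype_card (α := IsLocalRing.ResidueField R),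
      ← card_Wb hc]
    simp only [WeierstrassCurve.map, map_zero]
  rw [localPolynomial, if_pos hg, hn]
  simp only [map_sub, map_add]
  ring

end Dvr

end PLocG

open Polynomial in
theorem x_locG (c : Ctx k K) (hLocR : X_LocR K) : X_LocG K := by
  intro b v h2 hb
  obtain ⟨hc, hs, hk⟩ := hLocR v
  set R := v.adicCompletionIntegers K
  set ρ : 𝓞 K →+* IsLocalRing.ResidueField R :=
    (IsLocalRing.residue R).comp (algebraMap (𝓞 K) R) with hρ
  have fin : Finite (IsLocalRing.ResidueField R) :=
    Nat.finite_of_card_ne_zero (hc ▸ Ideal.absNorm_eq_zero_iff.not.2 v.ne_bot)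
  let _ := Fintype.ofFinite (IsLocalRing.ResidueField R)
  have un : ∀ a : 𝓞 K, a ∉ v.asIdeal → IsUnit (algebraMap (𝓞 K) R a) := fun a ha =>
    IsLocalRing.notMem_maximalIdeal.1 fun e =>
      ha ((hk a).1 ((IsLocalRing.residue_eq_zero_iff _).2 e))
  have e : (Wb (b : K)).baseChange (v.adicCompletion K) =
      (Wb (algebraMap (𝓞 K) R b)).baseChange (v.adicCompletion K) := by
    simp only [WeierstrassCurve.baseChange, WeierstrassCurve.map, map_zero]
    rfl
  obtain ⟨r, hr⟩ := hs.hasRightInverse
  have hr' : ∀ j, ρ (r j) = j := hr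
  have hk' : ∀ a, ρ a = 0 ↔ a ∈ v.asIdeal := hk
  have pe : Peri v.asIdeal fun x => leg (x ^ 3 + b * x) v := fun x y h => leg_congr (by
    rw [← hk', map_sub, sub_eq_zero] at h ⊢
    simp only [map_add, map_mul, map_pow, h])
  have bi : Function.Bijective fun j => Ideal.Quotient.mk v.asIdeal (r j) := by
    refine ⟨fun i j h => ?_, fun x => ?_⟩
    · have := (hk' _).2 (Ideal.Quotient.eq.1 h)
      rwa [map_sub, hr', hr', sub_eq_zero] at this
    · obtain ⟨x, rfl⟩ := Ideal.Quotient.mk_surjective x
      exact ⟨ρ x, Ideal.Quotient.eq.2 ((hk' _).1 (by rw [map_sub, hr', sub_self]))⟩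
  rw [locP, e, PLocG.locPoly (by simpa only [Nat.cast_ofNat, map_ofNat] using un _ h2) (un b hb),
    hc, chs, pe.finsum_eq r bi]
  simp only [leg_eq_quad ρ hs hk', map_add, map_mul, map_pow, hr', Polynomial.map_add,
    Polynomial.map_mul, Polynomial.map_pow, Polynomial.map_one, map_X, map_C]
  simp only [eq_intCast, Int.cast_sum, Int.cast_natCast]
  rfl

end Pool.Agent.P.MP_b8021b_nt.BS
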