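import Pool.Agent.P.MP_b8021b_nt.BS.BasicD

/-! The mean square of the smooth sums of a quadratic symbol. -/

namespace Pool.Agent.P.MP_b8021b_nt.BS

open NumberField IsDedekindDomain Finset MeasureTheory
open Pool.Agent.P.MP_b8021b_nt.VE Pool.Agent.P.MP_b8021b_nt.VC Pool.Agent.P.MP_b8021b_nt.BS.CF
open scoped Classical ComplexConjugate Real

variable {k : Type} [Field k] [NumberField k] [Algebra k ℂ] {K : Type} [Field K] [NumberField K]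
  [Algebra k K]

namespace PMQ

theorem norm_jq_le (𝔠 : Ideal (𝓞 K)) (κ γ : 𝓞 K) : ‖jq 𝔠 κ γ‖ ≤ 1 := by
  unfold jq
  split_ifs
  · exact norm_jac_le _ _
  · simp

/-- the mean square of the dual sums for one auxiliary ideal -/
theorem core (c : Ctx k K) (hGS : X_GS k K) (hSep : X_Sep) (hTM : X_TM k K) {W : ℝ} (hW : 1 ≤ W)
    (𝔠 : Ideal (𝓞 K)) : ∃ C : ℝ, 0 ≤ C ∧ (𝔠 ≠ ⊥ → ∀ (Γ : Finset (𝓞 K)) (a : 𝓞 K → ℂ)
      (y : 𝓞 K → Emb k K → ℝ) (L t : ℝ), 1 ≤ L → 0 < t → (1 ≤ t → t ^ (5 * rk k K / 2) ≤ L) →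
      (∀ κ, ‖a κ‖ ≤ 1) → (∀ γ ∈ Γ, ‖emb k γ‖ ≤ L ∧ a 0 * jq 𝔠 0 γ = 0 ∧
        ∀ φ, (W * t)⁻¹ ≤ y γ φ ∧ y γ φ ≤ W / t) →
      ∑ γ ∈ Γ, ‖∑' κ, a κ * jq 𝔠 κ γ * (gau (y γ) (emb k κ) : ℝ)‖ ^ 2 ≤
        C * (L ^ (2 * rk k K) * t ^ (3 * rk k K / 2))) := by
  by_cases h𝔠 : 𝔠 = ⊥
  · exact ⟨0, le_rfl, fun h => absurd h𝔠 h⟩
  obtain ⟨hs, CG, hCG, hcard, hz, -⟩ := hGS
  obtain ⟨CS, hCS, hS⟩ := hSep (Emb k K) (W ^ 2) (one_le_pow₀ hW)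
  obtain ⟨CT, hCT, hT⟩ := hTM 𝔠 h𝔠
  have hr := c.one_le_rk
  set r := rk k K
  have hs0 : ∀ μ : ℝ, 0 < μ → Summable fun x : 𝓞 K => gau (fun _ => μ) (emb k x) := fun μ hμ => by
    simpa using hs (fun _ => μ) 0 fun _ => hμ
  have W0 : 0 < W := one_pos.trans_le hW
  refine ⟨CG * (CG * W ^ r) ^ 2 + CS * (CT * (2 * (2 * W) ^ (4 * r))), by positivity,
    fun _ Γ a y L t hL ht h5 ha hΓ => ?_⟩
  have L0 : 0 < L := one_pos.trans_le hL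
  have hμ : 0 < (W * t)⁻¹ := by positivity
  have hP : 0 ≤ L ^ (2 * r) * t ^ (3 * r / 2) := by positivity
  rcases le_total t 1 with h1 | h1
  · refine le_trans ?_ (mul_le_mul_of_nonneg_right (le_add_of_nonneg_right
      (b := CS * (CT * (2 * (2 * W) ^ (4 * r)))) (by positivity)) hP)
    have hb : ∀ γ ∈ Γ, ‖∑' κ, a κ * jq 𝔠 κ γ * (gau (y γ) (emb k κ) : ℝ)‖ ^ 2 ≤
        (CG * W ^ r) ^ 2 * t ^ (3 * r / 2) := fun γ hγ => by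
      obtain ⟨-, h0, hy⟩ := hΓ γ hγ
      have hle : ∀ κ, ‖a κ * jq 𝔠 κ γ * (gau (y γ) (emb k κ) : ℝ)‖ ≤
          if κ = 0 then 0 else gau (fun _ => (W * t)⁻¹) (emb k κ) := fun κ => by
        split_ifs with e
        · rw [e, h0, zero_mul, norm_zero]
        · rw [norm_mul, norm_mul, Complex.norm_real, Real.norm_of_nonneg (gau_pos _ _).le]
          exact (mul_le_of_le_one_left (gau_pos _ _).le (mul_le_one₀ (ha κ) (norm_nonneg _)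
            (norm_jq_le _ _ _))).trans (gau_anti (fun φ => (hy φ).1) _)
      have hsm : Summable fun κ : 𝓞 K =>
          if κ = 0 then 0 else gau (fun _ => (W * t)⁻¹) (emb k κ) :=
        (hs0 _ hμ).of_nonneg_of_le (fun κ => (norm_nonneg _).trans (hle κ)) fun κ => by
          split_ifs
          · exact (gau_pos _ _).le
          · exact le_rfl
      have h2 := (tsum_of_norm_bounded hsm.hasSum hle).trans (hz _ hμ)
      rw [Real.rpow_neg hμ.le, Real.inv_rpow (by positivity), _root_.inv_inv,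
        Real.mul_rpow W0.le ht.le, ← mul_assoc] at h2
      refine (pow_le_pow_left₀ (norm_nonneg _) h2 2).trans ?_
      rw [mul_pow, ← Real.rpow_natCast (t ^ r), ← Real.rpow_mul ht.le]
      exact mul_le_mul_of_nonneg_left (Real.rpow_le_rpow_of_exponent_ge ht h1
        (by push_cast; linarith)) (by positivity)
    refine (sum_le_card_nsmul _ _ _ hb).trans ?_
    rw [nsmul_eq_mul]
    refine (mul_le_mul_of_nonneg_right (hcard L Γ hL fun γ hγ => (hΓ γ hγ).1)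
      (by positivity)).trans (le_of_eq (by ring))
  · refine le_trans ?_ (mul_le_mul_of_nonneg_right (le_add_of_nonneg_left
      (b := CG * (CG * W ^ r) ^ 2) (by positivity)) hP)
    have hWt : 1 ≤ W * t := one_le_mul_of_one_le_of_one_le hW h1
    have hμ1 : (W * t)⁻¹ / 2 ≤ 1 := by linarith [inv_le_one_of_one_le₀ hWt]
    have h2 := hS (𝓞 K) (𝓞 K) Γ (emb k) (fun γ κ => jq 𝔠 κ γ) (W * t)⁻¹ _ hμ
      (fun γ κ => norm_jq_le _ _ _) (hs0 _ (half_pos hμ))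
      (fun b hb => hT L _ Γ b hL (half_pos hμ) hμ1 (fun γ hγ => (hΓ γ hγ).1) hb) a y ha
      fun γ hγ φ => ⟨((hΓ γ hγ).2.2 φ).1, ((hΓ γ hγ).2.2 φ).2.trans (le_of_eq (by field_simp))⟩
    refine h2.trans ?_
    rw [mul_assoc, mul_assoc]
    refine mul_le_mul_of_nonneg_left (mul_le_mul_of_nonneg_left ?_ (by positivity)) (by positivity)
    have e : ∀ s : ℝ, ((W * t)⁻¹ / 2) ^ (-s) = (2 * W) ^ s * t ^ s := fun s => by
      rw [Real.rpow_neg (half_pos hμ).le, ← Real.inv_rpow (half_pos hμ).le,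
        ← Real.mul_rpow (by positivity) ht.le]
      congr 1
      field_simp
    have h3 : (2 * W) ^ (3 * r / 2) ≤ (2 * W) ^ (4 * r) :=
      Real.rpow_le_rpow_of_exponent_le (by linarith) (by linarith)
    have h4 : t ^ (4 * r) ≤ t ^ (3 * r / 2) * L := by
      rw [show 4 * r = 3 * r / 2 + 5 * r / 2 by ring, Real.rpow_add ht]
      exact mul_le_mul_of_nonneg_left (h5 h1) (by positivity)
    rw [e, e, Real.rpow_sub_one L0.ne']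
    calc _ ≤ L ^ (2 * r) * ((2 * W) ^ (4 * r) * t ^ (3 * r / 2)) +
          L ^ (2 * r) / L * ((2 * W) ^ (4 * r) * (t ^ (3 * r / 2) * L)) := by gcongr
      _ = _ := by field_simp; ring

/-- balanced generators -/
theorem bal (c : Ctx k K) (hBal2 : X_Bal2 k K) {n : ℕ} (hn : n ≠ 0) : ∃ B : ℝ, 1 ≤ B ∧
    ∀ (I 𝔠 : Ideal (𝓞 K)) (γ : 𝓞 K), I ≠ ⊥ → (n : 𝓞 K) ∈ 𝔠 → I * 𝔠 = sp γ → ∃ γ' : 𝓞 K,
      (8 : 𝓞 K) ∣ γ' - γ ∧ I * 𝔠 = sp γ' ∧ γ' ≠ 0 ∧ ∀ φ,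
        NN I ^ (1 / rk k K) ≤ B * ‖emb k γ' φ‖ ^ 2 ∧ ‖emb k γ' φ‖ ^ 2 ≤ B * NN I ^ (1 / rk k K) := by
  obtain ⟨B, hB, h⟩ := hBal2 8 (by norm_num)
  have n0 : (n : 𝓞 K) ≠ 0 := Nat.cast_ne_zero.2 hn
  have s0 : sp (n : 𝓞 K) ≠ ⊥ := by simpa using n0
  have hM := one_le_NN s0
  have hr := c.one_le_rk
  refine ⟨B * NN (sp (n : 𝓞 K)), one_le_mul_of_one_le_of_one_le hB hM,
    fun I 𝔠 γ hI h𝔠 e => ?_⟩
  have c0 : 𝔠 ≠ ⊥ := fun e => n0 (by simpa [e] using h𝔠)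
  have g0 : γ ≠ 0 := fun e' => mul_ne_zero hI c0 (by simpa [e'] using e)
  obtain ⟨u, hu, hb⟩ := h γ g0
  have hc : NN 𝔠 ≤ NN (sp (n : 𝓞 K)) := Nat.cast_le.2 (Nat.le_of_dvd (by exact_mod_cast NN_pos s0)
    (Ideal.absNorm_dvd_absNorm_of_le ((Ideal.span_singleton_le_iff_mem _).2 h𝔠)))
  have c1 := one_le_NN c0
  have i0 := NN_pos hI
  have hp : 0 ≤ 1 / rk k K := by positivity
  refine ⟨u * γ, ?_, ?_, mul_ne_zero u.ne_zero g0, fun φ => ?_⟩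
  · rw [show u * γ - γ = (u - 1) * γ by ring]
    exact Dvd.dvd.mul_right (by exact_mod_cast hu) _
  · rw [e, sp, sp, Ideal.span_singleton_mul_left_unit u.isUnit]
  obtain ⟨h1, h2⟩ := hb φ
  rw [← e, NN_mul, Real.mul_rpow i0.le (by positivity)] at h1 h2
  have h3 : 1 ≤ NN 𝔠 ^ (1 / rk k K) := Real.one_le_rpow c1 hp
  have h4 : NN 𝔠 ^ (1 / rk k K) ≤ NN (sp (n : 𝓞 K)) :=
    (Real.rpow_le_self_of_one_le c1 ((div_le_one (by linarith)).2 hr)).trans hc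
  constructor
  · calc _ ≤ NN I ^ (1 / rk k K) * NN 𝔠 ^ (1 / rk k K) := le_mul_of_one_le_right (by positivity) h3
      _ ≤ B * 1 * ‖emb k ((u : 𝓞 K) * γ) φ‖ ^ 2 := by rwa [mul_one]
      _ ≤ _ := by gcongr
  · calc _ ≤ B * (NN I ^ (1 / rk k K) * NN (sp (n : 𝓞 K))) := h1.trans (by gcongr)
      _ = _ := by ring

/-- the weights of the dual Gaussian are comparable to a common value -/
theorem wt {n B α β Y x₁ x₂ : ℝ} (hn : 1 ≤ n) (hB : 1 ≤ B) (hα : 0 < α) (hβ : 0 < β) (hY : 0 < Y)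
    (h1 : α ≤ B * x₁) (h2 : x₁ ≤ B * (2 * α)) (h3 : β ≤ B * x₂) (h4 : x₂ ≤ B * β) :
    (2 * n ^ 2 * B ^ 2 * (α * β / Y))⁻¹ ≤ Y / (n ^ 2 * (x₁ * x₂)) ∧
      Y / (n ^ 2 * (x₁ * x₂)) ≤ 2 * n ^ 2 * B ^ 2 / (α * β / Y) := by
  have B0 : 0 < B := by linarith
  have x1 : 0 < x₁ := (mul_pos_iff_of_pos_left B0).1 (hα.trans_le h1)
  have x2 : 0 < x₂ := (mul_pos_iff_of_pos_left B0).1 (hβ.trans_le h3)
  have n2 : 1 ≤ n ^ 2 := one_le_pow₀ hn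
  constructor
  · calc _ = Y / (n ^ 2 * (B * (2 * α) * (B * β))) := by field_simp
      _ ≤ _ := by gcongr
  · calc _ ≤ Y / (1 * (x₁ * x₂)) := by gcongr
      _ = 1 * B ^ 2 / (B * x₁ * (B * x₂) / Y) := by field_simp
      _ ≤ _ := by gcongr; linarith

/-- the size of the dual parameter -/
theorem num {r Y N E N₁ : ℝ} (hr : 1 ≤ r) (hY : 1 ≤ Y) (hN : N ≤ Y ^ (1 / 2 + 1 / (40 * r)))
    (hE : 0 < E) (hEN : E ≤ N) (h1 : 1 ≤ N₁) (h2 : N₁ ≤ N) (hK : 1 ≤ N₁ * E / Y) :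
    (N₁ * E / Y) ^ (5 / 2 : ℝ) ≤ √(N₁ ^ (1 / r)) := by
  have Y0 : 0 < Y := by linarith
  have hs : 1 / (40 * r) ≤ 1 / 40 := by gcongr; linarith
  have h3 : N₁ * E / Y ≤ Y ^ (1 / (20 * r)) := by
    calc _ ≤ Y ^ (1 / 2 + 1 / (40 * r)) * Y ^ (1 / 2 + 1 / (40 * r)) / Y := by
          gcongr
          · exact h2.trans hN
          · exact hEN.trans hN
      _ = _ := by
          rw [← Real.rpow_add Y0, ← Real.rpow_sub_one Y0.ne']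
          congr 1
          field_simp
          ring
  have h4 : Y ^ (1 / 4 : ℝ) ≤ N₁ := by
    have h5 : E ≤ Y ^ (3 / 4 : ℝ) :=
      (hEN.trans hN).trans (Real.rpow_le_rpow_of_exponent_le hY (by linarith))
    have h6 : Y ^ (1 / 4 : ℝ) * Y ^ (3 / 4 : ℝ) ≤ N₁ * Y ^ (3 / 4 : ℝ) := by
      rw [← Real.rpow_add Y0, show (1 / 4 + 3 / 4 : ℝ) = 1 by norm_num, Real.rpow_one]
      exact ((one_le_div Y0).1 hK).trans (by gcongr)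
    exact le_of_mul_le_mul_right h6 (by positivity)
  calc _ ≤ (Y ^ (1 / (20 * r))) ^ (5 / 2 : ℝ) := by gcongr
    _ = √((Y ^ (1 / 4 : ℝ)) ^ (1 / r)) := by
        rw [Real.sqrt_eq_rpow, ← Real.rpow_mul Y0.le, ← Real.rpow_mul Y0.le,
          ← Real.rpow_mul Y0.le]
        congr 1
        field_simp
        ring
    _ ≤ _ := by gcongr

end PMQ

open PMQ in
theorem x_mQ (c : Ctx k K) (hBal2 : X_Bal2 k K) (hGS : X_GS k K) (hSep : X_Sep) (hTM : X_TM k K)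
    (hPCh : X_PCh k K) : X_MQ k K := by
  intro n hn
  obtain ⟨CP, 𝔡, hCP, hP⟩ := hPCh n hn
  obtain ⟨B, hB, hb⟩ := bal c hBal2 hn.pos
  have n1 : (1 : ℝ) ≤ n := Nat.one_le_cast.2 (Nat.pos_of_ne_zero hn.pos)
  have n0 : (n : 𝓞 K) ≠ 0 := Nat.cast_ne_zero.2 hn.pos
  have hW : (1 : ℝ) ≤ 2 * (n : ℝ) ^ 2 * B ^ 2 := one_le_mul_of_one_le_of_one_le
    (by linarith [one_le_pow₀ (n := 2) n1]) (one_le_pow₀ hB)
  choose C hC0 hC using core c hGS hSep hTM hW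
  have hr := c.one_le_rk
  set r := rk k K with er
  set S := (finite_mem_ideal n0).toFinset
  have hS0 : 0 ≤ ∑ 𝔠 ∈ S, C 𝔠 := sum_nonneg fun 𝔠 _ => hC0 𝔠
  refine ⟨1 + CP ^ 2 * ((∑ 𝔠 ∈ S, C 𝔠) * (2 * B) ^ r), le_add_of_nonneg_right (by positivity),
    fun e q₂ 𝒬 Y N N₁ hY hN he hEN h1 h2 h𝒬 => ?_⟩
  rcases 𝒬.eq_empty_or_nonempty with rfl | ⟨q₀, hq₀⟩
  · rw [sum_empty]
    positivity
  have hq₂ : q₂ ≠ ⊥ := right_ne_zero_of_mul (h𝒬 q₀ hq₀).1.ne_zero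
  have e0 := NN_pos he
  have q0 := NN_pos hq₂
  have Y0 : 0 < Y := by linarith
  have N0 : 0 < N₁ := by linarith
  have r0 : r ≠ 0 := by positivity
  obtain ⟨𝔠₂, g, hn₂, hg⟩ := hn.cr (e * q₂) (mul_ne_zero he hq₂)
  obtain ⟨g₂, -, hg₂, g0, hb₂⟩ := hb _ _ _ (mul_ne_zero he hq₂) hn₂ hg
  have hex : ∀ q ∈ 𝒬, ∃ (𝔠 : Ideal (𝓞 K)) (γ : 𝓞 K), (n : 𝓞 K) ∈ 𝔠 ∧ (8 : 𝓞 K) ∣ γ - 1 ∧
      q * 𝔠 = sp γ ∧ γ ≠ 0 ∧ ∀ φ, N₁ ^ (1 / r) ≤ B * ‖emb k γ φ‖ ^ 2 ∧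
        ‖emb k γ φ‖ ^ 2 ≤ B * (2 * N₁ ^ (1 / r)) := fun q hq => by
    obtain ⟨hs, hc, -, -, ha, ha'⟩ := h𝒬 q hq
    obtain ⟨j, hj⟩ : 2 ∣ n := (by norm_num : 2 ∣ 8).trans hn.eight
    obtain ⟨𝔠, γ, h3, h4, h5⟩ := hn.rr q (cop_mul_nat.1 (hj ▸ (cop_mul.1 hc).1)).1
    obtain ⟨γ', h6, h7, h8, h9⟩ := hb _ _ _ (left_ne_zero_of_mul hs.ne_zero) h3 h5
    refine ⟨𝔠, γ', h3, by simpa using h6.add h4, h7, h8, fun φ =>
      ⟨le_trans (by gcongr) (h9 φ).1, (h9 φ).2.trans ?_⟩⟩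
    gcongr
    calc _ ≤ (2 * N₁) ^ (1 / r) := by gcongr
      _ ≤ _ := by
        rw [Real.mul_rpow two_pos.le N0.le]
        gcongr
        exact Real.rpow_le_self_of_one_le one_le_two ((div_le_one (by linarith)).2 hr)
  choose! 𝔠₁ g₁ hn₁ h8 hg₁ g1 hb₁ using hex
  set α := N₁ ^ (1 / r) with eα
  set t := α * NN (e * q₂) ^ (1 / r) / Y ^ (1 / r) with et
  have α1 : 1 ≤ α := Real.one_le_rpow h1 (by positivity)
  have E0 : 0 < NN (e * q₂) := NN_pos (mul_ne_zero he hq₂)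
  have t0 : 0 < t := by positivity
  have ht : ∀ s : ℝ, t ^ (s * r / 2) = (N₁ * NN (e * q₂) / Y) ^ (s / 2) := fun s => by
    rw [et, eα, ← Real.mul_rpow N0.le E0.le, ← Real.div_rpow (by positivity) Y0.le,
      ← Real.rpow_mul (by positivity)]
    congr 1
    field_simp
  have hL : 1 ≤ √(B * (2 * α)) := Real.one_le_sqrt.2 (one_le_mul_of_one_le_of_one_le hB
    (by linarith))
  have h5 : 1 ≤ t → t ^ (5 * r / 2) ≤ √(B * (2 * α)) := fun h => by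
    have h6 := Real.one_le_rpow h (show 0 ≤ 2 * r / 2 by positivity)
    rw [ht, div_self two_ne_zero, Real.rpow_one] at h6
    rw [ht]
    refine (num hr hY hN E0 (by rwa [NN_mul]) h1 h2 h6).trans (Real.sqrt_le_sqrt ?_)
    nlinarith
  have hL2 : √(B * (2 * α)) ^ (2 * r) = (2 * B) ^ r * N₁ := by
    rw [Real.rpow_mul (Real.sqrt_nonneg _), Real.rpow_two, Real.sq_sqrt (by positivity),
      ← mul_assoc, Real.mul_rpow (by positivity) (by positivity), eα, ← Real.rpow_mul N0.le,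
      one_div_mul_cancel r0, Real.rpow_one, mul_comm B]
  set a : Ideal (𝓞 K) → 𝓞 K → ℂ := fun 𝔠 κ => if κ ∈ 𝔠 * 𝔠₂ * 𝔡 then jac κ q₂ else 0 with ea
  set y : 𝓞 K → Emb k K → ℝ := fun γ φ => Y ^ (1 / r) / (n ^ 2 * ‖emb k (γ * g₂) φ‖ ^ 2) with ey
  set θ : Ideal (𝓞 K) → 𝓞 K → ℝ := fun 𝔠 γ =>
    ‖∑' κ, a 𝔠 κ * jq 𝔠 κ γ * (gau (y γ) (emb k κ) : ℝ)‖ ^ 2 with eθ
  have c0 : ∀ 𝔠 : Ideal (𝓞 K), (n : 𝓞 K) ∈ 𝔠 → 𝔠 ≠ ⊥ := fun 𝔠 h e => n0 (by simpa [e] using h)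
  have hj : ∀ q ∈ 𝒬, ∀ κ, a (𝔠₁ q) κ * jq (𝔠₁ q) κ (g₁ q) =
      if κ ∈ 𝔠₁ q * 𝔠₂ * 𝔡 then jac κ (q * q₂) else 0 := fun q hq κ => by
    have hm : g₁ q ∈ 𝔠₁ q := (Ideal.span_singleton_le_iff_mem _).1
      ((hg₁ q hq).ge.trans Ideal.mul_le_right)
    rw [jq, if_pos ⟨hm, h8 q hq⟩, quo_eq (c0 _ (hn₁ q hq)) (hg₁ q hq), jac_mul_right]
    simp only [ea]
    split_ifs
    · exact mul_comm _ _
    · exact zero_mul _
  have hone : ∀ q ∈ 𝒬, ‖SS k e (q * q₂) Y‖ ^ 2 ≤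
      CP ^ 2 * Y ^ 2 / (NN e ^ 2 * (N₁ * NN q₂)) * θ (𝔠₁ q) (g₁ q) := fun q hq => by
    obtain ⟨hs, hc, hi, -, ha, -⟩ := h𝒬 q hq
    have h6 := hP e (q * q₂) (𝔠₁ q * 𝔠₂) (g₁ q * g₂) Y hs hc hi
      (by rw [Nat.cast_pow, sq]; exact Ideal.mul_mem_mul (hn₁ q hq) hn₂)
      (by rw [sp_mul, ← hg₁ q hq, ← hg₂]; ring) (mul_ne_zero (g1 q hq) g0) Y0
    refine (pow_le_pow_left₀ (norm_nonneg _) h6 2).trans ?_
    simp only [eθ, hj q hq, ey]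
    rw [mul_pow, div_pow, mul_pow, mul_pow, Real.sq_sqrt (by positivity), NN_mul]
    gcongr
  have hgrp : ∀ 𝔠 ∈ S, ∑ q ∈ 𝒬 with 𝔠₁ q = 𝔠, θ (𝔠₁ q) (g₁ q) ≤
      C 𝔠 * ((2 * B) ^ r * N₁ * (N₁ * NN (e * q₂) / Y) ^ (3 / 2 : ℝ)) := fun 𝔠 h𝔠 => by
    have h0 := c0 𝔠 ((finite_mem_ideal n0).mem_toFinset.1 h𝔠)
    rw [sum_congr rfl fun q hq => by rw [(mem_filter.1 hq).2], ← sum_image (f := θ 𝔠) (g := g₁)
      fun q hq q' hq' e => by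
        obtain ⟨h6, h7⟩ := mem_filter.1 (mem_coe.1 hq)
        obtain ⟨h6', h7'⟩ := mem_filter.1 (mem_coe.1 hq')
        exact mul_right_cancel₀ h0 (by rw [← h7, hg₁ q h6, h7, ← h7', hg₁ q' h6', e]),
      ← hL2, ← ht]
    refine hC 𝔠 h0 _ (a 𝔠) y _ t hL t0 h5 (fun κ => ?_) fun γ hγ => ?_
    · simp only [ea]
      split_ifs
      · exact norm_jac_le _ _
      · simp
    obtain ⟨q, hq', rfl⟩ := mem_image.1 hγ
    obtain ⟨hq, rfl⟩ := mem_filter.1 hq'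
    refine ⟨(pi_norm_le_iff_of_nonneg (Real.sqrt_nonneg _)).2 fun φ =>
      Real.le_sqrt_of_sq_le (hb₁ q hq φ).2, ?_, fun φ => ?_⟩
    · rw [hj q hq, if_pos (zero_mem _)]
      by_contra h
      rw [← Ne, jac_ne_zero_iff (h𝒬 q hq).1.ne_zero, Ideal.isCoprime_iff_sup_eq] at h
      exact (h𝒬 q hq).2.2.2.1 (by simpa using h)
    · have h6 : ‖emb k (g₁ q * g₂) φ‖ ^ 2 = ‖emb k (g₁ q) φ‖ ^ 2 * ‖emb k g₂ φ‖ ^ 2 := by
        simp [emb, mul_pow]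
      simp only [ey, h6]
      exact PMQ.wt n1 hB (by positivity) (by positivity) (by positivity) (hb₁ q hq φ).1 (hb₁ q hq φ).2
        (hb₂ φ).1 (hb₂ φ).2
  refine (sum_le_sum hone).trans ?_
  rw [← mul_sum, ← sum_fiberwise_of_maps_to (t := S) (g := 𝔠₁) fun q hq =>
    (finite_mem_ideal n0).mem_toFinset.2 (hn₁ q hq)]
  refine (mul_le_mul_of_nonneg_left (sum_le_sum hgrp) (by positivity)).trans ?_
  rw [← sum_mul, NN_mul, show N₁ * (NN e * NN q₂) = NN e * N₁ * NN q₂ by ring]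
  calc _ = (0 + CP ^ 2 * ((∑ 𝔠 ∈ S, C 𝔠) * (2 * B) ^ r)) * Y ^ 2 / (NN e ^ 2 * NN q₂) *
        (NN e * N₁ * NN q₂ / Y) ^ (3 / 2 : ℝ) := by field_simp; ring
    _ ≤ _ := by gcongr; exact zero_le_one

end Pool.Agent.P.MP_b8021b_nt.BS
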