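import Pool.Agent.P.MP_b8021b_nt.BS.BasicD

/-! Analytic continuation of the twisted series through the Mellin transform. -/

namespace Pool.Agent.P.MP_b8021b_nt.BS

open NumberField IsDedekindDomain Finset MeasureTheory
open Pool.Agent.P.MP_b8021b_nt.VE Pool.Agent.P.MP_b8021b_nt.VC Pool.Agent.P.MP_b8021b_nt.BS.CF
open scoped Classical ComplexConjugate Real

variable {k : Type} [Field k] [NumberField k] [Algebra k ℂ] {K : Type} [Field K] [NumberField K]
  [Algebra k K]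

namespace PMel

open Filter Topology Asymptotics

theorem cnt_ideal : Countable (Ideal (𝓞 K)) := by
  have : (Set.univ : Set (Ideal (𝓞 K))) = ⋃ n : ℕ, {I | Ideal.absNorm I = n} := by ext; simp
  rw [← Set.countable_univ_iff, this]
  exact Set.countable_iUnion fun n => (Ideal.finite_setOfPred_absNorm_eq n).countable

theorem ls_eq {C : Ideal (𝓞 K) → ℂ} {w a : ℂ} (h0 : C ⊥ = 0)
    (h : HasSum (fun I => C I * (Ideal.absNorm I : ℂ) ^ (-w)) a) : LSeries (lam C) w = a := by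
  have l0 : lam C 0 = 0 := by
    have : {I : Ideal (𝓞 K) | Ideal.absNorm I = 0} = {⊥} := by
      ext I; simp [Ideal.absNorm_eq_zero_iff]
    rw [lam, this, finsum_mem_singleton, h0]
  rw [← (h.tsum_fiberwise fun I => Ideal.absNorm I).tsum_eq, LSeries]
  refine tsum_congr fun n => ?_
  have hf := Ideal.finite_setOfPred_absNorm_eq (S := 𝓞 K) n
  have e : (fun I : Ideal (𝓞 K) => Ideal.absNorm I) ⁻¹' {n} = (hf.toFinset : Set _) := by
    ext I; simp
  rw [LSeries.term_def₀ l0, lam, finsum_mem_eq_finite_toFinset_sum _ hf, e,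
    Finset.tsum_subtype' hf.toFinset fun I => C I * (Ideal.absNorm I : ℂ) ^ (-w), sum_mul]
  refine sum_congr rfl fun I hI => ?_
  rw [(hf.mem_toFinset.1 hI : Ideal.absNorm I = n)]

theorem mel_Th (hCnt : X_Cnt K) {f : ℝ → ℝ} {C : Ideal (𝓞 K) → ℂ} {A : ℝ} {s : ℂ}
    (hC : ∀ I, ‖C I‖ ≤ A) (h0 : C ⊥ = 0) (hs : 3 / 2 < s.re)
    (hm : MellinConvergent (fun x => (f x : ℂ)) s) :
    mellin (Th f C) (s - 1) = LSeries (lam C) (s - 1 / 2) * mellin (fun x => (f x : ℂ)) s := by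
  have : Countable (Ideal (𝓞 K)) := cnt_ideal
  set φ : ℝ → ℂ := fun x => (x : ℂ) ^ (s - 1) • (f x : ℂ) with hφ
  set G : Ideal (𝓞 K) → ℝ → ℂ :=
    fun I τ => C I * (Ideal.absNorm I : ℂ) ^ (3 / 2 - s) * φ (NN I * τ) with hG
  have hsum := ((hCnt.2 (s.re - 1 / 2) (by linarith)).1)
  have nn : ∀ I : Ideal (𝓞 K), I ≠ ⊥ → ∀ w : ℂ, ‖(Ideal.absNorm I : ℂ) ^ w‖ = NN I ^ w.re :=
    fun I hI w => by
      rw [← Complex.norm_cpow_eq_rpow_re_of_pos (NN_pos hI), Complex.ofReal_natCast]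
  have hint : ∀ I, IntegrableOn (G I) (Set.Ioi 0) := fun I => by
    by_cases hI : I = ⊥
    · simp [hG, hI, h0]
    · refine Integrable.const_mul ?_ _
      exact (integrableOn_Ioi_comp_mul_left_iff φ 0 (NN_pos hI)).2 (by rw [mul_zero]; exact hm)
  have hval : ∀ I, ∫ τ in Set.Ioi 0, G I τ = C I * (Ideal.absNorm I : ℂ) ^ (-(s - 1 / 2)) *
      mellin (fun x => (f x : ℂ)) s := fun I => by
    by_cases hI : I = ⊥
    · simp [hG, hI, h0]
    · have hN : (Ideal.absNorm I : ℂ) ≠ 0 := by exact_mod_cast (NN_pos hI).ne'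
      rw [hG, integral_const_mul, integral_comp_mul_left_Ioi φ 0 (NN_pos hI), mul_zero,
        show -(s - 1 / 2) = (3 / 2 - s) - 1 by ring, Complex.cpow_sub _ 1 hN, Complex.cpow_one,
        Complex.real_smul, Complex.ofReal_inv, Complex.ofReal_natCast, mellin]
      ring
  have hnorm : Summable fun I => ∫ τ in Set.Ioi 0, ‖G I τ‖ := by
    refine Summable.of_nonneg_of_le (fun I => integral_nonneg fun _ => norm_nonneg _) (fun I => ?_)
      ((hsum.mul_left A).mul_right (∫ τ in Set.Ioi 0, ‖φ τ‖))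
    have hM : 0 ≤ ∫ τ in Set.Ioi 0, ‖φ τ‖ := integral_nonneg fun _ => norm_nonneg _
    have hA : 0 ≤ A := (norm_nonneg _).trans (hC ⊥)
    by_cases hI : I = ⊥
    · have : 0 ≤ NN I ^ (-(s.re - 1 / 2)) := Real.rpow_nonneg (Nat.cast_nonneg _) _
      simp only [hG, hI, h0, zero_mul, norm_zero, integral_zero]
      rw [← hI]; positivity
    · have hp := NN_pos hI
      simp only [hG, norm_mul]
      rw [integral_const_mul, integral_comp_mul_left_Ioi (fun x => ‖φ x‖) 0 hp, mul_zero, nn I hI,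
        smul_eq_mul, ← mul_assoc, show -(s.re - 1 / 2) = (3 / 2 - s).re - 1 by simp; ring,
        Real.rpow_sub_one hp.ne', div_eq_mul_inv _ (NN I), mul_assoc ‖C I‖]
      gcongr
      exact hC I
  have h1 := hasSum_integral_of_summable_integral_norm hint hnorm
  have h2 : ∫ τ in Set.Ioi 0, ∑' I, G I τ = mellin (Th f C) (s - 1) := by
    refine setIntegral_congr_fun measurableSet_Ioi fun τ hτ => ?_
    have hτ' : (τ : ℂ) ≠ 0 := by exact_mod_cast (ne_of_gt hτ)
    simp only [Th, smul_eq_mul, ← tsum_mul_left]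
    refine tsum_congr fun I => ?_
    by_cases hI : I = ⊥
    · simp [hG, hI, h0]
    · have hN : (Ideal.absNorm I : ℂ) ≠ 0 := by exact_mod_cast (NN_pos hI).ne'
      have e1 : ((√(NN I) : ℝ) : ℂ) =
          (Ideal.absNorm I : ℂ) ^ (3 / 2 - s) * (Ideal.absNorm I : ℂ) ^ (s - 1) := by
        rw [← Complex.cpow_add _ _ hN, Real.sqrt_eq_rpow,
          Complex.ofReal_cpow (Nat.cast_nonneg _), Complex.ofReal_natCast]
        congr 1
        push_cast
        ring
      simp only [hG, hφ, smul_eq_mul]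
      rw [Complex.ofReal_mul, Complex.mul_cpow_ofReal_nonneg (Nat.cast_nonneg _) (le_of_lt hτ),
        Complex.ofReal_mul, Complex.ofReal_mul, e1, Complex.cpow_sub (s - 1) 1 hτ',
        Complex.cpow_one, Complex.ofReal_natCast, mul_comm τ (NN I)]
      field_simp
  have h3 : Summable fun I => C I * (Ideal.absNorm I : ℂ) ^ (-(s - 1 / 2)) := by
    refine Summable.of_norm_bounded (hsum.mul_left A) fun I => ?_
    have hA : 0 ≤ A := (norm_nonneg _).trans (hC ⊥)
    by_cases hI : I = ⊥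
    · have : 0 ≤ NN I ^ (-(s.re - 1 / 2)) := Real.rpow_nonneg (Nat.cast_nonneg _) _
      simp only [hI, h0, zero_mul, norm_zero]
      rw [← hI]; positivity
    · have hp := NN_pos hI
      rw [norm_mul, nn I hI, show (-(s - 1 / 2)).re = -(s.re - 1 / 2) by simp]
      gcongr
      exact hC I
  rw [ls_eq h0 h3.hasSum, ← h2]
  simp only [hval] at h1
  exact h1.unique (h3.hasSum.mul_right _)

theorem locInt (hThB : X_ThB K) {f : ℝ → ℝ} (hf : Ker f) {C : Ideal (𝓞 K) → ℂ} {A : ℝ}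
    (hC : ∀ I, ‖C I‖ ≤ A) : LocallyIntegrableOn (Th f C) (Set.Ioi 0) := by
  obtain ⟨hm, -, hb, -⟩ := (hThB f hf).2.2 C A hC
  obtain ⟨C', hC'⟩ := hb 1 le_rfl
  intro x hx
  have hx : 0 < x := hx
  have sub : Set.Ioo (x / 2) (2 * x) ⊆ Set.Ioi 0 := fun y hy => (half_pos hx).trans hy.1
  refine ⟨Set.Ioo (x / 2) (2 * x),
    mem_nhdsWithin_of_mem_nhds (Ioo_mem_nhds (by linarith) (by linarith)), ?_⟩
  refine Integrable.mono' (integrable_const (|C'| * (x / 2)⁻¹)) (hm.mono_set sub) ?_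
  refine (ae_restrict_iff' measurableSet_Ioo).2 (ae_of_all _ fun y hy => (hC' y (sub hy)).trans ?_)
  have hy0 : 0 < y := sub hy
  rw [Real.rpow_neg_one]
  gcongr
  · exact le_abs_self _
  · exact hy.1.le

theorem top (hThB : X_ThB K) {f : ℝ → ℝ} (hf : Ker f) {C : Ideal (𝓞 K) → ℂ} {A a : ℝ}
    (hC : ∀ I, ‖C I‖ ≤ A) (ha : 1 ≤ a) : Th f C =O[atTop] (· ^ (-a)) := by
  obtain ⟨C', hC'⟩ := ((hThB f hf).2.2 C A hC).2.2.1 a ha
  refine IsBigO.of_bound C' ((eventually_gt_atTop 0).mono fun τ hτ => ?_)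
  rw [Real.norm_of_nonneg (Real.rpow_nonneg hτ.le _)]
  exact hC' τ hτ

theorem bot (hThB : X_ThB K) {f : ℝ → ℝ} (hf : Ker f) {C : Ideal (𝓞 K) → ℂ} {A a b N : ℝ}
    (hC : ∀ I, ‖C I‖ ≤ A) (ha : 1 ≤ a) (hb : 0 < b) (hN : 0 < N) :
    (fun τ => Th f C (b / (τ * N))) =O[𝓝[>] 0] (· ^ (- -a)) := by
  obtain ⟨C', hC'⟩ := ((hThB f hf).2.2 C A hC).2.2.1 a ha
  refine IsBigO.of_bound (C' * (b / N) ^ (-a)) (eventually_mem_nhdsWithin.mono fun τ hτ => ?_)
  have hτ : 0 < τ := hτ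
  refine (hC' _ (by positivity)).trans_eq ?_
  rw [Real.norm_of_nonneg (Real.rpow_nonneg hτ.le _), show b / (τ * N) = b / N * τ⁻¹ by field_simp,
    Real.mul_rpow (by positivity) (by positivity), Real.inv_rpow hτ.le, ← Real.rpow_neg hτ.le,
    mul_assoc]

theorem tw_le {C : Ideal (𝓞 K) → ℂ} {A : ℝ} (hC : ∀ I, ‖C I‖ ≤ A) (t : 𝓞 K) (I : Ideal (𝓞 K)) :
    ‖C I * jac t I‖ ≤ A := by
  rw [norm_mul]
  exact (mul_le_of_le_one_right (norm_nonneg _) (norm_jac_le t I)).trans (hC I)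

end PMel

open PMel Filter Topology Asymptotics in
theorem x_mel (c : Ctx k K) (hCnt : X_Cnt K) (hThB : X_ThB K) : X_Mel k K := by
  rintro n r Ψ f t hf ⟨c₀, hc₀, hM⟩ ⟨m, C, γ, b, A, η, -, -, hΨ, hC, hE⟩ ht
  have hN : 0 < NN (sp t) := NN_pos (by simpa [sp] using ht.ne_zero)
  have hd : Differentiable ℂ (mellin (Tw f Ψ t)) := fun s => by
    have h1 : 1 ≤ |s.re| + 1 := by linarith [abs_nonneg s.re]
    refine mellin_differentiableAt_of_isBigO_rpow (a := |s.re| + 1) (b := -(|s.re| + 1))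
      (locInt hThB hf (tw_le hΨ.bd t)) (top hThB hf (tw_le hΨ.bd t) h1)
      (by linarith [le_abs_self s.re]) ?_ (by linarith [neg_abs_le s.re])
    refine IsBigO.congr' (f₁ := fun τ => eps k t * ∑ i, γ i * Tw f (C i) t (b i / (τ * NN (sp t))))
      ?_ (eventually_mem_nhdsWithin.mono fun τ hτ => (hE t ht τ hτ).symm) EventuallyEq.rfl
    exact (IsBigO.fun_sum fun i _ =>
      (bot hThB hf (tw_le (hC i).2.bd t) h1 (hC i).1 hN).const_mul_left _).const_mul_left _
  have hπ : (2 * π : ℂ) ≠ 0 := by exact_mod_cast Real.two_pi_pos.ne'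
  have hc : (c₀ : ℂ) ≠ 0 := by exact_mod_cast hc₀.ne'
  refine ⟨fun s => mellin (Tw f Ψ t) (s - 1) * (((2 * π : ℂ) ^ s * (Complex.Gamma s)⁻¹) ^ r / c₀),
    ?_, fun s hs => ?_, fun h => ?_⟩
  · refine (hd.comp (differentiable_id.sub_const 1)).mul (Differentiable.div_const ?_ _)
    exact ((differentiable_id.const_cpow (Or.inl hπ)).mul
      Complex.differentiable_one_div_Gamma).pow r
  · have h0 : 0 < s.re := by linarith
    have hG := Complex.Gamma_ne_zero_of_re_pos h0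
    have hp : (2 * π : ℂ) ^ s ≠ 0 := by simp [hπ]
    have e := mel_Th hCnt (tw_le hΨ.bd t) (by rw [jac_bot, mul_zero]) hs (hM s h0).1
    rw [(hM s h0).2] at e
    show mellin (Th f fun I => Ψ I * jac t I) (s - 1) * _ = _
    rw [e, Complex.cpow_neg, mul_assoc, mul_div_assoc', mul_assoc (c₀ : ℂ), ← mul_pow,
      show ((2 * π : ℂ) ^ s)⁻¹ * Complex.Gamma s * ((2 * π : ℂ) ^ s * (Complex.Gamma s)⁻¹) = 1 by
        field_simp, one_pow, mul_one, div_self hc, mul_one]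
  · refine mul_ne_zero ?_ (div_ne_zero (pow_ne_zero _ (by simp)) hc)
    convert h using 1
    refine setIntegral_congr_fun measurableSet_Ioi fun τ _ => ?_
    simp [Complex.cpow_neg_one, div_eq_inv_mul]

end Pool.Agent.P.MP_b8021b_nt.BS
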