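import Pool.Agent.P.MP_b8021b_nt.BS.BasicD
import Pool.Agent.P.MP_b8021b_nt.BS.CF.PNVc

/-! The L-series of a character of nonzero angular type stays away from zero near one. -/

namespace Pool.Agent.P.MP_b8021b_nt.BS

open NumberField IsDedekindDomain Finset MeasureTheory
open Pool.Agent.P.MP_b8021b_nt.VE Pool.Agent.P.MP_b8021b_nt.VC Pool.Agent.P.MP_b8021b_nt.BS.CF
open scoped Classical ComplexConjugate Real
variable {k : Type} [Field k] [NumberField k] [Algebra k ℂ] {K : Type} [Field K] [NumberField K] [Algebra k K]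

open NVcP in
theorem x_nVH (c : Ctx k K) : X_NVH k K := by
  intro n κ χ hn hχ hκ
  obtain ⟨B, -⟩ := c.bf
  have ep := c.lib.i.ep
  have b1 := DS.norm_le_one hχ.toIsChar
  have h2 : IsH k n (κ + κ) 0 (χ * χ) := by
    simpa using ((c.lib.bcn.2 k B K n κ 0 χ hn hχ).2.2.2.1 n κ 0 χ (by omega) hχ).2 rfl
  obtain ⟨Q, Q2, hQ⟩ := c.small
  obtain ⟨N, hN⟩ := c.lib.pss k B (Module.finrank k K)
  have r1 := c.one_le_rk
  have r4 : 1 / (4 * rk k K) ≤ 1 := by
    rw [div_le_one (by linarith)]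
    linarith
  obtain ⟨z, C, C0, hC⟩ := lip (a := lam χ) (θ := 1 - 1 / (4 * rk k K)) (by linarith)
    (by linarith [show 0 < 1 / (4 * rk k K) by positivity]) fun X =>
      (hN K rfl Q n Q2 hQ hn).2.2.2 X (1 + ∑ φ, |(κ φ : ℝ)|) κ 0 χ
        (le_add_of_nonneg_right (by positivity))
        (fun φ => (single_le_sum (f := fun φ => |(κ φ : ℝ)|) (fun _ _ => abs_nonneg _)
          (mem_univ φ)).trans (le_add_of_nonneg_left zero_le_one))
        (fun φ => by simp only [Pi.zero_apply, abs_zero]; positivity) hχ (c.not_triv hn hχ hκ)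
  replace hC := fun (s : ℝ) (s1 : 1 < s) => hC s s1 (ep K χ s b1 s1).1
  obtain ⟨C1, c1⟩ := Den.cmp ep χ b1
  rcases eq_or_ne z 0 with rfl | hz
  · exfalso
    have u1 : DS.Up (fun q => (lam χ q).re) (-1) := by
      refine ⟨DS.re_bdd c.lib.i.hl hχ.toIsChar, C1 + Real.log C, fun s s1 _ => ?_⟩
      obtain ⟨c2, c3⟩ := c1 s s1
      have c4 := Real.log_le_log (norm_pos_iff.2 c2) (by simpa using hC s s1)
      rw [Real.log_mul C0.ne' (sub_pos.2 s1).ne'] at c4
      rw [one_div, Real.log_inv]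
      change dsum (lam χ) s ≤ _
      linarith [(abs_le.1 c3).2]
    have u0 : DS.Up (fun q => (lam (χ * χ : Ideal (𝓞 K) →* ℂ) q).re) 0 := by
      obtain ⟨C3, c3⟩ := (c.lib.den k B K n hn).2 _ _ _ h2 (c.not_triv hn h2 fun e =>
        hκ (funext fun φ => by have := congrFun e φ; simp at this; simpa using this))
      exact ⟨DS.re_bdd c.lib.i.hl h2.toIsChar, C3, fun s s1 s2 => by
        rw [zero_mul, zero_add]; exact c3 s s1 s2⟩
    have u2 := (((c.lib.i.up1 K c.om n hn).1.mul (c := 3) (by norm_num)).add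
      (u1.mul (c := 4) (by norm_num))).add u0
    have u3 := u2.nonneg one_ne_zero fun q _ _ => by
      simp only [DS.lam_eq, Complex.re_sum, mul_sum, ← sum_add_distrib]
      refine sum_nonneg fun J _ => ?_
      by_cases e : Cop n J
      · simpa [DS.triv_apply, e, sq] using pos341 (hχ.norm_cop J e)
      · simp [DS.triv_apply, e, hχ.zero J e]
    norm_num at u3
  · have z0 : 0 < ‖z‖ := norm_pos_iff.2 hz
    have u1 : 1 < 1 + ‖z‖ / (2 * C) := lt_add_of_pos_right _ (by positivity)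
    obtain ⟨C2, c2⟩ := Den.far ep b1 u1
    refine ⟨min (‖z‖ / 2) (Real.exp (-(C1 + C2))), by positivity, fun s s1 _ => ?_⟩
    rcases le_total s (1 + ‖z‖ / (2 * C)) with hs | hs
    · have c3 : C * (s - 1) ≤ ‖z‖ / 2 := by
        calc C * (s - 1) ≤ C * (‖z‖ / (2 * C)) := mul_le_mul_of_nonneg_left (by linarith) C0.le
          _ = _ := by field_simp
      have := norm_sub_norm_le z (LSeries (lam χ) s)
      rw [norm_sub_rev] at this
      exact (min_le_left _ _).trans (by linarith [hC s s1])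
    · refine (min_le_right _ _).trans ?_
      rw [← Real.le_log_iff_exp_le (norm_pos_iff.2 (c1 s s1).1)]
      linarith [(abs_le.1 (c1 s s1).2).2, (abs_le.1 (c2 s hs)).1]

end Pool.Agent.P.MP_b8021b_nt.BS
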