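import Pool.Agent.P.MP_b8021b_nt.BS.BasicD

/-! Separation of variables in a Gaussian weight. -/

namespace Pool.Agent.P.MP_b8021b_nt.BS

open NumberField IsDedekindDomain Finset MeasureTheory
open Pool.Agent.P.MP_b8021b_nt.VE Pool.Agent.P.MP_b8021b_nt.VC Pool.Agent.P.MP_b8021b_nt.BS.CF
open scoped Classical ComplexConjugate Real

namespace PSep

open Filter Topology

/-- the large sieve type bound for all coefficients below the weight `w` -/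
def Hyp {X G : Type} (Γ : Finset G) (w : X → ℝ) (H : G → X → ℂ) (Δ : ℝ) : Prop :=
  ∀ a : X → ℂ, (∀ x, ‖a x‖ ≤ w x) → ∑ γ ∈ Γ, ‖∑' x, a x * H γ x‖ ^ 2 ≤ Δ

/-- the Poisson weights -/
noncomputable def po (b : ℝ) (j : ℕ) : ℝ := Real.exp (-b) * (b ^ j / (j.factorial : ℝ))

lemma po_nonneg {b : ℝ} (hb : 0 ≤ b) (j : ℕ) : 0 ≤ po b j := by
  unfold po; positivity

lemma po_hasSum (b ρ : ℝ) :
    HasSum (fun j => ρ ^ j * po b j) (Real.exp (-((1 - ρ) * b))) := by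
  have h := (NormedSpace.expSeries_div_hasSum_exp (ρ * b)).mul_left (Real.exp (-b))
  rw [← Real.exp_eq_exp_ℝ, ← Real.exp_add] at h
  have e : -b + ρ * b = -((1 - ρ) * b) := by ring
  rw [e] at h
  have e2 : (fun j : ℕ => ρ ^ j * po b j) =
      fun j : ℕ => Real.exp (-b) * ((ρ * b) ^ j / (j.factorial : ℝ)) :=
    funext fun j => by simp only [po, mul_pow]; ring
  rw [e2]
  exact h

lemma po_le_one {b : ℝ} (hb : 0 ≤ b) (j : ℕ) : po b j ≤ 1 := by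
  have h := le_hasSum (po_hasSum b 1) j fun i _ => by
    simpa using po_nonneg hb i
  simpa using h

lemma part_le {b ρ : ℝ} (hb : 0 ≤ b) (h0 : 0 ≤ ρ) (h1 : ρ ≤ 1) (N : ℕ) :
    ∑ j ∈ range N, ρ ^ j * po b j ≤ 1 := by
  refine (sum_le_hasSum _ (fun i _ => mul_nonneg (pow_nonneg h0 _) (po_nonneg hb i))
    (po_hasSum b ρ)).trans ?_
  exact Real.exp_le_one_iff.2 (by nlinarith [mul_nonneg (sub_nonneg.2 h1) hb])

lemma geo_le {r : ℝ} (h0 : 0 ≤ r) (h1 : r < 1) (N : ℕ) :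
    ∑ j ∈ range N, r ^ j ≤ (1 - r)⁻¹ :=
  sum_le_hasSum _ (fun _ _ => pow_nonneg h0 _) (hasSum_geometric_of_lt_one h0 h1)

lemma cs {r ρ : ℝ} (h1 : r < 1) (h0 : 0 ≤ ρ) (hρ : ρ ≤ r) (T : ℕ → ℂ) (N : ℕ) :
    ‖∑ j ∈ range N, ((ρ ^ j : ℝ) : ℂ) * T j‖ ^ 2 ≤
      (1 - r)⁻¹ * ∑ j ∈ range N, r ^ j * ‖T j‖ ^ 2 := by
  have hr : 0 ≤ r := h0.trans hρ
  have a1 : ‖∑ j ∈ range N, ((ρ ^ j : ℝ) : ℂ) * T j‖ ≤ ∑ j ∈ range N, r ^ j * ‖T j‖ := by
    refine (norm_sum_le _ _).trans (sum_le_sum fun j _ => ?_)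
    rw [norm_mul, Complex.norm_real, Real.norm_of_nonneg (pow_nonneg h0 _)]
    exact mul_le_mul_of_nonneg_right (pow_le_pow_left₀ h0 hρ _) (norm_nonneg _)
  have a2 : (∑ j ∈ range N, r ^ j * ‖T j‖) ^ 2 ≤
      (∑ j ∈ range N, r ^ j) * ∑ j ∈ range N, r ^ j * ‖T j‖ ^ 2 :=
    sum_sq_le_sum_mul_sum_of_sq_le_mul _ (fun j _ => pow_nonneg hr _)
      (fun j _ => by positivity) (fun j _ => le_of_eq (by ring))
  refine (pow_le_pow_left₀ (norm_nonneg _) a1 2).trans (a2.trans ?_)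
  exact mul_le_mul_of_nonneg_right (geo_le hr h1 N) (sum_nonneg fun j _ => by positivity)

lemma step {X G : Type} (Γ : Finset G) (w : X → ℝ) (H : G → X → ℂ) (Δ r : ℝ) (hw : Summable w)
    (hH : ∀ γ ∈ Γ, ∀ x, ‖H γ x‖ ≤ 1) (h : Hyp Γ w H Δ) (hr0 : 0 ≤ r) (hr : r < 1) (ρ : G → ℝ)
    (hρ : ∀ γ ∈ Γ, 0 ≤ ρ γ ∧ ρ γ ≤ r) (b : X → ℝ) (hb : ∀ x, 0 ≤ b x) :
    Hyp Γ w (fun γ x => H γ x * (Real.exp (-((1 - ρ γ) * b x)) : ℝ)) (((1 - r)⁻¹) ^ 2 * Δ) := by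
  intro a ha
  have hw0 : ∀ x, 0 ≤ w x := fun x => (norm_nonneg _).trans (ha x)
  have hi : 0 ≤ (1 - r)⁻¹ := inv_nonneg.2 (by linarith)
  have haj : ∀ j x, ‖a x * (po (b x) j : ℝ)‖ ≤ w x := fun j x => by
    rw [norm_mul, Complex.norm_real, Real.norm_of_nonneg (po_nonneg (hb x) j)]
    exact (mul_le_of_le_one_right (norm_nonneg _) (po_le_one (hb x) j)).trans (ha x)
  have hΔ : 0 ≤ Δ := (sum_nonneg fun _ _ => by positivity).trans (h a ha)
  set T : G → ℕ → ℂ := fun γ j => ∑' x, a x * (po (b x) j : ℝ) * H γ x with hT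
  have hs : ∀ γ ∈ Γ, ∀ j, Summable fun x => a x * (po (b x) j : ℝ) * H γ x := fun γ hγ j =>
    Summable.of_norm_bounded hw fun x => by
      rw [norm_mul]
      exact (mul_le_of_le_one_right (norm_nonneg _) (hH γ hγ x)).trans (haj j x)
  have fin : ∀ N, ∑ γ ∈ Γ, ‖∑ j ∈ range N, ((ρ γ ^ j : ℝ) : ℂ) * T γ j‖ ^ 2 ≤
      ((1 - r)⁻¹) ^ 2 * Δ := fun N => by
    refine (sum_le_sum fun γ hγ => cs hr (hρ γ hγ).1 (hρ γ hγ).2 (T γ) N).trans ?_
    rw [← mul_sum, sum_comm, sq, mul_assoc]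
    refine mul_le_mul_of_nonneg_left ?_ hi
    calc ∑ j ∈ range N, ∑ γ ∈ Γ, r ^ j * ‖T γ j‖ ^ 2 ≤ ∑ j ∈ range N, r ^ j * Δ := by
          refine sum_le_sum fun j _ => ?_
          rw [← mul_sum]
          exact mul_le_mul_of_nonneg_left (h _ (haj j)) (pow_nonneg hr0 _)
      _ ≤ (1 - r)⁻¹ * Δ := by
          rw [← sum_mul]
          exact mul_le_mul_of_nonneg_right (geo_le hr0 hr N) hΔ
  have lim : ∀ γ ∈ Γ, Tendsto (fun N => ∑ j ∈ range N, ((ρ γ ^ j : ℝ) : ℂ) * T γ j) atTop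
      (𝓝 (∑' x, a x * (H γ x * (Real.exp (-((1 - ρ γ) * b x)) : ℝ)))) := fun γ hγ => by
    have e : ∀ N, ∑ j ∈ range N, ((ρ γ ^ j : ℝ) : ℂ) * T γ j =
        ∑' x, a x * (H γ x * ((∑ j ∈ range N, ρ γ ^ j * po (b x) j : ℝ) : ℂ)) := fun N => by
      simp only [hT, ← tsum_mul_left]
      rw [← Summable.tsum_finsetSum fun j _ => (hs γ hγ j).mul_left _]
      refine tsum_congr fun x => ?_
      rw [Complex.ofReal_sum, mul_sum, mul_sum]
      exact sum_congr rfl fun j _ => by push_cast; ring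
    simp only [e]
    refine tendsto_tsum_of_dominated_convergence hw (fun x => ?_) (Eventually.of_forall fun N x => ?_)
    · exact (((Complex.continuous_ofReal.tendsto _).comp
        (po_hasSum (b x) (ρ γ)).tendsto_sum_nat).const_mul _).const_mul _
    · have p0 : 0 ≤ ∑ j ∈ range N, ρ γ ^ j * po (b x) j :=
        sum_nonneg fun j _ => mul_nonneg (pow_nonneg (hρ γ hγ).1 _) (po_nonneg (hb x) j)
      rw [norm_mul, norm_mul, Complex.norm_real, Real.norm_of_nonneg p0]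
      refine (mul_le_of_le_one_right (norm_nonneg _) ?_).trans (ha x)
      exact mul_le_one₀ (hH γ hγ x) p0 (part_le (hb x) (hρ γ hγ).1 ((hρ γ hγ).2.trans hr.le) N)
  exact le_of_tendsto' (tendsto_finsetSum Γ fun γ hγ => (lim γ hγ).norm.pow 2) fin

lemma many {X G ι : Type} (Γ : Finset G) (w : X → ℝ) (H : G → X → ℂ) (Δ r : ℝ) (hw : Summable w)
    (hH : ∀ γ ∈ Γ, ∀ x, ‖H γ x‖ ≤ 1) (h : Hyp Γ w H Δ) (hr0 : 0 ≤ r) (hr : r < 1)
    (ρ : G → ι → ℝ) (hρ : ∀ γ ∈ Γ, ∀ φ, 0 ≤ ρ γ φ ∧ ρ γ φ ≤ r) (b : X → ι → ℝ)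
    (hb : ∀ x φ, 0 ≤ b x φ) (S : Finset ι) :
    Hyp Γ w (fun γ x => H γ x * (Real.exp (-∑ φ ∈ S, (1 - ρ γ φ) * b x φ) : ℝ))
      ((((1 - r)⁻¹) ^ 2) ^ S.card * Δ) := by
  induction S using Finset.induction_on with
  | empty => simpa using h
  | insert φ S hφ ih =>
    have s := step Γ w _ _ r hw (fun γ hγ x => by
      rw [norm_mul, Complex.norm_real, Real.norm_of_nonneg (Real.exp_pos _).le]
      refine mul_le_one₀ (hH γ hγ x) (Real.exp_pos _).le (Real.exp_le_one_iff.2 ?_)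
      exact neg_nonpos.2 (sum_nonneg fun ψ _ =>
        mul_nonneg (by linarith [(hρ γ hγ ψ).2]) (hb x ψ))) ih hr0 hr (fun γ => ρ γ φ)
      (fun γ hγ => hρ γ hγ φ) (fun x => b x φ) (fun x => hb x φ)
    intro a ha
    have t := s a ha
    rw [card_insert_of_notMem hφ, pow_succ', mul_assoc]
    refine le_of_eq_of_le (sum_congr rfl fun γ _ => ?_) t
    congr 2
    refine tsum_congr fun x => ?_
    simp only [sum_insert hφ, neg_add, Real.exp_add]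
    push_cast
    ring

end PSep

theorem x_sep : X_Sep := by
  intro ι _ R hR
  have hR' : 0 < R - 1 / 2 := by linarith
  have hr0 : 0 ≤ (R - 1) / (R - 1 / 2) := div_nonneg (by linarith) hR'.le
  have hr : (R - 1) / (R - 1 / 2) < 1 := (div_lt_one hR').2 (by linarith)
  refine ⟨(((1 - (R - 1) / (R - 1 / 2))⁻¹) ^ 2) ^ (univ : Finset ι).card, ?_, ?_⟩
  · exact one_le_pow₀ (one_le_pow₀ ((one_le_inv₀ (by linarith)).2 (by linarith)))
  intro X G Γ z F μ Δ hμ hF hs h a y ha hy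
  have m := PSep.many Γ _ F Δ _ hs (fun γ _ x => hF γ x) h hr0 hr
    (fun γ φ => (R - y γ φ / μ) / (R - 1 / 2)) (fun γ hγ φ => by
      have h1 : 1 ≤ y γ φ / μ := (one_le_div hμ).2 (hy γ hγ φ).1
      have h2 : y γ φ / μ ≤ R := (div_le_iff₀ hμ).2 (hy γ hγ φ).2
      exact ⟨div_nonneg (by linarith) hR'.le, div_le_div_of_nonneg_right (by linarith) hR'.le⟩)
    (fun x φ => 2 * π * μ * (R - 1 / 2) * ‖z x φ‖ ^ 2) (fun x φ => by positivity) univ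
    (fun x => a x * (gau (fun _ => μ / 2) (z x) : ℝ)) (fun x => by
      rw [norm_mul, Complex.norm_real, Real.norm_of_nonneg (gau_pos _ _).le]
      exact mul_le_of_le_one_left (gau_pos _ _).le (ha x))
  refine le_of_eq_of_le (sum_congr rfl fun γ _ => ?_) m
  congr 2
  refine tsum_congr fun x => ?_
  have e : gau (y γ) (z x) = gau (fun _ => μ / 2) (z x) * Real.exp (-∑ φ,
      (1 - (R - y γ φ / μ) / (R - 1 / 2)) * (2 * π * μ * (R - 1 / 2) * ‖z x φ‖ ^ 2)) := by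
    unfold gau
    rw [← Real.exp_add, mul_sum, mul_sum, ← sum_neg_distrib, ← sum_add_distrib]
    refine congrArg _ (sum_congr rfl fun φ _ => ?_)
    have : (R - 1 / 2) ≠ 0 := hR'.ne'
    have e2 : (1 - (R - y γ φ / μ) / (R - 1 / 2)) * (μ * (R - 1 / 2)) = y γ φ - μ / 2 := by
      rw [sub_mul, mul_comm μ, ← mul_assoc, ← mul_assoc, div_mul_cancel₀ _ this, sub_mul,
        div_mul_cancel₀ _ hμ.ne']
      ring
    linear_combination (2 * π * ‖z x φ‖ ^ 2) * e2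
  rw [e]
  push_cast
  ring

end Pool.Agent.P.MP_b8021b_nt.BS
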