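import Pool.Agent.P.MP_b8021b_nt.BS.BasicD

/-! Cancellation along squares for covariant coefficients. -/

namespace Pool.Agent.P.MP_b8021b_nt.BS

open NumberField IsDedekindDomain Finset MeasureTheory
open Pool.Agent.P.MP_b8021b_nt.VE Pool.Agent.P.MP_b8021b_nt.VC Pool.Agent.P.MP_b8021b_nt.BS.CF
open scoped Classical ComplexConjugate Real

variable {k : Type} [Field k] [NumberField k] [Algebra k ℂ] {K : Type} [Field K] [NumberField K]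
  [Algebra k K]

namespace PSq0

/-- the nonzero ideals of norm at most `X` -/
noncomputable def id (K : Type) [Field K] [NumberField K] (X : ℕ) : Finset (Ideal (𝓞 K)) :=
  (Icc 1 X).biUnion fun j => (finite_absNorm (E := K) j).toFinset

theorem mem_id {X : ℕ} {I : Ideal (𝓞 K)} : I ∈ id K X ↔ I ≠ ⊥ ∧ Ideal.absNorm I ≤ X := by
  simp [id, Nat.one_le_iff_ne_zero, Ideal.absNorm_eq_zero_iff]

theorem sum_id (F : Ideal (𝓞 K) → ℂ) (X : ℕ) : ∑ j ∈ Icc 1 X, lam F j = ∑ I ∈ id K X, F I := by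
  rw [id, sum_biUnion]
  · exact sum_congr rfl fun j _ => lam_eq_sum F j
  · intro i _ j _ h
    refine disjoint_left.2 fun I a b => h ?_
    simp only [Set.Finite.mem_toFinset, Set.mem_ofPred_eq] at a b
    exact a.symm.trans b

/-- the bound for the ideals that avoid the places of `P` -/
def Bd (C : Ideal (𝓞 K) → ℂ) (θ : ℝ) (P : Finset (Pl K)) : Prop :=
  ∃ A : ℝ, 0 ≤ A ∧ ∀ (X : ℕ) (𝔫 : Ideal (𝓞 K)), 𝔫 ≠ ⊥ →
    ‖∑ I ∈ id K X, if ∀ v ∈ P, ¬ I ≤ v.asIdeal then C (𝔫 * I ^ 2) else 0‖ ≤ A * (X : ℝ) ^ θ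

theorem sum_dvd (F : Ideal (𝓞 K) → ℂ) (v : Pl K) (X : ℕ) :
    ∑ I ∈ id K X with I ≤ v.asIdeal, F I =
      ∑ I ∈ id K (X / Ideal.absNorm v.asIdeal), F (v.asIdeal * I) := by
  have h0 : 0 < Ideal.absNorm v.asIdeal := by exact_mod_cast NN_pos v.ne_bot
  refine (sum_bij (fun I _ => v.asIdeal * I) (fun I hI => ?_)
    (fun I _ J _ e => mul_left_cancel₀ v.ne_bot e) (fun J hJ => ?_) fun _ _ => rfl).symm
  · obtain ⟨a, b⟩ := mem_id.1 hI
    refine mem_filter.2 ⟨mem_id.2 ⟨mul_ne_zero v.ne_bot a, ?_⟩, Ideal.mul_le_left⟩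
    rwa [map_mul, mul_comm, ← Nat.le_div_iff_mul_le h0]
  · obtain ⟨a, b⟩ := mem_filter.1 hJ
    obtain ⟨I, rfl⟩ := Ideal.dvd_iff_le.2 b
    obtain ⟨a, b⟩ := mem_id.1 a
    refine ⟨I, mem_id.2 ⟨right_ne_zero_of_mul a, ?_⟩, rfl⟩
    rwa [map_mul, mul_comm, ← Nat.le_div_iff_mul_le h0] at b

theorem step {C : Ideal (𝓞 K) → ℂ} {θ : ℝ} (hθ : 0 < θ) {P : Finset (Pl K)} {v : Pl K}
    (hv : v ∉ P) (h : Bd C θ (insert v P)) : Bd C θ P := by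
  obtain ⟨A, A0, h⟩ := h
  have q1 : (2 : ℝ)⁻¹ ^ θ < 1 := Real.rpow_lt_one (by norm_num) (by norm_num) hθ
  have A1 : 0 ≤ A / (1 - 2⁻¹ ^ θ) := div_nonneg A0 (by linarith)
  refine ⟨_, A1, fun X => ?_⟩
  induction X using Nat.strong_induction_on with
  | _ X ih =>
  intro 𝔫 hn
  rcases X.eq_zero_or_pos with rfl | X0
  · simp [id, Real.zero_rpow hθ.ne']
  have h2 := two_le_NN v
  have e1 : ∀ I : Ideal (𝓞 K), (if ∀ w ∈ P, ¬ I ≤ w.asIdeal then C (𝔫 * I ^ 2) else 0) =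
      (if ∀ w ∈ insert v P, ¬ I ≤ w.asIdeal then C (𝔫 * I ^ 2) else 0) +
        if I ≤ v.asIdeal then (if ∀ w ∈ P, ¬ I ≤ w.asIdeal then C (𝔫 * I ^ 2) else 0) else 0 :=
    fun I => by by_cases e : I ≤ v.asIdeal <;> simp [e]
  have e2 : ∀ I : Ideal (𝓞 K), (∀ w ∈ P, ¬ v.asIdeal * I ≤ w.asIdeal) ↔
      ∀ w ∈ P, ¬ I ≤ w.asIdeal := fun I => forall₂_congr fun w hw => by
    rw [w.isPrime.mul_le, or_iff_right fun e => hv ?_]
    rwa [HeightOneSpectrum.ext (v.isMaximal.eq_of_le w.isPrime.ne_top e)]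
  rw [sum_congr rfl fun I _ => e1 I, sum_add_distrib,
    ← sum_filter fun I => I ≤ v.asIdeal, sum_dvd]
  simp only [e2, mul_pow, ← mul_assoc]
  have h3 := ih _ (Nat.div_lt_self X0 (by exact_mod_cast one_lt_two.trans_le h2)) _
    (mul_ne_zero hn (pow_ne_zero 2 v.ne_bot))
  have h4 : ((X / Ideal.absNorm v.asIdeal : ℕ) : ℝ) ^ θ ≤ 2⁻¹ ^ θ * (X : ℝ) ^ θ := by
    rw [← Real.mul_rpow (by norm_num) (by positivity), inv_mul_eq_div]
    exact Real.rpow_le_rpow (by positivity) (Nat.cast_div_le.trans (by gcongr)) hθ.le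
  refine (norm_add_le_of_le (h X 𝔫 hn) (h3.trans (mul_le_mul_of_nonneg_left h4 A1))).trans_eq ?_
  generalize (2 : ℝ)⁻¹ ^ θ = q at q1
  have : 1 - q ≠ 0 := by linarith
  field_simp
  ring

theorem down {C : Ideal (𝓞 K) → ℂ} {θ : ℝ} (hθ : 0 < θ) (P : Finset (Pl K)) (h : Bd C θ P) :
    Bd C θ ∅ := by
  induction P using Finset.induction_on with
  | empty => exact h
  | insert v P hv ih => exact ih (step hθ hv h)

theorem cop_iff {m : ℕ} (hm : m ≠ 0) (I : Ideal (𝓞 K)) :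
    (∀ v ∈ (finite_dv K hm).toFinset, ¬ I ≤ v.asIdeal) ↔ Cop m I := by
  simp only [Set.Finite.mem_toFinset, Set.mem_ofPred_eq, Cop, Ideal.isCoprime_iff_sup_eq]
  refine ⟨fun h => not_not.1 fun e => ?_, fun h v a b => v.isPrime.ne_top (top_le_iff.1 ?_)⟩
  · obtain ⟨P, hP, hle⟩ := Ideal.exists_le_maximal _ e
    have h1 : (m : 𝓞 K) ∈ P := hle (Ideal.mem_sup_right (Ideal.mem_span_singleton_self _))
    exact h ⟨P, hP.isPrime, fun e => hm (by simpa [e] using h1)⟩ h1 (le_sup_left.trans hle)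
  · exact h ▸ sup_le b ((Ideal.span_singleton_le_iff_mem _).2 a)

theorem base (c : Ctx k K) {m : ℕ} {κ : Emb k K → ℤ} {χ : Ideal (𝓞 K) →* ℂ}
    {C : Ideal (𝓞 K) → ℂ} {A₀ : ℝ} (hm : 2 ≤ m) (hχ : IsH k m κ 0 χ) (hκ : κ ≠ 0)
    (hC : ∀ I, ‖C I‖ ≤ A₀) (hR : ∀ 𝔫 I J, 𝔫 ≠ ⊥ → Cop m I → Cop m J → Ray m I J →
      C (𝔫 * I ^ 2) * χ J = C (𝔫 * J ^ 2) * χ I) :
    Bd C (1 - 1 / (4 * rk k K)) (finite_dv K (n := m) (by omega)).toFinset := by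
  obtain ⟨B, -⟩ := c.bf
  obtain ⟨Q, Q2, hQ⟩ := c.small
  obtain ⟨D, hD⟩ := c.lib.pss k B (Module.finrank k K)
  obtain ⟨𝒳, h𝒳, ho⟩ := c.lib.i.rep K c.om m hm
  obtain ⟨G, _, _, p, -, hs, hp, -⟩ := c.lib.ray K m (by omega)
  choose R R0 Rc Rp using fun g => hs g 1 le_rfl
  simp only [mul_one] at Rc
  obtain ⟨Kb, hK⟩ := (Set.finite_range fun φ => |(κ φ : ℝ)|).bddAbove
  have A0 : 0 ≤ A₀ := (norm_nonneg _).trans (hC ⊥)
  have X0 : (𝒳.card : ℂ) ≠ 0 := Nat.cast_ne_zero.2 (card_ne_zero.2 ⟨_, (h𝒳 _).2 (RC.triv K m)⟩)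
  have X1 : (1 : ℝ) ≤ 𝒳.card := Nat.one_le_cast.2 (Nat.pos_of_ne_zero (Nat.cast_ne_zero.1 X0))
  refine ⟨∑ _ : G, ∑ _ ∈ 𝒳, A₀ * (Q * m * max 1 Kb) ^ D, by positivity, fun X 𝔫 hn => ?_⟩
  have e : ∀ I, (if Cop m I then C (𝔫 * I ^ 2) else 0) = ∑ g, ∑ ψ ∈ 𝒳,
      C (𝔫 * R g ^ 2) * conj (χ (R g)) * conj (ψ (R g)) / 𝒳.card * (χ * ψ) I := fun I => by
    split_ifs with hI
    · have I0 := Cop_ne_bot hm hI
      have e1 : ∀ g, ∑ ψ ∈ 𝒳,
          C (𝔫 * R g ^ 2) * conj (χ (R g)) * conj (ψ (R g)) / 𝒳.card * (χ * ψ) I =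
            if p I = g then C (𝔫 * I ^ 2) else 0 := fun g => by
        have e2 := ho I (R g) hI (Rc g)
        rw [← hp I _ I0 (R0 g) hI (Rc g), Rp] at e2
        rw [sum_congr rfl fun ψ _ => show _ = C (𝔫 * R g ^ 2) * χ I * conj (χ (R g)) / 𝒳.card *
          (ψ I * conj (ψ (R g))) by rw [MonoidHom.mul_apply]; ring, ← mul_sum, e2]
        split_ifs with e3
        · rw [← hR 𝔫 I _ hn hI (Rc g) ((hp I _ I0 (R0 g) hI (Rc g)).1 (e3.trans (Rp g).symm)),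
            div_mul_cancel₀ _ X0, mul_assoc, char_mul_conj hχ.toIsChar (Rc g), mul_one]
        · exact mul_zero _
      rw [sum_congr rfl fun g _ => e1 g, sum_ite_eq, if_pos (mem_univ _)]
    · simp [hχ.zero I hI]
  rw [sum_congr rfl fun I _ => (if_congr (cop_iff (by omega) I) rfl rfl).trans (e I), sum_comm,
    sum_mul]
  refine norm_sum_le_of_le _ fun g _ => ?_
  rw [sum_comm, sum_mul]
  refine norm_sum_le_of_le _ fun ψ hψ => ?_
  have h1 := (h𝒳 ψ).1 hψ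
  have h2 := ((c.lib.bcn.2 k B K m κ 0 χ hm hχ).2.2.2.1 m 0 0 ψ (by omega)
    ⟨h1.toIsChar, by simp, fun α e => (h1.prin α e).trans (ty_zero _).symm⟩).2 rfl
  rw [add_zero, add_zero] at h2
  rw [← mul_sum, norm_mul, mul_assoc A₀, ← sum_id]
  refine mul_le_mul ?_ ((hD K rfl Q m Q2 hQ hm).2.2.2 X _ κ 0 _ (le_max_left _ _)
    (fun φ => (hK ⟨φ, rfl⟩).trans (le_max_right _ _)) (fun φ => by simp) h2
    (c.not_triv hm h2 hκ)) (norm_nonneg _) A0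
  rw [norm_div, norm_mul, norm_mul, RCLike.norm_conj, RCLike.norm_conj, hχ.norm_cop _ (Rc g),
    h1.norm_cop _ (Rc g), mul_one, mul_one, Complex.norm_natCast]
  exact (div_le_self (norm_nonneg _) X1).trans (hC _)

end PSq0

theorem x_sq0 (c : Ctx k K) : X_Sq0 k K := by
  have r1 := c.one_le_rk
  have h1 : 1 / (4 * rk k K) < 1 := (div_lt_one (by linarith)).2 (by linarith)
  refine ⟨1 / (4 * rk k K), by positivity, h1.le, fun m κ χ C A₀ hm hχ hκ hC hR => ?_⟩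
  obtain ⟨A, -, hA⟩ := PSq0.down (sub_pos.2 h1) _ (PSq0.base c hm hχ hκ hC hR)
  refine ⟨max A₀ A, fun I => (hC I).trans (le_max_left _ _), fun 𝔫 hn X => ?_⟩
  rw [PSq0.sum_id]
  refine le_trans ?_ (mul_le_mul_of_nonneg_right (le_max_right _ _) (by positivity))
  simpa using hA X 𝔫 hn

end Pool.Agent.P.MP_b8021b_nt.BS
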