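import Pool.Agent.P.MP_b8021b_nt.BS.BasicD

/-! The mean square of the dual sums. -/

namespace Pool.Agent.P.MP_b8021b_nt.BS

open NumberField IsDedekindDomain Finset MeasureTheory
open Pool.Agent.P.MP_b8021b_nt.VE Pool.Agent.P.MP_b8021b_nt.VC Pool.Agent.P.MP_b8021b_nt.BS.CF
open scoped Classical ComplexConjugate Real

variable {k : Type} [Field k] [NumberField k] [Algebra k ℂ] {K : Type} [Field K] [NumberField K]
  [Algebra k K]

namespace PTM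

theorem norm_jq (𝔠 : Ideal (𝓞 K)) (κ γ : 𝓞 K) : ‖jq 𝔠 κ γ‖ ≤ 1 := by
  unfold jq
  split_ifs
  exacts [norm_jac_le _ _, by simp]

theorem jq_mul (𝔠 : Ideal (𝓞 K)) (κ κ' γ : 𝓞 K) :
    jq 𝔠 κ γ * conj (jq 𝔠 κ' γ) = jq 𝔠 (κ * κ') γ := by
  unfold jq
  split_ifs
  exacts [by rw [conj_jac, jac_mul_left], by simp]

theorem expand (𝔠 : Ideal (𝓞 K)) (S 𝒞 : Finset (𝓞 K)) (a : 𝓞 K → ℂ) (g : 𝓞 K → ℝ)
    (ha : ∀ κ, ‖a κ‖ ≤ g κ) : ∑ γ ∈ 𝒞, ‖∑ κ ∈ S, a κ * jq 𝔠 κ γ‖ ^ 2 ≤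
      ∑ κ ∈ S, ∑ κ' ∈ S, g κ * g κ' * ‖∑ γ ∈ 𝒞, jq 𝔠 (κ * κ') γ‖ := by
  have e : ((∑ γ ∈ 𝒞, ‖∑ κ ∈ S, a κ * jq 𝔠 κ γ‖ ^ 2 : ℝ) : ℂ) =
      ∑ κ ∈ S, ∑ κ' ∈ S, a κ * conj (a κ') * ∑ γ ∈ 𝒞, jq 𝔠 (κ * κ') γ := by
    push_cast
    simp only [← Complex.mul_conj', map_sum, map_mul, sum_mul_sum]
    simp only [← jq_mul, mul_sum]
    rw [sum_comm]
    refine sum_congr rfl fun κ _ => ?_
    rw [sum_comm]
    exact sum_congr rfl fun κ' _ => sum_congr rfl fun γ _ => by ring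
  refine (le_abs_self _).trans ?_
  rw [← Real.norm_eq_abs, ← Complex.norm_real, e]
  refine norm_sum_le_of_le _ fun κ _ => norm_sum_le_of_le _ fun κ' _ => ?_
  rw [norm_mul, norm_mul, Complex.norm_conj]
  exact mul_le_mul_of_nonneg_right
    (mul_le_mul (ha κ) (ha κ') (norm_nonneg _) ((norm_nonneg _).trans (ha κ))) (norm_nonneg _)

/-- the pairs without cancellation -/
def Ev (κ x : 𝓞 K) : Prop := x ≠ 0 ∧ ∀ v, ¬ Dv 2 v → Even (od v ((κ * x : 𝓞 K) : K))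

theorem inner (hCG : X_CG) (hDG : X_DG k K) (c : Ctx k K) : ∃ C : ℝ, 1 ≤ C ∧
    ∀ (μ : ℝ) (κ : 𝓞 K) (S : Finset (𝓞 K)), 0 < μ → μ ≤ 1 → κ ≠ 0 →
      ∑ x ∈ S, (if Ev κ x then 1 else 0) * gau (fun _ => μ) (emb k x) ≤
        C * μ ^ (-rk k K / 2) := by
  obtain ⟨C, h1, h⟩ := hCG (rk k K) (zero_le_one.trans c.one_le_rk)
  obtain ⟨D, h2, h'⟩ := hDG
  refine ⟨C * D, one_le_mul_of_one_le_of_one_le h1 h2, fun μ κ S hμ hμ1 hκ => ?_⟩
  have hw : ∀ x, (0 : ℝ) ≤ if Ev κ x then 1 else 0 := fun x => by split_ifs <;> norm_num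
  obtain ⟨s1, s2⟩ := h (𝓞 K) (fun x => ‖emb k x‖) (fun x => if Ev κ x then 1 else 0) D
    (fun _ => norm_nonneg _) hw (fun ρ T hρ hT => by
      rw [sum_boole]
      exact h' κ ρ _ hκ hρ fun x hx =>
        ⟨(mem_filter.1 hx).2.1, hT x (mem_filter.1 hx).1, (mem_filter.1 hx).2.2⟩) μ hμ
  exact (sum_le_sum fun x _ => mul_le_mul_of_nonneg_left (gau_le_norm hμ.le _) (hw x)).trans
    ((s1.sum_le_tsum S fun x _ => mul_nonneg (hw x) (Real.exp_pos _).le).trans (s2 hμ1))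

omit [NumberField K] in
theorem sum_zero_le (S : Finset (𝓞 K)) {T : ℝ} (hT : 0 ≤ T) :
    ∑ x ∈ S, (if x = 0 then T else 0) ≤ T := by
  rw [sum_ite_eq']
  split_ifs
  exacts [le_rfl, hT]

end PTM

open PTM

theorem x_tM (c : Ctx k K) (hCG : X_CG) (hGS : X_GS k K) (hPer : X_Per K) (hDG : X_DG k K)
    (hCube : X_Cube k K) : X_TM k K := by
  intro 𝔠 h𝔠
  obtain ⟨s0, C, h1, -, g1, g2⟩ := hGS
  obtain ⟨D, h2, hD⟩ := inner hCG hDG c
  obtain ⟨E, h3, hE⟩ := hCube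
  have hN := one_le_NN h𝔠
  have hr := c.one_le_rk
  have p1 : 1 ≤ E * C * D * C * NN 𝔠 := by bound
  refine ⟨8 * (E * C * D * C * NN 𝔠), by linarith, fun L μ Γ a hL hμ hμ1 hΓ ha => ?_⟩
  obtain ⟨𝒞, c1, c2, c3⟩ := hE L hL
  set g : 𝓞 K → ℝ := fun κ => gau (fun _ => μ) (emb k κ) with hg
  have g0 : ∀ κ, 0 ≤ g κ := fun κ => (gau_pos _ _).le
  have g3 : ∀ κ, g κ ≤ 1 := fun κ => gau_le_one (fun _ => hμ.le) _
  have s1 : Summable g := by simpa using s0 (fun _ => μ) 0 fun _ => hμ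
  set M := μ ^ (-rk k K / 2) with hM
  have hM1 : 1 ≤ M := Real.one_le_rpow_of_pos_of_le_one_of_nonpos hμ hμ1 (by linarith)
  have hp : ∀ (j : ℕ) (t : ℝ), t = -rk k K / 2 * j → μ ^ t = M ^ j := fun j t e => by
    rw [e, Real.rpow_mul_natCast hμ.le]
  replace g1 := g1 μ hμ
  replace g2 := g2 μ hμ hμ1
  rw [hp 2 _ (by push_cast; ring)] at g1
  rw [hp 4 _ (by push_cast; ring)] at g2
  rw [hp 3 _ (by push_cast; ring), hp 8 _ (by push_cast; ring)]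
  set P := L ^ (2 * rk k K)
  set Q := L ^ (2 * rk k K - 1)
  have hP : 0 ≤ P := by positivity
  have hQ : 0 ≤ Q := by positivity
  refine (sum_le_sum_of_subset_of_nonneg (fun γ h => c1 γ (hΓ γ h))
    fun _ _ _ => sq_nonneg _).trans ?_
  have s2 : ∀ γ, Summable fun κ => a κ * jq 𝔠 κ γ := fun γ => .of_norm_bounded s1 fun κ => by
    rw [norm_mul]
    exact (mul_le_of_le_one_right (norm_nonneg _) (norm_jq _ _ _)).trans (ha κ)
  refine le_of_tendsto' (tendsto_finsetSum 𝒞 fun γ _ => ((s2 γ).hasSum.norm.pow 2)) fun S => ?_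
  refine (expand 𝔠 S 𝒞 a g ha).trans ?_
  have b0 : ∑ κ ∈ S, g κ ≤ 2 * C * M ^ 2 := by
    have s3 : Summable fun x : 𝓞 K => if x = 0 then 0 else g x :=
      .of_nonneg_of_le (fun x => by split_ifs; exacts [le_rfl, g0 x])
        (fun x => by split_ifs; exacts [g0 x, le_rfl]) s1
    have h4 := (s3.sum_le_tsum S fun x _ => by split_ifs; exacts [le_rfl, g0 x]).trans g1
    have h5 : ∑ κ ∈ S, g κ ≤ ∑ κ ∈ S, ((if κ = 0 then 1 else 0) + if κ = 0 then 0 else g κ) :=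
      sum_le_sum fun κ _ => by split_ifs <;> simp [g3]
    have h6 : 1 ≤ C * M ^ 2 := by bound
    rw [sum_add_distrib] at h5
    linarith [sum_zero_le S zero_le_one]
  have b1 : ∑ κ ∈ S, NN (sp κ) * g κ ≤ C * M ^ 4 := by
    refine (Summable.sum_le_tsum S (fun x _ => mul_nonneg (Nat.cast_nonneg _) (g0 x)) ?_).trans g2
    refine .of_nonneg_of_le (fun x => mul_nonneg (Nat.cast_nonneg _) (g0 x)) (fun x => ?_)
      (s0 (fun _ => μ) (2 * Fintype.card (Emb k K)) fun _ => hμ)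
    refine mul_le_mul_of_nonneg_right ?_ (g0 x)
    rw [← NN, c.NN_eq, nz, pow_mul, ← card_univ, ← prod_const]
    exact prod_le_prod (fun _ _ => by positivity) fun φ _ =>
      pow_le_pow_left₀ (norm_nonneg _) ((norm_le_pi_norm _ φ).trans (by linarith)) 2
  have b2 : ∀ κ κ' : 𝓞 K, ‖∑ γ ∈ 𝒞, jq 𝔠 (κ * κ') γ‖ ≤
      E * (8 * NN 𝔠) * Q * (NN (sp κ) * NN (sp κ')) + E * P * ((if κ = 0 then 1 else 0) +
        if κ = 0 then 0 else ((if κ' = 0 then 1 else 0) + if Ev κ κ' then 1 else 0)) := by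
    intro κ κ'
    have t0 : 0 ≤ E * (8 * NN 𝔠) * Q * (NN (sp κ) * NN (sp κ')) := by positivity
    have t1 : ‖∑ γ ∈ 𝒞, jq 𝔠 (κ * κ') γ‖ ≤ E * P := by
      refine (norm_sum_le_of_le _ fun γ _ => norm_jq _ _ γ).trans ?_
      rwa [sum_const, nsmul_eq_mul, mul_one]
    have t2 : 0 ≤ E * P := by positivity
    split_ifs with e1 e2 e3 e3
    iterate 4 linarith
    simp only [Ev, not_and, not_forall] at e3
    obtain ⟨v, v1, v2⟩ := e3 e2
    have e4 := mul_ne_zero e1 e2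
    obtain ⟨q1, u, q2, q3⟩ := hPer 𝔠 _ v h𝔠 e4 v1 (Int.not_even_iff_odd.1 v2)
    have := c3 _ _ u (Nat.one_le_iff_ne_zero.2 (mul_ne_zero (mul_ne_zero (by norm_num)
      (by rwa [Ne, Ideal.absNorm_eq_zero_iff]))
      (by rwa [Ne, Ideal.absNorm_eq_zero_iff, Ideal.span_singleton_eq_bot]))) q1 (norm_jq _ _) q2 q3
    rw [sp_mul, map_mul] at this
    push_cast at this
    linarith
  have b3 : ∀ κ : 𝓞 K, ∑ κ' ∈ S, g κ * g κ' * ((if κ = 0 then 1 else 0) +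
      if κ = 0 then 0 else ((if κ' = 0 then 1 else 0) + if Ev κ κ' then 1 else 0)) ≤
        (if κ = 0 then 2 * C * M ^ 2 else 0) + g κ * (2 * D * M) := by
    intro κ
    have t0 : 0 ≤ g κ * (2 * D * M) := mul_nonneg (g0 κ) (by positivity)
    split_ifs with e
    · refine (le_trans (sum_le_sum fun x _ => ?_) b0).trans (le_add_of_nonneg_right t0)
      rw [add_zero, mul_one]
      exact mul_le_of_le_one_left (g0 x) (g3 κ)
    · simp only [zero_add, mul_assoc, ← mul_sum]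
      refine mul_le_mul_of_nonneg_left ?_ (g0 κ)
      have t1 : 1 ≤ D * M := by bound
      have t2 := add_le_add (sum_zero_le S zero_le_one) (hD μ κ S hμ hμ1 e)
      rw [← sum_add_distrib] at t2
      refine (sum_le_sum fun x _ => ?_).trans (t2.trans (by linarith))
      rw [mul_add, mul_comm _ (if Ev κ x then _ else _)]
      exact add_le_add (mul_le_of_le_one_left (by split_ifs <;> norm_num) (g3 x)) le_rfl
  have b4 := sum_le_sum fun κ (_ : κ ∈ S) => b3 κ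
  rw [sum_add_distrib, ← sum_mul] at b4
  have b5 : 2 * C * M ^ 2 + 2 * C * M ^ 2 * (2 * D * M) ≤ 8 * (C * D * C * NN 𝔠) * M ^ 3 := by
    have t1 : 1 ≤ D * M := by bound
    have t2 : 1 ≤ C * NN 𝔠 := by bound
    have t3 : 0 ≤ C * M ^ 2 := by positivity
    nlinarith [mul_le_mul_of_nonneg_left t1 t3,
      mul_le_mul_of_nonneg_left t2 (mul_nonneg t3 (zero_le_one.trans t1))]
  have b6 := (b4.trans (add_le_add (sum_zero_le S (by positivity))
    (mul_le_mul_of_nonneg_right b0 (by positivity)))).trans b5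
  have n0 : 0 ≤ ∑ κ ∈ S, NN (sp κ) * g κ :=
    sum_nonneg fun x _ => mul_nonneg (Nat.cast_nonneg _) (g0 x)
  have b7 := mul_le_mul b1 b1 n0 (n0.trans b1)
  have b8 : C * M ^ 4 * (C * M ^ 4) ≤ C * D * C * M ^ 8 := by
    have := mul_le_mul_of_nonneg_left h2 (by positivity : 0 ≤ C * C * M ^ 8)
    linarith
  rw [sum_mul_sum] at b7
  have b9 := add_le_add (mul_le_mul_of_nonneg_left (b7.trans b8)
    (by positivity : 0 ≤ E * (8 * NN 𝔠) * Q)) (mul_le_mul_of_nonneg_left b6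
    (by positivity : 0 ≤ E * P))
  refine le_trans ?_ (b9.trans_eq (by ring))
  simp only [mul_sum, ← sum_add_distrib]
  refine sum_le_sum fun κ _ => sum_le_sum fun κ' _ => ?_
  exact (mul_le_mul_of_nonneg_left (b2 κ κ') (mul_nonneg (g0 κ) (g0 κ'))).trans_eq (by ring)

end Pool.Agent.P.MP_b8021b_nt.BS
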