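import Pool.Agent.P.MP_b8021b_nt.BS.BasicD

/-! An integer congruent to one modulo eight with prescribed odd split places. -/

namespace Pool.Agent.P.MP_b8021b_nt.BS

open NumberField IsDedekindDomain Finset MeasureTheory
open Pool.Agent.P.MP_b8021b_nt.VE Pool.Agent.P.MP_b8021b_nt.VC Pool.Agent.P.MP_b8021b_nt.BS.CF
open scoped Classical ComplexConjugate Real

variable {k : Type} [Field k] [NumberField k] [Algebra k ℂ] {K : Type} [Field K] [NumberField K]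
  [Algebra k K]

theorem x_ts (c : Ctx k K) : X_Ts K := by
  intro ζ V hζ hV
  have ns : ¬ ∃ z : K, ζ = z ^ 2 := fun ⟨z, e⟩ => hζ.ns ⟨z, by rw [e, sq]⟩
  have z0 : ζ ≠ 0 := fun e => ns ⟨0, by simp [e]⟩
  obtain ⟨j, χ, -, hχ, hv, -⟩ := c.lib.chi K 2 ζ c.om le_rfl dvd_rfl z0 fun v _ => by
    rw [hζ.od v]; exact dvd_zero _
  obtain ⟨p, -, p2, pl⟩ := c.lib.c1 K 2 2 ζ c.om (Or.inl rfl) two_ne_zero ns
  have cop : ∀ v : Pl K, ¬ Dv 2 v → Cop (2 ^ (j + 3)) v.asIdeal := fun v h =>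
    (cop_prime_iff v).2 fun e => h ((dv_pow v (by omega)).1 e)
  obtain ⟨e, δ, he, hδ, h⟩ := c.lib.pc K 2 (2 ^ (j + 3)) (eI V * p.asIdeal) c.om le_rfl
    (Nat.le_self_pow (by omega) 2)
    (IsCoprime.mul_left (IsCoprime.prod_left fun v hv => cop v (hV v hv).1) (cop p p2))
  obtain ⟨X, 𝒬, x1, x2, x3⟩ := h 1
  obtain ⟨q, hq⟩ : 𝒬.Nonempty := by
    refine nonempty_iff_ne_empty.2 fun e0 => ?_
    have : (1 : ℝ) ≤ X := by exact_mod_cast x1
    rw [e0, card_empty, Nat.cast_zero, zero_mul] at x2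
    nlinarith
  obtain ⟨-, -, u, u1, u2⟩ := x3 q hq
  have c0 : eI V * p.asIdeal ≠ ⊥ := mul_ne_zero (eI_ne_bot V) p.ne_bot
  have u0 : u ≠ 0 := fun e0 => by
    rw [e0, Ideal.span_singleton_zero] at u2
    exact mul_ne_zero (pow_ne_zero _ c0) q.ne_bot u2.symm
  have eo : Odd e := Nat.not_even_iff_odd.1 (mt even_iff_two_dvd.1 he)
  have ql : ¬ Dv 2 q → ¬ LP 2 q ζ := fun q2 hl => by
    have e1 := hχ.prin u ((Nat.cast_dvd_cast (pow_dvd_pow 2 (by omega : j ≤ j + 3))).trans u1)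
    have e2 : χ (eI V) = 1 := by
      rw [eI, map_prod]
      exact prod_eq_one fun v h => by rw [hv v (hV v h).1, if_pos (hV v h).2]
    rw [u2, map_mul, map_pow, map_mul, e2, hv p p2, if_neg pl, hv q q2, if_pos hl, one_mul,
      eo.neg_one_pow] at e1
    norm_num at e1
  refine ⟨u, Dvd.dvd.trans ⟨2 ^ j, by push_cast; ring⟩ u1, fun v v2 => ?_⟩
  have o : LP 2 v ζ → od v (u : K) = e * if v ∈ V then 1 else 0 := fun hl => by
    have a1 : v ≠ p := fun e0 => pl (e0 ▸ hl)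
    have a2 : v ≠ q := fun e0 => ql (e0 ▸ v2) (e0 ▸ hl)
    rw [od_coe v u0, u2, cnt_mul v (pow_ne_zero _ c0) q.ne_bot, cnt_pow v c0,
      cnt_mul v (eI_ne_bot V) p.ne_bot, cnt_ne v a1, cnt_ne v a2, cnt_eI]
    push_cast
    ring
  refine ⟨fun ⟨h1, h2⟩ => by_contra fun hn => ?_, fun h1 => ⟨?_, (hV v h1).2⟩⟩
  · rw [o h2, if_neg hn, mul_zero] at h1
    exact absurd h1 (by decide)
  · rw [o (hV v h1).2, if_pos h1, mul_one]
    exact_mod_cast eo

end Pool.Agent.P.MP_b8021b_nt.BS
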