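import Pool.Agent.P.MP_b8021b_nt.BS.BasicD

/-! Decomposition of the twisted theta series along the squarefree part. -/

namespace Pool.Agent.P.MP_b8021b_nt.BS

open NumberField IsDedekindDomain Finset MeasureTheory
open Pool.Agent.P.MP_b8021b_nt.VE Pool.Agent.P.MP_b8021b_nt.VC Pool.Agent.P.MP_b8021b_nt.BS.CF
open scoped Classical ComplexConjugate Real

variable {k : Type} [Field k] [NumberField k] [Algebra k ℂ] {K : Type} [Field K] [NumberField K]
  [Algebra k K]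

namespace PDec

/-- every nonzero ideal is a squarefree ideal times a square -/
theorem ex_dec (I : Ideal (𝓞 K)) (hI : I ≠ ⊥) :
    ∃ n m : Ideal (𝓞 K), Squarefree n ∧ m ≠ ⊥ ∧ n * m ^ 2 = I := by
  refine ideal_induction (P := fun I => ∃ n m : Ideal (𝓞 K), Squarefree n ∧ m ≠ ⊥ ∧ n * m ^ 2 = I)
    ⟨1, 1, squarefree_one, one_ne_zero, by simp⟩ ?_ I hI
  rintro v _ - ⟨n, m, hn, hm, rfl⟩
  by_cases h : v.asIdeal ∣ n
  · obtain ⟨n', rfl⟩ := h
    exact ⟨n', v.asIdeal * m, hn.of_mul_right, mul_ne_zero v.ne_bot hm, by ring⟩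
  · refine ⟨v.asIdeal * n, m, ?_, hm, by ring⟩
    have h0 : n ≠ ⊥ := hn.ne_zero
    refine (squarefree_iff_cnt (mul_ne_zero v.ne_bot h0)).2 fun w => ?_
    have h1 := (squarefree_iff_cnt h0).1 hn w
    rw [cnt_mul w v.ne_bot h0]
    rcases eq_or_ne w v with rfl | e
    · rw [cnt_self, (cnt_eq_zero w).2 fun e => h (Ideal.dvd_iff_le.2 e)]
    · rw [cnt_ne w e]; omega

/-- the decomposition is unique -/
theorem uniq_dec {n m n' m' : Ideal (𝓞 K)} (hn : Squarefree n) (hn' : Squarefree n') (hm : m ≠ ⊥)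
    (hm' : m' ≠ ⊥) (h : n * m ^ 2 = n' * m' ^ 2) : n = n' ∧ m = m' := by
  have h0 : n ≠ ⊥ := hn.ne_zero
  have h0' : n' ≠ ⊥ := hn'.ne_zero
  have key : ∀ v : Pl K, cnt v n = cnt v n' ∧ cnt v m = cnt v m' := fun v => by
    have e := congrArg (cnt v) h
    rw [cnt_mul v h0 (pow_ne_zero 2 hm), cnt_mul v h0' (pow_ne_zero 2 hm'), cnt_pow v hm,
      cnt_pow v hm'] at e
    have a := (squarefree_iff_cnt h0).1 hn v
    have b := (squarefree_iff_cnt h0').1 hn' v
    omega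
  exact ⟨ext_cnt h0 h0' fun v => (key v).1, ext_cnt hm hm' fun v => (key v).2⟩

/-- summation over squarefree parts and squares -/
theorem hasSum_dec {g : Ideal (𝓞 K) → ℂ} {a : ℂ} (hg : HasSum g a) (h0 : g ⊥ = 0)
    {P : Ideal (𝓞 K) → ℂ} (hP : ∀ n, Squarefree n → HasSum (fun m => g (n * m ^ 2)) (P n)) :
    HasSum (fun n => if Squarefree n then P n else 0) a := by
  let s : Set (Ideal (𝓞 K) × Ideal (𝓞 K)) := {p | Squarefree p.1 ∧ p.2 ≠ ⊥}
  let e : s → Ideal (𝓞 K) := fun p => p.1.1 * p.1.2 ^ 2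
  have he : Function.Injective e := fun p q h => by
    obtain ⟨a, b⟩ := uniq_dec p.2.1 q.2.1 p.2.2 q.2.2 h
    exact Subtype.ext (Prod.ext a b)
  have h1 : HasSum (g ∘ e) a := (he.hasSum_iff fun I hI => by
    by_contra hne
    obtain ⟨n, m, hn, hm, rfl⟩ := ex_dec I fun e => hne (by rw [e, h0])
    exact hI ⟨⟨(n, m), hn, hm⟩, rfl⟩).2 hg
  have h2 : HasSum (s.indicator fun p => g (p.1 * p.2 ^ 2)) a :=
    hasSum_subtype_iff_indicator.1 h1
  refine h2.prod_fiberwise fun n => ?_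
  split_ifs with hn
  · convert hP n hn using 2 with m
    by_cases hm : m = ⊥
    · rw [Set.indicator_of_notMem fun e => e.2 hm, hm]
      simp [h0]
    · rw [Set.indicator_of_mem (show (n, m) ∈ s from ⟨hn, hm⟩)]
  · convert hasSum_zero using 2 with m
    exact Set.indicator_of_notMem (fun e => hn e.1) _

theorem cop_v {v : Pl K} {m : Ideal (𝓞 K)} : IsCoprime v.asIdeal m ↔ ¬ m ≤ v.asIdeal := by
  rw [Ideal.isCoprime_iff_sup_eq]
  constructor
  · intro h hn
    rw [sup_eq_left.2 hn] at h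
    exact v.isPrime.ne_top h
  · intro h
    by_contra e
    exact h (le_sup_right.trans (v.isMaximal.eq_of_le e le_sup_left).ge)

theorem eI_dvd {S : Finset (Pl K)} {m : Ideal (𝓞 K)} (hm : m ≠ ⊥) :
    eI S ∣ m ↔ ∀ v ∈ S, m ≤ v.asIdeal := by
  rw [dvd_iff_cnt (eI_ne_bot S) hm]
  refine forall_congr' fun v => ?_
  have := cnt_eq_zero v (I := m)
  rw [cnt_eI]
  split_ifs with h
  · simp only [h, true_imp_iff]
    constructor
    · intro e; by_contra e'; rw [this.2 e'] at e; omega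
    · intro e; by_contra e'; exact this.1 (by omega) e
  · simp [h]

/-- the indicator of coprimality as an alternating sum -/
theorem jac_sq_sum {t : 𝓞 K} (ht : Squarefree (sp t)) {m : Ideal (𝓞 K)} (hm : m ≠ ⊥) :
    jac t m ^ 2 = ∑ S ∈ (pr t).powerset, if eI S ∣ m then (-1 : ℂ) ^ S.card else 0 := by
  have e1 : jac t m ^ 2 = ∏ v ∈ pr t, (1 + if m ≤ v.asIdeal then (-1 : ℂ) else 0) := by
    rw [jac_sq hm, ← eI_pr ht, eI, IsCoprime.prod_left_iff]
    split_ifs with h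
    · exact (prod_eq_one fun v hv => by rw [if_neg (cop_v.1 (h v hv)), add_zero]).symm
    · push Not at h
      obtain ⟨v, hv, h⟩ := h
      exact (prod_eq_zero hv (by rw [if_pos (not_not.1 (mt cop_v.2 h)), add_neg_cancel])).symm
  rw [e1, prod_one_add]
  refine sum_congr rfl fun S _ => ?_
  rw [prod_ite_zero, prod_const]
  exact if_congr (eI_dvd hm).symm rfl rfl

variable {ι : Type} [Fintype ι] [DecidableEq ι]

theorem jac_sq_prod {ω : ι → 𝓞 K} (hs : ∀ i, Squarefree (sp (ω i)))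
    (hc : ∀ i j, i ≠ j → IsCoprime (ω i) (ω j)) {m : Ideal (𝓞 K)} (hm : m ≠ ⊥) :
    jac (∏ i, ω i) m ^ 2 = ∑ S ∈ Fintype.piFinset fun i => (pr (ω i)).powerset,
      if (∏ i, eI (S i)) ∣ m then ∏ i, (-1 : ℂ) ^ (S i).card else 0 := by
  rw [jac_prod_left _ _ hm, ← prod_pow, prod_congr rfl fun i _ => jac_sq_sum (hs i) hm,
    prod_univ_sum]
  refine sum_congr rfl fun S hS => ?_
  have hd : ∀ i, eI (S i) ∣ sp (ω i) := fun i => by
    rw [← eI_pr (hs i)]
    exact prod_dvd_prod_of_subset _ _ _ (mem_powerset.1 (Fintype.mem_piFinset.1 hS i))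
  have hp : ∀ i j, i ≠ j → IsCoprime (eI (S i)) (eI (S j)) := fun i j e =>
    (((Ideal.isCoprime_span_singleton_iff _ _).2 (hc i j e)).of_isCoprime_of_dvd_left
      (hd i)).of_isCoprime_of_dvd_right (hd j)
  by_cases h : (∏ i, eI (S i)) ∣ m
  · rw [if_pos h]
    exact prod_congr rfl fun i hi => if_pos ((dvd_prod_of_mem (fun i => eI (S i)) hi).trans h)
  · rw [if_neg h]
    by_contra e
    refine h (Fintype.prod_dvd_of_coprime (fun i j e => hp i j e) fun i => not_not.1 fun e' => e ?_)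
    exact prod_eq_zero (mem_univ i) (if_neg e')

/-- the sum over the multiples of an ideal -/
theorem hasSum_mul {f : ℝ → ℝ} {C : Ideal (𝓞 K) → ℂ} {A₀ τ : ℝ} (hC : ∀ I, ‖C I‖ ≤ A₀)
    (hf : ∀ z, 0 < z → Summable fun m : Ideal (𝓞 K) => NN m * f (z * NN m ^ 2)) (hτ : 0 < τ)
    {n E : Ideal (𝓞 K)} (hn : n ≠ ⊥) (hE : E ≠ ⊥) :
    HasSum (fun m => if E ∣ m then
      C (n * m ^ 2) * (τ * NN n * NN m * f (τ * NN n * NN m ^ 2) : ℝ) else 0)
      (((NN E)⁻¹ : ℝ) * bb f C (n * E ^ 2) τ) := by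
  have hN := NN_pos (show n * E ^ 2 ≠ ⊥ from mul_ne_zero hn (pow_ne_zero 2 hE))
  have h1 : Summable fun m : Ideal (𝓞 K) => C (n * E ^ 2 * m ^ 2) *
      (τ * NN (n * E ^ 2) * NN m * f (τ * NN (n * E ^ 2) * NN m ^ 2) : ℝ) := by
    refine .of_norm_bounded (((hf _ (mul_pos hτ hN)).mul_left (τ * NN (n * E ^ 2))).abs.mul_left A₀)
      fun m => ?_
    rw [norm_mul, Complex.norm_real, Real.norm_eq_abs, mul_assoc (τ * _)]
    exact mul_le_mul_of_nonneg_right (hC _) (abs_nonneg _)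
  refine ((mul_right_injective₀ hE).hasSum_iff fun m hm => if_neg fun ⟨c, e⟩ => hm ⟨c, e.symm⟩).1 ?_
  refine (congrArg₂ HasSum (funext fun m => ?_) rfl).mp
    (h1.hasSum.mul_left (((NN E)⁻¹ : ℝ) : ℂ))
  symm
  have hE' : (NN E : ℂ) ≠ 0 := Complex.ofReal_ne_zero.2 (NN_pos hE).ne'
  have e2 : NN (n * E ^ 2) = NN n * NN E ^ 2 := by rw [NN_mul, sq, sq, NN_mul]
  rw [Function.comp_apply, if_pos (dvd_mul_right _ _), mul_pow, ← mul_assoc, NN_mul E, e2,
    show τ * NN n * (NN E * NN m) ^ 2 = τ * (NN n * NN E ^ 2) * NN m ^ 2 by ring]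
  push_cast
  field_simp

end PDec

open PDec in
theorem x_dec (c : Ctx k K) (hThB : X_ThB K) : X_Dec K := by
  intro ι _ _ f C A₀ ω τ hf hC hs hc hτ
  obtain ⟨h1, h2, -⟩ := hThB f hf
  have hS : Summable fun I : Ideal (𝓞 K) =>
      C I * jac (∏ i, ω i) I * (√(NN I) * τ * f (τ * NN I) : ℝ) := by
    refine .of_norm_bounded (((h1 τ hτ).mul_left τ).abs.mul_left A₀) fun I => ?_
    rw [norm_mul, norm_mul, Complex.norm_real, Real.norm_eq_abs,
      show √(NN I) * τ * f (τ * NN I) = τ * (√(NN I) * f (τ * NN I)) by ring]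
    refine mul_le_mul_of_nonneg_right ?_ (abs_nonneg _)
    exact (mul_le_of_le_one_right (norm_nonneg _) (norm_jac_le _ _)).trans (hC I)
  refine hasSum_dec hS.hasSum (by simp [jac_bot]) fun n hn => ?_
  have h0 : n ≠ ⊥ := hn.ne_zero
  have h3 := (hasSum_sum fun S (_ : S ∈ Fintype.piFinset fun i => (pr (ω i)).powerset) =>
    (hasSum_mul hC h2 hτ h0 (E := ∏ i, eI (S i))
      (prod_ne_zero_iff.2 fun i _ => eI_ne_bot _)).mul_left (∏ i, (-1 : ℂ) ^ (S i).card)).mul_left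
    ((∏ i, jac (ω i) n) * ((√(NN n))⁻¹ : ℝ))
  refine (congrArg₂ HasSum (funext fun m => ?_) ?_).mpr h3
  · by_cases hm : m = ⊥
    · simp [hm, jac_bot, NN]
    have hq : ((√(NN n) : ℝ) : ℂ) ≠ 0 :=
      Complex.ofReal_ne_zero.2 (Real.sqrt_pos.2 (NN_pos h0)).ne'
    have hq2 : (NN n : ℂ) = ((√(NN n) : ℝ) : ℂ) ^ 2 := by
      rw [← Complex.ofReal_pow, Real.sq_sqrt (NN_pos h0).le]
    have e2 : NN (n * m ^ 2) = NN n * NN m ^ 2 := by rw [NN_mul, sq, sq, NN_mul]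
    rw [jac_mul_right, jac_pow_right, jac_sq_prod hs hc hm, jac_prod_left _ _ h0, e2,
      Real.sqrt_mul (NN_pos h0).le, Real.sqrt_sq (NN_pos hm).le, ← mul_assoc τ, mul_sum, mul_sum,
      sum_mul, mul_sum]
    refine sum_congr rfl fun S _ => ?_
    split_ifs
    · push_cast at hq2 ⊢
      rw [hq2]
      field_simp
    · simp
  · rw [pc]
    refine congrArg _ (sum_congr rfl fun S _ => ?_)
    rw [← mul_assoc, prod_div_distrib]
    congr 1
    simp [NN, map_prod, div_eq_mul_inv]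

end Pool.Agent.P.MP_b8021b_nt.BS
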