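import Pool.Agent.P.MP_b8021b_nt.BS.BasicD

/-! The theorem from the interface statements. -/

namespace Pool.Agent.P.MP_b8021b_nt.BS

open NumberField IsDedekindDomain Finset MeasureTheory
open Pool.Agent.P.MP_b8021b_nt.VE Pool.Agent.P.MP_b8021b_nt.VC Pool.Agent.P.MP_b8021b_nt.BS.CF
open scoped Classical ComplexConjugate Real

variable {k : Type} [Field k] [NumberField k] [Algebra k ℂ] {K : Type} [Field K] [NumberField K]
  [Algebra k K]

namespace TopL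

omit [NumberField K] in
theorem not_mem {n : ℕ} {t : 𝓞 K} {v : Pl K} (ht : (n : 𝓞 K) ∣ t - 1) (hv : Dv n v) :
    t ∉ v.asIdeal := fun h => v.isPrime.ne_top ((Ideal.eq_top_iff_one _).2 (by
  simpa using v.asIdeal.sub_mem h (v.asIdeal.mem_of_dvd ht hv)))

theorem od_eq {t : 𝓞 K} (ht : Squarefree (sp t)) (v : Pl K) :
    od v (t : K) = if t ∈ v.asIdeal then 1 else 0 := by
  rw [od_coe v (ne_zero_of_sqf ht), show Ideal.span {t} = eI (pr t) from (eI_pr ht).symm, cnt_eI]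
  simp [mem_pr (ne_zero_of_sqf ht)]

theorem od_zero {t : 𝓞 K} {v : Pl K} (h : t ∉ v.asIdeal) : od v (t : K) = 0 :=
  od_eq_zero_of_vl v ((vl_coe_eq v t).2 h)

theorem lp_two {t : 𝓞 K} (ht : (8 : 𝓞 K) ∣ t - 1) {v : Pl K} (hv : Dv 2 v) : LP 2 v (t : K) := by
  have h := One.near v (One.coe (n := 8) (by exact_mod_cast ht)) (hv.of_dvd (by norm_num))
  refine LP.of_near (h.trans_lt ?_)
  have h2 := (vl_nat_lt v).2 hv
  rw [show ((8 : ℕ) : K) = ((2 : ℕ) : K) ^ 2 * (2 : ℕ) by norm_num, map_mul, map_pow]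
  exact mul_lt_of_lt_one_right (pow_pos (vl_pos v (by norm_num)) 2) h2

/-- twisting a character by a quadratic symbol -/
theorem isP (hRec : X_Rec K) {m n : ℕ} {Ψ : Ideal (𝓞 K) →* ℂ} {t : 𝓞 K} (hn : 2 ≤ n)
    (h : IsP k m Ψ) (hm : m ∣ n) (ht : (8 : 𝓞 K) ∣ t - 1) (t0 : t ≠ 0) (hn' : (n : 𝓞 K) ∈ sp t) :
    IsP k n (Ψ * jacH t * triv K n) := by
  refine ⟨⟨fun I hI => ?_, fun I hI => by simp [triv_not hI]⟩, by simp, fun α hα => ?_⟩
  · have h1 : jac t I ≠ 0 := (jac_ne_zero_iff (Cop_ne_bot hn hI)).2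
      (hI.symm.of_isCoprime_of_dvd_left (Ideal.dvd_span_singleton.2 hn'))
    have h2 : ‖jac t I‖ = 1 := by rcases jac_cases t I with e | e | e <;> simp_all
    simp [triv_cop hI, jacH_apply, h2, h.norm_cop I (Cop_of_dvd hI hm)]
  · simp [triv_cop (cop_span_of_dvd hα), jacH_apply, hRec t α ht (ne_zero_of_dvd hn hα),
      jac_eq_one_of_mem (by simpa using t0) hn' hα, h.prin α ((Nat.cast_dvd_cast hm).trans hα)]

end TopL

open TopL in
theorem top (hK : Om K) (hRec : X_Rec K) (hSel : X_Sel K) (hFin : X_Fin K) (hInf : X_Inf K)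
    (hZeta : X_Zeta K) (hTs : X_Ts K) (hGood : X_Good K) (hLF : X_LF K) (hPsi : X_Psi k K)
    (hFE : X_FE k K) (hMel : X_Mel k K) (hNV : X_NV k K) :
    ∃ B : Set K, B.Infinite ∧ (∀ b ∈ B, ∀ b' ∈ B, b ≠ b' →
      ∀ C : WeierstrassCurve.VariableChange K, C • Wb b ≠ Wb b') ∧
      ∀ b ∈ B, b ≠ 0 ∧ Finite (Wb b).toAffine.Point ∧ AnZero (Wb b) := by
  obtain ⟨ζ, a, ha, hζ, hU⟩ := hZeta
  obtain ⟨V, hV, hS⟩ := hSel ζ hU
  obtain ⟨t₀, h8, hT⟩ := hTs ζ V hU hV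
  obtain ⟨m, Ψ₀, m2, m2', hΨ₀, hchs⟩ := hPsi ζ a ha hζ
  have t0 : t₀ ≠ 0 := ne_zero_of_dvd (n := 8) (by norm_num) (by exact_mod_cast h8)
  obtain ⟨n, hn, hG⟩ := hGood.1 (m * Ideal.absNorm (sp t₀))
    (mul_ne_zero (by omega) (by simpa using t0))
  have hmn : m ∣ n := (dvd_mul_right _ _).trans hn
  have hn' : (n : 𝓞 K) ∈ sp t₀ :=
    (sp t₀).mem_of_dvd (Nat.cast_dvd_cast ((dvd_mul_left _ _).trans hn)) (Ideal.absNorm_mem _)
  have hΨ := isP hRec hG.two_le hΨ₀ hmn h8 t0 hn'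
  obtain ⟨f, hf, hM, hE⟩ := hFE n _ hG hΨ
  refine hInf _ fun W => ?_
  obtain ⟨t, hA, ⟨v, hv, hW⟩, hI⟩ := hNV n ζ _ f hG hU hΨ hf hE W
  have hP : Pri n t := hA.1.mono (dvd_pow_self n two_ne_zero)
  have t1 := hP.ne_zero
  have k0 : (t₀ : K) ≠ 0 := by exact_mod_cast t0
  have k1 : (t : K) ≠ 0 := by exact_mod_cast t1
  have z0 : (ζ : K) ≠ 0 := fun e => hU.ns (e ▸ IsSquare.zero)
  have hd : ∀ w : Pl K, t₀ ∈ w.asIdeal → Dv n w := fun w h =>
    (Ideal.span_singleton_le_iff_mem _).2 h hn'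
  have hc : ∀ w : Pl K, t ∈ w.asIdeal → t₀ ∉ w.asIdeal := fun w h h' => not_mem hP.1 (hd w h') h
  have hb : ((-(ζ * (t₀ * t) ^ 2) : 𝓞 K) : K) = -(ζ * (t₀ * t) ^ 2) := by push_cast; rfl
  have b0 : -((ζ : K) * (t₀ * t) ^ 2) ≠ 0 := by simp [z0, k0, k1]
  refine ⟨_, b0, ⟨hFin _ b0 fun x y h hx => ?_, ?_⟩, v, hW, ?_⟩
  · refine (hS (t₀ * t) (mul_ne_zero k0 k1) (fun w hw => (lp_two h8 hw).mul
      (lp_two (hG.dvd8 hP.1) hw)) (fun w hw => ?_) x y (by rw [h]; ring) hx).imp_right ?_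
    · rw [od_mul w k0 k1, od_eq hP.2]
      split_ifs with e
      · exact iff_of_false (fun h => hA.2 w e h.2) fun h => hA.2 w e (hV w h).2
      · rw [add_zero]; exact hT w hw
    · obtain ⟨i, hi⟩ := hK
      rintro ⟨s, hs⟩
      exact ⟨i * (t₀ * t) * s, by
        linear_combination (-(t₀ * t : K) ^ 2) * hs - ((t₀ * t : K) * s) ^ 2 * hi⟩
  · obtain ⟨G, g1, g2, g3⟩ := hMel n _ _ f t hf hM hE hA.1
    rw [← hb]
    have n0 : (n : 𝓞 K) * t ≠ 0 := mul_ne_zero (Nat.cast_ne_zero.2 hG.pos) t1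
    refine hLF _ (Ψ₀ * jacH t₀ * triv K n * jacH t) G (pr (n * t)) (fun I => ?_) (fun w hw => ?_)
      (fun w hw => ?_) g1 g2 (g3 hI)
    · rw [MonoidHom.mul_apply, norm_mul]
      exact mul_le_one₀ (hΨ.norm_le I) (norm_nonneg _) (norm_jac_le t I)
    · rw [MonoidHom.mul_apply, jacH_apply, jac_prime]
      rcases w.isPrime.mem_or_mem ((mem_pr n0).1 hw) with e | e
      · rw [hΨ.zero _ fun h => (cop_prime_iff w).1 h e, zero_mul]
      · rw [leg_eq_zero.2 e, mul_zero]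
    · rw [mem_pr n0, w.isPrime.mul_mem_iff_mem_or_mem, not_or] at hw
      have h1 : t₀ * t ∉ w.asIdeal := fun e =>
        (w.isPrime.mem_or_mem e).elim (fun e => hw.1 (hd w e)) hw.2
      have h2 : ¬ Dv m w := fun e => hw.1 (e.of_dvd hmn)
      have h3 : ζ ∉ w.asIdeal := (vl_coe_eq w ζ).1 ((od_eq_zero_iff w z0).1 (hU.od w))
      have h4 : (Ψ₀ * jacH t₀ * triv K n * jacH t) w.asIdeal = Ψ₀ w.asIdeal * leg (t₀ * t) w := by
        simp [jacH_apply, jac_prime, triv_cop ((cop_prime_iff w).2 hw.1), leg_mul, mul_assoc]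
      refine ⟨fun e => h2 (e.of_dvd m2'), fun e => ?_, ?_, by rw [h4, hchs _ w h2 h1]⟩
      · exact (w.isPrime.mem_or_mem (neg_mem_iff.1 e)).elim h3 fun e =>
          h1 (w.isPrime.mem_of_pow_mem 2 e)
      · rw [h4, norm_mul, hΨ₀.norm_cop _ ((cop_prime_iff w).2 h2), one_mul]
        rcases leg_of_not_mem h1 with e | e <;> simp [e]
  · have e := (mem_pr t1).1 hv
    rw [od_neg, od_mul v z0 (pow_ne_zero 2 (mul_ne_zero k0 k1)), hU.od, od_pow, od_mul v k0 k1,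
      od_zero (hc v e), od_eq hP.2, if_pos e]
    norm_num

end Pool.Agent.P.MP_b8021b_nt.BS
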