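import Pool.Agent.P.MP_b8021b_nt.BS.BasicD

/-! Cutting the integral and applying the functional equation. -/

namespace Pool.Agent.P.MP_b8021b_nt.BS

open NumberField IsDedekindDomain Finset MeasureTheory
open Pool.Agent.P.MP_b8021b_nt.VE Pool.Agent.P.MP_b8021b_nt.VC Pool.Agent.P.MP_b8021b_nt.BS.CF
open scoped Classical ComplexConjugate Real
variable {k : Type} [Field k] [NumberField k] [Algebra k ℂ] {K : Type} [Field K] [NumberField K] [Algebra k K]

namespace PCut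

/-- the substitution `u = b / τ` -/
theorem subst (h : ℝ → ℂ) {a b : ℝ} (ha : 0 < a) (hb : 0 < b)
    (hi : IntegrableOn (fun u => h u / u) (Set.Ioi (b / a))) :
    IntegrableOn (fun τ => h (b / τ) / τ) (Set.Ioo 0 a) ∧
      ∫ τ in Set.Ioo 0 a, h (b / τ) / τ = ∫ u in Set.Ioi (b / a), h u / u := by
  have him : (fun τ : ℝ => b / τ) '' Set.Ioo 0 a = Set.Ioi (b / a) := by
    ext u
    constructor
    · rintro ⟨τ, ⟨h0, h1⟩, rfl⟩
      exact div_lt_div_of_pos_left hb h0 h1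
    · intro hu
      have hu' : b / a < u := hu
      have hu0 : 0 < u := (div_pos hb ha).trans hu'
      refine ⟨b / u, ⟨div_pos hb hu0, ?_⟩, ?_⟩
      · rw [div_lt_iff₀ hu0]
        rw [div_lt_iff₀ ha] at hu'
        linarith
      · field_simp
  have hd : ∀ τ ∈ Set.Ioo (0 : ℝ) a,
      HasDerivWithinAt (fun τ : ℝ => b / τ) (-(b / τ ^ 2)) (Set.Ioo 0 a) τ := by
    intro τ hτ
    have := ((hasDerivAt_inv hτ.1.ne').const_mul b).hasDerivWithinAt (s := Set.Ioo 0 a)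
    simpa only [div_eq_mul_inv, mul_neg] using this
  have hinj : Set.InjOn (fun τ : ℝ => b / τ) (Set.Ioo 0 a) := by
    intro x hx y hy e
    have e' : b / x = b / y := e
    rw [div_eq_div_iff hx.1.ne' hy.1.ne'] at e'
    exact (mul_left_cancel₀ hb.ne' e').symm
  have he : ∀ τ ∈ Set.Ioo (0 : ℝ) a,
      |-(b / τ ^ 2)| • (h (b / τ) / ((b / τ : ℝ) : ℂ)) = h (b / τ) / τ := by
    intro τ hτ
    have h0 : (τ : ℂ) ≠ 0 := by exact_mod_cast hτ.1.ne'
    have h1 : (b : ℂ) ≠ 0 := by exact_mod_cast hb.ne'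
    rw [abs_neg, abs_of_pos (div_pos hb (pow_pos hτ.1 2)), Complex.real_smul]
    push_cast
    field_simp
  constructor
  · rw [← him, integrableOn_image_iff_integrableOn_abs_deriv_smul measurableSet_Ioo hd hinj] at hi
    exact hi.congr_fun he measurableSet_Ioo
  · rw [← him, integral_image_eq_integral_abs_deriv_smul measurableSet_Ioo hd hinj]
    exact (setIntegral_congr_fun measurableSet_Ioo he).symm

/-- the integral of a function that is cut -/
theorem cut (H : ℝ → ℂ) {P l : ℝ} (hP : 0 < P) (hl : 0 < l)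
    (hi : IntegrableOn (fun u => H u / u) (Set.Ioi (l / P))) :
    IntegrableOn (fun τ : ℝ => (if l ≤ τ * P then H τ else 0) / τ) (Set.Ioi 0) ∧
      ∫ τ in Set.Ioi (0 : ℝ), (if l ≤ τ * P then H τ else 0) / τ =
        ∫ u in Set.Ioi (l / P), H u / u := by
  have e : (fun τ : ℝ => (if l ≤ τ * P then H τ else 0) / τ) =
      (Set.Ici (l / P)).indicator fun u : ℝ => H u / u := by
    ext τ
    by_cases h : l ≤ τ * P
    · rw [if_pos h, Set.indicator_of_mem (Set.mem_Ici.2 ((div_le_iff₀ hP).2 h))]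
    · rw [if_neg h, zero_div, Set.indicator_of_notMem
        fun h' => h ((div_le_iff₀ hP).1 (Set.mem_Ici.1 h'))]
  have hs : Set.Ioi (0 : ℝ) ∩ Set.Ici (l / P) = Set.Ici (l / P) :=
    Set.inter_eq_right.2 fun x hx => (div_pos hl hP).trans_le hx
  rw [e]
  constructor
  · rw [integrableOn_indicator_iff measurableSet_Ici, Set.inter_comm, hs,
      integrableOn_Ici_iff_integrableOn_Ioi]
    exact hi
  · rw [setIntegral_indicator measurableSet_Ici, hs, integral_Ici_eq_integral_Ioi]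

/-- one member of the family -/
theorem one {m : ℕ} (g : ℝ → ℂ) (g' : Fin m → ℝ → ℂ) (γ : Fin m → ℂ) (c : Fin m → ℝ) (ε : ℂ)
    {P P' lm : ℝ} (hP : 0 < P) (hP' : 0 < P') (hl : 0 < lm) (hc : ∀ j, 0 < c j)
    (hg : ∀ x : ℝ, 0 < x → IntegrableOn (fun τ => g τ / τ) (Set.Ioi x) ∧
      ∀ j, IntegrableOn (fun τ => g' j τ / τ) (Set.Ioi x))
    (hf : ∀ τ, 0 < τ → g τ = ε * ∑ j, γ j * g' j (c j / (τ * (P * P'))))
    (h0 : ∫ τ in Set.Ioi (0 : ℝ), g τ / τ = 0) :
    (∫ τ in Set.Ioi (lm / P), g τ / τ) +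
      ∑ j, γ j * (ε * ∫ τ in Set.Ioi (c j / lm / P'), g' j τ / τ) = 0 := by
  have ha : 0 < lm / P := div_pos hl hP
  have hs : ∀ j, IntegrableOn (fun τ : ℝ => g' j (c j / (P * P') / τ) / τ) (Set.Ioo 0 (lm / P)) ∧
      ∫ τ in Set.Ioo 0 (lm / P), g' j (c j / (P * P') / τ) / τ =
        ∫ u in Set.Ioi (c j / lm / P'), g' j u / u := by
    intro j
    have hb : 0 < c j / (P * P') := div_pos (hc j) (mul_pos hP hP')
    have e : c j / lm / P' = c j / (P * P') / (lm / P) := by field_simp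
    rw [e]
    exact subst (g' j) ha hb ((hg _ (div_pos hb ha)).2 j)
  have he : ∀ τ ∈ Set.Ioo (0 : ℝ) (lm / P),
      (∑ j, γ j * (ε * (g' j (c j / (P * P') / τ) / τ))) = g τ / τ := by
    intro τ hτ
    rw [hf τ hτ.1, mul_sum, sum_div]
    refine sum_congr rfl fun j _ => ?_
    rw [div_div, mul_comm (P * P') τ]
    ring
  have hi : ∀ j ∈ (univ : Finset (Fin m)), Integrable
      (fun τ : ℝ => γ j * (ε * (g' j (c j / (P * P') / τ) / τ)))
      (volume.restrict (Set.Ioo 0 (lm / P))) :=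
    fun j _ => ((hs j).1.const_mul ε).const_mul (γ j)
  have h1 : IntegrableOn (fun τ : ℝ => g τ / τ) (Set.Ioo 0 (lm / P)) :=
    IntegrableOn.congr_fun (integrable_finsetSum _ hi) he measurableSet_Ioo
  have h2 : ∫ τ in Set.Ioo 0 (lm / P), g τ / τ =
      ∑ j, γ j * (ε * ∫ τ in Set.Ioi (c j / lm / P'), g' j τ / τ) := by
    rw [← setIntegral_congr_fun measurableSet_Ioo he, integral_finsetSum _ hi]
    refine sum_congr rfl fun j _ => ?_
    rw [integral_const_mul, integral_const_mul, (hs j).2]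
  rw [← h2, ← integral_Ioc_eq_integral_Ioo, add_comm,
    ← setIntegral_union (Set.Ioc_disjoint_Ioi le_rfl) measurableSet_Ioi
      ((integrableOn_Ioc_iff_integrableOn_Ioo enorm_ne_top).2 h1) (hg _ ha).1, Set.Ioc_union_Ioi_eq_Ioi ha.le, h0]

theorem NN_prod {ι : Type} (s : Finset ι) (ω : ι → 𝓞 K) :
    NN (sp (∏ i ∈ s, ω i)) = ∏ i ∈ s, NN (sp (ω i)) := by
  simp [NN, sp, ← Ideal.prod_span_singleton, map_prod]

/-- the average of a family, integrated -/
theorem av {ι : Type} [Fintype ι] [DecidableEq ι] (F : Fam K ι) (g : (ι → 𝓞 K) → ℝ → ℂ)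
    (hl : 0 < F.lam) (hT : ∀ i, ∀ t ∈ F.T i, t ≠ 0)
    (hg : ∀ ω ∈ Fintype.piFinset F.T, ∀ x : ℝ, 0 < x →
      IntegrableOn (fun τ => g ω τ / τ) (Set.Ioi x)) :
    IntegrableOn (fun τ : ℝ => F.av (fun ω => g ω τ) τ / τ) (Set.Ioi 0) ∧
      ∫ τ in Set.Ioi (0 : ℝ), F.av (fun ω => g ω τ) τ / τ =
        (∏ i, ((F.T i).card : ℂ))⁻¹ * ∑ ω ∈ Fintype.piFinset F.T, (∏ i, F.a i (ω i)) *
          ∫ u in Set.Ioi (F.lam / ∏ i ∈ F.E, NN (sp (ω i))), g ω u / u := by
  have hc : ∀ ω ∈ Fintype.piFinset F.T, _ := fun ω hω => by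
    have hP : 0 < ∏ i ∈ F.E, NN (sp (ω i)) := prod_pos fun i _ =>
      NN_pos (by simpa using hT i _ (Fintype.mem_piFinset.1 hω i))
    exact cut (g ω) hP hl (hg ω hω _ (div_pos hl hP))
  have e : (fun τ : ℝ => F.av (fun ω => g ω τ) τ / τ) = fun τ : ℝ =>
      (∏ i, ((F.T i).card : ℂ))⁻¹ * ∑ ω ∈ Fintype.piFinset F.T, (∏ i, F.a i (ω i)) *
        ((if F.lam ≤ τ * ∏ i ∈ F.E, NN (sp (ω i)) then g ω τ else 0) / τ) := by
    ext τ
    rw [Fam.av, mul_div_assoc, sum_div]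
    simp only [mul_div_assoc]
  have hi : ∀ ω ∈ Fintype.piFinset F.T, Integrable (fun τ : ℝ => (∏ i, F.a i (ω i)) *
      ((if F.lam ≤ τ * ∏ i ∈ F.E, NN (sp (ω i)) then g ω τ else 0) / τ))
      (volume.restrict (Set.Ioi 0)) := fun ω hω => (hc ω hω).1.const_mul _
  rw [e]
  refine ⟨(integrable_finsetSum _ hi).const_mul _, ?_⟩
  rw [integral_const_mul, integral_finsetSum _ hi]
  congr 1
  exact sum_congr rfl fun ω hω => by rw [integral_const_mul, (hc ω hω).2]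

end PCut

theorem x_cut (c : Ctx k K) : X_Cut K := by
  intro ι _ _ T E lm e m g g' γ d hl hd hT H
  have h1 := PCut.av (⟨T, fun _ _ => 1, E, lm⟩ : Fam K ι) g hl hT
    fun ω hω x hx => ((H ω hω).1 x hx).1
  have h2 : ∀ j, _ := fun j => PCut.av (⟨T, e, Eᶜ, d j / lm⟩ : Fam K ι) (g' j)
    (div_pos (hd j) hl) hT fun ω hω x hx => ((H ω hω).1 x hx).2 j
  refine ⟨h1.1, ?_⟩
  simp only [h1.2, fun j => (h2 j).2, prod_const_one, one_mul]
  have e1 : ∀ (z : ℂ) (u : Fin m → (ι → 𝓞 K) → ℂ),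
      ∑ j, γ j * (z * ∑ ω ∈ Fintype.piFinset T, u j ω) =
        z * ∑ ω ∈ Fintype.piFinset T, ∑ j, γ j * u j ω := by
    intro z u
    rw [sum_comm, mul_sum]
    exact sum_congr rfl fun j _ => by rw [← mul_sum]; ring
  rw [e1, ← mul_add, ← sum_add_distrib, sum_eq_zero, mul_zero]
  intro ω hω
  have hP : ∀ s : Finset ι, 0 < ∏ i ∈ s, NN (sp (ω i)) := fun s => prod_pos fun i _ =>
    NN_pos (by simpa using hT i _ (Fintype.mem_piFinset.1 hω i))
  refine PCut.one (g ω) (fun j => g' j ω) γ d _ (hP E) (hP Eᶜ) hl hd (H ω hω).1 ?_ (H ω hω).2.2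
  intro τ hτ
  rw [(H ω hω).2.1 τ hτ, PCut.NN_prod, prod_mul_prod_compl]

end Pool.Agent.P.MP_b8021b_nt.BS
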