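import Pool.Agent.P.MP_b8021b_nt.BS.BasicD

/-! Every dyadic block is covered by two large sieve inequalities. -/

namespace Pool.Agent.P.MP_b8021b_nt.BS

open NumberField IsDedekindDomain Finset MeasureTheory
open Pool.Agent.P.MP_b8021b_nt.VE Pool.Agent.P.MP_b8021b_nt.VC Pool.Agent.P.MP_b8021b_nt.BS.CF
open scoped Classical ComplexConjugate Real

variable {k : Type} [Field k] [NumberField k] [Algebra k ℂ] {K : Type} [Field K] [NumberField K]
  [Algebra k K]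

namespace PCv

theorem cost {Cs Cl N N' ts tl D m u a b v w : ℝ} (hCs : 0 ≤ Cs) (hCl : 0 ≤ Cl) (hN : 0 < N)
    (hN' : N' = N * 2) (ha : Real.exp a ≤ ts) (hb : Real.exp b ≤ tl)
    (hD : D ≤ 2 * Cl * Real.exp u) (hm : m ≤ Real.exp v) (h : (u - a - b) / 2 + v ≤ w) :
    √(Cs * N' * D / (N * ts * tl)) * m ≤ 2 * √(Cs * Cl) * Real.exp w := by
  have hts : 0 < ts := (Real.exp_pos a).trans_le ha
  have htl : 0 < tl := (Real.exp_pos b).trans_le hb
  have e1 : Real.exp u = Real.exp ((u - a - b) / 2) ^ 2 * Real.exp a * Real.exp b := by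
    rw [sq, ← Real.exp_add, ← Real.exp_add, ← Real.exp_add]; congr 1; ring
  have h1 : Cs * N' * D / (N * ts * tl) ≤ (2 * √(Cs * Cl) * Real.exp ((u - a - b) / 2)) ^ 2 := by
    rw [div_le_iff₀ (by positivity), mul_pow, mul_pow, Real.sq_sqrt (by positivity), hN']
    calc Cs * (N * 2) * D ≤ Cs * (N * 2) * (2 * Cl * Real.exp u) := by gcongr
      _ = 2 ^ 2 * (Cs * Cl) * Real.exp ((u - a - b) / 2) ^ 2 * (N * Real.exp a * Real.exp b) := by
        rw [e1]; ring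
      _ ≤ _ := by gcongr
  have h2 := Real.sqrt_le_iff.2 ⟨by positivity, h1⟩
  calc _ ≤ √(Cs * N' * D / (N * ts * tl)) * Real.exp v :=
        mul_le_mul_of_nonneg_left hm (Real.sqrt_nonneg _)
    _ ≤ 2 * √(Cs * Cl) * Real.exp ((u - a - b) / 2) * Real.exp v := by gcongr
    _ = 2 * √(Cs * Cl) * Real.exp ((u - a - b) / 2 + v) := by rw [Real.exp_add]; ring
    _ ≤ _ := by gcongr

theorem min_le {t v : ℝ} (h : 0 ≤ v ∨ t * (3 / 4) ≤ v) : min 1 (Real.exp t) ≤ Real.exp v := by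
  by_cases hv : 0 ≤ v
  · exact (min_le_left _ _).trans (Real.one_le_exp hv)
  · have := h.resolve_left hv
    exact (min_le_right _ _).trans (Real.exp_le_exp.2 (by linarith))

theorem pick {y : ℕ → ℝ} {G Q r L ν z e : ℝ} {p : ℕ} (hG : 21 ≤ G) (hr : 1 ≤ r) (hGr : 12 * r ≤ G)
    (hQ : G ≤ Q) (he : 0 < e) (heQ : e * Q ^ 3 = 1) (hL : 0 < L) (h0 : L ≤ y 0)
    (hy : ∀ j, y j * G ≤ y (j + 1) ∧ y (j + 1) ≤ y j * Q) (h2 : y 2 ≤ ν) (hp : 3 ≤ p)
    (hν : ν + L ≤ y p * (1 / 2 + 1 / (40 * r)))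
    (hz : 2 * z ≤ y (p - 1) * (1 / 20) + ∑ j ∈ range (p + 1), y j) :
    ∃ s l, s ≤ p ∧ l ≤ p ∧ Odd (s + l) ∧ y s * (6 * r) ≤ ν + L ∧
      ν + L ≤ y l * (1 / 2 + 1 / (40 * r)) ∧ ∃ u v, y l ≤ u ∧
        y l + (2 * (ν + L) - y l) * (3 / 4) ≤ u ∧ (0 ≤ v ∨ (z - ν) * (3 / 4) ≤ v) ∧
        (u - y s * (1 - e / 100) - y l * (1 - e / 100)) / 2 + v ≤ ν * (-(e / 20)) := by
  have pos : ∀ j, 0 < y j := fun j => by
    induction j with
    | zero => linarith
    | succ j ih => exact (mul_pos ih (by linarith)).trans_le (hy j).1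
  have h21 : ∀ j, 21 * y j ≤ y (j + 1) := fun j => by nlinarith [(hy j).1, pos j]
  have h12 : ∀ j, y j * (6 * r) ≤ y (j + 1) / 2 := fun j => by nlinarith [(hy j).1, pos j]
  have mono : Monotone y := monotone_nat_of_le_succ fun j => by linarith [h21 j, pos j]
  have hs : ∀ q, ∑ j ∈ range (q + 1), y j ≤ 21 / 20 * y q := fun q => by
    induction q with
    | zero => simp only [zero_add, range_one, sum_singleton]; linarith [pos 0]
    | succ q ih => rw [sum_range_succ]; linarith [h21 q]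
  have hQ1 : 1 ≤ Q := by linarith
  have h3 : ∀ j, e * y (j + 3) ≤ y j := fun j => by
    have a1 : y (j + 2) ≤ y j * Q * Q := (hy (j + 1)).2.trans (by gcongr; exact (hy j).2)
    have a2 : y (j + 3) ≤ y j * Q * Q * Q := (hy (j + 2)).2.trans (by gcongr)
    calc e * y (j + 3) ≤ e * (y j * Q * Q * Q) := by gcongr
      _ = y j * (e * Q ^ 3) := by ring
      _ = y j := by rw [heQ, mul_one]
  have h4 : ∀ j i, i ≤ j + 3 → e * y i ≤ y j := fun j i hi =>
    (mul_le_mul_of_nonneg_left (mono hi) he.le).trans (h3 j)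
  have hr0 : 0 ≤ 1 / (40 * r) := by positivity
  by_cases hA : ∃ l, l ≤ p ∧ ν + L ≤ y l / 2
  · have hl := Nat.find_spec hA
    have hmin : ∀ i, i < Nat.find hA → ¬ (i ≤ p ∧ ν + L ≤ y i / 2) := fun i => Nat.find_min hA
    generalize Nat.find hA = l at hl hmin
    have h3l : 3 ≤ l := by
      by_contra hc
      have := mono (show l ≤ 2 by omega)
      linarith [hl.2, pos l]
    obtain ⟨s, rfl⟩ : ∃ s, l = s + 3 := ⟨l - 3, by omega⟩
    have a1 : y (s + 2) / 2 < ν + L := not_le.1 fun h => hmin (s + 2) (by omega) ⟨by omega, h⟩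
    have a2 : e * ν ≤ e * (y (s + 3) / 2) := mul_le_mul_of_nonneg_left (by linarith [hl.2]) he.le
    refine ⟨s, s + 3, by omega, hl.1, ⟨s + 1, by ring⟩, ?_, ?_, y (s + 3), 0, le_rfl,
      by linarith [hl.2], Or.inl le_rfl, ?_⟩
    · linarith [h12 s, mono (show s + 1 ≤ s + 2 by omega)]
    · nlinarith [hl.2, pos (s + 3)]
    · linarith [h3 s, h4 s s (by omega), pos s]
  · obtain ⟨q, rfl⟩ : ∃ q, p = q + 1 := ⟨p - 1, by omega⟩
    have a1 : y (q + 1) / 2 < ν + L := not_le.1 fun h => hA ⟨_, le_rfl, h⟩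
    have a2 : 1 / (40 * r) ≤ 1 / 40 := by gcongr; linarith
    have a3 : e * ν ≤ e * y (q + 1) :=
      mul_le_mul_of_nonneg_left (by nlinarith [pos (q + 1)]) he.le
    have a4 : 441 * L ≤ y q := by linarith [h21 0, h21 1, mono (show 2 ≤ q by omega)]
    rw [sum_range_succ, Nat.add_sub_cancel] at hz
    refine ⟨q, q + 1, by omega, le_rfl, ⟨q, by ring⟩, by linarith [h12 q], hν, _, _,
      by linarith, le_rfl, Or.inr le_rfl, ?_⟩
    linarith [hs q, h4 q q (by omega), h4 q (q + 1) (by omega), pos q]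

end PCv

open PCv in
theorem x_cv (c : Ctx k K) (hLS0 : X_LS0 k K) (hLS1 : X_LS1 k K) : X_Cv k K := by
  intro n hn C₀ B hB
  obtain ⟨Cs, hCs, H0⟩ := hLS0 n hn
  obtain ⟨Cl, hCl, H1⟩ := hLS1 n hn C₀
  have hr := c.one_le_rk
  refine ⟨21 + 12 * rk k K, fun G hG => ?_⟩
  have hG21 : 21 ≤ G := by linarith
  have hQ : G ≤ G * B := by nlinarith
  have hQ0 : 0 < (G * B) ^ 3 := pow_pos (by linarith) 3
  have he : 0 < ((G * B) ^ 3)⁻¹ := inv_pos.2 hQ0
  refine ⟨((G * B) ^ 3)⁻¹ / 100, ((G * B) ^ 3)⁻¹ / 20, 2 * √(Cs * Cl), by positivity, by positivity,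
    by positivity, fun ζ h 𝒵 T Y hY0 hY j₀ p j₁ W h2 hp hW hW2 hj₁ j hj hj' => ?_⟩
  have hY1 : ∀ i, 1 ≤ Y i := fun i => by
    induction i with
    | zero => linarith
    | succ i ih => exact (Real.one_le_rpow ih (by linarith)).trans (hY i).1
  obtain ⟨y, rfl⟩ : ∃ y : ℕ → ℝ, Y = fun i => Real.exp (y i) :=
    ⟨fun i => Real.log (Y i), funext fun i => (Real.exp_log (by linarith [hY1 i])).symm⟩
  have hL : 0 < Real.log 2 := Real.log_pos one_lt_two
  have hN : (2 : ℝ) ^ j = Real.exp (j * Real.log 2) := by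
    rw [Real.exp_nat_mul, Real.exp_log two_pos]
  have hN' : (2 : ℝ) ^ (j + 1) = Real.exp (j * Real.log 2 + Real.log 2) := by
    rw [Real.exp_add, ← hN, Real.exp_log two_pos, pow_succ]
  have hZ0 : 0 < W * √(∏ i ∈ range (p + 1), Real.exp (y i)) :=
    mul_pos (by linarith) (Real.sqrt_pos.2 (prod_pos fun i _ => Real.exp_pos _))
  obtain ⟨z, hz⟩ : ∃ z, W * √(∏ i ∈ range (p + 1), Real.exp (y i)) = Real.exp z :=
    ⟨_, (Real.exp_log hZ0).symm⟩
  simp only [← Real.exp_mul, Real.exp_le_exp] at hY h2 hW2 hj₁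
  obtain ⟨s, l, hs, hl, hodd, b1, b2, u, v, b3, b4, b5, b6⟩ := pick (y := y) (z := z) (p := p)
    (ν := j * Real.log 2) hG21 hr (by linarith) hQ he (inv_mul_cancel₀ hQ0.ne') hL
    ((Real.log_le_iff_le_exp two_pos).2 hY0) (fun i => ⟨(hY i).1, (hY i).2.1⟩)
    (Real.exp_le_exp.1 (h2.trans ((pow_le_pow_right₀ one_le_two hj).trans hN.le))) hp
    (Real.exp_le_exp.1 (hN'.ge.trans ((pow_le_pow_right₀ one_le_two hj').trans hj₁))) (by
      rw [← Real.exp_le_exp, Real.exp_add, Real.exp_sum, two_mul, Real.exp_add, ← hz, ← sq, mul_pow,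
        Real.sq_sqrt (prod_nonneg fun i _ => (Real.exp_pos _).le)]
      exact mul_le_mul_of_nonneg_right hW2 (prod_nonneg fun i _ => (Real.exp_pos _).le))
  have hdv : ∀ t : 𝓞 K, ((n ^ 2 : ℕ) : 𝓞 K) ∣ t - 1 → (n : 𝓞 K) ∣ t - 1 := fun t ht =>
    (Nat.cast_dvd_cast (dvd_pow_self n two_ne_zero)).trans ht
  have Ss := (hY s).2.2
  have Sl := (hY l).2.2
  refine ⟨s, l, hs, hl, hodd, _, _, ?_, ?_,
    H0 (T s) _ (Real.exp (y s)) (2 ^ (j + 1)) (hY1 s) ?_
      (fun t ht => ⟨⟨hdv t (Ss.adm t ht).1.1, (Ss.adm t ht).1.2⟩, Ss.le t ht⟩) Ss.inj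
      fun I hI => ⟨(mem_sqf.1 hI).1.ne_zero, (mem_sqf.1 hI).2.2.le⟩,
    H1 (T l) _ (Real.exp (y l)) (2 ^ (j + 1)) (hY1 l) (by positivity) ?_
      (fun t ht => ⟨hdv t (Sl.adm t ht).1.1, Sl.bal t ht⟩)
      fun I hI => ⟨(mem_sqf.1 hI).1, (mem_sqf.1 hI).2.2.le⟩, ?_⟩
  · positivity
  · positivity
  · rw [hN', ← Real.exp_mul]; exact Real.exp_le_exp.2 b1
  · rw [hN', ← Real.exp_mul]; exact Real.exp_le_exp.2 b2
  have e1 : ((2 : ℝ) ^ j) ^ (-(((G * B) ^ 3)⁻¹ / 20)) =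
      Real.exp (j * Real.log 2 * (-(((G * B) ^ 3)⁻¹ / 20))) := by rw [hN, ← Real.exp_mul]
  rw [e1]
  refine cost (by linarith) (by linarith) (by positivity) (pow_succ 2 j)
    ((Real.exp_mul _ _).trans_le Ss.many) ((Real.exp_mul _ _).trans_le Sl.many) ?_ ?_ b6
  · rw [hN', sq, ← Real.exp_add, ← Real.exp_sub, ← Real.exp_mul, mul_assoc, mul_add, mul_one,
      ← Real.exp_add, mul_comm 2, mul_assoc]
    have d1 := Real.exp_le_exp.2 b3
    have d2 := Real.exp_le_exp.2 b4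
    rw [two_mul] at d2
    exact mul_le_mul_of_nonneg_left (by linarith) (by linarith)
  · beta_reduce
    rw [hz, hN, ← Real.exp_sub]
    exact min_le b5

end Pool.Agent.P.MP_b8021b_nt.BS
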