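import Pool.Agent.P.MP_b8021b_nt.BS.BasicD

/-! Many primes at which a unit is not a square, in every window `(X, X ^ B]`. -/

namespace Pool.Agent.P.MP_b8021b_nt.BS

open NumberField IsDedekindDomain Finset MeasureTheory
open Pool.Agent.P.MP_b8021b_nt.VE Pool.Agent.P.MP_b8021b_nt.VC Pool.Agent.P.MP_b8021b_nt.BS.CF
open scoped Classical ComplexConjugate Real
variable {k : Type} [Field k] [NumberField k] [Algebra k ℂ] {K : Type} [Field K] [NumberField K]
  [Algebra k K]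

namespace PDen2

theorem point {t r : ℝ} (ht : 0 ≤ t) (hr : 0 ≤ r) {P : Prop} [Decidable P]
    (hP : ¬ P → t ≤ 1 ∨ 1 ≤ r) :
    Real.exp (-(2 * r)) - Real.exp (-t) ≤ 3 * (Real.exp (-t) - Real.exp (-(2 * t))) +
      (Real.exp (-r) - Real.exp (-(2 * r))) + if P then 1 else 0 := by
  have e1 : Real.exp (-(2 * t)) = Real.exp (-t) ^ 2 := by rw [← Real.exp_nat_mul]; congr 1; ring
  have e2 : Real.exp (-(2 * r)) = Real.exp (-r) ^ 2 := by rw [← Real.exp_nat_mul]; congr 1; ring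
  have y0 := Real.exp_pos (-t)
  have z0 := Real.exp_pos (-r)
  have y1 : Real.exp (-t) ≤ 1 := Real.exp_le_one_iff.2 (by linarith)
  have z1 : Real.exp (-r) ≤ 1 := Real.exp_le_one_iff.2 (by linarith)
  have h3 : 1 / 3 ≤ Real.exp (-1) := by
    rw [Real.exp_neg, one_div]
    exact inv_anti₀ (Real.exp_pos 1) (Real.exp_one_lt_d9.le.trans (by norm_num))
  have h2 : Real.exp (-1) ≤ 1 / 2 := by
    rw [Real.exp_neg, one_div]
    exact inv_anti₀ two_pos (by linarith [Real.add_one_le_exp 1])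
  rw [e1, e2]
  split_ifs with h
  · nlinarith
  · rcases hP h with h | h
    · have : Real.exp (-1) ≤ Real.exp (-t) := Real.exp_le_exp.2 (by linarith)
      nlinarith [mul_nonneg (sub_nonneg.2 y1) (sub_nonneg.2 (h3.trans this))]
    · have : Real.exp (-r) ≤ Real.exp (-1) := Real.exp_le_exp.2 (by linarith)
      nlinarith

theorem window {a : ℕ → ℝ} {A C : ℝ} (h0 : ∀ q : ℕ, q.Prime → 0 ≤ a q)
    (hA : ∀ q : ℕ, q.Prime → |a q| ≤ A)
    (hC : ∀ s : ℝ, 1 < s → s ≤ 2 → |DS.ds a s - Real.log (1 / (s - 1)) / 2| ≤ C) :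
    ∃ B X₀ : ℝ, 1 ≤ B ∧ ∀ X, X₀ ≤ X → ∃ Q : Finset ℕ,
      (∀ q ∈ Q, q.Prime ∧ X < q ∧ (q : ℝ) ≤ X ^ B) ∧ 1 ≤ ∑ q ∈ Q, a q * (q : ℝ)⁻¹ := by
  have C0 : 0 ≤ C := (abs_nonneg _).trans (hC 2 one_lt_two le_rfl)
  set E := Real.exp (6 + 20 * C) with hE
  have E1 : 1 ≤ E := Real.one_le_exp (by linarith)
  refine ⟨2 * E, Real.exp 2, by linarith, fun X hX => ?_⟩
  have X0 : 0 < X := (Real.exp_pos 2).trans_le hX
  have hl : 2 ≤ Real.log X := (Real.le_log_iff_exp_le X0).2 hX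
  set l := Real.log X with hl'
  set Q := (range (⌊X ^ (2 * E)⌋₊ + 1)).filter fun q : ℕ => q.Prime ∧ X < q with hQ
  have mem : ∀ q : ℕ, q ∈ Q ↔ q.Prime ∧ X < q ∧ (q : ℝ) ≤ X ^ (2 * E) := fun q => by
    rw [hQ, mem_filter, mem_range, Nat.lt_succ_iff, Nat.le_floor_iff (by positivity)]
    tauto
  refine ⟨Q, fun q hq => (mem q).1 hq, ?_⟩
  set u := 1 / l with hu
  set w := 1 / (2 * E * l) with hw
  have l0 : 0 < l := by linarith
  have u0 : 0 < u := by positivity
  have w0 : 0 < w := by positivity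
  have u1 : u ≤ 1 / 2 := one_div_le_one_div_of_le two_pos hl
  have w1 : w ≤ 1 / 2 := one_div_le_one_div_of_le two_pos (by nlinarith)
  have D : ∀ x : ℝ, 0 < x → x ≤ 1 → |DS.ds a (1 + x) + Real.log x / 2| ≤ C := fun x x0 x1 => by
    have := hC (1 + x) (by linarith) (by linarith)
    rwa [add_sub_cancel_left, one_div, Real.log_inv, neg_div, sub_neg_eq_add] at this
  have S : ∀ x : ℝ, 0 < x → HasSum (fun q : Nat.Primes => a q * (q : ℝ) ^ (-(1 + x)))
      (DS.ds a (1 + x)) := fun x x0 => (DS.summable_ds hA (by linarith)).hasSum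
  have M : HasSum (fun q : Nat.Primes => if (q : ℕ) ∈ Q then a q * ((q : ℕ) : ℝ)⁻¹ else 0)
      (∑ q ∈ Q, a q * (q : ℝ)⁻¹) := by
    have := hasSum_sum_of_ne_finset_zero (s := Q.subtype Nat.Prime)
      (f := fun q : Nat.Primes => if (q : ℕ) ∈ Q then a q * ((q : ℕ) : ℝ)⁻¹ else 0)
      (L := SummationFilter.unconditional _) fun q hq => if_neg fun h => hq (mem_subtype.2 h)
    convert this using 1
    rw [← sum_subtype_of_mem (p := Nat.Prime) (fun q => a q * (q : ℝ)⁻¹) fun q hq => ((mem q).1 hq).1]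
    exact sum_congr rfl fun q hq => (if_pos (mem_subtype.1 hq)).symm
  have key := hasSum_le (fun q => ?_) ((S (2 * w) (by linarith)).sub (S u u0))
    (((((S u u0).sub (S (2 * u) (by linarith))).mul_left 3).add
      ((S w w0).sub (S (2 * w) (by linarith)))).add M)
  · have d1 := abs_le.1 (D (2 * w) (by linarith) (by linarith))
    have d2 := abs_le.1 (D u u0 (by linarith))
    have d3 := abs_le.1 (D (2 * u) (by linarith) (by linarith))
    have d4 := abs_le.1 (D w w0 (by linarith))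
    rw [Real.log_mul two_ne_zero w0.ne'] at d1
    rw [Real.log_mul two_ne_zero u0.ne'] at d3
    have e : Real.log u = Real.log 2 + Real.log w + (6 + 20 * C) := by
      rw [← Real.log_exp (6 + 20 * C), ← hE, ← Real.log_mul two_ne_zero w0.ne',
        ← Real.log_mul (by positivity) (by positivity), hu, hw]
      congr 1
      field_simp
    have l2 : Real.log 2 ≤ 1 := by linarith [Real.log_le_sub_one_of_pos two_pos]
    linarith [d1.1, d1.2, d2.1, d2.2, d3.1, d3.2, d4.1, d4.2]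
  · have q0 : (0 : ℝ) < (q : ℕ) := Nat.cast_pos.2 q.2.pos
    have L0 : 0 ≤ Real.log (q : ℕ) := Real.log_natCast_nonneg _
    have e : ∀ x : ℝ, ((q : ℕ) : ℝ) ^ (-(1 + x)) =
        ((q : ℕ) : ℝ)⁻¹ * Real.exp (-(x * Real.log (q : ℕ))) := fun x => by
      rw [neg_add, Real.rpow_add q0, Real.rpow_neg_one, Real.rpow_def_of_pos q0]
      congr 2
      ring
    have p := point (t := u * Real.log (q : ℕ)) (r := w * Real.log (q : ℕ)) (by positivity)
      (by positivity) (P := (q : ℕ) ∈ Q) fun h => by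
        rw [mem, not_and, not_and_or, not_lt, not_le] at h
        rcases h q.2 with h | h
        · left
          rw [hu, one_div, inv_mul_le_iff₀ l0, mul_one]
          exact Real.log_le_log q0 h
        · right
          rw [hw, one_div, le_inv_mul_iff₀ (by positivity), mul_one, hl', ← Real.log_rpow X0]
          exact Real.log_le_log (by positivity) h.le
    have b := mul_le_mul_of_nonneg_left p (mul_nonneg (h0 q q.2) (inv_nonneg.2 q0.le))
    simp only [e, mul_assoc]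
    split_ifs at b ⊢ <;> linarith

end PDen2

open PDen2 in
theorem x_den2 (c : Ctx k K) : X_Den2 K := by
  intro n ζ hn hζ
  have z0 : ζ ≠ 0 := fun e => hζ.ns (e ▸ IsSquare.zero)
  have ns : ¬ ∃ z : K, ζ = z ^ 2 := fun ⟨z, e⟩ => hζ.ns ⟨z, by rw [e, sq]⟩
  obtain ⟨j, χ, hj, hχ, hv, hlow⟩ := c.lib.chi K (2 * n) ζ c.om (by omega) (dvd_mul_right 2 n) z0
    fun v _ => by rw [hζ.od v]; exact dvd_zero _
  have hN : 2 ≤ (2 * n) ^ j := le_trans (by omega) (Nat.le_self_pow (by omega) _)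
  have nt : ¬ IsTriv ((2 * n) ^ j) χ := fun t => by
    obtain ⟨v, -, h1, h2⟩ := c.lib.c1 K 2 (2 * n) ζ c.om (Or.inl rfl) (by omega) ns
    have := t v.asIdeal ((cop_prime_iff v).2 fun h => h1 ((dv_pow v hj).1 h))
    rw [hv v h1, if_neg h2] at this
    norm_num at this
  obtain ⟨C1, h1⟩ := c.lib.i.den1 K c.om _ hN
  obtain ⟨C2, h2⟩ := c.lib.i.den2 K c.om _ χ hN hχ nt
  obtain ⟨C3, h3⟩ := hlow ns
  obtain ⟨A1, a1⟩ := DS.re_bdd c.lib.i.hl (DS.triv_isChar (E := K) ((2 * n) ^ j))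
  obtain ⟨A2, a2⟩ := DS.re_bdd c.lib.i.hl hχ.toIsChar
  set P : Ideal (𝓞 K) → Prop := fun I => ∃ v : Pl K, v.asIdeal = I ∧ ¬ Dv (2 * n) v ∧ ¬ LP 2 v ζ
    with hP
  set a : ℕ → ℝ := fun q => ((lam (triv K ((2 * n) ^ j)) q).re - (lam χ q).re) / 2 with ha
  have card : ∀ q : ℕ, q.Prime → a q = ((DS.idl K q).filter P).card := fun q hq => by
    simp only [ha, DS.lam_eq, Complex.re_sum]
    rw [← sum_sub_distrib, sum_div, ← sum_boole]
    refine sum_congr rfl fun I hI => ?_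
    obtain ⟨v, rfl⟩ := exists_pl (I := I) (by rwa [DS.mem_idl.1 hI])
    have e : P v.asIdeal ↔ ¬ Dv (2 * n) v ∧ ¬ LP 2 v ζ :=
      ⟨fun ⟨w, e, h⟩ => HeightOneSpectrum.ext e ▸ h, fun h => ⟨v, rfl, h⟩⟩
    have e' : Cop ((2 * n) ^ j) v.asIdeal ↔ ¬ Dv (2 * n) v := by rw [cop_prime_iff, dv_pow v hj]
    rw [DS.triv_apply]
    by_cases d : Dv (2 * n) v
    · rw [hχ.zero _ fun h => e'.1 h d, if_neg fun h => e'.1 h d, if_neg fun h => (e.1 h).1 d]
      simp
    · rw [hv v d, if_pos (e'.2 d)]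
      by_cases l : LP 2 v ζ
      · rw [if_pos l, if_neg fun h => (e.1 h).2 l]
        simp
      · rw [if_neg l, if_pos (e.2 ⟨d, l⟩)]
        norm_num
  obtain ⟨B, X₀, hB, hX⟩ := window (a := a) (A := (A1 + A2) / 2) (C := (C1 + |C2| + |C3|) / 2)
    (fun q hq => by rw [card q hq]; positivity)
    (fun q hq => by
      have := abs_le.1 (a1 q hq)
      have := abs_le.1 (a2 q hq)
      rw [abs_le, ha]
      constructor <;> linarith)
    fun s s1 s2 => by
      have e : DS.ds a s = (dsum (lam (triv K ((2 * n) ^ j))) s - dsum (lam χ) s) / 2 := by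
        unfold DS.ds dsum
        rw [← (DS.summable_ds a1 s1).tsum_sub (DS.summable_ds a2 s1), ← tsum_div_const]
        exact tsum_congr fun q => by rw [ha]; ring
      have := abs_le.1 (h1 s s1 s2)
      have := h2 s s1 s2
      have := h3 s s1 s2
      rw [e, abs_le]
      constructor <;> linarith [le_abs_self C2, le_abs_self C3, abs_nonneg C2, abs_nonneg C3]
  refine ⟨B, X₀, hB, fun X h => ?_⟩
  obtain ⟨Q, hQ, hs⟩ := hX X h
  refine ⟨(Q.biUnion fun q => (DS.idl K q).filter P).preimage (fun v : Pl K => v.asIdeal)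
    fun v _ w _ e => HeightOneSpectrum.ext e, fun v hv => ?_, hs.trans (le_of_eq ?_)⟩
  · obtain ⟨q, hq, hI⟩ := mem_biUnion.1 (mem_preimage.1 hv)
    obtain ⟨m1, w, e, m2, m3⟩ := mem_filter.1 hI
    obtain rfl := HeightOneSpectrum.ext e
    rw [NN, DS.mem_idl.1 m1]
    exact ⟨fun d => m2 (d.of_dvd (dvd_mul_left n 2)), m3, (hQ q hq).2⟩
  · rw [sum_preimage _ _ _ (fun I => (NN I)⁻¹) fun I hI hr => ?_, sum_biUnion fun q _ q' _ e => ?_]
    · refine sum_congr rfl fun q hq => ?_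
      rw [card q (hQ q hq).1, sum_congr rfl (g := fun _ => (q : ℝ)⁻¹) fun I hI => by
        rw [NN, DS.mem_idl.1 (mem_filter.1 hI).1], sum_const, nsmul_eq_mul]
    · refine disjoint_left.2 fun I h1 h2 => e ?_
      rw [← DS.mem_idl.1 (mem_filter.1 h1).1, DS.mem_idl.1 (mem_filter.1 h2).1]
    · obtain ⟨q, -, hI⟩ := mem_biUnion.1 hI
      obtain ⟨v, e, -⟩ := (mem_filter.1 hI).2
      exact absurd ⟨v, e⟩ hr

end Pool.Agent.P.MP_b8021b_nt.BS
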