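import Pool.Agent.P.MP_b8021b_nt.BS.BasicD

/-! A twist at which the square of the character is far from one. -/

namespace Pool.Agent.P.MP_b8021b_nt.BS

open NumberField IsDedekindDomain Finset MeasureTheory
open Pool.Agent.P.MP_b8021b_nt.VE Pool.Agent.P.MP_b8021b_nt.VC Pool.Agent.P.MP_b8021b_nt.BS.CF
open scoped Classical ComplexConjugate Real
variable {k : Type} [Field k] [NumberField k] [Algebra k ℂ] {K : Type} [Field K] [NumberField K]
  [Algebra k K]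

namespace PEV

theorem fin_norm (W : ℝ) : {v : Pl K | NN v.asIdeal < W}.Finite := by
  refine ((Ideal.finite_setOfPred_absNorm_le (S := 𝓞 K) ⌈W⌉₊).preimage
    (f := fun v : Pl K => v.asIdeal) fun v _ w _ e => HeightOneSpectrum.ext e).subset fun v hv => ?_
  exact Nat.cast_le.1 ((le_of_lt hv).trans (Nat.le_ceil W))

theorem prod_sub {ι : Type} (S : Finset ι) (a : ι → ℂ) {b : ℂ} {e : ℝ} (hb : ‖b‖ ≤ 1)
    (h : ∀ i ∈ S, ‖a i‖ ≤ 1 ∧ ‖a i - b‖ ≤ e) : ‖∏ i ∈ S, a i - b ^ S.card‖ ≤ S.card * e := by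
  induction S using Finset.induction_on with
  | empty => simp
  | insert i S hi ih =>
    have h1 := h i (mem_insert_self _ _)
    have h2 := ih fun j hj => h j (mem_insert_of_mem hj)
    have h3 : ‖b ^ S.card‖ ≤ 1 := by rw [norm_pow]; exact pow_le_one₀ (norm_nonneg _) hb
    rw [prod_insert hi, card_insert_of_notMem hi, show a i * ∏ j ∈ S, a j - b ^ (S.card + 1) =
      a i * (∏ j ∈ S, a j - b ^ S.card) + (a i - b) * b ^ S.card by ring]
    refine (norm_add_le _ _).trans ?_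
    rw [norm_mul, norm_mul]
    push_cast
    nlinarith [mul_le_of_le_one_left (norm_nonneg (∏ j ∈ S, a j - b ^ S.card)) h1.1,
      mul_le_of_le_one_right (norm_nonneg (a i - b)) h3, h1.2]

theorem isH_pow {n j : ℕ} {Ψ : Ideal (𝓞 K) →* ℂ} (h : IsP k n Ψ) (hj : j ≠ 0) :
    IsH k n (fun _ => j) 0 (Ψ ^ j) :=
  ⟨⟨fun I e => by simp [h.norm_cop I e], fun I e => by simp [h.zero I e, hj]⟩, by simp,
    fun α e => by rw [MonoidHom.pow_apply, h.prin α e, ty_const, ty_const, zpow_one, zpow_natCast]⟩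

theorem point {z : ℂ} (hz : ‖z‖ = 1) : 0 ≤ 3 + 4 * z.re + (z ^ 2).re ∧
    (‖z - 1‖ < 5 / 8 → 87 / 25 ≤ 4 * z.re + (z ^ 2).re) := by
  have h1 : z.re ^ 2 + z.im ^ 2 = 1 := by
    have := Complex.sq_norm z
    rw [hz, Complex.normSq_apply] at this
    linarith
  have h2 : (z ^ 2).re = 2 * z.re ^ 2 - 1 := by rw [sq z, Complex.mul_re]; linarith
  rw [h2]
  refine ⟨by nlinarith [sq_nonneg (z.re + 1)], fun h => ?_⟩
  have h3 := Complex.sq_norm (z - 1)
  rw [Complex.normSq_apply] at h3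
  simp only [Complex.sub_re, Complex.one_re, Complex.sub_im, Complex.one_im] at h3
  have h4 : 4 / 5 ≤ z.re := by nlinarith [norm_nonneg (z - 1)]
  nlinarith

/-- infinitely many inert places at which a power of the character is far from one -/
theorem inf (c : Ctx k K) {n m j : ℕ} {ζ : K} {Ψ : Ideal (𝓞 K) →* ℂ} (hn : 2 ≤ n) (h2 : 2 ∣ n)
    (hζ : Un ζ) (hΨ : IsP k n Ψ) (hm : m ≠ 0) (hnm : n ∣ m) (hj : j ≠ 0) :
    {v : Pl K | ¬ Dv m v ∧ ¬ LP 2 v ζ ∧ 5 / 8 ≤ ‖Ψ v.asIdeal ^ j - 1‖}.Infinite := by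
  intro hf
  have z0 : ζ ≠ 0 := fun e => hζ.ns (e ▸ IsSquare.zero)
  have ns : ¬ ∃ z : K, ζ = z ^ 2 := fun ⟨z, e⟩ => hζ.ns ⟨z, by rw [e, sq]⟩
  obtain ⟨i, χ, hi, hχ, hv, -⟩ := c.lib.chi K n ζ c.om hn h2 z0
    fun v _ => by rw [hζ.od v]; exact dvd_zero _
  have hN : 2 ≤ n ^ i := hn.trans (Nat.le_self_pow (by omega) _)
  have nt : ¬ IsTriv (n ^ i) χ := fun t => by
    obtain ⟨v, -, h1, h2⟩ := c.lib.c1 K 2 n ζ c.om (Or.inl rfl) (by omega) ns
    have := t v.asIdeal ((cop_prime_iff v).2 fun h => h1 ((dv_pow v hi).1 h))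
    rw [hv v h1, if_neg h2] at this
    norm_num at this
  obtain ⟨B, -⟩ := c.bf
  have ne : Nonempty (Emb k K) := Fintype.card_pos_iff.1 (c.card_emb ▸ Module.finrank_pos)
  have up : ∀ l : ℕ, l ≠ 0 → DS.Up (fun q => (lam (Ψ ^ l : Ideal (𝓞 K) →* ℂ) q).re) 0 :=
    fun l hl => DS.up_char c.lib.den c.lib.i.hl B hn (isH_pow hΨ hl) (c.not_triv hn (isH_pow hΨ hl)
      fun e => hl (by simpa using congrFun e ne.some))
  have u := ((((c.lib.i.up1 K c.om n hn).2.mul (c := 6 / 25) (by norm_num)).add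
    ((c.lib.i.up2 K c.om _ χ hN hχ nt).mul (c := 81 / 25) (by norm_num))).add
    ((up j hj).mul (c := 4) (by norm_num))).add (up (j * 2) (by omega))
  have u3 := u.nonneg (m := m * ∏ v ∈ hf.toFinset, Ideal.absNorm v.asIdeal)
    (mul_ne_zero hm (prod_ne_zero_iff.2 fun v _ e => v.ne_bot (Ideal.absNorm_eq_zero_iff.1 e)))
    fun q hq hd => by
      simp only [DS.lam_eq, Complex.re_sum, mul_neg, mul_sum, ← sum_neg_distrib, ← sum_add_distrib]
      refine sum_nonneg fun I hI => ?_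
      have e := DS.mem_idl.1 hI
      obtain ⟨v, rfl⟩ := exists_pl (I := I) (by rwa [e])
      have d : ¬ Dv m v := fun d => hd (e ▸ ((dv_iff_of_prime (v := v) (by rwa [e])).1 d).mul_right _)
      have d' : ¬ Dv n v := fun d' => d (d'.of_dvd hnm)
      have cp := (cop_prime_iff v).2 d'
      have p := point (z := Ψ v.asIdeal ^ j) (by simp [hΨ.norm_cop _ cp])
      rw [DS.triv_apply, if_pos cp, hv v d', MonoidHom.pow_apply, MonoidHom.pow_apply, pow_mul]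
      split_ifs with l
      · simp only [Complex.one_re]
        linarith [p.1]
      · have := p.2 (not_le.1 fun b => hd
          (e ▸ (dvd_prod_of_mem _ (hf.mem_toFinset.2 ⟨d, l, b⟩)).mul_left _))
        simp only [Complex.one_re, Complex.neg_re]
        linarith
  norm_num at u3

end PEV

open PEV in
theorem x_eV (c : Ctx k K) (hCls : X_Cls K) : X_EV k K := by
  intro n ζ Ψ hn h2 hζ hΨ m hm hnm
  obtain ⟨h, g, cl, h1, -, -, hS⟩ := hCls m (hn.trans (Nat.le_of_dvd (Nat.pos_of_ne_zero hm) hnm))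
  have hP := inf c hn h2 hζ hΨ hm hnm (j := 2 * h) (by omega)
  have h0 : (0 : ℝ) < h := by exact_mod_cast h1
  have b1 : ∀ I, ‖Ψ I ^ 2‖ ≤ 1 := fun I => by
    rw [norm_pow]; exact pow_le_one₀ (norm_nonneg _) (DS.norm_le_one hΨ.toIsChar I)
  obtain ⟨T, -, hT, hc⟩ := finite_cover_balls_of_compact (isCompact_closedBall (0 : ℂ) 1)
    (e := 1 / (16 * h)) (by positivity)
  have hi : ∃ i, ∃ z ∈ T, {v : Pl K | (¬ Dv m v ∧ ¬ LP 2 v ζ ∧
      5 / 8 ≤ ‖Ψ v.asIdeal ^ (2 * h) - 1‖) ∧ cl v.asIdeal = i ∧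
      ‖Ψ v.asIdeal ^ 2 - z‖ < 1 / (16 * h)}.Infinite := by
    by_contra e
    push Not at e
    refine hP ((Set.finite_iUnion fun i => hT.biUnion (e i)).subset fun v hv => ?_)
    obtain ⟨z, hz, e'⟩ := Set.mem_iUnion₂.1 (hc (mem_closedBall_zero_iff.2 (b1 v.asIdeal)))
    exact Set.mem_iUnion.2 ⟨_, Set.mem_iUnion₂.2 ⟨z, hz, hv, rfl, mem_ball_iff_norm.1 e'⟩⟩
  obtain ⟨i, z, -, hi⟩ := hi
  refine ⟨h, fun W => ?_⟩
  obtain ⟨S, hSs, hSe⟩ := (hi.sdiff (fin_norm W)).exists_subset_card_eq h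
  obtain ⟨t, ht, et⟩ := hS S hSe (fun v hv => (hSs hv).1.1.1)
    fun v hv w hw => (hSs hv).1.2.1.trans (hSs hw).1.2.1.symm
  obtain ⟨p, hp⟩ : S.Nonempty := card_pos.1 (by omega)
  have hsq : Squarefree (sp t) := et ▸ squarefree_eI _
  have hpr : ∀ v : Pl K, t ∈ v.asIdeal ↔ v ∈ S := fun v => by
    rw [← eI_le_iff, ← et, Ideal.span_singleton_le_iff_mem]
  have epr : pr t = S := ext fun v => by rw [mem_pr (ne_zero_of_sqf hsq), hpr]
  refine ⟨t, ⟨⟨ht, hsq⟩, fun v e => (hSs ((hpr v).1 e)).1.1.2.1⟩, ?_, by rw [epr, hSe],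
    fun v e => not_lt.1 (hSs (epr ▸ e)).2⟩
  have e1 := prod_sub S (fun v => Ψ v.asIdeal ^ 2) (e := 1 / (8 * h)) (b1 p.asIdeal) fun v hv =>
    ⟨b1 _, by
      have := norm_sub_le_norm_sub_add_norm_sub (Ψ v.asIdeal ^ 2) z (Ψ p.asIdeal ^ 2)
      rw [norm_sub_rev z] at this
      have e : (1 : ℝ) / (8 * h) = 1 / (16 * h) + 1 / (16 * h) := by field_simp; norm_num
      linarith [(hSs hv).1.2.2, (hSs hp).1.2.2]⟩
  have e2 := (hSs hp).1.1.2.2
  have e3 := norm_sub_le_norm_sub_add_norm_sub (Ψ p.asIdeal ^ (2 * h)) (Ψ (sp t) ^ 2) 1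
  rw [prod_pow, ← map_prod, ← eI, ← et, hSe, ← pow_mul, norm_sub_rev,
    show (h : ℝ) * (1 / (8 * h)) = 1 / 8 by field_simp] at e1
  linarith

end Pool.Agent.P.MP_b8021b_nt.BS
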