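import Pool.Agent.P.MP_b8021b_nt.BS.BasicD

/-! From sums over ideals to sums over elements. -/

namespace Pool.Agent.P.MP_b8021b_nt.BS

open NumberField IsDedekindDomain Finset MeasureTheory
open Pool.Agent.P.MP_b8021b_nt.VE Pool.Agent.P.MP_b8021b_nt.VC Pool.Agent.P.MP_b8021b_nt.BS.CF
open scoped Classical ComplexConjugate Real

variable {k : Type} [Field k] [NumberField k] [Algebra k ℂ] {K : Type} [Field K] [NumberField K]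
  [Algebra k K]

namespace PFE1

variable {n : ℕ} {Ψ : Ideal (𝓞 K) →* ℂ} {𝔠 : Ideal (𝓞 K)}

/-- the periodic coefficient attached to an ideal class -/
noncomputable def co (k : Type) [Field k] [NumberField k] [Algebra k ℂ] [Algebra k K]
    (Ψ : Ideal (𝓞 K) →* ℂ) (𝔠 : Ideal (𝓞 K)) (β : 𝓞 K) : ℂ :=
  if β ∈ 𝔠 then Ψ (quo β 𝔠) * conj (dP (emb k β)) else 0

theorem conj_mul {β : 𝓞 K} (h : β ≠ 0) : conj (dP (emb k β)) * dP (emb k β) = 1 := by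
  rw [mul_comm, Complex.mul_conj, Complex.normSq_eq_norm_sq, norm_dP (emb_ne_zero h)]
  simp

theorem step (hn : 2 ≤ n) (hΨ : IsP k n Ψ) (h0 : 𝔠 ≠ ⊥) (hc : (n : 𝓞 K) ∈ 𝔠) {β β' : 𝓞 K}
    (hβ : β ∈ 𝔠) (hβ' : β' ∈ 𝔠) (e : ((n ^ 2 : ℕ) : 𝓞 K) ∣ β' - β) (hI : Cop n (quo β 𝔠)) :
    Cop n (quo β' 𝔠) ∧
      Ψ (quo β 𝔠) * conj (dP (emb k β)) = Ψ (quo β' 𝔠) * conj (dP (emb k β')) := by
  have q := quo_mul (exists_quo hβ)
  have q' := quo_mul (exists_quo hβ')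
  obtain ⟨D, hD, hD1⟩ : ∃ D ∈ quo β 𝔠, (n : 𝓞 K) ∣ D - 1 := by
    obtain ⟨a, ha, b, hb, hab⟩ := Ideal.isCoprime_iff_exists.1 hI
    exact ⟨a, ha, by
      rw [show a - 1 = -b by linear_combination hab]
      exact (Ideal.mem_span_singleton.1 hb).neg_right⟩
  have b0 : β ≠ 0 := fun h => mul_ne_zero (Cop_ne_bot hn hI) h0 (by rw [q, h]; simp [sp])
  obtain ⟨b, hb⟩ : β ∣ D * n := Ideal.mem_span_singleton.1 (q.le (Ideal.mul_mem_mul hD hc))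
  obtain ⟨z, hz⟩ := e
  have ha : (D + b * n * z) * β = D * β' := by
    push_cast at hz
    linear_combination (-(n : 𝓞 K) * z) * hb - D * hz
  have a1 : (n : 𝓞 K) ∣ D + b * n * z - 1 := by
    rw [show D + b * n * z - 1 = D - 1 + n * (b * z) by ring]
    exact hD1.add (dvd_mul_right _ _)
  have hi : sp (D + b * (n : 𝓞 K) * z) * quo β 𝔠 = sp D * quo β' 𝔠 := mul_right_cancel₀ h0 (by
    rw [mul_assoc (sp _), mul_assoc (sp _), q, q', ← sp_mul, ← sp_mul, ha])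
  have hI' : Cop n (quo β' 𝔠) :=
    (cop_mul.1 (hi ▸ cop_mul.2 ⟨cop_span_of_dvd a1, hI⟩ : Cop n (sp D * quo β' 𝔠))).2
  have b0' : β' ≠ 0 := fun h => mul_ne_zero (Cop_ne_bot hn hI') h0 (by rw [q', h]; simp [sp])
  refine ⟨hI', ?_⟩
  have e1 := congrArg Ψ hi
  rw [map_mul, map_mul, hΨ.prin _ a1, hΨ.prin _ hD1, ← dP_eq_ty, ← dP_eq_ty] at e1
  have e2 := congrArg (fun x => dP (emb k x)) ha
  simp only [emb_mul, dP_mul] at e2
  have c1 := conj_mul (k := k) b0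
  have c2 := conj_mul (k := k) b0'
  have c3 := conj_mul (k := k) (ne_zero_of_dvd hn hD1)
  set A := dP (emb k (D + b * (n : 𝓞 K) * z))
  set B := dP (emb k β)
  set B' := dP (emb k β')
  set E := dP (emb k D)
  linear_combination (conj E * conj B' * conj B * B) * e1 -
    (conj E * conj B' * conj B * Ψ (quo β 𝔠)) * e2 - (Ψ (quo β 𝔠) * conj B * conj E * E) * c2 -
    (Ψ (quo β 𝔠) * conj B - Ψ (quo β' 𝔠) * conj B' * conj B * B) * c3 +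
    (Ψ (quo β' 𝔠) * conj B') * c1

theorem peri (hn : 2 ≤ n) (hΨ : IsP k n Ψ) (h0 : 𝔠 ≠ ⊥) (hc : (n : 𝓞 K) ∈ 𝔠) :
    Peri (sp ((n ^ 2 : ℕ) : 𝓞 K)) (co k Ψ 𝔠) := fun x y e => by
  have e1 := Ideal.mem_span_singleton.1 e
  have e2 : ((n ^ 2 : ℕ) : 𝓞 K) ∣ y - x := dvd_sub_comm.1 e1
  have m : ((n ^ 2 : ℕ) : 𝓞 K) ∈ 𝔠 := by
    rw [Nat.cast_pow, sq]; exact 𝔠.mul_mem_left _ hc
  have hxy : x ∈ 𝔠 ↔ y ∈ 𝔠 := (Submodule.sub_mem_iff_right _ · |>.1 (𝔠.mem_of_dvd e1 m)) |> fun f =>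
    ⟨f, fun h => (Submodule.sub_mem_iff_right _ h).1 (𝔠.mem_of_dvd e2 m)⟩
  unfold co
  by_cases hx : x ∈ 𝔠
  · rw [if_pos hx, if_pos (hxy.1 hx)]
    by_cases h1 : Cop n (quo x 𝔠)
    · exact (step hn hΨ h0 hc hx (hxy.1 hx) e2 h1).2
    · rw [hΨ.zero _ h1, hΨ.zero _ fun h2 => h1 (step hn hΨ h0 hc (hxy.1 hx) hx e1 h2).1]
      simp
  · rw [if_neg hx, if_neg fun h => hx (hxy.2 h)]

theorem norm_le (hΨ : IsP k n Ψ) (t β : 𝓞 K) :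
    ‖co k Ψ 𝔠 β * dP (emb k β) * jac β (sp t)‖ ≤ 1 := by
  have h1 : ‖co k Ψ 𝔠 β‖ ≤ 1 := by
    unfold co
    split_ifs
    · rw [norm_mul, Complex.norm_conj]
      exact mul_le_one₀ (hΨ.norm_le _) (norm_nonneg _) (norm_dP_le _)
    · simp
  rw [norm_mul, norm_mul]
  exact mul_le_one₀ (mul_le_one₀ h1 (norm_nonneg _) (norm_dP_le _)) (norm_nonneg _)
    (norm_jac_le _ _)

variable {m : ℕ} {ℓ : ℝ} {U : UB k K m ℓ} {J : ℝ} {t : 𝓞 K}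

/-- the coefficients at the multiples of `𝔠` -/
theorem CC_mul (hRec : X_Rec K) (hG : Good K n) (h0 : 𝔠 ≠ ⊥) (hc : (n : 𝓞 K) ∈ 𝔠)
    (ht : (n : 𝓞 K) ∣ t - 1)
    (hJ : ∀ α : 𝓞 K, α ≠ 0 → {κ : 𝓞 K | sp κ = sp α ∧ U.β (emb k κ) ≠ 0}.Finite ∧
      ∑ᶠ κ ∈ {κ : 𝓞 K | sp κ = sp α}, U.β (emb k κ) = J) {I : Ideal (𝓞 K)} (hI : I ≠ ⊥) :
    CC U (fun β => co k Ψ 𝔠 β * dP (emb k β) * jac β (sp t)) (I * 𝔠) =
      (if ∃ γ, I * 𝔠 = sp γ then 1 else 0) * (Ψ I * jac t I) * J := by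
  unfold CC
  split_ifs with h
  · obtain ⟨α, hα⟩ := h
    have ne : ∀ κ : 𝓞 K, sp κ = I * 𝔠 → κ ≠ 0 := fun κ e h =>
      mul_ne_zero hI h0 (by rw [← e, h]; simp [sp])
    obtain ⟨f1, f2⟩ := hJ α (ne α hα.symm)
    have e1 : ∀ κ ∈ {κ : 𝓞 K | sp κ = I * 𝔠},
        co k Ψ 𝔠 κ * dP (emb k κ) * jac κ (sp t) * (U.β (emb k κ) : ℝ) =
          (Ψ I * jac t I) * (U.β (emb k κ) : ℝ) := fun κ e => by
      have e : sp κ = I * 𝔠 := e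
      have hκ : κ ∈ 𝔠 := Ideal.mul_le_right (e.le (Ideal.mem_span_singleton_self κ))
      rw [co, if_pos hκ, quo_eq h0 e.symm, mul_assoc (Ψ I), conj_mul (ne κ e), mul_one,
        ← hRec t κ (hG.dvd8 ht) (ne κ e), e, jac_mul_right, jac_eq_one_of_mem h0 hc ht, mul_one]
    rw [finsum_mem_congr rfl e1, one_mul, ← f2, hα]
    have f3 : ({κ : 𝓞 K | sp κ = sp α} ∩ Function.support fun κ => U.β (emb k κ)).Finite := f1
    let g : ℝ →+ ℂ := (AddMonoidHom.mulLeft (Ψ I * jac t I)).comp Complex.ofRealHom.toAddMonoidHom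
    exact (g.map_finsum_mem' f3).symm
  · rw [zero_mul, zero_mul]
    exact finsum_mem_eq_zero_of_forall_eq_zero fun κ e => absurd ⟨κ, Eq.symm e⟩ h

theorem CC_zero {I : Ideal (𝓞 K)} (hI : I ∉ Set.range (· * 𝔠)) :
    CC U (fun β => co k Ψ 𝔠 β * dP (emb k β) * jac β (sp t)) I = 0 :=
  finsum_mem_eq_zero_of_forall_eq_zero fun κ e => by
    beta_reduce
    rw [co, if_neg fun h => hI ⟨_, (quo_mul (exists_quo h)).trans e⟩]
    simp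

end PFE1

open PFE1 in
theorem x_fE1 (c : Ctx k K) (hRec : X_Rec K) (hGood : X_Good K) (hKM : X_KM k K) (hThB : X_ThB K)
    (hGn : X_Gn k K) : X_FE1 k K := by
  intro n m ℓ U Ψ hG hΨ
  obtain ⟨ℛ, hR1, hR2⟩ := hGood.2 n hG
  obtain ⟨J, J0, hJ, -, -, hLT⟩ := hGn m ℓ U
  have h0 : ∀ 𝔠 ∈ ℛ, 𝔠 ≠ ⊥ := fun 𝔠 h e => by
    have := hR1 𝔠 h
    rw [e, Ideal.mem_bot] at this
    exact hG.pos (by exact_mod_cast this)
  refine ⟨ℛ, co k Ψ, fun 𝔠 => ((√(NN 𝔠) / J : ℝ) : ℂ), fun 𝔠 h =>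
    ⟨h0 𝔠 h, peri hG.two_le hΨ (h0 𝔠 h) (hR1 𝔠 h)⟩, fun t ht τ hτ => ?_⟩
  let T : Ideal (𝓞 K) → ℂ := fun I => Ψ I * jac t I * (√(NN I) * τ * kk U (τ * NN I) : ℝ)
  have hT : Summable T := by
    refine Summable.of_norm_bounded (((hThB _ (hKM m ℓ U).1).1 τ hτ).mul_left τ).abs fun I => ?_
    rw [norm_mul, norm_mul, Complex.norm_real, Real.norm_eq_abs,
      show √(NN I) * τ * kk U (τ * NN I) = τ * (√(NN I) * kk U (τ * NN I)) by ring]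
    exact mul_le_of_le_one_left (abs_nonneg _)
      (mul_le_one₀ (hΨ.norm_le _) (norm_nonneg _) (norm_jac_le _ _))
  have key : ∀ 𝔠 ∈ ℛ, ((√(NN 𝔠) / J : ℝ) : ℂ) *
      LT U (fun β => co k Ψ 𝔠 β * dP (emb k β) * jac β (sp t)) (τ / NN 𝔠) =
      ∑' I, (if ∃ γ, I * 𝔠 = sp γ then 1 else 0) * T I := fun 𝔠 h => by
    have N0 := NN_pos (h0 𝔠 h)
    rw [hLT _ 1 _ (norm_le hΨ t) (div_pos hτ N0), Th,
      ← Function.Injective.tsum_eq (g := (· * 𝔠)) (mul_left_injective₀ (h0 𝔠 h))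
        fun I hI => not_not.1 fun e => hI (by simp only [CC_zero e, zero_mul]), ← tsum_mul_left]
    refine tsum_congr fun I => ?_
    by_cases hI : I = ⊥
    · simp [T, hI, NN]
    have e : √(NN 𝔠) / J * (J * (√(NN (I * 𝔠)) * (τ / NN 𝔠) * kk U (τ / NN 𝔠 * NN (I * 𝔠)))) =
        √(NN I) * τ * kk U (τ * NN I) := by
      rw [NN_mul, Real.sqrt_mul (Nat.cast_nonneg _),
        show τ / NN 𝔠 * (NN I * NN 𝔠) = τ * NN I by field_simp]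
      have := Real.mul_self_sqrt N0.le
      field_simp
      linear_combination (√(NN I) * kk U (τ * NN I)) * this
    simp only [T]
    rw [CC_mul hRec hG (h0 𝔠 h) (hR1 𝔠 h) ht hJ hI, ← e]
    push_cast
    ring
  have hS : ∀ 𝔠 ∈ ℛ, Summable fun I => (if ∃ γ, I * 𝔠 = sp γ then 1 else 0) * T I := fun 𝔠 _ =>
    Summable.of_norm_bounded hT.norm fun I => by split_ifs <;> simp
  rw [sum_congr rfl key, ← Summable.tsum_finsetSum hS]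
  refine tsum_congr fun I => ?_
  change T I = _
  by_cases hI : I = ⊥
  · simp [T, hI, NN]
  obtain ⟨𝔠, ⟨h1, h2⟩, h3⟩ := hR2 I hI
  rw [sum_eq_single_of_mem 𝔠 h1 fun b hb ne => by
    rw [if_neg fun h => ne (h3 b ⟨hb, h⟩), zero_mul], if_pos h2, one_mul]

end Pool.Agent.P.MP_b8021b_nt.BS
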