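import Pool.Agent.P.MP_b8021b_nt.BS.BasicD

/-! A twist that is a non-residue for a given squarefree ideal. -/

namespace Pool.Agent.P.MP_b8021b_nt.BS

open NumberField IsDedekindDomain Finset MeasureTheory
open Pool.Agent.P.MP_b8021b_nt.VE Pool.Agent.P.MP_b8021b_nt.VC Pool.Agent.P.MP_b8021b_nt.BS.CF
open scoped Classical ComplexConjugate Real

variable {k : Type} [Field k] [NumberField k] [Algebra k ℂ] {K : Type} [Field K] [NumberField K]
  [Algebra k K]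

namespace PFV

theorem fin_norm (W : ℝ) : {v : Pl K | NN v.asIdeal < W}.Finite := by
  refine ((Ideal.finite_setOfPred_absNorm_le (S := 𝓞 K) ⌈W⌉₊).preimage
    (f := fun v : Pl K => v.asIdeal) fun v _ w _ e => HeightOneSpectrum.ext e).subset fun v hv => ?_
  exact Nat.cast_le.1 ((le_of_lt hv).trans (Nat.le_ceil W))

/-- a set of places with unbounded norms is infinite -/
theorem inf_of_unb {P : Set (Pl K)} (h : ∀ W : ℝ, ∃ v ∈ P, W < NN v.asIdeal) : P.Infinite := by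
  intro hf
  obtain ⟨B, hB⟩ := (hf.image fun v => NN v.asIdeal).bddAbove
  obtain ⟨v, hv, e⟩ := h B
  exact absurd (hB ⟨v, hv, rfl⟩) (not_le.2 e)

theorem exists_nonres {v : Pl K} (h2 : ¬ Dv 2 v) : ∃ δ : 𝓞 K, leg δ v = -1 := by
  obtain ⟨F, _, _, _, ρ, hs, hk, -⟩ := exists_res v
  have hc : ringChar F ≠ 2 := fun e => h2 ((hk _).1 (by
    have : ((2 : ℕ) : F) = 0 := (ringChar.spec F 2).2 (e ▸ dvd_rfl)
    rwa [map_natCast]))
  obtain ⟨a, ha⟩ := quadraticChar_exists_neg_one hc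
  obtain ⟨δ, rfl⟩ := hs a
  exact ⟨δ, by rw [leg_eq_quad ρ hs hk, ha]; simp⟩

omit [NumberField K] in
theorem not_mem_of_sub {a : 𝓞 K} {v : Pl K} (h : a - 1 ∈ v.asIdeal) : a ∉ v.asIdeal := fun e =>
  v.isPrime.ne_top ((Ideal.eq_top_iff_one _).2 (by simpa using v.asIdeal.sub_mem e h))

theorem cop_of_forall {M : ℕ} {a : 𝓞 K} (hM : M ≠ 0) (h : ∀ v : Pl K, Dv M v → a ∉ v.asIdeal) :
    Cop M (sp a) := by
  by_contra e
  obtain ⟨P, hP, hle⟩ := Ideal.exists_le_maximal _ (mt Ideal.isCoprime_iff_sup_eq.2 e)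
  have h1 : (M : 𝓞 K) ∈ P := hle (Ideal.mem_sup_right (Ideal.mem_span_singleton_self _))
  refine h ⟨P, hP.isPrime, fun e0 => ?_⟩ h1
    (hle (Ideal.mem_sup_left (Ideal.mem_span_singleton_self _)))
  rw [e0, Ideal.mem_bot] at h1
  exact Nat.cast_ne_zero.2 hM h1

/-- the auxiliary element -/
theorem exists_alpha {m M : ℕ} {𝔫 : Ideal (𝓞 K)} (hM : M ≠ 0) (h2 : 2 ∣ m) (hs : Squarefree 𝔫)
    (ht : 𝔫 ≠ ⊤) (hc : Cop m 𝔫) (hn : (M : 𝓞 K) ∈ 𝔫) :
    ∃ α : 𝓞 K, (m : 𝓞 K) ∣ α - 1 ∧ Cop M (sp α) ∧ jac α 𝔫 = -1 := by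
  obtain ⟨S, rfl⟩ := exists_eI hs
  obtain ⟨v₀, hv₀⟩ : S.Nonempty := nonempty_iff_ne_empty.2 fun e => ht (by simp [e, eI])
  have hm : ¬ Dv m v₀ := (cop_prime_iff v₀).1
    (IsCoprime.of_isCoprime_of_dvd_left hc (Ideal.dvd_iff_le.2 (eI_le_iff.2 hv₀)))
  obtain ⟨δ, hδ⟩ := exists_nonres fun e : Dv 2 v₀ => hm (e.of_dvd h2)
  set V := (finite_dv K hM).toFinset.erase v₀ with hV
  obtain ⟨a, ha, ha'⟩ := SetLike.not_le_iff_exists.1 (mt eI_le_iff.1 (notMem_erase v₀ _) :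
    ¬ eI V ≤ v₀.asIdeal)
  obtain ⟨y, b, hb, e⟩ := v₀.isMaximal.exists_inv (x := m * a)
    fun e => (v₀.isPrime.mem_or_mem e).elim hm ha'
  have e1 : δ * (y * (m * a)) + b - 1 = (m : 𝓞 K) * (a * (y * (δ - 1))) := by linear_combination e
  have e2 : δ * (y * (m * a)) + b - δ = b * (1 - δ) := by linear_combination δ * e
  have h0 : leg (δ * (y * ((m : 𝓞 K) * a)) + b) v₀ = -1 := by
    rw [← hδ]; exact leg_congr (e2 ▸ v₀.asIdeal.mul_mem_right _ hb)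
  have h1 : ∀ v : Pl K, Dv M v → v ≠ v₀ → δ * (y * ((m : 𝓞 K) * a)) + b - 1 ∈ v.asIdeal := by
    intro v hv hne
    rw [e1]
    exact v.asIdeal.mul_mem_left _ (v.asIdeal.mul_mem_right _
      (eI_le_iff.2 (mem_erase.2 ⟨hne, by simpa using hv⟩) ha))
  refine ⟨_, ⟨_, e1⟩, cop_of_forall hM fun v hv => ?_, ?_⟩
  · rcases eq_or_ne v v₀ with rfl | hne
    · rw [← leg_eq_zero, h0]; norm_num
    · exact not_mem_of_sub (h1 v hv hne)
  · rw [jac_eI, ← mul_prod_erase _ _ hv₀, h0, prod_eq_one, mul_one]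
    intro v hv
    rw [leg_congr (h1 v (eI_le_iff.2 (mem_of_mem_erase hv) hn) (ne_of_mem_erase hv)), leg_one]

/-- a ray class with infinitely many places at which `ζ` is not a square -/
theorem exists_class (hCls : X_Cls K) (hDen2 : X_Den2 K) {M : ℕ} {ζ : K} (hM : 2 ≤ M)
    (hζ : Un ζ) : ∃ p : Pl K, ¬ Dv M p ∧
      {v : Pl K | ¬ Dv M v ∧ ¬ LP 2 v ζ ∧ Ray M v.asIdeal p.asIdeal}.Infinite := by
  obtain ⟨-, g, cl, -, hcl, -⟩ := hCls M hM
  obtain ⟨B, X₀, -, hD⟩ := hDen2 M ζ (by omega) hζ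
  have hP : {v : Pl K | ¬ Dv M v ∧ ¬ LP 2 v ζ}.Infinite := inf_of_unb fun W => by
    obtain ⟨S, h1, h2⟩ := hD (max W X₀) (le_max_right _ _)
    obtain ⟨v, hv⟩ : S.Nonempty := nonempty_iff_ne_empty.2 fun e => by norm_num [e] at h2
    exact ⟨v, ⟨(h1 v hv).1, (h1 v hv).2.1⟩, (le_max_left _ _).trans_lt (h1 v hv).2.2.1⟩
  have hi : ∃ i, {v : Pl K | (¬ Dv M v ∧ ¬ LP 2 v ζ) ∧ cl v.asIdeal = i}.Infinite := by
    by_contra e
    push Not at e
    exact hP ((Set.finite_iUnion e).subset fun v hv => Set.mem_iUnion.2 ⟨_, hv, rfl⟩)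
  obtain ⟨i, hi⟩ := hi
  obtain ⟨p, hp, rfl⟩ := hi.nonempty
  exact ⟨p, hp.1, hi.mono fun v hv => ⟨hv.1.1, hv.1.2,
    (hcl _ _ ((cop_prime_iff v).2 hv.1.1) ((cop_prime_iff p).2 hp.1)).1 hv.2⟩⟩

/-- infinitely many primes in a ray class -/
theorem exists_inf (h : Z_PC) (hK : Om K) {M : ℕ} (hM : 2 ≤ M) {𝔠 : Ideal (𝓞 K)} (hc : Cop M 𝔠) :
    ∃ e : ℕ, Odd e ∧
      {q : Pl K | ∃ u : 𝓞 K, (M : 𝓞 K) ∣ u - 1 ∧ sp u = 𝔠 ^ e * q.asIdeal}.Infinite := by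
  obtain ⟨e, δ, he, hδ, hX⟩ := h K 2 M 𝔠 hK le_rfl hM hc
  refine ⟨e, Nat.not_even_iff_odd.1 (mt even_iff_two_dvd.1 he), fun hf => ?_⟩
  set N : ℝ := (hf.toFinset.card : ℝ)
  obtain ⟨X, 𝒬, h1, h2, h3⟩ := hX (⌈(2 * N / δ) ^ 2⌉₊ + 1)
  have h4 : (𝒬.card : ℝ) ≤ N :=
    Nat.cast_le.2 (card_le_card fun q hq => hf.mem_toFinset.2 (h3 q hq).2.2)
  have h5 : (2 * N / δ) ^ 2 < X :=
    (Nat.le_ceil _).trans_lt (by exact_mod_cast Nat.lt_of_succ_le h1)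
  have h6 : (0 : ℝ) < X := (sq_nonneg _).trans_lt h5
  have h7 := Real.lt_sqrt_of_sq_lt h5
  have h8 : Real.log X ≤ 2 * √X := by
    have := Real.log_le_sub_one_of_pos (Real.sqrt_pos.2 h6)
    rw [Real.log_sqrt h6.le] at this
    linarith
  rw [div_lt_iff₀ hδ] at h7
  have h9 := h2.trans (mul_le_mul h4 h8 (Real.log_natCast_nonneg X) (Nat.cast_nonneg _))
  nlinarith [Real.mul_self_sqrt h6.le, Real.sqrt_pos.2 h6]

omit [NumberField K] in
theorem ray_prod {M : ℕ} {p : Ideal (𝓞 K)} (S : Finset (Pl K))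
    (h : ∀ v ∈ S, Ray M v.asIdeal p) : Ray M (eI S) (p ^ S.card) := by
  induction S using Finset.induction_on with
  | empty => exact ⟨1, 1, one_ne_zero, one_ne_zero, by simp, by simp, by simp [eI]⟩
  | insert w S hw ih =>
    obtain ⟨a, b, a0, b0, ha, hb, e⟩ := h w (mem_insert_self _ _)
    obtain ⟨a', b', a0', b0', ha', hb', e'⟩ := ih fun v hv => h v (mem_insert_of_mem hv)
    refine ⟨a * a', b * b', mul_ne_zero a0 a0', mul_ne_zero b0 b0', dvd_mul_sub_one ha ha',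
      dvd_mul_sub_one hb hb', ?_⟩
    rw [eI, prod_insert hw, ← eI, card_insert_of_notMem hw, ← Ideal.span_singleton_mul_span_singleton,
      ← Ideal.span_singleton_mul_span_singleton, mul_mul_mul_comm, e, e', pow_succ',
      mul_mul_mul_comm]

theorem dvd_of_mul {R : Type*} [CommRing R] {m a b : R} (h : m ∣ a * b - 1) (hb : m ∣ b - 1) :
    m ∣ a - 1 := by
  rw [show a - 1 = a * b - 1 - a * (b - 1) by ring]
  exact h.sub (hb.mul_left _)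

end PFV

open PFV in
theorem x_fV (c : Ctx k K) (hCls : X_Cls K) (hDen2 : X_Den2 K) : X_FV K := by
  intro n ζ 𝔫 hn h8 hζ hs ht hc
  have h2 : 2 ∣ n := (by norm_num : 2 ∣ 8).trans h8
  obtain ⟨j, χ, hj, hχ, hv, -⟩ := c.lib.chi K 2 ζ c.om le_rfl dvd_rfl
    (fun e => hζ.ns (e ▸ IsSquare.zero)) fun v _ => by simp [hζ.od v]
  have hN : Ideal.absNorm 𝔫 ≠ 0 := fun e => hs.ne_zero (Ideal.absNorm_eq_zero_iff.1 e)
  set m := n * 2 ^ j with hm
  set M := m * Ideal.absNorm 𝔫 with hM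
  have m0 : m ≠ 0 := by positivity
  have M0 : M ≠ 0 := mul_ne_zero m0 hN
  have hmM : m ∣ M := dvd_mul_right _ _
  have h2m : 2 ∣ m := h2.mul_right _
  have M2 : 2 ≤ M := Nat.le_of_dvd (Nat.pos_of_ne_zero M0) (h2m.trans hmM)
  have hMn : (M : 𝓞 K) ∈ 𝔫 := by
    rw [hM, Nat.cast_mul]; exact 𝔫.mul_mem_left _ (Ideal.absNorm_mem _)
  obtain ⟨α, ha, hca, hja⟩ := exists_alpha M0 h2m hs ht
    (cop_mul_nat.2 ⟨hc, (cop_pow_nat hj).2 (Cop_of_dvd hc h2)⟩) hMn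
  obtain ⟨p, hp, hP⟩ := exists_class hCls hDen2 M2 hζ
  obtain ⟨e, he, hQ⟩ := exists_inf c.lib.pc c.om M2 (cop_mul.2 ⟨hca, (cop_prime_iff p).2 hp⟩)
  refine ⟨e + 1, fun W => ?_⟩
  obtain ⟨S, hS, hSe⟩ := (hP.sdiff (fin_norm W)).exists_subset_card_eq e
  obtain ⟨q, ⟨⟨u, hu, eu⟩, hqW⟩, hqS⟩ := (hQ.sdiff (fin_norm W)).exists_notMem_finset S
  obtain ⟨A, B, A0, -, hA, hB, eAB⟩ := ray_prod S fun v hv => (hS hv).1.2.2
  have α0 : α ≠ 0 := fun e0 => by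
    have := (jac_ne_zero_iff hs.ne_zero).1 (show jac α 𝔫 ≠ 0 by rw [hja]; norm_num)
    rw [e0, sp, Ideal.span_singleton_zero, ← Ideal.zero_eq_bot, isCoprime_zero_left] at this
    exact ht (Ideal.isUnit_iff.1 this)
  have key : sp (u * B) = sp (α ^ e * A) * eI (insert q S) := by
    rw [hSe] at eAB
    rw [sp_mul, sp_mul, eu, eI, prod_insert hqS, ← eI, mul_pow,
      show sp (α ^ e) = sp α ^ e from (Ideal.span_singleton_pow _ _).symm]
    calc _ = sp α ^ e * q.asIdeal * (p.asIdeal ^ e * sp B) := by ring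
      _ = _ := by rw [← eAB]; ring
  obtain ⟨t, et⟩ : α ^ e * A ∣ u * B :=
    Ideal.span_singleton_le_span_singleton.1 (Ideal.dvd_iff_le.1 ⟨_, key⟩)
  have hst : sp t = eI (insert q S) := by
    rw [et, sp_mul] at key
    exact mul_left_cancel₀ (by simp [α0, A0]) key
  have h1 : (M : 𝓞 K) ∣ t * α ^ e - 1 := dvd_of_mul (b := A)
    (by rw [show t * α ^ e * A = u * B by rw [et]; ring]; exact dvd_mul_sub_one hu hB) hA
  have h3 : (m : 𝓞 K) ∣ t - 1 := dvd_of_mul ((Nat.cast_dvd_cast hmM).trans h1)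
    (ha.trans (by simpa using sub_dvd_pow_sub_pow α 1 e))
  have hsq : Squarefree (sp t) := hst ▸ squarefree_eI _
  have hpr : ∀ v : Pl K, t ∈ v.asIdeal ↔ v ∈ insert q S := fun v => by
    rw [← eI_le_iff, ← hst, Ideal.span_singleton_le_iff_mem]
  have hq2 : ¬ Dv 2 q := fun e0 => not_mem_of_sub (q.asIdeal.mem_of_dvd h3 (e0.of_dvd h2m))
    ((hpr q).2 (mem_insert_self _ _))
  have hq : ¬ LP 2 q ζ := fun e0 => by
    have e1 := hχ.prin t ((Nat.cast_dvd_cast (dvd_mul_left _ _)).trans h3)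
    rw [show Ideal.span {t} = _ from hst, eI, map_prod, prod_insert hqS, hv q hq2, if_pos e0,
      prod_congr rfl fun v h => (hv v fun e2 => (hS h).1.1 (e2.of_dvd (h2m.trans hmM))).trans
        (if_neg (hS h).1.2.1), prod_const, hSe, he.neg_one_pow] at e1
    norm_num at e1
  have epr : pr t = insert q S := ext fun v => by rw [mem_pr (ne_zero_of_sqf hsq), hpr]
  refine ⟨t, ⟨⟨(Nat.cast_dvd_cast (dvd_mul_right _ _)).trans h3, hsq⟩, fun v h => ?_⟩, ?_,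
    by rw [epr, card_insert_of_notMem hqS, hSe], fun v h => ?_⟩
  · rcases mem_insert.1 ((hpr v).1 h) with rfl | h'
    · exact hq
    · exact (hS h').1.2.1
  · have e1 : jac (t * α ^ e) 𝔫 = 1 := jac_eq_one_of_mem hs.ne_zero hMn h1
    rw [jac_mul_left, jac_pow_left _ hs.ne_zero, hja, he.neg_one_pow] at e1
    linear_combination -e1
  · rcases mem_insert.1 (epr ▸ h) with rfl | h'
    · exact not_lt.1 hqW
    · exact not_lt.1 (hS h').2

end Pool.Agent.P.MP_b8021b_nt.BS
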