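import Pool.Agent.P.MP_b8021b_nt.BS.BasicD

/-! A set of twists at every scale. -/

namespace Pool.Agent.P.MP_b8021b_nt.BS

open NumberField IsDedekindDomain Finset MeasureTheory
open Pool.Agent.P.MP_b8021b_nt.VE Pool.Agent.P.MP_b8021b_nt.VC Pool.Agent.P.MP_b8021b_nt.BS.CF
open scoped Classical ComplexConjugate Real

variable {k : Type} [Field k] [NumberField k] [Algebra k ℂ] {K : Type} [Field K] [NumberField K]
  [Algebra k K]

namespace PFam

theorem ev (A B η : ℝ) (hA : 0 ≤ A) (hB : 0 ≤ B) (hη : 0 < η) :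
    ∃ X₁ : ℝ, ∀ X, X₁ ≤ X → A * (B * Real.log X / Real.log 2 + 1) ≤ X ^ η := by
  have h2 : 0 < Real.log 2 := Real.log_pos one_lt_two
  have he : 0 < η / 2 := half_pos hη
  obtain ⟨X₁, h⟩ := Filter.eventually_atTop.1
    ((tendsto_rpow_atTop he).eventually_ge_atTop (A * (B / (η / 2) / Real.log 2 + 1)))
  refine ⟨max X₁ 1, fun X hX => ?_⟩
  have h1 : 1 ≤ X := (le_max_right _ _).trans hX
  have h3 : 1 ≤ X ^ (η / 2) := Real.one_le_rpow h1 he.le
  have h4 : Real.log X ≤ X ^ (η / 2) / (η / 2) := Real.log_le_rpow_div (by linarith) he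
  have h5 : B * Real.log X / Real.log 2 + 1 ≤ (B / (η / 2) / Real.log 2 + 1) * X ^ (η / 2) := by
    have : B * Real.log X / Real.log 2 ≤ B * (X ^ (η / 2) / (η / 2)) / Real.log 2 := by gcongr
    calc _ ≤ B * (X ^ (η / 2) / (η / 2)) / Real.log 2 + X ^ (η / 2) := by linarith
      _ = _ := by ring
  calc _ ≤ A * ((B / (η / 2) / Real.log 2 + 1) * X ^ (η / 2)) := by gcongr
    _ = A * (B / (η / 2) / Real.log 2 + 1) * X ^ (η / 2) := by ring
    _ ≤ X ^ (η / 2) * X ^ (η / 2) := by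
      gcongr
      exact h X ((le_max_left _ _).trans hX)
    _ = X ^ η := by rw [← Real.rpow_add (by linarith), add_halves]

theorem choose_ge {p h : ℕ} {z : ℝ} (hh : 1 ≤ h) (hz : 1 ≤ z) (hp : 2 * h * z ≤ p) :
    z ^ h ≤ (p.choose h : ℝ) := by
  have h1 : (1 : ℝ) ≤ h := by exact_mod_cast hh
  have h2 : (h : ℝ) * z ≤ ((p + 1 - h : ℕ) : ℝ) := by
    have : h ≤ p + 1 := by
      have : (h : ℝ) ≤ p + 1 := by nlinarith
      exact_mod_cast this
    rw [Nat.cast_sub this]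
    push_cast
    nlinarith
  have h3 : ((h.factorial : ℕ) : ℝ) ≤ (h : ℝ) ^ h := by exact_mod_cast Nat.factorial_le_pow h
  have h4 : (0 : ℝ) < (h.factorial : ℕ) := by exact_mod_cast h.factorial_pos
  refine le_trans ?_ (Nat.pow_le_choose (α := ℝ) h p)
  rw [le_div_iff₀ h4]
  calc z ^ h * (h.factorial : ℕ) ≤ z ^ h * (h : ℝ) ^ h := by gcongr
    _ = (h * z) ^ h := by rw [mul_pow, mul_comm]
    _ ≤ _ := by gcongr

/-- a dyadic block with many places of one class -/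
theorem block {g : ℕ} (cl : Ideal (𝓞 K) → Fin g) (S : Finset (Pl K)) (L : ℕ)
    (hL : ∀ v ∈ S, Nat.log 2 (Ideal.absNorm v.asIdeal) ≤ L)
    (hS : 1 / 2 ≤ ∑ v ∈ S, (NN v.asIdeal)⁻¹) :
    ∃ (P : Finset (Pl K)) (y : ℝ), P ⊆ S ∧ P.Nonempty ∧
      (∀ v ∈ P, y ≤ NN v.asIdeal ∧ NN v.asIdeal ≤ 2 * y) ∧
      (∀ v ∈ P, ∀ w ∈ P, cl v.asIdeal = cl w.asIdeal) ∧ y ≤ 2 * (g * (L + 1)) * P.card := by
  have hg : 0 < g := Fin.pos (cl ⊤)
  have hD : (0 : ℝ) < g * (L + 1) := by positivity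
  obtain ⟨⟨a, m⟩, -, hb⟩ := exists_le_sum_fiber_of_maps_to_of_nsmul_le_sum
    (s := S) (t := (univ : Finset (Fin g)) ×ˢ range (L + 1))
    (f := fun v => (cl v.asIdeal, Nat.log 2 (Ideal.absNorm v.asIdeal)))
    (w := fun v => (NN v.asIdeal)⁻¹) (b := 1 / 2 / (g * (L + 1)))
    (fun v hv => mem_product.2 ⟨mem_univ _, mem_range.2 (Nat.lt_succ_of_le (hL v hv))⟩)
    ⟨(cl ⊤, 0), mem_product.2 ⟨mem_univ _, mem_range.2 (Nat.succ_pos L)⟩⟩ (by
      rw [card_product, card_univ, Fintype.card_fin, card_range, nsmul_eq_mul]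
      push_cast
      rwa [mul_div_cancel₀ _ hD.ne'])
  set P := S.filter fun v => (cl v.asIdeal, Nat.log 2 (Ideal.absNorm v.asIdeal)) = (a, m) with hP
  have hm : ∀ v ∈ P, (2 : ℝ) ^ m ≤ NN v.asIdeal ∧ NN v.asIdeal ≤ 2 * 2 ^ m := fun v hv => by
    have e : Nat.log 2 (Ideal.absNorm v.asIdeal) = m := (Prod.mk.inj (mem_filter.1 hv).2).2
    have h0 : Ideal.absNorm v.asIdeal ≠ 0 := by
      have := NN_pos v.ne_bot
      exact_mod_cast this.ne'
    have h1 := Nat.pow_log_le_self 2 h0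
    have h2 := (Nat.lt_pow_succ_log_self one_lt_two (Ideal.absNorm v.asIdeal)).le
    rw [e] at h1 h2
    rw [← pow_succ']
    exact ⟨by exact_mod_cast h1, by exact_mod_cast h2⟩
  refine ⟨P, 2 ^ m, filter_subset _ _, ?_, hm, fun v hv w hw => ?_, ?_⟩
  · by_contra hn
    rw [not_nonempty_iff_eq_empty.1 hn, sum_empty] at hb
    exact absurd hb (not_le.2 (by positivity))
  · exact (Prod.mk.inj (mem_filter.1 hv).2).1.trans (Prod.mk.inj (mem_filter.1 hw).2).1.symm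
  · have h1 : ∑ v ∈ P, (NN v.asIdeal)⁻¹ ≤ P.card • ((2 : ℝ) ^ m)⁻¹ :=
      sum_le_card_nsmul _ _ _ fun v hv => inv_anti₀ (by positivity) (hm v hv).1
    have h2 := hb.trans h1
    rw [nsmul_eq_mul, ← div_eq_mul_inv, div_le_div_iff₀ hD (by positivity)] at h2
    linarith

end PFam

open PFam in
theorem x_fam (c : Ctx k K) (hCls : X_Cls K) (hDen2 : X_Den2 K) (hBal2 : X_Bal2 k K) :
    X_Fam k K := by
  intro n ζ hn hζ
  obtain ⟨h, g, cl, hh, -, -, hcl⟩ := hCls n hn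
  obtain ⟨B, X₀, hB, hD⟩ := hDen2 n ζ (by omega) hζ
  obtain ⟨C, hC, hbal⟩ := hBal2 n (by omega)
  refine ⟨B + 1, C, h, by linarith, hC, hh, fun η hη => ?_⟩
  have h1 : (1 : ℝ) ≤ h := by exact_mod_cast hh
  have hη' : 0 < min η 1 := lt_min hη one_pos
  obtain ⟨X₁, hX₁⟩ := ev (8 * h * g) B (min η 1) (by positivity) (by linarith) hη'
  refine ⟨(max (max X₀ X₁) 4) ^ h, fun Y hY 𝒵 hZ => ?_⟩
  have hM : (0 : ℝ) ≤ max (max X₀ X₁) 4 := le_max_of_le_right (by norm_num)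
  obtain ⟨X, hX0, rfl⟩ : ∃ X : ℝ, 0 ≤ X ∧ X ^ h = Y := by
    have : 0 ≤ Y := (pow_nonneg hM h).trans hY
    exact ⟨Y ^ ((h : ℝ)⁻¹), by positivity, Real.rpow_inv_natCast_pow this (by omega)⟩
  rw [pow_le_pow_iff_left₀ hM hX0 (by omega), max_le_iff, max_le_iff] at hY
  obtain ⟨⟨hY0, hY1⟩, hX4⟩ := hY
  obtain ⟨S, hS, hsum⟩ := hD X hY0
  have hXp : 0 < X := by linarith
  have eB : (X ^ h) ^ (B + 1) = (X ^ (B + 1)) ^ h := by
    rw [← Real.rpow_natCast, ← Real.rpow_natCast, ← Real.rpow_mul hX0, ← Real.rpow_mul hX0,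
      mul_comm]
  have hB1 : 2 * X ^ B ≤ X ^ (B + 1) := by
    rw [Real.rpow_add_one hXp.ne', mul_comm]
    gcongr
    linarith
  have hB0 : 1 ≤ X ^ B := Real.one_le_rpow (by linarith) (by linarith)
  have hZ' : ∑ v ∈ S.filter (· ∈ 𝒵), (NN v.asIdeal)⁻¹ ≤ 1 / 2 := by
    have e : (X ^ h) ^ (1 / (4 * h : ℝ)) = X ^ (1 / 4 : ℝ) := by
      rw [← Real.rpow_natCast, ← Real.rpow_mul hX0]
      congr 1
      field_simp
    have h2 : ((S.filter (· ∈ 𝒵)).card : ℝ) ≤ X ^ (1 / 4 : ℝ) := by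
      refine le_trans ?_ (hZ.trans e.le)
      refine Nat.cast_le.2 (card_le_card fun v hv => mem_filter.2 ⟨(mem_filter.1 hv).2, ?_⟩)
      rw [eB]
      exact (hS v (mem_filter.1 hv).1).2.2.2.trans
        (le_trans (by linarith) (le_self_pow₀ (by linarith) (by omega)))
    have h3 : X ^ (1 / 4 : ℝ) ≤ X / 2 := by
      have h4 : X ^ (1 / 4 : ℝ) ≤ X ^ (1 / 2 : ℝ) :=
        Real.rpow_le_rpow_of_exponent_le (by linarith) (by norm_num)
      rw [← Real.sqrt_eq_rpow] at h4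
      refine h4.trans (Real.sqrt_le_iff.2 ⟨by linarith, by nlinarith⟩)
    calc _ ≤ (S.filter (· ∈ 𝒵)).card • X⁻¹ := sum_le_card_nsmul _ _ _ fun v hv =>
          inv_anti₀ hXp (hS v (mem_filter.1 hv).1).2.2.1.le
      _ ≤ X / 2 * X⁻¹ := by
        rw [nsmul_eq_mul]
        gcongr
        exact h2.trans h3
      _ = 1 / 2 := by field_simp
  have hl2 : 0 < Real.log 2 := Real.log_pos one_lt_two
  have hlX : 0 ≤ B * Real.log X / Real.log 2 := by
    have : 0 ≤ Real.log X := Real.log_nonneg (by linarith)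
    positivity
  obtain ⟨P, y, hPS, ⟨v₀, hv₀⟩, hy, hPc, hcard⟩ := block cl (S.filter (· ∉ 𝒵))
    ⌊B * Real.log X / Real.log 2⌋₊ (fun v hv => by
      have h0 : Ideal.absNorm v.asIdeal ≠ 0 := by
        have := NN_pos v.ne_bot
        exact_mod_cast this.ne'
      have h2 : (2 : ℝ) ^ Nat.log 2 (Ideal.absNorm v.asIdeal) ≤ NN v.asIdeal := by
        exact_mod_cast Nat.pow_log_le_self 2 h0
      have h3 := Real.log_le_log (by positivity) (h2.trans (hS v (mem_filter.1 hv).1).2.2.2)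
      rw [Real.log_pow, Real.log_rpow hXp] at h3
      exact Nat.le_floor ((le_div_iff₀ hl2).2 h3))
    (by linarith [sum_filter_add_sum_filter_not S (· ∈ 𝒵) fun v => (NN v.asIdeal)⁻¹])
  have hP : ∀ v ∈ P, v ∈ S ∧ v ∉ 𝒵 := fun v hv => mem_filter.1 (hPS hv)
  have hXy : X ≤ 2 * y := (hS v₀ (hP v₀ hv₀).1).2.2.1.le.trans (hy v₀ hv₀).2
  have hyX : y ≤ X ^ B := (hy v₀ hv₀).1.trans (hS v₀ (hP v₀ hv₀).1).2.2.2
  have hy0 : 0 < 2 * y := by linarith
  have ex : ∀ A : Finset (Pl K), ∃ t : 𝓞 K, A ∈ powersetCard h P → (n : 𝓞 K) ∣ t - 1 ∧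
      sp t = eI A ∧ ∀ φ, ‖emb k t φ‖ ^ 2 ≤ C * NN (eI A) ^ (1 / rk k K) := fun A => by
    by_cases hA : A ∈ powersetCard h P
    · obtain ⟨hAP, hAc⟩ := mem_powersetCard.1 hA
      obtain ⟨t, ht, e⟩ := hcl A hAc (fun v hv => (hS v (hP v (hAP hv)).1).1)
        fun v hv w hw => hPc v (hAP hv) w (hAP hw)
      obtain ⟨u, hu, hb⟩ := hbal t (ne_zero_of_sqf (e ▸ squarefree_eI A))
      refine ⟨u * t, fun _ => ⟨?_, ?_, fun φ => e ▸ (hb φ).1⟩⟩
      · have : (u : 𝓞 K) * t - 1 = (u - 1) * t + (t - 1) := by ring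
        rw [this]
        exact dvd_add (hu.mul_right _) ht
      · rw [← e]
        exact Ideal.span_singleton_mul_left_unit u.isUnit t
    · exact ⟨0, fun h => absurd h hA⟩
  choose f hf using ex
  have hsq : ∀ A ∈ powersetCard h P, Squarefree (sp (f A)) := fun A hA =>
    (hf A hA).2.1 ▸ squarefree_eI A
  have hmem : ∀ A ∈ powersetCard h P, ∀ v : Pl K, f A ∈ v.asIdeal ↔ v ∈ A := fun A hA v => by
    rw [← eI_le_iff, ← (hf A hA).2.1, Ideal.span_singleton_le_iff_mem]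
  have hpr : ∀ A ∈ powersetCard h P, pr (f A) = A := fun A hA => Finset.ext fun v => by
    rw [mem_pr (ne_zero_of_sqf (hsq A hA)), hmem A hA]
  have hN : ∀ A ∈ powersetCard h P, NN (eI A) ≤ (2 * y) ^ h := fun A hA => by
    obtain ⟨hAP, hAc⟩ := mem_powersetCard.1 hA
    have : NN (eI A) = ∏ v ∈ A, NN v.asIdeal := by simp [NN, eI]
    rw [this, ← hAc, ← prod_const]
    exact prod_le_prod (fun v _ => Nat.cast_nonneg _) fun v hv => (hy v (hAP hv)).2
  refine ⟨(2 * y) ^ h, (powersetCard h P).image f, by gcongr, ?_, ?_, ?_, ?_, ?_, ?_, ?_, ?_⟩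
  · rw [eB]
    gcongr
    linarith
  · refine forall_mem_image.2 fun A hA => ⟨⟨(hf A hA).1, hsq A hA⟩, fun v hv => ?_⟩
    exact (hS v (hP v ((mem_powersetCard.1 hA).1 ((hmem A hA v).1 hv))).1).2.1
  · refine forall_mem_image.2 fun A hA => ?_
    rw [hpr A hA, (mem_powersetCard.1 hA).2]
  · exact forall_mem_image.2 fun A hA => (hf A hA).2.1 ▸ hN A hA
  · refine forall_mem_image.2 fun A hA φ => ((hf A hA).2.2 φ).trans ?_
    have := c.one_le_rk
    gcongr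
    exact hN A hA
  · refine forall_mem_image.2 fun A hA v hv => ?_
    rw [hpr A hA] at hv
    have hv' := (mem_powersetCard.1 hA).1 hv
    refine ⟨le_trans ?_ (hy v hv').1, (hP v hv').2⟩
    have e : ((2 * y) ^ h) ^ (1 / (2 * h : ℝ)) = √(2 * y) := by
      rw [← Real.rpow_natCast, ← Real.rpow_mul hy0.le, Real.sqrt_eq_rpow]
      congr 1
      field_simp
    rw [e]
    exact Real.sqrt_le_iff.2 ⟨by linarith, by nlinarith⟩
  · intro t ht t' ht' e
    obtain ⟨A, hA, rfl⟩ := mem_image.1 (mem_coe.1 ht)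
    obtain ⟨A', hA', rfl⟩ := mem_image.1 (mem_coe.1 ht')
    rw [(hf A hA).2.1, (hf A' hA').2.1] at e
    rw [show A = A' from Finset.ext fun v => by rw [← eI_le_iff, e, eI_le_iff]]
  · rw [card_image_of_injOn fun A hA A' hA' e => by
      rw [← hpr A (mem_coe.1 hA), e, hpr A' (mem_coe.1 hA')], card_powersetCard]
    have hz : 1 ≤ (2 * y) ^ (1 - min η 1) :=
      Real.one_le_rpow (by linarith) (by linarith [min_le_right η 1])
    refine le_trans ?_ (choose_ge hh hz ?_)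
    · rw [← Real.rpow_natCast, ← Real.rpow_natCast, ← Real.rpow_mul hy0.le,
        ← Real.rpow_mul hy0.le]
      refine Real.rpow_le_rpow_of_exponent_le (by linarith) ?_
      nlinarith [min_le_left η 1]
    · have h2 : 8 * h * g * ((⌊B * Real.log X / Real.log 2⌋₊ : ℝ) + 1) ≤ (2 * y) ^ min η 1 := by
        refine le_trans ?_ ((hX₁ X hY1).trans (Real.rpow_le_rpow hX0 hXy hη'.le))
        gcongr
        exact Nat.floor_le hlX
      have h3 : 0 < (2 * y) ^ min η 1 := Real.rpow_pos_of_pos hy0 _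
      rw [Real.rpow_sub hy0, Real.rpow_one, ← mul_div_assoc, div_le_iff₀ h3]
      calc 2 * h * (2 * y) ≤ 2 * h * (2 * (2 * (g * (⌊B * Real.log X / Real.log 2⌋₊ + 1)) *
            P.card)) := by gcongr
        _ = P.card * (8 * h * g * ((⌊B * Real.log X / Real.log 2⌋₊ : ℝ) + 1)) := by ring
        _ ≤ _ := by gcongr

end Pool.Agent.P.MP_b8021b_nt.BS
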