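import Pool.Agent.P.MP_b8021b_nt.BS.BasicD

/-! Good moduli, representatives of the ideal classes, and ray classes. -/

namespace Pool.Agent.P.MP_b8021b_nt.BS

open NumberField IsDedekindDomain Finset MeasureTheory
open Pool.Agent.P.MP_b8021b_nt.VE Pool.Agent.P.MP_b8021b_nt.VC Pool.Agent.P.MP_b8021b_nt.BS.CF
open scoped Classical ComplexConjugate Real

variable {k : Type} [Field k] [NumberField k] [Algebra k ℂ] {K : Type} [Field K] [NumberField K]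
  [Algebra k K]

namespace PGood

omit [NumberField K] in
theorem cop_top (n : ℕ) : Cop n (⊤ : Ideal (𝓞 K)) := by
  rw [Cop, ← Ideal.one_eq_top]; exact isCoprime_one_left

omit [NumberField K] in
theorem cop_one (I : Ideal (𝓞 K)) : Cop 1 I := by
  rw [Cop, Nat.cast_one, Ideal.span_singleton_one, ← Ideal.one_eq_top]; exact isCoprime_one_right

theorem ne_bot {n : ℕ} (hn : 2 ≤ n) {I : Ideal (𝓞 K)} (h : Cop n I) : I ≠ ⊥ := by
  rintro rfl
  obtain ⟨v, hv⟩ := exists_dv K hn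
  have e := Ideal.isCoprime_iff_sup_eq.1 h
  rw [bot_sup_eq] at e
  exact v.isPrime.ne_top (top_le_iff.1 (e ▸ (Ideal.span_singleton_le_iff_mem _).2 hv))

/-- the trivial ray class consists of the ideals with a generator congruent to one -/
theorem ray_top {n : ℕ} {I : Ideal (𝓞 K)} (hI : I ≠ ⊥) :
    Ray n I ⊤ ↔ ∃ t : 𝓞 K, (n : 𝓞 K) ∣ t - 1 ∧ sp t = I := by
  constructor
  · rintro ⟨α, β, ha, -, h1, h2, e⟩
    rw [Ideal.top_mul] at e
    obtain ⟨t, rfl⟩ : α ∣ β := Ideal.mem_span_singleton.1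
      (Ideal.mul_le_right (e ▸ Ideal.mem_span_singleton_self β : β ∈ I * Ideal.span {α}))
    refine ⟨t, ?_, mul_right_cancel₀ (b := sp α) (by simpa using ha) ?_⟩
    · have : t - 1 = (α * t - 1) - t * (α - 1) := by ring
      exact this ▸ h2.sub (h1.mul_left t)
    · rw [← sp_mul, mul_comm, e]
  · rintro ⟨t, h1, rfl⟩
    exact ⟨1, t, one_ne_zero, by simpa using hI, by simp, h1, by simp⟩

/-- the ray class group -/
theorem ray (c : Ctx k K) {n : ℕ} (hn : 1 ≤ n) :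
    ∃ (G : Type) (_ : CommGroup G) (_ : Fintype G) (ρ : Ideal (𝓞 K) → G) (r : G → Ideal (𝓞 K)),
      (∀ I J, I ≠ ⊥ → J ≠ ⊥ → Cop n I → Cop n J → ρ (I * J) = ρ I * ρ J) ∧
      (∀ g, r g ≠ ⊥ ∧ Cop n (r g) ∧ ρ (r g) = g) ∧
      (∀ I J, I ≠ ⊥ → J ≠ ⊥ → Cop n I → Cop n J → (ρ I = ρ J ↔ Ray n I J)) ∧ ρ ⊤ = 1 ∧
      ∀ I, I ≠ ⊥ → Cop n I → (ρ I = 1 ↔ ∃ t : 𝓞 K, (n : 𝓞 K) ∣ t - 1 ∧ sp t = I) := by
  obtain ⟨G, i1, i2, ρ, hm, hs, hr, -⟩ := c.lib.ray K n hn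
  choose r hr' using fun g => hs g 1 le_rfl
  have h1 : ρ ⊤ = 1 := by
    have := hm ⊤ ⊤ top_ne_bot top_ne_bot (cop_top n) (cop_top n)
    rw [Ideal.top_mul] at this
    exact left_eq_mul.1 this
  refine ⟨G, i1, i2, ρ, r, hm, by simpa using hr', hr, h1, fun I hI hc => ?_⟩
  rw [← h1, hr I ⊤ hI top_ne_bot hc (cop_top n), ray_top hI]

/-- one integer lies in representatives of all the inverse ray classes -/
theorem reps (c : Ctx k K) {n : ℕ} (hn : 1 ≤ n) : ∃ N : ℕ, N ≠ 0 ∧ ∀ I : Ideal (𝓞 K), I ≠ ⊥ →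
    Cop n I → ∃ 𝔠 γ, (N : 𝓞 K) ∈ 𝔠 ∧ (n : 𝓞 K) ∣ γ - 1 ∧ I * 𝔠 = sp γ := by
  obtain ⟨G, _, _, ρ, r, hm, hr, -, -, h1⟩ := ray c hn
  refine ⟨∏ g, Ideal.absNorm (r g), prod_ne_zero_iff.2 fun g _ e =>
    (hr g).1 (Ideal.absNorm_eq_zero_iff.1 e), fun I hI hc => ?_⟩
  obtain ⟨a, b, e⟩ := hr (ρ I)⁻¹
  obtain ⟨t, ht, e'⟩ := (h1 _ (mul_ne_zero hI a) (IsCoprime.mul_left hc b)).1
    (by rw [hm _ _ hI a hc b, e, mul_inv_cancel])
  exact ⟨_, t, Ideal.mem_of_dvd _ (Nat.cast_dvd_cast (dvd_prod_of_mem _ (mem_univ _)))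
    (Ideal.absNorm_mem _), ht, e'.symm⟩

/-- a common denominator of the dual of the integers -/
theorem den (K : Type) [Field K] [NumberField K] :
    ∃ d : ℕ, d ≠ 0 ∧ ∀ ξ ∈ Dual (⊤ : Ideal (𝓞 K)), ∃ a : 𝓞 K, (d : K) * ξ = a := by
  obtain ⟨a, ha, h⟩ := (FractionalIdeal.dual ℤ ℚ
    (1 : FractionalIdeal (nonZeroDivisors (𝓞 K)) K)).isFractional
  refine ⟨Ideal.absNorm (sp a), fun e => nonZeroDivisors.ne_zero ha (by simpa using e),
    fun ξ hξ => ?_⟩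
  obtain ⟨b, hb⟩ := Ideal.mem_span_singleton'.1 (Ideal.absNorm_mem (sp a))
  have h1 : (1 : FractionalIdeal (nonZeroDivisors (𝓞 K)) K) ≠ 0 := one_ne_zero
  obtain ⟨x, hx⟩ := h ξ ((FractionalIdeal.mem_dual h1).2 fun y hy => by
    obtain ⟨z, rfl⟩ := (FractionalIdeal.mem_one_iff _).1 hy
    obtain ⟨m, hm⟩ := hξ z trivial
    exact ⟨m, hm.symm⟩)
  refine ⟨b * x, ?_⟩
  have e := congrArg (algebraMap (𝓞 K) K) hb
  rw [map_natCast, map_mul] at e
  rw [← e, mul_assoc, ← Algebra.smul_def a, ← hx, ← map_mul]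

end PGood

open PGood

theorem x_good (c : Ctx k K) : X_Good K := by
  refine ⟨fun m hm => ?_, fun n hn => ?_⟩
  · obtain ⟨d, hd, h⟩ := den K
    obtain ⟨N, hN, h1⟩ := reps c (le_refl 1)
    obtain ⟨M, hM, h8⟩ := reps c (n := 8) (by norm_num)
    refine ⟨m * 8 * d * N * M, ⟨8 * d * N * M, by ring⟩, by positivity, ⟨m * d * N * M, by ring⟩,
      fun ξ hξ => ?_, fun I hI => ?_, fun I hI => ?_⟩
    · obtain ⟨a, ha⟩ := h ξ hξ
      refine ⟨(m * 8 * N * M : ℕ) * a, ?_⟩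
      rw [RingOfIntegers.coe_eq_algebraMap, map_mul, map_natCast, ← RingOfIntegers.coe_eq_algebraMap,
        ← ha]
      push_cast; ring
    · obtain ⟨𝔠, γ, a, -, b⟩ := h1 I hI (cop_one I)
      exact ⟨𝔠, γ, 𝔠.mem_of_dvd (Nat.cast_dvd_cast ⟨m * 8 * d * M, by ring⟩) a, b⟩
    · obtain ⟨𝔠, γ, a, e, b⟩ := h8 I (ne_bot le_rfl hI) (by
        have := IsCoprime.pow_right (n := 3) hI
        rw [Ideal.span_singleton_pow, ← Nat.cast_pow] at this
        exact this)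
      exact ⟨𝔠, γ, 𝔠.mem_of_dvd (Nat.cast_dvd_cast (dvd_mul_left _ _)) a, by simpa using e, b⟩
  · obtain ⟨G, _, _, ρ, r, hm, hr, -, -, h1⟩ := ray c (le_refl 1)
    choose s γ hs e using fun g => hn.cr (r g) (hr g).1
    have h0 : ∀ g, s g ≠ ⊥ := fun g e => hn.pos (by simpa [e] using hs g)
    have hp : ∀ I g, I ≠ ⊥ → ((∃ γ, I * s g = sp γ) ↔ ρ I * ρ (s g) = 1) := fun I g hI => by
      rw [← hm _ _ hI (h0 g) (cop_one _) (cop_one _), h1 _ (mul_ne_zero hI (h0 g)) (cop_one _)]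
      simp [eq_comm]
    have hg : ∀ g, g * ρ (s g) = 1 := fun g => by
      simpa [(hr g).2.2] using (hp _ g (hr g).1).1 ⟨_, e g⟩
    refine ⟨univ.image s, fun 𝔠 h => ?_, fun I hI => ⟨s (ρ I), ⟨mem_image_of_mem _ (mem_univ _),
      (hp I _ hI).2 (hg _)⟩, fun 𝔠 ⟨h, h'⟩ => ?_⟩⟩
    · obtain ⟨g, -, rfl⟩ := mem_image.1 h
      exact hs g
    · obtain ⟨g, -, rfl⟩ := mem_image.1 h
      rw [mul_right_cancel (((hp I g hI).1 h').trans (hg g).symm)]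

theorem x_cls (c : Ctx k K) : X_Cls K := by
  intro n hn
  obtain ⟨G, _, _, ρ, r, hm, -, hr, ht, h1⟩ := ray c (one_le_two.trans hn)
  have hp : ∀ {ι : Type} (S : Finset ι) (f : ι → Ideal (𝓞 K)), (∀ i ∈ S, Cop n (f i)) →
      ρ (∏ i ∈ S, f i) = ∏ i ∈ S, ρ (f i) := fun S f h => by
    induction S using Finset.induction_on with
    | empty => simpa using ht
    | insert a S ha ih =>
      have c1 := h a (mem_insert_self _ _)
      have h' : ∀ i ∈ S, Cop n (f i) := fun i hi => h i (mem_insert_of_mem hi)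
      have c2 : Cop n (∏ i ∈ S, f i) := IsCoprime.prod_left h'
      rw [prod_insert ha, prod_insert ha, hm _ _ (ne_bot hn c1) (ne_bot hn c2) c1 c2, ih h']
  refine ⟨Fintype.card G, Fintype.card G, fun I => Fintype.equivFin G (ρ I), Fintype.card_pos,
    fun I J hI hJ => ?_, fun I hI => ?_, fun S hS h e => ?_⟩
  · rw [(Fintype.equivFin G).apply_eq_iff_eq, hr _ _ (ne_bot hn hI) (ne_bot hn hJ) hI hJ]
  · have c1 : Cop n (I ^ Fintype.card G) := IsCoprime.pow_left hI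
    refine (h1 _ (ne_bot hn c1) c1).1 ?_
    simpa [pow_card_eq_one] using hp (univ : Finset G) (fun _ => I) fun _ _ => hI
  · have h' : ∀ v ∈ S, Cop n v.asIdeal := fun v hv => (cop_prime_iff v).2 (h v hv)
    have c1 : Cop n (eI S) := IsCoprime.prod_left h'
    refine (h1 _ (ne_bot hn c1) c1).1 ?_
    obtain ⟨v, hv⟩ := card_pos.1 (hS ▸ Fintype.card_pos : 0 < S.card)
    rw [eI, hp S _ h', prod_congr rfl fun w hw => (Fintype.equivFin G).injective (e w hw v hv),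
      prod_const, hS, pow_card_eq_one]

end Pool.Agent.P.MP_b8021b_nt.BS
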