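import Pool.Agent.P.MP_b8021b_nt.BS.BasicD

/-! The main term of the average over a family. -/

namespace Pool.Agent.P.MP_b8021b_nt.BS

open NumberField IsDedekindDomain Finset MeasureTheory
open Pool.Agent.P.MP_b8021b_nt.VE Pool.Agent.P.MP_b8021b_nt.VC Pool.Agent.P.MP_b8021b_nt.BS.CF
open scoped Classical ComplexConjugate Real

variable {k : Type} [Field k] [NumberField k] [Algebra k ℂ] {K : Type} [Field K] [NumberField K]
  [Algebra k K]

namespace MainAux

variable {ι : Type} [Fintype ι] [DecidableEq ι]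

theorem wsum1 (ω : ι → 𝓞 K) :
    ∑ S ∈ (Fintype.piFinset fun i => (pr (ω i)).powerset).erase (fun _ => ∅),
      ∏ i, (NN (eI (S i)))⁻¹ = ∏ i, dv (ω i) - 1 := by
  have h0 : (fun _ => ∅ : ι → Finset (Pl K)) ∈ Fintype.piFinset fun i => (pr (ω i)).powerset :=
    Fintype.mem_piFinset.2 fun i => empty_mem_powerset _
  have := add_sum_erase _ (fun S : ι → Finset (Pl K) => ∏ i, (NN (eI (S i)))⁻¹) h0
  rw [← prod_univ_sum (fun i => (pr (ω i)).powerset) fun _ S => (NN (eI S))⁻¹] at this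
  simp only [← dv_eq_sum] at this
  rw [← this]
  simp [eI, NN]

theorem pc_sub (f : ℝ → ℝ) (C : Ideal (𝓞 K) → ℂ) (ω : ι → 𝓞 K) (τ : ℝ) :
    ‖pc f C ω ⊤ τ - bb f C ⊤ τ‖ ≤
      ∑ S ∈ (Fintype.piFinset fun i => (pr (ω i)).powerset).erase (fun _ => ∅),
        ‖((∏ i, (NN (eI (S i)))⁻¹ : ℝ) : ℂ) * bb f C (⊤ * (∏ i, eI (S i)) ^ 2) τ‖ := by
  have h0 : (fun _ => ∅ : ι → Finset (Pl K)) ∈ Fintype.piFinset fun i => (pr (ω i)).powerset :=
    Fintype.mem_piFinset.2 fun i => empty_mem_powerset _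
  rw [pc, ← add_sum_erase _ _ h0]
  have e : NN (⊤ : Ideal (𝓞 K)) = 1 := by simp [NN]
  have e1 : eI (∅ : Finset (Pl K)) = ⊤ := by simp [eI]
  have e2 : (⊤ : Ideal (𝓞 K)) * (∏ _i : ι, (⊤ : Ideal (𝓞 K))) ^ 2 = ⊤ := by
    simp [← Ideal.one_eq_top]
  simp only [jac_top, prod_const_one, e, Real.sqrt_one, inv_one, Complex.ofReal_one, one_mul, e1,
    card_empty, pow_zero, div_one, e2, add_sub_cancel_left]
  refine (norm_sum_le _ _).trans (sum_le_sum fun S _ => le_of_eq ?_)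
  simp [norm_prod]

end MainAux

open MainAux in
theorem x_main (_c : Ctx k K) (hPhi : X_Phi) : X_Main K := by
  intro η A hη hA
  obtain ⟨c₀, hc, H⟩ := hPhi η A hη hA
  refine ⟨c₀, hc, fun ι _ _ F σ Z f C A' hF hB ha => ?_⟩
  have hA' := hB.nonneg
  have e : NN (⊤ : Ideal (𝓞 K)) = 1 := by simp [NN]
  have d1 : ∀ 𝔫 : Ideal (𝓞 K), 𝔫 ≠ ⊥ → Dom (bb f C 𝔫) (A' * c₀) := fun 𝔫 h𝔫 => by
    have hM := NN_pos h𝔫
    refine ((H _ 1 hM one_pos).1 (fun τ => (ph η A (τ * NN 𝔫) : ℂ)) fun τ hτ => ?_).mul' hA'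
      fun τ hτ => ?_
    · rw [Complex.norm_real, Real.norm_of_nonneg (ph_nonneg _ _ (by positivity))]
    · rw [Complex.norm_real, Real.norm_of_nonneg (ph_nonneg _ _ (by positivity))]
      exact hB 𝔫 h𝔫 τ hτ
  have d2 : Dom (fun τ => if τ ≤ F.lam then bb f C ⊤ τ else 0) (A' * (c₀ * (F.lam * 1) ^ η)) := by
    refine ((H 1 _ one_pos hF.lam_pos).2.1
      (fun τ => ((if τ ≤ F.lam then ph η A (τ * 1) else 0 : ℝ) : ℂ)) fun τ hτ => ?_).mul' hA'
      fun τ hτ => ?_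
    · rw [Complex.norm_real, Real.norm_of_nonneg]
      split_ifs
      exacts [ph_nonneg _ _ (by positivity), le_rfl]
    · split_ifs
      · rw [Complex.norm_real, Real.norm_of_nonneg (ph_nonneg _ _ (by positivity))]
        simpa only [e] using hB ⊤ top_ne_bot τ hτ
      · simp
  set g := c₀ * A' * (∏ i, (1 + σ i) - 1 + F.lam ^ η) with hg
  have d3 : ∀ ω ∈ Fintype.piFinset F.T, Dom (fun τ =>
      (if F.lam ≤ τ * ∏ i ∈ F.E, NN (sp (ω i)) then pc f C ω ⊤ τ else 0) - bb f C ⊤ τ) g := by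
    intro ω hω
    have d4 := Dom.sum' ((Fintype.piFinset fun i => (pr (ω i)).powerset).erase (fun _ => ∅))
      (fun S _ => (d1 (⊤ * (∏ i, eI (S i)) ^ 2) (mul_ne_zero top_ne_bot (pow_ne_zero _
        (prod_ne_zero_iff.2 fun i _ => eI_ne_bot _)))).const_mul
          ((∏ i, (NN (eI (S i)))⁻¹ : ℝ) : ℂ)) (fun τ _ => pc_sub f C ω τ)
    refine (d4.add' d2 fun τ hτ => ?_).mono ?_
    · split_ifs with h1 h2 h2
      · exact le_add_of_nonneg_right (norm_nonneg _)
      · exact le_add_of_nonneg_right (norm_nonneg _)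
      · rw [zero_sub, norm_neg]; exact le_add_of_nonneg_left (norm_nonneg _)
      · exact absurd ((le_mul_of_one_le_right hτ.le (hF.one_le hω _)).trans (not_le.1 h1).le) h2
    · rw [← sum_mul, sum_congr rfl fun S _ => (Complex.norm_real _).trans
        (Real.norm_of_nonneg (prod_nonneg fun i _ => by positivity)), wsum1, hg, mul_one]
      have : ∏ i, dv (ω i) ≤ ∏ i, (1 + σ i) :=
        prod_le_prod (fun i _ => zero_le_one.trans (one_le_dv _))
          fun i _ => hF.dv_le i _ (Fintype.mem_piFinset.1 hω i)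
      have h0 : 0 ≤ A' * c₀ := by positivity
      nlinarith [mul_le_mul_of_nonneg_right this h0]
  have hN : (0 : ℝ) < (Fintype.piFinset F.T).card :=
    Nat.cast_pos.2 (Fintype.piFinset_nonempty.2 hF.ne).card_pos
  have hN' : (∏ i, ((F.T i).card : ℂ)) = ((Fintype.piFinset F.T).card : ℝ) := by
    simp [Fintype.card_piFinset]
  refine ((Dom.sum _ d3).mul' (inv_nonneg.2 hN.le) fun τ _ => le_of_eq ?_).mono (le_of_eq ?_)
  · rw [Fam.av, hN', sum_sub_distrib, sum_const, nsmul_eq_mul]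
    simp only [ha, prod_const_one, one_mul]
    rw [← Real.norm_of_nonneg (inv_nonneg.2 hN.le), ← Complex.norm_real, ← norm_mul]
    congr 1
    have : ((Fintype.piFinset F.T).card : ℂ) ≠ 0 := by exact_mod_cast hN.ne'
    push_cast
    field_simp
  · rw [sum_const, nsmul_eq_mul, ← mul_assoc, inv_mul_cancel₀ hN.ne', one_mul]

end Pool.Agent.P.MP_b8021b_nt.BS
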