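import Pool.Agent.P.MP_b8021b_nt.BS.BasicD

/-! The main term does not vanish. -/

namespace Pool.Agent.P.MP_b8021b_nt.BS

open NumberField IsDedekindDomain Finset MeasureTheory
open Pool.Agent.P.MP_b8021b_nt.VE Pool.Agent.P.MP_b8021b_nt.VC Pool.Agent.P.MP_b8021b_nt.BS.CF
open scoped Classical ComplexConjugate Real

variable {k : Type} [Field k] [NumberField k] [Algebra k ℂ] {K : Type} [Field K] [NumberField K]
  [Algebra k K]

namespace PMainP

open Filter Topology Asymptotics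

theorem cnt_ideal : Countable (Ideal (𝓞 K)) := by
  have : (Set.univ : Set (Ideal (𝓞 K))) = ⋃ n : ℕ, {I | Ideal.absNorm I = n} := by ext; simp
  rw [← Set.countable_univ_iff, this]
  exact Set.countable_iUnion fun n => (Ideal.finite_setOfPred_absNorm_eq n).countable

theorem ls_eq {C : Ideal (𝓞 K) → ℂ} {w a : ℂ} (hw : w ≠ 0)
    (h : HasSum (fun I => C I * (Ideal.absNorm I : ℂ) ^ (-w)) a) : LSeries (lam C) w = a := by
  rw [← (h.tsum_fiberwise fun I => Ideal.absNorm I).tsum_eq, LSeries]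
  refine tsum_congr fun n => ?_
  have hf := Ideal.finite_setOfPred_absNorm_eq (S := 𝓞 K) n
  have e : (fun I : Ideal (𝓞 K) => Ideal.absNorm I) ⁻¹' {n} = (hf.toFinset : Set _) := by
    ext I; simp
  rw [LSeries.term_of_ne_zero' hw, lam, finsum_mem_eq_finite_toFinset_sum _ hf, e,
    Finset.tsum_subtype' hf.toFinset fun I => C I * (Ideal.absNorm I : ℂ) ^ (-w), div_eq_mul_inv,
    ← Complex.cpow_neg, sum_mul]
  refine sum_congr rfl fun I hI => ?_
  rw [(hf.mem_toFinset.1 hI : Ideal.absNorm I = n)]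

theorem conv {f : ℝ → ℝ} (hf : Ker f) {w : ℝ} (hw : 0 < w) :
    IntegrableOn (fun x => x ^ w * f x) (Set.Ioi 0) := by
  obtain ⟨C, hC⟩ := hf.dec w hw
  obtain ⟨D, hD⟩ := hf.dec (w + 2) (by linarith)
  have hm : Measurable fun x : ℝ => x ^ w * f x := (measurable_id.pow_const w).mul hf.meas
  have key : ∀ {a E x : ℝ}, 0 < x → f x ≤ E * x ^ (-(w + a)) → ‖x ^ w * f x‖ ≤ E * x ^ (-a) :=
    fun {a E x} hx h => by
      have hp := Real.rpow_pos_of_pos hx w
      rw [Real.norm_of_nonneg (mul_pos hp (hf.pos x hx)).le, show -a = w + -(w + a) by ring,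
        Real.rpow_add hx, mul_left_comm]
      exact mul_le_mul_of_nonneg_left h hp.le
  rw [← Set.Ioc_union_Ioi_eq_Ioi zero_le_one]
  refine IntegrableOn.union ?_ ?_
  · refine Integrable.mono' (integrable_const C) hm.aestronglyMeasurable ?_
    refine (ae_restrict_iff' measurableSet_Ioc).2 (ae_of_all _ fun x hx => ?_)
    simpa using key (a := 0) hx.1 (by simpa using hC x hx.1)
  · refine Integrable.mono' ((integrableOn_Ioi_rpow_of_lt (a := -2) (by norm_num)
      one_pos).const_mul D) hm.aestronglyMeasurable ?_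
    refine (ae_restrict_iff' measurableSet_Ioi).2 (ae_of_all _ fun x hx => ?_)
    exact key (one_pos.trans hx) (hD x (one_pos.trans hx))

theorem low {f : ℝ → ℝ} (hf : Ker f) {w : ℝ} (hw : 0 < w) :
    f 2 ≤ ∫ x in Set.Ioi 0, x ^ w * f x := by
  have sub : Set.Ioc (1 : ℝ) 2 ⊆ Set.Ioi 0 := fun x hx => one_pos.trans hx.1
  calc f 2 = ∫ _ in Set.Ioc (1 : ℝ) 2, f 2 := by simp; norm_num
    _ ≤ ∫ x in Set.Ioc (1 : ℝ) 2, x ^ w * f x := by
      refine setIntegral_mono_on (by simp) ((conv hf hw).mono_set sub) measurableSet_Ioc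
        fun x hx => (hf.anti (sub hx) (two_pos : (0 : ℝ) < 2) hx.2).trans ?_
      exact le_mul_of_one_le_left (hf.pos x (sub hx)).le (Real.one_le_rpow hx.1.le hw.le)
    _ ≤ _ := by
      refine setIntegral_mono_set (conv hf hw) ?_ sub.eventuallyLE
      exact (ae_restrict_mem measurableSet_Ioi).mono fun x hx =>
        (mul_pos (Real.rpow_pos_of_pos hx w) (hf.pos x hx)).le

theorem mel (hCnt : X_Cnt K) {f : ℝ → ℝ} (hf : Ker f) {Ψ : Ideal (𝓞 K) →* ℂ}
    (hΨ : ∀ I, ‖Ψ I‖ ≤ 1) {w : ℝ} (hw : 0 < w) :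
    mellin (bb f Ψ ⊤) w =
      LSeries (lam (Ψ * Ψ)) ((1 + 2 * w : ℝ) : ℂ) * (∫ x in Set.Ioi 0, x ^ w * f x : ℝ) := by
  have : Countable (Ideal (𝓞 K)) := cnt_ideal
  set φ : ℝ → ℝ := fun x => x ^ w * f x with hφ
  set M : ℝ := ∫ x in Set.Ioi 0, φ x with hM
  set g : Ideal (𝓞 K) → ℝ → ℝ := fun I τ => τ ^ w * (NN I * f (τ * NN I ^ 2)) with hg
  have hsum := (hCnt.2 (1 + 2 * w) (by linarith)).1
  have hC : ∀ I, ‖(Ψ * Ψ) I‖ ≤ 1 := fun I => by
    rw [MonoidHom.mul_apply, norm_mul]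
    exact mul_le_one₀ (hΨ I) (norm_nonneg _) (hΨ I)
  have h0 : NN (⊥ : Ideal (𝓞 K)) = 0 := by simp [NN]
  have e1 : ∀ I : Ideal (𝓞 K), I ≠ ⊥ → ∀ τ ∈ Set.Ioi (0 : ℝ),
      NN I ^ (1 - 2 * w) * φ (NN I ^ 2 * τ) = g I τ := fun I hI τ hτ => by
    have hp := NN_pos hI
    have : NN I ^ (1 - 2 * w) * (NN I ^ 2) ^ w = NN I := by
      rw [← Real.rpow_natCast, ← Real.rpow_mul hp.le, ← Real.rpow_add hp]
      simp
    simp only [hφ, hg]
    rw [Real.mul_rpow (by positivity) (le_of_lt hτ), mul_comm (NN I ^ 2) τ, ← mul_assoc,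
      ← mul_assoc, this]
    ring
  have hint : ∀ I, IntegrableOn (g I) (Set.Ioi 0) := fun I => by
    by_cases hI : I = ⊥
    · simp [hg, hI, h0]
    · refine IntegrableOn.congr_fun (Integrable.const_mul ?_ _) (e1 I hI) measurableSet_Ioi
      exact (integrableOn_Ioi_comp_mul_left_iff φ 0 (pow_pos (NN_pos hI) 2)).2
        (by rw [mul_zero]; exact conv hf hw)
  have hval : ∀ I, ∫ τ in Set.Ioi 0, g I τ = NN I ^ (-(1 + 2 * w)) * M := fun I => by
    by_cases hI : I = ⊥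
    · simp only [hg, hI, h0, zero_mul, mul_zero, integral_zero]
      rw [Real.zero_rpow (by linarith), zero_mul]
    · have hp := NN_pos hI
      rw [← setIntegral_congr_fun measurableSet_Ioi (e1 I hI), integral_const_mul,
        integral_comp_mul_left_Ioi φ 0 (pow_pos hp 2), mul_zero, smul_eq_mul, ← mul_assoc,
        show -(1 + 2 * w) = (1 - 2 * w) + -((2 : ℕ) : ℝ) by push_cast; ring, Real.rpow_add hp,
        Real.rpow_neg hp.le, Real.rpow_natCast]
  have gpos : ∀ I, ∀ τ ∈ Set.Ioi (0 : ℝ), 0 ≤ g I τ := fun I τ hτ => by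
    by_cases hI : I = ⊥
    · simp [hg, hI, h0]
    · have hp := NN_pos hI
      have hτ : 0 < τ := hτ
      exact (mul_pos (Real.rpow_pos_of_pos hτ w) (mul_pos hp (hf.pos _ (by positivity)))).le
  have hnorm : Summable fun I => ∫ τ in Set.Ioi 0, ‖(Ψ * Ψ) I * (g I τ : ℂ)‖ := by
    refine Summable.of_nonneg_of_le (fun I => integral_nonneg fun _ => norm_nonneg _) (fun I => ?_)
      (hsum.mul_right M)
    rw [← hval I]
    refine setIntegral_mono_on ((hint I).ofReal.const_mul _).norm (hint I) measurableSet_Ioi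
      fun τ hτ => ?_
    rw [norm_mul, Complex.norm_real, Real.norm_of_nonneg (gpos I τ hτ)]
    exact mul_le_of_le_one_left (gpos I τ hτ) (hC I)
  have h1 := hasSum_integral_of_summable_integral_norm
    (F := fun I τ => (Ψ * Ψ) I * (g I τ : ℂ)) (μ := volume.restrict (Set.Ioi 0))
    (fun I => (hint I).ofReal.const_mul _) hnorm
  have h2 : ∫ τ in Set.Ioi 0, ∑' I, (Ψ * Ψ) I * (g I τ : ℂ) = mellin (bb f Ψ ⊤) w := by
    refine setIntegral_congr_fun measurableSet_Ioi fun τ hτ => ?_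
    have hτ : 0 < τ := hτ
    have e : (τ : ℂ) ^ ((w : ℂ) - 1) = ((τ ^ w / τ : ℝ) : ℂ) := by
      rw [← Real.rpow_sub_one hτ.ne', Complex.ofReal_cpow hτ.le]
      push_cast
      rfl
    simp only [bb, smul_eq_mul, ← tsum_mul_left, e]
    refine tsum_congr fun I => ?_
    rw [Ideal.top_mul, sq I, map_mul, MonoidHom.mul_apply, mul_left_comm, ← Complex.ofReal_mul,
      show NN (⊤ : Ideal (𝓞 K)) = 1 by simp [NN]]
    congr 2
    simp only [hg, mul_one]
    field_simp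
  have e2 : ∀ I : Ideal (𝓞 K), (Ideal.absNorm I : ℂ) ^ (-((1 + 2 * w : ℝ) : ℂ)) =
      ((NN I ^ (-(1 + 2 * w)) : ℝ) : ℂ) := fun I => by
    rw [Complex.ofReal_cpow (Nat.cast_nonneg _), Complex.ofReal_natCast, Complex.ofReal_neg]
  have h3 : Summable fun I => (Ψ * Ψ) I * (Ideal.absNorm I : ℂ) ^ (-((1 + 2 * w : ℝ) : ℂ)) := by
    refine Summable.of_norm_bounded hsum fun I => ?_
    have := Real.rpow_nonneg (Nat.cast_nonneg (Ideal.absNorm I)) (-(1 + 2 * w))
    rw [e2, norm_mul, Complex.norm_real, Real.norm_of_nonneg this]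
    exact mul_le_of_le_one_left this (hC I)
  rw [ls_eq (by exact_mod_cast (by linarith : 1 + 2 * w ≠ 0)) h3.hasSum, ← h2]
  refine h1.unique ((h3.hasSum.mul_right (M : ℂ)).congr_fun fun I => ?_)
  rw [integral_const_mul, integral_complex_ofReal, hval, e2, Complex.ofReal_mul, mul_assoc]

end PMainP

open PMainP Filter Topology Asymptotics in
theorem x_mainP (c : Ctx k K) (hCnt : X_Cnt K) (hThB : X_ThB K) (hPhi : X_Phi) : X_MainP K := by
  intro f Ψ A' η A c₀ hf hΨ hη hA hB hc hL h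
  have hm := ((hThB f hf).2.2 Ψ 1 hΨ).2.1 ⊤
  have hA' := hB.nonneg
  have hb : ∀ τ, 0 < τ → ‖bb f Ψ ⊤ τ‖ ≤ A' * min (τ ^ η) (τ ^ (-A)) := fun τ hτ => by
    simpa [ph, NN] using hB ⊤ top_ne_bot τ hτ
  have hb1 : ∀ τ, 0 < τ → ‖bb f Ψ ⊤ τ‖ ≤ A' * τ ^ η := fun τ hτ =>
    (hb τ hτ).trans (mul_le_mul_of_nonneg_left (min_le_left _ _) hA')
  have hb2 : ∀ τ, 0 < τ → ‖bb f Ψ ⊤ τ‖ ≤ A' * τ ^ (-A) := fun τ hτ =>
    (hb τ hτ).trans (mul_le_mul_of_nonneg_left (min_le_right _ _) hA')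
  have hl : LocallyIntegrableOn (bb f Ψ ⊤) (Set.Ioi 0) := fun x hx => by
    have hx : 0 < x := hx
    have sub : Set.Ioo 0 (2 * x) ⊆ Set.Ioi 0 := fun y hy => hy.1
    refine ⟨Set.Ioo 0 (2 * x),
      mem_nhdsWithin_of_mem_nhds (Ioo_mem_nhds hx (by linarith)), ?_⟩
    refine Integrable.mono' (integrable_const (A' * (2 * x) ^ η)) (hm.mono_set sub) ?_
    refine (ae_restrict_iff' measurableSet_Ioo).2 (ae_of_all _ fun y hy => (hb1 y hy.1).trans ?_)
    exact mul_le_mul_of_nonneg_left (Real.rpow_le_rpow hy.1.le hy.2.le hη.le) hA'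
  have hd : DifferentiableAt ℂ (mellin (bb f Ψ ⊤)) 0 := by
    refine mellin_differentiableAt_of_isBigO_rpow (a := A) (b := -η) hl ?_ (by simp; linarith) ?_
      (by simpa using hη)
    · refine IsBigO.of_bound A' ((eventually_gt_atTop 0).mono fun τ hτ => ?_)
      rw [Real.norm_of_nonneg (Real.rpow_nonneg hτ.le _)]
      exact hb2 τ hτ
    · refine IsBigO.of_bound A' (eventually_mem_nhdsWithin.mono fun τ hτ => ?_)
      rw [Real.norm_of_nonneg (Real.rpow_nonneg (le_of_lt hτ) _), neg_neg]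
      exact hb1 τ hτ
  have h0 : mellin (bb f Ψ ⊤) 0 = 0 := by
    refine Eq.trans (setIntegral_congr_fun measurableSet_Ioi fun τ _ => ?_) h
    simp [Complex.cpow_neg_one, div_eq_inv_mul]
  have ht : Tendsto (fun w : ℝ => ‖mellin (bb f Ψ ⊤) w‖) (𝓝[>] 0) (𝓝 0) := by
    have h1 : Tendsto (fun w : ℝ => (w : ℂ)) (𝓝[>] 0) (𝓝 0) :=
      (Complex.continuous_ofReal.tendsto' 0 0 (by simp)).mono_left nhdsWithin_le_nhds
    simpa [h0] using (hd.continuousAt.tendsto.comp h1).norm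
  refine absurd (ge_of_tendsto ht ?_) (not_le.2 (mul_pos hc (hf.pos 2 two_pos)))
  filter_upwards [Ioc_mem_nhdsGT (one_half_pos : (0 : ℝ) < 1 / 2)] with w hw
  have h2 := low hf hw.1
  rw [mel hCnt hf hΨ hw.1, norm_mul, Complex.norm_real,
    Real.norm_of_nonneg ((hf.pos 2 two_pos).le.trans h2)]
  exact mul_le_mul (hL _ (by linarith [hw.1]) (by linarith [hw.2])) h2 (hf.pos 2 two_pos).le
    (norm_nonneg _)

end Pool.Agent.P.MP_b8021b_nt.BS
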