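import Pool.Agent.P.MP_b8021b_nt.BS.BasicD

namespace Pool.Agent.P.MP_b8021b_nt.BS

open NumberField IsDedekindDomain Finset MeasureTheory
open Pool.Agent.P.MP_b8021b_nt.VE Pool.Agent.P.MP_b8021b_nt.VC Pool.Agent.P.MP_b8021b_nt.BS.CF
open scoped Classical ComplexConjugate Real

namespace PNum

variable {l : ℕ → ℝ} {G : ℝ}

lemma lin (h0 : 1 ≤ l 0) (hG : 2 ≤ G) (hs : ∀ j, G * l j ≤ l (j + 1)) (j : ℕ) :
    ((j : ℝ) + 1) * l 0 ≤ l j := by
  induction j with
  | zero => simp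
  | succ j ih =>
    have h1 : l 0 ≤ l j := by nlinarith [(Nat.cast_nonneg j : (0 : ℝ) ≤ j)]
    have h2 := hs j
    push_cast
    nlinarith

lemma one_le (h0 : 1 ≤ l 0) (hG : 2 ≤ G) (hs : ∀ j, G * l j ≤ l (j + 1)) (j : ℕ) :
    (j : ℝ) + 1 ≤ l j := by
  have := lin h0 hG hs j
  nlinarith [(Nat.cast_nonneg j : (0 : ℝ) ≤ j)]

lemma mono (h0 : 1 ≤ l 0) (hG : 2 ≤ G) (hs : ∀ j, G * l j ≤ l (j + 1)) : Monotone l := by
  refine monotone_nat_of_le_succ fun j => ?_
  have := one_le h0 hG hs j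
  have h2 := hs j
  nlinarith [(Nat.cast_nonneg j : (0 : ℝ) ≤ j)]

lemma sum_le (h0 : 1 ≤ l 0) (hG : 2 ≤ G) (hs : ∀ j, G * l j ≤ l (j + 1)) (p : ℕ) :
    G * ∑ j ∈ range p, l j ≤ 2 * l p := by
  induction p with
  | zero => simp; linarith
  | succ p ih =>
    rw [sum_range_succ]
    have h1 := one_le h0 hG hs p
    have h2 := hs p
    nlinarith [(Nat.cast_nonneg p : (0 : ℝ) ≤ p)]

lemma geo {r : ℝ} (h0 : 0 ≤ r) (h1 : r ≤ 1 / 2) (p : ℕ) :
    ∑ j ∈ range p, r ^ (j + 1) ≤ 2 * r - 2 * r ^ (p + 1) := by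
  induction p with
  | zero => simp
  | succ p ih =>
    rw [sum_range_succ, pow_succ r (p + 1)]
    nlinarith [pow_nonneg h0 (p + 1)]

lemma prod_le (h0 : 1 ≤ l 0) (hG : 2 ≤ G) (hs : ∀ j, G * l j ≤ l (j + 1)) {θ ε : ℝ} (h : ℕ)
    (hθ : 0 < θ) (hε : 0 < ε) (h1 : Real.exp (l 0 * -θ) ≤ 1 / 2)
    (h2 : 2 * h * Real.exp (l 0 * -θ) ≤ Real.log (1 + ε)) (p : ℕ) :
    ∏ j ∈ range (p + 1), (1 + Real.exp (l j * -θ)) ^ h ≤ 1 + ε := by
  set r := Real.exp (l 0 * -θ) with hr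
  have hr0 : 0 ≤ r := (Real.exp_pos _).le
  have e1 : ∀ j, Real.exp (l j * -θ) ≤ r ^ (j + 1) := fun j => by
    rw [hr, ← Real.exp_nat_mul]
    refine Real.exp_le_exp.2 ?_
    have := lin h0 hG hs j
    push_cast
    nlinarith
  calc ∏ j ∈ range (p + 1), (1 + Real.exp (l j * -θ)) ^ h
      ≤ ∏ j ∈ range (p + 1), Real.exp (h * r ^ (j + 1)) := by
        refine prod_le_prod (fun j _ => by positivity) fun j _ => ?_
        rw [Real.exp_nat_mul]
        refine pow_le_pow_left₀ (by positivity) ?_ h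
        linarith [Real.add_one_le_exp (r ^ (j + 1)), e1 j]
    _ = Real.exp (h * ∑ j ∈ range (p + 1), r ^ (j + 1)) := by rw [mul_sum, Real.exp_sum]
    _ ≤ Real.exp (Real.log (1 + ε)) := by
        refine Real.exp_le_exp.2 (le_trans ?_ h2)
        have := geo hr0 h1 (p + 1)
        nlinarith [pow_nonneg hr0 (p + 1 + 1), (Nat.cast_nonneg h : (0 : ℝ) ≤ h)]
    _ = 1 + ε := Real.exp_log (by linarith)

end PNum

open PNum in
theorem x_num : X_Num := by
  intro c h hc hh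
  have hh' : (1 : ℝ) ≤ h := by exact_mod_cast hh
  set θ : ℝ := 1 / (2 * h : ℝ) with hθ
  have hθ0 : 0 < θ := by positivity
  have hθ1 : θ * (2 * h) = 1 := by rw [hθ]; field_simp
  set A : ℝ := 2 + 3 / c with hA
  have hA1 : 2 ≤ A := by rw [hA]; linarith [show 0 < 3 / c by positivity]
  have hAc : A * c = 2 * c + 3 := by rw [hA]; field_simp
  clear_value A θ
  refine ⟨2 * h + 21 + 2 / c, A, by linarith, fun G ε hG hε => ?_⟩
  have hc2 : 0 < 2 / c := by positivity
  have hG2 : 2 ≤ G := by linarith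
  have hGc : 2 ≤ G * c := by
    have : 2 / c ≤ G := by linarith
    rwa [div_le_iff₀ hc] at this
  have hl : 0 < Real.log (1 + ε) := Real.log_pos (by linarith)
  set δ : ℝ := min (1 / 2) (Real.log (1 + ε) / (2 * h)) with hδ
  have hδ0 : 0 < δ := lt_min (by norm_num) (by positivity)
  refine ⟨Real.exp (max 1 (-Real.log δ / θ)), fun Y hY0 hY => ?_⟩
  have hpos : ∀ j, 1 ≤ Y j := fun j => by
    induction j with
    | zero => exact (Real.one_le_exp (le_trans zero_le_one (le_max_left _ _))).trans hY0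
    | succ j ih => exact (Real.one_le_rpow ih (by linarith)).trans (hY j)
  obtain ⟨l, rfl⟩ : ∃ l : ℕ → ℝ, Y = fun j => Real.exp (l j) :=
    ⟨fun j => Real.log (Y j), funext fun j => (Real.exp_log (by linarith [hpos j])).symm⟩
  simp only [← Real.exp_mul, Real.exp_le_exp, Real.exp_lt_exp, ← Real.exp_sum] at hY0 hY ⊢
  have h0 : 1 ≤ l 0 := (le_max_left _ _).trans hY0
  have hs : ∀ j, G * l j ≤ l (j + 1) := fun j => by rw [mul_comm]; exact hY j
  have h1 := one_le h0 hG2 hs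
  have h1' : ∀ j, 1 ≤ l j := fun j => by linarith [h1 j, (Nat.cast_nonneg j : (0 : ℝ) ≤ j)]
  have hm := mono h0 hG2 hs
  have hr : Real.exp (l 0 * -θ) ≤ δ := by
    rw [← Real.exp_log hδ0, Real.exp_le_exp]
    have := (le_max_right _ _).trans hY0
    rw [div_le_iff₀ hθ0] at this
    linarith
  refine ⟨fun j => by linarith [Real.add_one_le_exp (l j), h1' j], fun p => ?_, fun i j hij => ?_,
    fun W j₀ hW => ?_⟩
  · refine prod_le h0 hG2 hs h hθ0 hε (hr.trans (min_le_left _ _)) ?_ p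
    have := hr.trans (min_le_right _ _)
    rw [le_div_iff₀ (by positivity)] at this
    linarith
  · have e1 : l (i + 1) ≤ l j := hm hij
    have e2 := hs i
    have e3 := h1' i
    have e4 : (2 * h + 1) * l i ≤ l j := by nlinarith
    have e5 : θ * ((2 * h + 1) * l i) ≤ θ * l j := mul_le_mul_of_nonneg_left e4 hθ0.le
    nlinarith
  obtain ⟨w, hw, rfl⟩ : ∃ w, 0 ≤ w ∧ W = Real.exp w :=
    ⟨Real.log W, Real.log_nonneg hW, (Real.exp_log (by linarith)).symm⟩
  obtain ⟨e, rfl⟩ : ∃ e, ε = Real.exp e := ⟨Real.log ε, (Real.exp_log hε).symm⟩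
  obtain ⟨q, hq⟩ := exists_nat_ge (3 + 40 * w + 2 * h * w + A * w + A + 4 * |e| + 2 * j₀)
  have ha := abs_nonneg e
  have ha' := neg_abs_le e
  have hj : (0 : ℝ) ≤ j₀ := Nat.cast_nonneg _
  have hAw : 0 ≤ A * w := by positivity
  have hhw : 0 ≤ 2 * h * w := by positivity
  have hq1 := h1 q
  have hq2 : l q ≤ l (q + 1) := hm (Nat.le_succ q)
  have hl2 : 0 < Real.log 2 := Real.log_pos one_lt_two
  have hl3 : Real.log 2 ≤ 1 := by linarith [Real.log_le_sub_one_of_pos (show (0 : ℝ) < 2 by norm_num)]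
  set L := l (q + 1) with hL
  have hL0 : 0 ≤ L := by linarith
  set j₁ := ⌊L * (1 / 2 + c) / Real.log 2⌋₊ with hj₁
  have f1 : j₁ * Real.log 2 ≤ L * (1 / 2 + c) := by
    rw [← le_div_iff₀ hl2]; exact Nat.floor_le (by positivity)
  have f2 : L * (1 / 2 + c) ≤ (j₁ + 1) * Real.log 2 := by
    rw [← div_le_iff₀ hl2]; exact (Nat.lt_floor_add_one _).le
  have g2 : (2 : ℝ) ^ j₁ = Real.exp (j₁ * Real.log 2) := by
    rw [Real.exp_nat_mul, Real.exp_log two_pos]
  have hS := sum_le h0 hG2 hs (q + 1)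
  set S := ∑ j ∈ range (q + 1), l j with hSd
  have hS0 : 0 ≤ S := sum_nonneg fun j _ => by linarith [h1' j]
  have hS1 : ∑ j ∈ range (q + 1 + 1), l j = S + L := sum_range_succ _ _
  have f3 : j₀ ≤ j₁ := by
    refine Nat.le_floor ?_
    rw [le_div_iff₀ hl2]
    have : j₀ * Real.log 2 ≤ j₀ * 1 := mul_le_mul_of_nonneg_left hl3 hj
    have : 0 ≤ L * c := by positivity
    linarith
  clear_value j₁
  refine ⟨q + 1, j₁, ?_, f3, ?_, ?_, ?_, ?_, ?_⟩
  · have : (3 : ℝ) ≤ q := by linarith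
    have : 3 ≤ q := by exact_mod_cast this
    omega
  · rw [← Real.exp_nat_mul, Real.exp_le_exp, Nat.add_sub_cancel]
    push_cast
    linarith
  · rw [g2, Real.exp_le_exp]; exact f1
  · rw [g2, hS1, ← Real.exp_half, ← Real.exp_add, ← Real.exp_mul, ← Real.exp_mul, ← Real.exp_add,
      Real.exp_le_exp]
    have k1 : S ≤ c * L := by
      refine le_of_mul_le_mul_left (hS.trans ?_) (show 0 < G by linarith)
      linarith [mul_le_mul_of_nonneg_right hGc hL0]
    have k2 : (L * (1 / 2 + c) - 1) * (A - 1 / 2) ≤ j₁ * Real.log 2 * (A - 1 / 2) :=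
      mul_le_mul_of_nonneg_right (by linarith) (by linarith)
    have k3 : S * A ≤ c * L * A := mul_le_mul_of_nonneg_right k1 (by linarith)
    have k4 : c * L * A = (2 * c + 3) * L := by rw [← hAc]; ring
    have k5 : 0 ≤ c * L := by positivity
    linarith
  · rw [hS1, ← Real.exp_half, ← Real.exp_add, ← Real.exp_add, Real.exp_le_exp]
    have k1 : ∑ j ∈ (range (q + 1 + 1)).filter (fun j => Odd (j + (q + 1))), l j ≤ S := by
      refine sum_le_sum_of_subset_of_nonneg (fun j hj => ?_) fun j _ _ => by linarith [h1' j]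
      simp only [mem_filter, mem_range, Nat.odd_iff] at hj ⊢
      omega
    have k2 : 21 * S ≤ G * S := mul_le_mul_of_nonneg_right (by linarith) hS0
    linarith
  · rw [Real.exp_le_exp]
    have k1 : 2 * h * w * θ ≤ L * θ := mul_le_mul_of_nonneg_right (by linarith) hθ0.le
    have k2 : 2 * h * w * θ = w := by linear_combination w * hθ1
    linarith

end Pool.Agent.P.MP_b8021b_nt.BS
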