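import Pool.Agent.P.MP_b8021b_nt.BS.BasicD

/-! Integrals of the function `ph`. -/

namespace Pool.Agent.P.MP_b8021b_nt.BS

open MeasureTheory Set

namespace PPhi

theorem low {η M a : ℝ} (hη : 0 < η) (hM : 0 < M) (ha : 0 < a) {F : ℝ → ℂ}
    (hF : ∀ τ, 0 < τ → ‖F τ‖ ≤ if τ ≤ a then (τ * M) ^ η else 0) : Dom F ((a * M) ^ η / η) := by
  have hi : IntegrableOn (fun τ : ℝ => M ^ η * τ ^ (η - 1)) (Ioc 0 a) :=
    ((intervalIntegral.intervalIntegrable_rpow' (by linarith)).1).const_mul _
  refine ⟨(Ioc 0 a).indicator fun τ => M ^ η * τ ^ (η - 1),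
    ((integrable_indicator_iff measurableSet_Ioc).2 hi).integrableOn, fun τ e => (hF τ e).trans ?_, ?_⟩
  · split_ifs with h
    · rw [indicator_of_mem (show τ ∈ Ioc 0 a from ⟨e, h⟩), Real.mul_rpow e.le hM.le,
        Real.rpow_sub_one e.ne']
      apply le_of_eq; field_simp
    · rw [indicator_of_notMem (fun h' : τ ∈ Ioc 0 a => h h'.2), mul_zero]
  · rw [setIntegral_indicator measurableSet_Ioc, inter_eq_right.2 Ioc_subset_Ioi_self,
      ← intervalIntegral.integral_of_le ha.le, intervalIntegral.integral_const_mul,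
      integral_rpow (Or.inl (by linarith)), sub_add_cancel, Real.zero_rpow hη.ne',
      Real.mul_rpow ha.le hM.le]
    apply le_of_eq; ring

theorem high {A M a : ℝ} (hA : 0 < A) (hM : 0 < M) (ha : 0 < a) {F : ℝ → ℂ}
    (hF : ∀ τ, 0 < τ → ‖F τ‖ ≤ if a ≤ τ then (τ * M) ^ (-A) else 0) :
    Dom F ((a * M) ^ (-A) / A) := by
  have hi : IntegrableOn (fun τ : ℝ => M ^ (-A) * τ ^ (-A - 1)) (Ici a) :=
    ((integrableOn_Ici_iff_integrableOn_Ioi enorm_ne_top).2
      (integrableOn_Ioi_rpow_of_lt (by linarith) ha)).const_mul _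
  refine ⟨(Ici a).indicator fun τ => M ^ (-A) * τ ^ (-A - 1),
    ((integrable_indicator_iff measurableSet_Ici).2 hi).integrableOn, fun τ e => (hF τ e).trans ?_, ?_⟩
  · split_ifs with h
    · rw [indicator_of_mem (show τ ∈ Ici a from h), Real.mul_rpow e.le hM.le,
        Real.rpow_sub_one e.ne']
      apply le_of_eq; field_simp
    · rw [indicator_of_notMem (fun h' : τ ∈ Ici a => h h'), mul_zero]
  · rw [setIntegral_indicator measurableSet_Ici,
      inter_eq_right.2 (show Ici a ⊆ Ioi 0 from fun x hx => lt_of_lt_of_le ha hx),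
      integral_Ici_eq_integral_Ioi, integral_const_mul,
      integral_Ioi_rpow_of_lt (by linarith) ha, sub_add_cancel, Real.mul_rpow ha.le hM.le]
    apply le_of_eq; field_simp

theorem full {η A M : ℝ} (hη : 0 < η) (hA : 1 ≤ A) (hM : 0 < M) {F : ℝ → ℂ}
    (hF : ∀ τ, 0 < τ → ‖F τ‖ ≤ ph η A (τ * M)) : Dom F (1 / η + 1) := by
  have ha : 0 < M⁻¹ := inv_pos.2 hM
  have h1 := low hη hM ha (F := fun τ => ((if τ ≤ M⁻¹ then (τ * M) ^ η else 0 : ℝ) : ℂ))
    fun τ e => by
      rw [Complex.norm_real, Real.norm_of_nonneg (by split_ifs <;> positivity)]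
  have h2 := high (show 0 < A by linarith) hM ha
    (F := fun τ => ((if M⁻¹ ≤ τ then (τ * M) ^ (-A) else 0 : ℝ) : ℂ)) fun τ e => by
      rw [Complex.norm_real, Real.norm_of_nonneg (by split_ifs <;> positivity)]
  refine (h1.add' h2 fun τ e => (hF τ e).trans ?_).mono ?_
  · rw [Complex.norm_real, Complex.norm_real, Real.norm_of_nonneg (by split_ifs <;> positivity),
      Real.norm_of_nonneg (by split_ifs <;> positivity)]
    rcases le_total τ M⁻¹ with h | h
    · rw [if_pos h]
      exact (min_le_left _ _).trans (le_add_of_nonneg_right (by split_ifs <;> positivity))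
    · rw [if_pos h]
      exact (min_le_right _ _).trans (le_add_of_nonneg_left (by split_ifs <;> positivity))
  · rw [inv_mul_cancel₀ hM.ne', Real.one_rpow, Real.one_rpow]
    exact add_le_add le_rfl ((div_le_one (by linarith)).2 hA)

theorem tail {A M Z : ℝ} (hA : 1 ≤ A) (hM : 0 < M) (hZ : 0 < Z) {F : ℝ → ℂ}
    (hF : ∀ τ, 0 < τ → ‖F τ‖ ≤ if 1 ≤ τ * Z then (τ * M) ^ (-A) else 0) : Dom F ((Z / M) ^ A) := by
  refine (high (show 0 < A by linarith) hM (inv_pos.2 hZ) fun τ e => ?_).mono ?_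
  · simpa only [inv_le_iff_one_le_mul₀ hZ] using hF τ e
  · rw [Real.rpow_neg (by positivity), ← Real.inv_rpow (by positivity), mul_inv, inv_inv,
      ← div_eq_mul_inv]
    exact div_le_self (by positivity) hA

end PPhi

open PPhi in
theorem x_phi : X_Phi := by
  intro η A hη hA
  have h2 : (1 : ℝ) ≤ 2 ^ η := Real.one_le_rpow one_le_two hη.le
  have hη' : 0 < 1 / η := by positivity
  have hc : 1 / η + 1 ≤ 2 ^ η * (1 / η + 1) := le_mul_of_one_le_left (by positivity) h2
  refine ⟨2 ^ η * (1 / η + 1), by linarith, fun M Z hM hZ => ⟨fun F hF => (full hη hA hM hF).mono hc,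
    fun F hF => (low hη hM hZ fun τ e => (hF τ e).trans ?_).mono ?_, fun F hF => tail hA hM hZ hF,
    fun τ => if 0 < τ ∧ 1 ≤ τ * Z then min ((2 * (τ * M)) ^ η) ((τ * M) ^ (-A)) else 0,
    fun τ => ?_, fun τ z e h1 h3 h4 => ?_, ?_⟩⟩
  · split_ifs
    · exact min_le_left _ _
    · exact le_rfl
  · rw [div_eq_mul_one_div, mul_comm]
    exact mul_le_mul_of_nonneg_right (by linarith) (by positivity)
  · show 0 ≤ ite _ _ _
    split_ifs with h
    · have := h.1
      positivity
    · exact le_rfl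
  · show _ ≤ ite _ _ _
    have h0 : 0 < τ * M := mul_pos e hM
    rw [if_pos ⟨e, h1⟩]
    exact min_le_min (Real.rpow_le_rpow (h0.le.trans h3) h4 hη.le)
      (Real.rpow_le_rpow_of_nonpos h0 h3 (by linarith))
  · have hn : ∀ τ : ℝ, 0 < τ → ‖(((if 0 < τ ∧ 1 ≤ τ * Z then
        min ((2 * (τ * M)) ^ η) ((τ * M) ^ (-A)) else 0 : ℝ)) : ℂ)‖ =
        if 1 ≤ τ * Z then min ((2 * (τ * M)) ^ η) ((τ * M) ^ (-A)) else 0 := fun τ e => by
      rw [Complex.norm_real, Real.norm_of_nonneg (by split_ifs <;> positivity)]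
      simp only [e, true_and]
    rcases le_total 1 (Z / M) with h | h
    · rw [min_eq_left h, mul_one]
      refine (full hη hA hM (F := fun τ => ((ph η A (τ * M) : ℝ) : ℂ)) fun τ e => ?_).mul'
        (by positivity) fun τ e => ?_
      · rw [Complex.norm_real, Real.norm_of_nonneg (ph_nonneg _ _ (by positivity))]
      · rw [hn τ e, Complex.norm_real, Real.norm_of_nonneg (ph_nonneg _ _ (by positivity))]
        split_ifs
        · rw [ph, mul_min_of_nonneg _ _ (by positivity), Real.mul_rpow zero_le_two (by positivity)]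
          exact min_le_min le_rfl (le_mul_of_one_le_left (by positivity) h2)
        · exact mul_nonneg (by positivity) (ph_nonneg _ _ (by positivity))
    · rw [min_eq_right h]
      refine (tail hA hM hZ fun τ e => ?_).mono ?_
      · rw [hn τ e]
        split_ifs
        · exact min_le_right _ _
        · exact le_rfl
      · have h0 : 0 < Z / M := by positivity
        calc (Z / M) ^ A ≤ (Z / M) ^ (1 : ℝ) := Real.rpow_le_rpow_of_exponent_ge h0 h hA
          _ = 1 * (Z / M) := by rw [Real.rpow_one, one_mul]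
          _ ≤ _ := mul_le_mul_of_nonneg_right (by linarith) h0.le

end Pool.Agent.P.MP_b8021b_nt.BS
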