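import Pool.Agent.P.MP_b8021b_nt.BS.BasicD

/-! One dyadic block: reduction to two variables. -/

namespace Pool.Agent.P.MP_b8021b_nt.BS

open NumberField IsDedekindDomain Finset MeasureTheory
open Pool.Agent.P.MP_b8021b_nt.VE Pool.Agent.P.MP_b8021b_nt.VC Pool.Agent.P.MP_b8021b_nt.BS.CF
open scoped Classical ComplexConjugate Real

variable {k : Type} [Field k] [NumberField k] [Algebra k ℂ] {K : Type} [Field K] [NumberField K]
  [Algebra k K]

namespace PRng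

open Function

section Split

variable {ι α : Type} [Fintype ι] [DecidableEq ι] {s l : ι}

theorem sum_upd (T : ι → Finset α) (s : ι) (d : α) (g : (ι → α) → ℂ) :
    ∑ ω ∈ Fintype.piFinset T, g ω =
      ∑ ρ ∈ Fintype.piFinset (update T s {d}), ∑ t ∈ T s, g (update ρ s t) := by
  rw [← sum_product']
  refine sum_nbij' (fun ω => (update ω s d, ω s)) (fun p => update p.1 s p.2) ?_ ?_ ?_ ?_ ?_
  · intro ω h
    rw [Fintype.mem_piFinset] at h
    refine mem_product.2 ⟨Fintype.mem_piFinset.2 fun i => ?_, h s⟩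
    rcases eq_or_ne i s with rfl | e
    · simp
    · simpa [e] using h i
  · rintro ⟨ρ, t⟩ h
    obtain ⟨h1, h2⟩ := mem_product.1 h
    refine Fintype.mem_piFinset.2 fun i => ?_
    rcases eq_or_ne i s with rfl | e
    · simpa using h2
    · simpa [e] using Fintype.mem_piFinset.1 h1 i
  · intro ω _
    simp
  · rintro ⟨ρ, t⟩ h
    have := Fintype.mem_piFinset.1 (mem_product.1 h).1 s
    simp only [update_self, mem_singleton] at this
    simp [← this]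
  · intro ω _
    simp

theorem sum_upd2 (e : s ≠ l) (T : ι → Finset α) (d : α) (g : (ι → α) → ℂ) :
    ∑ ω ∈ Fintype.piFinset T, g ω = ∑ ρ ∈ Fintype.piFinset (update (update T l {d}) s {d}),
      ∑ t ∈ T s, ∑ t' ∈ T l, g (update (update ρ s t) l t') := by
  rw [sum_upd T l d, sum_upd _ s d, update_of_ne e]

theorem prod_two {M : Type*} [CommMonoid M] (e : s ≠ l) (φ : ι → M) :
    ∏ i, φ i = φ s * φ l * ∏ i ∈ (univ.erase s).erase l, φ i := by
  rw [mul_assoc, mul_prod_erase _ φ (mem_erase.2 ⟨e.symm, mem_univ l⟩),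
    mul_prod_erase _ φ (mem_univ s)]

theorem prod_upd {M : Type*} [CommMonoid M] (e : s ≠ l) (φ : ι → α → M) (ρ : ι → α) (t t' : α) :
    ∏ i, φ i (update (update ρ s t) l t' i) =
      φ s t * φ l t' * ∏ i ∈ (univ.erase s).erase l, φ i (ρ i) := by
  rw [prod_two e, update_of_ne e, update_self, update_self]
  refine congrArg _ (prod_congr rfl fun i hi => ?_)
  rw [update_of_ne (mem_erase.1 hi).1, update_of_ne (mem_erase.1 (mem_erase.1 hi).2).1]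

end Split

theorem swap3 {α γ : Type} (T T' : Finset α) (R : Finset γ) (u u' : α → ℂ) (b : ℂ) (c : γ → ℂ)
    (X : α → α → γ → ℂ) : ∑ t ∈ T, ∑ t' ∈ T', b * (u t * u' t') * ∑ r ∈ R, c r * X t t' r =
      ∑ r ∈ R, b * c r * ∑ t ∈ T, ∑ t' ∈ T', u t * u' t' * X t t' r := by
  simp only [mul_sum]
  rw [sum_comm (s := R)]
  refine sum_congr rfl fun t _ => ?_
  rw [sum_comm (s := R)]
  exact sum_congr rfl fun t' _ => sum_congr rfl fun r _ => by ring

/-- weighted sums of dominated functions -/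
theorem wsum {J : Type*} (s : Finset J) {w : J → ℝ} {Φ : J → ℝ → ℝ} {g W : ℝ} (hg : 0 ≤ g)
    (hw : ∀ j ∈ s, 0 ≤ w j) (hW : ∑ j ∈ s, w j ≤ W) (h : ∀ j ∈ s, Dom (fun τ => (Φ j τ : ℂ)) g) :
    Dom (fun τ => ((∑ j ∈ s, w j * Φ j τ : ℝ) : ℂ)) (W * g) := by
  refine (Dom.sum' s (Φ := fun j τ => (w j : ℂ) * Φ j τ) (γ := fun j => w j * g)
    (fun j hj => (h j hj).mul' (hw j hj) fun τ _ => ?_) fun τ _ => ?_).mono ?_
  · rw [norm_mul, Complex.norm_real, Real.norm_of_nonneg (hw j hj)]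
  · push_cast
    exact norm_sum_le _ _
  · rw [← sum_mul]
    exact mul_le_mul_of_nonneg_right hW hg

variable {ι : Type} [Fintype ι] [DecidableEq ι] {s l : ι}

/-- the coefficient that remains when all other variables are fixed -/
noncomputable def dd (f : ℝ → ℝ) (C : Ideal (𝓞 K) → ℂ) (U : Finset ι) (ρ : ι → 𝓞 K)
    (R : ι → Finset (Pl K)) (τ : ℝ) (S S' : Finset (Pl K)) (𝔫 : Ideal (𝓞 K)) : ℂ :=
  (-1) ^ S.card * (-1) ^ S'.card * (∏ i ∈ U, jac (ρ i) 𝔫) * ((√(NN 𝔫))⁻¹ : ℝ) *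
    bb f C (𝔫 * (eI S * eI S' * ∏ i ∈ U, eI (R i)) ^ 2) τ

theorem pc_upd (e : s ≠ l) (f : ℝ → ℝ) (C : Ideal (𝓞 K) → ℂ) {ρ : ι → 𝓞 K} (hs : ρ s = 0)
    (hl : ρ l = 0) (t t' : 𝓞 K) (𝔫 : Ideal (𝓞 K)) (τ : ℝ) :
    pc f C (update (update ρ s t) l t') 𝔫 τ =
      ∑ R ∈ Fintype.piFinset fun i => (pr (ρ i)).powerset,
        (∏ i ∈ (univ.erase s).erase l, ((-1) ^ (R i).card / NN (eI (R i)) : ℝ) : ℝ) *
          (jac t 𝔫 * jac t' 𝔫 * ∑ S ∈ (pr t).powerset, ∑ S' ∈ (pr t').powerset,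
            ((NN (eI S))⁻¹ * (NN (eI S'))⁻¹ : ℝ) *
              dd f C ((univ.erase s).erase l) ρ R τ S S' 𝔫) := by
  have h : update (update (fun i => (pr (update (update ρ s t) l t' i)).powerset) l {∅}) s {∅} =
      fun i => (pr (ρ i)).powerset := by
    funext i
    rcases eq_or_ne i s with rfl | e1
    · simp [hs, pr]
    rcases eq_or_ne i l with rfl | e2
    · simp [hl, pr, e1]
    · simp [e1, e2]
  rw [pc, sum_upd2 e _ ∅, h, prod_upd e fun _ x => jac x 𝔫, update_of_ne e, update_self,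
    update_self, mul_sum]
  refine sum_congr rfl fun R _ => ?_
  simp only [mul_sum]
  refine sum_congr rfl fun S _ => sum_congr rfl fun S' _ => ?_
  rw [prod_upd e fun _ X => ((-1) ^ X.card / NN (eI X) : ℝ), prod_upd e fun _ X => eI X, dd]
  push_cast
  ring

omit [Fintype ι] [DecidableEq ι] in
theorem norm_dd {f : ℝ → ℝ} {C : Ideal (𝓞 K) → ℂ} {A' η A N τ D : ℝ} (hB : BB f C A' η A)
    (hN : 0 < N) (hτ : 0 < τ) (U : Finset ι) (ρ : ι → 𝓞 K) (R : ι → Finset (Pl K))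
    (S S' : Finset (Pl K)) {𝔫 : Ideal (𝓞 K)} (h1 : N ≤ NN 𝔫) (h2 : NN 𝔫 ≤ 2 * N)
    (hD : ∀ z, τ * (N * NN (eI S * eI S' * ∏ i ∈ U, eI (R i)) ^ 2) ≤ z →
      z ≤ 2 * (τ * (N * NN (eI S * eI S' * ∏ i ∈ U, eI (R i)) ^ 2)) → ph η A z ≤ D) :
    ‖dd f C U ρ R τ S S' 𝔫‖ ≤ A' * (√N)⁻¹ * D := by
  have h0 : 𝔫 ≠ ⊥ := fun e => by simp [e, NN] at h1; linarith
  have hE : eI S * eI S' * ∏ i ∈ U, eI (R i) ≠ ⊥ :=
    mul_ne_zero (mul_ne_zero (eI_ne_bot _) (eI_ne_bot _)) (prod_ne_zero_iff.2 fun i _ => eI_ne_bot _)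
  generalize hE' : eI S * eI S' * ∏ i ∈ U, eI (R i) = E at *
  have hb := hB (𝔫 * E ^ 2) (mul_ne_zero h0 (pow_ne_zero 2 hE)) τ hτ
  have e : NN (𝔫 * E ^ 2) = NN 𝔫 * NN E ^ 2 := by simp [NN]
  have hb2 : ph η A (τ * NN (𝔫 * E ^ 2)) ≤ D := by
    rw [e]
    refine hD _ (by gcongr) ?_
    calc τ * (NN 𝔫 * NN E ^ 2) ≤ τ * (2 * N * NN E ^ 2) := by gcongr
      _ = _ := by ring
  have hj : ‖∏ i ∈ U, jac (ρ i) 𝔫‖ ≤ 1 := by
    rw [norm_prod]
    exact prod_le_one (fun _ _ => norm_nonneg _) fun _ _ => norm_jac_le _ _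
  have hq : (√(NN 𝔫))⁻¹ ≤ (√N)⁻¹ := inv_anti₀ (Real.sqrt_pos.2 hN) (Real.sqrt_le_sqrt h1)
  have hA := hB.nonneg
  rw [dd, hE', norm_mul, norm_mul, norm_mul, norm_mul, norm_pow, norm_pow, norm_neg, norm_one,
    one_pow, one_pow, one_mul, one_mul, Complex.norm_real, Real.norm_of_nonneg (by positivity)]
  calc _ ≤ 1 * (√N)⁻¹ * (A' * D) := by
        gcongr
        exact hb.trans (mul_le_mul_of_nonneg_left hb2 hA)
    _ = _ := by ring

/-- the cut depends on one of the two variables only -/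
theorem cut_split (e : s ≠ l) {E : Finset ι} (hE : ¬ (s ∈ E ∧ l ∈ E)) (lm τ : ℝ) (ρ : ι → 𝓞 K) :
    ∃ χ χ' : 𝓞 K → ℂ, (∀ t, ‖χ t‖ ≤ 1) ∧ (∀ t, ‖χ' t‖ ≤ 1) ∧ ∀ t t' (x : ℂ),
      (if lm ≤ τ * ∏ i ∈ E, NN (sp (update (update ρ s t) l t' i)) then x else 0) =
        χ t * χ' t' * x := by
  have h : ∀ t t', ∏ i ∈ E, NN (sp (update (update ρ s t) l t' i)) =
      (if s ∈ E then NN (sp t) else 1) * (if l ∈ E then NN (sp t') else 1) *
        ∏ i ∈ (univ.erase s).erase l, if i ∈ E then NN (sp (ρ i)) else 1 := fun t t' => by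
    rw [← prod_upd e fun i x => if i ∈ E then NN (sp x) else 1, prod_ite_mem, univ_inter]
  simp only [h]
  generalize ∏ i ∈ (univ.erase s).erase l, (if i ∈ E then NN (sp (ρ i)) else 1) = r
  have hi : ∀ p : Prop, ‖(if p then 1 else 0 : ℂ)‖ ≤ 1 := fun p => by split_ifs <;> simp
  by_cases hs : s ∈ E
  · have hl : l ∉ E := fun h => hE ⟨hs, h⟩
    refine ⟨fun t => if lm ≤ τ * (NN (sp t) * 1 * r) then 1 else 0, fun _ => 1, fun _ => hi _,
      fun _ => by simp, fun t t' x => ?_⟩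
    rw [if_pos hs, if_neg hl]
    beta_reduce
    split_ifs <;> simp
  · refine ⟨fun _ => 1, fun t => if lm ≤ τ * (1 * (if l ∈ E then NN (sp t) else 1) * r) then 1
      else 0, fun _ => by simp, fun _ => hi _, fun t t' x => ?_⟩
    rw [if_neg hs]
    beta_reduce
    generalize (if l ∈ E then NN (sp t') else 1) = y
    split_ifs <;> simp

theorem sqrt_id {X N a b : ℝ} (hX : 0 ≤ X) (hN : 0 < N) (ha : 0 < a) (hb : 0 < b) :
    √(X / (N * a * b)) = (√N)⁻¹ * √(X * a * b) / (a * b) := by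
  have : X / (N * a * b) = X * a * b / (N * (a * b) ^ 2) := by field_simp
  rw [this, Real.sqrt_div (by positivity), Real.sqrt_mul hN.le, Real.sqrt_sq (by positivity)]
  field_simp

theorem fin_id {Q : ℝ} (hQ : Q ≠ 0) (p A n σ c₀ c₁ x y m : ℝ) :
    (p * Q)⁻¹ * (A * n) * (Q * (σ * (c₁ * x * y * (c₀ * m)))) =
      c₀ * c₁ * A * σ * x * (n * y / p * m) := by
  rw [mul_inv]
  field_simp

end PRng

open PRng Function in
theorem x_rng (c : Ctx k K) (hPhi : X_Phi) (hRng1 : X_Rng1 K) : X_Rng K := by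
  intro η A hη hA
  obtain ⟨c₀, hc₀, hP⟩ := hPhi η A hη hA
  obtain ⟨c₁, hc₁, hR⟩ := hRng1
  refine ⟨c₀ * c₁, one_le_mul_of_one_le_of_one_le hc₀ hc₁, ?_⟩
  intro ι _ _ F σ Z f C A' N Δ Δ' h s l 𝒩 hF hB hN h𝒩 e hE hs hl hΔ hΔ' hHs hHl
  obtain ⟨𝒮, w, hw, hW, hb⟩ := hR _ _ 𝒩 Δ Δ' h hΔ hΔ' hHs hHl hs hl
  have hZ := hF.pos
  have hA' := hB.nonneg
  have hD : ∀ E : Ideal (𝓞 K), ∃ D : ℝ → ℝ, (∀ τ, 0 ≤ D τ) ∧ (E ≠ ⊥ → (∀ τ z, 0 < τ → 1 ≤ τ * Z →
      τ * (N * NN E ^ 2) ≤ z → z ≤ 2 * (τ * (N * NN E ^ 2)) → ph η A z ≤ D τ) ∧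
      Dom (fun τ => (D τ : ℂ)) (c₀ * min 1 (Z / N))) := fun E => by
    by_cases hE0 : E = ⊥
    · exact ⟨0, fun _ => le_rfl, fun h => absurd hE0 h⟩
    have h1 := one_le_NN hE0
    obtain ⟨D, a1, a2, a3⟩ := (hP (N * NN E ^ 2) Z (by positivity) hZ).2.2.2
    refine ⟨D, a1, fun _ => ⟨a2, a3.mono ?_⟩⟩
    have : N ≤ N * NN E ^ 2 := le_mul_of_one_le_right hN.le (one_le_pow₀ h1)
    gcongr
  choose D hD0 hD using hD
  set U := (univ.erase s).erase l with hU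
  have hE0 : ∀ (R : ι → Finset (Pl K)) (S S' : Finset (Pl K)),
      eI S * eI S' * ∏ i ∈ U, eI (R i) ≠ ⊥ := fun R S S' =>
    mul_ne_zero (mul_ne_zero (eI_ne_bot _) (eI_ne_bot _)) (prod_ne_zero_iff.2 fun i _ => eI_ne_bot _)
  set T' := update (update F.T l {0}) s {0} with hT'
  have hρ : ∀ ρ ∈ Fintype.piFinset T', ρ s = 0 ∧ ρ l = 0 ∧ ∀ i ∈ U, ρ i ∈ F.T i := fun ρ h => by
    have h := Fintype.mem_piFinset.1 h
    refine ⟨by simpa [hT'] using h s, by simpa [hT', e.symm] using h l, fun i hi => ?_⟩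
    simpa [hT', (mem_erase.1 hi).1, (mem_erase.1 (mem_erase.1 hi).2).1] using h i
  have hσ : ∀ i, 0 ≤ 1 + σ i := fun i => by linarith [hF.sigma i]
  have hc : ∀ i, (0 : ℝ) < (F.T i).card := fun i => Nat.cast_pos.2 (hF.ne i).card_pos
  have hQ : (0 : ℝ) < ∏ i ∈ U, ((F.T i).card : ℝ) := prod_pos fun i _ => hc i
  have hm : 0 ≤ c₀ * min 1 (Z / N) := by positivity
  have hdom := wsum (Fintype.piFinset T') (w := fun _ => 1) (W := ∏ i ∈ U, ((F.T i).card : ℝ))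
    (Φ := fun ρ τ => ∑ R ∈ Fintype.piFinset fun i => (pr (ρ i)).powerset,
      (∏ i ∈ U, (NN (eI (R i)))⁻¹) * ∑ S ∈ 𝒮, w S * D (eI S.1 * eI S.2 * ∏ i ∈ U, eI (R i)) τ)
    (g := (∏ i, (1 + σ i)) * (c₁ * 2 ^ h * √(Δ * Δ' * (F.T s).card * (F.T l).card) *
      (c₀ * min 1 (Z / N)))) (mul_nonneg (prod_nonneg fun i _ => hσ i) (by positivity))
    (fun _ _ => zero_le_one) (le_of_eq ?_) fun ρ hρ' => wsum _ (by positivity)
      (fun R _ => by positivity) ?_ fun R _ => wsum 𝒮 hm (fun S _ => hw S) hW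
        fun S _ => (hD _ (hE0 R S.1 S.2)).2
  rotate_left
  · rw [sum_const, nsmul_eq_mul, mul_one, Fintype.card_piFinset, Nat.cast_prod, prod_two e]
    simp only [hT', update_self, update_of_ne e.symm, card_singleton, Nat.cast_one, one_mul]
    refine prod_congr rfl fun i hi => ?_
    rw [update_of_ne (mem_erase.1 (mem_erase.1 hi).2).1, update_of_ne (mem_erase.1 hi).1]
  · obtain ⟨r1, r2, r3⟩ := hρ ρ hρ'
    calc _ = ∑ R ∈ Fintype.piFinset fun i => (pr (ρ i)).powerset, ∏ i, (NN (eI (R i)))⁻¹ := by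
          refine sum_congr rfl fun R hR => ?_
          have h1 := Fintype.mem_piFinset.1 hR s
          have h2 := Fintype.mem_piFinset.1 hR l
          simp only [r1, r2, pr, dif_pos, powerset_empty, mem_singleton] at h1 h2
          rw [prod_two e, h1, h2]
          simp [eI, NN, hU]
      _ = ∏ i, dv (ρ i) := by
          rw [← prod_univ_sum (fun i => (pr (ρ i)).powerset) fun _ X => (NN (eI X))⁻¹]
          exact prod_congr rfl fun i _ => (dv_eq_sum _).symm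
      _ ≤ _ := by
          refine prod_le_prod (fun i _ => zero_le_one.trans (one_le_dv _)) fun i _ => ?_
          by_cases hi : i ∈ U
          · exact hF.dv_le i _ (r3 i hi)
          · have : ρ i = 0 := by
              by_contra h0
              exact hi (mem_erase.2 ⟨fun e => h0 (e ▸ r2),
                mem_erase.2 ⟨fun e => h0 (e ▸ r1), mem_univ i⟩⟩)
            simpa [this, dv, pr] using hF.sigma i
  refine (hdom.mul' (a := (∏ i, ((F.T i).card : ℝ))⁻¹ * (A' * (√N)⁻¹))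
    (mul_nonneg (inv_nonneg.2 (prod_nonneg fun i _ => (hc i).le)) (by positivity))
    fun τ hτ => ?_).mono (le_of_eq ?_)
  swap
  · rw [sqrt_id (mul_nonneg hΔ hΔ') hN (hc s) (hc l), prod_two e fun i => ((F.T i).card : ℝ)]
    exact fin_id hQ.ne' _ _ _ _ _ _ _ _ _
  rw [← F.av_sum, Fam.av, norm_mul, norm_inv, norm_prod, mul_assoc]
  simp only [Complex.norm_natCast]
  refine mul_le_mul_of_nonneg_left ?_ (inv_nonneg.2 (prod_nonneg fun i _ => (hc i).le))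
  by_cases hτZ : 1 ≤ τ * Z
  swap
  · rw [sum_eq_zero fun ω hω => by rw [if_neg fun h => hτZ (hF.of_cut hω hτ h), mul_zero],
      norm_zero]
    positivity
  rw [Complex.norm_real]
  refine le_trans ?_ (mul_le_mul_of_nonneg_left (le_abs_self _) (by positivity))
  rw [sum_upd2 e _ 0, mul_sum]
  refine (norm_sum_le _ _).trans (sum_le_sum fun ρ hρ' => ?_)
  obtain ⟨r1, r2, -⟩ := hρ ρ hρ'
  obtain ⟨χ, χ', x1, x2, x3⟩ := cut_split e hE F.lam τ ρ
  have key := swap3 (F.T s) (F.T l) (Fintype.piFinset fun i => (pr (ρ i)).powerset)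
    (fun t => F.a s t * χ t) (fun t => F.a l t * χ' t) (∏ i ∈ U, F.a i (ρ i))
    (fun R => (∏ i ∈ U, ((-1) ^ (R i).card / NN (eI (R i)) : ℝ) : ℝ))
    fun t t' R => ∑ 𝔫 ∈ 𝒩, jac t 𝔫 * jac t' 𝔫 * ∑ S ∈ (pr t).powerset, ∑ S' ∈ (pr t').powerset,
      ((NN (eI S))⁻¹ * (NN (eI S'))⁻¹ : ℝ) * dd f C U ρ R τ S S' 𝔫
  rw [sum_congr rfl fun t _ => sum_congr rfl fun t' _ => ?_, key, one_mul, mul_sum]
  swap
  · rw [x3, prod_upd e F.a, sum_congr rfl fun 𝔫 _ => pc_upd e f C r1 r2 t t' 𝔫 τ, sum_comm,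
      sum_congr rfl fun R _ => (mul_sum _ _ _).symm]
    exact (fun a a' b x x' Y : ℂ => (by ring : a * a' * b * (x * x' * Y) =
      b * (a * x * (a' * x')) * Y)) _ _ _ _ _ _
  refine (norm_sum_le _ _).trans (sum_le_sum fun R _ => ?_)
  have ha : ∀ (i : ι) (y : 𝓞 K → ℂ), (∀ t, ‖y t‖ ≤ 1) → ∀ t, ‖F.a i t * y t‖ ≤ 1 :=
    fun i y hy t => by rw [norm_mul]; exact mul_le_one₀ (hF.a_le i t) (norm_nonneg _) (hy t)
  have h1 := hb _ _ (dd f C U ρ R τ)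
    (fun S S' => A' * (√N)⁻¹ * D (eI S * eI S' * ∏ i ∈ U, eI (R i)) τ) (ha s χ x1) (ha l χ' x2)
    (fun S S' => mul_nonneg (by positivity) (hD0 _ _)) fun S S' 𝔫 h𝔫 =>
      norm_dd hB hN hτ U ρ R S S' (h𝒩 𝔫 h𝔫).1 (h𝒩 𝔫 h𝔫).2 fun z =>
        (hD _ (hE0 R S S')).1 τ z hτ hτZ
  have h2 : ‖∏ i ∈ U, F.a i (ρ i)‖ ≤ 1 := by
    rw [norm_prod]
    exact prod_le_one (fun _ _ => norm_nonneg _) fun _ _ => hF.a_le _ _
  have h3 : ‖((∏ i ∈ U, ((-1) ^ (R i).card / NN (eI (R i)) : ℝ) : ℝ) : ℂ)‖ =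
      ∏ i ∈ U, (NN (eI (R i)))⁻¹ := by
    rw [Complex.norm_real, norm_prod]
    exact prod_congr rfl fun i _ => by simp
  rw [norm_mul, norm_mul, h3]
  refine (mul_le_mul (mul_le_of_le_one_left (by positivity) h2) h1 (norm_nonneg _)
    (by positivity)).trans (le_of_eq ?_)
  rw [mul_sum, mul_sum, mul_sum]
  exact sum_congr rfl fun S _ => by ring

end Pool.Agent.P.MP_b8021b_nt.BS
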