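import Pool.Agent.P.MP_b8021b_nt.BS.BasicD

/-! Two variables: the bilinear form and the sum over the squarefree divisors. -/

namespace Pool.Agent.P.MP_b8021b_nt.BS

open NumberField IsDedekindDomain Finset MeasureTheory
open Pool.Agent.P.MP_b8021b_nt.VE Pool.Agent.P.MP_b8021b_nt.VC Pool.Agent.P.MP_b8021b_nt.BS.CF
open scoped Classical ComplexConjugate Real
variable {k : Type} [Field k] [NumberField k] [Algebra k ℂ] {K : Type} [Field K] [NumberField K]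
  [Algebra k K]

namespace PRng1

omit [NumberField K] in
/-- the bilinear form -/
theorem bil {T T' : Finset (𝓞 K)} {𝒩 : Finset (Ideal (𝓞 K))} {Δ Δ' D : ℝ} (h0 : 0 ≤ Δ)
    (h0' : 0 ≤ Δ') (hs : Hs T 𝒩 Δ) (hl : Hl T' 𝒩 Δ') (a a' : 𝓞 K → ℂ) (d : Ideal (𝓞 K) → ℂ)
    (hD : 0 ≤ D) (hd : ∀ 𝔫 ∈ 𝒩, ‖d 𝔫‖ ≤ D) :
    ‖∑ t ∈ T, ∑ t' ∈ T', a t * a' t' * ∑ 𝔫 ∈ 𝒩, jac t 𝔫 * jac t' 𝔫 * d 𝔫‖ ≤
      √(Δ * Δ') * √(∑ t ∈ T, ‖a t‖ ^ 2) * √(∑ t ∈ T', ‖a' t‖ ^ 2) * D := by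
  set P : Ideal (𝓞 K) → ℂ := fun 𝔫 => ∑ t ∈ T, a t * jac t 𝔫 with hP
  have e : ∑ t ∈ T, ∑ t' ∈ T', a t * a' t' * ∑ 𝔫 ∈ 𝒩, jac t 𝔫 * jac t' 𝔫 * d 𝔫 =
      ∑ t' ∈ T', a' t' * ∑ 𝔫 ∈ 𝒩, (d 𝔫 * P 𝔫) * jac t' 𝔫 := by
    rw [sum_comm]
    refine sum_congr rfl fun t' _ => ?_
    simp only [hP, mul_sum, sum_mul]
    rw [sum_comm]
    exact sum_congr rfl fun _ _ => sum_congr rfl fun _ _ => by ring
  have h1 : ∑ 𝔫 ∈ 𝒩, ‖d 𝔫 * P 𝔫‖ ^ 2 ≤ D ^ 2 * (Δ * ∑ t ∈ T, ‖a t‖ ^ 2) := by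
    refine le_trans ?_ (mul_le_mul_of_nonneg_left (hs a) (sq_nonneg D))
    rw [mul_sum]
    refine sum_le_sum fun 𝔫 h => ?_
    rw [norm_mul, mul_pow]
    exact mul_le_mul_of_nonneg_right (pow_le_pow_left₀ (norm_nonneg _) (hd 𝔫 h) 2) (sq_nonneg _)
  have h2 := (hl fun 𝔫 => d 𝔫 * P 𝔫).trans (mul_le_mul_of_nonneg_left h1 h0')
  rw [e]
  refine (norm_sum_le _ _).trans ?_
  simp only [norm_mul]
  refine (Real.sum_mul_le_sqrt_mul_sqrt _ _ _).trans ?_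
  refine (mul_le_mul_of_nonneg_left (Real.sqrt_le_sqrt h2) (Real.sqrt_nonneg _)).trans (le_of_eq ?_)
  rw [Real.sqrt_mul h0', Real.sqrt_mul (sq_nonneg D), Real.sqrt_sq hD, Real.sqrt_mul h0,
    Real.sqrt_mul h0]
  ring

/-- the sets of places that divide some member -/
noncomputable def U (T : Finset (𝓞 K)) : Finset (Finset (Pl K)) :=
  T.biUnion fun t => (pr t).powerset

/-- the number of members divisible by all places of a set -/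
noncomputable def nb (T : Finset (𝓞 K)) (S : Finset (Pl K)) : ℝ :=
  ∑ t ∈ T, if S ∈ (pr t).powerset then 1 else 0

theorem sum_U {M : Type*} [AddCommMonoid M] {T : Finset (𝓞 K)} {t : 𝓞 K} (ht : t ∈ T)
    (g : Finset (Pl K) → M) :
    ∑ S ∈ (pr t).powerset, g S = ∑ S ∈ U T, if S ∈ (pr t).powerset then g S else 0 := by
  rw [← sum_filter, filter_mem_eq_inter, U,
    inter_eq_right.2 (subset_biUnion_of_mem (fun t => (pr t).powerset) ht)]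

theorem sum_nb {T : Finset (𝓞 K)} {h : ℕ} (hT : ∀ t ∈ T, (pr t).card ≤ h) :
    ∑ S ∈ U T, nb T S ≤ 2 ^ h * T.card := by
  unfold nb
  rw [sum_comm, mul_comm, ← nsmul_eq_mul]
  refine sum_le_card_nsmul _ _ _ fun t ht => ?_
  rw [← sum_U ht fun _ => (1 : ℝ), sum_const, card_powerset, nsmul_one]
  exact_mod_cast Nat.pow_le_pow_right two_pos (hT t ht)

theorem eI_inj : Function.Injective (eI (K := K)) := fun S S' e => by
  ext v
  rw [← eI_le_iff, ← eI_le_iff, e]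

theorem sum_wt {C : ℝ} (hC : ∀ 𝒩 : Finset (Ideal (𝓞 K)), (∀ I ∈ 𝒩, 1 ≤ NN I) →
      ∑ I ∈ 𝒩, NN I ^ (-(2 : ℝ)) ≤ C) {T : Finset (𝓞 K)} {h : ℕ}
    (hT : ∀ t ∈ T, (pr t).card ≤ h) :
    ∑ S ∈ U T, √(nb T S) * (NN (eI S))⁻¹ ≤ √(2 ^ h * T.card) * √C := by
  refine (Real.sum_mul_le_sqrt_mul_sqrt _ _ _).trans ?_
  refine mul_le_mul (Real.sqrt_le_sqrt ?_) (Real.sqrt_le_sqrt ?_) (Real.sqrt_nonneg _)
    (Real.sqrt_nonneg _)
  · refine le_trans (le_of_eq (sum_congr rfl fun S _ => Real.sq_sqrt ?_)) (sum_nb hT)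
    exact sum_nonneg fun _ _ => by split_ifs <;> norm_num
  · refine le_trans (le_of_eq ?_) (hC ((U T).image eI) fun I hI => ?_)
    · rw [sum_image fun _ _ _ _ e => eI_inj e]
      refine sum_congr rfl fun S _ => ?_
      rw [Real.rpow_neg (by positivity), Real.rpow_two, inv_pow]
    · obtain ⟨S, -, rfl⟩ := mem_image.1 hI
      exact one_le_NN (eI_ne_bot S)

theorem sq_le {T : Finset (𝓞 K)} {a : 𝓞 K → ℂ} (ha : ∀ t, ‖a t‖ ≤ 1) (S : Finset (Pl K)) :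
    √(∑ t ∈ T, ‖if S ∈ (pr t).powerset then a t else 0‖ ^ 2) ≤ √(nb T S) := by
  refine Real.sqrt_le_sqrt (sum_le_sum fun t _ => ?_)
  split_ifs
  · exact pow_le_one₀ (norm_nonneg _) (ha t)
  · simp

end PRng1

open PRng1 in
theorem x_rng1 (c : Ctx k K) (hCnt : X_Cnt K) : X_Rng1 K := by
  obtain ⟨-, C, hC1, hC⟩ := hCnt.2 2 one_lt_two
  have hC' : ∀ 𝒩 : Finset (Ideal (𝓞 K)), (∀ I ∈ 𝒩, 1 ≤ NN I) →
      ∑ I ∈ 𝒩, NN I ^ (-(2 : ℝ)) ≤ C := fun 𝒩 h => by simpa using hC 1 𝒩 le_rfl h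
  refine ⟨C, hC1, fun T T' 𝒩 Δ Δ' h h0 h0' hs hl hT hT' => ⟨U T ×ˢ U T', fun S =>
    √(Δ * Δ') * ((√(nb T S.1) * (NN (eI S.1))⁻¹) * (√(nb T' S.2) * (NN (eI S.2))⁻¹)),
    fun S => by positivity, ?_, fun a a' d D ha ha' hD hd => ?_⟩⟩
  · rw [← mul_sum, sum_product' (f := fun S S' => (√(nb T S) * (NN (eI S))⁻¹) *
      (√(nb T' S') * (NN (eI S'))⁻¹)), ← sum_mul_sum]
    refine (mul_le_mul_of_nonneg_left (mul_le_mul (sum_wt hC' hT) (sum_wt hC' hT')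
      (sum_nonneg fun _ _ => by positivity) (by positivity)) (Real.sqrt_nonneg _)).trans
      (le_of_eq ?_)
    have e1 : √C * √C = C := Real.mul_self_sqrt (by linarith)
    have e2 : √((2 : ℝ) ^ h) * √(2 ^ h) = 2 ^ h := Real.mul_self_sqrt (by positivity)
    rw [Real.sqrt_mul (by positivity), Real.sqrt_mul (x := 2 ^ h) (by positivity),
      Real.sqrt_mul (x := 2 ^ h) (by positivity), Real.sqrt_mul (x := Δ * Δ' * _) (by positivity),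
      Real.sqrt_mul (x := Δ * Δ') (by positivity), Real.sqrt_mul h0]
    linear_combination (√Δ * √Δ' * √(T.card : ℝ) * √(T'.card : ℝ) * (√C * √C)) * e2 +
      (√Δ * √Δ' * √(T.card : ℝ) * √(T'.card : ℝ) * 2 ^ h) * e1
  · have e : ∑ t ∈ T, ∑ t' ∈ T', a t * a' t' * ∑ 𝔫 ∈ 𝒩, jac t 𝔫 * jac t' 𝔫 *
          ∑ S ∈ (pr t).powerset, ∑ S' ∈ (pr t').powerset,
            ((NN (eI S))⁻¹ * (NN (eI S'))⁻¹ : ℝ) * d S S' 𝔫 =
        ∑ S ∈ U T ×ˢ U T', ((NN (eI S.1))⁻¹ * (NN (eI S.2))⁻¹ : ℝ) * ∑ t ∈ T, ∑ t' ∈ T',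
          (if S.1 ∈ (pr t).powerset then a t else 0) *
            (if S.2 ∈ (pr t').powerset then a' t' else 0) *
              ∑ 𝔫 ∈ 𝒩, jac t 𝔫 * jac t' 𝔫 * d S.1 S.2 𝔫 := by
      simp only [mul_sum]
      rw [sum_comm (s := U T ×ˢ U T')]
      refine sum_congr rfl fun t ht => ?_
      rw [sum_comm (s := U T ×ˢ U T')]
      refine sum_congr rfl fun t' ht' => ?_
      rw [sum_comm (s := U T ×ˢ U T')]
      refine sum_congr rfl fun 𝔫 _ => ?_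
      rw [sum_product, sum_U ht]
      refine sum_congr rfl fun S _ => ?_
      rw [sum_U ht']
      split_ifs
      · refine sum_congr rfl fun S' _ => ?_
        split_ifs <;> ring
      · simp
    rw [e]
    refine (norm_sum_le _ _).trans (sum_le_sum fun S _ => ?_)
    rw [norm_mul, Complex.norm_real, Real.norm_of_nonneg (by positivity)]
    refine (mul_le_mul_of_nonneg_left ((bil h0 h0' hs hl _ _ _ (hD S.1 S.2) (hd S.1 S.2)).trans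
      (mul_le_mul_of_nonneg_right (mul_le_mul (mul_le_mul_of_nonneg_left (sq_le ha S.1)
        (Real.sqrt_nonneg _)) (sq_le ha' S.2) (Real.sqrt_nonneg _) (by positivity)) (hD S.1 S.2)))
      (by positivity)).trans (le_of_eq ?_)
    ring

end Pool.Agent.P.MP_b8021b_nt.BS
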