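import Pool.Agent.P.MP_b8021b_nt.BS.BasicD

/-! The sequence of scales. -/

namespace Pool.Agent.P.MP_b8021b_nt.BS

open NumberField IsDedekindDomain Finset MeasureTheory
open Pool.Agent.P.MP_b8021b_nt.VE Pool.Agent.P.MP_b8021b_nt.VC Pool.Agent.P.MP_b8021b_nt.BS.CF
open scoped Classical ComplexConjugate Real
variable {k : Type} [Field k] [NumberField k] [Algebra k ℂ] {K : Type} [Field K] [NumberField K] [Algebra k K]

namespace PSc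

theorem cop {a b : 𝓞 K} (ha : a ≠ 0) (hb : b ≠ 0) (h : ∀ v ∈ pr a, v ∉ pr b) : IsCoprime a b := by
  rw [← Ideal.isCoprime_span_singleton_iff, Ideal.isCoprime_iff_sup_eq]
  by_contra e
  obtain ⟨m, hm, hle⟩ := Ideal.exists_le_maximal _ e
  have h1 : a ∈ m := hle (Ideal.mem_sup_left (Ideal.mem_span_singleton_self a))
  have h2 : b ∈ m := hle (Ideal.mem_sup_right (Ideal.mem_span_singleton_self b))
  let v : Pl K := ⟨m, hm.isPrime, fun e => ha (by simpa [e] using h1)⟩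
  exact h v ((mem_pr (v := v) ha).2 h1) ((mem_pr (v := v) hb).2 h2)

theorem NN_le {t : 𝓞 K} (ht : t ≠ 0) {v : Pl K} (hv : v ∈ pr t) : NN v.asIdeal ≤ NN (sp t) := by
  have h1 : sp t ≤ v.asIdeal := (Ideal.span_singleton_le_iff_mem _).2 ((mem_pr ht).1 hv)
  refine Nat.cast_le.2 (Nat.le_of_dvd (Nat.pos_of_ne_zero fun e => ht ?_)
    (Ideal.absNorm_dvd_absNorm_of_le h1))
  exact Ideal.span_singleton_eq_bot.1 (Ideal.absNorm_eq_zero_iff.1 e)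

theorem few {B Y : ℝ} {h x : ℕ} (hB : 1 ≤ B) (hh : 1 ≤ h) (hY : 0 < Y) {𝒵 : Finset (Pl K)}
    (h1 : 𝒵.card ≤ x) (h2 : ∀ v ∈ 𝒵, (x : ℝ) ^ (4 * h * B) ≤ NN v.asIdeal) :
    ((𝒵.filter fun v => NN v.asIdeal ≤ Y ^ B).card : ℝ) ≤ Y ^ (1 / (4 * h : ℝ)) := by
  rcases (𝒵.filter fun v => NN v.asIdeal ≤ Y ^ B).eq_empty_or_nonempty with e | ⟨v, hv⟩
  · rw [e, card_empty, Nat.cast_zero]; positivity
  obtain ⟨h3, h4⟩ := mem_filter.1 hv
  have h0 : (0 : ℝ) < h := by exact_mod_cast hh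
  have h5 : (x : ℝ) ^ (4 * h * B) ≤ (Y ^ (1 / (4 * h : ℝ))) ^ (4 * h * B) := by
    rw [← Real.rpow_mul hY.le, show 1 / (4 * h : ℝ) * (4 * h * B) = B by field_simp]
    exact (h2 v h3).trans h4
  refine le_trans ?_ ((Real.rpow_le_rpow_iff (by positivity) (by positivity) (by positivity)).1 h5)
  exact_mod_cast (card_filter_le _ _).trans h1

theorem dv_le {t : 𝓞 K} {h : ℕ} {Y e : ℝ} (hY : 0 < Y) (h1 : (pr t).card = h)
    (h2 : ∀ v ∈ pr t, Y ^ e ≤ NN v.asIdeal) : dv t ≤ (1 + Y ^ (-e)) ^ h := by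
  rw [dv, ← h1, ← prod_const]
  refine prod_le_prod (fun v _ => by positivity) fun v hv => ?_
  rw [Real.rpow_neg hY.le]
  exact add_le_add le_rfl (inv_anti₀ (by positivity) (h2 v hv))

end PSc

open PSc in
theorem x_sc (c : Ctx k K) (hFam : X_Fam k K) (hCv : X_Cv k K) (hNum : X_Num) : X_Sc K := by
  intro n ζ hn hζ
  have hr := c.one_le_rk
  have hn2 : 2 ≤ n ^ 2 := by
    have := Nat.le_of_dvd (Nat.pos_of_ne_zero hn.pos) hn.eight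
    nlinarith
  obtain ⟨B, C, h, hB, -, hh, hF⟩ := hFam (n ^ 2) ζ hn2 hζ
  obtain ⟨G₁, hG₁⟩ := hCv n hn C B hB
  obtain ⟨G₂, A, hA, hG₂⟩ := hNum (1 / (40 * rk k K)) h (by positivity) hh
  obtain ⟨G, g1, g2, g3⟩ : ∃ G : ℝ, G₁ ≤ G ∧ G₂ ≤ G ∧ 1 ≤ G :=
    ⟨max (max G₁ G₂) 1, by simp, by simp, by simp⟩
  obtain ⟨η, δ, C₁, hη, hδ, hC₁, hcv⟩ := hG₁ G g1
  refine ⟨δ, A, C₁, h, hδ, hA, hC₁, fun ε j hε => ?_⟩
  obtain ⟨Y₁, hY₁⟩ := hF η hη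
  obtain ⟨Y₂, hY₂⟩ := hG₂ G ε g2 hε
  obtain ⟨y, y1, y2, y3⟩ : ∃ y : ℝ, Y₁ ≤ y ∧ Y₂ ≤ y ∧ 1 ≤ y :=
    ⟨max (max Y₁ Y₂) 1, by simp, by simp, by simp⟩
  obtain ⟨j', hj'⟩ := pow_unbounded_of_one_lt (((y ^ B) ^ (G * B)) ^ (G * B)) (one_lt_two (α := ℝ))
  refine ⟨max j j', le_max_left _ _, fun x => ⟨x ^ (4 * h * B), fun 𝒵 W z1 z2 hW => ?_⟩⟩
  have step : ∀ Y : ℝ, ∃ (Y' : ℝ) (T : Finset (𝓞 K)), y ≤ Y →
      Y ≤ Y' ∧ Y' ≤ Y ^ B ∧ Scale k (n ^ 2) ζ h C η 𝒵 T Y' := fun Y => by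
    by_cases e : y ≤ Y
    · obtain ⟨Y', T, H⟩ := hY₁ Y (y1.trans e) 𝒵 (few hB hh (by linarith) z1 z2)
      exact ⟨Y', T, fun _ => H⟩
    · exact ⟨0, ∅, fun e' => absurd e' e⟩
  choose f g hfg using step
  let u : ℕ → ℝ := fun i => Nat.rec y (fun _ a => f a ^ G) i
  have u1 : ∀ i, u (i + 1) = f (u i) ^ G := fun _ => rfl
  have hu : ∀ i, y ≤ u i := fun i => by
    induction i with
    | zero => exact le_rfl
    | succ i ih =>
      have h1 := ih.trans (hfg _ ih).1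
      exact h1.trans (Real.self_le_rpow_of_one_le (y3.trans h1) g3)
  let Y : ℕ → ℝ := fun i => f (u i)
  let T : ℕ → Finset (𝓞 K) := fun i => g (u i)
  have hS : ∀ i, Scale k (n ^ 2) ζ h C η 𝒵 (T i) (Y i) := fun i => (hfg _ (hu i)).2.2
  have hY1 : ∀ i, 1 ≤ Y i := fun i => y3.trans ((hu i).trans (hfg _ (hu i)).1)
  have hY0 : ∀ i, 0 < Y i := fun i => one_pos.trans_le (hY1 i)
  have hlo : ∀ i, Y i ^ G ≤ Y (i + 1) := fun i => (hfg _ (hu (i + 1))).1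
  have hhi : ∀ i, Y (i + 1) ≤ Y i ^ (G * B) := fun i => by
    rw [Real.rpow_mul (hY0 i).le]
    exact (hfg _ (hu (i + 1))).2.1
  obtain ⟨n1, n2, n3, n4⟩ := hY₂ Y (y2.trans (hfg _ (hu 0)).1) hlo
  obtain ⟨p, j₁, p1, p2, p3, p4, p5, p6, p7⟩ := n4 W (max j j') hW
  have hGB : 0 ≤ G * B := by positivity
  have hj : Y 2 ≤ 2 ^ max j j' := by
    refine (hhi 1).trans (le_trans ?_ (hj'.le.trans
      (pow_le_pow_right₀ one_le_two (le_max_right _ _))))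
    exact Real.rpow_le_rpow (hY0 1).le ((hhi 0).trans
      (Real.rpow_le_rpow (hY0 0).le (hfg _ (hu 0)).2.1 hGB)) hGB
  have h0 : ∀ i, ∀ t ∈ T i, t ≠ 0 := fun i t ht => ((hS i).adm t ht).1.ne_zero
  have hc : ∀ i i', i < i' → ∀ t ∈ T i, ∀ t' ∈ T i', IsCoprime t t' := fun i i' e t ht t' ht' =>
    cop (h0 i t ht) (h0 i' t' ht') fun v hv hv' => absurd (((hS i').big t' ht' v hv').1.trans
      ((NN_le (h0 i t ht) hv).trans ((hS i).le t ht))) (not_le.2 (n3 i i' e))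
  refine ⟨p, j₁, T, Y, fun i => (1 + Y i ^ (-(1 / (2 * h : ℝ)))) ^ h - 1,
    fun i => ⟨?_, hY1 i, fun t ht => ⟨(hS i).adm t ht, ((hS i).card t ht).le, (hS i).le t ht, ?_,
      fun v hv => ((hS i).big t ht v hv).2⟩⟩, fun i i' e t ht t' ht' => ?_, ?_, p2,
    hcv ζ h 𝒵 T Y (n1 0) (fun i => ⟨hlo i, hhi i, hS i⟩) _ p j₁ W hj p1 hW p3 p4, p5, p6,
    fun t ht => ?_⟩
  · exact card_pos.1 (Nat.cast_pos.1 ((Real.rpow_pos_of_pos (hY0 i) _).trans_le (hS i).many))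
  · rw [add_sub_cancel]
    exact dv_le (hY0 i) ((hS i).card t ht) fun v hv => ((hS i).big t ht v hv).1
  · rcases lt_or_gt_of_ne e with e | e
    · exact hc i i' e t ht t' ht'
    · exact (hc i' i e t' ht' t ht).symm
  · simpa only [add_sub_cancel] using n2 p
  · obtain ⟨v, hv⟩ := card_pos.1 (((hS p).card t ht).symm ▸ hh : 0 < (pr t).card)
    exact ⟨v, hv, p7.trans ((hS p).big t ht v hv).1⟩

end Pool.Agent.P.MP_b8021b_nt.BS
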