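import Pool.Agent.P.MP_b8021b_nt.BS.BasicD

/-! The bound for the terms with a fixed small squarefree part. -/

namespace Pool.Agent.P.MP_b8021b_nt.BS

open NumberField IsDedekindDomain Finset MeasureTheory
open Pool.Agent.P.MP_b8021b_nt.VE Pool.Agent.P.MP_b8021b_nt.VC Pool.Agent.P.MP_b8021b_nt.BS.CF
open scoped Classical ComplexConjugate Real

variable {k : Type} [Field k] [NumberField k] [Algebra k ℂ] {K : Type} [Field K] [NumberField K]
  [Algebra k K]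

namespace PSg

variable {ι : Type} [Fintype ι] [DecidableEq ι]

/-- a product weight is summed over the fibres of a product map -/
theorem fib {X : Type} [DecidableEq X] (P : ι → Finset X) (φ : ι → X → X) (w : ι → X → ℂ)
    (G : (ι → X) → ℂ) :
    ∑ x ∈ Fintype.piFinset P, (∏ i, w i (x i)) * G (fun i => φ i (x i)) =
      ∑ y ∈ Fintype.piFinset (fun i => (P i).image (φ i)),
        (∏ i, ∑ x ∈ (P i).filter (fun x => φ i x = y i), w i x) * G y := by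
  rw [← sum_fiberwise_of_maps_to (t := Fintype.piFinset fun i => (P i).image (φ i))
    (g := fun x i => φ i (x i)) fun x hx => Fintype.mem_piFinset.2 fun i =>
      mem_image_of_mem _ (Fintype.mem_piFinset.1 hx i)]
  refine sum_congr rfl fun y _ => ?_
  rw [prod_univ_sum, sum_mul]
  refine sum_congr ?_ fun x hx => ?_
  · ext x
    simp only [mem_filter, Fintype.mem_piFinset, funext_iff, forall_and]
  · rw [show (fun i => φ i (x i)) = y from funext fun i =>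
      (mem_filter.1 (Fintype.mem_piFinset.1 hx i)).2]

/-- an iterated sum over vectors is a sum over vectors of pairs -/
theorem pairs {X Y : Type} (T : ι → Finset X) (U : X → Finset Y) (g : (ι → X) → (ι → Y) → ℂ) :
    ∑ ω ∈ Fintype.piFinset T, ∑ S ∈ Fintype.piFinset (fun i => U (ω i)), g ω S =
      ∑ x ∈ Fintype.piFinset (fun i => (T i).sigma (α := fun _ => Y) U),
        g (fun i => (x i).1) fun i => (x i).2 := by
  rw [sum_sigma']
  refine sum_nbij' (fun p i => ⟨p.1 i, p.2 i⟩) (fun x => ⟨fun i => (x i).1, fun i => (x i).2⟩)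
    (fun p hp => ?_) (fun x hx => ?_) (fun _ _ => rfl) (fun _ _ => rfl) fun _ _ => rfl
  · simp only [mem_sigma, Fintype.mem_piFinset] at hp ⊢
    exact fun i => ⟨hp.1 i, hp.2 i⟩
  · simp only [mem_sigma, Fintype.mem_piFinset] at hx ⊢
    exact ⟨fun i => (hx i).1, fun i => (hx i).2⟩

/-- the weight of a pair -/
noncomputable def wt (F : Fam K ι) (𝔫 : Ideal (𝓞 K)) (i : ι)
    (x : Σ _ : 𝓞 K, Finset (Pl K)) : ℂ :=
  ((F.T i).card : ℂ)⁻¹ * (F.a i x.1 * jac x.1 𝔫 * ((-1) ^ x.2.card / NN (eI x.2) : ℝ))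

/-- outside the cut only the set of places is kept -/
noncomputable def fo (F : Fam K ι) (i : ι) (x : Σ _ : 𝓞 K, Finset (Pl K)) :
    Σ _ : 𝓞 K, Finset (Pl K) := if i ∈ F.E then x else ⟨0, x.2⟩

/-- the pairs -/
noncomputable abbrev PP (F : Fam K ι) (i : ι) : Finset (Σ _ : 𝓞 K, Finset (Pl K)) :=
  (F.T i).sigma (α := fun _ => Finset (Pl K)) fun t => (pr t).powerset

omit [Fintype ι] [NumberField K] in
theorem fo_snd (F : Fam K ι) (i : ι) (x : Σ _ : 𝓞 K, Finset (Pl K)) : (fo F i x).2 = x.2 := by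
  unfold fo; split_ifs <;> rfl

theorem av_eq (F : Fam K ι) (f : ℝ → ℝ) (C : Ideal (𝓞 K) → ℂ) (𝔫 : Ideal (𝓞 K)) (τ : ℝ) :
    F.av (fun ω => pc f C ω 𝔫 τ) τ =
      ∑ y ∈ Fintype.piFinset (fun i => (PP F i).image (fo F i)),
        (∏ i, ∑ x ∈ (PP F i).filter (fun x => fo F i x = y i), wt F 𝔫 i x) *
          if F.lam ≤ τ * ∏ i ∈ F.E, NN (sp (y i).1) then
            ((√(NN 𝔫))⁻¹ : ℝ) * bb f C (𝔫 * (∏ i, eI (y i).2) ^ 2) τ else 0 := by
  rw [← fib (PP F) (fo F) (wt F 𝔫) fun y => if F.lam ≤ τ * ∏ i ∈ F.E, NN (sp (y i).1) then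
    ((√(NN 𝔫))⁻¹ : ℝ) * bb f C (𝔫 * (∏ i, eI (y i).2) ^ 2) τ else 0]
  have e : ∀ x : ι → Σ _ : 𝓞 K, Finset (Pl K), ∏ i ∈ F.E, NN (sp (fo F i (x i)).1) =
      ∏ i ∈ F.E, NN (sp (x i).1) := fun x => prod_congr rfl fun i hi => by rw [fo, if_pos hi]
  simp only [e, fo_snd]
  rw [← pairs F.T (fun t => (pr t).powerset) fun ω S => (∏ i, wt F 𝔫 i ⟨ω i, S i⟩) *
    if F.lam ≤ τ * ∏ i ∈ F.E, NN (sp (ω i)) then
      ((√(NN 𝔫))⁻¹ : ℝ) * bb f C (𝔫 * (∏ i, eI (S i)) ^ 2) τ else 0, Fam.av, mul_sum]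
  refine sum_congr rfl fun ω _ => ?_
  split_ifs with h
  · rw [pc, mul_sum, mul_sum, mul_sum]
    refine sum_congr rfl fun S _ => ?_
    simp only [wt, prod_mul_distrib, prod_inv_distrib, Complex.ofReal_prod]
    ring
  · simp

theorem norm_wt {F : Fam K ι} {σ : ι → ℝ} {Z : ℝ} (h : F.Ok σ Z)
    (𝔫 : Ideal (𝓞 K)) (i : ι) (x : Σ _ : 𝓞 K, Finset (Pl K)) :
    ‖wt F 𝔫 i x‖ ≤ ((F.T i).card : ℝ)⁻¹ * (NN (eI x.2))⁻¹ := by
  rw [wt, norm_mul, norm_inv, Complex.norm_natCast, norm_mul, norm_mul, Complex.norm_real,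
    norm_div, norm_pow, norm_neg, norm_one, one_pow, Real.norm_of_nonneg (by positivity), one_div]
  refine mul_le_mul_of_nonneg_left (mul_le_of_le_one_left (by positivity) ?_) (by positivity)
  exact mul_le_one₀ (h.a_le _ _) (norm_nonneg _) (norm_jac_le _ _)

theorem tot {F : Fam K ι} {σ : ι → ℝ} {Z : ℝ} (h : F.Ok σ Z) (i : ι) :
    ∑ x ∈ PP F i, ((F.T i).card : ℝ)⁻¹ * (NN (eI x.2))⁻¹ ≤ 1 + σ i := by
  have hc : (0 : ℝ) < (F.T i).card := Nat.cast_pos.2 (h.ne i).card_pos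
  rw [← mul_sum, sum_sigma, inv_mul_le_iff₀ hc, ← nsmul_eq_mul]
  exact sum_le_card_nsmul _ _ _ fun t ht => (dv_eq_sum t).ge.trans (h.dv_le i t ht)

theorem mass {F : Fam K ι} {σ Λ : ι → ℝ} {Z : ℝ} (h : F.Ok σ Z) (𝔫 : Ideal (𝓞 K))
    (h1 : ∀ i ∈ F.E, 1 + σ i ≤ Λ i)
    (h2 : ∀ i ∉ F.E, ‖∑ t ∈ F.T i, F.a i t * jac t 𝔫‖ / (F.T i).card + σ i ≤ Λ i) (i : ι) :
    ∑ y ∈ (PP F i).image (fo F i),
      ‖∑ x ∈ (PP F i).filter (fun x => fo F i x = y), wt F 𝔫 i x‖ ≤ Λ i := by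
  have hc : (0 : ℝ) < (F.T i).card := Nat.cast_pos.2 (h.ne i).card_pos
  have ht := tot h i
  rw [← sum_fiberwise_of_maps_to (t := (PP F i).image (fo F i)) (g := fo F i)
    fun x hx => mem_image_of_mem _ hx] at ht
  have hb : ∀ y, ‖∑ x ∈ (PP F i).filter (fun x => fo F i x = y), wt F 𝔫 i x‖ ≤
      ∑ x ∈ (PP F i).filter (fun x => fo F i x = y), ((F.T i).card : ℝ)⁻¹ * (NN (eI x.2))⁻¹ :=
    fun y => norm_sum_le_of_le _ fun x _ => norm_wt h 𝔫 i x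
  by_cases hi : i ∈ F.E
  · exact ((sum_le_sum fun y _ => hb y).trans ht).trans (h1 i hi)
  obtain ⟨t₀, ht₀⟩ := h.ne i
  have h0 : (⟨0, ∅⟩ : Σ _ : 𝓞 K, Finset (Pl K)) ∈ (PP F i).image (fo F i) :=
    mem_image.2 ⟨⟨t₀, ∅⟩, by simp [ht₀], by simp [fo, hi]⟩
  have hs : ∀ {M : Type} [AddCommMonoid M] (g : (Σ _ : 𝓞 K, Finset (Pl K)) → M),
      ∑ x ∈ (PP F i).filter (fun x => fo F i x = ⟨0, ∅⟩), g x = ∑ t ∈ F.T i, g ⟨t, ∅⟩ := by
    intro M _ g
    rw [sum_filter, sum_sigma]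
    refine sum_congr rfl fun t _ => ?_
    rw [sum_eq_single_of_mem ∅ (by simp) fun S _ hS => if_neg (by simpa [fo, hi] using hS)]
    exact if_pos (by simp [fo, hi])
  rw [← add_sum_erase _ _ h0] at ht ⊢
  have e1 : ∑ t ∈ F.T i, ((F.T i).card : ℝ)⁻¹ * (NN (eI (∅ : Finset (Pl K))))⁻¹ = 1 := by
    simp [eI, NN, hc.ne']
  have e2 : ‖∑ t ∈ F.T i, wt F 𝔫 i ⟨t, ∅⟩‖ =
      ‖∑ t ∈ F.T i, F.a i t * jac t 𝔫‖ / (F.T i).card := by
    simp [wt, eI, NN, ← mul_sum, div_eq_inv_mul]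
  rw [hs] at ht ⊢
  rw [e1] at ht
  rw [e2]
  linarith [h2 i hi, sum_le_sum (s := ((PP F i).image (fo F i)).erase ⟨0, ∅⟩) fun y _ => hb y]

end PSg

open PSg in
theorem x_sg (c : Ctx k K) (hPhi : X_Phi) : X_Sg K := by
  intro η A hη hA
  obtain ⟨c₀, hc₀, hP⟩ := hPhi η A hη hA
  refine ⟨c₀, hc₀, fun ι _ _ F σ Λ Z f C A' 𝔫 hF hB h𝔫 h1 h2 => ?_⟩
  have hA' := hB.nonneg
  set W : (ι → Σ _ : 𝓞 K, Finset (Pl K)) → ℂ := fun y =>
    ∏ i, ∑ x ∈ (PP F i).filter (fun x => fo F i x = y i), wt F 𝔫 i x with hW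
  have hne : ∀ y : ι → Σ _ : 𝓞 K, Finset (Pl K), 𝔫 * (∏ i, eI (y i).2) ^ 2 ≠ ⊥ := fun y =>
    mul_ne_zero h𝔫 (pow_ne_zero _ (prod_ne_zero_iff.2 fun i _ => eI_ne_bot _))
  refine (Dom.sum' (Fintype.piFinset fun i => (PP F i).image (fo F i))
    (Φ := fun y τ => W y * bb f C (𝔫 * (∏ i, eI (y i).2) ^ 2) τ)
    (γ := fun y => ‖W y‖ * A' * c₀) (fun y _ => ?_) fun τ _ => ?_).mono ?_
  · have hM := NN_pos (hne y)
    refine ((hP _ 1 hM one_pos).1 (fun τ => (ph η A (τ * NN (𝔫 * (∏ i, eI (y i).2) ^ 2)) : ℝ))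
      fun τ hτ => ?_).mul' (by positivity) fun τ hτ => ?_
    · rw [Complex.norm_real, Real.norm_of_nonneg (ph_nonneg _ _ (by positivity))]
    · rw [Complex.norm_real, Real.norm_of_nonneg (ph_nonneg _ _ (by positivity)), norm_mul,
        mul_assoc]
      exact mul_le_mul_of_nonneg_left (hB _ (hne y) τ hτ) (norm_nonneg _)
  · rw [av_eq]
    refine norm_sum_le_of_le _ fun y _ => ?_
    rw [norm_mul, norm_mul]
    refine mul_le_mul_of_nonneg_left ?_ (norm_nonneg _)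
    split_ifs
    · rw [norm_mul, Complex.norm_real, Real.norm_of_nonneg (by positivity)]
      exact mul_le_of_le_one_left (norm_nonneg _)
        (inv_le_one_of_one_le₀ (Real.one_le_sqrt.2 (one_le_NN h𝔫)))
    · simp
  · rw [← sum_mul, ← sum_mul, mul_comm (c₀ * A'), mul_comm c₀, ← mul_assoc]
    refine mul_le_mul_of_nonneg_right (mul_le_mul_of_nonneg_right ?_ hA') (by positivity)
    simp only [hW, norm_prod]
    rw [← prod_univ_sum (fun i => (PP F i).image (fo F i)) fun i y =>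
      ‖∑ x ∈ (PP F i).filter (fun x => fo F i x = y), wt F 𝔫 i x‖]
    exact prod_le_prod (fun i _ => by positivity) fun i _ => mass hF 𝔫 h1 h2 i

end Pool.Agent.P.MP_b8021b_nt.BS
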