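import Pool.Agent.P.MP_b8021b_nt.BS.BasicD

/-! All squarefree parts that are not small: dyadic blocks and the tail. -/

namespace Pool.Agent.P.MP_b8021b_nt.BS

open NumberField IsDedekindDomain Finset MeasureTheory
open Pool.Agent.P.MP_b8021b_nt.VE Pool.Agent.P.MP_b8021b_nt.VC Pool.Agent.P.MP_b8021b_nt.BS.CF
open scoped Classical ComplexConjugate Real
variable {k : Type} [Field k] [NumberField k] [Algebra k ℂ] {K : Type} [Field K] [NumberField K] [Algebra k K]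

namespace PSide

theorem split (φ : Ideal (𝓞 K) → ℂ) {a b d : ℝ} (h1 : a ≤ b) (h2 : b ≤ d) :
    ∑ I ∈ sqf K a d, φ I = ∑ I ∈ sqf K a b, φ I + ∑ I ∈ sqf K b d, φ I := by
  rw [← sum_union]
  · refine sum_congr ?_ fun _ _ => rfl
    ext I
    simp only [mem_union, mem_sqf]
    constructor
    · rintro ⟨h, ha, hd⟩
      rcases lt_or_ge (NN I) b with e | e
      · exact Or.inl ⟨h, ha, e⟩
      · exact Or.inr ⟨h, e, hd⟩
    · rintro (⟨h, ha, hb⟩ | ⟨h, hb, hd⟩)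
      · exact ⟨h, ha, hb.trans_le h2⟩
      · exact ⟨h, h1.trans hb, hd⟩
  · rw [disjoint_left]
    intro I h h'
    exact absurd (mem_sqf.1 h).2.2 (not_lt.2 (mem_sqf.1 h').2.1)

theorem blocks (φ : Ideal (𝓞 K) → ℂ) (j n : ℕ) :
    ∑ I ∈ sqf K 1 (2 ^ (j + n)), φ I = ∑ I ∈ sqf K 1 (2 ^ j), φ I +
      ∑ i ∈ range n, ∑ I ∈ sqf K (2 ^ (j + i)) (2 ^ (j + i + 1)), φ I := by
  induction n with
  | zero => simp
  | succ n ih =>
    rw [sum_range_succ, ← add_assoc (∑ I ∈ sqf K 1 (2 ^ j), φ I), ← ih]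
    exact split φ (one_le_pow₀ one_le_two) (pow_le_pow_right₀ one_le_two (by omega))

theorem geo {δ : ℝ} (hδ : 0 < δ) (j n : ℕ) :
    ∑ i ∈ range n, ((2 : ℝ) ^ (j + i)) ^ (-δ) ≤ (1 - (2 : ℝ) ^ (-δ))⁻¹ * ((2 : ℝ) ^ j) ^ (-δ) := by
  have h0 : (0 : ℝ) ≤ (2 : ℝ) ^ (-δ) := by positivity
  have h1 : (2 : ℝ) ^ (-δ) < 1 := Real.rpow_lt_one_of_one_lt_of_neg one_lt_two (by linarith)
  have e : ∀ i : ℕ, ((2 : ℝ) ^ (j + i)) ^ (-δ) = ((2 : ℝ) ^ (-δ)) ^ i * ((2 : ℝ) ^ j) ^ (-δ) := by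
    intro i
    rw [pow_add, Real.mul_rpow (by positivity) (by positivity), mul_comm,
      ← Real.rpow_natCast_mul two_pos.le, ← Real.rpow_mul_natCast two_pos.le, mul_comm (i : ℝ)]
  simp only [e, ← sum_mul]
  refine mul_le_mul_of_nonneg_right ?_ (by positivity)
  rw [← tsum_geometric_of_lt_one h0 h1]
  exact (summable_geometric_of_lt_one h0 h1).sum_le_tsum _ fun _ _ => by positivity

end PSide

theorem x_side (c : Ctx k K) (hRng : X_Rng K) (hTail : X_Tail K) : X_Side K := by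
  intro η A δ hη hA hδ
  obtain ⟨cR, hR1, hR⟩ := hRng η A hη hA
  obtain ⟨cT, hT1, hT⟩ := hTail η A hη hA
  have h1 : (2 : ℝ) ^ (-δ) < 1 := Real.rpow_lt_one_of_one_lt_of_neg one_lt_two (by linarith)
  have hg : 0 ≤ (1 - (2 : ℝ) ^ (-δ))⁻¹ := inv_nonneg.2 (by linarith)
  set g := (1 - (2 : ℝ) ^ (-δ))⁻¹ with hgd
  have hRg : 0 ≤ cR * g := by positivity
  refine ⟨cR * g + cT, by linarith, ?_⟩
  intro ι _ _ F σ Z f C A₀ A' C₁ h j₀ j₁ hF hf hC hB hj hC₁ hcov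
  obtain ⟨n, rfl⟩ := Nat.exists_eq_add_of_le hj
  have hA' := hB.nonneg
  have hP : 0 ≤ ∏ i, (1 + σ i) := prod_nonneg fun i _ => by linarith [hF.sigma i]
  have hZ := hF.pos
  set P := ∏ i, (1 + σ i) with hPd
  have t := hT ι F σ Z f C A₀ A' (2 ^ (j₀ + n)) hF hf hC hB (one_le_pow₀ one_le_two)
  have b : ∀ i ∈ range n, Dom (fun τ => ∑ 𝔫 ∈ sqf K (2 ^ (j₀ + i)) (2 ^ (j₀ + i + 1)),
      F.av (fun ω => pc f C ω 𝔫 τ) τ)
      (cR * A' * P * 2 ^ h * C₁ * ((2 : ℝ) ^ (j₀ + i)) ^ (-δ)) := by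
    intro i hi
    obtain ⟨s, l, hsl, hE, hs, hl, Δ, Δ', hΔ, hΔ', HS, HL, hb⟩ :=
      hcov (j₀ + i) (by omega) (by have := mem_range.1 hi; omega)
    refine (hR ι F σ Z f C A' (2 ^ (j₀ + i)) Δ Δ' h s l _ hF hB (by positivity) ?_ hsl hE hs hl
      hΔ hΔ' HS HL).mono ?_
    · intro I hI
      have := mem_sqf.1 hI
      exact ⟨this.2.1, by have := this.2.2.le; rwa [pow_succ'] at this⟩
    · rw [mul_assoc _ C₁]
      exact mul_le_mul_of_nonneg_left hb (by positivity)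
  refine ((t.add (Dom.sum _ b)).congr fun τ _ => ?_).mono ?_
  · rw [PSide.blocks]; ring
  · rw [← mul_sum]
    have e := mul_le_mul_of_nonneg_left (PSide.geo hδ j₀ n)
      (show 0 ≤ cR * A' * P * 2 ^ h * C₁ by positivity)
    rw [← hgd] at e
    have p1 : 0 ≤ cT * A' * P * (2 ^ h * C₁ * ((2 : ℝ) ^ j₀) ^ (-δ)) := by positivity
    have p2 : 0 ≤ cR * g * A' * P * (Z ^ A * ((2 : ℝ) ^ (j₀ + n)) ^ (1 / 2 - A)) := by positivity
    linarith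

end Pool.Agent.P.MP_b8021b_nt.BS
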