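import Pool.Agent.P.MP_b8021b_nt.BS.BasicD

/-! Covariance of the dual coefficients under a ray class. -/

namespace Pool.Agent.P.MP_b8021b_nt.BS

open NumberField IsDedekindDomain Finset MeasureTheory
open Pool.Agent.P.MP_b8021b_nt.VE Pool.Agent.P.MP_b8021b_nt.VC Pool.Agent.P.MP_b8021b_nt.BS.CF
open scoped Classical ComplexConjugate Real
variable {k : Type} [Field k] [NumberField k] [Algebra k ℂ] {K : Type} [Field K] [NumberField K]
  [Algebra k K]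

namespace PSq1

variable {n : ℕ} {ℓ : ℝ}

/-- the unit with given exponents -/
noncomputable def eu (U : UB k K n ℓ) (μ : Fin U.m → ℤ) : (𝓞 K)ˣ := ∏ j, U.ε j ^ μ j

theorem eu_neg (U : UB k K n ℓ) (μ : Fin U.m → ℤ) : eu U (-μ) * eu U μ = 1 := by
  simp only [eu, ← prod_mul_distrib, Pi.neg_apply, zpow_neg, inv_mul_cancel, prod_const_one]

/-- a function on the units that is invariant under the generators is invariant -/
theorem inv_eu (U : UB k K n ℓ) {H : (𝓞 K)ˣ → ℂ} (hH : ∀ j η, H (U.ε j * η) = H η)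
    (μ : Fin U.m → ℤ) (η : (𝓞 K)ˣ) : H (eu U μ * η) = H η := by
  let S : Subgroup (𝓞 K)ˣ :=
    { carrier := {u | ∀ η, H (u * η) = H η}
      one_mem' := fun η => by rw [one_mul]
      mul_mem' := fun {a b} ha hb η => by rw [mul_assoc, ha, hb]
      inv_mem' := fun {a} ha η => by rw [← ha, mul_inv_cancel_left] }
  exact (S.prod_mem fun j _ => S.zpow_mem (hH j) (μ j)) η

/-- the summand of the double sum -/
noncomputable def dd (U : UB k K n ℓ) (H : (𝓞 K)ˣ → ℂ) (a b : 𝓞 K)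
    (p : (𝓞 K)ˣ × (Fin U.m → ℤ)) : ℂ :=
  H p.1 * (U.β (emb k (p.1 * a)) : ℝ) * (U.β (emb k (eu U p.2 : 𝓞 K) * emb k ((p.1 : 𝓞 K) * b)) : ℝ)

theorem dd_sum (c : Ctx k K) (hGn : X_Gn k K) (U : UB k K n ℓ) (H : (𝓞 K)ˣ → ℂ) {a b : 𝓞 K}
    (ha : a ≠ 0) (hb : b ≠ 0) :
    ∑ᶠ p, dd U H a b p = ∑ᶠ η : (𝓞 K)ˣ, H η * (U.β (emb k (η * a)) : ℝ) := by
  obtain ⟨B, -⟩ := c.bf
  obtain ⟨J, -, hJ, -⟩ := hGn n ℓ U
  have hp := fun η : (𝓞 K)ˣ => (c.lib.part k B K n ℓ U).1 (emb k (η * b))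
    (emb_ne_zero (mul_ne_zero η.ne_zero hb))
  have hA : {η : (𝓞 K)ˣ | U.β (emb k (η * a)) ≠ 0}.Finite :=
    ((hJ a ha).1.preimage (f := fun η : (𝓞 K)ˣ => (η : 𝓞 K) * a)
      fun η _ η' _ e => Units.ext (mul_right_cancel₀ ha e)).subset
      fun η h => ⟨Ideal.span_singleton_mul_left_unit η.isUnit a, h⟩
  rw [finsum_curry]
  · refine finsum_congr fun η => ?_
    simp only [dd]
    rw [← mul_finsum, mul_right_eq_self₀]
    left
    have := AddMonoidHom.map_finsum_of_injective (Complex.ofRealHom : ℝ →+ ℂ)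
      Complex.ofReal_injective fun μ => U.β (emb k (eu U μ : 𝓞 K) * emb k ((η : 𝓞 K) * b))
    refine this.symm.trans ?_
    simp only [eu]
    rw [(hp η).2]
    simp
  · refine (hA.biUnion fun η _ => (Set.finite_singleton η).prod (hp η).1).subset fun p h => ?_
    simp only [Function.mem_support, dd, mul_ne_zero_iff, Complex.ofReal_ne_zero] at h
    exact Set.mem_biUnion h.1.2 ⟨rfl, h.2⟩

/-- the sum over the units does not depend on the base point -/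
theorem shift (c : Ctx k K) (hGn : X_Gn k K) (U : UB k K n ℓ) {H : (𝓞 K)ˣ → ℂ}
    (hH : ∀ j η, H (U.ε j * η) = H η) {a b : 𝓞 K} (ha : a ≠ 0) (hb : b ≠ 0) :
    ∑ᶠ η : (𝓞 K)ˣ, H η * (U.β (emb k (η * a)) : ℝ) =
      ∑ᶠ η : (𝓞 K)ˣ, H η * (U.β (emb k (η * b)) : ℝ) := by
  rw [← dd_sum c hGn U H ha hb, ← dd_sum c hGn U H hb ha]
  have i : Function.Involutive fun p : (𝓞 K)ˣ × (Fin U.m → ℤ) => (eu U p.2 * p.1, -p.2) :=
    fun p => by simp only [← mul_assoc, eu_neg, one_mul, neg_neg]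
  rw [← finsum_comp_equiv i.toPerm]
  refine finsum_congr fun p => ?_
  simp only [dd, Function.Involutive.coe_toPerm, inv_eu U hH, ← emb_mul, Units.val_mul,
    ← mul_assoc, ← Units.val_mul (eu U (-p.2)), eu_neg, Units.val_one, one_mul]
  ring

theorem CC_sp (U : UB k K n ℓ) (G : 𝓞 K → ℂ) {a : 𝓞 K} (ha : a ≠ 0) :
    CC U G (sp a) = ∑ᶠ η : (𝓞 K)ˣ, G (η * a) * (U.β (emb k (η * a)) : ℝ) := by
  have e : {κ : 𝓞 K | sp κ = sp a} = Set.range fun η : (𝓞 K)ˣ => (η : 𝓞 K) * a := by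
    refine Set.ext fun κ => ⟨fun h => ?_, ?_⟩
    · obtain ⟨u, hu⟩ := Ideal.span_singleton_eq_span_singleton.1 (Eq.symm h)
      exact ⟨u, by rw [← hu, mul_comm]⟩
    · rintro ⟨η, rfl⟩
      exact Ideal.span_singleton_mul_left_unit η.isUnit a
  rw [CC, e, finsum_mem_range fun η η' e => Units.ext (mul_right_cancel₀ ha e)]

theorem CC_zero (U : UB k K n ℓ) (G : 𝓞 K → ℂ) {I : Ideal (𝓞 K)} (h : ¬ ∃ a, sp a = I) :
    CC U G I = 0 := by
  rw [CC, Set.eq_empty_of_forall_notMem (s := {κ | sp κ = I}) fun a e => h ⟨a, e⟩,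
    finsum_mem_empty]

/-- transport of a generator -/
theorem gen {𝔫 I J : Ideal (𝓞 K)} {α β a : 𝓞 K} (hβ : β ≠ 0)
    (h : I * sp α = J * sp β) (ha : sp a = 𝔫 * I ^ 2) :
    ∃ b, sp b = 𝔫 * J ^ 2 ∧ a * α ^ 2 = b * β ^ 2 := by
  have e : sp (a * α ^ 2) = 𝔫 * J ^ 2 * sp (β ^ 2) := by
    rw [sp, sp, ← Ideal.span_singleton_mul_span_singleton, ← Ideal.span_singleton_pow,
      ← Ideal.span_singleton_pow, ← sp, ha, mul_assoc, mul_assoc, ← mul_pow, ← mul_pow]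
    exact congrArg (fun X => 𝔫 * X ^ 2) h
  obtain ⟨b, hb⟩ : β ^ 2 ∣ a * α ^ 2 := by
    rw [← Ideal.span_singleton_le_span_singleton]
    exact e.le.trans Ideal.mul_le_right
  refine ⟨b, mul_right_cancel₀ (b := sp (β ^ 2)) (by simpa using hβ) ?_, by rw [hb, mul_comm]⟩
  rw [← e, hb, mul_comm (β ^ 2), Ideal.span_singleton_mul_span_singleton]

end PSq1

open PSq1 in
theorem x_sq1 (c : Ctx k K) (hGn : X_Gn k K) : X_Sq1 k K := by
  rintro m ℓ U Ψ f hm hΨ hf 𝔫 I J h𝔫 hI hJ ⟨α, β, hα, hβ, dα, dβ, h⟩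
  by_cases ex : ∃ a, sp a = 𝔫 * I ^ 2
  swap
  · rw [CC_zero U _ ex, CC_zero U _ fun ⟨b, hb⟩ => ex ((gen hα h.symm hb).imp fun _ e => e.1),
      zero_mul, zero_mul]
  obtain ⟨a, ha⟩ := ex
  obtain ⟨b, hb, e⟩ := gen hβ h ha
  have a0 : a ≠ 0 := fun z => mul_ne_zero h𝔫 (pow_ne_zero 2 (Cop_ne_bot hm hI)) (by
    rw [← ha, z]; simp)
  have b0 : b ≠ 0 := fun z => mul_ne_zero h𝔫 (pow_ne_zero 2 (Cop_ne_bot hm hJ)) (by
    rw [← hb, z]; simp)
  have hc : Ψ I * dP (emb k α) = Ψ J * dP (emb k β) := by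
    rw [dP_eq_ty, dP_eq_ty, ← hΨ.prin α dα, ← hΨ.prin β dβ, ← map_mul, ← map_mul, h]
  have hH : ∀ j (η : (𝓞 K)ˣ), f ((U.ε j * η : (𝓞 K)ˣ) * a) *
      conj (dP (emb k (((U.ε j * η : (𝓞 K)ˣ) : 𝓞 K) * a))) =
      f (η * a) * conj (dP (emb k ((η : 𝓞 K) * a))) := by
    intro j η
    rw [Units.val_mul, mul_assoc, emb_mul, dP_mul, dP_eq_ty (emb k (U.ε j : 𝓞 K)), hΨ.tr U j,
      one_mul, hf _ (η * a)]
    rw [← sub_one_mul]
    exact Ideal.mem_span_singleton.2 ((U.cong j).mul_right _)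
  rw [← ha, ← hb, CC_sp U _ a0, CC_sp U _ b0,
    shift c hGn U (H := fun η => f (η * a) * conj (dP (emb k ((η : 𝓞 K) * a)))) hH a0 b0,
    finsum_mul, finsum_mul]
  refine finsum_congr fun η => ?_
  have e1 : f (η * a) = f (η * b) := by
    refine hf _ _ (Ideal.mem_span_singleton.2 ?_)
    have : (η : 𝓞 K) * a - η * b = η * b * (β + 1) * (β - 1) - η * a * (α + 1) * (α - 1) := by
      linear_combination (η : 𝓞 K) * e
    rw [this]
    exact dvd_sub (dβ.mul_left _) (dα.mul_left _)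
  have e2 : dP (emb k ((η : 𝓞 K) * a)) * dP (emb k α) ^ 2 =
      dP (emb k ((η : 𝓞 K) * b)) * dP (emb k β) ^ 2 := by
    simp only [sq, ← dP_mul, ← emb_mul]
    rw [← sq, ← sq, mul_assoc, mul_assoc, e]
  have e3 : dP (emb k ((η : 𝓞 K) * a)) * Ψ J ^ 2 = dP (emb k ((η : 𝓞 K) * b)) * Ψ I ^ 2 := by
    have z' : dP (emb k α) ≠ 0 := norm_ne_zero_iff.1 (by rw [norm_dP (emb_ne_zero hα)]; simp)
    refine mul_right_cancel₀ (pow_ne_zero 2 z') ?_
    linear_combination Ψ J ^ 2 * e2 -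
      dP (emb k ((η : 𝓞 K) * b)) * (Ψ I * dP (emb k α) + Ψ J * dP (emb k β)) * hc
  have e4 := congrArg conj e3
  simp only [map_mul, map_pow] at e4
  simp only [cj_apply, MonoidHom.mul_apply, map_mul, e1]
  linear_combination f (η * b) * (U.β (emb k (η * b)) : ℝ) * e4

end Pool.Agent.P.MP_b8021b_nt.BS
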