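import Pool.Agent.P.MP_b8021b_nt.BS.BasicD
import Pool.Agent.P.MP_b8021b_nt.BS.PoiU

/-! The theta transformation with periodic coefficients. -/

namespace Pool.Agent.P.MP_b8021b_nt.BS

open NumberField IsDedekindDomain Finset MeasureTheory
open Pool.Agent.P.MP_b8021b_nt.VE Pool.Agent.P.MP_b8021b_nt.VC Pool.Agent.P.MP_b8021b_nt.BS.CF
open scoped Classical ComplexConjugate Real
variable {k : Type} [Field k] [NumberField k] [Algebra k ℂ] {K : Type} [Field K] [NumberField K]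
  [Algebra k K]

namespace PT1

theorem etr_eq (ξ : K) : etr ξ = PoiN.ee (PoiN.tr ξ) := by simp [etr, PoiN.ee, PoiN.tr]

theorem dual_iff {𝔮 : Ideal (𝓞 K)} {ξ : K} : ξ ∈ Dual 𝔮 ↔ PoiN.DualI 𝔮 ξ :=
  forall₂_congr fun a _ => exists_congr fun m => by
    rw [PoiN.tr]
    exact ⟨fun h => by exact_mod_cast h, fun h => by exact_mod_cast h⟩

theorem ft_eq {𝔮 : Ideal (𝓞 K)} (h : 𝔮 ≠ ⊥) (F : 𝓞 K → ℂ) (ξ : K) : ft 𝔮 F ξ =
    Ideal.absNorm 𝔮 * PoiN.av 𝔮 fun x => F x * PoiN.ee (PoiN.tr (ξ * x)) := by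
  rw [PoiN.av, mul_div_cancel₀ _ (PoiN.nm_ne h), ft]
  simp only [etr_eq]

theorem gau_eq {ι : Type} [Fintype ι] (y : ι → ℝ) (z : ι → ℂ) : PoiN.Gau 0 y z = gau y z := by
  rw [PoiN.Gau_zero, gau, neg_mul]

theorem kk_eq {n : ℕ} {ℓ : ℝ} (U : UB k K n ℓ) : kk U = PoiN.kk U := by
  funext x
  simp only [kk, PoiN.kk, PoiN.GG, PoiN.yy, rk, ← U.hm, ← mul_sum, Nat.cast_add, Nat.cast_one,
    neg_mul, mul_assoc]

end PT1

open PT1 in
theorem x_t1 (c : Ctx k K) : X_T1 k K := by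
  intro 𝔮 F y e h𝔮 hF he hy
  obtain ⟨B, -⟩ := c.bf
  obtain ⟨d, hd, h⟩ := PoiN.poisson_per B K
  have h1 := (h e y 𝔮 F he hy h𝔮 hF).2.1
  have h2 := (Equiv.subtypeEquivRight fun ξ => dual_iff (𝔮 := 𝔮) (ξ := ξ)).hasSum_iff.2 h1
  simp only [PoiN.Gau_eq e, gau_eq] at h2
  rw [← h2.tsum_eq, ← tsum_mul_left]
  refine tsum_congr fun ξ => ?_
  have h3 : ∏ φ, -Complex.I * conj (emK k ξ.1 φ) / y φ =
      (∏ φ, -Complex.I / y φ) * conj (∏ φ, PoiN.embE k ξ.1 φ) := by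
    rw [map_prod, ← prod_mul_distrib]
    exact prod_congr rfl fun φ _ => mul_div_right_comm _ _ _
  simp only [Function.comp_apply, Equiv.subtypeEquivRight_apply, PoiN.Gauh_eq, gau_eq, ft_eq h𝔮,
    h3, eq_inv_of_mul_eq_one_left hd, prod_mul_distrib, prod_pow, mul_pow]
  have := PoiN.nm_ne h𝔮
  push_cast
  simp only [one_div]
  field_simp
  rfl

end Pool.Agent.P.MP_b8021b_nt.BS
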