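import Pool.Agent.P.MP_b8021b_nt.BS.BasicD

/-! The bound for the terms with a large squarefree part. -/

namespace Pool.Agent.P.MP_b8021b_nt.BS

open NumberField IsDedekindDomain Finset MeasureTheory
open Pool.Agent.P.MP_b8021b_nt.VE Pool.Agent.P.MP_b8021b_nt.VC Pool.Agent.P.MP_b8021b_nt.BS.CF
open scoped Classical ComplexConjugate Real

variable {k : Type} [Field k] [NumberField k] [Algebra k ℂ] {K : Type} [Field K] [NumberField K]
  [Algebra k K]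

namespace PTail

variable {ι : Type} [Fintype ι] [DecidableEq ι]

/-- the tail of a series is bounded by a bound for the finite sums in the tail -/
theorem tail_le {α : Type*} {g : α → ℂ} {a : ℂ} {B : ℝ} (h : HasSum g a) (s : Finset α)
    (hB : ∀ t : Finset α, (∀ x ∈ t, x ∉ s) → ‖∑ x ∈ t, g x‖ ≤ B) : ‖a - ∑ x ∈ s, g x‖ ≤ B := by
  refine le_of_tendsto (Filter.Tendsto.norm (Filter.Tendsto.sub_const h _))
    ((Filter.eventually_ge_atTop s).mono fun u hu => ?_)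
  rw [← sum_sdiff hu, add_sub_cancel_right]
  exact hB _ fun x hx => (mem_sdiff.1 hx).2

theorem norm_pc {f : ℝ → ℝ} {C : Ideal (𝓞 K) → ℂ} {A' η A τ : ℝ} (hB : BB f C A' η A)
    (hA : 0 ≤ A) (ω : ι → 𝓞 K) {𝔫 : Ideal (𝓞 K)} (h𝔫 : 𝔫 ≠ ⊥) (hτ : 0 < τ) :
    ‖pc f C ω 𝔫 τ‖ ≤ A' * τ ^ (-A) * (∏ i, dv (ω i)) * NN 𝔫 ^ (-(A + 1 / 2)) := by
  have hN := NN_pos h𝔫
  have hA' := hB.nonneg
  have h1 : ‖∏ i, jac (ω i) 𝔫‖ ≤ 1 := by
    rw [norm_prod]
    exact prod_le_one (fun _ _ => norm_nonneg _) fun _ _ => norm_jac_le _ _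
  have h2 : ‖∑ S ∈ Fintype.piFinset fun i => (pr (ω i)).powerset,
      ((∏ i, ((-1) ^ (S i).card / NN (eI (S i)) : ℝ) : ℝ) : ℂ) *
        bb f C (𝔫 * (∏ i, eI (S i)) ^ 2) τ‖ ≤ (∏ i, dv (ω i)) * (A' * (τ * NN 𝔫) ^ (-A)) := by
    simp only [dv_eq_sum]
    rw [prod_univ_sum, sum_mul]
    refine norm_sum_le_of_le _ fun S _ => ?_
    have hE : (∏ i, eI (S i)) ^ 2 ≠ ⊥ :=
      pow_ne_zero _ (prod_ne_zero_iff.2 fun i _ => eI_ne_bot _)
    rw [norm_mul, Complex.norm_real, norm_prod]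
    refine mul_le_mul (le_of_eq (prod_congr rfl fun i _ => ?_))
      ((hB _ (mul_ne_zero h𝔫 hE) τ hτ).trans (mul_le_mul_of_nonneg_left
        ((min_le_right _ _).trans ?_) hA')) (norm_nonneg _)
      (prod_nonneg fun _ _ => inv_nonneg.2 (Nat.cast_nonneg _))
    · rw [norm_div, norm_pow, norm_neg, norm_one, one_pow,
        Real.norm_of_nonneg (Nat.cast_nonneg _), one_div]
    · refine Real.rpow_le_rpow_of_nonpos (mul_pos hτ hN) ?_ (neg_nonpos.2 hA)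
      rw [NN_mul]
      exact mul_le_mul_of_nonneg_left (le_mul_of_one_le_right hN.le (one_le_NN hE)) hτ.le
  rw [pc, norm_mul, norm_mul, Complex.norm_real, Real.norm_of_nonneg (by positivity)]
  refine (mul_le_mul (mul_le_of_le_one_left (by positivity) h1) h2 (norm_nonneg _)
    (by positivity)).trans_eq ?_
  rw [Real.mul_rpow hτ.le hN.le, neg_add, Real.rpow_add hN, Real.rpow_neg hN.le (1 / 2),
    Real.sqrt_eq_rpow]
  ring

theorem norm_av {F : Fam K ι} {σ : ι → ℝ} {Z τ B : ℝ} (h : F.Ok σ Z) (hτ : 0 < τ) (hB : 0 ≤ B)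
    {g : (ι → 𝓞 K) → ℂ} (hg : ∀ ω ∈ Fintype.piFinset F.T, ‖g ω‖ ≤ B) :
    ‖F.av g τ‖ ≤ if 1 ≤ τ * Z then B else 0 := by
  have hc : (0 : ℝ) < ∏ i, ((F.T i).card : ℝ) :=
    prod_pos fun i _ => Nat.cast_pos.2 (h.ne i).card_pos
  rw [Fam.av, norm_mul, norm_inv, norm_prod]
  simp only [Complex.norm_natCast]
  rw [inv_mul_le_iff₀ hc, ← Nat.cast_prod, ← Fintype.card_piFinset, ← nsmul_eq_mul]
  refine (norm_sum_le _ _).trans (sum_le_card_nsmul _ _ _ fun ω hω => ?_)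
  have ha : ‖∏ i, F.a i (ω i)‖ ≤ 1 := by
    rw [norm_prod]
    exact prod_le_one (fun _ _ => norm_nonneg _) fun _ _ => h.a_le _ _
  refine (norm_mul _ _).trans_le ((mul_le_of_le_one_left (norm_nonneg _) ha).trans ?_)
  by_cases e : F.lam ≤ τ * ∏ i ∈ F.E, NN (sp (ω i))
  · rw [if_pos e, if_pos (h.of_cut hω hτ e)]
    exact hg ω hω
  · rw [if_neg e, norm_zero]
    split_ifs
    exacts [hB, le_rfl]

end PTail

open PTail in
theorem x_tail (c : Ctx k K) (hCnt : X_Cnt K) (hPhi : X_Phi) (hDec : X_Dec K) : X_Tail K := by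
  intro η A hη hA
  obtain ⟨_, -, hP⟩ := hPhi η A hη hA
  obtain ⟨-, c₀, hc₀, hC⟩ := hCnt.2 (A + 1 / 2) (by linarith)
  refine ⟨c₀, hc₀, fun ι _ _ F σ Z f C A₀ A' M hF hf hb hB hM => ?_⟩
  have hA' := hB.nonneg
  have hσ : 0 ≤ ∏ i, (1 + σ i) := prod_nonneg fun i _ => by linarith [hF.sigma i]
  have hD := (hP 1 Z one_pos hF.pos).2.2.1
    (fun τ => ((if 1 ≤ τ * Z then (τ * 1) ^ (-A) else 0 : ℝ) : ℂ)) fun τ hτ => by
      rw [Complex.norm_real, Real.norm_of_nonneg (by split_ifs <;> positivity)]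
  refine (hD.mul' (a := c₀ * A' * (∏ i, (1 + σ i)) * M ^ (1 / 2 - A)) (by positivity)
    fun τ hτ => ?_).mono (le_of_eq (by rw [div_one]; ring))
  rw [← F.av_sum, ← F.av_sub, Complex.norm_real,
    Real.norm_of_nonneg (by split_ifs <;> positivity), mul_ite, mul_zero]
  refine norm_av hF hτ (by positivity) fun ω hω => ?_
  have hm := Fintype.mem_piFinset.1 hω
  have hd : ∏ i, dv (ω i) ≤ ∏ i, (1 + σ i) :=
    prod_le_prod (fun i _ => zero_le_one.trans (one_le_dv _)) fun i _ => hF.dv_le i _ (hm i)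
  rw [← sum_congr rfl fun 𝔫 (h : 𝔫 ∈ sqf K 1 M) =>
    (if_pos (mem_sqf.1 h).1 : (if Squarefree 𝔫 then pc f C ω 𝔫 τ else 0) = _)]
  refine tail_le (hDec ι f C A₀ ω τ hf hb (fun i => hF.sq i _ (hm i))
    (fun i j e => hF.cop i j e _ (hm i) _ (hm j)) hτ) _ fun t ht => ?_
  rw [← sum_filter]
  refine (norm_sum_le_of_le _ fun 𝔫 h =>
    norm_pc hB (by linarith) ω (mem_filter.1 h).2.ne_zero hτ).trans ?_
  rw [← mul_sum]
  refine (mul_le_mul (mul_le_mul_of_nonneg_left hd (by positivity)) (hC M _ hM fun 𝔫 h => ?_)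
    (by positivity) (by positivity)).trans_eq ?_
  · have h2 := (mem_filter.1 h).2
    exact not_lt.1 fun e => ht 𝔫 (mem_filter.1 h).1 (mem_sqf.2 ⟨h2, one_le_NN h2.ne_zero, e⟩)
  · rw [mul_one, show 1 - (A + 1 / 2) = 1 / 2 - A by ring]
    ring

end Pool.Agent.P.MP_b8021b_nt.BS
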