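import Pool.Agent.P.MP_b8021b_nt.BS.CF.All
import Pool.Agent.P.MP_b8021b_nt.VC.PBall
import Pool.Agent.P.MP_b8021b_nt.VC.PBal
import Pool.Agent.P.MP_b8021b_nt.VC.PTyp
import Pool.Agent.P.MP_b8021b_nt.BS.PRec
import Pool.Agent.P.MP_b8021b_nt.BS.PRec0
import Pool.Agent.P.MP_b8021b_nt.BS.PVal
import Pool.Agent.P.MP_b8021b_nt.BS.PSel
import Pool.Agent.P.MP_b8021b_nt.BS.PFin
import Pool.Agent.P.MP_b8021b_nt.BS.PInf
import Pool.Agent.P.MP_b8021b_nt.BS.PTs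
import Pool.Agent.P.MP_b8021b_nt.BS.PGood
import Pool.Agent.P.MP_b8021b_nt.BS.PCnt
import Pool.Agent.P.MP_b8021b_nt.BS.PDen2
import Pool.Agent.P.MP_b8021b_nt.BS.PFV
import Pool.Agent.P.MP_b8021b_nt.BS.PLocB
import Pool.Agent.P.MP_b8021b_nt.BS.PLocG
import Pool.Agent.P.MP_b8021b_nt.BS.PEP2
import Pool.Agent.P.MP_b8021b_nt.BS.PLF
import Pool.Agent.P.MP_b8021b_nt.BS.PPrim
import Pool.Agent.P.MP_b8021b_nt.BS.PJac4
import Pool.Agent.P.MP_b8021b_nt.BS.PPsi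
import Pool.Agent.P.MP_b8021b_nt.BS.PBal2
import Pool.Agent.P.MP_b8021b_nt.BS.PNVH
import Pool.Agent.P.MP_b8021b_nt.BS.PEV
import Pool.Agent.P.MP_b8021b_nt.BS.PFam
import Pool.Agent.P.MP_b8021b_nt.BS.PT1
import Pool.Agent.P.MP_b8021b_nt.BS.PGS
import Pool.Agent.P.MP_b8021b_nt.BS.PSep
import Pool.Agent.P.MP_b8021b_nt.BS.PG1
import Pool.Agent.P.MP_b8021b_nt.BS.PG2
import Pool.Agent.P.MP_b8021b_nt.BS.PG3
import Pool.Agent.P.MP_b8021b_nt.BS.PThB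
import Pool.Agent.P.MP_b8021b_nt.BS.PPer
import Pool.Agent.P.MP_b8021b_nt.BS.PKM
import Pool.Agent.P.MP_b8021b_nt.BS.PGn
import Pool.Agent.P.MP_b8021b_nt.BS.PFE1
import Pool.Agent.P.MP_b8021b_nt.BS.PFE2
import Pool.Agent.P.MP_b8021b_nt.BS.PSq0
import Pool.Agent.P.MP_b8021b_nt.BS.PSq1
import Pool.Agent.P.MP_b8021b_nt.BS.PFE
import Pool.Agent.P.MP_b8021b_nt.BS.PMel
import Pool.Agent.P.MP_b8021b_nt.BS.PDG
import Pool.Agent.P.MP_b8021b_nt.BS.PCube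
import Pool.Agent.P.MP_b8021b_nt.BS.PTM
import Pool.Agent.P.MP_b8021b_nt.BS.PPCh
import Pool.Agent.P.MP_b8021b_nt.BS.PMQ
import Pool.Agent.P.MP_b8021b_nt.BS.PBil
import Pool.Agent.P.MP_b8021b_nt.BS.PLS1o
import Pool.Agent.P.MP_b8021b_nt.BS.PLS1
import Pool.Agent.P.MP_b8021b_nt.BS.PLS0
import Pool.Agent.P.MP_b8021b_nt.BS.PPhi
import Pool.Agent.P.MP_b8021b_nt.BS.PNum
import Pool.Agent.P.MP_b8021b_nt.BS.PDec
import Pool.Agent.P.MP_b8021b_nt.BS.PBb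
import Pool.Agent.P.MP_b8021b_nt.BS.PMainP
import Pool.Agent.P.MP_b8021b_nt.BS.PRng1
import Pool.Agent.P.MP_b8021b_nt.BS.PRng
import Pool.Agent.P.MP_b8021b_nt.BS.PSg
import Pool.Agent.P.MP_b8021b_nt.BS.PTail
import Pool.Agent.P.MP_b8021b_nt.BS.PMain
import Pool.Agent.P.MP_b8021b_nt.BS.PSide
import Pool.Agent.P.MP_b8021b_nt.BS.PCut
import Pool.Agent.P.MP_b8021b_nt.BS.PCv
import Pool.Agent.P.MP_b8021b_nt.BS.PSc
import Pool.Agent.P.MP_b8021b_nt.BS.PNV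
import Pool.Agent.P.MP_b8021b_nt.BS.Top

/-! Assembly of the packages. -/

namespace Pool.Agent.P.MP_b8021b_nt.BS

open NumberField
open Pool.Agent.P.MP_b8021b_nt.VE Pool.Agent.P.MP_b8021b_nt.VC Pool.Agent.P.MP_b8021b_nt.BS.CF

theorem lib : Lib :=
  have hRep := p_rep2 p_ray p_lamP
  have hVol := p_vol p_emb p_int
  have hPS := p_pSs p_emb p_unit hRep (p_part p_emb) hVol
    (p_pS0 p_emb hRep (p_part p_emb) (p_win2 hVol p_lat)) p_lamP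
  ⟨t_3, p_emb, p_ball p_emb, p_bal, p_ray, p_unit, hRep, p_part p_emb, p_typ p_emb, hPS,
    p_den p_emb hPS p_eP, p_bCN⟩

theorem all (K : Type) [Field K] [NumberField K] (hK : Om K) :
    ∃ B : Set K, B.Infinite ∧ (∀ b ∈ B, ∀ b' ∈ B, b ≠ b' →
      ∀ C : WeierstrassCurve.VariableChange K, C • Wb b ≠ Wb b') ∧
      ∀ b ∈ B, b ≠ 0 ∧ Finite (Wb b).toAffine.Point ∧ AnZero (Wb b) := by
  obtain ⟨k, _, _, _, B, hB, hk⟩ := exists_bf
  obtain ⟨f⟩ := hk K hK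
  let _ : Algebra k K := f.toAlgebra
  have c : Ctx k K := ⟨lib, ⟨B, hB⟩, hK⟩
  have rc := x_rec c (x_rec0 c)
  have cnt := x_cnt c
  have cls := x_cls c
  have den := x_den2 c
  have bal := x_bal2 c
  have gs := x_gS c x_cG
  have thb := x_thB c cnt
  have km := x_kM c
  have gn := x_gn c km thb
  have g1 := x_g1 c
  have g2 := x_g2 c
  have t1 := x_t1 c
  have cube := x_cube c
  have lr := x_locR c
  have ls1 := x_lS1 c (x_lS1o c cnt gs (x_bil c cnt (x_mQ c bal gs x_sep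
    (x_tM c x_cG gs (x_per c rc) (x_dG c gs) cube) (x_pCh c g1 g2 t1))))
  exact top hK rc (x_sel c (x_val c) (x_iso c)) (x_fin c) (x_inf c) (x_zeta c) (x_ts c) (x_good c)
    (x_lF c lr (x_locG c lr) (x_locB c) x_eP2)
    (x_psi c x_prim fun B hB => x_jac4 B hB (x_prim B hB))
    (x_fE c rc km gn (x_fE1 c rc (x_good c) km thb gn)
      (x_fE2 c rc g1 g2) (x_sq0 c) (x_sq1 c gn)) (x_mel c cnt thb)
    (x_nV c (x_fV c cls den) (x_ext c) (x_eV c cls) (x_nVH c) (x_g3 c rc g1 g2) thb (x_bb c thb)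
      (x_mainP c cnt thb x_phi) (x_sg c x_phi) (x_main c x_phi)
      (x_side c (x_rng c x_phi (x_rng1 c cnt)) (x_tail c cnt x_phi (x_dec c thb))) (x_cut c)
      (x_sc c (x_fam c cls den bal) (x_cv c (x_lS0 c rc cnt bal cube) ls1) x_num))

end Pool.Agent.P.MP_b8021b_nt.BS
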