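import Pool.Agent.P.MP_b8021b_nt.BS.StV

/-! Basic facts on `Dom`, `Co`, `Fam.av`, `etr`, `ft`, `gau`, `dP`, `Ctx`. -/

namespace Pool.Agent.P.MP_b8021b_nt.BS

open NumberField IsDedekindDomain Finset MeasureTheory
open Pool.Agent.P.MP_b8021b_nt.VE Pool.Agent.P.MP_b8021b_nt.VC Pool.Agent.P.MP_b8021b_nt.BS.CF
open scoped Classical ComplexConjugate Real

/-! ### domination -/

namespace Dom

variable {F F' : ℝ → ℂ} {g g' : ℝ}

theorem mono (h : Dom F g) (hg : g ≤ g') : Dom F g' :=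
  let ⟨G, a, b, c⟩ := h; ⟨G, a, b, c.trans hg⟩

theorem of_le (h : Dom F g) (hF : ∀ τ, 0 < τ → ‖F' τ‖ ≤ ‖F τ‖) : Dom F' g :=
  let ⟨G, a, b, c⟩ := h; ⟨G, a, fun τ e => (hF τ e).trans (b τ e), c⟩

theorem congr (h : Dom F g) (hF : ∀ τ, 0 < τ → F' τ = F τ) : Dom F' g :=
  h.of_le fun τ e => by rw [hF τ e]

theorem zero : Dom (fun _ => 0) 0 := ⟨0, integrableOn_zero, by simp, by simp⟩

/-- a function bounded by the sum of the norms of two dominated functions -/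
theorem add' {H : ℝ → ℂ} (h : Dom F g) (h' : Dom F' g')
    (hH : ∀ τ, 0 < τ → ‖H τ‖ ≤ ‖F τ‖ + ‖F' τ‖) : Dom H (g + g') := by
  obtain ⟨G, a, b, c⟩ := h
  obtain ⟨G', a', b', c'⟩ := h'
  refine ⟨fun τ => G τ + G' τ, a.add a', fun τ e => (hH τ e).trans ?_, ?_⟩
  · rw [mul_add]; exact add_le_add (b τ e) (b' τ e)
  · rw [integral_add a a']; exact add_le_add c c'

theorem add (h : Dom F g) (h' : Dom F' g') : Dom (fun τ => F τ + F' τ) (g + g') :=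
  h.add' h' fun _ _ => norm_add_le _ _

/-- a function bounded by a multiple of the norm of a dominated function -/
theorem mul' {H : ℝ → ℂ} {a : ℝ} (h : Dom F g) (ha : 0 ≤ a) (hH : ∀ τ, 0 < τ → ‖H τ‖ ≤ a * ‖F τ‖) :
    Dom H (a * g) := by
  obtain ⟨G, i, b, c⟩ := h
  refine ⟨fun τ => a * G τ, i.const_mul a, fun τ e => (hH τ e).trans ?_, ?_⟩
  · rw [mul_left_comm]; exact mul_le_mul_of_nonneg_left (b τ e) ha
  · rw [integral_const_mul]; exact mul_le_mul_of_nonneg_left c ha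

theorem const_mul (h : Dom F g) (z : ℂ) : Dom (fun τ => z * F τ) (‖z‖ * g) :=
  h.mul' (norm_nonneg z) fun _ _ => (norm_mul _ _).le

/-- a function bounded by a finite sum of norms of dominated functions -/
theorem sum' {ι : Type*} (s : Finset ι) {Φ : ι → ℝ → ℂ} {γ : ι → ℝ} (h : ∀ i ∈ s, Dom (Φ i) (γ i))
    {H : ℝ → ℂ} (hH : ∀ τ, 0 < τ → ‖H τ‖ ≤ ∑ i ∈ s, ‖Φ i τ‖) : Dom H (∑ i ∈ s, γ i) := by
  induction s using Finset.induction_on generalizing H with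
  | empty => exact zero.of_le fun τ e => by simpa using hH τ e
  | insert i s hi ih =>
    rw [sum_insert hi]
    refine (h i (mem_insert_self _ _)).add' (ih (H := fun τ => ((∑ i ∈ s, ‖Φ i τ‖ : ℝ) : ℂ))
      (fun j hj => h j (mem_insert_of_mem hj)) fun τ _ => ?_) fun τ e => ?_
    · rw [Complex.norm_real, Real.norm_of_nonneg (by positivity)]
    · rw [Complex.norm_real, Real.norm_of_nonneg (by positivity)]
      exact (hH τ e).trans (by rw [sum_insert hi])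

theorem sum {ι : Type*} (s : Finset ι) {Φ : ι → ℝ → ℂ} {γ : ι → ℝ}
    (h : ∀ i ∈ s, Dom (Φ i) (γ i)) : Dom (fun τ => ∑ i ∈ s, Φ i τ) (∑ i ∈ s, γ i) :=
  sum' s h fun _ _ => norm_sum_le _ _

theorem bound {G : ℝ → ℝ} (b : ∀ τ, 0 < τ → ‖F τ‖ ≤ τ * G τ) :
    ∀ᵐ τ : ℝ ∂volume.restrict (Set.Ioi 0), ‖F τ / τ‖ ≤ G τ :=
  (ae_restrict_mem measurableSet_Ioi).mono fun τ e => by
    rw [norm_div, Complex.norm_real, Real.norm_of_nonneg (le_of_lt e), div_le_iff₀' e]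
    exact b τ e

theorem norm_integral_le (h : Dom F g) : ‖∫ τ in Set.Ioi (0 : ℝ), F τ / τ‖ ≤ g :=
  let ⟨_, a, b, c⟩ := h; (norm_integral_le_of_norm_le a (bound b)).trans c

theorem nonneg (h : Dom F g) : 0 ≤ g := (norm_nonneg _).trans h.norm_integral_le

end Dom

theorem ph_nonneg (η A : ℝ) {z : ℝ} (hz : 0 ≤ z) : 0 ≤ ph η A z :=
  le_min (Real.rpow_nonneg hz _) (Real.rpow_nonneg hz _)

section Ser

variable {K : Type} [Field K] [NumberField K] {ι : Type} [Fintype ι] [DecidableEq ι]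

theorem Co.mono {C : Ideal (𝓞 K) → ℂ} {A A' η : ℝ} (h : Co C A η) (hA : A ≤ A') : Co C A' η :=
  ⟨fun I => (h.bd I).trans hA, fun 𝔫 e X =>
    (h.sq 𝔫 e X).trans (mul_le_mul_of_nonneg_right hA (by positivity))⟩

theorem BB.nonneg {f : ℝ → ℝ} {C : Ideal (𝓞 K) → ℂ} {A' η A : ℝ} (h : BB f C A' η A) : 0 ≤ A' := by
  simpa [ph, NN] using (norm_nonneg _).trans (h ⊤ top_ne_bot 1 one_pos)

theorem Fam.av_add (F : Fam K ι) (g g' : (ι → 𝓞 K) → ℂ) (τ : ℝ) :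
    F.av (fun ω => g ω + g' ω) τ = F.av g τ + F.av g' τ := by
  rw [Fam.av, Fam.av, Fam.av, ← mul_add, ← sum_add_distrib]
  refine congrArg _ (sum_congr rfl fun ω _ => ?_)
  split_ifs <;> ring

theorem Fam.av_sub (F : Fam K ι) (g g' : (ι → 𝓞 K) → ℂ) (τ : ℝ) :
    F.av (fun ω => g ω - g' ω) τ = F.av g τ - F.av g' τ := by
  rw [Fam.av, Fam.av, Fam.av, ← mul_sub, ← sum_sub_distrib]
  refine congrArg _ (sum_congr rfl fun ω _ => ?_)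
  split_ifs <;> ring

theorem Fam.av_sum (F : Fam K ι) {J : Type*} (s : Finset J) (g : J → (ι → 𝓞 K) → ℂ) (τ : ℝ) :
    F.av (fun ω => ∑ j ∈ s, g j ω) τ = ∑ j ∈ s, F.av (g j) τ := by
  induction s using Finset.induction_on with
  | empty => simp [Fam.av]
  | insert j s h ih => simp only [sum_insert h, F.av_add, ih]

theorem Fam.Ok.sigma {F : Fam K ι} {σ : ι → ℝ} {Z : ℝ} (h : F.Ok σ Z) (i : ι) : 0 ≤ σ i := by
  obtain ⟨t, ht⟩ := h.ne i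
  linarith [h.dv_le i t ht, one_le_dv t]

theorem Fam.Ok.one_le {F : Fam K ι} {σ : ι → ℝ} {Z : ℝ} (h : F.Ok σ Z) {ω : ι → 𝓞 K}
    (hω : ω ∈ Fintype.piFinset F.T) (s : Finset ι) : 1 ≤ ∏ i ∈ s, NN (sp (ω i)) :=
  one_le_prod fun i _ => one_le_NN (h.sq i _ (Fintype.mem_piFinset.1 hω i)).ne_zero

theorem Fam.Ok.pos {F : Fam K ι} {σ : ι → ℝ} {Z : ℝ} (h : F.Ok σ Z) : 0 < Z := by
  obtain ⟨ω, hω⟩ := Fintype.piFinset_nonempty.2 h.ne
  exact (mul_pos_iff_of_pos_right h.lam_pos).1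
    (one_pos.trans_le ((h.one_le hω _).trans (h.cut ω hω)))

/-- the cut forces `τ` to be large -/
theorem Fam.Ok.of_cut {F : Fam K ι} {σ : ι → ℝ} {Z τ : ℝ} (h : F.Ok σ Z) {ω : ι → 𝓞 K}
    (hω : ω ∈ Fintype.piFinset F.T) (hτ : 0 < τ) (hc : F.lam ≤ τ * ∏ i ∈ F.E, NN (sp (ω i))) :
    1 ≤ τ * Z := by
  have := hc.trans (mul_le_mul_of_nonneg_left (h.cut ω hω) hτ.le)
  rw [← mul_assoc] at this
  exact (le_mul_iff_one_le_left h.lam_pos).1 this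

/-! ### additive characters -/

theorem etr_add (ξ ξ' : K) : etr (ξ + ξ') = etr ξ * etr ξ' := by
  simp only [etr, map_add, Rat.cast_add, mul_add, Complex.exp_add]

theorem etr_zero : etr (0 : K) = 1 := by simp [etr]

theorem norm_etr (ξ : K) : ‖etr ξ‖ = 1 := by
  have := Complex.norm_exp_ofReal_mul_I (2 * π * (Algebra.trace ℚ K ξ : ℚ))
  rw [etr, ← this]
  congr 2
  push_cast
  ring

theorem etr_of_dual {𝔮 : Ideal (𝓞 K)} {ξ : K} (h : ξ ∈ Dual 𝔮) {a : 𝓞 K} (ha : a ∈ 𝔮) :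
    etr (ξ * (a : 𝓞 K)) = 1 := by
  obtain ⟨m, hm⟩ := h a ha
  rw [etr, hm, Rat.cast_intCast, mul_comm, Complex.exp_int_mul_two_pi_mul_I]

theorem etr_eq_one_iff {ξ : K} : etr ξ = 1 ↔ ∃ m : ℤ, Algebra.trace ℚ K ξ = m := by
  rw [etr, Complex.exp_eq_one_iff]
  refine exists_congr fun m => ?_
  rw [mul_comm, mul_left_inj' Complex.two_pi_I_ne_zero]
  exact_mod_cast Iff.rfl

theorem coe_mem_dual (𝔮 : Ideal (𝓞 K)) (a : 𝓞 K) : (a : K) ∈ Dual 𝔮 := fun b _ =>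
  ⟨Algebra.trace ℤ (𝓞 K) (a * b), by rw [Algebra.coe_trace_int]; simp⟩

theorem Dual.mul {𝔮 : Ideal (𝓞 K)} {ξ : K} (h : ξ ∈ Dual 𝔮) (u : 𝓞 K) :
    ξ * (u : 𝓞 K) ∈ Dual 𝔮 := fun a ha => by
  simpa [mul_assoc] using h (u * a) (𝔮.mul_mem_left u ha)

theorem Dual.add {𝔮 : Ideal (𝓞 K)} {ξ ξ' : K} (h : ξ ∈ Dual 𝔮) (h' : ξ' ∈ Dual 𝔮) :
    ξ + ξ' ∈ Dual 𝔮 := fun a ha => by
  obtain ⟨m, hm⟩ := h a ha
  obtain ⟨m', hm'⟩ := h' a ha
  exact ⟨m + m', by rw [add_mul, map_add, hm, hm', Int.cast_add]⟩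

theorem Dual.anti {𝔮 𝔮' : Ideal (𝓞 K)} {ξ : K} (h : ξ ∈ Dual 𝔮) (e : 𝔮' ≤ 𝔮) : ξ ∈ Dual 𝔮' :=
  fun a ha => h a (e ha)

/-- the summand of the finite Fourier transform is periodic -/
theorem Peri.etr {𝔮 : Ideal (𝓞 K)} {F : 𝓞 K → ℂ} {ξ : K} (hF : Peri 𝔮 F) (h : ξ ∈ Dual 𝔮) :
    Peri 𝔮 fun x => F x * etr (ξ * (x : 𝓞 K)) := fun x y e => by
  have : ξ * (x : 𝓞 K) = ξ * (y : 𝓞 K) + ξ * (x - y : 𝓞 K) := by push_cast; ring
  beta_reduce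
  rw [hF x y e, this, etr_add, etr_of_dual h e, mul_one]

omit [NumberField K] in
theorem Peri.out {𝔮 : Ideal (𝓞 K)} {F : 𝓞 K → ℂ} (hF : Peri 𝔮 F) (x : 𝓞 K) :
    F (Quotient.out (Ideal.Quotient.mk 𝔮 x)) = F x :=
  hF _ _ (Ideal.Quotient.eq.1 (Ideal.Quotient.mk_out _))

omit [NumberField K] in
/-- a sum over the residue classes can be taken over any system of representatives -/
theorem Peri.finsum_eq {𝔮 : Ideal (𝓞 K)} {F : 𝓞 K → ℂ} (hF : Peri 𝔮 F) {J : Type*} [Fintype J]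
    (r : J → 𝓞 K) (hr : Function.Bijective fun j => Ideal.Quotient.mk 𝔮 (r j)) :
    ∑ᶠ x : 𝓞 K ⧸ 𝔮, F (Quotient.out x) = ∑ j, F (r j) := by
  rw [← finsum_comp_equiv (Equiv.ofBijective _ hr), finsum_eq_sum_of_fintype]
  exact sum_congr rfl fun j _ => hF.out _

theorem Peri.bdd {𝔮 : Ideal (𝓞 K)} {F : 𝓞 K → ℂ} (hF : Peri 𝔮 F) (h : 𝔮 ≠ ⊥) :
    ∃ A : ℝ, 0 ≤ A ∧ ∀ x, ‖F x‖ ≤ A := by
  have : Finite (𝓞 K ⧸ 𝔮) := Ideal.finiteQuotientOfFreeOfNeBot _ h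
  obtain ⟨A, hA⟩ := (Set.finite_range fun x : 𝓞 K ⧸ 𝔮 => ‖F (Quotient.out x)‖).bddAbove
  have : ∀ x, ‖F x‖ ≤ A := fun x => hF.out x ▸ hA ⟨_, rfl⟩
  exact ⟨A, (norm_nonneg _).trans (this 0), this⟩

theorem peri_jac (q : Ideal (𝓞 K)) : Peri q fun x => jac x q := fun _ _ e => jac_congr e

theorem Good.two_le {n : ℕ} (h : Good K n) : 2 ≤ n :=
  le_trans (by norm_num) (Nat.le_of_dvd (Nat.pos_of_ne_zero h.pos) h.eight)

theorem Good.dvd8 {n : ℕ} (h : Good K n) {t : 𝓞 K} (ht : (n : 𝓞 K) ∣ t - 1) : (8 : 𝓞 K) ∣ t - 1 :=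
  (by exact_mod_cast Nat.cast_dvd_cast (α := 𝓞 K) h.eight : (8 : 𝓞 K) ∣ n).trans ht

/-- the symbol of an element congruent to one at an ideal that contains the modulus -/
theorem jac_eq_one_of_mem {n : ℕ} {t : 𝓞 K} {𝔠 : Ideal (𝓞 K)} (h0 : 𝔠 ≠ ⊥) (hn : (n : 𝓞 K) ∈ 𝔠)
    (ht : (n : 𝓞 K) ∣ t - 1) : jac t 𝔠 = 1 :=
  jac_eq_one h0 fun _ e => e (𝔠.mem_of_dvd ht hn)

theorem finite_mem_ideal {a : 𝓞 K} (ha : a ≠ 0) : {𝔠 : Ideal (𝓞 K) | a ∈ 𝔠}.Finite := by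
  refine (Ideal.finite_setOfPred_absNorm_le (S := 𝓞 K) (Ideal.absNorm (sp a))).subset fun 𝔠 h => ?_
  exact Nat.le_of_dvd (Nat.pos_of_ne_zero fun e => ha (by simpa using e))
    (Ideal.absNorm_dvd_absNorm_of_le ((Ideal.span_singleton_le_iff_mem _).2 h))

end Ser

/-! ### the archimedean side -/

section Vec

variable {ι : Type} [Fintype ι] {z w : ι → ℂ}

theorem gau_pos (y : ι → ℝ) (z : ι → ℂ) : 0 < gau y z := Real.exp_pos _

theorem gau_anti {y y' : ι → ℝ} (h : ∀ φ, y φ ≤ y' φ) (z : ι → ℂ) : gau y' z ≤ gau y z :=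
  Real.exp_le_exp.2 (mul_le_mul_of_nonpos_left
    (sum_le_sum fun φ _ => mul_le_mul_of_nonneg_right (h φ) (by positivity))
    (neg_nonpos.2 (by positivity)))

theorem gau_le_one {y : ι → ℝ} (h : ∀ φ, 0 ≤ y φ) (z : ι → ℂ) : gau y z ≤ 1 := by
  simpa [gau] using gau_anti (y := fun _ => 0) h z

theorem gau_le_norm {μ : ℝ} (h : 0 ≤ μ) (z : ι → ℂ) :
    gau (fun _ => μ) z ≤ Real.exp (-(2 * π) * μ * ‖z‖ ^ 2) := by
  have : ‖z‖ ≤ √(∑ φ, ‖z φ‖ ^ 2) := (pi_norm_le_iff_of_nonneg (by positivity)).2 fun φ =>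
    Real.le_sqrt_of_sq_le (single_le_sum (f := fun φ => ‖z φ‖ ^ 2) (fun _ _ => by positivity)
      (mem_univ φ))
  have h2 := pow_le_pow_left₀ (norm_nonneg _) this 2
  rw [Real.sq_sqrt (by positivity)] at h2
  rw [gau, Real.exp_le_exp, ← mul_sum, mul_assoc]
  exact mul_le_mul_of_nonpos_left (mul_le_mul_of_nonneg_left h2 h) (neg_nonpos.2 (by positivity))

theorem dP_mul (z w : ι → ℂ) : dP (z * w) = dP z * dP w := by
  simp only [dP, Pi.mul_apply, prod_mul_distrib, dir_mul]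

theorem dP_eq_ty (z : ι → ℂ) : dP z = ty (fun _ => 1) 0 z := by rw [ty_const, zpow_one, dP]

theorem sqrt_nz (z : ι → ℂ) : √(nz z) = ‖∏ φ, z φ‖ := by
  rw [nz, prod_pow, ← norm_prod, Real.sqrt_sq (norm_nonneg _)]

theorem dP_mul_sqrt (z : ι → ℂ) : dP z * (√(nz z) : ℝ) = ∏ φ, z φ := by
  rw [sqrt_nz, dP, dir_mul_norm]

theorem norm_dP (hz : ∀ φ, z φ ≠ 0) : ‖dP z‖ = 1 := norm_dir (prod_ne_zero_iff.2 fun φ _ => hz φ)

theorem norm_dP_le (z : ι → ℂ) : ‖dP z‖ ≤ 1 := by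
  by_cases h : ∏ φ, z φ = 0
  · simp [dP, h, dir]
  · exact (norm_dir h).le

end Vec

namespace Ctx

variable {k : Type} [Field k] [NumberField k] [Algebra k ℂ] {K : Type} [Field K] [NumberField K]
  [Algebra k K] (c : Ctx k K)
include c

theorem card_emb : Fintype.card (Emb k K) = Module.finrank k K := by
  obtain ⟨B, -⟩ := c.bf
  obtain ⟨_, h⟩ := c.lib.emb k B _
  exact (h K rfl).1

theorem one_le_rk : 1 ≤ rk k K := by
  obtain ⟨B, -⟩ := c.bf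
  obtain ⟨_, h⟩ := c.lib.emb k B _
  exact_mod_cast (h K rfl).2.2.1

theorem NN_eq (a : 𝓞 K) : NN (sp a) = nz (emb k a) := by
  obtain ⟨B, -⟩ := c.bf
  obtain ⟨_, h⟩ := c.lib.emb k B _
  exact (h K rfl).2.2.2.1 a

theorem cov_pos : 0 < cov2 k K := by
  obtain ⟨B, -⟩ := c.bf
  obtain ⟨_, h⟩ := c.lib.emb k B _
  exact lt_of_lt_of_le (by positivity) (h K rfl).2.2.2.2.2.2.2.1

theorem small : ∃ Q : ℝ, 2 ≤ Q ∧ Small k K Q := by
  obtain ⟨B, -⟩ := c.bf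
  obtain ⟨_, h⟩ := c.lib.emb k B _
  exact (h K rfl).2.2.2.2.2.2.2.2.1

theorem ub {n : ℕ} (hn : 1 ≤ n) : ∃ ℓ : ℝ, Nonempty (UB k K n ℓ) := by
  obtain ⟨B, -⟩ := c.bf
  obtain ⟨Q, h2, hQ⟩ := c.small
  obtain ⟨_, h⟩ := c.lib.unit k B _
  exact ⟨_, (h K rfl Q n h2 hQ hn).1⟩

/-- a character of nonzero angular type is not trivial -/
theorem not_triv {n : ℕ} {κ : Emb k K → ℤ} {χ : Ideal (𝓞 K) →* ℂ} (hn : 2 ≤ n)
    (h : IsH k n κ 0 χ) (hκ : κ ≠ 0) : ¬ IsTriv n χ := fun e => by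
  obtain ⟨B, -⟩ := c.bf
  exact hκ (c.lib.typ k B K n κ 0 0 0 hn (by simp) (by simp) fun α hα => by
    rw [← h.prin α hα, e _ (cop_span_of_dvd hα), ty_zero]).1

end Ctx

end Pool.Agent.P.MP_b8021b_nt.BS
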