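import Pool.Agent.P.MP_b8021b_nt.BS.Defs

/-! Basic facts on the symbols `leg`, `jac`, and on `pr`, `eI`, `quo`, `sqf`. -/

namespace Pool.Agent.P.MP_b8021b_nt.BS

open NumberField IsDedekindDomain Finset
open Pool.Agent.P.MP_b8021b_nt.VE Pool.Agent.P.MP_b8021b_nt.VC Pool.Agent.P.MP_b8021b_nt.BS.CF
open scoped Classical

variable {K : Type} [Field K] [NumberField K] {x y t : 𝓞 K} {v : Pl K} {I J : Ideal (𝓞 K)}

/-! ### the residue symbol -/

omit [NumberField K] in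
theorem leg_eq_zero : leg x v = 0 ↔ x ∈ v.asIdeal := by
  unfold leg; split_ifs with h1 h2 <;> simp [h1]

omit [NumberField K] in
theorem leg_cases (x : 𝓞 K) (v : Pl K) : leg x v = 0 ∨ leg x v = 1 ∨ leg x v = -1 := by
  unfold leg; split_ifs <;> simp

omit [NumberField K] in
theorem leg_eq_one : leg x v = 1 ↔ x ∉ v.asIdeal ∧ ∃ y : 𝓞 K, x - y ^ 2 ∈ v.asIdeal := by
  unfold leg; split_ifs with h1 h2
  · simp [h1]
  · simp [h1, h2]
  · exact ⟨fun e => by norm_num at e, fun e => absurd e.2 h2⟩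

omit [NumberField K] in
theorem leg_of_not_mem (h : x ∉ v.asIdeal) : leg x v = 1 ∨ leg x v = -1 :=
  (leg_cases x v).resolve_left fun e => h (leg_eq_zero.1 e)

omit [NumberField K] in
theorem leg_sq (h : x ∉ v.asIdeal) : leg x v ^ 2 = 1 := by
  rcases leg_of_not_mem h with e | e <;> simp [e]

omit [NumberField K] in
/-- the symbol through a surjection onto a finite field with kernel `v` -/
theorem leg_eq_quad {F : Type} [Field F] [Fintype F] [DecidableEq F] (ρ : 𝓞 K →+* F)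
    (hs : Function.Surjective ρ) (hk : ∀ a, ρ a = 0 ↔ a ∈ v.asIdeal) (x : 𝓞 K) :
    leg x v = ((quadraticChar F (ρ x) : ℤ) : ℂ) := by
  have e : (∃ y : 𝓞 K, x - y ^ 2 ∈ v.asIdeal) ↔ IsSquare (ρ x) := by
    constructor
    · rintro ⟨y, hy⟩
      rw [← hk, map_sub, sub_eq_zero, map_pow, sq] at hy
      exact ⟨_, hy⟩
    · rintro ⟨r, hr⟩
      obtain ⟨y, rfl⟩ := hs r
      exact ⟨y, by rw [← hk, map_sub, map_pow, hr, sq, sub_self]⟩
  rw [leg, quadraticChar_apply, quadraticCharFun]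
  simp only [e, hk]
  split_ifs <;> simp

/-- a residue field -/
theorem exists_res (v : Pl K) : ∃ (F : Type) (_ : Field F) (_ : Fintype F) (_ : DecidableEq F)
    (ρ : 𝓞 K →+* F), Function.Surjective ρ ∧ (∀ a, ρ a = 0 ↔ a ∈ v.asIdeal) ∧
      Fintype.card F = Ideal.absNorm v.asIdeal := by
  have := v.isMaximal
  let _ := Ideal.Quotient.field v.asIdeal
  have : Finite (𝓞 K ⧸ v.asIdeal) := Ideal.finiteQuotientOfFreeOfNeBot _ v.ne_bot
  let _ := Fintype.ofFinite (𝓞 K ⧸ v.asIdeal)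
  refine ⟨𝓞 K ⧸ v.asIdeal, inferInstance, inferInstance, inferInstance, Ideal.Quotient.mk _,
    Ideal.Quotient.mk_surjective, fun a => Ideal.Quotient.eq_zero_iff_mem, ?_⟩
  rw [Ideal.absNorm_apply, Submodule.cardQuot_apply, Nat.card_eq_fintype_card]

theorem leg_mul (x y : 𝓞 K) (v : Pl K) : leg (x * y) v = leg x v * leg y v := by
  obtain ⟨F, _, _, _, ρ, hs, hk, -⟩ := exists_res v
  simp only [leg_eq_quad ρ hs hk, map_mul, Int.cast_mul]

omit [NumberField K] in
theorem leg_one (v : Pl K) : leg 1 v = 1 :=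
  leg_eq_one.2 ⟨fun h => v.isPrime.ne_top ((Ideal.eq_top_iff_one _).2 h), 1, by simp⟩

theorem leg_pow (x : 𝓞 K) (v : Pl K) (j : ℕ) : leg (x ^ j) v = leg x v ^ j := by
  induction j with
  | zero => simp [leg_one]
  | succ j ih => rw [pow_succ, leg_mul, ih, pow_succ]

theorem leg_congr (h : x - y ∈ v.asIdeal) : leg x v = leg y v := by
  obtain ⟨F, _, _, _, ρ, hs, hk, -⟩ := exists_res v
  rw [← hk, map_sub, sub_eq_zero] at h
  rw [leg_eq_quad ρ hs hk, leg_eq_quad ρ hs hk, h]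

/-- at the places over two every unit is a residue -/
theorem leg_of_two (h2 : Dv 2 v) (h : x ∉ v.asIdeal) : leg x v = 1 := by
  obtain ⟨F, _, _, _, ρ, hs, hk, -⟩ := exists_res v
  have e : (2 : F) = 0 := by simpa [map_ofNat] using (hk _).2 h2
  have hc : ringChar F = 2 := by
    have := (ringChar.spec F 2).1 (by exact_mod_cast e)
    exact ((Nat.dvd_prime Nat.prime_two).1 this).resolve_left CharP.ringChar_ne_one
  rw [leg_eq_quad ρ hs hk, quadraticChar_eq_one_of_char_two hc fun e => h ((hk _).1 e)]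
  simp

/-- at the other places the symbol detects the local squares -/
theorem leg_eq_one_iff_LP (h2 : ¬ Dv 2 v) (h : x ∉ v.asIdeal) : leg x v = 1 ↔ LP 2 v (x : K) := by
  have e2 : vl v ((2 : ℕ) : K) = 1 := (vl_nat_eq v).2 h2
  have ex : vl v (x : K) = 1 := (vl_coe_eq v x).2 h
  rw [leg_eq_one, LP, e2, one_pow]
  constructor
  · rintro ⟨-, y, hy⟩
    have hy0 : y ∉ v.asIdeal := fun e => h (by
      simpa using v.asIdeal.add_mem hy (v.asIdeal.pow_mem_of_mem e 2 two_pos))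
    have ey : vl v (y : K) = 1 := (vl_coe_eq v y).2 hy0
    have y0 : (y : K) ≠ 0 := fun e => by simp [e] at ey
    refine ⟨y, ?_⟩
    rw [div_sub_one (pow_ne_zero 2 y0), map_div₀, map_pow, ey, one_pow, div_one]
    exact_mod_cast (vl_coe_lt v _).2 hy
  · rintro ⟨r, hr⟩
    refine ⟨h, ?_⟩
    have h1 := vl_of_near v hr
    rw [map_div₀, ex, map_pow, one_div, inv_eq_one] at h1
    have h3 : vl v r = 1 := by
      rcases lt_trichotomy (vl v r) 1 with e | e | e
      · exact absurd h1 (pow_lt_one₀ zero_le e two_ne_zero).ne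
      · exact e
      · exact absurd h1 (one_lt_pow₀ e two_ne_zero).ne'
    have r0 : r ≠ 0 := fun e => by simp [e] at h3
    obtain ⟨y, hy⟩ := v.exists_valuation_sub_lt_of_integer h3.le 1
    have hy' : vl v ((y : K) - r) < 1 := by simpa using hy
    refine ⟨y, (vl_coe_lt v _).1 ?_⟩
    have e : ((x - y ^ 2 : 𝓞 K) : K) = r ^ 2 * (x / r ^ 2 - 1) - ((y : K) - r) * (y + r) := by
      push_cast; field_simp; ring
    rw [e]
    refine (vl v).map_sub_lt ?_ ?_
    · rwa [map_mul, map_pow, h3, one_pow, one_mul]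
    · rw [map_mul]
      exact (mul_le_of_le_one_right' ((vl v).map_add_le (vl_coe_le v y) h3.le)).trans_lt hy'

theorem leg_eq_neg_iff (h2 : ¬ Dv 2 v) (h : x ∉ v.asIdeal) : leg x v = -1 ↔ ¬ LP 2 v (x : K) := by
  rw [← leg_eq_one_iff_LP h2 h]
  rcases leg_of_not_mem h with e | e <;> rw [e] <;> norm_num

/-! ### the Jacobi symbol -/

theorem finite_cnt (hI : I ≠ ⊥) : {v : Pl K | cnt v I ≠ 0}.Finite :=
  (Ideal.finite_factors hI).subset fun v hv =>
    Ideal.dvd_iff_le.2 (not_not.1 fun e => hv ((cnt_eq_zero v).2 e))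

theorem jac_supp (x : 𝓞 K) (hI : I ≠ ⊥) :
    (Function.mulSupport fun v : Pl K => leg x v ^ cnt v I).Finite :=
  (finite_cnt hI).subset fun v hv e => hv (by simp [e])

omit [NumberField K] in
theorem jac_bot (x : 𝓞 K) : jac x ⊥ = 0 := if_pos rfl

/-- the symbol as a product over any finite set that contains the divisors -/
theorem jac_eq_prod (hI : I ≠ ⊥) (S : Finset (Pl K)) (hS : ∀ v : Pl K, I ≤ v.asIdeal → v ∈ S) :
    jac x I = ∏ v ∈ S, leg x v ^ cnt v I := by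
  rw [jac, if_neg hI]
  refine finprod_eq_prod_of_mulSupport_subset _ fun v hv => hS v (not_not.1 fun e => hv ?_)
  simp [(cnt_eq_zero v).2 e]

theorem jac_mul_right (x : 𝓞 K) (I J : Ideal (𝓞 K)) : jac x (I * J) = jac x I * jac x J := by
  by_cases hI : I = ⊥
  · simp [hI, jac_bot]
  by_cases hJ : J = ⊥
  · simp [hJ, jac_bot]
  rw [jac, jac, jac, if_neg hI, if_neg hJ, if_neg (show I * J ≠ ⊥ from mul_ne_zero hI hJ),
    ← finprod_mul_distrib (jac_supp x hI) (jac_supp x hJ)]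
  exact finprod_congr fun v => by rw [cnt_mul v hI hJ, pow_add]

theorem jac_top (x : 𝓞 K) : jac x ⊤ = 1 := by
  rw [jac_eq_prod top_ne_bot ∅ fun v h => absurd (top_le_iff.1 h) v.isPrime.ne_top, prod_empty]

theorem jac_prime (x : 𝓞 K) (v : Pl K) : jac x v.asIdeal = leg x v := by
  rw [jac_eq_prod v.ne_bot {v} fun w h => mem_singleton.2
    (HeightOneSpectrum.ext (v.isMaximal.eq_of_le w.isPrime.ne_top h).symm), prod_singleton,
    cnt_self, pow_one]

/-- the symbol as a homomorphism in the lower entry -/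
noncomputable def jacH (x : 𝓞 K) : Ideal (𝓞 K) →* ℂ where
  toFun := jac x
  map_one' := by rw [Ideal.one_eq_top, jac_top]
  map_mul' := jac_mul_right x

theorem jacH_apply (x : 𝓞 K) (I : Ideal (𝓞 K)) : jacH x I = jac x I := rfl

theorem jac_pow_right (x : 𝓞 K) (I : Ideal (𝓞 K)) (j : ℕ) : jac x (I ^ j) = jac x I ^ j :=
  map_pow (jacH x) I j

theorem jac_prod_right {ι : Type*} (x : 𝓞 K) (s : Finset ι) (f : ι → Ideal (𝓞 K)) :
    jac x (∏ i ∈ s, f i) = ∏ i ∈ s, jac x (f i) := map_prod (jacH x) f s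

theorem jac_eI (x : 𝓞 K) (S : Finset (Pl K)) : jac x (eI S) = ∏ v ∈ S, leg x v := by
  simp only [eI, jac_prod_right, jac_prime]

theorem jac_mul_left (x y : 𝓞 K) (I : Ideal (𝓞 K)) : jac (x * y) I = jac x I * jac y I := by
  by_cases hI : I = ⊥
  · simp [hI, jac_bot]
  rw [jac, jac, jac, if_neg hI, if_neg hI, if_neg hI,
    ← finprod_mul_distrib (jac_supp x hI) (jac_supp y hI)]
  exact finprod_congr fun v => by rw [leg_mul, mul_pow]

omit [NumberField K] in
theorem jac_one (hI : I ≠ ⊥) : jac 1 I = 1 := by simp [jac, hI, leg_one]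

theorem jac_pow_left (x : 𝓞 K) (hI : I ≠ ⊥) (j : ℕ) : jac (x ^ j) I = jac x I ^ j := by
  induction j with
  | zero => simp [jac_one hI]
  | succ j ih => rw [pow_succ, jac_mul_left, ih, pow_succ]

theorem jac_prod_left {ι : Type*} (s : Finset ι) (f : ι → 𝓞 K) (hI : I ≠ ⊥) :
    jac (∏ i ∈ s, f i) I = ∏ i ∈ s, jac (f i) I := by
  induction s using Finset.induction_on with
  | empty => simp [jac_one hI]
  | insert a s h ih => rw [prod_insert h, prod_insert h, jac_mul_left, ih]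

theorem jac_congr (h : x - y ∈ I) : jac x I = jac y I := by
  unfold jac
  split_ifs with hI
  · rfl
  refine finprod_congr fun v => ?_
  by_cases e : I ≤ v.asIdeal
  · rw [leg_congr (e h)]
  · simp [(cnt_eq_zero v).2 e]

/-- induction on nonzero ideals -/
theorem ideal_induction {P : Ideal (𝓞 K) → Prop} (h1 : P ⊤)
    (h2 : ∀ (v : Pl K) I, I ≠ ⊥ → P I → P (v.asIdeal * I)) (I : Ideal (𝓞 K)) (hI : I ≠ ⊥) :
    P I := by
  induction I using UniqueFactorizationMonoid.induction_on_prime with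
  | h₁ => exact absurd rfl hI
  | h₂ I h => rwa [Ideal.isUnit_iff.1 h]
  | h₃ I p h hp ih => exact h2 ⟨p, Ideal.isPrime_of_prime hp, hp.ne_zero⟩ I h (ih h)

theorem jac_cases (x : 𝓞 K) (I : Ideal (𝓞 K)) : jac x I = 0 ∨ jac x I = 1 ∨ jac x I = -1 := by
  by_cases hI : I = ⊥
  · simp [hI, jac_bot]
  refine ideal_induction (P := fun I => jac x I = 0 ∨ jac x I = 1 ∨ jac x I = -1)
    (by simp [jac_top]) (fun v I _ ih => ?_) I hI
  rw [jac_mul_right, jac_prime]
  rcases leg_cases x v with e | e | e <;> rcases ih with e' | e' | e' <;> simp [e, e']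

theorem norm_jac_le (x : 𝓞 K) (I : Ideal (𝓞 K)) : ‖jac x I‖ ≤ 1 := by
  rcases jac_cases x I with e | e | e <;> simp [e]

theorem conj_jac (x : 𝓞 K) (I : Ideal (𝓞 K)) : starRingEnd ℂ (jac x I) = jac x I := by
  rcases jac_cases x I with e | e | e <;> simp [e]

theorem cop_prime_iff' : IsCoprime (sp x) v.asIdeal ↔ x ∉ v.asIdeal := by
  rw [isCoprime_comm, Ideal.isCoprime_iff_sup_eq]
  constructor
  · intro h hn
    rw [sup_eq_left.2 ((Ideal.span_singleton_le_iff_mem _).2 hn)] at h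
    exact v.isPrime.ne_top h
  · intro h
    by_contra e
    exact h ((Ideal.span_singleton_le_iff_mem _).1
      (le_sup_right.trans (v.isMaximal.eq_of_le e le_sup_left).ge))

theorem jac_ne_zero_iff (hI : I ≠ ⊥) : jac x I ≠ 0 ↔ IsCoprime (sp x) I := by
  refine ideal_induction (P := fun I => jac x I ≠ 0 ↔ IsCoprime (sp x) I)
    (by simpa [jac_top] using (isCoprime_one_right : IsCoprime (sp x) 1)) (fun v I _ ih => ?_) I hI
  rw [jac_mul_right, jac_prime, mul_ne_zero_iff, ih, IsCoprime.mul_right_iff, cop_prime_iff',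
    Ne, leg_eq_zero]

theorem jac_sq (hI : I ≠ ⊥) : jac x I ^ 2 = if IsCoprime (sp x) I then 1 else 0 := by
  rw [← jac_ne_zero_iff hI]
  rcases jac_cases x I with e | e | e <;> simp [e]

/-- the symbol of an element congruent to one -/
theorem jac_eq_one (hI : I ≠ ⊥) (h : ∀ v : Pl K, I ≤ v.asIdeal → x - 1 ∈ v.asIdeal) :
    jac x I = 1 := by
  rw [jac, if_neg hI]
  refine finprod_eq_one_of_forall_eq_one fun v => ?_
  by_cases e : I ≤ v.asIdeal
  · rw [leg_congr (h v e), leg_one, one_pow]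
  · simp [(cnt_eq_zero v).2 e]

/-! ### supports -/

theorem mem_pr (ht : t ≠ 0) : v ∈ pr t ↔ t ∈ v.asIdeal := by simp [pr, ht]

omit [NumberField K] in
theorem eI_ne_bot (S : Finset (Pl K)) : eI S ≠ ⊥ :=
  prod_ne_zero_iff.2 fun v _ => v.ne_bot

theorem cnt_eI (S : Finset (Pl K)) (v : Pl K) : cnt v (eI S) = if v ∈ S then 1 else 0 := by
  induction S using Finset.induction_on with
  | empty => simpa [eI] using (cnt_eq_zero v).2 fun h => v.isPrime.ne_top (top_le_iff.1 h)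
  | insert w S h ih =>
    rw [eI, prod_insert h, ← eI, cnt_mul v w.ne_bot (eI_ne_bot S), ih]
    rcases eq_or_ne v w with rfl | e
    · simp [cnt_self, h]
    · simp [cnt_ne v e, e]

theorem eI_le_iff {S : Finset (Pl K)} : eI S ≤ v.asIdeal ↔ v ∈ S := by
  rw [← not_iff_not, ← cnt_eq_zero, cnt_eI]; simp

/-- an ideal is determined by its exponents -/
theorem dvd_iff_cnt (hI : I ≠ ⊥) (hJ : J ≠ ⊥) : I ∣ J ↔ ∀ v : Pl K, cnt v I ≤ cnt v J := by
  refine ⟨fun ⟨c, hc⟩ v => ?_, fun h => ?_⟩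
  · rw [hc, cnt_mul v hI (fun e => hJ (by rw [hc, e]; simp))]; omega
  · refine ideal_induction (P := fun I => ∀ J, J ≠ ⊥ → (∀ v : Pl K, cnt v I ≤ cnt v J) → I ∣ J)
      (fun J _ _ => by rw [← Ideal.one_eq_top]; exact one_dvd _) (fun v I hI ih J hJ h => ?_)
      I hI J hJ h
    have h1 := h v
    rw [cnt_mul v v.ne_bot hI, cnt_self] at h1
    obtain ⟨c, rfl⟩ : v.asIdeal ∣ J :=
      Ideal.dvd_iff_le.2 (not_not.1 fun e => by rw [(cnt_eq_zero v).2 e] at h1; omega)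
    have hc : c ≠ ⊥ := fun e => hJ (by simp [e])
    refine mul_dvd_mul_left _ (ih c hc fun w => ?_)
    have := h w
    rw [cnt_mul w v.ne_bot hI, cnt_mul w v.ne_bot hc] at this
    omega

theorem ext_cnt (hI : I ≠ ⊥) (hJ : J ≠ ⊥) (h : ∀ v : Pl K, cnt v I = cnt v J) : I = J :=
  associated_iff_eq.1 (associated_of_dvd_dvd ((dvd_iff_cnt hI hJ).2 fun v => (h v).le)
    ((dvd_iff_cnt hJ hI).2 fun v => (h v).ge))

theorem squarefree_iff_cnt (hI : I ≠ ⊥) : Squarefree I ↔ ∀ v : Pl K, cnt v I ≤ 1 := by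
  refine ⟨fun h v => not_lt.1 fun e => v.prime.not_isUnit (h _ ?_), fun h J hJ => ?_⟩
  · refine (dvd_iff_cnt (mul_ne_zero v.ne_bot v.ne_bot) hI).2 fun w => ?_
    rw [cnt_mul w v.ne_bot v.ne_bot]
    rcases eq_or_ne w v with rfl | e'
    · rw [cnt_self]; omega
    · rw [cnt_ne w e']; omega
  · have h0 : J ≠ ⊥ := fun e => hI (by rw [e] at hJ; exact zero_dvd_iff.1 ((dvd_mul_right _ _).trans hJ))
    refine Ideal.isUnit_iff.2 (ext_cnt h0 top_ne_bot fun v => ?_)
    have h1 := (dvd_iff_cnt (mul_ne_zero h0 h0) hI).1 hJ v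
    have h2 := h v
    rw [cnt_mul v h0 h0] at h1
    rw [(cnt_eq_zero v (I := ⊤)).2 fun e => v.isPrime.ne_top (top_le_iff.1 e)]
    omega

theorem squarefree_eI (S : Finset (Pl K)) : Squarefree (eI S) :=
  (squarefree_iff_cnt (eI_ne_bot S)).2 fun v => by rw [cnt_eI]; split_ifs <;> omega

omit [NumberField K] in
theorem ne_zero_of_sqf (h : Squarefree (sp t)) : t ≠ 0 := fun e =>
  h.ne_zero (by simp [sp, e])

theorem eI_pr (h : Squarefree (sp t)) : eI (pr t) = sp t := by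
  refine ext_cnt (eI_ne_bot _) h.ne_zero fun v => ?_
  have h1 := (squarefree_iff_cnt h.ne_zero).1 h v
  have h2 := cnt_eq_zero v (I := sp t)
  rw [Ideal.span_singleton_le_iff_mem] at h2
  simp only [cnt_eI, mem_pr (ne_zero_of_sqf h)]
  split_ifs with e
  · have : cnt v (sp t) ≠ 0 := fun e' => h2.1 e' e
    omega
  · exact (h2.2 e).symm

/-- a squarefree ideal is the product of a set of places -/
theorem exists_eI (h : Squarefree I) : ∃ S, eI S = I := by
  refine ⟨(finite_cnt h.ne_zero).toFinset, ext_cnt (eI_ne_bot _) h.ne_zero fun v => ?_⟩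
  have h1 := (squarefree_iff_cnt h.ne_zero).1 h v
  simp only [cnt_eI, Set.Finite.mem_toFinset, Set.mem_ofPred_eq]
  split_ifs <;> omega

theorem jac_sp (h : Squarefree (sp t)) (x : 𝓞 K) : jac x (sp t) = ∏ v ∈ pr t, leg x v := by
  rw [← eI_pr h, jac_eI]

omit [NumberField K] in
theorem sp_mul (x y : 𝓞 K) : sp (x * y) = sp x * sp y :=
  (Ideal.span_singleton_mul_span_singleton x y).symm

theorem NN_mul (I J : Ideal (𝓞 K)) : NN (I * J) = NN I * NN J := by simp [NN]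

theorem one_le_NN (hI : I ≠ ⊥) : 1 ≤ NN I :=
  Nat.one_le_cast.2 (Nat.one_le_iff_ne_zero.2 fun e => hI (Ideal.absNorm_eq_zero_iff.1 e))

theorem NN_pos (hI : I ≠ ⊥) : 0 < NN I := one_pos.trans_le (one_le_NN hI)

theorem two_le_NN (v : Pl K) : 2 ≤ NN v.asIdeal := by
  have h0 : Ideal.absNorm v.asIdeal ≠ 0 := fun e => v.ne_bot (Ideal.absNorm_eq_zero_iff.1 e)
  have h1 : Ideal.absNorm v.asIdeal ≠ 1 := fun e => v.isPrime.ne_top (Ideal.absNorm_eq_one_iff.1 e)
  exact_mod_cast (by omega : 2 ≤ Ideal.absNorm v.asIdeal)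

theorem one_le_dv (t : 𝓞 K) : 1 ≤ dv t :=
  one_le_prod fun v _ => le_add_of_nonneg_right (by positivity)

/-- the weight `dv` as a sum over the subsets of the support -/
theorem dv_eq_sum (t : 𝓞 K) : dv t = ∑ S ∈ (pr t).powerset, (NN (eI S))⁻¹ := by
  rw [dv, prod_one_add]
  exact sum_congr rfl fun S _ => by simp [eI, NN, map_prod]

omit [NumberField K] in
theorem quo_mul {γ : 𝓞 K} {𝔠 : Ideal (𝓞 K)} (h : ∃ q, q * 𝔠 = sp γ) : quo γ 𝔠 * 𝔠 = sp γ := by
  rw [quo, dif_pos h]; exact h.choose_spec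

theorem quo_eq {γ : 𝓞 K} {𝔠 q : Ideal (𝓞 K)} (hc : 𝔠 ≠ ⊥) (h : q * 𝔠 = sp γ) : quo γ 𝔠 = q :=
  mul_right_cancel₀ hc ((quo_mul ⟨q, h⟩).trans h.symm)

theorem exists_quo {γ : 𝓞 K} {𝔠 : Ideal (𝓞 K)} (h : γ ∈ 𝔠) : ∃ q, q * 𝔠 = sp γ := by
  obtain ⟨q, hq⟩ := Ideal.dvd_span_singleton.2 h
  exact ⟨q, by rw [mul_comm]; exact hq.symm⟩

theorem mem_sqf {a b : ℝ} : I ∈ sqf K a b ↔ Squarefree I ∧ a ≤ NN I ∧ NN I < b := by
  rw [sqf, mem_filter, Set.Finite.mem_toFinset, and_iff_right_iff_imp]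
  exact fun h => Nat.cast_le.1 (h.2.2.le.trans (Nat.le_ceil b))

omit [NumberField K] in
theorem Pri.ne_zero {n : ℕ} (h : Pri n t) : t ≠ 0 := ne_zero_of_sqf h.2

omit [NumberField K] in
theorem Pri.mono {n m : ℕ} (h : Pri n t) (hm : m ∣ n) : Pri m t :=
  ⟨(Nat.cast_dvd_cast hm).trans h.1, h.2⟩

end Pool.Agent.P.MP_b8021b_nt.BS
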