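import Pool.Agent.P.MP_b8021b_nt.BS.CF.Bund

/-!
Definitions for the theorem that over every number field containing a square root of minus one
infinitely many curves `y ^ 2 = x ^ 3 + b x` have rank zero and analytic rank zero.
See h91_bsd0.md in the team store for the mathematics.
-/

namespace Pool.Agent.P.MP_b8021b_nt.BS

open NumberField IsDedekindDomain Finset MeasureTheory
open Pool.Agent.P.MP_b8021b_nt.VE Pool.Agent.P.MP_b8021b_nt.VC Pool.Agent.P.MP_b8021b_nt.BS.CF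
open scoped Classical ComplexConjugate Real

noncomputable section

/-! ### symbols -/

section Sym

variable {K : Type} [Field K] [NumberField K]

/-- the norm of an ideal -/
abbrev NN (I : Ideal (𝓞 K)) : ℝ := (Ideal.absNorm I : ℝ)

/-- a principal ideal -/
abbrev sp (x : 𝓞 K) : Ideal (𝓞 K) := Ideal.span {x}

/-- the quadratic character of the residue field -/
def leg (x : 𝓞 K) (v : Pl K) : ℂ :=
  if x ∈ v.asIdeal then 0 else if ∃ y : 𝓞 K, x - y ^ 2 ∈ v.asIdeal then 1 else -1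

/-- the Jacobi symbol -/
def jac (x : 𝓞 K) (I : Ideal (𝓞 K)) : ℂ :=
  if I = ⊥ then 0 else ∏ᶠ v : Pl K, leg x v ^ cnt v I

/-- the places that divide an integer -/
def pr (t : 𝓞 K) : Finset (Pl K) := if h : t = 0 then ∅ else (finite_mem h).toFinset

/-- the product of a finite set of places -/
def eI (S : Finset (Pl K)) : Ideal (𝓞 K) := ∏ v ∈ S, v.asIdeal

/-- the sum of the reciprocal norms of the squarefree divisors -/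
def dv (t : 𝓞 K) : ℝ := ∏ v ∈ pr t, (1 + (NN v.asIdeal)⁻¹)

/-- the quotient of a principal ideal by an ideal -/
def quo (γ : 𝓞 K) (𝔠 : Ideal (𝓞 K)) : Ideal (𝓞 K) :=
  if h : ∃ q, q * 𝔠 = sp γ then h.choose else ⊥

/-- the squarefree ideals of norm in `[a, b)` -/
def sqf (K : Type) [Field K] [NumberField K] (a b : ℝ) : Finset (Ideal (𝓞 K)) :=
  (Ideal.finite_setOf_absNorm_le (S := 𝓞 K) ⌈b⌉₊).toFinset.filter
    fun I => Squarefree I ∧ a ≤ NN I ∧ NN I < b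

/-- congruent to one with squarefree ideal -/
def Pri (n : ℕ) (t : 𝓞 K) : Prop := (n : 𝓞 K) ∣ t - 1 ∧ Squarefree (sp t)

/-- moreover `ζ` is a non-residue at all places that divide `t` -/
def Adm (n : ℕ) (ζ : K) (t : 𝓞 K) : Prop := Pri n t ∧ ∀ v : Pl K, t ∈ v.asIdeal → ¬ LP 2 v ζ

/-- the tame symbol of `a` and `b` at the odd place `v` is `-1` -/
def Ns (a b : K) (v : Pl K) : Prop :=
  ¬ Dv 2 v ∧ ((Even (od v a) ∧ Odd (od v b) ∧ ¬ LP 2 v a) ∨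
    (Odd (od v a) ∧ Even (od v b) ∧ ¬ LP 2 v b) ∨ (Odd (od v a) ∧ Odd (od v b) ∧ ¬ LP 2 v (a * b)))

/-- the local condition at the places over two -/
def Loc (ζ c : K) : Prop :=
  ∀ v : Pl K, Dv 2 v → ∃ x : K, LP 2 v (x * (x ^ 2 - ζ)) ∧ LP 2 v (c * x)

/-- the additive character of the trace -/
def etr (ξ : K) : ℂ := Complex.exp (2 * π * Complex.I * ((Algebra.trace ℚ K ξ : ℚ) : ℂ))

/-- the dual of an ideal for the trace form -/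
def Dual (𝔮 : Ideal (𝓞 K)) : Set K :=
  {ξ | ∀ a ∈ 𝔮, ∃ m : ℤ, Algebra.trace ℚ K (ξ * (a : 𝓞 K)) = m}

/-- periodic functions -/
def Peri (𝔮 : Ideal (𝓞 K)) (F : 𝓞 K → ℂ) : Prop := ∀ x y, x - y ∈ 𝔮 → F x = F y

/-- the finite Fourier transform -/
def ft (𝔮 : Ideal (𝓞 K)) (F : 𝓞 K → ℂ) (ξ : K) : ℂ :=
  ∑ᶠ x : 𝓞 K ⧸ 𝔮, F (Quotient.out x) * etr (ξ * (Quotient.out x : 𝓞 K))

/-- the Gauss sum of a squarefree ideal -/
def gsI (q : Ideal (𝓞 K)) (ξ : K) : ℂ := ft q (fun x => jac x q) ξ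

/-- a modulus that absorbs the different and the class groups -/
structure Good (K : Type) [Field K] [NumberField K] (n : ℕ) : Prop where
  pos : n ≠ 0
  eight : 8 ∣ n
  dual : ∀ ξ ∈ Dual (⊤ : Ideal (𝓞 K)), ∃ a : 𝓞 K, (n : K) * ξ = a
  cr : ∀ I : Ideal (𝓞 K), I ≠ ⊥ → ∃ 𝔠 γ, (n : 𝓞 K) ∈ 𝔠 ∧ I * 𝔠 = sp γ
  rr : ∀ I : Ideal (𝓞 K), Cop 2 I → ∃ 𝔠 γ, (n : 𝓞 K) ∈ 𝔠 ∧ (8 : 𝓞 K) ∣ γ - 1 ∧ I * 𝔠 = sp γ

/-- a unit that is not a square -/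
structure Un (ζ : K) : Prop where
  od : ∀ v : Pl K, od v ζ = 0
  ns : ¬ IsSquare ζ

/-- the symbol of `κ` at the ideal `(γ) / 𝔠`, for `γ` congruent to one modulo eight -/
def jq (𝔠 : Ideal (𝓞 K)) (κ γ : 𝓞 K) : ℂ :=
  if γ ∈ 𝔠 ∧ (8 : 𝓞 K) ∣ γ - 1 then jac κ (quo γ 𝔠) else 0

/-- a large sieve inequality, sum over the ideals outside -/
def Hs (T : Finset (𝓞 K)) (𝒩 : Finset (Ideal (𝓞 K))) (Δ : ℝ) : Prop :=
  ∀ a : 𝓞 K → ℂ, ∑ I ∈ 𝒩, ‖∑ t ∈ T, a t * jac t I‖ ^ 2 ≤ Δ * ∑ t ∈ T, ‖a t‖ ^ 2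

/-- a large sieve inequality, sum over the twists outside -/
def Hl (T : Finset (𝓞 K)) (𝒩 : Finset (Ideal (𝓞 K))) (Δ : ℝ) : Prop :=
  ∀ c : Ideal (𝓞 K) → ℂ, ∑ t ∈ T, ‖∑ I ∈ 𝒩, c I * jac t I‖ ^ 2 ≤ Δ * ∑ I ∈ 𝒩, ‖c I‖ ^ 2

end Sym

/-! ### kernels and series over ideals -/

/-- an admissible kernel -/
structure Ker (f : ℝ → ℝ) : Prop where
  pos : ∀ x, 0 < x → 0 < f x
  anti : AntitoneOn f (Set.Ioi 0)
  meas : Measurable f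
  dec : ∀ A : ℝ, 0 < A → ∃ C : ℝ, ∀ x, 0 < x → f x ≤ C * x ^ (-A)

/-- a function that is small at zero and at infinity -/
def ph (η A z : ℝ) : ℝ := min (z ^ η) (z ^ (-A))

/-- the integral of `‖F τ‖ / τ` over the positive reals is at most `g` -/
def Dom (F : ℝ → ℂ) (g : ℝ) : Prop :=
  ∃ G : ℝ → ℝ, IntegrableOn G (Set.Ioi 0) ∧ (∀ τ, 0 < τ → ‖F τ‖ ≤ τ * G τ) ∧
    ∫ τ in Set.Ioi 0, G τ ≤ g

section Ser

variable {K : Type} [Field K] [NumberField K]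

/-- bounded coefficients with cancellation along squares -/
structure Co (C : Ideal (𝓞 K) → ℂ) (A η : ℝ) : Prop where
  bd : ∀ I, ‖C I‖ ≤ A
  sq : ∀ 𝔫, 𝔫 ≠ ⊥ → ∀ X : ℕ,
    ‖∑ j ∈ Icc 1 X, lam (fun m => C (𝔫 * m ^ 2)) j‖ ≤ A * (X : ℝ) ^ (1 - η)

/-- the theta series -/
def Th (f : ℝ → ℝ) (C : Ideal (𝓞 K) → ℂ) (τ : ℝ) : ℂ :=
  ∑' I : Ideal (𝓞 K), C I * (√(NN I) * τ * f (τ * NN I) : ℝ)

/-- the part of the theta series along squares -/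
def bb (f : ℝ → ℝ) (C : Ideal (𝓞 K) → ℂ) (𝔫 : Ideal (𝓞 K)) (τ : ℝ) : ℂ :=
  ∑' m : Ideal (𝓞 K), C (𝔫 * m ^ 2) * (τ * NN 𝔫 * NN m * f (τ * NN 𝔫 * NN m ^ 2) : ℝ)

/-- the bound for the sums along squares -/
def BB (f : ℝ → ℝ) (C : Ideal (𝓞 K) → ℂ) (A' η A : ℝ) : Prop :=
  ∀ 𝔫, 𝔫 ≠ ⊥ → ∀ τ, 0 < τ → ‖bb f C 𝔫 τ‖ ≤ A' * ph η A (τ * NN 𝔫)

variable {ι : Type} [Fintype ι] [DecidableEq ι]

/-- the twisted theta series -/
def Tw (f : ℝ → ℝ) (C : Ideal (𝓞 K) → ℂ) (t : 𝓞 K) (τ : ℝ) : ℂ := Th f (fun I => C I * jac t I) τ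

/-- the terms with squarefree part `𝔫` -/
def pc (f : ℝ → ℝ) (C : Ideal (𝓞 K) → ℂ) (ω : ι → 𝓞 K) (𝔫 : Ideal (𝓞 K)) (τ : ℝ) : ℂ :=
  (∏ i, jac (ω i) 𝔫) * ((√(NN 𝔫))⁻¹ : ℝ) *
    ∑ S ∈ Fintype.piFinset fun i => (pr (ω i)).powerset,
      (∏ i, ((-1) ^ (S i).card / NN (eI (S i)) : ℝ) : ℝ) * bb f C (𝔫 * (∏ i, eI (S i)) ^ 2) τ

/-- a family of twists with weights and a cut -/
structure Fam (K : Type) [Field K] (ι : Type) where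
  T : ι → Finset (𝓞 K)
  a : ι → 𝓞 K → ℂ
  E : Finset ι
  lam : ℝ

/-- the average over the family -/
def Fam.av (F : Fam K ι) (g : (ι → 𝓞 K) → ℂ) (τ : ℝ) : ℂ :=
  (∏ i, ((F.T i).card : ℂ))⁻¹ * ∑ ω ∈ Fintype.piFinset F.T,
    (∏ i, F.a i (ω i)) * if F.lam ≤ τ * ∏ i ∈ F.E, NN (sp (ω i)) then g ω else 0

/-- the standing hypotheses on a family -/
structure Fam.Ok (F : Fam K ι) (σ : ι → ℝ) (Z : ℝ) : Prop where
  ne : ∀ i, (F.T i).Nonempty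
  sq : ∀ i, ∀ t ∈ F.T i, Squarefree (sp t)
  cop : ∀ i j, i ≠ j → ∀ t ∈ F.T i, ∀ t' ∈ F.T j, IsCoprime t t'
  a_le : ∀ i t, ‖F.a i t‖ ≤ 1
  lam_pos : 0 < F.lam
  dv_le : ∀ i, ∀ t ∈ F.T i, dv t ≤ 1 + σ i
  cut : ∀ ω ∈ Fintype.piFinset F.T, ∏ i ∈ F.E, NN (sp (ω i)) ≤ Z * F.lam

/-- every dyadic block is covered by two large sieve inequalities -/
def Cover (T : ℕ → Finset (𝓞 K)) (p j₀ j₁ : ℕ) (Z C δ : ℝ) : Prop :=
  ∀ j, j₀ ≤ j → j < j₁ → ∃ s l, s ≤ p ∧ l ≤ p ∧ Odd (s + l) ∧ ∃ Δs Δl : ℝ, 0 ≤ Δs ∧ 0 ≤ Δl ∧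
    Hs (T s) (sqf K (2 ^ j) (2 ^ (j + 1))) Δs ∧ Hl (T l) (sqf K (2 ^ j) (2 ^ (j + 1))) Δl ∧
    √(Δs * Δl / (2 ^ j * (T s).card * (T l).card)) * min 1 (Z / 2 ^ j) ≤ C * (2 ^ j : ℝ) ^ (-δ)

/-- the same for a family with a cut -/
def Fam.Cov (F : Fam K ι) (h j₀ j₁ : ℕ) (Z C δ : ℝ) : Prop :=
  ∀ j, j₀ ≤ j → j < j₁ → ∃ s l : ι, s ≠ l ∧ ¬ (s ∈ F.E ∧ l ∈ F.E) ∧
    (∀ t ∈ F.T s, (pr t).card ≤ h) ∧ (∀ t ∈ F.T l, (pr t).card ≤ h) ∧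
    ∃ Δs Δl : ℝ, 0 ≤ Δs ∧ 0 ≤ Δl ∧ Hs (F.T s) (sqf K (2 ^ j) (2 ^ (j + 1))) Δs ∧
      Hl (F.T l) (sqf K (2 ^ j) (2 ^ (j + 1))) Δl ∧
      √(Δs * Δl / (2 ^ j * (F.T s).card * (F.T l).card)) * min 1 (Z / 2 ^ j) ≤
        C * (2 ^ j : ℝ) ^ (-δ)

end Ser

/-- the Mellin transform of the kernel is a power of the gamma factor -/
def MelK (f : ℝ → ℝ) (r : ℕ) : Prop :=
  ∃ c : ℝ, 0 < c ∧ ∀ s : ℂ, 0 < s.re →
    HasMellin (fun x => (f x : ℂ)) s (c * ((2 * π : ℂ) ^ (-s) * Complex.Gamma s) ^ r)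

/-! ### the archimedean side -/

section Vec

variable {ι : Type} [Fintype ι]

/-- the Gaussian -/
def gau (y : ι → ℝ) (z : ι → ℂ) : ℝ := Real.exp (-(2 * π) * ∑ φ, y φ * ‖z φ‖ ^ 2)

/-- the direction of the product of the coordinates -/
def dP (z : ι → ℂ) : ℂ := dir (∏ φ, z φ)

end Vec

section Arch

variable (k : Type) [Field k] [NumberField k] [Algebra k ℂ] {K : Type} [Field K] [NumberField K]
  [Algebra k K]

/-- the embedding of the field -/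
def emK (ξ : K) : Emb k K → ℂ := fun φ => φ ξ

/-- the relative degree as a real number -/
abbrev rk (K : Type) [Field K] [Algebra k K] : ℝ := (Module.finrank k K : ℝ)

/-- the root number -/
def eps (t : 𝓞 K) : ℂ := gsI (sp t) (t : K)⁻¹ / (√(NN (sp t)) : ℝ) * dP (emb k t)

/-- a character of angular type one -/
abbrev IsP (n : ℕ) (Ψ : Ideal (𝓞 K) →* ℂ) : Prop := IsH k n (fun _ => 1) 0 Ψ

/-- a set of twists at the scale `Y` -/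
structure Scale (n : ℕ) (ζ : K) (h : ℕ) (C η : ℝ) (𝒵 : Finset (Pl K)) (T : Finset (𝓞 K)) (Y : ℝ) :
    Prop where
  adm : ∀ t ∈ T, Adm n ζ t
  card : ∀ t ∈ T, (pr t).card = h
  le : ∀ t ∈ T, NN (sp t) ≤ Y
  bal : ∀ t ∈ T, ∀ φ, ‖emb k t φ‖ ^ 2 ≤ C * Y ^ (1 / rk k K)
  big : ∀ t ∈ T, ∀ v ∈ pr t, Y ^ (1 / (2 * h : ℝ)) ≤ NN v.asIdeal ∧ v ∉ 𝒵
  inj : Set.InjOn sp (T : Set (𝓞 K))
  many : Y ^ (1 - η) ≤ T.card

/-- the functional equation of the twisted theta series -/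
def FEq (n : ℕ) (Ψ : Ideal (𝓞 K) → ℂ) (f : ℝ → ℝ) : Prop :=
  ∃ (m : ℕ) (C : Fin m → Ideal (𝓞 K) → ℂ) (γ : Fin m → ℂ) (c : Fin m → ℝ) (A η : ℝ),
    0 < η ∧ η ≤ 1 ∧ Co Ψ A η ∧ (∀ i, 0 < c i ∧ Co (C i) A η) ∧ ∀ t, Pri (n ^ 2) t → ∀ τ, 0 < τ →
      Tw f Ψ t τ = eps k t * ∑ i, γ i * Tw f (C i) t (c i / (τ * NN (sp t)))

/-- a smooth sum of a quadratic symbol over the ideal `e` -/
def SS (e q : Ideal (𝓞 K)) (Y : ℝ) : ℂ :=
  ∑' x : 𝓞 K, (if x ∈ e then jac x q else 0) * (gau (fun _ => Y ^ (-(1 / rk k K))) (emb k x) : ℝ)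

variable {k} {n : ℕ} {ℓ : ℝ}

/-- the kernel attached to a system of units -/
def kk (U : UB k K n ℓ) (x : ℝ) : ℝ :=
  ∫ u : Fin U.m → ℝ, Real.exp (-(2 * π) * x ^ (1 / rk k K) * ∑ φ, Real.exp (2 * U.lv u φ))

/-- the theta series over the integers modulo the units of `U` -/
def LT (U : UB k K n ℓ) (G : 𝓞 K → ℂ) (τ : ℝ) : ℂ :=
  ∑' κ : 𝓞 K, G κ * (U.β (emb k κ) * (√(nz (emb k κ)) * τ * kk U (τ * nz (emb k κ))) : ℝ)

/-- the sum over the generators of an ideal modulo the units of `U` -/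
def CC (U : UB k K n ℓ) (G : 𝓞 K → ℂ) (I : Ideal (𝓞 K)) : ℂ :=
  ∑ᶠ κ ∈ {κ : 𝓞 K | sp κ = I}, G κ * (U.β (emb k κ) : ℝ)

end Arch

/-! ### curves -/

/-- the curve `y ^ 2 = x ^ 3 + b x` -/
abbrev Wb {R : Type} [CommRing R] (b : R) : WeierstrassCurve R := ⟨0, 0, 0, b, 0⟩

/-- the character sum of the curve at a place -/
def chs {K : Type} [Field K] [NumberField K] (b : 𝓞 K) (v : Pl K) : ℂ :=
  ∑ᶠ x : 𝓞 K ⧸ v.asIdeal, leg (Quotient.out x ^ 3 + b * Quotient.out x) v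

/-- the local polynomial at a place -/
def locP {K : Type} [Field K] [NumberField K] (W : WeierstrassCurve K) (v : Pl K) : Polynomial ℤ :=
  (W.baseChange (v.adicCompletion K)).localPolynomial (v.adicCompletionIntegers K)

/-- the L-series is meromorphic and does not vanish at one -/
def AnZero {K : Type} [Field K] [NumberField K] (W : WeierstrassCurve K) : Prop :=
  ∃ F : ℂ → ℂ, MeromorphicOn F Set.univ ∧
    (∀ s : ℂ, 3 / 2 < s.re → LSeriesSummable (fun n => (W.LFunction n : ℂ)) s ∧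
      F s = W.LSeries s) ∧ meromorphicOrderAt F 1 = 0

/-- the facts taken from the libraries -/
structure Lib : Prop extends T3 where
  emb : S_Emb
  ball : S_Ball
  bal : S_Bal
  ray : S_Ray
  unit : S_Unit
  rep2 : S_Rep2
  part : S_Part
  typ : S_Typ
  pss : S_PSs
  den : S_Den
  bcn : S_BCN

/-- the standing hypotheses: `k` is the Gaussian field and `K` an extension of it -/
structure Ctx (k : Type) [Field k] [NumberField k] [Algebra k ℂ] (K : Type) [Field K]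
    [NumberField K] [Algebra k K] : Prop where
  lib : Lib
  bf : ∃ B : BF k, B.D = -1
  om : Om K

end

end Pool.Agent.P.MP_b8021b_nt.BS
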