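import Pool.Agent.P.MP_e4219a_lc.PNVc

/-! The L-series of a character whose square is not trivial stays away from zero near one. -/

namespace Pool.Agent.P.MP_b8021b_nt.BS

open Pool.Agent.P.MP_e4219a_lc Pool.Agent.P.MP_e4219a_lc.NVcP
open NumberField IsDedekindDomain Finset
open Pool.Agent.P.MP_b8021b_nt Pool.Agent.P.MP_b8021b_nt.VE Pool.Agent.P.MP_b8021b_nt.VC
open scoped Classical

theorem nvh (hl : VE.S_Lam) (ep : VC.S_EP) {L : Type} [Field L] [NumberField L] {n : ℕ}
    {χ : Ideal (𝓞 L) →* ℂ} (hχ : IsChar n χ) {K η : ℝ} (η0 : 0 < η)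
    (hK : ∀ X : ℕ, ‖∑ j ∈ Icc 1 X, lam χ j‖ ≤ K * (X : ℝ) ^ (1 - η))
    (up1 : DS.Up (fun q => (lam (triv L n) q).re) 1)
    (up2 : DS.Up (fun q => (lam (χ ^ 2 : Ideal (𝓞 L) →* ℂ) q).re) 0) :
    ∃ c : ℝ, 0 < c ∧ ∀ s : ℝ, 1 < s → c ≤ ‖LSeries (lam χ) s‖ ∧ -(1 / c) ≤ dsum (lam χ) s := by
  have b1 := DS.norm_le_one hχ
  have K0 : 0 ≤ K := by simpa using (norm_nonneg _).trans (hK 1)
  obtain ⟨z, C, C0, hC⟩ := lip (a := lam χ) (K := K) (θ := 1 - min η (1 / 2))
    (by linarith [min_le_right η (1 / 2)]) (by linarith [lt_min η0 one_half_pos]) fun X => by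
      rcases Nat.eq_zero_or_pos X with rfl | hX
      · simp only [Nat.cast_zero, zero_lt_one, Icc_eq_empty_of_lt, sum_empty, norm_zero]
        positivity
      · exact (hK X).trans (mul_le_mul_of_nonneg_left (Real.rpow_le_rpow_of_exponent_le
          (by exact_mod_cast hX) (by linarith [min_le_left η (1 / 2)])) K0)
  replace hC := fun (s : ℝ) (s1 : 1 < s) => hC s s1 (ep L χ s b1 s1).1
  obtain ⟨C1, c1⟩ := Den.cmp ep χ b1
  have key : ∃ B : ℝ, ∀ s : ℝ, 1 < s → -B ≤ dsum (lam χ) s := by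
    rcases eq_or_ne z 0 with rfl | hz
    · exfalso
      have u1 : DS.Up (fun q => (lam χ q).re) (-1) := by
        refine ⟨DS.re_bdd hl hχ, C1 + Real.log C, fun s s1 _ => ?_⟩
        obtain ⟨c2, c3⟩ := c1 s s1
        have c4 := Real.log_le_log (norm_pos_iff.2 c2) (by simpa using hC s s1)
        rw [Real.log_mul C0.ne' (sub_pos.2 s1).ne'] at c4
        rw [one_div, Real.log_inv]
        change dsum (lam χ) s ≤ _
        linarith [(abs_le.1 c3).2]
      have u2 := ((up1.mul (c := 3) (by norm_num)).add (u1.mul (c := 4) (by norm_num))).add up2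
      have u3 := u2.nonneg one_ne_zero fun q _ _ => by
        simp only [DS.lam_eq, Complex.re_sum, mul_sum, ← sum_add_distrib]
        refine sum_nonneg fun J _ => ?_
        by_cases c : Cop n J
        · simpa [DS.triv_apply, c] using pos341 (hχ.norm_cop J c)
        · simp [DS.triv_apply, c, hχ.zero J c]
      norm_num at u3
    · have z0 : 0 < ‖z‖ := norm_pos_iff.2 hz
      have u1 : 1 < 1 + ‖z‖ / (2 * C) := lt_add_of_pos_right _ (by positivity)
      obtain ⟨C2, c2⟩ := Den.far ep b1 u1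
      refine ⟨max C2 (C1 - Real.log (‖z‖ / 2)), fun s s1 => ?_⟩
      rcases le_total s (1 + ‖z‖ / (2 * C)) with hs | hs
      · have c3 : C * (s - 1) ≤ ‖z‖ / 2 := by
          calc C * (s - 1) ≤ C * (‖z‖ / (2 * C)) := mul_le_mul_of_nonneg_left (by linarith) C0.le
            _ = _ := by field_simp
        have c4 : ‖z‖ / 2 ≤ ‖LSeries (lam χ) s‖ := by
          have := norm_sub_norm_le z (LSeries (lam χ) s)
          rw [norm_sub_rev] at this
          linarith [hC s s1]
        have c5 := Real.log_le_log (by positivity) c4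
        linarith [(abs_le.1 (c1 s s1).2).1, le_max_right C2 (C1 - Real.log (‖z‖ / 2))]
      · linarith [(abs_le.1 (c2 s hs)).1, le_max_left C2 (C1 - Real.log (‖z‖ / 2))]
  obtain ⟨B, hB⟩ := key
  refine ⟨Real.exp (-(|B| + |C1|)), Real.exp_pos _, fun s s1 => ⟨?_, ?_⟩⟩
  · obtain ⟨c2, c3⟩ := c1 s s1
    rw [← Real.le_log_iff_exp_le (norm_pos_iff.2 c2)]
    linarith [(abs_le.1 c3).2, hB s s1, le_abs_self B, le_abs_self C1]
  · rw [one_div, ← Real.exp_neg, neg_neg]
    linarith [Real.add_one_le_exp (|B| + |C1|), hB s s1, le_abs_self B, abs_nonneg C1]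

end Pool.Agent.P.MP_b8021b_nt.BS
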