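import Pool.Agent.P.MP_b8021b_nt.BS.BasicD

/-! The bound for the sums along squares, by partial summation. -/

namespace Pool.Agent.P.MP_b8021b_nt.BS

open NumberField IsDedekindDomain Finset MeasureTheory
open Pool.Agent.P.MP_b8021b_nt.VE Pool.Agent.P.MP_b8021b_nt.VC Pool.Agent.P.MP_b8021b_nt.BS.CF
open scoped Classical ComplexConjugate Real
variable {k : Type} [Field k] [NumberField k] [Algebra k ℂ] {K : Type} [Field K] [NumberField K] [Algebra k K]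

namespace PBb

theorem abel (b : ℕ → ℂ) (w F : ℕ → ℝ) (hF : ∀ j, F (j + 1) ≤ F j) (h0 : ∀ j, 0 ≤ F j)
    (hT : ∀ N, ‖∑ j ∈ range N, b j‖ ≤ ∑ j ∈ range N, w j) (N : ℕ) :
    ‖∑ j ∈ range N, b j * (F j : ℂ)‖ ≤ ∑ j ∈ range N, w j * F j := by
  have key : ∀ N, ‖∑ j ∈ range N, b j * (F j : ℂ) - (∑ j ∈ range N, b j) * (F N : ℂ)‖ ≤
      ∑ j ∈ range N, w j * F j - (∑ j ∈ range N, w j) * F N := by
    intro N
    induction N with
    | zero => simp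
    | succ N ih =>
      have e : ∑ j ∈ range (N + 1), b j * (F j : ℂ) - (∑ j ∈ range (N + 1), b j) * (F (N + 1) : ℂ)
          = (∑ j ∈ range N, b j * (F j : ℂ) - (∑ j ∈ range N, b j) * (F N : ℂ)) +
            (∑ j ∈ range (N + 1), b j) * ((F N - F (N + 1) : ℝ) : ℂ) := by
        rw [sum_range_succ, sum_range_succ]; push_cast; ring
      have h1 : 0 ≤ F N - F (N + 1) := sub_nonneg.2 (hF N)
      have h2 := mul_le_mul_of_nonneg_right (hT (N + 1)) h1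
      rw [e]
      refine (norm_add_le _ _).trans ?_
      rw [norm_mul, Complex.norm_real, Real.norm_of_nonneg h1]
      rw [sum_range_succ (fun j => w j * F j)]
      rw [sum_range_succ w] at h2 ⊢
      linarith
  have h1 := norm_add_le (∑ j ∈ range N, b j * (F j : ℂ) - (∑ j ∈ range N, b j) * (F N : ℂ))
    ((∑ j ∈ range N, b j) * (F N : ℂ))
  rw [sub_add_cancel, norm_mul, Complex.norm_real, Real.norm_of_nonneg (h0 N)] at h1
  have h2 := mul_le_mul_of_nonneg_right (hT N) (h0 N)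
  linarith [key N]

theorem weight (a : ℕ → ℂ) {A θ : ℝ} (hA : 0 ≤ A) (h0 : 0 ≤ θ) (h1 : θ ≤ 1)
    (hS : ∀ X : ℕ, ‖∑ j ∈ range X, a j‖ ≤ A * (X : ℝ) ^ θ) (X : ℕ) :
    ‖∑ j ∈ range X, a j * ((j + 1 : ℕ) : ℂ)‖ ≤ ∑ j ∈ range X, 4 * A * ((j + 1 : ℕ) : ℝ) ^ θ := by
  have e : ∀ X : ℕ, ∑ j ∈ range X, a j * ((j + 1 : ℕ) : ℂ) =
      (∑ j ∈ range X, a j) * (X : ℂ) - ∑ i ∈ range X, ∑ j ∈ range i, a j := by
    intro X
    induction X with
    | zero => simp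
    | succ X ih => rw [sum_range_succ, ih, sum_range_succ a, sum_range_succ _ X]; push_cast; ring
  have h2 : ‖∑ i ∈ range X, ∑ j ∈ range i, a j‖ ≤ X * (A * (X : ℝ) ^ θ) := by
    refine (norm_sum_le_of_le _ (n := fun _ => A * (X : ℝ) ^ θ) fun i hi => (hS i).trans ?_).trans
      (by simp)
    have : (i : ℝ) ≤ X := by exact_mod_cast (mem_range.1 hi).le
    gcongr
  have h3 : ∀ X : ℕ, (X : ℝ) * X ≤ 2 * ∑ j ∈ range X, ((j + 1 : ℕ) : ℝ) := by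
    intro X
    induction X with
    | zero => simp
    | succ X ih => rw [sum_range_succ]; push_cast at ih ⊢; nlinarith
  rcases X.eq_zero_or_pos with rfl | hX
  · simp
  have hX' : (0 : ℝ) < X := by exact_mod_cast hX
  have h4 : ∑ j ∈ range X, (X : ℝ) ^ θ / X * ((j + 1 : ℕ) : ℝ) ≤
      ∑ j ∈ range X, ((j + 1 : ℕ) : ℝ) ^ θ := sum_le_sum fun j hj => by
    have hj' : ((j + 1 : ℕ) : ℝ) ≤ X := by exact_mod_cast mem_range.1 hj
    have := Real.self_le_rpow_of_le_one (x := ((j + 1 : ℕ) : ℝ) / X) (by positivity)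
      ((div_le_one hX').2 hj') h1
    rw [Real.div_rpow (by positivity) hX'.le, le_div_iff₀ (by positivity)] at this
    refine le_trans (le_of_eq ?_) this
    ring
  rw [← mul_sum] at h4
  have h5 : (X : ℝ) * (X : ℝ) ^ θ ≤ 2 * ∑ j ∈ range X, ((j + 1 : ℕ) : ℝ) ^ θ := by
    have := mul_le_mul_of_nonneg_left (h3 X) (by positivity : 0 ≤ (X : ℝ) ^ θ / X)
    rw [show (X : ℝ) ^ θ / X * (X * X) = X * X ^ θ by field_simp] at this
    linarith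
  rw [e, ← mul_sum]
  refine (norm_sub_le _ _).trans ?_
  rw [norm_mul, Complex.norm_natCast]
  have h6 := mul_le_mul_of_nonneg_right (hS X) hX'.le
  nlinarith [mul_le_mul_of_nonneg_left h5 hA]

theorem small {f : ℝ → ℝ} (hf : Ker f) {θ : ℝ} (h0 : 0 ≤ θ) (h1 : θ ≤ 1) :
    ∃ C : ℝ, 0 ≤ C ∧ ∀ s : ℝ, 0 < s → (s ^ 2) ^ θ * f (s ^ 4) ≤ C / (s * (1 + s) ^ 2) := by
  obtain ⟨C₁, a₁⟩ := hf.dec (1 / 4) (by norm_num)
  obtain ⟨C₂, a₂⟩ := hf.dec (5 / 4) (by norm_num)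
  refine ⟨4 * (|C₁| + |C₂|), by positivity, fun s hs => ?_⟩
  have hp := (hf.pos (s ^ 4) (by positivity)).le
  have e : ∀ n : ℕ, (s ^ 4) ^ (-((n : ℝ) / 4)) = (s ^ n)⁻¹ := fun n => by
    rw [← Real.rpow_natCast, ← Real.rpow_mul hs.le, ← Real.rpow_natCast, ← Real.rpow_neg hs.le]
    congr 1; push_cast; ring
  rw [le_div_iff₀ (by positivity)]
  rcases le_total s 1 with h | h
  · have b1 := a₁ (s ^ 4) (by positivity)
    have e1 := e 1
    rw [Nat.cast_one, pow_one] at e1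
    rw [e1, ← div_eq_mul_inv, le_div_iff₀ hs] at b1
    have b2 : (s ^ 2) ^ θ ≤ 1 := Real.rpow_le_one (by positivity) (pow_le_one₀ hs.le h) h0
    have b3 : (1 + s) ^ 2 ≤ 4 := by nlinarith
    calc _ = (s ^ 2) ^ θ * (1 + s) ^ 2 * (f (s ^ 4) * s) := by ring
      _ ≤ 1 * 4 * |C₁| := by gcongr; exact b1.trans (le_abs_self _)
      _ ≤ _ := by linarith [abs_nonneg C₂]
  · have b1 := a₂ (s ^ 4) (by positivity)
    have e1 := e 5
    rw [Nat.cast_ofNat] at e1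
    rw [e1, ← div_eq_mul_inv, le_div_iff₀ (by positivity)] at b1
    have b2 : (s ^ 2) ^ θ ≤ s ^ 2 := Real.rpow_le_self_of_one_le (one_le_pow₀ h) h1
    have b3 : (1 + s) ^ 2 ≤ 4 * s ^ 2 := by nlinarith
    calc _ = (s ^ 2) ^ θ * (1 + s) ^ 2 * (f (s ^ 4) * s) := by ring
      _ ≤ s ^ 2 * (4 * s ^ 2) * (f (s ^ 4) * s) := by gcongr
      _ = 4 * (f (s ^ 4) * s ^ 5) := by ring
      _ ≤ _ := by linarith [abs_nonneg C₁, le_abs_self C₂]

theorem tele {y : ℝ} (hy : 0 < y) (N : ℕ) :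
    ∑ j ∈ range N, y / (√(y * ((j + 1 : ℕ) : ℝ)) * (1 + √(y * ((j + 1 : ℕ) : ℝ))) ^ 2) ≤ 2 := by
  have key : ∀ N : ℕ, ∑ j ∈ range N, y / (√(y * ((j + 1 : ℕ) : ℝ)) *
      (1 + √(y * ((j + 1 : ℕ) : ℝ))) ^ 2) ≤ 2 - 2 / (1 + √(y * N)) := by
    intro N
    induction N with
    | zero => simp
    | succ N ih =>
      rw [sum_range_succ]
      obtain ⟨s, hs⟩ : ∃ s, s = √(y * ((N + 1 : ℕ) : ℝ)) := ⟨_, rfl⟩
      obtain ⟨r, hr⟩ : ∃ r, r = √(y * (N : ℝ)) := ⟨_, rfl⟩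
      have s0 : 0 < s := hs ▸ Real.sqrt_pos.2 (by positivity)
      have r0 : 0 ≤ r := hr ▸ Real.sqrt_nonneg _
      have rs : r ≤ s := by
        rw [hs, hr]; gcongr; exact Nat.le_succ N
      have e : y = s ^ 2 - r ^ 2 := by
        rw [hs, hr, Real.sq_sqrt (by positivity), Real.sq_sqrt (by positivity)]; push_cast; ring
      rw [← hs]
      rw [← hr] at ih
      have h1 : y / (s * (1 + s) ^ 2) ≤ 2 / (1 + r) - 2 / (1 + s) := by
        rw [div_sub_div _ _ (by positivity) (by positivity), div_le_div_iff₀ (by positivity)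
          (by positivity), e]
        have h2 : 0 ≤ s - r := sub_nonneg.2 rs
        have h3 : (s + r) * (1 + r) ≤ (2 * s) * (1 + s) := by gcongr <;> linarith
        have := mul_le_mul_of_nonneg_left h3 (mul_nonneg h2 (by positivity : 0 ≤ 1 + s))
        nlinarith
      linarith
  have : 0 ≤ 2 / (1 + √(y * N)) := by positivity
  linarith [key N]

theorem sum1 {f : ℝ → ℝ} (hf : Ker f) {η : ℝ} (h0 : 0 < η) (h1 : η ≤ 1) :
    ∃ C : ℝ, 0 ≤ C ∧ ∀ z : ℝ, 0 < z → ∀ N : ℕ, ∑ j ∈ range N,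
      ((j + 1 : ℕ) : ℝ) ^ (1 - η) * (z * f (z * ((j + 1 : ℕ) : ℝ) ^ 2)) ≤ C * z ^ (η / 2) := by
  obtain ⟨C, C0, hC⟩ := small hf (θ := 1 - η) (by linarith) (by linarith)
  refine ⟨2 * C, by positivity, fun z hz N => ?_⟩
  obtain ⟨y, hy, rfl⟩ : ∃ y : ℝ, 0 < y ∧ y ^ 2 = z := ⟨√z, Real.sqrt_pos.2 hz, Real.sq_sqrt hz.le⟩
  have e : (y ^ 2) ^ (η / 2) = y ^ η := by
    rw [← Real.rpow_natCast, ← Real.rpow_mul hy.le]; congr 1; push_cast; ring
  have := mul_le_mul_of_nonneg_left (tele hy N) (by positivity : 0 ≤ C * y ^ η)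
  rw [mul_sum] at this
  refine le_trans (sum_le_sum fun j _ => ?_) (this.trans_eq (by rw [e]; ring))
  obtain ⟨n, hn⟩ : ∃ n : ℝ, n = ((j + 1 : ℕ) : ℝ) := ⟨_, rfl⟩
  have n0 : 0 < n := by rw [hn]; positivity
  rw [← hn]
  have h2 := hC (√(y * n)) (Real.sqrt_pos.2 (by positivity))
  rw [show √(y * n) ^ 4 = (√(y * n) ^ 2) ^ 2 by ring, Real.sq_sqrt (by positivity),
    Real.mul_rpow hy.le n0.le, mul_pow] at h2
  have e2 : y ^ η * y ^ (1 - η) = y := by rw [← Real.rpow_add hy]; simp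
  calc _ = y ^ η * y * (y ^ (1 - η) * n ^ (1 - η) * f (y ^ 2 * n ^ 2)) := by
        rw [show y ^ η * y * (y ^ (1 - η) * n ^ (1 - η) * f (y ^ 2 * n ^ 2)) =
          (y ^ η * y ^ (1 - η)) * y * (n ^ (1 - η) * f (y ^ 2 * n ^ 2)) by ring, e2]; ring
    _ ≤ y ^ η * y * (C / (√(y * n) * (1 + √(y * n)) ^ 2)) := by gcongr
    _ = _ := by ring

theorem sum2 {f : ℝ → ℝ} (hf : Ker f) {η A : ℝ} (h0 : 0 < η) (hA : 1 ≤ A) :
    ∃ C : ℝ, 0 ≤ C ∧ ∀ z : ℝ, 0 < z → ∀ N : ℕ, ∑ j ∈ range N,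
      ((j + 1 : ℕ) : ℝ) ^ (1 - η) * (z * f (z * ((j + 1 : ℕ) : ℝ) ^ 2)) ≤ C * z ^ (-A) := by
  obtain ⟨C, hC⟩ := hf.dec (A + 1) (by linarith)
  refine ⟨2 * |C|, by positivity, fun z hz N => ?_⟩
  have key : ∀ N : ℕ, ∑ j ∈ range N, (((j + 1 : ℕ) : ℝ) ^ 2)⁻¹ ≤ 2 - 2 / ((N : ℝ) + 1) := by
    intro N
    induction N with
    | zero => simp
    | succ N ih =>
      rw [sum_range_succ]
      have : (((N + 1 : ℕ) : ℝ) ^ 2)⁻¹ ≤ 2 / ((N : ℝ) + 1) - 2 / (((N + 1 : ℕ) : ℝ) + 1) := by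
        push_cast
        rw [div_sub_div _ _ (by positivity) (by positivity), inv_eq_one_div,
          div_le_div_iff₀ (by positivity) (by positivity)]
        nlinarith [(Nat.cast_nonneg N : (0 : ℝ) ≤ N), sq_nonneg (N : ℝ)]
      linarith
  have h1 : ∑ j ∈ range N, (((j + 1 : ℕ) : ℝ) ^ 2)⁻¹ ≤ 2 := by
    have : 0 ≤ 2 / ((N : ℝ) + 1) := by positivity
    linarith [key N]
  have := mul_le_mul_of_nonneg_left h1 (by positivity : 0 ≤ |C| * z ^ (-A))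
  rw [mul_sum] at this
  refine le_trans (sum_le_sum fun j _ => ?_) (this.trans_eq (by ring))
  obtain ⟨n, hn⟩ : ∃ n : ℝ, n = ((j + 1 : ℕ) : ℝ) := ⟨_, rfl⟩
  have n1 : 1 ≤ n := by rw [hn]; exact_mod_cast Nat.le_add_left 1 j
  have n0 : 0 < n := by linarith
  rw [← hn]
  have h2 := (hC (z * n ^ 2) (by positivity)).trans
    (mul_le_mul_of_nonneg_right (le_abs_self C) (by positivity))
  rw [Real.mul_rpow hz.le (by positivity)] at h2
  have e : z * z ^ (-(A + 1)) = z ^ (-A) := by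
    rw [← Real.rpow_one_add' hz.le (by linarith)]; congr 1; ring
  have h3 : n ^ (1 - η) * (n ^ 2) ^ (-(A + 1)) ≤ (n ^ 2)⁻¹ := by
    rw [← Real.rpow_natCast, ← Real.rpow_mul n0.le, ← Real.rpow_add n0, ← Real.rpow_neg n0.le]
    refine Real.rpow_le_rpow_of_exponent_le n1 ?_
    push_cast; linarith
  calc _ ≤ n ^ (1 - η) * (z * (|C| * (z ^ (-(A + 1)) * (n ^ 2) ^ (-(A + 1))))) := by gcongr
    _ = |C| * (z * z ^ (-(A + 1))) * (n ^ (1 - η) * (n ^ 2) ^ (-(A + 1))) := by ring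
    _ ≤ _ := by rw [e]; gcongr

theorem fiber (hThB : X_ThB K) {f : ℝ → ℝ} (hf : Ker f) {C : Ideal (𝓞 K) → ℂ} {A₀ : ℝ}
    (hC : ∀ I, ‖C I‖ ≤ A₀) (𝔫 : Ideal (𝓞 K)) {τ : ℝ} (hz : 0 < τ * NN 𝔫) :
    HasSum (fun j : ℕ => lam (fun m => C (𝔫 * m ^ 2)) (j + 1) * ((j + 1 : ℕ) : ℂ) *
      ((τ * NN 𝔫 * f (τ * NN 𝔫 * ((j + 1 : ℕ) : ℝ) ^ 2) : ℝ) : ℂ)) (bb f C 𝔫 τ) := by
  have h1 : Summable fun m : Ideal (𝓞 K) =>
      C (𝔫 * m ^ 2) * ((τ * NN 𝔫 * NN m * f (τ * NN 𝔫 * NN m ^ 2) : ℝ) : ℂ) := by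
    refine .of_norm_bounded (((hThB f hf).2.1 _ hz).abs.mul_left (A₀ * (τ * NN 𝔫))) fun m => ?_
    rw [norm_mul, Complex.norm_real, Real.norm_eq_abs, mul_assoc (τ * NN 𝔫), abs_mul,
      abs_of_pos hz, mul_assoc A₀]
    exact mul_le_mul_of_nonneg_right (hC _) (by positivity)
  have h2 : HasSum (fun j : ℕ => lam (fun m => C (𝔫 * m ^ 2)) j * (j : ℂ) *
      ((τ * NN 𝔫 * f (τ * NN 𝔫 * (j : ℝ) ^ 2) : ℝ) : ℂ)) (bb f C 𝔫 τ) := by
    refine (h1.hasSum.tsum_fiberwise Ideal.absNorm).congr_fun fun j => ?_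
    rw [show Ideal.absNorm ⁻¹' {j} = ↑(finite_absNorm (E := K) j).toFinset from
      (Set.Finite.coe_toFinset _).symm, Finset.tsum_subtype' _ fun m : Ideal (𝓞 K) =>
      C (𝔫 * m ^ 2) * ((τ * NN 𝔫 * NN m * f (τ * NN 𝔫 * NN m ^ 2) : ℝ) : ℂ), lam_eq_sum, sum_mul,
      sum_mul]
    refine sum_congr rfl fun m hm => ?_
    have : Ideal.absNorm m = j := by simpa using hm
    rw [NN, NN, this]; push_cast; ring
  simpa using (hasSum_nat_add_iff' 1).2 h2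

end PBb

open PBb in
theorem x_bb (c : Ctx k K) (hThB : X_ThB K) : X_Bb K := by
  intro f η A hf h0 h1 hA
  obtain ⟨C₁, c1, a1⟩ := sum1 hf h0 h1
  obtain ⟨C₂, c2, a2⟩ := sum2 hf h0 hA
  refine ⟨1 + 4 * (C₁ + C₂), by linarith, fun C A₀ hC 𝔫 hn τ hτ => ?_⟩
  have A0 : 0 ≤ A₀ := (norm_nonneg _).trans (hC.bd ⊤)
  have hz : 0 < τ * NN 𝔫 := mul_pos hτ (Nat.cast_pos.2
    (Nat.pos_of_ne_zero fun e => hn (Ideal.absNorm_eq_zero_iff.1 e)))
  refine le_of_tendsto' (fiber hThB hf hC.bd 𝔫 hz).tendsto_sum_nat.norm fun N => ?_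
  obtain ⟨z, e⟩ : ∃ z, z = τ * NN 𝔫 := ⟨_, rfl⟩
  rw [← e] at hz ⊢
  refine (abel _ _ (fun j => z * f (z * ((j + 1 : ℕ) : ℝ) ^ 2)) (fun j => ?_)
    (fun j => (mul_pos hz (hf.pos _ (by positivity))).le)
    (weight (fun j => lam (fun m => C (𝔫 * m ^ 2)) (j + 1)) A0 (θ := 1 - η) (by linarith)
      (by linarith) fun X => ?_) N).trans ?_
  · refine mul_le_mul_of_nonneg_left (hf.anti (Set.mem_Ioi.2 (by positivity))
      (Set.mem_Ioi.2 (by positivity)) ?_) hz.le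
    gcongr
    exact Nat.le_succ _
  · have := hC.sq 𝔫 hn X
    rwa [← Finset.Ico_add_one_right_eq_Icc, sum_Ico_eq_sum_range, Nat.add_sub_cancel,
      sum_congr rfl fun j _ => by rw [add_comm 1 j]] at this
  · simp only [mul_assoc (4 * A₀)]
    rw [← mul_sum, ph, mul_min_of_nonneg _ _ (by positivity)]
    have p1 : 0 ≤ z ^ (η / 2) := by positivity
    have p2 : 0 ≤ z ^ (-A) := by positivity
    refine le_min ((mul_le_mul_of_nonneg_left (a1 z hz N) (by positivity)).trans ?_)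
      ((mul_le_mul_of_nonneg_left (a2 z hz N) (by positivity)).trans ?_)
    · nlinarith [mul_nonneg A0 p1, mul_nonneg c2 (mul_nonneg A0 p1)]
    · nlinarith [mul_nonneg A0 p2, mul_nonneg c1 (mul_nonneg A0 p2)]

end Pool.Agent.P.MP_b8021b_nt.BS
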