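import Pool.Agent.P.MP_b8021b_nt.BS.PNV1

/-! Some twist with a large prime factor has a nonzero central value. -/

namespace Pool.Agent.P.MP_b8021b_nt.BS

open NumberField IsDedekindDomain Finset MeasureTheory Filter Topology
open Pool.Agent.P.MP_b8021b_nt.VE Pool.Agent.P.MP_b8021b_nt.VC Pool.Agent.P.MP_b8021b_nt.BS.CF
open scoped Classical ComplexConjugate Real

variable {k : Type} [Field k] [NumberField k] [Algebra k ℂ] {K : Type} [Field K] [NumberField K]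
  [Algebra k K]

namespace PNV

theorem good_sq {n : ℕ} (h : Good K n) : Good K (n ^ 2) := by
  have e : ∀ 𝔠 : Ideal (𝓞 K), (n : 𝓞 K) ∈ 𝔠 → ((n ^ 2 : ℕ) : 𝓞 K) ∈ 𝔠 := fun 𝔠 h => by
    rw [Nat.cast_pow]; exact 𝔠.pow_mem_of_mem h 2 two_pos
  refine ⟨pow_ne_zero 2 h.pos, h.eight.trans (dvd_pow_self n two_ne_zero), fun ξ hξ => ?_,
    fun I hI => ?_, fun I hI => ?_⟩
  · obtain ⟨a, ha⟩ := h.dual ξ hξ
    exact ⟨n * a, by push_cast; linear_combination (n : K) * ha⟩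
  · obtain ⟨𝔠, γ, a, b⟩ := h.cr I hI
    exact ⟨𝔠, γ, e 𝔠 a, b⟩
  · obtain ⟨𝔠, γ, a, b⟩ := h.rr I hI
    exact ⟨𝔠, γ, e 𝔠 a, b⟩

theorem cop_of_pr {t t' : 𝓞 K} (ht : t ≠ 0) (ht' : t' ≠ 0) (h : ∀ v ∈ pr t, v ∉ pr t') :
    IsCoprime t t' := by
  rw [← Ideal.isCoprime_span_singleton_iff, Ideal.isCoprime_iff_sup_eq]
  by_contra e
  obtain ⟨M, hM, e⟩ := Ideal.exists_le_maximal _ e
  have a := e (Ideal.mem_sup_left (Ideal.mem_span_singleton_self t))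
  let v : Pl K := ⟨M, hM.isPrime, fun e => ht (by simpa [e] using a)⟩
  exact h v ((mem_pr ht).2 a)
    ((mem_pr ht').2 (e (Ideal.mem_sup_right (Ideal.mem_span_singleton_self t'))))

omit [NumberField K] in
theorem one_not (v : Pl K) : (1 : 𝓞 K) ∉ v.asIdeal := fun h =>
  v.isPrime.ne_top ((Ideal.eq_top_iff_one _).2 h)

theorem adm_one (n : ℕ) (ζ : K) : Adm n ζ 1 :=
  ⟨⟨by simp, by simp [sp]⟩,
    fun v h => absurd h (one_not v)⟩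

theorem dv_one : dv (1 : 𝓞 K) = 1 :=
  prod_eq_one fun v h => absurd ((mem_pr one_ne_zero).1 h) (one_not v)

variable {ι : Type} [Fintype ι] [DecidableEq ι]

theorem ok {F : Fam K ι} {σ Y : ι → ℝ} {Z : ℝ} {n : ℕ} {ζ : K} (h1 : ∀ i, (F.T i).Nonempty ∧
      ∀ t ∈ F.T i, Adm n ζ t ∧ NN (sp t) ≤ Y i ∧ dv t ≤ 1 + σ i)
    (h2 : ∀ i j, i ≠ j → ∀ t ∈ F.T i, ∀ t' ∈ F.T j, IsCoprime t t') (h3 : ∀ i t, ‖F.a i t‖ ≤ 1)
    (h4 : 0 < F.lam) (h5 : ∏ i ∈ F.E, Y i ≤ Z * F.lam) : F.Ok σ Z :=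
  ⟨fun i => (h1 i).1, fun i t h => ((h1 i).2 t h).1.1.2, h2, h3, h4,
    fun i t h => ((h1 i).2 t h).2.2, fun _ h => (prod_le_prod (fun _ _ => Nat.cast_nonneg _)
      fun i _ => ((h1 i).2 _ (Fintype.mem_piFinset.1 h i)).2.1).trans h5⟩

theorem cov {J : Type} [Fintype J] [DecidableEq J] {p h j₀ j₁ : ℕ} {T : ℕ → Finset (𝓞 K)}
    {Z C δ : ℝ} (F : Fam K (Fin (p + 1) ⊕ J)) (hT : ∀ i, F.T (.inl i) = T i)
    (hE : ∀ s l : Fin (p + 1), Odd (s.1 + l.1) → ¬ (.inl s ∈ F.E ∧ .inl l ∈ F.E))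
    (hh : ∀ i, ∀ t ∈ T i, (pr t).card ≤ h) (hc : Cover T p j₀ j₁ Z C δ) : F.Cov h j₀ j₁ Z C δ := by
  intro j a b
  obtain ⟨s, l, hs, hl, o, r⟩ := hc j a b
  refine ⟨.inl ⟨s, by omega⟩, .inl ⟨l, by omega⟩, fun e => ?_, hE _ _ o, ?_⟩
  · obtain rfl : s = l := by simpa using e
    exact Nat.not_odd_iff_even.2 ⟨s, rfl⟩ o
  · simp only [hT]
    exact ⟨hh s, hh l, r⟩

theorem ex_eps {a L η : ℝ} (hL : 0 < L) (η0 : 0 < η) :
    ∃ ε : ℝ, 0 < ε ∧ ε ≤ 1 / 1000 ∧ a * (ε + ε ^ η) < L := by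
  have h : Tendsto (fun ε : ℝ => a * (ε + ε ^ η)) (𝓝[>] 0) (𝓝 (a * (0 + 0 ^ η))) :=
    ((continuousAt_id.add (Real.continuousAt_rpow_const 0 η (.inr η0.le))).const_mul
      a).tendsto.mono_left nhdsWithin_le_nhds
  rw [Real.zero_rpow η0.ne', add_zero, mul_zero] at h
  obtain ⟨ε, e1, e2⟩ := ((h.eventually (gt_mem_nhds hL)).and
    (Ioc_mem_nhdsGT (by norm_num : (0 : ℝ) < 1 / 1000))).exists
  exact ⟨ε, e2.1, e2.2, e1⟩

theorem ex_j (a : ℝ) {ε δ : ℝ} (ε0 : 0 < ε) (δ0 : 0 < δ) :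
    ∃ j : ℕ, ∀ i, j ≤ i → a * ((2 : ℝ) ^ i) ^ (-δ) ≤ ε := by
  have h := ((tendsto_rpow_neg_atTop δ0).comp
    (tendsto_pow_atTop_atTop_of_one_lt (one_lt_two (α := ℝ)))).const_mul a
  rw [mul_zero] at h
  exact eventually_atTop.1 (h.eventually (ge_mem_nhds ε0))

end PNV

open PNV in
theorem x_nV (c : Ctx k K) (hFV : X_FV K) (hExt : X_Ext K) (hEV : X_EV k K) (hNVH : X_NVH k K)
    (hG3 : X_G3 k K) (hThB : X_ThB K) (hBb : X_Bb K) (hMainP : X_MainP K) (hSg : X_Sg K)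
    (hMain : X_Main K) (hSide : X_Side K) (hCut : X_Cut K) (hSc : X_Sc K) : X_NV k K := by
  intro n ζ Ψ f hG hU hΨ hf ⟨m, C, γ, cc, A₀, η, η0, η1, hCo, hC, hFE⟩ W₀
  by_contra! hcon
  have n2 := hG.two_le
  have hG2 := good_sq hG
  obtain ⟨δ, A, C₁, h, δ0, A1, C0, hS⟩ := hSc n ζ hG hU
  obtain ⟨cB, -, hB⟩ := hBb f η A hf η0 η1 A1
  obtain ⟨B, -⟩ := c.bf
  obtain ⟨c₀, c0, hL⟩ := hNVH n _ (Ψ * Ψ) n2 (by
    simpa using ((c.lib.bcn.2 k B K n _ _ Ψ n2 hΨ).2.2.2.1 n _ _ Ψ (by omega) hΨ).2 rfl) (by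
      have : Nonempty (Emb k K) := Fintype.card_pos_iff.1 (by
        rw [c.card_emb]; exact_mod_cast one_pos.trans_le c.one_le_rk)
      exact fun e => by simpa using congrFun e this.some)
  have L0 := hMainP f Ψ _ _ A c₀ hf hΨ.norm_le (half_pos η0) A1 (hB _ _ hCo) c0 hL
  obtain ⟨cC, -, hcore⟩ := core hSg hMain hSide (half_pos η0) A1 δ0
  obtain ⟨ε, ε0, ε1, hε⟩ := ex_eps (a := (1 + ∑ j, ‖γ j‖) * (cC * (cB * A₀)))
    (norm_pos_iff.2 L0) (half_pos η0)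
  obtain ⟨j, hj⟩ := ex_j (2 ^ h * C₁) ε0 δ0
  obtain ⟨j₀, jj, hS⟩ := hS ε (j + 1) ε0
  obtain ⟨ρ, ρ0, ρ1, hρ⟩ : ∃ ρ : ℝ, 0 < ρ ∧ ρ ≤ ε ∧ (sqf K 1 (2 ^ j₀)).card * ρ ≤ ε :=
    ⟨ε / ((sqf K 1 (2 ^ j₀)).card + 1), by positivity, div_le_self ε0.le (by simp), by
      rw [mul_div_assoc', div_le_iff₀ (by positivity)]; nlinarith⟩
  obtain ⟨M, hM⟩ := exists_pow_lt_of_lt_one ρ0 (by norm_num : (0.996 : ℝ) < 1)
  let J := {𝔫 // 𝔫 ∈ (sqf K 1 (2 ^ j₀)).filter fun 𝔫 => 𝔫 ≠ ⊤ ∧ Cop n 𝔫} ⊕ Fin M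
  obtain ⟨x, hx⟩ := hExt J (fun j t => Adm (n ^ 2) ζ t ∧
    Sum.elim (fun 𝔫 => jac t 𝔫.1 = -1) (fun _ => 1 / 2 ≤ ‖Ψ (sp t) ^ 2 - 1‖) j) (by
      rintro (⟨𝔫, h𝔫⟩ | j)
      · obtain ⟨h1, h2, h3⟩ := mem_filter.1 h𝔫
        obtain ⟨x, hx⟩ := hFV _ ζ 𝔫 hG2.pos hG2.eight hU (mem_sqf.1 h1).1 h2
          ((cop_pow_nat two_pos).2 h3)
        exact ⟨x, fun W => (hx W).imp fun t h => ⟨h.1.1.ne_zero, ⟨h.1, h.2.1⟩, h.2.2⟩⟩
      · obtain ⟨x, hx⟩ := hEV n ζ Ψ n2 ((by norm_num : 2 ∣ 8).trans hG.eight) hU hΨ _ hG2.pos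
          (dvd_pow_self n two_ne_zero)
        exact ⟨x, fun W => (hx W).imp fun t h => ⟨h.1.1.ne_zero, ⟨h.1, h.2.1⟩, h.2.2⟩⟩)
  obtain ⟨W₁, hS⟩ := hS x
  obtain ⟨u, 𝒵, z1, z2, hu, uc, up⟩ := hx ρ W₁ ρ0
  have u1 : ∀ j, 1 ≤ NN (sp (u j)) := fun j => one_le_NN (hu j).2.1.1.1.2.ne_zero
  have un : ∀ j, (1 : 𝓞 K) ≠ u j := by
    intro j e
    have := (hu j).2.1.2
    rw [← e] at this
    rcases j with 𝔫 | j
    · rw [Sum.elim_inl, jac_one (mem_sqf.1 (mem_filter.1 𝔫.2).1).1.ne_zero] at this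
      norm_num at this
    · norm_num [sp, ← Ideal.one_eq_top] at this
  obtain ⟨W, w0, w1, w2, w3⟩ : ∃ W : ℝ, W₀ ≤ W ∧ 1 ≤ W ∧ ∏ j, NN (sp (u j)) ≤ W ∧
      ∀ j, (cc j)⁻¹ ≤ W := ⟨max (max W₀ 1) (max (∏ j, NN (sp (u j))) (∑ j, (cc j)⁻¹)), by simp,
    by simp, by simp, fun j => le_max_of_le_right (le_max_of_le_right
      (single_le_sum (fun j _ => (inv_pos.2 (hC j).1).le) (mem_univ j)))⟩
  obtain ⟨p, j₁, T, Y, σ, s1, s2, s3, s4, s5, s6, s7, s8⟩ := hS 𝒵 W z1 z2 w1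
  set Q := ∏ i ∈ range (p + 1), Y i with hQ
  have Q1 : 1 ≤ Q := one_le_prod fun i _ => (s1 i).2.1
  have Q0 : 0 < √Q := Real.sqrt_pos.2 (by linarith)
  have Z0 : 0 < W * √Q := by positivity
  let T' : Fin (p + 1) ⊕ J → Finset (𝓞 K) := Sum.elim (fun i => T i) fun j => {1, u j}
  let σ' : Fin (p + 1) ⊕ J → ℝ := Sum.elim (fun i => σ i) fun j => dv (u j) - 1
  let Y' : Fin (p + 1) ⊕ J → ℝ := Sum.elim (fun i => Y i) fun j => NN (sp (u j))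
  let E : Finset (Fin (p + 1) ⊕ J) :=
    univ.filter (Sum.elim (fun i => Odd (i.1 + p)) fun j => j.isRight)
  let e : Fin (p + 1) ⊕ J → 𝓞 K → ℂ := fun _ t => if Pri (n ^ 2) t then eps k t else 0
  obtain ⟨g1, g2, g3⟩ := hG3 _ hG2
  have Y1 : ∀ i, 1 ≤ Y' i := by
    rintro (i | j)
    exacts [(s1 i).2.1, u1 j]
  have H1 : ∀ i, (T' i).Nonempty ∧
      ∀ t ∈ T' i, Adm (n ^ 2) ζ t ∧ NN (sp t) ≤ Y' i ∧ dv t ≤ 1 + σ' i := by
    rintro (i | j)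
    · exact ⟨(s1 i).1, fun t ht => have := (s1 i).2.2 t ht; ⟨this.1, this.2.2.1, this.2.2.2.1⟩⟩
    · refine ⟨insert_nonempty _ _, fun t ht => ?_⟩
      rcases mem_insert.1 ht with rfl | ht
      · exact ⟨adm_one _ _, by simpa [NN] using Y1 (.inr j), by simpa [σ', dv_one] using one_le_dv _⟩
      · rw [mem_singleton.1 ht]
        exact ⟨(hu j).2.1.1, le_rfl, by simp [σ']⟩
  have H2 : ∀ i j, i ≠ j → ∀ t ∈ T' i, ∀ t' ∈ T' j, IsCoprime t t' := by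
    have a : ∀ (i : Fin (p + 1)) j, ∀ t ∈ T i, ∀ t' ∈ T' (.inr j), IsCoprime t t' :=
      fun i j t ht t' ht' => by
        rcases mem_insert.1 ht' with rfl | ht'
        · exact isCoprime_one_right
        · rw [mem_singleton.1 ht']
          exact cop_of_pr ((s1 i).2.2 t ht).1.1.ne_zero (hu j).1 fun v h h' =>
            ((s1 i).2.2 t ht).2.2.2.2 v h ((hu j).2.2.1 h')
    rintro (i | i) (j | j) ij t ht t' ht'
    · exact s2 i j (fun e => ij (congrArg _ (Fin.ext e))) t ht t' ht'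
    · exact a i j t ht t' ht'
    · exact (a j i t' ht' t ht).symm
    · rcases mem_insert.1 ht with rfl | ht
      · exact isCoprime_one_left
      rcases mem_insert.1 ht' with rfl | ht'
      · exact isCoprime_one_right
      rw [mem_singleton.1 ht, mem_singleton.1 ht']
      exact uc i j fun e => ij (congrArg _ e)
  have H3 : ∀ i t, ‖e i t‖ ≤ 1 := fun i t => by
    simp only [e]
    split_ifs with h
    exacts [(g1 t h).1.le, by simp]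
  have E0 : 0 < ∏ i ∈ E, Y' i := prod_pos fun i _ => one_pos.trans_le (Y1 i)
  obtain ⟨lm, hlm⟩ : ∃ lm, lm = (∏ i ∈ E, Y' i) / (W * √Q) := ⟨_, rfl⟩
  have l0 : 0 < lm := hlm ▸ div_pos E0 Z0
  have l1 : lm ≤ ε := by
    rw [hlm, div_le_iff₀ Z0, prod_filter, Fintype.prod_sum_type]
    refine le_trans ?_ (s7.trans (by gcongr; exact le_mul_of_one_le_left Q0.le w1))
    rw [mul_comm, prod_filter, prod_range]
    refine mul_le_mul (le_trans (prod_le_prod (fun j _ => ?_) fun j _ => ?_) w2)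
      (le_of_eq (prod_congr rfl fun i _ => if_congr Iff.rfl rfl rfl)) (prod_nonneg fun i _ => ?_) (by linarith) <;> split_ifs <;>
      first | exact zero_le_one | exact zero_le_one.trans (Y1 _) | exact le_rfl | exact u1 _
  have okA : (⟨T', fun _ _ => 1, E, lm⟩ : Fam K _).Ok σ' (W * √Q) :=
    ok H1 H2 (by simp) l0 (by rw [hlm, mul_div_cancel₀ _ Z0.ne'])
  have okB : ∀ j, (⟨T', e, Eᶜ, cc j / lm⟩ : Fam K _).Ok σ' (W * √Q) := fun j =>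
    ok H1 H2 H3 (div_pos (hC j).1 l0) (by
      have a := (inv_le_iff_one_le_mul₀ (hC j).1).1 (w3 j)
      rw [hlm, div_div_eq_mul_div, mul_div_assoc', le_div_iff₀ E0, prod_compl_mul_prod,
        Fintype.prod_sum_type]
      calc _ = Q * (∏ j, NN (sp (u j))) * 1 := by rw [hQ, prod_range, mul_one]; rfl
        _ ≤ Q * W * (W * cc j) := by gcongr
        _ = _ := by linear_combination (-W * W * cc j) * Real.mul_self_sqrt (zero_le_one.trans Q1))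
  have HP : ∏ i, (1 + σ' i) ≤ 1 + 3 * ε := by
    rw [Fintype.prod_sum_type]
    rw [prod_range] at s3
    simp only [σ', Sum.elim_inl, Sum.elim_inr, add_sub_cancel]
    refine (mul_le_mul s3 up (prod_nonneg fun j _ => zero_le_one.trans (one_le_dv _))
      (by linarith)).trans (by nlinarith)
  have hh := fun i t ht => ((s1 i).2.2 t ht).2.1
  obtain ⟨iA, i0⟩ := hCut _ T' E lm e m (fun ω => Tw f Ψ (∏ i, ω i))
    (fun j ω => Tw f (C j) (∏ i, ω i)) γ cc l0 (fun j => (hC j).1)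
    (fun i t ht => ((H1 i).2 t ht).1.1.ne_zero) fun ω hω => by
      have a := fun i => ((H1 i).2 _ (Fintype.mem_piFinset.1 hω i)).1
      obtain ⟨b1, b2⟩ := g3 _ ω (fun i => (a i).1) fun i j ij =>
        H2 i j ij _ (Fintype.mem_piFinset.1 hω i) _ (Fintype.mem_piFinset.1 hω j)
      have b3 : ∀ D : Ideal (𝓞 K) → ℂ, Co D A₀ η → ∀ x : ℝ, 0 < x →
          IntegrableOn (fun τ => Tw f D (∏ i, ω i) τ / τ) (Set.Ioi x) := fun D hD =>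
        ((hThB f hf).2.2 _ A₀ fun I => by
          rw [norm_mul]
          exact (mul_le_of_le_one_right (norm_nonneg _) (norm_jac_le _ _)).trans (hD.bd I)).2.2.2
      refine ⟨fun x hx => ⟨b3 _ hCo x hx, fun j => b3 _ (hC j).2 x hx⟩, fun τ hτ => ?_,
        hcon _ ⟨b1, fun v hv => ?_⟩ ?_⟩
      · rw [hFE _ b1 τ hτ, b2]
        simp only [e, if_pos (a _).1]
      · have := v.isPrime
        obtain ⟨i, -, hi⟩ := Ideal.IsPrime.prod_mem_iff.1 hv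
        exact (a i).2 v hi
      · obtain ⟨v, v1, v2⟩ := s8 _ (Fintype.mem_piFinset.1 hω (.inl (Fin.last p)))
        exact ⟨v, (mem_pr b1.ne_zero).2 (v.asIdeal.mem_of_dvd (dvd_prod_of_mem _ (mem_univ _))
          ((mem_pr (a _).1.ne_zero).1 v1)), w0.trans v2⟩
  refine (main_le iA L0 i0 ((hcore _ _ σ' _ f Ψ A₀ _ C₁ ε ρ h j₀ j₁ okA hf hCo.bd (hB _ _ hCo)
    (by omega) s4 C0 (cov _ (fun _ => rfl) ?_ hh s5) ε0 (by linarith) ρ0.le HP (hj _ (by omega)) s6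
    hρ).1 (fun _ _ => rfl) l1 fun 𝔫 h1 h2 => ?_) fun j => (hcore _ _ σ' _ f (C j) A₀ _ C₁ ε ρ h j₀
    j₁ (okB j) hf (hC j).2.bd (hB _ _ (hC j).2) (by omega) s4 C0 (cov _ (fun _ => rfl) ?_ hh s5) ε0
    (by linarith) ρ0.le HP (hj _ (by omega)) s6 hρ).2 (univ.map ⟨fun i => .inr (.inr i), ?_⟩) 0.996
    (by norm_num) (by simpa using hM.le) ?_).not_gt (by rwa [← mul_assoc])
  · simp only [E, mem_filter, mem_univ, true_and, Sum.elim_inl, Nat.odd_iff]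
    omega
  · by_cases h3 : Cop n 𝔫
    · have := hu (.inl ⟨𝔫, mem_filter.2 ⟨h1, h2, h3⟩⟩)
      refine .inr ⟨.inr (.inl ⟨𝔫, mem_filter.2 ⟨h1, h2, h3⟩⟩), by simp [E], ?_, ?_⟩
      · refine (sum_pair (un _)).trans ?_
        rw [jac_one (mem_sqf.1 h1).1.ne_zero, show jac _ 𝔫 = -1 from this.2.1.2, add_neg_cancel]
      · exact sub_le_iff_le_add'.2 this.2.2.2
    · exact .inl fun I => hΨ.zero _ fun e => h3 (cop_mul.1 e).1
  · simp only [E, mem_compl, mem_filter, mem_univ, true_and, Sum.elim_inl, Nat.odd_iff]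
    omega
  · exact fun a b h => Sum.inr_injective (Sum.inr_injective h)
  · intro i hi
    obtain ⟨a, -, rfl⟩ := mem_map.1 hi
    refine ⟨fun h => mem_compl.1 h (mem_filter.2 ⟨mem_univ _, rfl⟩), fun 𝔫 h0 => ?_⟩
    obtain ⟨b0, ⟨b1, b2⟩, -, b3⟩ := hu (.inr a)
    have b4 := gain (g1 _ b1.1).1 (by
      rw [(g1 _ b1.1).2, dP_eq_ty,
        ← hΨ.prin _ ((Nat.cast_dvd_cast (dvd_pow_self n two_ne_zero)).trans b1.1.1)]
      exact b2) (jac_cases (u (.inr a)) 𝔫)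
    change ‖∑ t ∈ {1, u (.inr a)}, e (.inr (.inr a)) t * jac t 𝔫‖ /
      (({1, u (.inr a)} : Finset (𝓞 K)).card : ℝ) + (dv (u (.inr a)) - 1) ≤ _
    rw [sum_pair (un _), card_pair (un _)]
    simp only [e, if_pos b1.1, if_pos (adm_one (n ^ 2) ζ).1, g2, jac_one h0, mul_one]
    push_cast
    linarith

end Pool.Agent.P.MP_b8021b_nt.BS
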