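import Pool.Agent.P.MP_b8021b_nt.BS.BasicD

/-! The inequality for the main term that follows from the vanishing of all twists. -/

namespace Pool.Agent.P.MP_b8021b_nt.BS.PNV

open NumberField IsDedekindDomain Finset MeasureTheory
open Pool.Agent.P.MP_b8021b_nt.VE Pool.Agent.P.MP_b8021b_nt.VC Pool.Agent.P.MP_b8021b_nt.BS.CF
open scoped Classical ComplexConjugate Real

variable {K : Type} [Field K] [NumberField K]

/-- one squarefree part with a gain from the variables in `G` -/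
theorem sg (hSg : X_Sg K) {η A : ℝ} (η0 : 0 < η) (A1 : 1 ≤ A) : ∃ c : ℝ, 1 ≤ c ∧
    ∀ (ι : Type) [Fintype ι] [DecidableEq ι] (F : Fam K ι) (σ : ι → ℝ) (Z : ℝ) (f : ℝ → ℝ)
      (C : Ideal (𝓞 K) → ℂ) (A' θ : ℝ) (𝔫 : Ideal (𝓞 K)) (G : Finset ι), F.Ok σ Z →
      BB f C A' η A → 𝔫 ≠ ⊥ → 0 ≤ θ → (∀ i ∈ G, i ∉ F.E ∧
        ‖∑ t ∈ F.T i, F.a i t * jac t 𝔫‖ / (F.T i).card + σ i ≤ θ) →
      Dom (fun τ => F.av (fun ω => pc f C ω 𝔫 τ) τ) (c * A' * (θ ^ G.card * ∏ i, (1 + σ i))) := by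
  obtain ⟨c, c1, hc⟩ := hSg η A η0 A1
  refine ⟨c, c1, fun ι _ _ F σ Z f C A' θ 𝔫 G ok hB h0 θ0 hG => ?_⟩
  refine (hc ι F σ (fun i => if i ∈ G then θ else 1 + σ i) Z f C A' 𝔫 ok hB h0 (fun i hi => ?_)
    fun i hi => ?_).mono (mul_le_mul_of_nonneg_left ?_ (mul_nonneg (by linarith) hB.nonneg))
  · rw [if_neg fun e => (hG i e).1 hi]
  · split_ifs with e
    · exact (hG i e).2
    · refine add_le_add_left ((div_le_one (Nat.cast_pos.2 (ok.ne i).card_pos)).2 ?_) _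
      refine (norm_sum_le _ _).trans ((sum_le_card_nsmul _ _ 1 fun t _ => ?_).trans (by simp))
      rw [norm_mul]
      exact mul_le_one₀ (ok.a_le i t) (norm_nonneg _) (norm_jac_le _ _)
  · rw [← prod_const, ← Fintype.prod_ite_mem G, ← prod_mul_distrib]
    refine prod_le_prod (fun i _ => ?_) fun i _ => ?_ <;> have := ok.sigma i <;> split_ifs <;>
      nlinarith

theorem top_mem {R : ℝ} (h : 1 < R) : (⊤ : Ideal (𝓞 K)) ∈ sqf K 1 R :=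
  mem_sqf.2 ⟨by rw [← Ideal.one_eq_top]; exact squarefree_one, by simp [NN], by simpa [NN] using h⟩

theorem core (hSg : X_Sg K) (hMain : X_Main K) (hSide : X_Side K) {η A δ : ℝ} (η0 : 0 < η)
    (A1 : 1 ≤ A) (δ0 : 0 < δ) : ∃ c : ℝ, 1 ≤ c ∧ ∀ (ι : Type) [Fintype ι] [DecidableEq ι]
      (F : Fam K ι) (σ : ι → ℝ) (Z : ℝ) (f : ℝ → ℝ) (C : Ideal (𝓞 K) → ℂ) (A₀ A' C₁ ε ρ : ℝ)
      (h j₀ j₁ : ℕ), F.Ok σ Z → Ker f → (∀ I, ‖C I‖ ≤ A₀) → BB f C A' η A → 1 ≤ j₀ → j₀ ≤ j₁ →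
      0 ≤ C₁ → F.Cov h j₀ j₁ Z C₁ δ → 0 < ε → ε ≤ 1 → 0 ≤ ρ → ∏ i, (1 + σ i) ≤ 1 + 3 * ε →
      2 ^ h * C₁ * ((2 : ℝ) ^ j₀) ^ (-δ) ≤ ε → Z ^ A * ((2 : ℝ) ^ j₁) ^ (1 / 2 - A) ≤ ε →
      (sqf K 1 (2 ^ j₀)).card * ρ ≤ ε →
      ((∀ i t, F.a i t = 1) → F.lam ≤ ε → (∀ 𝔫 ∈ sqf K 1 (2 ^ j₀), 𝔫 ≠ ⊤ → (∀ I, C (𝔫 * I) = 0) ∨
          ∃ i ∉ F.E, ∑ t ∈ F.T i, jac t 𝔫 = 0 ∧ σ i ≤ ρ) →
        Dom (fun τ => F.av (fun ω => Tw f C (∏ i, ω i) τ) τ - bb f C ⊤ τ)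
          (c * A' * (ε + ε ^ η))) ∧
      ∀ (G : Finset ι) (θ : ℝ), 0 ≤ θ → θ ^ G.card ≤ ρ → (∀ i ∈ G, i ∉ F.E ∧ ∀ 𝔫, 𝔫 ≠ ⊥ →
          ‖∑ t ∈ F.T i, F.a i t * jac t 𝔫‖ / (F.T i).card + σ i ≤ θ) →
        Dom (fun τ => F.av (fun ω => Tw f C (∏ i, ω i) τ) τ) (c * A' * (ε + ε ^ η)) := by
  obtain ⟨c₁, h1, hc1⟩ := sg hSg η0 A1
  obtain ⟨c₂, h2, hc2⟩ := hMain η A η0 A1
  obtain ⟨c₃, h3, hc3⟩ := hSide η A δ η0 A1 δ0
  refine ⟨4 * c₁ + 3 * c₂ + 8 * c₃, by linarith, fun ι _ _ F σ Z f C A₀ A' C₁ ε ρ h j₀ j₁ ok hf hC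
    hB j1 jj C0 cov ε0 ε1 ρ0 hP e1 e2 e3 => ?_⟩
  have a0 := hB.nonneg
  have P0 : 0 ≤ ∏ i, (1 + σ i) := prod_nonneg fun i _ => by linarith [ok.sigma i]
  have P4 : ∏ i, (1 + σ i) ≤ 4 := by linarith
  have p0 : 0 ≤ ε ^ η := by positivity
  have d3 := (hc3 ι F σ Z f C A₀ A' C₁ h j₀ j₁ ok hf hC hB jj C0 cov).mono
    (g' := c₃ * A' * 4 * (ε + ε)) (by
      have := ok.pos
      gcongr)
  have d1 : ∀ s ⊆ sqf K 1 (2 ^ j₀), (∀ 𝔫 ∈ s, Dom (fun τ => F.av (fun ω => pc f C ω 𝔫 τ) τ)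
      (c₁ * A' * (ρ * ∏ i, (1 + σ i)))) →
      Dom (fun τ => ∑ 𝔫 ∈ s, F.av (fun ω => pc f C ω 𝔫 τ) τ) (c₁ * A' * (ε * 4)) := fun s hs h => by
    refine (Dom.sum s h).mono ?_
    rw [sum_const, nsmul_eq_mul, mul_left_comm, ← mul_assoc (s.card : ℝ)]
    have : (s.card : ℝ) * ρ ≤ ε :=
      (mul_le_mul_of_nonneg_right (Nat.cast_le.2 (card_le_card hs)) ρ0).trans e3
    gcongr
  have nb : ∀ 𝔫 ∈ sqf K 1 (2 ^ j₀), 𝔫 ≠ ⊥ := fun 𝔫 h => (mem_sqf.1 h).1.ne_zero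
  refine ⟨fun ha hl hx => ?_, fun G θ θ0 hθ hG => ?_⟩
  · have ht : (⊤ : Ideal (𝓞 K)) ∈ sqf K 1 (2 ^ j₀) := top_mem (one_lt_pow₀ one_lt_two (by omega))
    have d2 := (hc2 ι F σ Z f C A' ok hB ha).mono (g' := c₂ * A' * (3 * ε + ε ^ η)) (by
      have := ok.lam_pos
      gcongr
      linarith)
    refine ((d3.add ((d1 _ (erase_subset ⊤ _) fun 𝔫 h𝔫 => ?_).add d2)).congr fun τ _ => ?_).mono ?_
    · obtain ⟨n1, n2⟩ := mem_erase.1 h𝔫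
      rcases hx 𝔫 n2 n1 with e | ⟨i, i1, i2, i3⟩
      · refine (Dom.zero.congr fun τ _ => ?_).mono (by positivity)
        simp [Fam.av, pc, bb, mul_assoc, e]
      · simpa using hc1 ι F σ Z f C A' ρ 𝔫 {i} ok hB (nb 𝔫 n2) ρ0 fun j hj => by
          rw [mem_singleton.1 hj]
          exact ⟨i1, by simpa [ha, i2] using i3⟩
    · rw [← add_sum_erase _ _ ht]; ring
    · nlinarith [mul_nonneg (mul_nonneg a0 p0) (zero_le_one.trans h1),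
        mul_nonneg (mul_nonneg a0 p0) (zero_le_one.trans h2),
        mul_nonneg (mul_nonneg a0 p0) (zero_le_one.trans h3)]
  · refine ((d3.add (d1 _ subset_rfl fun 𝔫 h𝔫 => (hc1 ι F σ Z f C A' θ 𝔫 G ok hB (nb 𝔫 h𝔫) θ0
      fun i hi => ⟨(hG i hi).1, (hG i hi).2 𝔫 (nb 𝔫 h𝔫)⟩).mono (by gcongr))).congr
      fun τ _ => by ring).mono ?_
    nlinarith [mul_nonneg (mul_nonneg a0 ε0.le) (zero_le_one.trans h2),
      mul_nonneg (mul_nonneg a0 p0) (zero_le_one.trans h1),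
      mul_nonneg (mul_nonneg a0 p0) (zero_le_one.trans h2),
      mul_nonneg (mul_nonneg a0 p0) (zero_le_one.trans h3)]

/-- the two sides of the cut bound the main term -/
theorem main_le {a b : ℝ → ℂ} {m : ℕ} {a' : Fin m → ℝ → ℂ} {γ : Fin m → ℂ} {g : ℝ}
    (ha : IntegrableOn (fun τ => a τ / τ) (Set.Ioi 0)) (hb : ∫ τ in Set.Ioi (0 : ℝ), b τ / τ ≠ 0)
    (h0 : (∫ τ in Set.Ioi (0 : ℝ), a τ / τ) + ∑ j, γ j * ∫ τ in Set.Ioi (0 : ℝ), a' j τ / τ = 0)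
    (d : Dom (fun τ => a τ - b τ) g) (d' : ∀ j, Dom (a' j) g) :
    ‖∫ τ in Set.Ioi (0 : ℝ), b τ / τ‖ ≤ (1 + ∑ j, ‖γ j‖) * g := by
  have hb' : IntegrableOn (fun τ => b τ / τ) (Set.Ioi 0) := by
    by_contra e
    exact hb (integral_undef e)
  have h1 := d.norm_integral_le
  simp only [sub_div] at h1
  rw [integral_sub ha hb', eq_neg_of_add_eq_zero_left h0] at h1
  have h2 : ‖∑ j, γ j * ∫ τ in Set.Ioi (0 : ℝ), a' j τ / τ‖ ≤ (∑ j, ‖γ j‖) * g := by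
    rw [sum_mul]
    refine norm_sum_le_of_le _ fun j _ => ?_
    rw [norm_mul]
    exact mul_le_mul_of_nonneg_left (d' j).norm_integral_le (norm_nonneg _)
  rw [← neg_add', norm_neg] at h1
  have h3 := norm_le_add_norm_add' (∑ j, γ j * ∫ τ in Set.Ioi (0 : ℝ), a' j τ / τ)
    (∫ τ in Set.Ioi (0 : ℝ), b τ / τ)
  linarith

/-- a number of norm one whose square is far from one -/
theorem gain {z w : ℂ} (hz : ‖z‖ = 1) (h : 1 / 2 ≤ ‖z ^ 2 - 1‖) (hw : w = 0 ∨ w = 1 ∨ w = -1) :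
    ‖1 + z * w‖ / 2 ≤ 0.995 := by
  have e1 : z.re ^ 2 + z.im ^ 2 = 1 := by
    have := Complex.sq_norm z
    rw [hz, Complex.normSq_apply] at this
    linarith
  have e2 : (1 / 2 : ℝ) ^ 2 ≤ ‖z ^ 2 - 1‖ ^ 2 := by gcongr
  rw [Complex.sq_norm, Complex.normSq_apply] at e2
  simp only [sq, Complex.sub_re, Complex.mul_re, Complex.sub_im, Complex.mul_im, Complex.one_re,
    Complex.one_im] at e2 e1
  have e3 : z.re * z.re ≤ 15 / 16 := by nlinarith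
  have e4 : |z.re| ≤ 0.97 := abs_le_of_sq_le_sq (by nlinarith) (by norm_num)
  rw [div_le_iff₀ two_pos]
  refine le_of_sq_le_sq ?_ (by norm_num)
  rw [Complex.sq_norm, Complex.normSq_apply]
  obtain ⟨e5, e6⟩ := abs_le.1 e4
  rcases hw with rfl | rfl | rfl <;> simp <;> nlinarith

end Pool.Agent.P.MP_b8021b_nt.BS.PNV
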