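import Pool.Agent.P.MP_b8021b_nt.BS.BasicD
import Pool.Agent.P.MP_b8021b_nt.BS.RecD

namespace Pool.Agent.P.MP_b8021b_nt.BS

open NumberField IsDedekindDomain Finset
open Pool.Agent.P.MP_b8021b_nt.VE Pool.Agent.P.MP_b8021b_nt.VC Pool.Agent.P.MP_b8021b_nt.BS.CF
open scoped Classical

variable {k : Type} [Field k] [NumberField k] [Algebra k ℂ] {K : Type} [Field K] [NumberField K]
  [Algebra k K]

open RecP in
theorem x_wR2 (c : Ctx k K) (_hPC2 : X_PC2 K) : X_WR2 K := by
  intro n a b v q _ h2 ha hb hl he hv hq _ h5 h6 h7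
  have p := RecP.prod c.lib.toT1 c.lib.wr c.lib.chi c.lib.pc c.om ha hb hl
  rw [TT, finsum_eq_sum_of_support_subset (s := {v, q}), sum_pair fun e : v = q => hq (e ▸ hv),
    sy_eo (fun e => hq (e.of_dvd h2)) (he q hq).two_dvd
      (mt even_iff_two_dvd.2 (Int.not_even_iff_odd.2 h5))] at p
  · rw [ns_iff c.lib.res ha hb]
    by_cases h : LP 2 q a
    · simpa [h] using p
    · simp only [h, if_false] at p
      simpa [h] using fun e => by simp [e] at p
  · intro w hw
    by_contra hn
    simp only [coe_insert, coe_singleton, Set.mem_insert_iff, Set.mem_singleton_iff, not_or] at hn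
    by_cases hd : Dv n w
    · exact hw (sy_lp a (h7 w hd hn.1))
    · exact hw (sy_even (he w hd).two_dvd (h6 w hd hn.2).two_dvd)

end Pool.Agent.P.MP_b8021b_nt.BS
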