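import Mathlib

/-!
Poisson summation in several variables.
-/

namespace Pool.Agent.P.MP_b8021b_nt.PoiN

open MeasureTheory Set Filter Topology

noncomputable section

/-- `e(t) = exp (2 pi i t)` -/
def ee (t : ℝ) : ℂ := Complex.exp (2 * Real.pi * Complex.I * t)

lemma ee_add (s t : ℝ) : ee (s + t) = ee s * ee t := by
  unfold ee; rw [← Complex.exp_add]; push_cast; ring_nf

@[simp] lemma ee_zero : ee 0 = 1 := by simp [ee]

@[simp] lemma norm_ee (t : ℝ) : ‖ee t‖ = 1 := by
  unfold ee
  rw [show (2 * Real.pi * Complex.I * t : ℂ) = ((2 * Real.pi * t : ℝ) : ℂ) * Complex.I by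
    push_cast; ring, Complex.norm_exp_ofReal_mul_I]

lemma ee_int (n : ℤ) : ee n = 1 := by
  unfold ee
  rw [show (2 * Real.pi * Complex.I * ((n : ℝ) : ℂ) : ℂ) = n * (2 * Real.pi * Complex.I) by
    push_cast; ring, Complex.exp_int_mul_two_pi_mul_I]

lemma ee_sum {α : Type} (s : Finset α) (t : α → ℝ) : ee (∑ i ∈ s, t i) = ∏ i ∈ s, ee (t i) := by
  unfold ee
  rw [← Complex.exp_sum]; congr 1; push_cast; rw [Finset.mul_sum]

lemma continuous_ee : Continuous ee := by unfold ee; fun_prop

variable {ι : Type} [Fintype ι]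

lemma summable_pi (g : ℤ → ℝ) (h0 : ∀ n, 0 ≤ g n) (hg : Summable g) :
    Summable fun z : ι → ℤ => ∏ i, g (z i) := by
  classical
  refine summable_of_sum_le (c := ∏ _i : ι, ∑' n, g n)
    (fun z => Finset.prod_nonneg fun i _ => h0 _) fun s => ?_
  calc ∑ z ∈ s, ∏ i, g (z i)
      ≤ ∑ z ∈ Fintype.piFinset (fun i => s.image fun z => z i), ∏ i, g (z i) := by
        refine Finset.sum_le_sum_of_subset_of_nonneg (fun z hz => ?_)
          fun z _ _ => Finset.prod_nonneg fun i _ => h0 _
        exact Fintype.mem_piFinset.2 fun i => Finset.mem_image_of_mem _ hz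
    _ = ∏ i, ∑ n ∈ s.image fun z => z i, g n := (Finset.prod_univ_sum _ _).symm
    _ ≤ _ := Finset.prod_le_prod (fun i _ => Finset.sum_nonneg fun n _ => h0 n)
        fun i _ => hg.sum_le_tsum _ fun n _ => h0 n

lemma summable_exp_int {c : ℝ} (hc : 0 < c) : Summable fun n : ℤ => Real.exp (-c * |(n : ℝ)|) := by
  have h : Summable fun n : ℕ => Real.exp (-c * n) := by
    simpa [mul_comm] using Real.summable_exp_nat_mul_iff.2 (neg_lt_zero.2 hc)
  refine Summable.of_nat_of_neg ?_ ?_ <;> simpa using h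

lemma summable_exp_pi {c : ℝ} (hc : 0 < c) :
    Summable fun z : ι → ℤ => Real.exp (-c * ∑ i, |(z i : ℝ)|) := by
  have := summable_pi (ι := ι) _ (fun n => (Real.exp_pos _).le) (summable_exp_int hc)
  refine this.congr fun z => ?_
  rw [Finset.mul_sum, Real.exp_sum]

omit [Fintype ι] in
lemma exists_torus (F : (ι → ℝ) → ℂ) (hF : Continuous F)
    (hp : ∀ (x : ι → ℝ) (z : ι → ℤ), F (x + fun i => (z i : ℝ)) = F x) :
    ∃ φ : C(UnitAddTorus ι, ℂ), ∀ x : ι → ℝ, φ (fun i => ((x i : ℝ) : UnitAddCircle)) = F x := by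
  let φ : UnitAddTorus ι → ℂ := fun t => F fun i => (AddCircle.equivIoc 1 0 (t i)).1
  let π : (ι → ℝ) → UnitAddTorus ι := fun x i => ((x i : ℝ) : UnitAddCircle)
  have key : ∀ x, φ (π x) = F x := by
    intro x
    have h : ∀ i, ∃ n : ℤ, (AddCircle.equivIoc 1 0 ((x i : ℝ) : UnitAddCircle)).1 = x i + n := by
      intro i
      have h1 : (((AddCircle.equivIoc 1 0 ((x i : ℝ) : UnitAddCircle)).1 : ℝ) : UnitAddCircle)
          = ((x i : ℝ) : UnitAddCircle) := AddCircle.coe_equivIoc
      have h2 := QuotientAddGroup.eq.1 h1.symm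
      obtain ⟨n, hn⟩ := AddSubgroup.mem_zmultiples_iff.1 h2
      exact ⟨n, by simp only [zsmul_eq_mul, mul_one] at hn; linarith⟩
    choose n hn using h
    rw [← hp x n]
    exact congrArg F (funext hn)
  have hq : IsOpenQuotientMap π :=
    IsOpenQuotientMap.piMap fun _ => QuotientAddGroup.isOpenQuotientMap_mk
  have hφ : Continuous φ := by
    rw [hq.isQuotientMap.continuous_iff]
    exact (funext key : φ ∘ π = F) ▸ hF
  exact ⟨⟨φ, hφ⟩, key⟩

lemma mFourier_coe (z : ι → ℤ) (θ : ι → ℝ) :
    UnitAddTorus.mFourier z (fun i => ((θ i : ℝ) : UnitAddCircle)) = ee (∑ i, z i * θ i) := by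
  rw [ee_sum]
  simp only [UnitAddTorus.mFourier, ContinuousMap.coe_mk, fourier_coe_apply, ee]
  refine Finset.prod_congr rfl fun i _ => ?_
  congr 1; push_cast; ring

/-- the unit box with corner `z` -/
def box (z : ι → ℤ) : Set (ι → ℝ) := {x | ∀ i, x i ∈ Ioc (z i : ℝ) (z i + 1)}

omit [Fintype ι] in
lemma box_union : ⋃ z : ι → ℤ, box z = univ := by
  refine eq_univ_of_forall fun x => mem_iUnion.2 ⟨fun i => ⌈x i⌉ - 1, fun i => ?_⟩
  push_cast
  exact ⟨by linarith [Int.ceil_lt_add_one (x i)], by linarith [Int.le_ceil (x i)]⟩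

omit [Fintype ι] in
lemma box_disj : Pairwise (Function.onFun Disjoint (box : (ι → ℤ) → Set (ι → ℝ))) := by
  intro z w h
  refine Set.disjoint_left.2 fun x hz hw => h (funext fun i => ?_)
  have h1 : (z i : ℝ) < w i + 1 := (hz i).1.trans_le (hw i).2
  have h2 : (w i : ℝ) < z i + 1 := (hw i).1.trans_le (hz i).2
  have h3 : z i < w i + 1 := by exact_mod_cast h1
  have h4 : w i < z i + 1 := by exact_mod_cast h2
  omega

lemma box_meas (z : ι → ℤ) : MeasurableSet (box z) :=
  MeasurableSet.univ_pi' fun _ => measurableSet_Ioc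

lemma integral_box {V : Type} [NormedAddCommGroup V] [NormedSpace ℝ V] (g : (ι → ℝ) → V)
    (z : ι → ℤ) :
    ∫ x in box z, g x = ∫ x in box 0, g (x + fun i => (z i : ℝ)) := by
  rw [← integral_indicator (box_meas z), ← integral_indicator (box_meas 0),
    ← integral_add_right_eq_self _ (fun i => (z i : ℝ))]
  refine integral_congr_ae (Eventually.of_forall fun x => ?_)
  have : (x + fun i => (z i : ℝ)) ∈ box z ↔ x ∈ box (0 : ι → ℤ) := by
    simp only [box, mem_ofPred, Pi.add_apply, mem_Ioc, Pi.zero_apply, Int.cast_zero]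
    exact forall_congr' fun i => ⟨fun h => ⟨by linarith [h.1], by linarith [h.2]⟩,
      fun h => ⟨by linarith [h.1], by linarith [h.2]⟩⟩
  by_cases h : x ∈ box (0 : ι → ℤ)
  · simp only [indicator_of_mem h, indicator_of_mem (this.2 h)]
  · simp only [indicator_of_notMem h, indicator_of_notMem (mt this.1 h)]

lemma integrable_exp_pi {c : ℝ} (hc : 0 < c) :
    Integrable fun x : ι → ℝ => Real.exp (-c * ∑ i, |x i|) := by
  have h1 : Integrable fun t : ℝ => Real.exp (-c * |t|) := by
    rw [← integrableOn_univ, ← Iic_union_Ioi (a := (0 : ℝ))]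
    refine IntegrableOn.union ?_ ?_
    · refine (integrableOn_exp_mul_Iic hc 0).congr_fun (fun t ht => ?_) measurableSet_Iic
      simp [abs_of_nonpos (show t ≤ 0 from ht)]
    · refine (exp_neg_integrableOn_Ioi 0 hc).congr_fun (fun t ht => ?_) measurableSet_Ioi
      simp [abs_of_pos (show 0 < t from ht)]
  have := Integrable.fintype_prod (ι := ι) (f := fun _ (t : ℝ) => Real.exp (-c * |t|))
    (μ := fun _ => volume) fun _ => h1
  refine this.congr (Eventually.of_forall fun x => ?_)
  simp only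
  rw [Finset.mul_sum, Real.exp_sum]

/-- Poisson summation on `ι → ℤ` -/
theorem poissonZ (f : (ι → ℝ) → ℂ) (hf : Continuous f) {C c : ℝ} (hc : 0 < c)
    (hb : ∀ x, ‖f x‖ ≤ C * Real.exp (-c * ∑ i, |x i|))
    (hs : Summable fun k : ι → ℤ => ∫ x, f x * ee (-∑ i, k i * x i)) :
    HasSum (fun k : ι → ℤ => ∫ x, f x * ee (-∑ i, k i * x i)) (∑' z : ι → ℤ, f fun i => z i) := by
  have hC : 0 ≤ C := by
    have := (norm_nonneg _).trans (hb 0)
    simpa using this
  have hmaj : ∀ (R : ℝ) (x : ι → ℝ) (z : ι → ℤ), ‖x‖ ≤ R → ‖f (x + fun i => (z i : ℝ))‖ ≤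
      C * Real.exp (c * (Fintype.card ι * R)) * Real.exp (-c * ∑ i, |(z i : ℝ)|) := by
    intro R x z hx
    refine (hb _).trans ?_
    rw [mul_assoc, ← Real.exp_add]
    refine mul_le_mul_of_nonneg_left (Real.exp_le_exp.2 ?_) hC
    have : ∑ i, |(z i : ℝ)| ≤ ∑ i, |(x + fun i => (z i : ℝ)) i| + Fintype.card ι * R := by
      have h2 : (Fintype.card ι : ℝ) * R = ∑ _i : ι, R := by simp
      rw [h2, ← Finset.sum_add_distrib]
      refine Finset.sum_le_sum fun i _ => ?_
      have h3 : |x i| ≤ R := (norm_le_pi_norm x i).trans hx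
      have h4 := abs_sub (x i + z i) (x i)
      simp only [add_sub_cancel_left] at h4
      simp only [Pi.add_apply]
      linarith
    nlinarith
  let F : (ι → ℝ) → ℂ := fun x => ∑' z : ι → ℤ, f (x + fun i => (z i : ℝ))
  have hF : Continuous F := by
    refine continuous_iff_continuousAt.2 fun x => ?_
    have : ContinuousOn F (Metric.closedBall 0 (‖x‖ + 1)) :=
      continuousOn_tsum (fun z => (hf.comp (continuous_id.add continuous_const)).continuousOn)
        ((summable_exp_pi hc).mul_left _) fun z y hy => hmaj _ y z (by simpa using hy)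
    exact this.continuousAt (Metric.closedBall_mem_nhds_of_mem (by simp))
  have hp : ∀ (x : ι → ℝ) (z : ι → ℤ), F (x + fun i => (z i : ℝ)) = F x := by
    intro x z
    simp only [F]
    rw [← (Equiv.addLeft z).tsum_eq fun w : ι → ℤ => f (x + fun i => (w i : ℝ))]
    refine tsum_congr fun w => congrArg f (funext fun i => ?_)
    simp [add_assoc]
  obtain ⟨φ, hφ⟩ := exists_torus F hF hp
  have hfi : Integrable f :=
    ((integrable_exp_pi hc).const_mul C).mono' hf.aestronglyMeasurable (Eventually.of_forall hb)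
  have hco : ∀ k : ι → ℤ, UnitAddTorus.mFourierCoeff φ k = ∫ x, f x * ee (-∑ i, k i * x i) := by
    intro k
    let g : (ι → ℝ) → ℂ := fun x => f x * ee (-∑ i, k i * x i)
    have hgc : Continuous g := hf.mul (continuous_ee.comp (by fun_prop))
    have hgn : ∀ x, ‖g x‖ = ‖f x‖ := fun x => by simp [g]
    have hg : Integrable g := hfi.norm.mono' hgc.aestronglyMeasurable
      (Eventually.of_forall fun x => (hgn x).le)
    have h1 := hasSum_integral_iUnion box_meas box_disj (f := g) (μ := volume) hg.integrableOn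
    rw [box_union, setIntegral_univ] at h1
    simp only [integral_box g] at h1
    have hn := hasSum_integral_iUnion box_meas box_disj (f := fun x => ‖g x‖)
      (μ := volume) hg.norm.integrableOn
    simp only [integral_box fun x => ‖g x‖] at hn
    have h2 := hasSum_integral_of_summable_integral_norm (μ := volume.restrict (box (0 : ι → ℤ)))
      (F := fun (z : ι → ℤ) x => g (x + fun i => (z i : ℝ)))
      (fun z => (hg.comp_add_right _).integrableOn)
      hn.summable
    show _ = ∫ x, g x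
    rw [h1.unique h2, UnitAddTorus.mFourierCoeff_eq_integral _ _ 0]
    have hb0 : {x : ι → ℝ | ∀ i, x i ∈ Ioc ((0 : ι → ℝ) i) ((0 : ι → ℝ) i + 1)}
        = box (0 : ι → ℤ) := by
      ext x; simp [box]
    rw [hb0]
    refine integral_congr_ae (Eventually.of_forall fun x => ?_)
    simp only [mFourier_coe, hφ, smul_eq_mul, F, g]
    rw [← tsum_mul_left]
    refine tsum_congr fun z => ?_
    rw [mul_comm]
    congr 1
    have : -∑ i, (k i : ℝ) * (x + fun i => (z i : ℝ)) i
        = ∑ i, ((-k) i : ℝ) * x i + ((-∑ i, k i * z i : ℤ) : ℝ) := by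
      push_cast
      simp only [Pi.add_apply, mul_add, Finset.sum_add_distrib, Pi.neg_apply, Int.cast_neg, neg_mul,
        Finset.sum_neg_distrib]
      ring
    rw [this, ee_add, ee_int, mul_one]
  have h3 := UnitAddTorus.hasSum_mFourier_series_apply_of_summable (f := φ)
    (by rw [funext hco]; exact hs) (fun i => (((0 : ι → ℝ) i : ℝ) : UnitAddCircle))
  rw [hφ 0] at h3
  simp only [mFourier_coe, hco] at h3
  simpa [F] using h3

end

end Pool.Agent.P.MP_b8021b_nt.PoiN
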