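import Pool.Agent.P.MP_b8021b_nt.BS.CF.PNV2

/-! The tame symbol in additive form, and its product formula. -/

namespace Pool.Agent.P.MP_b8021b_nt.BS.RecP

open Pool.Agent.P.MP_b8021b_nt.BS.CF
open NumberField IsDedekindDomain Finset WithZero
open Pool.Agent.P.MP_b8021b_nt Pool.Agent.P.MP_b8021b_nt.VE Pool.Agent.P.MP_b8021b_nt.VC
open scoped Classical

noncomputable section

variable {L : Type} [Field L] [NumberField L] {v : Pl L} {a b c x y : L} {n : ℕ}

theorem el2 : El 2 := Or.inl rfl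

/-- a uniformiser -/
def un (v : Pl L) : L := ((exists_od_one v).choose : 𝓞 L)

theorem un_ne (v : Pl L) : un v ≠ 0 := (exists_od_one v).choose_spec.1

theorem od_un (v : Pl L) : od v (un v) = 1 := (exists_od_one v).choose_spec.2

/-- the quadratic character of the unit part -/
def ee (v : Pl L) (x : L) : ZMod 2 := if LP 2 v (x / un v ^ od v x) then 0 else 1

theorem od_part (hx : x ≠ 0) : od v (x / un v ^ od v x) = 0 := by
  rw [od_div v hx (zpow_ne_zero _ (un_ne v)), od_zpow, od_un, mul_one, sub_self]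

theorem lp_cancel (h : LP 2 v (x * y)) (hy : LP 2 v y) : LP 2 v x := by
  have := h.div hy
  rwa [mul_div_cancel_right₀ _ hy.ne_zero] at this

theorem ee_mul (hR : Z_Res) (hv : ¬ Dv 2 v) (hx : x ≠ 0) (hy : y ≠ 0) :
    ee v (x * y) = ee v x + ee v y := by
  have e : x * y / un v ^ od v (x * y) = x / un v ^ od v x * (y / un v ^ od v y) := by
    rw [od_mul v hx hy, zpow_add₀ (un_ne v), mul_div_mul_comm]
  have n1 := div_ne_zero hx (zpow_ne_zero (od v x) (un_ne v))
  have n2 := div_ne_zero hy (zpow_ne_zero (od v y) (un_ne v))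
  unfold ee
  rw [e]
  by_cases h1 : LP 2 v (x / un v ^ od v x) <;> by_cases h2 : LP 2 v (y / un v ^ od v y)
  · rw [if_pos h1, if_pos h2, if_pos (h1.mul h2), add_zero]
  · rw [if_pos h1, if_neg h2, if_neg fun h => h2 (lp_cancel (by rwa [mul_comm] at h) h1), zero_add]
  · rw [if_neg h1, if_pos h2, if_neg fun h => h1 (lp_cancel h h2), add_zero]
  · rw [if_neg h1, if_neg h2, if_pos ((hR L v).2.2 _ _ hv n1 n2 (by rw [od_part hx]; simp)
      (by rw [od_part hy]; simp) h1 h2)]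
    rfl

theorem ee_even (h : 2 ∣ od v x) : ee v x = if LP 2 v x then 0 else 1 := by
  obtain ⟨k, hk⟩ := h
  have h1 : LP 2 v (un v ^ od v x) := by
    rw [hk, mul_comm, zpow_mul]
    exact_mod_cast LP.pow_self v two_ne_zero (zpow_ne_zero k (un_ne v))
  have : LP 2 v (x / un v ^ od v x) ↔ LP 2 v x :=
    ⟨fun h => by simpa [h1.ne_zero] using h.mul h1, fun h => h.div h1⟩
  unfold ee
  rw [this]

theorem c0 {k : ℤ} (h : 2 ∣ k) : (k : ZMod 2) = 0 := (ZMod.intCast_zmod_eq_zero_iff_dvd k 2).2 h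

theorem c1 {k : ℤ} (h : ¬ 2 ∣ k) : (k : ZMod 2) = 1 := by
  have : (k : ZMod 2) ≠ 0 := fun e => h ((ZMod.intCast_zmod_eq_zero_iff_dvd k 2).1 e)
  revert this
  generalize (k : ZMod 2) = z
  decide +revert

/-- the tame symbol -/
def sy (v : Pl L) (a b : L) : ZMod 2 :=
  if Dv 2 v then 0 else ee v a * (od v b : ZMod 2) + ee v b * (od v a : ZMod 2)

theorem sy_comm (v : Pl L) (a b : L) : sy v a b = sy v b a := by
  unfold sy
  rw [add_comm]

theorem sy_mul (hR : Z_Res) (v : Pl L) (a : L) (hx : x ≠ 0) (hy : y ≠ 0) :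
    sy v a (x * y) = sy v a x + sy v a y := by
  unfold sy
  split_ifs with hv
  · simp
  · rw [ee_mul hR hv hx hy, od_mul v hx hy]
    push_cast
    ring

theorem sy_lp (a : L) (h : LP 2 v b) : sy v a b = 0 := by
  unfold sy
  rw [ee_even h.dvd, if_pos h, c0 h.dvd]
  simp

theorem sy_even (ha : 2 ∣ od v a) (hb : 2 ∣ od v b) : sy v a b = 0 := by
  unfold sy
  rw [c0 ha, c0 hb]
  simp

theorem sy_self (v : Pl L) (a : L) : sy v a a = 0 := by
  unfold sy
  rw [CharTwo.add_self_eq_zero, ite_self]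

theorem sy_eo (hv : ¬ Dv 2 v) (ha : 2 ∣ od v a) (hb : ¬ 2 ∣ od v b) :
    sy v a b = if LP 2 v a then 0 else 1 := by
  unfold sy
  rw [if_neg hv, c0 ha, c1 hb, ee_even ha]
  simp

theorem sy_fin (a b : L) : (Function.support fun v : Pl L => sy v a b).Finite :=
  ((finite_od a).union (finite_od b)).subset fun v hv => by
    by_contra h
    simp only [Set.mem_union, Set.mem_ofPred_eq, not_or, not_not] at h
    exact hv (sy_even (by rw [h.1]; simp) (by rw [h.2]; simp))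

/-- the sum of the tame symbols -/
def TT (a b : L) : ZMod 2 := ∑ᶠ v : Pl L, sy v a b

theorem TT_comm (a b : L) : TT a b = TT b a := finsum_congr fun v => sy_comm v a b

theorem TT_mul (hR : Z_Res) (a : L) (hx : x ≠ 0) (hy : y ≠ 0) :
    TT a (x * y) = TT a x + TT a y := by
  unfold TT
  rw [← finsum_add_distrib (sy_fin a x) (sy_fin a y)]
  exact finsum_congr fun v => sy_mul hR v a hx hy

theorem approx (hW : Z_WA) (V : Finset (Pl L)) (x : Pl L → L) (hx : ∀ v, x v ≠ 0) (k : ℕ) :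
    ∃ z : L, ∀ v ∈ V, vl v (z / x v - 1) ≤ exp (-(k : ℤ)) := by
  obtain ⟨z, hz⟩ := (hW L).2.1 V x (k + ∑ v ∈ V, (od v (x v)).toNat)
  refine ⟨z, fun v hv => ?_⟩
  have h1 : (od v (x v)).toNat ≤ ∑ v ∈ V, (od v (x v)).toNat :=
    single_le_sum (f := fun v => (od v (x v)).toNat) (fun _ _ => Nat.zero_le _) hv
  rw [div_sub_one (hx v), map_div₀, div_le_iff₀ (vl_pos v (hx v)), vl_eq v (hx v), ← exp_add]
  refine (hz v hv).trans (exp_le_exp.2 ?_)
  omega

theorem ex_k (hn : n ≠ 0) (V : Finset (Pl L)) :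
    ∃ k : ℕ, ∀ v ∈ V, exp (-(k : ℤ)) < vl v (n : L) := by
  have h0 : (n : L) ≠ 0 := Nat.cast_ne_zero.2 hn
  refine ⟨∑ v ∈ V, (od v (n : L)).toNat + 1, fun v hv => ?_⟩
  have h1 : (od v (n : L)).toNat ≤ ∑ v ∈ V, (od v (n : L)).toNat :=
    single_le_sum (f := fun v => (od v (n : L)).toNat) (fun _ _ => Nat.zero_le _) hv
  rw [vl_eq v h0, exp_lt_exp]
  omega

/-- an element with a prescribed class at one place and trivial class at the others -/
theorem ex_class (hW : Z_WA) (hn : n ≠ 0) (v : Pl L) (hv : Dv n v) (hb : b ≠ 0) :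
    ∃ c : L, LP 2 v (c / b) ∧ ∀ w, w ≠ v → Dv n w → LP 2 w c := by
  obtain ⟨k, hk⟩ := ex_k (n := 4) (by norm_num) (finite_dv L hn).toFinset
  obtain ⟨z, hz⟩ := approx hW (finite_dv L hn).toFinset (fun w => if w = v then b else 1)
    (fun w => by split_ifs <;> simp [hb]) k
  have h4 : ∀ w : Pl L, vl w ((4 : ℕ) : L) = vl w ((2 : ℕ) : L) ^ 2 := fun w => by
    rw [← map_pow]; norm_num
  have h : ∀ w, Dv n w → LP 2 w (z / if w = v then b else 1) := fun w hw =>
    LP.of_near ((hz w (by simpa using hw)).trans_lt (h4 w ▸ hk w (by simpa using hw)))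
  exact ⟨z, by simpa using h v hv, fun w h1 h2 => by simpa [h1] using h w h2⟩

/-- the part of an ideal that is prime to `n` -/
theorem ex_cop (n : ℕ) (I : Ideal (𝓞 L)) (hI : I ≠ ⊥) :
    ∃ J : Ideal (𝓞 L), J ≠ ⊥ ∧ Cop n J ∧ ∀ v : Pl L, ¬ Dv n v → cnt v J = cnt v I := by
  induction I using UniqueFactorizationMonoid.induction_on_prime with
  | h₁ => exact absurd rfl hI
  | h₂ I h =>
    obtain rfl := Ideal.isUnit_iff.1 h
    exact ⟨⊤, hI, by rw [← Ideal.one_eq_top]; exact isCoprime_one_left, fun _ _ => rfl⟩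
  | h₃ I p h0 hp ih =>
    obtain ⟨J, j0, j1, j2⟩ := ih h0
    let w : Pl L := ⟨p, (Ideal.prime_iff_isPrime hp.ne_zero).1 hp, hp.ne_zero⟩
    by_cases hw : Dv n w
    · refine ⟨J, j0, j1, fun v hv => ?_⟩
      rw [cnt_mul v hp.ne_zero h0, j2 v hv,
        show cnt v p = 0 from cnt_ne v (w := w) fun e => hv (e ▸ hw), zero_add]
    · refine ⟨p * J, mul_ne_zero hp.ne_zero j0,
        IsCoprime.mul_left ((cop_prime_iff w).2 hw) j1, fun v hv => ?_⟩
      rw [cnt_mul v hp.ne_zero h0, cnt_mul v hp.ne_zero j0, j2 v hv]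

theorem lp_dvd (h2 : 2 ∣ n) {u : 𝓞 L} (hu : ((n ^ 3 : ℕ) : 𝓞 L) ∣ u - 1) (hv : Dv n v) :
    LP 2 v (u : L) := by
  have := NV2P.lp_of_one (k := 3) h2 le_rfl (b := (u : L)) one_ne_zero
    (by simpa using One.coe hu) hv
  exact this

end

end Pool.Agent.P.MP_b8021b_nt.BS.RecP
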