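import Pool.Agent.P.MP_b8021b_nt.BS.RecA

/-! The product formula for the tame symbol. -/

namespace Pool.Agent.P.MP_b8021b_nt.BS.RecP

open Pool.Agent.P.MP_b8021b_nt.BS.CF
open NumberField IsDedekindDomain Finset WithZero
open Pool.Agent.P.MP_b8021b_nt Pool.Agent.P.MP_b8021b_nt.VE Pool.Agent.P.MP_b8021b_nt.VC
open scoped Classical

noncomputable section

variable {L : Type} [Field L] [NumberField L] {v q : Pl L} {a b c x y : L} {n : ℕ}

theorem cnt_fin (f : Pl L → ZMod 2) {I : Ideal (𝓞 L)} (hI : I ≠ ⊥) :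
    (Function.support fun v : Pl L => f v * (cnt v I : ZMod 2)).Finite :=
  (Ideal.finite_factors hI).subset fun v hv => by
    by_contra h
    exact hv (by simp [(cnt_eq_zero v).2 fun e => h (Ideal.dvd_iff_le.2 e)])

theorem chi_eq {N : ℕ} (hN : 2 ≤ N) {χ : Ideal (𝓞 L) →* ℂ} (f : Pl L → ZMod 2)
    (h : ∀ v : Pl L, ¬ Dv N v → χ v.asIdeal = if f v = 0 then 1 else -1) (I : Ideal (𝓞 L))
    (hI : Cop N I) : χ I = if ∑ᶠ v : Pl L, f v * (cnt v I : ZMod 2) = 0 then 1 else -1 := by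
  refine cop_induction (P := fun I => χ I = if ∑ᶠ v : Pl L, f v * (cnt v I : ZMod 2) = 0 then 1
    else -1) hN ?_ (fun w I hw hc ih => ?_) I hI
  · have : ∀ v : Pl L, cnt v (⊤ : Ideal (𝓞 L)) = 0 := fun v =>
      (cnt_eq_zero v).2 fun e => v.isPrime.ne_top (top_le_iff.1 e)
    rw [← Ideal.one_eq_top, map_one, Ideal.one_eq_top]
    simp [this]
  · have h0 := Cop_ne_bot hN hc
    have e : ∑ᶠ v : Pl L, f v * (cnt v (w.asIdeal * I) : ZMod 2) =
        f w + ∑ᶠ v : Pl L, f v * (cnt v I : ZMod 2) := by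
      have e1 : ∑ᶠ v : Pl L, f v * (cnt v w.asIdeal : ZMod 2) = f w := by
        rw [finsum_eq_single _ w fun v hv => by rw [cnt_ne v hv]; simp, cnt_self]
        simp
      rw [← e1, ← finsum_add_distrib (cnt_fin f w.ne_bot) (cnt_fin f h0)]
      refine finsum_congr fun v => ?_
      rw [cnt_mul v w.ne_bot h0]
      push_cast
      ring
    rw [map_mul, h w hw, ih, e]
    generalize f w = s
    generalize ∑ᶠ v : Pl L, f v * (cnt v I : ZMod 2) = t
    have : (1 : ZMod 2) + 1 = 0 := rfl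
    rcases (by decide +revert : s = 0 ∨ s = 1) with rfl | rfl <;>
      rcases (by decide +revert : t = 0 ∨ t = 1) with rfl | rfl <;> simp [this]

/-- local squares at all places over `n` -/
theorem zero (h : T1) (hC : Z_Chi) (hL : Om L) (hn : 2 ≤ n) (h2 : 2 ∣ n) (ha : a ≠ 0)
    (he : ∀ v, ¬ Dv n v → 2 ∣ od v a) (hb : b ≠ 0) (hp : ∀ v, Dv n v → LP 2 v b) :
    TT a b = 0 := by
  obtain ⟨j, χ, hj, hχ, hv, -⟩ := hC L n a hL hn h2 ha he
  have hN : 2 ≤ n ^ j := hn.trans (Nat.le_self_pow (by omega) n)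
  have n0 : n ≠ 0 := by omega
  obtain ⟨k, hk⟩ := ex_k (n := n ^ j) (by omega) (finite_dv L n0).toFinset
  have h1 : ∀ v : Pl L, ∃ r : L, r ≠ 0 ∧ (Dv n v → vl v (b / r ^ 2 - 1) ≤ exp (-(k : ℤ))) := by
    intro v
    by_cases hd : Dv n v
    · obtain ⟨r, s, t, e⟩ := LN.of_right h.hen el2 0 (hp v hd) k
      rw [Nf_two, zero_mul, sub_zero] at e
      refine ⟨r, fun e0 => ?_, fun _ => e⟩
      have := (e.trans_lt (hk v (by simpa using hd))).trans_le (vl_nat_le v _)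
      simp [e0] at this
    · exact ⟨1, one_ne_zero, fun e => absurd e hd⟩
  choose r r0 hr using h1
  obtain ⟨z, hz⟩ := approx h.wa (finite_dv L n0).toFinset r r0 k
  have h3 : ∀ v, Dv n v → z ≠ 0 ∧ vl v (b / z ^ 2 - 1) < vl v ((n ^ j : ℕ) : L) := by
    intro v hd
    have a1 := hk v (by simpa using hd)
    have a2 := (hz v (by simpa using hd)).trans_lt a1
    have a3 := vl_nat_le v (n ^ j)
    have z0 := (od_of_near v (a2.trans_le a3)).1
    have a4 := near_inv v a3 a2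
    have a5 := near_mul v a3 ((hr v hd).trans_lt a1) (near_mul v a3 a4 a4)
    refine ⟨z0, ?_⟩
    have := r0 v
    rwa [show b / r v ^ 2 * ((z / r v)⁻¹ * (z / r v)⁻¹) = b / z ^ 2 by field_simp] at a5
  obtain ⟨v₀, hv₀⟩ := exists_dv L hn
  have z0 := (h3 v₀ hv₀).1
  have dv : ∀ v : Pl L, Dv (n ^ j) v ↔ Dv n v := fun v => dv_pow v hj
  obtain ⟨α, β, c1, c2, e⟩ := (h.wa L).2.2.2.2.2.1 (n ^ j) (b / z ^ 2) (by omega) fun v hd =>
    vl_of_near v ((h3 v ((dv v).1 hd)).2.trans_le (vl_nat_le v _))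
  have cop : ∀ {γ : 𝓞 L}, IsCoprime γ ((n ^ j : ℕ) : 𝓞 L) → Cop (n ^ j) (Ideal.span {γ}) :=
    fun h => (Ideal.isCoprime_span_singleton_iff _ _).2 h
  have ne : ∀ {γ : 𝓞 L}, IsCoprime γ ((n ^ j : ℕ) : 𝓞 L) → γ ≠ 0 := fun h e =>
    Cop_ne_bot hN (cop h) (Ideal.span_singleton_eq_bot.2 e)
  have d : ((n ^ j : ℕ) : 𝓞 L) ∣ α - β := dvd_of_vl (by omega) fun v hd => by
    rw [show ((α - β : 𝓞 L) : L) = β * (b / z ^ 2 - 1) by
      push_cast; linear_combination -e, map_mul]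
    exact (mul_le_of_le_one_left' (vl_coe_le v β)).trans (h3 v ((dv v).1 hd)).2.le
  have hc : χ (Ideal.span {α}) = χ (Ideal.span {β}) := by
    obtain ⟨γ, δ, g⟩ := c2
    have g1 : ((n ^ j : ℕ) : 𝓞 L) ∣ γ * β - 1 := ⟨-δ, by linear_combination g⟩
    have g2 : ((n ^ j : ℕ) : 𝓞 L) ∣ γ * α - 1 := by
      rw [show γ * α - 1 = γ * (α - β) + (γ * β - 1) by ring]
      exact (d.mul_left γ).add g1
    have e1 := hχ.prin _ g1
    have e2 := hχ.prin _ g2
    rw [← Ideal.span_singleton_mul_span_singleton, map_mul] at e1 e2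
    exact mul_left_cancel₀ (left_ne_zero_of_mul_eq_one e1) (e2.trans e1.symm)
  have key := chi_eq hN (χ := χ) (fun v => ee v a) fun v hd => by
    rw [hv v fun e => hd ((dv v).2 e), ee_even (he v fun e => hd ((dv v).2 e))]
    by_cases hl : LP 2 v a <;> simp [hl]
  rw [key _ (cop c1), key _ (cop c2)] at hc
  have hs : ∑ᶠ v : Pl L, ee v a * (cnt v (Ideal.span {α}) : ZMod 2) =
      ∑ᶠ v : Pl L, ee v a * (cnt v (Ideal.span {β}) : ZMod 2) := by
    revert hc
    generalize ∑ᶠ v : Pl L, ee v a * (cnt v (Ideal.span {α}) : ZMod 2) = s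
    generalize ∑ᶠ v : Pl L, ee v a * (cnt v (Ideal.span {β}) : ZMod 2) = t
    rcases (by decide +revert : s = 0 ∨ s = 1) with rfl | rfl <;>
      rcases (by decide +revert : t = 0 ∨ t = 1) with rfl | rfl <;> norm_num
  have a0 := ne c1
  have b0 := ne c2
  have : TT a b + ∑ᶠ v : Pl L, ee v a * (cnt v (Ideal.span {β}) : ZMod 2) =
      ∑ᶠ v : Pl L, ee v a * (cnt v (Ideal.span {α}) : ZMod 2) := by
    unfold TT
    rw [← finsum_add_distrib (sy_fin a b) (cnt_fin _ (by simpa using b0))]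
    refine finsum_congr fun v => ?_
    by_cases hd : Dv n v
    · have cz : ∀ {γ : 𝓞 L}, IsCoprime γ ((n ^ j : ℕ) : 𝓞 L) → cnt v (Ideal.span {γ}) = 0 :=
        fun {γ} ⟨s, t, g⟩ => (cnt_eq_zero v).2 fun e => v.isPrime.ne_top
          ((Ideal.eq_top_iff_one _).2 (g ▸ add_mem (v.asIdeal.mul_mem_left _
            (e (Ideal.mem_span_singleton_self γ))) (v.asIdeal.mul_mem_left _ ((dv v).2 hd))))
      rw [sy_lp a (hp v hd), cz c1, cz c2]
      simp
    · have o := congrArg (od v) e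
      rw [od_mul v (div_ne_zero hb (pow_ne_zero 2 z0)) (by simpa using b0),
        od_div v hb (pow_ne_zero 2 z0), od_pow, od_coe v a0, od_coe v b0] at o
      have o2 : (cnt v (Ideal.span {α}) : ZMod 2) = od v b + cnt v (Ideal.span {β}) := by
        have := congrArg (Int.cast : ℤ → ZMod 2) o
        push_cast at this
        rw [← this, show (2 : ZMod 2) = 0 from rfl]
        ring
      unfold sy
      rw [if_neg fun e => hd (e.of_dvd h2), c0 (he v hd), o2]
      ring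
  rwa [hs, add_eq_right] at this

/-- a representative with one odd place outside `n` -/
theorem pc2 (hP : Z_PC) (hL : Om L) (hn : 2 ≤ n) (h2 : 2 ∣ n) (hx : x ≠ 0) (F : Finset (Pl L)) :
    ∃ (x' : L) (q : Pl L), x' ≠ 0 ∧ (∀ v, Dv n v → LP 2 v (x' / x)) ∧ q ∉ F ∧ ¬ Dv n q ∧
      (Ideal.absNorm q.asIdeal).Prime ∧ ¬ 2 ∣ od q x' ∧ ∀ v, v ≠ q → ¬ Dv n v → 2 ∣ od v x' := by
  obtain ⟨α, β, hβ, rfl⟩ := IsFractionRing.div_surjective (A := 𝓞 L) x
  have b0 : β ≠ 0 := nonZeroDivisors.ne_zero hβ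
  have a0 : α ≠ 0 := fun e => hx (by simp [e])
  have y0 : α * β ≠ 0 := mul_ne_zero a0 b0
  obtain ⟨J, j0, j1, j2⟩ := ex_cop (n ^ 3) (Ideal.span {α * β}) (by simpa using y0)
  obtain ⟨e, δ, he, hδ, h⟩ := hP L 2 (n ^ 3) J hL le_rfl
    (hn.trans (Nat.le_self_pow (by omega) n)) j1
  let G := F ∪ (finite_dv L (n := n) (by omega)).toFinset
  have hG : (0 : ℝ) < δ / (G.card + 1) := by positivity
  obtain ⟨X₀, h0⟩ := Filter.eventually_atTop.1
    ((Real.isLittleO_log_id_atTop.comp_tendsto tendsto_natCast_atTop_atTop).def hG)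
  obtain ⟨X, 𝒬, x1, x2, x3⟩ := h (X₀ + 2)
  have x4 : G.card < 𝒬.card := by
    by_contra hc
    have c1 : (𝒬.card : ℝ) ≤ G.card := by exact_mod_cast not_lt.1 hc
    have c2 := h0 X (by omega)
    have c3 : (2 : ℝ) ≤ X := by exact_mod_cast (by omega : 2 ≤ X)
    have c4 : 0 < Real.log X := Real.log_pos (by linarith)
    simp only [Function.comp, id, Real.norm_eq_abs] at c2
    rw [abs_of_pos c4, abs_of_pos (by linarith), div_mul_eq_mul_div,
      le_div_iff₀ (by positivity)] at c2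
    nlinarith
  obtain ⟨q, q1, q2⟩ := exists_mem_notMem_of_card_lt_card x4
  obtain ⟨q3, -, u, u1, u2⟩ := x3 q q1
  have u0 : u ≠ 0 := fun e => by
    rw [e, Ideal.span_singleton_zero] at u2
    exact mul_ne_zero (pow_ne_zero _ j0) q.ne_bot u2.symm
  have qn : ¬ Dv n q := fun e => q2 (mem_union_right _ (by simpa using e))
  have o : ∀ v, ¬ Dv n v → od v ((α * β * u : 𝓞 L) : L) =
      (e + 1) * cnt v J + cnt v q.asIdeal := fun v hv => by
    rw [od_coe v (mul_ne_zero y0 u0), ← Ideal.span_singleton_mul_span_singleton, u2,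
      cnt_mul v (by simpa using y0) (mul_ne_zero (pow_ne_zero _ j0) q.ne_bot),
      cnt_mul v (pow_ne_zero _ j0) q.ne_bot, cnt_pow v j0,
      ← j2 v fun e => hv ((dv_pow v (by omega)).1 e)]
    push_cast
    ring
  obtain ⟨m, hm⟩ : 2 ∣ (e : ℤ) + 1 := by omega
  refine ⟨(α * β * u : 𝓞 L), q, by simpa using mul_ne_zero y0 u0, fun v hv => ?_,
    fun e => q2 (mem_union_left _ e), qn, q3, ?_, fun v h1 hv => ?_⟩
  · have b1 : (β : L) ≠ 0 := by simpa using b0
    have a1 : (α : L) ≠ 0 := by simpa using a0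
    have := (LP.pow_self v two_ne_zero b1).mul (lp_dvd h2 u1 hv)
    convert this using 1
    change _ / ((α : L) / β) = _
    push_cast
    field_simp
  · rw [o q qn, cnt_self, hm, mul_assoc]
    omega
  · rw [o v hv, cnt_ne v h1, hm, mul_assoc]
    omega

end

end Pool.Agent.P.MP_b8021b_nt.BS.RecP
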