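import Pool.Agent.P.MP_b8021b_nt.BS.StR

/-! Interface statements: theta series, the functional equation, the large sieve inequalities. -/

namespace Pool.Agent.P.MP_b8021b_nt.BS

open NumberField IsDedekindDomain Finset MeasureTheory
open Pool.Agent.P.MP_b8021b_nt.VE Pool.Agent.P.MP_b8021b_nt.VC Pool.Agent.P.MP_b8021b_nt.BS.CF
open scoped Classical ComplexConjugate Real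

/-! ### Fourier analysis -/

/-- Poisson summation in several variables -/
def X_T0 : Prop :=
  ∀ (ι : Type) [Fintype ι] (f : (ι → ℝ) → ℂ) (C a : ℝ), Continuous f → 0 < a →
    (∀ x, ‖f x‖ ≤ C * Real.exp (-a * ‖x‖)) →
    (Summable fun m : ι → ℤ =>
      ∫ x : ι → ℝ, f x * Complex.exp (-(2 * π * Complex.I) * (∑ i, m i * x i : ℝ))) →
    ∑' m : ι → ℤ, f (fun i => m i) = ∑' m : ι → ℤ,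
      ∫ x : ι → ℝ, f x * Complex.exp (-(2 * π * Complex.I) * (∑ i, m i * x i : ℝ))

/-- the Fourier transform of the Gaussian -/
def X_T0b : Prop :=
  ∀ (ι : Type) [Fintype ι] (y : ι → ℝ) (w : ι → ℂ) (e : ℕ), e ≤ 1 → (∀ φ, 0 < y φ) →
    ∫ z : ι → ℂ, (∏ φ, z φ) ^ e * (gau y z : ℝ) *
        Complex.exp (-(2 * π * Complex.I) * (∑ φ, 2 * (w φ * z φ).re : ℝ)) =
      (∏ φ, (2 * y φ)⁻¹ : ℝ) * (∏ φ, -Complex.I * conj (w φ) / y φ) ^ e *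
        (gau (fun φ => (y φ)⁻¹) w : ℝ)

/-- from a counting bound to a Gaussian sum -/
def X_CG : Prop :=
  ∀ p : ℝ, 0 ≤ p → ∃ C : ℝ, 1 ≤ C ∧ ∀ (X : Type) (ν w : X → ℝ) (A : ℝ), (∀ x, 0 ≤ ν x) →
    (∀ x, 0 ≤ w x) → (∀ (ρ : ℝ) (S : Finset X), 1 ≤ ρ → (∀ x ∈ S, ν x ≤ ρ) →
      ∑ x ∈ S, w x ≤ A * ρ ^ p) → ∀ μ : ℝ, 0 < μ →
    (Summable fun x => w x * Real.exp (-(2 * π) * μ * ν x ^ 2)) ∧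
      (μ ≤ 1 → ∑' x, w x * Real.exp (-(2 * π) * μ * ν x ^ 2) ≤ C * A * μ ^ (-p / 2))

/-- separation of variables in the Gaussian -/
def X_Sep : Prop :=
  ∀ (ι : Type) [Fintype ι] (R : ℝ), 1 ≤ R → ∃ C : ℝ, 1 ≤ C ∧ ∀ (X G : Type) (Γ : Finset G)
    (z : X → ι → ℂ) (F : G → X → ℂ) (μ Δ : ℝ), 0 < μ → (∀ γ x, ‖F γ x‖ ≤ 1) →
    (Summable fun x => gau (fun _ => μ / 2) (z x)) →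
    (∀ a : X → ℂ, (∀ x, ‖a x‖ ≤ gau (fun _ => μ / 2) (z x)) →
      ∑ γ ∈ Γ, ‖∑' x, a x * F γ x‖ ^ 2 ≤ Δ) →
    ∀ (a : X → ℂ) (y : G → ι → ℝ), (∀ x, ‖a x‖ ≤ 1) →
      (∀ γ ∈ Γ, ∀ φ, μ ≤ y γ φ ∧ y γ φ ≤ R * μ) →
      ∑ γ ∈ Γ, ‖∑' x, a x * F γ x * (gau (y γ) (z x) : ℝ)‖ ^ 2 ≤ C * Δ

section Field

variable (K : Type) [Field K] [NumberField K]

/-- the finite Fourier transform and the Chinese remainder theorem -/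
def X_G1 : Prop :=
  (∀ (a b : 𝓞 K) (F G : 𝓞 K → ℂ) (ξ : K), a ≠ 0 → b ≠ 0 → IsCoprime a b → Peri (sp a) F →
    Peri (sp b) G → ξ ∈ Dual (sp (a * b)) → ft (sp (a * b)) (fun x => F x * G x) ξ =
      ft (sp a) (fun x => F (b * x)) (ξ * (b : 𝓞 K)) *
        ft (sp b) (fun x => G (a * x)) (ξ * (a : 𝓞 K))) ∧
  ∀ (e q : Ideal (𝓞 K)) (a : 𝓞 K) (F : 𝓞 K → ℂ) (ξ : K), e ≠ ⊥ → q ≠ ⊥ → a ∈ e → a - 1 ∈ q →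
    Peri q F → ξ ∈ Dual (e * q) →
    ft (e * q) (fun x => if x ∈ e then F x else 0) ξ = ft q F (ξ * (a : 𝓞 K))

/-- quadratic Gauss sums -/
def X_G2 : Prop :=
  ∀ (q : Ideal (𝓞 K)) (ξ : K), Squarefree q → Cop 2 q → ξ ∈ Dual q →
    (∀ u : 𝓞 K, gsI q (ξ * (u : 𝓞 K)) = jac u q * gsI q ξ) ∧ ‖gsI q ξ‖ ≤ √(NN q) ∧
      ((∀ a : 𝓞 K, ξ * (a : 𝓞 K) ∈ Dual (⊤ : Ideal (𝓞 K)) → a ∈ q) →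
        gsI q ξ ^ 2 = (Ideal.absNorm q : ℂ))

/-- convergence of the series over ideals -/
def X_ThB : Prop :=
  ∀ f : ℝ → ℝ, Ker f →
    (∀ τ, 0 < τ → Summable fun I : Ideal (𝓞 K) => √(NN I) * f (τ * NN I)) ∧
    (∀ z, 0 < z → Summable fun m : Ideal (𝓞 K) => NN m * f (z * NN m ^ 2)) ∧
    ∀ (C : Ideal (𝓞 K) → ℂ) (A₀ : ℝ), (∀ I, ‖C I‖ ≤ A₀) →
      AEStronglyMeasurable (Th f C) (volume.restrict (Set.Ioi 0)) ∧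
      (∀ 𝔫, AEStronglyMeasurable (bb f C 𝔫) (volume.restrict (Set.Ioi 0))) ∧
      (∀ A : ℝ, 1 ≤ A → ∃ C' : ℝ, ∀ τ, 0 < τ → ‖Th f C τ‖ ≤ C' * τ ^ (-A)) ∧
      ∀ x : ℝ, 0 < x → IntegrableOn (fun τ => Th f C τ / τ) (Set.Ioi x)

/-- periodicity of the symbol in the generator -/
def X_Per : Prop :=
  ∀ (𝔠 : Ideal (𝓞 K)) (κ : 𝓞 K) (v : Pl K), 𝔠 ≠ ⊥ → κ ≠ 0 → ¬ Dv 2 v → Odd (od v (κ : K)) →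
    Peri (sp ((8 * Ideal.absNorm 𝔠 * Ideal.absNorm (sp κ) : ℕ) : 𝓞 K)) (jq 𝔠 κ) ∧ ∃ u : 𝓞 K,
      IsCoprime u ((8 * Ideal.absNorm 𝔠 * Ideal.absNorm (sp κ) : ℕ) : 𝓞 K) ∧
      ∀ γ, jq 𝔠 κ (u * γ) = -jq 𝔠 κ γ

end Field

section Rel

variable (k : Type) [Field k] [NumberField k] [Algebra k ℂ] (K : Type) [Field K] [NumberField K]
  [Algebra k K]

/-- Gaussian sums over the ring of integers -/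
def X_GS : Prop :=
  (∀ (y : Emb k K → ℝ) (j : ℕ), (∀ φ, 0 < y φ) →
    Summable fun x : 𝓞 K => (1 + ‖emb k x‖) ^ j * gau y (emb k x)) ∧ ∃ C : ℝ, 1 ≤ C ∧
    (∀ (ρ : ℝ) (S : Finset (𝓞 K)), 1 ≤ ρ → (∀ x ∈ S, ‖emb k x‖ ≤ ρ) →
      (S.card : ℝ) ≤ C * ρ ^ (2 * rk k K)) ∧
    (∀ μ : ℝ, 0 < μ → ∑' x : 𝓞 K, (if x = 0 then 0 else gau (fun _ => μ) (emb k x)) ≤
      C * μ ^ (-rk k K)) ∧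
    ∀ μ : ℝ, 0 < μ → μ ≤ 1 →
      ∑' x : 𝓞 K, NN (sp x) * gau (fun _ => μ) (emb k x) ≤ C * μ ^ (-(2 * rk k K))

/-- the theta transformation for a coset -/
def X_T1a : Prop :=
  ∀ (𝔮 : Ideal (𝓞 K)) (a : 𝓞 K) (y : Emb k K → ℝ) (e : ℕ), 𝔮 ≠ ⊥ → e ≤ 1 → (∀ φ, 0 < y φ) →
    (Summable fun ξ : Dual 𝔮 =>
      ‖(∏ φ, emK k ξ.1 φ) ^ e‖ * gau (fun φ => (y φ)⁻¹) (emK k ξ.1)) ∧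
    ∑' x : 𝔮, (∏ φ, emb k (a + x.1) φ) ^ e * (gau y (emb k (a + x.1)) : ℝ) =
      ((NN 𝔮 * cov2 k K)⁻¹ * ∏ φ, (2 * y φ)⁻¹ : ℝ) * ∑' ξ : Dual 𝔮, etr (ξ.1 * (a : 𝓞 K)) *
        ((∏ φ, -Complex.I * conj (emK k ξ.1 φ) / y φ) ^ e *
          (gau (fun φ => (y φ)⁻¹) (emK k ξ.1) : ℝ))

/-- the theta transformation with periodic coefficients -/
def X_T1 : Prop :=
  ∀ (𝔮 : Ideal (𝓞 K)) (F : 𝓞 K → ℂ) (y : Emb k K → ℝ) (e : ℕ), 𝔮 ≠ ⊥ → Peri 𝔮 F → e ≤ 1 →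
    (∀ φ, 0 < y φ) → ∑' x : 𝓞 K, F x * ((∏ φ, emb k x φ) ^ e * (gau y (emb k x) : ℝ)) =
      ((NN 𝔮 * cov2 k K)⁻¹ * ∏ φ, (2 * y φ)⁻¹ : ℝ) * ∑' ξ : Dual 𝔮, ft 𝔮 F ξ.1 *
        ((∏ φ, -Complex.I * conj (emK k ξ.1 φ) / y φ) ^ e *
          (gau (fun φ => (y φ)⁻¹) (emK k ξ.1) : ℝ))

/-- root numbers -/
def X_G3 : Prop :=
  ∀ n, Good K n → (∀ t : 𝓞 K, Pri n t → ‖eps k t‖ = 1 ∧ eps k t ^ 2 = dP (emb k t) ^ 2) ∧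
    eps k (1 : 𝓞 K) = 1 ∧ ∀ (ι : Type) [Fintype ι] (ω : ι → 𝓞 K), (∀ i, Pri n (ω i)) →
      (∀ i j, i ≠ j → IsCoprime (ω i) (ω j)) →
      Pri n (∏ i, ω i) ∧ eps k (∏ i, ω i) = ∏ i, eps k (ω i)

/-- the kernel -/
def X_KM : Prop :=
  ∀ (n : ℕ) (ℓ : ℝ) (U : UB k K n ℓ), Ker (kk U) ∧ MelK (kk U) (Module.finrank k K) ∧
    ∀ y : Emb k K → ℝ, (∀ φ, 0 < y φ) →
      (Integrable fun u : Fin U.m → ℝ =>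
        Real.exp (-(2 * π) * ∑ φ, y φ * Real.exp (2 * U.lv u φ))) ∧
      ∫ u : Fin U.m → ℝ, Real.exp (-(2 * π) * ∑ φ, y φ * Real.exp (2 * U.lv u φ)) =
        kk U (∏ φ, y φ)

/-- sums over the generators of an ideal -/
def X_Gn : Prop :=
  ∀ (n : ℕ) (ℓ : ℝ) (U : UB k K n ℓ), ∃ J : ℝ, 0 < J ∧
    (∀ α : 𝓞 K, α ≠ 0 → {κ : 𝓞 K | sp κ = sp α ∧ U.β (emb k κ) ≠ 0}.Finite ∧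
      ∑ᶠ κ ∈ {κ : 𝓞 K | sp κ = sp α}, U.β (emb k κ) = J) ∧
    (∀ (G : 𝓞 K → ℂ) (A : ℝ), (∀ κ, ‖G κ‖ ≤ A) → ∀ I, ‖CC U G I‖ ≤ (1 + J) * A) ∧
    (∀ τ, 0 < τ → Summable fun κ : 𝓞 K =>
      U.β (emb k κ) * (√(nz (emb k κ)) * kk U (τ * nz (emb k κ)))) ∧
    ∀ (G : 𝓞 K → ℂ) (A τ : ℝ), (∀ κ, ‖G κ‖ ≤ A) → 0 < τ → LT U G τ = Th (kk U) (CC U G) τ

/-- unfolding -/
def X_Unf : Prop :=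
  ∀ (n : ℕ) (ℓ : ℝ) (U : UB k K n ℓ) (G : 𝓞 K → ℂ) (y : Emb k K → ℝ) (s A : ℝ),
    s = 1 ∨ s = -1 → (∀ φ, 0 < y φ) → (∀ κ, ‖G κ‖ ≤ A) →
    (∀ j κ, G ((U.ε j : 𝓞 K) * κ) = G κ) →
    ((∏ φ, y φ : ℝ) : ℂ) * ∫ u : Fin U.m → ℝ, ((∏ j, tent (u j) : ℝ) : ℂ) * ∑' κ : 𝓞 K, G κ *
      (√(nz (emb k κ)) * gau (fun φ => y φ * Real.exp (2 * s * U.lv u φ)) (emb k κ) : ℝ) =
      LT U G (∏ φ, y φ)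

/-- from ideals to elements -/
def X_FE1 : Prop :=
  ∀ (n m : ℕ) (ℓ : ℝ) (U : UB k K m ℓ) (Ψ : Ideal (𝓞 K) →* ℂ), Good K n → IsP k n Ψ →
    ∃ (ℛ : Finset (Ideal (𝓞 K))) (φ : Ideal (𝓞 K) → 𝓞 K → ℂ) (γ : Ideal (𝓞 K) → ℂ),
      (∀ 𝔠 ∈ ℛ, 𝔠 ≠ ⊥ ∧ Peri (sp ((n ^ 2 : ℕ) : 𝓞 K)) (φ 𝔠)) ∧
      ∀ t : 𝓞 K, (n : 𝓞 K) ∣ t - 1 → ∀ τ, 0 < τ → Tw (kk U) Ψ t τ = ∑ 𝔠 ∈ ℛ, γ 𝔠 *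
        LT U (fun β => φ 𝔠 β * dP (emb k β) * jac β (sp t)) (τ / NN 𝔠)

/-- the transformation of the series over elements -/
def X_FE2 : Prop :=
  ∀ (n : ℕ) (ℓ : ℝ) (U : UB k K (n ^ 3) ℓ) (φ : 𝓞 K → ℂ), Good K n → U.Tr (fun _ => 1) 0 →
    Peri (sp ((n ^ 2 : ℕ) : 𝓞 K)) φ → ∃ (c : 𝓞 K → ℂ) (γ : ℂ) (d : ℝ), 0 < d ∧
      Peri (sp ((n ^ 3 : ℕ) : 𝓞 K)) c ∧ ∀ t, Pri (n ^ 2) t → ∀ τ, 0 < τ →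
        LT U (fun β => φ β * dP (emb k β) * jac β (sp t)) τ = eps k t * γ *
          LT U (fun κ => c κ * conj (dP (emb k κ)) * jac κ (sp t)) (d / (τ * NN (sp t)))

/-- cancellation along squares from covariance under a Hecke character -/
def X_Sq0 : Prop :=
  ∃ η : ℝ, 0 < η ∧ η ≤ 1 ∧ ∀ (m : ℕ) (κ : Emb k K → ℤ) (χ : Ideal (𝓞 K) →* ℂ)
    (C : Ideal (𝓞 K) → ℂ) (A₀ : ℝ), 2 ≤ m → IsH k m κ 0 χ → κ ≠ 0 → (∀ I, ‖C I‖ ≤ A₀) →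
    (∀ 𝔫 I J, 𝔫 ≠ ⊥ → Cop m I → Cop m J → Ray m I J →
      C (𝔫 * I ^ 2) * χ J = C (𝔫 * J ^ 2) * χ I) → ∃ A, Co C A η

/-- covariance of the dual coefficients -/
def X_Sq1 : Prop :=
  ∀ (m : ℕ) (ℓ : ℝ) (U : UB k K m ℓ) (Ψ : Ideal (𝓞 K) →* ℂ) (c : 𝓞 K → ℂ), 2 ≤ m → IsP k m Ψ →
    Peri (sp (m : 𝓞 K)) c → ∀ 𝔫 I J, 𝔫 ≠ ⊥ → Cop m I → Cop m J → Ray m I J →
      CC U (fun κ => c κ * conj (dP (emb k κ))) (𝔫 * I ^ 2) * cj (Ψ * Ψ) J =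
        CC U (fun κ => c κ * conj (dP (emb k κ))) (𝔫 * J ^ 2) * cj (Ψ * Ψ) I

/-- the functional equation -/
def X_FE : Prop :=
  ∀ (n : ℕ) (Ψ : Ideal (𝓞 K) →* ℂ), Good K n → IsP k n Ψ →
    ∃ f, Ker f ∧ MelK f (Module.finrank k K) ∧ FEq k n Ψ f

/-- analytic continuation -/
def X_Mel : Prop :=
  ∀ (n r : ℕ) (Ψ : Ideal (𝓞 K) → ℂ) (f : ℝ → ℝ) (t : 𝓞 K), Ker f → MelK f r → FEq k n Ψ f →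
    Pri (n ^ 2) t → ∃ G : ℂ → ℂ, Differentiable ℂ G ∧
      (∀ s : ℂ, 3 / 2 < s.re → G s = LSeries (lam fun I => Ψ I * jac t I) (s - 1 / 2)) ∧
      (∫ τ in Set.Ioi (0 : ℝ), Tw f Ψ t τ / τ ≠ 0 → G 1 ≠ 0)

/-! ### large sieve inequalities -/

/-- the partners of an element -/
def X_DG : Prop :=
  ∃ C : ℝ, 1 ≤ C ∧ ∀ (κ : 𝓞 K) (ρ : ℝ) (S : Finset (𝓞 K)), κ ≠ 0 → 1 ≤ ρ →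
    (∀ x ∈ S, x ≠ 0 ∧ ‖emb k x‖ ≤ ρ ∧ ∀ v, ¬ Dv 2 v → Even (od v ((κ * x : 𝓞 K) : K))) →
    (S.card : ℝ) ≤ C * ρ ^ rk k K

/-- sums over a cube -/
def X_Cube : Prop :=
  ∃ C : ℝ, 1 ≤ C ∧ ∀ L : ℝ, 1 ≤ L → ∃ 𝒞 : Finset (𝓞 K), (∀ x, ‖emb k x‖ ≤ L → x ∈ 𝒞) ∧
    (𝒞.card : ℝ) ≤ C * L ^ (2 * rk k K) ∧ ∀ (m : ℕ) (F : 𝓞 K → ℂ) (u : 𝓞 K), 1 ≤ m →
      Peri (sp (m : 𝓞 K)) F → (∀ x, ‖F x‖ ≤ 1) → IsCoprime u (m : 𝓞 K) →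
      (∀ x, F (u * x) = -F x) → ‖∑ x ∈ 𝒞, F x‖ ≤ C * m * L ^ (2 * rk k K - 1)

/-- the mean square of the dual sums -/
def X_TM : Prop :=
  ∀ 𝔠 : Ideal (𝓞 K), 𝔠 ≠ ⊥ → ∃ C : ℝ, 1 ≤ C ∧ ∀ (L μ : ℝ) (Γ : Finset (𝓞 K)) (a : 𝓞 K → ℂ),
    1 ≤ L → 0 < μ → μ ≤ 1 → (∀ γ ∈ Γ, ‖emb k γ‖ ≤ L) →
    (∀ κ, ‖a κ‖ ≤ gau (fun _ => μ) (emb k κ)) → ∑ γ ∈ Γ, ‖∑' κ, a κ * jq 𝔠 κ γ‖ ^ 2 ≤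
      C * (L ^ (2 * rk k K) * μ ^ (-(3 * rk k K / 2)) +
        L ^ (2 * rk k K - 1) * μ ^ (-(4 * rk k K)))

/-- Poisson summation for a quadratic symbol -/
def X_PCh : Prop :=
  ∀ n, Good K n → ∃ (C : ℝ) (𝔡 : Ideal (𝓞 K)), 1 ≤ C ∧ ∀ (e q 𝔠 : Ideal (𝓞 K)) (γ : 𝓞 K) (Y : ℝ),
    Squarefree q → Cop n q → IsCoprime e q → ((n ^ 2 : ℕ) : 𝓞 K) ∈ 𝔠 → e * q * 𝔠 = sp γ → γ ≠ 0 →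
    0 < Y → ‖SS k e q Y‖ ≤ C * Y / (NN e * √(NN q)) *
      ‖∑' κ : 𝓞 K, (if κ ∈ 𝔠 * 𝔡 then jac κ q else 0) * (gau (fun φ => Y ^ (1 / rk k K) /
        (n ^ 2 * ‖emb k γ φ‖ ^ 2)) (emb k κ) : ℝ)‖

/-- the mean square of the smooth sums -/
def X_MQ : Prop :=
  ∀ n, Good K n → ∃ C : ℝ, 1 ≤ C ∧ ∀ (e q₂ : Ideal (𝓞 K)) (𝒬 : Finset (Ideal (𝓞 K)))
    (Y N N₁ : ℝ), 1 ≤ Y → N ≤ Y ^ (1 / 2 + 1 / (40 * rk k K)) → e ≠ ⊥ → NN e * NN q₂ ≤ N →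
    1 ≤ N₁ → N₁ ≤ N → (∀ q ∈ 𝒬, Squarefree (q * q₂) ∧ Cop n (q * q₂) ∧ IsCoprime e (q * q₂) ∧
      q * q₂ ≠ ⊤ ∧ N₁ ≤ NN q ∧ NN q ≤ 2 * N₁) → ∑ q ∈ 𝒬, ‖SS k e (q * q₂) Y‖ ^ 2 ≤
      C * Y ^ 2 / (NN e ^ 2 * NN q₂) * (NN e * N₁ * NN q₂ / Y) ^ (3 / 2 : ℝ)

/-- the bilinear bound -/
def X_Bil : Prop :=
  ∀ n, Good K n → ∃ C : ℝ, 1 ≤ C ∧ ∀ (e : Ideal (𝓞 K)) (𝒬 : Finset (Ideal (𝓞 K)))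
    (b b' : Ideal (𝓞 K) → ℂ) (Y N G : ℝ), 1 ≤ Y → N ≤ Y ^ (1 / 2 + 1 / (40 * rk k K)) → e ≠ ⊥ →
    NN e * G ≤ N → (∀ q ∈ 𝒬, Squarefree q ∧ Cop n q ∧ IsCoprime e q ∧ NN q ≤ G) →
    ‖∑ q ∈ 𝒬, ∑ q' ∈ 𝒬, if IsCoprime q q' ∧ q * q' ≠ ⊤ then b q * b' q' * SS k e (q * q') Y
      else 0‖ ≤ C * Y * NN e ^ (-(1 / 4 : ℝ)) * (G ^ 2 / Y) ^ (3 / 4 : ℝ) *
        (√(∑ q ∈ 𝒬, ‖b q‖ ^ 2) * √(∑ q ∈ 𝒬, ‖b' q‖ ^ 2))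

/-- the smooth large sieve inequality -/
def X_LS1o : Prop :=
  ∀ n, Good K n → ∃ C : ℝ, 1 ≤ C ∧ ∀ (T : Finset (𝓞 K)) (𝒩 : Finset (Ideal (𝓞 K)))
    (c : Ideal (𝓞 K) → ℂ) (Y N : ℝ), 1 ≤ Y → 0 ≤ N → N ≤ Y ^ (1 / 2 + 1 / (40 * rk k K)) →
    (∀ I ∈ 𝒩, Squarefree I ∧ Cop n I ∧ NN I ≤ N) →
    ∑ x ∈ T, gau (fun _ => Y ^ (-(1 / rk k K))) (emb k x) * ‖∑ I ∈ 𝒩, c I * jac x I‖ ^ 2 ≤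
      C * Y * (1 + (N ^ 2 / Y) ^ (3 / 4 : ℝ)) * ∑ I ∈ 𝒩, ‖c I‖ ^ 2

/-- the large sieve inequality beyond the square root -/
def X_LS1 : Prop :=
  ∀ n, Good K n → ∀ C₀ : ℝ, ∃ C : ℝ, 1 ≤ C ∧ ∀ (T : Finset (𝓞 K)) (𝒩 : Finset (Ideal (𝓞 K)))
    (Y N : ℝ), 1 ≤ Y → 0 ≤ N → N ≤ Y ^ (1 / 2 + 1 / (40 * rk k K)) →
    (∀ t ∈ T, (n : 𝓞 K) ∣ t - 1 ∧ ∀ φ, ‖emb k t φ‖ ^ 2 ≤ C₀ * Y ^ (1 / rk k K)) →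
    (∀ I ∈ 𝒩, Squarefree I ∧ NN I ≤ N) → Hl T 𝒩 (C * Y * (1 + (N ^ 2 / Y) ^ (3 / 4 : ℝ)))

/-- the large sieve inequality for short families -/
def X_LS0 : Prop :=
  ∀ n, Good K n → ∃ C : ℝ, 1 ≤ C ∧ ∀ (T : Finset (𝓞 K)) (𝒩 : Finset (Ideal (𝓞 K))) (Y N : ℝ),
    1 ≤ Y → Y ^ (6 * rk k K) ≤ N → (∀ t ∈ T, Pri n t ∧ NN (sp t) ≤ Y) →
    Set.InjOn sp (T : Set (𝓞 K)) → (∀ I ∈ 𝒩, I ≠ ⊥ ∧ NN I ≤ N) → Hs T 𝒩 (C * N)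

end Rel

end Pool.Agent.P.MP_b8021b_nt.BS
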