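import Pool.Agent.P.MP_b8021b_nt.BS.StT

/-! Interface statements: averages over families of twists. -/

namespace Pool.Agent.P.MP_b8021b_nt.BS

open NumberField IsDedekindDomain Finset MeasureTheory
open Pool.Agent.P.MP_b8021b_nt.VE Pool.Agent.P.MP_b8021b_nt.VC Pool.Agent.P.MP_b8021b_nt.BS.CF
open scoped Classical ComplexConjugate Real

/-- integrals of the majorant -/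
def X_Phi : Prop :=
  ∀ η A : ℝ, 0 < η → 1 ≤ A → ∃ c : ℝ, 1 ≤ c ∧ ∀ M Z : ℝ, 0 < M → 0 < Z →
    (∀ F : ℝ → ℂ, (∀ τ, 0 < τ → ‖F τ‖ ≤ ph η A (τ * M)) → Dom F c) ∧
    (∀ F : ℝ → ℂ, (∀ τ, 0 < τ → ‖F τ‖ ≤ if τ ≤ Z then ph η A (τ * M) else 0) →
      Dom F (c * (Z * M) ^ η)) ∧
    (∀ F : ℝ → ℂ, (∀ τ, 0 < τ → ‖F τ‖ ≤ if 1 ≤ τ * Z then (τ * M) ^ (-A) else 0) →
      Dom F ((Z / M) ^ A)) ∧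
    ∃ D : ℝ → ℝ, (∀ τ, 0 ≤ D τ) ∧
      (∀ τ z, 0 < τ → 1 ≤ τ * Z → τ * M ≤ z → z ≤ 2 * (τ * M) → ph η A z ≤ D τ) ∧
      Dom (fun τ => (D τ : ℂ)) (c * min 1 (Z / M))

/-- inequalities for a rapidly increasing sequence -/
def X_Num : Prop :=
  ∀ (c : ℝ) (h : ℕ), 0 < c → 1 ≤ h → ∃ G₀ A : ℝ, 1 ≤ A ∧ ∀ G ε : ℝ, G₀ ≤ G → 0 < ε → ∃ Y₀ : ℝ,
    ∀ Y : ℕ → ℝ, Y₀ ≤ Y 0 → (∀ j, Y j ^ G ≤ Y (j + 1)) → (∀ j, 2 ≤ Y j) ∧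
      (∀ p, ∏ j ∈ range (p + 1), (1 + Y j ^ (-(1 / (2 * h : ℝ)))) ^ h ≤ 1 + ε) ∧
      (∀ i j, i < j → Y i < Y j ^ (1 / (2 * h : ℝ))) ∧ ∀ (W : ℝ) (j₀ : ℕ), 1 ≤ W → ∃ p j₁ : ℕ,
        3 ≤ p ∧ j₀ ≤ j₁ ∧ W ^ 2 ≤ Y (p - 1) ^ (1 / 20 : ℝ) ∧ (2 : ℝ) ^ j₁ ≤ Y p ^ (1 / 2 + c) ∧
        (W * √(∏ j ∈ range (p + 1), Y j)) ^ A * ((2 : ℝ) ^ j₁) ^ (1 / 2 - A) ≤ ε ∧
        W * ∏ j ∈ (range (p + 1)).filter (fun j => Odd (j + p)), Y j ≤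
          ε * √(∏ j ∈ range (p + 1), Y j) ∧ W ≤ Y p ^ (1 / (2 * h : ℝ))

section Field

variable (K : Type) [Field K] [NumberField K]

/-- decomposition along the squarefree part -/
def X_Dec : Prop :=
  ∀ (ι : Type) [Fintype ι] [DecidableEq ι] (f : ℝ → ℝ) (C : Ideal (𝓞 K) → ℂ) (A₀ : ℝ)
    (ω : ι → 𝓞 K) (τ : ℝ), Ker f → (∀ I, ‖C I‖ ≤ A₀) → (∀ i, Squarefree (sp (ω i))) →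
    (∀ i j, i ≠ j → IsCoprime (ω i) (ω j)) → 0 < τ →
    HasSum (fun 𝔫 => if Squarefree 𝔫 then pc f C ω 𝔫 τ else 0) (Tw f C (∏ i, ω i) τ)

/-- the bound for the sums along squares -/
def X_Bb : Prop :=
  ∀ (f : ℝ → ℝ) (η A : ℝ), Ker f → 0 < η → η ≤ 1 → 1 ≤ A → ∃ c : ℝ, 1 ≤ c ∧
    ∀ (C : Ideal (𝓞 K) → ℂ) (A₀ : ℝ), Co C A₀ η → BB f C (c * A₀) (η / 2) A

/-- the main term does not vanish -/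
def X_MainP : Prop :=
  ∀ (f : ℝ → ℝ) (Ψ : Ideal (𝓞 K) →* ℂ) (A' η A c : ℝ), Ker f → (∀ I, ‖Ψ I‖ ≤ 1) → 0 < η → 1 ≤ A →
    BB f Ψ A' η A → 0 < c → (∀ s : ℝ, 1 < s → s ≤ 2 → c ≤ ‖LSeries (lam (Ψ * Ψ)) s‖) →
    ∫ τ in Set.Ioi (0 : ℝ), bb f Ψ ⊤ τ / τ ≠ 0

/-- two variables -/
def X_Rng1 : Prop :=
  ∃ c : ℝ, 1 ≤ c ∧ ∀ (T T' : Finset (𝓞 K)) (𝒩 : Finset (Ideal (𝓞 K))) (Δ Δ' : ℝ) (h : ℕ), 0 ≤ Δ →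
    0 ≤ Δ' → Hs T 𝒩 Δ → Hl T' 𝒩 Δ' → (∀ t ∈ T, (pr t).card ≤ h) → (∀ t ∈ T', (pr t).card ≤ h) →
    ∃ (𝒮 : Finset (Finset (Pl K) × Finset (Pl K))) (w : Finset (Pl K) × Finset (Pl K) → ℝ),
      (∀ S, 0 ≤ w S) ∧ ∑ S ∈ 𝒮, w S ≤ c * 2 ^ h * √(Δ * Δ' * T.card * T'.card) ∧
      ∀ (a a' : 𝓞 K → ℂ) (d : Finset (Pl K) → Finset (Pl K) → Ideal (𝓞 K) → ℂ)
        (D : Finset (Pl K) → Finset (Pl K) → ℝ), (∀ t, ‖a t‖ ≤ 1) → (∀ t, ‖a' t‖ ≤ 1) →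
        (∀ S S', 0 ≤ D S S') → (∀ S S', ∀ 𝔫 ∈ 𝒩, ‖d S S' 𝔫‖ ≤ D S S') →
        ‖∑ t ∈ T, ∑ t' ∈ T', a t * a' t' * ∑ 𝔫 ∈ 𝒩, jac t 𝔫 * jac t' 𝔫 *
          ∑ S ∈ (pr t).powerset, ∑ S' ∈ (pr t').powerset,
            ((NN (eI S))⁻¹ * (NN (eI S'))⁻¹ : ℝ) * d S S' 𝔫‖ ≤ ∑ S ∈ 𝒮, w S * D S.1 S.2

/-- one dyadic block -/
def X_Rng : Prop :=
  ∀ η A : ℝ, 0 < η → 1 ≤ A → ∃ c : ℝ, 1 ≤ c ∧ ∀ (ι : Type) [Fintype ι] [DecidableEq ι]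
    (F : Fam K ι) (σ : ι → ℝ) (Z : ℝ) (f : ℝ → ℝ) (C : Ideal (𝓞 K) → ℂ) (A' N Δ Δ' : ℝ) (h : ℕ)
    (s l : ι) (𝒩 : Finset (Ideal (𝓞 K))), F.Ok σ Z → BB f C A' η A → 0 < N →
    (∀ 𝔫 ∈ 𝒩, N ≤ NN 𝔫 ∧ NN 𝔫 ≤ 2 * N) → s ≠ l → ¬ (s ∈ F.E ∧ l ∈ F.E) →
    (∀ t ∈ F.T s, (pr t).card ≤ h) → (∀ t ∈ F.T l, (pr t).card ≤ h) → 0 ≤ Δ → 0 ≤ Δ' →
    Hs (F.T s) 𝒩 Δ → Hl (F.T l) 𝒩 Δ' →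
    Dom (fun τ => ∑ 𝔫 ∈ 𝒩, F.av (fun ω => pc f C ω 𝔫 τ) τ) (c * A' * (∏ i, (1 + σ i)) * 2 ^ h *
      (√(Δ * Δ' / (N * (F.T s).card * (F.T l).card)) * min 1 (Z / N)))

/-- one squarefree part -/
def X_Sg : Prop :=
  ∀ η A : ℝ, 0 < η → 1 ≤ A → ∃ c : ℝ, 1 ≤ c ∧ ∀ (ι : Type) [Fintype ι] [DecidableEq ι]
    (F : Fam K ι) (σ Λ : ι → ℝ) (Z : ℝ) (f : ℝ → ℝ) (C : Ideal (𝓞 K) → ℂ) (A' : ℝ)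
    (𝔫 : Ideal (𝓞 K)), F.Ok σ Z → BB f C A' η A → 𝔫 ≠ ⊥ → (∀ i ∈ F.E, 1 + σ i ≤ Λ i) →
    (∀ i ∉ F.E, ‖∑ t ∈ F.T i, F.a i t * jac t 𝔫‖ / (F.T i).card + σ i ≤ Λ i) →
    Dom (fun τ => F.av (fun ω => pc f C ω 𝔫 τ) τ) (c * A' * ∏ i, Λ i)

/-- the large squarefree parts -/
def X_Tail : Prop :=
  ∀ η A : ℝ, 0 < η → 1 ≤ A → ∃ c : ℝ, 1 ≤ c ∧ ∀ (ι : Type) [Fintype ι] [DecidableEq ι]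
    (F : Fam K ι) (σ : ι → ℝ) (Z : ℝ) (f : ℝ → ℝ) (C : Ideal (𝓞 K) → ℂ) (A₀ A' M : ℝ), F.Ok σ Z →
    Ker f → (∀ I, ‖C I‖ ≤ A₀) → BB f C A' η A → 1 ≤ M →
    Dom (fun τ => F.av (fun ω => Tw f C (∏ i, ω i) τ) τ -
      ∑ 𝔫 ∈ sqf K 1 M, F.av (fun ω => pc f C ω 𝔫 τ) τ)
      (c * A' * (∏ i, (1 + σ i)) * (Z ^ A * M ^ (1 / 2 - A)))

/-- the main term -/
def X_Main : Prop :=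
  ∀ η A : ℝ, 0 < η → 1 ≤ A → ∃ c : ℝ, 1 ≤ c ∧ ∀ (ι : Type) [Fintype ι] [DecidableEq ι]
    (F : Fam K ι) (σ : ι → ℝ) (Z : ℝ) (f : ℝ → ℝ) (C : Ideal (𝓞 K) → ℂ) (A' : ℝ), F.Ok σ Z →
    BB f C A' η A → (∀ i t, F.a i t = 1) →
    Dom (fun τ => F.av (fun ω => pc f C ω ⊤ τ) τ - bb f C ⊤ τ)
      (c * A' * (∏ i, (1 + σ i) - 1 + F.lam ^ η))

/-- all squarefree parts that are not small -/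
def X_Side : Prop :=
  ∀ η A δ : ℝ, 0 < η → 1 ≤ A → 0 < δ → ∃ c : ℝ, 1 ≤ c ∧ ∀ (ι : Type) [Fintype ι] [DecidableEq ι]
    (F : Fam K ι) (σ : ι → ℝ) (Z : ℝ) (f : ℝ → ℝ) (C : Ideal (𝓞 K) → ℂ) (A₀ A' C₁ : ℝ)
    (h j₀ j₁ : ℕ), F.Ok σ Z → Ker f → (∀ I, ‖C I‖ ≤ A₀) → BB f C A' η A → j₀ ≤ j₁ → 0 ≤ C₁ →
    F.Cov h j₀ j₁ Z C₁ δ → Dom (fun τ => F.av (fun ω => Tw f C (∏ i, ω i) τ) τ -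
      ∑ 𝔫 ∈ sqf K 1 (2 ^ j₀), F.av (fun ω => pc f C ω 𝔫 τ) τ) (c * A' * (∏ i, (1 + σ i)) *
      (2 ^ h * C₁ * ((2 : ℝ) ^ j₀) ^ (-δ) + Z ^ A * ((2 : ℝ) ^ j₁) ^ (1 / 2 - A)))

/-- cutting the integral and applying the functional equation -/
def X_Cut : Prop :=
  ∀ (ι : Type) [Fintype ι] [DecidableEq ι] (T : ι → Finset (𝓞 K)) (E : Finset ι) (lm : ℝ)
    (e : ι → 𝓞 K → ℂ) (m : ℕ) (g : (ι → 𝓞 K) → ℝ → ℂ) (g' : Fin m → (ι → 𝓞 K) → ℝ → ℂ)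
    (γ : Fin m → ℂ) (c : Fin m → ℝ), 0 < lm → (∀ j, 0 < c j) → (∀ i, ∀ t ∈ T i, t ≠ 0) →
    (∀ ω ∈ Fintype.piFinset T, (∀ x : ℝ, 0 < x → IntegrableOn (fun τ => g ω τ / τ) (Set.Ioi x) ∧
        ∀ j, IntegrableOn (fun τ => g' j ω τ / τ) (Set.Ioi x)) ∧
      (∀ τ, 0 < τ → g ω τ = (∏ i, e i (ω i)) * ∑ j, γ j * g' j ω (c j / (τ * NN (sp (∏ i, ω i))))) ∧
      ∫ τ in Set.Ioi (0 : ℝ), g ω τ / τ = 0) →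
    IntegrableOn (fun τ => (⟨T, fun _ _ => 1, E, lm⟩ : Fam K ι).av (fun ω => g ω τ) τ / τ)
      (Set.Ioi 0) ∧
    (∫ τ in Set.Ioi (0 : ℝ), (⟨T, fun _ _ => 1, E, lm⟩ : Fam K ι).av (fun ω => g ω τ) τ / τ) +
      ∑ j, γ j * ∫ τ in Set.Ioi (0 : ℝ),
        (⟨T, e, Eᶜ, c j / lm⟩ : Fam K ι).av (fun ω => g' j ω τ) τ / τ = 0

end Field

section Rel

variable (k : Type) [Field k] [NumberField k] [Algebra k ℂ] (K : Type) [Field K] [NumberField K]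
  [Algebra k K]

/-- the dyadic blocks are covered -/
def X_Cv : Prop :=
  ∀ n, Good K n → ∀ C₀ B : ℝ, 1 ≤ B → ∃ G₀ : ℝ, ∀ G, G₀ ≤ G → ∃ η δ C₁ : ℝ, 0 < η ∧ 0 < δ ∧ 0 ≤ C₁ ∧
    ∀ (ζ : K) (h : ℕ) (𝒵 : Finset (Pl K)) (T : ℕ → Finset (𝓞 K)) (Y : ℕ → ℝ), 2 ≤ Y 0 →
      (∀ j, Y j ^ G ≤ Y (j + 1) ∧ Y (j + 1) ≤ Y j ^ (G * B) ∧
        Scale k (n ^ 2) ζ h C₀ η 𝒵 (T j) (Y j)) → ∀ (j₀ p j₁ : ℕ) (W : ℝ), Y 2 ≤ 2 ^ j₀ → 3 ≤ p →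
      1 ≤ W → W ^ 2 ≤ Y (p - 1) ^ (1 / 20 : ℝ) →
      (2 : ℝ) ^ j₁ ≤ Y p ^ (1 / 2 + 1 / (40 * rk k K)) →
      Cover T p j₀ j₁ (W * √(∏ j ∈ range (p + 1), Y j)) C₁ δ

/-- the scales -/
def X_Sc : Prop :=
  ∀ (n : ℕ) (ζ : K), Good K n → Un ζ → ∃ (δ A C₁ : ℝ) (h : ℕ), 0 < δ ∧ 1 ≤ A ∧ 0 ≤ C₁ ∧
    ∀ (ε : ℝ) (j : ℕ), 0 < ε → ∃ j₀, j ≤ j₀ ∧ ∀ x : ℕ, ∃ W₁ : ℝ, ∀ (𝒵 : Finset (Pl K)) (W : ℝ),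
      𝒵.card ≤ x → (∀ v ∈ 𝒵, W₁ ≤ NN v.asIdeal) → 1 ≤ W →
      ∃ (p j₁ : ℕ) (T : ℕ → Finset (𝓞 K)) (Y σ : ℕ → ℝ),
        (∀ i, (T i).Nonempty ∧ 1 ≤ Y i ∧ ∀ t ∈ T i, Adm (n ^ 2) ζ t ∧ (pr t).card ≤ h ∧
          NN (sp t) ≤ Y i ∧ dv t ≤ 1 + σ i ∧ ∀ v ∈ pr t, v ∉ 𝒵) ∧
        (∀ i i', i ≠ i' → ∀ t ∈ T i, ∀ t' ∈ T i', IsCoprime t t') ∧
        ∏ i ∈ range (p + 1), (1 + σ i) ≤ 1 + ε ∧ j₀ ≤ j₁ ∧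
        Cover T p j₀ j₁ (W * √(∏ i ∈ range (p + 1), Y i)) C₁ δ ∧
        (W * √(∏ i ∈ range (p + 1), Y i)) ^ A * ((2 : ℝ) ^ j₁) ^ (1 / 2 - A) ≤ ε ∧
        W * ∏ i ∈ (range (p + 1)).filter (fun i => Odd (i + p)), Y i ≤
          ε * √(∏ i ∈ range (p + 1), Y i) ∧ ∀ t ∈ T p, ∃ v ∈ pr t, W ≤ NN v.asIdeal

/-- nonvanishing of some twist -/
def X_NV : Prop :=
  ∀ (n : ℕ) (ζ : K) (Ψ : Ideal (𝓞 K) →* ℂ) (f : ℝ → ℝ), Good K n → Un ζ → IsP k n Ψ → Ker f →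
    FEq k n Ψ f → ∀ W : ℝ, ∃ t, Adm (n ^ 2) ζ t ∧ (∃ v ∈ pr t, W ≤ NN v.asIdeal) ∧
      ∫ τ in Set.Ioi (0 : ℝ), Tw f Ψ t τ / τ ≠ 0

end Rel

end Pool.Agent.P.MP_b8021b_nt.BS
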